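import Pool.Agent.Lib.MP_2194ec_nt.LE.Defs

set_option autoImplicit false

/-!
# The addition-and-subtraction map on first coordinates

For points `P`, `Q` of a Weierstrass curve over a field, the map `addSubMap` of Mathlib sends the
symmetric square of the first coordinates of `P`, `Q` to that of `P + Q`, `P - Q`.
-/

namespace Pool.DynLehmer.LE.AS
open MvPolynomial WeierstrassCurve WeierstrassCurve.Affine

variable {F : Type*} [Field F] (W : WeierstrassCurve F)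

theorem evalv (s t u : F) : (fun i => eval ![s, t, u] (addSubMap W i)) =
    ![s ^ 2 - W.b₄ * s * u - W.b₆ * t * u - W.b₈ * u ^ 2,
      2 * t * s + W.b₂ * s * u + W.b₄ * t * u + W.b₆ * u ^ 2, t ^ 2 - 4 * s * u] := by
  funext i
  fin_cases i <;> simp [addSubMap]

/-- the sum of the two first coordinates -/
theorem id_sum {a₁ a₂ a₃ a₄ a₆ x₁ y₁ x₂ y₂ : F}
    (h₁ : y₁ ^ 2 + a₁ * x₁ * y₁ + a₃ * y₁ = x₁ ^ 3 + a₂ * x₁ ^ 2 + a₄ * x₁ + a₆)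
    (h₂ : y₂ ^ 2 + a₁ * x₂ * y₂ + a₃ * y₂ = x₂ ^ 3 + a₂ * x₂ ^ 2 + a₄ * x₂ + a₆) :
    ((y₁ - y₂) ^ 2 + a₁ * (y₁ - y₂) * (x₁ - x₂) - (a₂ + x₁ + x₂) * (x₁ - x₂) ^ 2) +
      ((y₁ + (y₂ + a₁ * x₂ + a₃)) ^ 2 + a₁ * (y₁ + (y₂ + a₁ * x₂ + a₃)) * (x₁ - x₂) -
        (a₂ + x₁ + x₂) * (x₁ - x₂) ^ 2) =
    2 * (x₁ + x₂) * (x₁ * x₂) + (a₁ ^ 2 + 4 * a₂) * (x₁ * x₂) + (2 * a₄ + a₁ * a₃) * (x₁ + x₂) +
      (a₃ ^ 2 + 4 * a₆) := by
  linear_combination 2 * h₁ + 2 * h₂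

/-- the product of the two first coordinates -/
theorem id_prod {a₁ a₂ a₃ a₄ a₆ x₁ y₁ x₂ y₂ : F}
    (h₁ : y₁ ^ 2 + a₁ * x₁ * y₁ + a₃ * y₁ = x₁ ^ 3 + a₂ * x₁ ^ 2 + a₄ * x₁ + a₆)
    (h₂ : y₂ ^ 2 + a₁ * x₂ * y₂ + a₃ * y₂ = x₂ ^ 3 + a₂ * x₂ ^ 2 + a₄ * x₂ + a₆) :
    ((y₁ - y₂) ^ 2 + a₁ * (y₁ - y₂) * (x₁ - x₂) - (a₂ + x₁ + x₂) * (x₁ - x₂) ^ 2) *
      ((y₁ + (y₂ + a₁ * x₂ + a₃)) ^ 2 + a₁ * (y₁ + (y₂ + a₁ * x₂ + a₃)) * (x₁ - x₂) -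
        (a₂ + x₁ + x₂) * (x₁ - x₂) ^ 2) =
    (x₁ - x₂) ^ 2 * ((x₁ * x₂) ^ 2 - (2 * a₄ + a₁ * a₃) * (x₁ * x₂) -
      (a₃ ^ 2 + 4 * a₆) * (x₁ + x₂) -
      (a₁ ^ 2 * a₆ + 4 * a₂ * a₆ - a₁ * a₃ * a₄ + a₂ * a₃ ^ 2 - a₄ ^ 2)) := by
  linear_combination
    ((y₁ ^ 2 + a₁ * x₁ * y₁ + a₃ * y₁ - y₂ ^ 2 - a₁ * x₂ * y₂ - a₃ * y₂) + (x₁ ^ 3 - x₂ ^ 3) +
      a₂ * (x₁ ^ 2 - x₂ ^ 2) + a₄ * (x₁ - x₂) + a₁ ^ 2 * x₂ * (x₁ - x₂) + a₁ * a₃ * (x₁ - x₂) -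
      2 * (a₂ + x₁ + x₂) * (x₁ - x₂) ^ 2) * h₁ +
    (-(y₁ ^ 2 + a₁ * x₁ * y₁ + a₃ * y₁ - y₂ ^ 2 - a₁ * x₂ * y₂ - a₃ * y₂) - (x₁ ^ 3 - x₂ ^ 3) -
      a₂ * (x₁ ^ 2 - x₂ ^ 2) - a₄ * (x₁ - x₂) - a₁ ^ 2 * x₁ * (x₁ - x₂) - a₁ * a₃ * (x₁ - x₂) -
      2 * (a₂ + x₁ + x₂) * (x₁ - x₂) ^ 2) * h₂

/-- the double of a point -/
theorem id_dbl {a₁ a₂ a₃ a₄ a₆ x y : F}
    (h : y ^ 2 + a₁ * x * y + a₃ * y = x ^ 3 + a₂ * x ^ 2 + a₄ * x + a₆) :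
    (3 * x ^ 2 + 2 * a₂ * x + a₄ - a₁ * y) ^ 2 +
      a₁ * (3 * x ^ 2 + 2 * a₂ * x + a₄ - a₁ * y) * (2 * y + a₁ * x + a₃) -
      (a₂ + 2 * x) * (2 * y + a₁ * x + a₃) ^ 2 =
    x ^ 4 - (2 * a₄ + a₁ * a₃) * x ^ 2 - 2 * (a₃ ^ 2 + 4 * a₆) * x -
      (a₁ ^ 2 * a₆ + 4 * a₂ * a₆ - a₁ * a₃ * a₄ + a₂ * a₃ ^ 2 - a₄ ^ 2) := by
  linear_combination (-(a₁ ^ 2 + 4 * a₂ + 8 * x)) * h

section points
variable [DecidableEq F] {W}

/-- `P` and `Q` with different first coordinates -/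
theorem key_ne {x₁ y₁ x₂ y₂ : F} (h₁ : W.toAffine.Nonsingular x₁ y₁)
    (h₂ : W.toAffine.Nonsingular x₂ y₂) (hx : x₁ ≠ x₂) :
    (fun i => eval ((Point.some x₁ y₁ h₁).sym2x (Point.some x₂ y₂ h₂)) (addSubMap W i)) =
      ((x₁ - x₂) ^ 2) • ((Point.some x₁ y₁ h₁ + Point.some x₂ y₂ h₂).sym2x
        (Point.some x₁ y₁ h₁ - Point.some x₂ y₂ h₂)) := by
  have E₁ := (W.toAffine.equation_iff x₁ y₁).1 h₁.1
  have E₂ := (W.toAffine.equation_iff x₂ y₂).1 h₂.1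
  have hd : x₁ - x₂ ≠ 0 := sub_ne_zero.2 hx
  have hm : Point.some x₁ y₁ h₁ - Point.some x₂ y₂ h₂ = Point.some x₁ y₁ h₁ +
    -Point.some x₂ y₂ h₂ := sub_eq_add_neg _ _
  rw [hm, Point.neg_some, Point.add_of_X_ne hx, Point.add_of_X_ne hx,
    Point.sym2x_some_some, Point.sym2x_some_some, evalv, slope_of_X_ne hx, slope_of_X_ne hx]
  have hX : (x₁ - x₂) ^ 2 * W.toAffine.addX x₁ x₂ ((y₁ - y₂) / (x₁ - x₂)) =
      (y₁ - y₂) ^ 2 + W.a₁ * (y₁ - y₂) * (x₁ - x₂) - (W.a₂ + x₁ + x₂) * (x₁ - x₂) ^ 2 := by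
    rw [addX]
    field_simp
    ring
  have hX' : (x₁ - x₂) ^ 2 * W.toAffine.addX x₁ x₂ ((y₁ - W.toAffine.negY x₂ y₂) / (x₁ - x₂)) =
      (y₁ + (y₂ + W.a₁ * x₂ + W.a₃)) ^ 2 + W.a₁ * (y₁ + (y₂ + W.a₁ * x₂ + W.a₃)) * (x₁ - x₂) -
        (W.a₂ + x₁ + x₂) * (x₁ - x₂) ^ 2 := by
    rw [addX, negY]
    field_simp
    ring
  have s := id_sum E₁ E₂
  have p := id_prod E₁ E₂
  rw [← hX, ← hX'] at s p
  funext i
  fin_cases i
  · simp only [Fin.zero_eta, Matrix.cons_val_zero, Pi.smul_apply, smul_eq_mul]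
    have h2 : (x₁ - x₂) ^ 2 ≠ 0 := pow_ne_zero 2 hd
    apply mul_left_cancel₀ h2
    simp only [b₄, b₆, b₈]
    linear_combination -p
  · simp only [Fin.mk_one, Matrix.cons_val_one, Matrix.cons_val_zero, Pi.smul_apply, smul_eq_mul]
    simp only [b₂, b₄, b₆]
    linear_combination -s
  · simp
    ring

/-- the vector of the double of a point -/
theorem key_dbl {x y : F} (h : W.toAffine.Nonsingular x y) :
    ∃ c : F, c ≠ 0 ∧ ![x ^ 4 - W.b₄ * x ^ 2 - 2 * W.b₆ * x - W.b₈,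
      4 * x ^ 3 + W.b₂ * x ^ 2 + 2 * W.b₄ * x + W.b₆, 0] =
      c • ((0 : W.toAffine.Point).sym2x (Point.some x y h + Point.some x y h)) := by
  have E := (W.toAffine.equation_iff x y).1 h.1
  have hη : (2 * y + W.a₁ * x + W.a₃) ^ 2 = 4 * x ^ 3 + W.b₂ * x ^ 2 + 2 * W.b₄ * x + W.b₆ := by
    simp only [b₂, b₄, b₆]
    linear_combination 4 * E
  have d := id_dbl E
  by_cases hy : y = W.toAffine.negY x y
  · rw [Point.add_self_of_Y_eq hy, Point.sym2x_zero_zero]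
    have h0 : 2 * y + W.a₁ * x + W.a₃ = 0 := by
      rw [negY] at hy
      linear_combination hy
    have h1 : 4 * x ^ 3 + W.b₂ * x ^ 2 + 2 * W.b₄ * x + W.b₆ = 0 := by
      rw [← hη, h0]
      ring
    have hM : 3 * x ^ 2 + 2 * W.a₂ * x + W.a₄ - W.a₁ * y ≠ 0 := by
      rcases ((W.toAffine.nonsingular_iff x y).1 h).2 with h2 | h2
      · exact fun h3 => h2 (by linear_combination -h3)
      · exact absurd hy h2
    refine ⟨x ^ 4 - W.b₄ * x ^ 2 - 2 * W.b₆ * x - W.b₈, fun h2 => hM ?_, ?_⟩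
    · have h3 : (3 * x ^ 2 + 2 * W.a₂ * x + W.a₄ - W.a₁ * y) ^ 2 = 0 := by
        simp only [b₄, b₆, b₈] at h2
        rw [h2, h0] at d
        linear_combination d
      exact pow_eq_zero_iff (two_ne_zero) |>.1 h3
    · rw [h1]
      funext i
      fin_cases i <;> simp
  · have hη0 : 2 * y + W.a₁ * x + W.a₃ ≠ 0 := by
      intro h0
      apply hy
      rw [negY]
      linear_combination h0
    rw [Point.add_self_of_Y_ne hy, Point.sym2x_zero_some, slope_of_Y_ne rfl hy]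
    refine ⟨(2 * y + W.a₁ * x + W.a₃) ^ 2, pow_ne_zero 2 hη0, ?_⟩
    have hX : (2 * y + W.a₁ * x + W.a₃) ^ 2 *
        W.toAffine.addX x x ((3 * x ^ 2 + 2 * W.a₂ * x + W.a₄ - W.a₁ * y) /
          (y - W.toAffine.negY x y)) =
        x ^ 4 - W.b₄ * x ^ 2 - 2 * W.b₆ * x - W.b₈ := by
      have e : y - W.toAffine.negY x y = 2 * y + W.a₁ * x + W.a₃ := by rw [negY]; ring
      rw [e, addX]
      simp only [b₄, b₆, b₈]
      rw [← d]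
      field_simp
      ring
    funext i
    fin_cases i
    · exact hX.symm
    · simp [hη]
    · simp

/-- `addSubMap` on the symmetric square of the first coordinates. -/
theorem key (P Q : W.toAffine.Point) :
    ∃ c : F, c ≠ 0 ∧ (fun i => eval (P.sym2x Q) (addSubMap W i)) =
      c • ((P + Q).sym2x (P - Q)) := by
  rcases P with _ | ⟨x₁, y₁, h₁⟩
  · rw [Point.zero_def.symm, zero_add, zero_sub, Point.sym2x_neg_right]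
    refine ⟨1, one_ne_zero, ?_⟩
    rcases Q with _ | ⟨x₂, y₂, h₂⟩
    · rw [Point.zero_def.symm, Point.sym2x_zero_zero, evalv, one_smul]
      funext i
      fin_cases i <;> simp
    · rw [Point.sym2x_zero_some, Point.sym2x_some_some, evalv, one_smul]
      funext i
      fin_cases i <;> simp <;> ring
  · rcases Q with _ | ⟨x₂, y₂, h₂⟩
    · rw [Point.zero_def.symm, add_zero, sub_zero]
      refine ⟨1, one_ne_zero, ?_⟩
      rw [Point.sym2x_some_zero, Point.sym2x_some_some, evalv, one_smul]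
      funext i
      fin_cases i <;> simp <;> ring
    · by_cases hx : x₁ = x₂
      · obtain ⟨c, hc, h⟩ := key_dbl h₁
        refine ⟨c, hc, ?_⟩
        have hv : (fun i => eval ((Point.some x₁ y₁ h₁).sym2x (Point.some x₂ y₂ h₂))
            (addSubMap W i)) = ![x₁ ^ 4 - W.b₄ * x₁ ^ 2 - 2 * W.b₆ * x₁ - W.b₈,
            4 * x₁ ^ 3 + W.b₂ * x₁ ^ 2 + 2 * W.b₄ * x₁ + W.b₆, 0] := by
          rw [Point.sym2x_some_some, evalv, ← hx]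
          funext i
          fin_cases i <;> simp <;> ring
        rw [hv, h]
        rcases (Point.X_eq_iff (h₁ := h₁) (h₂ := h₂)).1 hx with e | e
        · rw [← e, sub_self, Point.sym2x_comm]
        · have e' : Point.some x₂ y₂ h₂ = -Point.some x₁ y₁ h₁ := by rw [e, neg_neg]
          rw [e', add_neg_cancel, sub_neg_eq_add]
      · exact ⟨(x₁ - x₂) ^ 2, pow_ne_zero 2 (sub_ne_zero.2 hx), key_ne h₁ h₂ hx⟩

end points

end Pool.DynLehmer.LE.AS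

namespace Pool.DynLehmer.LE

theorem addsub : AddsubStatement := by
  intro L _ W P Q
  classical
  exact AS.key P Q

end Pool.DynLehmer.LE
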