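import Pool.Agent.Lib.MP_2194ec_nt.LE.DefsU
import Pool.Agent.Lib.MP_2194ec_nt.LW.DefsHt

set_option autoImplicit false

/-!
# The Lehmer bound for all elliptic curves and primitive almost simple groups: statement
-/

namespace Pool.DynLehmer.LE
open MvPolynomial NumberField Filter Topology Pool.DynLehmer Pool.DynLehmer.SB Pool.DynLehmer.SP
  Pool.DynLehmer.GS Pool.DynLehmer.LP Pool.DynLehmer.LW
open scoped Classical

/-- For every `A ≥ k ≥ 3` linearly independent conjugates of `P` there is a sub-tuple of at least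
half of them whose classes modulo torsion have an orbit of more than `e ^ (k' - 1 / A)` elements,
`e` the index of `S`, `k'` the length of the sub-tuple. -/
def IndH {K : Type} [Field K] {a b : K} {N : Type} [Field N] [Algebra K N] (P : Ept a b N)
    (S : Subgroup (N ≃ₐ[K] N)) (A : ℕ) : Prop :=
  ∀ (m : ℕ) (σ : Fin m → (N ≃ₐ[K] N)), 3 ≤ m → m ≤ A →
    (∀ γ : Fin m → ℤ, ∑ i, γ i • pm (σ i : N →ₐ[K] N) P = 0 → γ = 0) →
    ∃ (k : ℕ) (ι : Fin k → Fin m), Function.Injective ι ∧ m ≤ 2 * k ∧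
      S.index ^ (k * A - 1) < (⨅ i, S.map (MulAut.conj (σ (ι i))).toMonoidHom).index ^ A

/-- **The Lehmer bound for elliptic curves outside primitive almost simple groups**, all elliptic
curves (from FINEU, FREELU, REPE, CLSE, PASH). -/
def LatpuStatement : Prop :=
  ∀ (K : Type) [Field K] [NumberField K] (a b : K), 4 * a ^ 3 + 27 * b ^ 2 ≠ 0 →
    ∀ (p s lam : ℕ) (v : FinitePlace K) (F : Fin 2 → MvPolynomial (Fin 2) K), HypR p s v F →
    2 ≤ lam → lam ^ 2 = p ^ s → IsLat a b lam F →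
    ∀ A M : ℕ, 1 ≤ A → ∃ c : ℝ, 0 < c ∧
    ∀ (N : Type) [Field N] [NumberField N] [Algebra K N] [IsGalois K N] (P : Ept a b N),
      (∀ n : ℕ, 1 ≤ n → n • P ≠ 0) →
      ∃ S : Subgroup (N ≃ₐ[K] N), (∀ g : N ≃ₐ[K] N, g ∈ S ↔ Tq (pm (g : N →ₐ[K] N) P) P) ∧
      (Nat.card {Q : Ept a b N // (∃ σ : N ≃ₐ[K] N, pm (σ : N →ₐ[K] N) P = Q) ∧ Tq P Q} ≤
          M * S.index ^ M →
        (∃ h : ℝ, HasHt (p ^ s) F P.xRep h ∧ c / (dg K P.xRep : ℝ) ≤ h) ∨
        IndH P S A ∧ Pas S A 81)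

end Pool.DynLehmer.LE
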