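import Pool.Agent.Lib.MP_2194ec_nt.LE.Defs2
import Pool.Agent.Lib.MP_2194ec_nt.LW.DefsPas

set_option autoImplicit false

/-!
# The Lehmer bound for elliptic curves and primitive almost simple groups: statement
-/

namespace Pool.DynLehmer.LE
open MvPolynomial NumberField Filter Topology Pool.DynLehmer Pool.DynLehmer.SB Pool.DynLehmer.SP
  Pool.DynLehmer.GS Pool.DynLehmer.LP Pool.DynLehmer.LW
open scoped Classical

/-- For every `k ≤ A` linearly independent conjugates of `P`, the orbit of their classes modulo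
torsion has more than `e ^ (k - 1 / A)` elements, `e` the index of `S`. -/
def IndE {K : Type} [Field K] {a b : K} {N : Type} [Field N] [Algebra K N] (P : Ept a b N)
    (S : Subgroup (N ≃ₐ[K] N)) (A : ℕ) : Prop :=
  ∀ (k : ℕ) (σ : Fin k → (N ≃ₐ[K] N)), 2 ≤ k → k ≤ A →
    (∀ γ : Fin k → ℤ, ∑ i, γ i • pm (σ i : N →ₐ[K] N) P = 0 → γ = 0) →
    S.index ^ (k * A - 1) < (⨅ i, S.map (MulAut.conj (σ i)).toMonoidHom).index ^ A

/-- **The Lehmer bound for elliptic curves outside primitive almost simple groups**, row LATP (from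
FINE, REPE, CLSE, GRPO2). `S` is the stabilizer of the class of `P` modulo torsion, its index is the
number of the classes of the conjugates of `P`. -/
def LatpStatement : Prop :=
  ∀ (K : Type) [Field K] [NumberField K] (a b : K), 4 * a ^ 3 + 27 * b ^ 2 ≠ 0 → NoCM a b →
    ∀ (p s lam : ℕ) (v : FinitePlace K) (F : Fin 2 → MvPolynomial (Fin 2) K), HypR p s v F →
    2 ≤ lam → lam ^ 2 = p ^ s → IsLat a b lam F →
    ∀ A M : ℕ, 1 ≤ A → ∃ c : ℝ, 0 < c ∧
    ∀ (N : Type) [Field N] [NumberField N] [Algebra K N] [IsGalois K N] (P : Ept a b N),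
      (∀ n : ℕ, 1 ≤ n → n • P ≠ 0) →
      ∃ S : Subgroup (N ≃ₐ[K] N), (∀ g : N ≃ₐ[K] N, g ∈ S ↔ Tq (pm (g : N →ₐ[K] N) P) P) ∧
      (Nat.card {Q : Ept a b N // (∃ σ : N ≃ₐ[K] N, pm (σ : N →ₐ[K] N) P = Q) ∧ Tq P Q} ≤
          M * S.index ^ M →
        (∃ h : ℝ, HasHt (p ^ s) F P.xRep h ∧ c / (dg K P.xRep : ℝ) ≤ h) ∨
        IndE P S A ∧ Pas S A 2)

end Pool.DynLehmer.LE
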