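import Pool.Agent.Lib.MP_2194ec_nt.LE.Lat
import Pool.Agent.Lib.MP_2194ec_nt.LE.DefsP
import Pool.Agent.Lib.MP_2194ec_nt.LW.GrppC

set_option autoImplicit false
set_option linter.unusedSectionVars false

/-!
# The Lehmer bound for elliptic curves and primitive almost simple groups: assembly
-/

namespace Pool.DynLehmer.LE
open MvPolynomial NumberField Filter Topology Pool.DynLehmer Pool.DynLehmer.SB Pool.DynLehmer.SP
  Pool.DynLehmer.GS Pool.DynLehmer.LP Pool.DynLehmer.LW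
open scoped Classical

namespace Latp

theorem orbit_meet {G X : Type} [Group G] [MulAction G X] (x : X) {k : ℕ} (σ : Fin k → G) :
    Nat.card (MulAction.orbit G (fun i => σ i • x)) =
      (⨅ i, (MulAction.stabilizer G x).map (MulAut.conj (σ i)).toMonoidHom).index := by
  rw [Nat.card_coe_set_eq, ← MulAction.index_stabilizer G]
  congr 1
  ext g
  rw [MulAction.mem_stabilizer_iff, _root_.funext_iff, Subgroup.mem_iInf]
  refine forall_congr' fun i => ?_
  rw [← MulAction.stabilizer_smul_eq_stabilizer_map_conj, MulAction.mem_stabilizer_iff]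
  rfl

theorem num1 {n e c C A A' k : ℕ} (hk : 1 ≤ k) (hA' : 1 ≤ A') (he : 1 ≤ e)
    (h : n ^ A' ≤ c * e ^ (k * A' - 1)) (hc : c ≤ C) (hA : 1 ≤ A) :
    n ^ (A * A') ≤ C ^ A * e ^ (k * (A * A') - 1) := by
  calc n ^ (A * A') = (n ^ A') ^ A := by rw [← pow_mul, mul_comm]
    _ ≤ (c * e ^ (k * A' - 1)) ^ A := Nat.pow_le_pow_left h A
    _ = c ^ A * e ^ (A * (k * A' - 1)) := by
        rw [mul_pow, ← pow_mul, mul_comm (k * A' - 1) A]
    _ ≤ C ^ A * e ^ (k * (A * A') - 1) := by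
        refine Nat.mul_le_mul (Nat.pow_le_pow_left hc A) (Nat.pow_le_pow_right he ?_)
        have h1 : 1 ≤ k * A' := Nat.mul_pos hk hA'
        have h2 : k * (A * A') = A * (k * A') := by ring
        have h3 : A * (k * A' - 1) + A = A * (k * A') := by
          rw [Nat.mul_sub, mul_one]
          exact Nat.sub_add_cancel (Nat.le_mul_of_pos_right A h1)
        omega

theorem num2 {n e C A A' k : ℕ} (hA : 1 ≤ A) (hk : 1 ≤ k) (hA' : 1 ≤ A') (he : 1 ≤ e) (hC : 1 ≤ C)
    (h : n ^ A ≤ e ^ (k * A - 1)) :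
    n ^ (A * A') ≤ C ^ A * e ^ (k * (A * A') - 1) := by
  calc n ^ (A * A') = (n ^ A) ^ A' := by rw [← pow_mul]
    _ ≤ (e ^ (k * A - 1)) ^ A' := Nat.pow_le_pow_left h A'
    _ = 1 * e ^ (A' * (k * A - 1)) := by
        rw [one_mul, ← pow_mul, mul_comm (k * A - 1) A']
    _ ≤ C ^ A * e ^ (k * (A * A') - 1) := by
        refine Nat.mul_le_mul (Nat.one_le_pow _ _ hC) (Nat.pow_le_pow_right he ?_)
        have h1 : 1 ≤ k * A := Nat.mul_pos hk hA
        have h2 : k * (A * A') = A' * (k * A) := by ring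
        have h3 : A' * (k * A - 1) + A' = A' * (k * A) := by
          rw [Nat.mul_sub, mul_one]
          exact Nat.sub_add_cancel (Nat.le_mul_of_pos_right A' h1)
        omega

/-- The saving `1 / B` is amplified by `M + 1`. -/
theorem num3 {T o e m m' d B C M k : ℕ} (hk : 1 ≤ k) (hB : 1 ≤ B) (ho : o ≤ T * m' ^ k)
    (hT : T ^ B ≤ C * e ^ (k * B - 1)) (hd : d ≤ e * (M * e ^ M)) (hm : m = m') :
    o ^ (B * (M + 1)) * d ≤ C ^ (M + 1) * M * (e * m) ^ (k * (B * (M + 1))) := by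
  subst hm
  have h1 : 1 ≤ k * B := Nat.mul_pos hk hB
  have h2 : (k * B - 1) * (M + 1) + (M + 1) = k * (B * (M + 1)) := by
    have h3 : (k * B - 1) * (M + 1) + 1 * (M + 1) = (k * B - 1 + 1) * (M + 1) := by ring
    rw [one_mul] at h3
    rw [h3, Nat.sub_add_cancel h1]
    ring
  calc o ^ (B * (M + 1)) * d ≤ (T * m ^ k) ^ (B * (M + 1)) * (e * (M * e ^ M)) :=
        Nat.mul_le_mul (Nat.pow_le_pow_left ho _) hd
    _ = (T ^ B) ^ (M + 1) * (M * e ^ (M + 1)) * m ^ (k * (B * (M + 1))) := by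
        rw [mul_pow, pow_mul T B (M + 1), ← pow_mul m, pow_succ]
        ring
    _ ≤ (C * e ^ (k * B - 1)) ^ (M + 1) * (M * e ^ (M + 1)) * m ^ (k * (B * (M + 1))) := by
        gcongr
    _ = C ^ (M + 1) * M * e ^ ((k * B - 1) * (M + 1) + (M + 1)) * m ^ (k * (B * (M + 1))) := by
        rw [mul_pow, ← pow_mul, pow_add]
        ring
    _ = C ^ (M + 1) * M * (e * m) ^ (k * (B * (M + 1))) := by
        rw [h2, mul_pow, mul_assoc]

end Latp

open Pool.DynLehmer.LE.Lat Pool.DynLehmer.LE.Latp in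
/-- **The Lehmer bound for elliptic curves outside primitive almost simple groups.** -/
theorem latp (hFin : FineStatement) (hRep : RepeStatement) (hCls : ClseStatement)
    (hGrp : Grpo2Statement) : LatpStatement := by
  intro K _ _ a b hΔ hCM p s lam v F hR hlam hq hLat A M hA
  obtain ⟨R, k₀, A', C₀, hA', hG⟩ := hGrp A hA
  set C₁ : ℕ := (max C₀ 1) ^ A with hC₁
  have hB1 : 1 ≤ A * A' := Nat.mul_pos hA hA'
  obtain ⟨c, hc, hmain⟩ := hFin K a b hΔ hCM p s lam v F hR hlam hq hLat (max k₀ A)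
    (A * A' * (M + 1)) (C₁ ^ (M + 1) * M + R * (M * R ^ M)) (Nat.mul_pos hB1 (Nat.succ_pos M))
  refine ⟨c, hc, ?_⟩
  intro N _ _ _ _ P hP
  have hfd : FiniteDimensional K N := Module.Finite.of_restrictScalars_finite ℚ K N
  obtain ⟨V, _, _, ρ, f, hf1, hf2⟩ := hRep K a b N
  let act : MulAction (N ≃ₐ[K] N) V :=
    { smul := fun g w => ρ g w
      one_smul := fun w => by
        change ρ 1 w = w
        rw [map_one]
        rfl
      mul_smul := fun g h w => by
        change ρ (g * h) w = ρ g (ρ h w)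
        rw [map_mul]
        rfl }
  have hsm : ∀ (g : N ≃ₐ[K] N) (w : V), g • w = ρ g w := fun g w => rfl
  have hff : ∀ P Q : Ept a b N, f P = f Q ↔ Tq P Q := by
    intro P Q
    refine ⟨hf2 P Q, ?_⟩
    rintro ⟨r, hr, h⟩
    have h1 := congrArg f h
    rw [map_nsmul, map_nsmul] at h1
    have hr0 : (r : ℚ) ≠ 0 := by exact_mod_cast (by omega : r ≠ 0)
    have h2 : (r : ℚ) • f P = (r : ℚ) • f Q := by
      rw [Nat.cast_smul_eq_nsmul, Nat.cast_smul_eq_nsmul]
      exact h1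
    exact (smul_right_injective V hr0) h2
  let Ω : Type := MulAction.orbit (N ≃ₐ[K] N) (f P)
  have hΩfin : Finite Ω := Set.finite_range (fun g : N ≃ₐ[K] N => g • f P)
  let _ : Fintype Ω := Fintype.ofFinite Ω
  have hΩ : ∀ z : Ω, ∃ σ : N ≃ₐ[K] N, f (pm (σ : N →ₐ[K] N) P) = (z : V) := by
    rintro ⟨z, σ, hσ⟩
    exact ⟨σ, by rw [hf1]; exact hσ⟩
  set x : Ω := ⟨f P, MulAction.mem_orbit_self (f P)⟩ with hx
  have htr : MulAction.IsPretransitive (N ≃ₐ[K] N) Ω := inferInstance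
  have hsx : ∀ g : N ≃ₐ[K] N, ((g • x : Ω) : V) = f (pm (g : N →ₐ[K] N) P) := by
    intro g
    rw [hf1]
    rfl
  -- the stabilizer
  set S : Subgroup (N ≃ₐ[K] N) := MulAction.stabilizer (N ≃ₐ[K] N) x with hS
  have hSmem : ∀ g : N ≃ₐ[K] N, g ∈ S ↔ Tq (pm (g : N →ₐ[K] N) P) P := by
    intro g
    rw [hS, MulAction.mem_stabilizer_iff, ← hff, ← hsx]
    constructor
    · intro h
      rw [h]
    · intro h
      exact Subtype.ext h
  refine ⟨S, hSmem, fun hm => ?_⟩
  by_cases hexc : IndE P S A ∧ Pas S A 2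
  · exact Or.inr hexc
  refine Or.inl (hmain N P hP fun hCD n => ?_)
  -- the numbers
  obtain ⟨he1, hm1, hD, -, hL⟩ := hCls K a b N P _ _ rfl rfl
  set e₀ : ℕ := Nat.card (Set.range fun (σ : N ≃ₐ[K] N) =>
    {Q : Ept a b N | Tq (pm (σ : N →ₐ[K] N) P) Q}) with he₀
  set m : ℕ := Nat.card {Q : Ept a b N // (∃ σ : N ≃ₐ[K] N, pm (σ : N →ₐ[K] N) P = Q) ∧ Tq P Q}
    with hm₀
  have he : e₀ = Fintype.card Ω := by
    rw [he₀, ← Nat.card_eq_fintype_card]
    refine card_range_congr _ (fun g : N ≃ₐ[K] N => g • f P) fun σ τ => ?_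
    rw [cls_eq, ← hff, hf1, hf1]
    exact Iff.rfl
  have hSidx : S.index = e₀ := by
    rw [he, hS, MulAction.index_stabilizer, MulAction.orbit_eq_univ, Set.ncard_univ,
      Nat.card_eq_fintype_card]
  rw [hSidx] at hm
  have hD' : dg K P.xRep ≤ e₀ * (M * e₀ ^ M) := hD.trans (Nat.mul_le_mul_left _ hm)
  have hRe : R < e₀ := by
    by_contra hcon
    have h1 : e₀ ≤ R := not_lt.1 hcon
    have h2 : e₀ * (M * e₀ ^ M) ≤ R * (M * R ^ M) :=
      Nat.mul_le_mul h1 (Nat.mul_le_mul_left _ (Nat.pow_le_pow_left h1 M))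
    omega
  -- a tuple of conjugates
  obtain ⟨k, σ, hk2, hkk, hind, hcard⟩ : ∃ (k : ℕ) (σ : Fin k → (N ≃ₐ[K] N)), 2 ≤ k ∧
      k ≤ max k₀ A ∧ (∀ γ : Fin k → ℤ, ∑ i, γ i • pm (σ i : N →ₐ[K] N) P = 0 → γ = 0) ∧
      (Nat.card (MulAction.orbit (N ≃ₐ[K] N) (fun i => σ i • x))) ^ (A * A') ≤
        C₁ * e₀ ^ (k * (A * A') - 1) := by
    rcases hG (N ≃ₐ[K] N) Ω V ρ (fun z => (z : V)) (fun g z => rfl) Subtype.val_injective htr x
      (by rw [← he]; exact hRe) with ⟨k, y, hk2, hkk, hlin, hcard⟩ | ⟨-, hpas⟩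
    · choose σ hσ using fun i => hΩ (y i)
      have hyx : (fun i => σ i • x) = y := by
        funext i
        apply Subtype.ext
        rw [hsx, hσ]
      refine ⟨k, σ, hk2, hkk.trans (le_max_left _ _), ?_, ?_⟩
      · intro γ hγ
        have h1 := congrArg f hγ
        rw [map_sum, _root_.map_zero] at h1
        have h2 : ∑ i, (γ i : ℚ) • (y i : V) = 0 := by
          rw [← h1]
          refine Finset.sum_congr rfl fun i _ => ?_
          rw [map_zsmul, hσ, Int.cast_smul_eq_zsmul]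
        have h5 := Fintype.linearIndependent_iff.1 hlin (fun i => (γ i : ℚ)) h2
        funext i
        exact_mod_cast h5 i
      · rw [hyx]
        rw [← he] at hcard
        exact num1 (by omega) hA' he1 hcard (le_max_left _ _) hA
    · have hnot : ¬ IndE P S A := fun h => hexc ⟨h, hpas⟩
      unfold IndE at hnot
      push Not at hnot
      obtain ⟨k, σ, hk2, hkA, hσ, hle⟩ := hnot
      refine ⟨k, σ, hk2, hkA.trans (le_max_right _ _), fun γ hγ => ?_, ?_⟩
      · exact hσ γ hγ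
      · rw [orbit_meet]
        rw [hSidx] at hle
        exact num2 hA (by omega) hA' he1 (le_max_right _ _) hle
  have hcls : Nat.card (Set.range fun (g : N ≃ₐ[K] N) (i : Fin k) =>
      {Q : Ept a b N | Tq (pm (g : N →ₐ[K] N) (pm (σ i : N →ₐ[K] N) P)) Q}) =
      Nat.card (MulAction.orbit (N ≃ₐ[K] N) (fun i => σ i • x)) := by
    refine card_range_congr _ (fun g : N ≃ₐ[K] N => g • (fun i => σ i • x)) fun g h => ?_
    rw [_root_.funext_iff, _root_.funext_iff]
    refine forall_congr' fun i => ?_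
    rw [cls_eq, ← hff, hf1, hf1 h, ← hsx]
    constructor
    · intro h1
      exact Subtype.ext h1
    · intro h1
      exact congrArg Subtype.val h1
  obtain ⟨m', hm'1, -, horbP, horby⟩ := hL (lam ^ n) (Nat.one_le_pow _ _ (by omega))
  have hy := horby k (fun i => pm (σ i : N →ₐ[K] N) P) (fun i => ⟨σ i, rfl⟩)
  rw [hcls] at hy
  refine ⟨k, fun i => pm (σ i : N →ₐ[K] N) P, hk2, hkk, fun i => ⟨σ i, rfl⟩, hind, ?_⟩
  rw [horbP]
  exact (num3 (by omega) hB1 hy hcard hD' rfl).trans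
    (Nat.mul_le_mul_right _ (Nat.le_add_right _ _))

end Pool.DynLehmer.LE
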