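import Pool.Agent.Lib.MP_2194ec_nt.GAL.R.Mor
import Pool.Agent.Lib.MP_2194ec_nt.LE.Latp
import Pool.Agent.Lib.MP_2194ec_nt.LE.DefsPu

set_option autoImplicit false
set_option linter.unusedSectionVars false

/-!
# The Lehmer bound for all elliptic curves and primitive almost simple groups: assembly
-/

namespace Pool.DynLehmer.LE
open MvPolynomial NumberField Filter Topology Pool.DynLehmer Pool.DynLehmer.SB Pool.DynLehmer.SP
  Pool.DynLehmer.GS Pool.DynLehmer.LP Pool.DynLehmer.LW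
open scoped Classical

/-- Tuples as in `Htup`, or the property `Exc` of the stabilizer. -/
def GrphOf (Exc : ∀ (G : Type) [Group G], Subgroup G → Prop) : Prop :=
  ∃ R k₀ A' C : ℕ, 1 ≤ A' ∧ ∀ (G Ω V : Type) [Group G] [Finite G]
    [Fintype Ω] [MulAction G Ω] [AddCommGroup V] [Module ℚ V] (ρ : Representation ℚ G V)
    (f : Ω → V), (∀ (g : G) (x : Ω), f (g • x) = ρ g (f x)) → Function.Injective f →
    MulAction.IsPretransitive G Ω → ∀ x : Ω, R < Fintype.card Ω →
    Htup G f k₀ A' C (Fintype.card Ω) ∨ Exc G (MulAction.stabilizer G x)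

open Pool.DynLehmer.LE.Lat Pool.DynLehmer.LE.Latp in
/-- The Lehmer bound for elliptic curves, or the property `Exc` of the stabilizer of the class. -/
theorem latx (hFin : FineuStatement) (hFree : FreeluStatement) (hRep : RepeStatement)
    (hCls : ClseStatement) (A : ℕ) (hA : 1 ≤ A)
    (Exc : ∀ (G : Type) [Group G], Subgroup G → Prop) (hGrp : GrphOf Exc)
    (K : Type) [Field K] [NumberField K] (a b : K) (hΔ : 4 * a ^ 3 + 27 * b ^ 2 ≠ 0)
    (p s lam : ℕ) (v : FinitePlace K) (F : Fin 2 → MvPolynomial (Fin 2) K) (hR : HypR p s v F)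
    (hlam : 2 ≤ lam) (hq : lam ^ 2 = p ^ s) (hLat : IsLat a b lam F) (M : ℕ) :
    ∃ c : ℝ, 0 < c ∧
    ∀ (N : Type) [Field N] [NumberField N] [Algebra K N] [IsGalois K N] (P : Ept a b N),
      (∀ n : ℕ, 1 ≤ n → n • P ≠ 0) →
      ∃ S : Subgroup (N ≃ₐ[K] N), (∀ g : N ≃ₐ[K] N, g ∈ S ↔ Tq (pm (g : N →ₐ[K] N) P) P) ∧
      (Nat.card {Q : Ept a b N // (∃ σ : N ≃ₐ[K] N, pm (σ : N →ₐ[K] N) P = Q) ∧ Tq P Q} ≤
          M * S.index ^ M →
        (∃ h : ℝ, HasHt (p ^ s) F P.xRep h ∧ c / (dg K P.xRep : ℝ) ≤ h) ∨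
        IndH P S A ∧ Exc (N ≃ₐ[K] N) S) := by
  obtain ⟨R, k₀, A', C₀, hA', hG⟩ := hGrp
  have hmor : Mor (p ^ s) F := mor K p s v F hR
  set C₁ : ℕ := (max C₀ 1) ^ A with hC₁
  have hB1 : 1 ≤ A * A' := Nat.mul_pos hA hA'
  obtain ⟨c, hc, hmain⟩ := hFin K a b hΔ p s lam v F hR hlam hq hLat (max k₀ A)
    (A * A' * (M + 1)) (C₁ ^ (M + 1) * M + R * (M * R ^ M)) (Nat.mul_pos hB1 (Nat.succ_pos M))
  refine ⟨c, hc, ?_⟩
  intro N _ _ _ _ P hP
  have hfd : FiniteDimensional K N := Module.Finite.of_restrictScalars_finite ℚ K N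
  obtain ⟨V, _, _, ρ, f, hf1, hf2⟩ := hRep K a b N
  let act : MulAction (N ≃ₐ[K] N) V :=
    { smul := fun g w => ρ g w
      one_smul := fun w => by
        change ρ 1 w = w
        rw [map_one]
        rfl
      mul_smul := fun g h w => by
        change ρ (g * h) w = ρ g (ρ h w)
        rw [map_mul]
        rfl }
  have hff : ∀ P Q : Ept a b N, f P = f Q ↔ Tq P Q := by
    intro P Q
    refine ⟨hf2 P Q, ?_⟩
    rintro ⟨r, hr, h⟩
    have h1 := congrArg f h
    rw [map_nsmul, map_nsmul] at h1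
    have hr0 : (r : ℚ) ≠ 0 := by exact_mod_cast (by omega : r ≠ 0)
    have h2 : (r : ℚ) • f P = (r : ℚ) • f Q := by
      rw [Nat.cast_smul_eq_nsmul, Nat.cast_smul_eq_nsmul]
      exact h1
    exact (smul_right_injective V hr0) h2
  let Ω : Type := MulAction.orbit (N ≃ₐ[K] N) (f P)
  have hΩfin : Finite Ω := Set.finite_range (fun g : N ≃ₐ[K] N => g • f P)
  let _ : Fintype Ω := Fintype.ofFinite Ω
  have hΩ : ∀ z : Ω, ∃ σ : N ≃ₐ[K] N, f (pm (σ : N →ₐ[K] N) P) = (z : V) := by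
    rintro ⟨z, σ, hσ⟩
    exact ⟨σ, by rw [hf1]; exact hσ⟩
  set x : Ω := ⟨f P, MulAction.mem_orbit_self (f P)⟩ with hx
  have htr : MulAction.IsPretransitive (N ≃ₐ[K] N) Ω := inferInstance
  have hsx : ∀ g : N ≃ₐ[K] N, ((g • x : Ω) : V) = f (pm (g : N →ₐ[K] N) P) := by
    intro g
    rw [hf1]
    rfl
  -- the stabilizer
  set S : Subgroup (N ≃ₐ[K] N) := MulAction.stabilizer (N ≃ₐ[K] N) x with hS
  have hSmem : ∀ g : N ≃ₐ[K] N, g ∈ S ↔ Tq (pm (g : N →ₐ[K] N) P) P := by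
    intro g
    rw [hS, MulAction.mem_stabilizer_iff, ← hff, ← hsx]
    constructor
    · intro h
      rw [h]
    · intro h
      exact Subtype.ext h
  refine ⟨S, hSmem, fun hm => ?_⟩
  by_cases hexc : IndH P S A ∧ Exc (N ≃ₐ[K] N) S
  · exact Or.inr hexc
  refine Or.inl (hmain N P hP fun hCD n => ?_)
  -- the numbers
  obtain ⟨he1, hm1, hD, -, hL⟩ := hCls K a b N P _ _ rfl rfl
  set e₀ : ℕ := Nat.card (Set.range fun (σ : N ≃ₐ[K] N) =>
    {Q : Ept a b N | Tq (pm (σ : N →ₐ[K] N) P) Q}) with he₀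
  set m : ℕ := Nat.card {Q : Ept a b N // (∃ σ : N ≃ₐ[K] N, pm (σ : N →ₐ[K] N) P = Q) ∧ Tq P Q}
    with hm₀
  have he : e₀ = Fintype.card Ω := by
    rw [he₀, ← Nat.card_eq_fintype_card]
    refine card_range_congr _ (fun g : N ≃ₐ[K] N => g • f P) fun σ τ => ?_
    rw [cls_eq, ← hff, hf1, hf1]
    exact Iff.rfl
  have hSidx : S.index = e₀ := by
    rw [he, hS, MulAction.index_stabilizer, MulAction.orbit_eq_univ, Set.ncard_univ,
      Nat.card_eq_fintype_card]
  rw [hSidx] at hm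
  have hD' : dg K P.xRep ≤ e₀ * (M * e₀ ^ M) := hD.trans (Nat.mul_le_mul_left _ hm)
  have hRe : R < e₀ := by
    by_contra hcon
    have h1 : e₀ ≤ R := not_lt.1 hcon
    have h2 : e₀ * (M * e₀ ^ M) ≤ R * (M * R ^ M) :=
      Nat.mul_le_mul h1 (Nat.mul_le_mul_left _ (Nat.pow_le_pow_left h1 M))
    omega
  -- a tuple of conjugates
  obtain ⟨m₁, σ₁, hm3, hmm, hind₁, hcard₁⟩ : ∃ (m : ℕ) (σ : Fin m → (N ≃ₐ[K] N)), 3 ≤ m ∧
      m ≤ max k₀ A ∧ (∀ γ : Fin m → ℤ, ∑ i, γ i • pm (σ i : N →ₐ[K] N) P = 0 → γ = 0) ∧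
      ∀ (k : ℕ) (ι : Fin k → Fin m), Function.Injective ι → m ≤ 2 * k →
      (Nat.card (MulAction.orbit (N ≃ₐ[K] N) (fun i => σ (ι i) • x))) ^ (A * A') ≤
        C₁ * e₀ ^ (k * (A * A') - 1) := by
    rcases hG (N ≃ₐ[K] N) Ω V ρ (fun z => (z : V)) (fun g z => rfl) Subtype.val_injective htr x
      (by rw [← he]; exact hRe) with ⟨m, y, hm3, hmk, hlin, hcard⟩ | hexc'
    · choose σ hσ using fun i => hΩ (y i)
      have hyx : ∀ i, σ i • x = y i := by
        intro i
        apply Subtype.ext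
        rw [hsx, hσ]
      refine ⟨m, σ, hm3, hmk.trans (le_max_left _ _), ?_, ?_⟩
      · intro γ hγ
        have h1 := congrArg f hγ
        rw [map_sum, _root_.map_zero] at h1
        have h2 : ∑ i, (γ i : ℚ) • (y i : V) = 0 := by
          rw [← h1]
          refine Finset.sum_congr rfl fun i _ => ?_
          rw [map_zsmul, hσ, Int.cast_smul_eq_zsmul]
        have h5 := Fintype.linearIndependent_iff.1 hlin (fun i => (γ i : ℚ)) h2
        funext i
        exact_mod_cast h5 i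
      · intro k ι hι hk
        have h1 := hcard k ι hι hk
        have h2 : (fun i => σ (ι i) • x) = y ∘ ι := funext fun i => hyx (ι i)
        rw [h2]
        rw [← he] at h1
        exact num1 (by omega) hA' he1 h1 (le_max_left _ _) hA
    · have hnot : ¬ IndH P S A := fun h => hexc ⟨h, hexc'⟩
      unfold IndH at hnot
      push Not at hnot
      obtain ⟨m, σ, hm3, hmA, hσ, hle⟩ := hnot
      refine ⟨m, σ, hm3, hmA.trans (le_max_right _ _), fun γ hγ => ?_, ?_⟩
      · exact hσ γ hγ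
      · intro k ι hι hk
        have h1 := hle k ι hι hk
        rw [orbit_meet x (fun i => σ (ι i))]
        rw [hSidx] at h1
        exact num2 hA (by omega) hA' he1 (le_max_right _ _) h1
  -- the sub-tuple
  obtain ⟨k, ι, hι, hk, hfree⟩ := hFree K a b hΔ (p ^ s) lam F hlam hmor hLat N m₁
    (fun i => pm (σ₁ i : N →ₐ[K] N) P) hind₁
  have hk2 : 2 ≤ k := by omega
  have hkm : k ≤ m₁ := by
    have := Fintype.card_le_of_injective _ hι
    rwa [Fintype.card_fin, Fintype.card_fin] at this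
  have hcard := hcard₁ k ι hι hk
  have hcls : Nat.card (Set.range fun (g : N ≃ₐ[K] N) (i : Fin k) =>
      {Q : Ept a b N | Tq (pm (g : N →ₐ[K] N) (pm (σ₁ (ι i) : N →ₐ[K] N) P)) Q}) =
      Nat.card (MulAction.orbit (N ≃ₐ[K] N) (fun i => σ₁ (ι i) • x)) := by
    refine card_range_congr _ (fun g : N ≃ₐ[K] N => g • (fun i => σ₁ (ι i) • x)) fun g h => ?_
    rw [_root_.funext_iff, _root_.funext_iff]
    refine forall_congr' fun i => ?_
    rw [cls_eq, ← hff, hf1, hf1 h, ← hsx]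
    constructor
    · intro h1
      exact Subtype.ext h1
    · intro h1
      exact congrArg Subtype.val h1
  obtain ⟨m', hm'1, -, horbP, horby⟩ := hL (lam ^ n) (Nat.one_le_pow _ _ (by omega))
  have hy := horby k (fun i => pm (σ₁ (ι i) : N →ₐ[K] N) P) (fun i => ⟨σ₁ (ι i), rfl⟩)
  rw [hcls] at hy
  refine ⟨k, fun i => pm (σ₁ (ι i) : N →ₐ[K] N) P, hk2, hkm.trans hmm,
    fun i => ⟨σ₁ (ι i), rfl⟩, hfree, ?_⟩
  rw [horbP]
  exact (num3 (by omega) hB1 hy hcard hD' rfl).trans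
    (Nat.mul_le_mul_right _ (Nat.le_add_right _ _))

/-- **The Lehmer bound for elliptic curves outside primitive almost simple groups**, all elliptic
curves. -/
theorem latpu (hFin : FineuStatement) (hFree : FreeluStatement) (hRep : RepeStatement)
    (hCls : ClseStatement) (hGrp : PashStatement) : LatpuStatement := by
  intro K _ _ a b hΔ p s lam v F hR hlam hq hLat A M hA
  exact latx hFin hFree hRep hCls A hA (fun _ _ S => Pas S A 81) (hGrp A hA) K a b hΔ p s lam v F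
    hR hlam hq hLat M

end Pool.DynLehmer.LE
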