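import Pool.Agent.Lib.MP_2194ec_nt.LE.Addsub
import Pool.Agent.Lib.MP_2194ec_nt.SmallD
import Pool.Agent.Lib.MP_2194ec_nt.LP.Vpfin

set_option autoImplicit false

/-!
# The canonical height of the Lattes map is a quadratic form

For the canonical height `h` of the map of first coordinates which belongs to the multiplication
by `lam`: the parallelogram law, `h (n P) = n ^ 2 h P` and `h (P + T) = h P` for torsion `T`.
-/

namespace Pool.DynLehmer.LE
open MvPolynomial NumberField Filter Topology Pool.DynLehmer Pool.DynLehmer.SB Pool.DynLehmer.SP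
  Pool.DynLehmer.GS Pool.DynLehmer.LP Pool.DynLehmer.LW
open scoped Classical

namespace HQ

/-! ## Functions with the parallelogram law -/

section par

variable {G : Type*} [AddCommGroup G] {h : G → ℝ}
  (hp : ∀ x y, h (x + y) + h (x - y) = 2 * h x + 2 * h y)

include hp

theorem par_zero : h 0 = 0 := by
  have := hp 0 0
  rw [add_zero, sub_zero] at this
  linarith

theorem par_neg (x : G) : h (-x) = h x := by
  have h1 := hp 0 x
  rw [zero_add, zero_sub, par_zero hp] at h1
  linarith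

theorem par_nsmul (x : G) (n : ℕ) : h (n • x) = (n : ℝ) ^ 2 * h x := by
  induction n using Nat.strong_induction_on with
  | _ n ih =>
    match n, ih with
    | 0, _ => rw [zero_smul, par_zero hp]; simp
    | 1, _ => rw [one_smul]; simp
    | n + 2, ih =>
      have h1 := ih (n + 1) (by omega)
      have h2 := ih n (by omega)
      have h3 := hp ((n + 1) • x) x
      have e1 : (n + 1) • x + x = (n + 2) • x := by
        rw [← succ_nsmul]
      have e2 : (n + 1) • x - x = n • x := by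
        rw [succ_nsmul, add_sub_cancel_right]
      rw [e1, e2, h1, h2] at h3
      push_cast at h3 ⊢
      linarith

theorem par_lin (x t : G) (ht : h t = 0) (n : ℕ) :
    h (x + n • t) = h x + n * (h (x + t) - h x) := by
  induction n using Nat.strong_induction_on with
  | _ n ih =>
    match n, ih with
    | 0, _ => rw [zero_smul, add_zero]; simp
    | 1, _ => rw [one_smul]; simp
    | n + 2, ih =>
      have h1 := ih (n + 1) (by omega)
      have h2 := ih n (by omega)
      have h3 := hp (x + (n + 1) • t) t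
      have e1 : x + (n + 1) • t + t = x + (n + 2) • t := by
        rw [add_assoc, ← succ_nsmul]
      have e2 : x + (n + 1) • t - t = x + n • t := by
        rw [succ_nsmul, ← add_assoc, add_sub_cancel_right]
      rw [e1, e2, h1, h2, ht] at h3
      push_cast at h3 ⊢
      linarith

theorem par_tors (x t : G) (m : ℕ) (hm : 1 ≤ m) (hmt : m • t = 0) : h (x + t) = h x := by
  have hm0 : (0 : ℝ) < m := by exact_mod_cast hm
  have h0 : h t = 0 := by
    have h1 := par_nsmul hp t m
    rw [hmt, par_zero hp] at h1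
    have h2 : (m : ℝ) ^ 2 ≠ 0 := by positivity
    rcases mul_eq_zero.1 h1.symm with h3 | h3
    · exact absurd h3 h2
    · exact h3
  have h1 := par_lin hp x t h0 m
  rw [hmt, add_zero] at h1
  have h2 : (m : ℝ) * (h (x + t) - h x) = 0 := by linarith
  rcases mul_eq_zero.1 h2 with h3 | h3
  · exact absurd h3 hm0.ne'
  · linarith

end par

/-! ## The parallelogram law up to a constant -/

theorem quasi {N : Type} [Field N] [NumberField N] (W : WeierstrassCurve N) [W.IsElliptic] :
    ∃ C : ℝ, ∀ P Q : WeierstrassCurve.Affine.Point W,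
      |Height.logHeight (P + Q).xRep + Height.logHeight (P - Q).xRep -
        (2 * Height.logHeight P.xRep + 2 * Height.logHeight Q.xRep)| ≤ C := by
  obtain ⟨C₁, h₁⟩ := WeierstrassCurve.abs_logHeight_addSubMap_sub_two_mul_logHeight_le W
  obtain ⟨C₂, h₂⟩ := Height.abs_logHeight_sym2_sub_le N
  have hs : ∀ P Q : WeierstrassCurve.Affine.Point W,
      |Height.logHeight (P.sym2x Q) - (Height.logHeight P.xRep + Height.logHeight Q.xRep)| ≤
        C₂ := by
    intro P Q
    have e : ∀ R : WeierstrassCurve.Affine.Point W, ![R.xRep 0, R.xRep 1] = R.xRep := by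
      intro R
      funext i
      fin_cases i <;> rfl
    have h := h₂ (a := P.xRep 0) (b := P.xRep 1) (c := Q.xRep 0) (d := Q.xRep 1)
      (by rw [e]; exact P.xRep_ne_zero) (by rw [e]; exact Q.xRep_ne_zero)
    rw [e, e] at h
    exact h
  refine ⟨C₁ + 3 * C₂, fun P Q => ?_⟩
  obtain ⟨c, hc, hk⟩ := addsub N W P Q
  have h3 := h₁ (P.sym2x Q)
  rw [hk, Height.logHeight_smul_eq_logHeight _ hc] at h3
  have h4 := hs P Q
  have h5 := hs (P + Q) (P - Q)
  rw [abs_le] at h3 h4 h5 ⊢
  constructor <;> linarith [h3.1, h3.2, h4.1, h4.2, h5.1, h5.2]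

/-! ## The canonical height -/

section can

variable {K : Type} [Field K] [NumberField K] {a b : K} {N : Type} [Field N] [NumberField N]
  [Algebra K N] {q lam : ℕ} {F : Fin 2 → MvPolynomial (Fin 2) K}

theorem iter (hF : ∀ i, (F i).IsHomogeneous q) (hL : IsLat a b lam F) (P : Ept a b N) (n : ℕ) :
    ∃ c : N, c ≠ 0 ∧ (gAct F N)^[n] P.xRep = c • ((lam ^ n) • P).xRep := by
  induction n with
  | zero => exact ⟨1, one_ne_zero, by rw [pow_zero, one_smul, one_smul]; rfl⟩
  | succ n ih =>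
    obtain ⟨c, hc, e⟩ := ih
    obtain ⟨c', hc', e'⟩ := hL N ((lam ^ n) • P)
    refine ⟨c ^ q * c', mul_ne_zero (pow_ne_zero _ hc) hc', ?_⟩
    rw [Function.iterate_succ_apply', e, gAct_smul F hF, e', smul_smul, smul_smul, ← pow_succ']

theorem hasHt_iff (hF : ∀ i, (F i).IsHomogeneous q) (hL : IsLat a b lam F) (P : Ept a b N)
    (h : ℝ) : HasHt q F P.xRep h ↔ Tendsto (fun n : ℕ => Height.logHeight ((lam ^ n) • P).xRep /
      (Module.finrank ℚ N : ℝ) / (q : ℝ) ^ n) atTop (𝓝 h) := by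
  have e : (fun n : ℕ => Height.logHeight ((gAct F N)^[n] P.xRep) /
      (Module.finrank ℚ N : ℝ) / (q : ℝ) ^ n) = fun n : ℕ =>
      Height.logHeight ((lam ^ n) • P).xRep / (Module.finrank ℚ N : ℝ) / (q : ℝ) ^ n := by
    funext n
    obtain ⟨c, hc, e⟩ := iter hF hL P n
    rw [e, Height.logHeight_smul_eq_logHeight _ hc]
  rw [HasHt, e]

theorem exists_ht (hq : 2 ≤ q) (hF : Mor q F) (P : Ept a b N) :
    ∃ h : ℝ, HasHt q F P.xRep h := by
  refine exists_limit hq F hF.hom (fun z hz => ?_) N P.xRep P.xRep_ne_zero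
  by_contra h0
  exact hF.ne _ z h0 (funext fun i => hz i)

theorem ws_elliptic (hD : 4 * a ^ 3 + 27 * b ^ 2 ≠ 0) :
    ((Ws a b).baseChange N).IsElliptic := by
  have h1 : ((Ws a b).baseChange N).Δ = algebraMap K N (-16 * (4 * a ^ 3 + 27 * b ^ 2)) := by
    rw [WeierstrassCurve.baseChange, WeierstrassCurve.map_Δ]
    congr 1
    simp only [WeierstrassCurve.Δ, WeierstrassCurve.b₂, WeierstrassCurve.b₄, WeierstrassCurve.b₆,
      WeierstrassCurve.b₈, Ws]
    ring
  refine ⟨?_⟩
  rw [h1]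
  refine (IsUnit.mk0 _ ?_).map (algebraMap K N)
  exact mul_ne_zero (by norm_num) hD

/-- the parallelogram law -/
theorem par_law (hD : 4 * a ^ 3 + 27 * b ^ 2 ≠ 0) (hq : 2 ≤ q) (hF : Mor q F)
    (hL : IsLat a b lam F) (P Q : Ept a b N) {h₁ h₂ h₃ h₄ : ℝ} (H₁ : HasHt q F P.xRep h₁)
    (H₂ : HasHt q F Q.xRep h₂) (H₃ : HasHt q F (P + Q).xRep h₃)
    (H₄ : HasHt q F (P - Q).xRep h₄) : h₃ + h₄ = 2 * h₁ + 2 * h₂ := by
  have := ws_elliptic (N := N) hD
  obtain ⟨C, hC⟩ := quasi ((Ws a b).baseChange N)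
  rw [hasHt_iff hF.hom hL] at H₁ H₂ H₃ H₄
  have hN : (0 : ℝ) < (Module.finrank ℚ N : ℝ) := by exact_mod_cast Module.finrank_pos
  have hq1 : (1 : ℝ) < q := by exact_mod_cast hq
  have ht := (H₃.add H₄).sub ((H₁.const_mul 2).add (H₂.const_mul 2))
  have h0 : Tendsto (fun n : ℕ => (C / (Module.finrank ℚ N : ℝ)) * ((q : ℝ)⁻¹) ^ n) atTop
      (𝓝 0) := by
    have := (tendsto_pow_atTop_nhds_zero_of_lt_one (inv_nonneg.2 (by linarith : (0 : ℝ) ≤ q))
      (inv_lt_one_of_one_lt₀ hq1)).const_mul (C / (Module.finrank ℚ N : ℝ))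
    rwa [mul_zero] at this
  have hz := squeeze_zero_norm (fun n => ?_) h0 (f := fun n : ℕ =>
    (Height.logHeight ((lam ^ n) • (P + Q)).xRep / (Module.finrank ℚ N : ℝ) / (q : ℝ) ^ n +
      Height.logHeight ((lam ^ n) • (P - Q)).xRep / (Module.finrank ℚ N : ℝ) / (q : ℝ) ^ n) -
    (2 * (Height.logHeight ((lam ^ n) • P).xRep / (Module.finrank ℚ N : ℝ) / (q : ℝ) ^ n) +
      2 * (Height.logHeight ((lam ^ n) • Q).xRep / (Module.finrank ℚ N : ℝ) / (q : ℝ) ^ n)))
  · have := tendsto_nhds_unique ht hz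
    linarith
  · have hqn : (0 : ℝ) < (q : ℝ) ^ n := by positivity
    have e := hC ((lam ^ n) • P) ((lam ^ n) • Q)
    rw [← smul_add, ← smul_sub] at e
    have e2 : (Height.logHeight ((lam ^ n) • (P + Q)).xRep / (Module.finrank ℚ N : ℝ) /
        (q : ℝ) ^ n +
      Height.logHeight ((lam ^ n) • (P - Q)).xRep / (Module.finrank ℚ N : ℝ) / (q : ℝ) ^ n) -
    (2 * (Height.logHeight ((lam ^ n) • P).xRep / (Module.finrank ℚ N : ℝ) / (q : ℝ) ^ n) +
      2 * (Height.logHeight ((lam ^ n) • Q).xRep / (Module.finrank ℚ N : ℝ) / (q : ℝ) ^ n)) =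
      (Height.logHeight ((lam ^ n) • (P + Q)).xRep + Height.logHeight ((lam ^ n) • (P - Q)).xRep -
        (2 * Height.logHeight ((lam ^ n) • P).xRep + 2 * Height.logHeight ((lam ^ n) • Q).xRep)) /
        ((Module.finrank ℚ N : ℝ) * (q : ℝ) ^ n) := by
      field_simp
    rw [e2, Real.norm_eq_abs, abs_div, abs_of_pos (mul_pos hN hqn)]
    have e3 : (C / (Module.finrank ℚ N : ℝ)) * ((q : ℝ)⁻¹) ^ n =
        C / ((Module.finrank ℚ N : ℝ) * (q : ℝ) ^ n) := by
      rw [inv_pow]
      field_simp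
    rw [e3]
    exact div_le_div_of_nonneg_right e (mul_pos hN hqn).le

/-- the canonical height as a function -/
theorem exists_fun (hD : 4 * a ^ 3 + 27 * b ^ 2 ≠ 0) (hq : 2 ≤ q) (hF : Mor q F)
    (hL : IsLat a b lam F) : ∃ h : Ept a b N → ℝ, (∀ P, HasHt q F P.xRep (h P)) ∧
      ∀ P Q, h (P + Q) + h (P - Q) = 2 * h P + 2 * h Q := by
  choose h hh using fun P : Ept a b N => exists_ht hq hF P
  exact ⟨h, hh, fun P Q => par_law hD hq hF hL P Q (hh P) (hh Q) (hh _) (hh _)⟩

end can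

end HQ

/-- The canonical height of `n P + T` for a torsion point `T`. -/
theorem hasHt_mul_add {K : Type} [Field K] [NumberField K] {a b : K}
    (hD : 4 * a ^ 3 + 27 * b ^ 2 ≠ 0) {q lam : ℕ} {F : Fin 2 → MvPolynomial (Fin 2) K}
    (hq : 2 ≤ q) (hF : Mor q F) (hL : IsLat a b lam F) {N : Type} [Field N] [NumberField N]
    [Algebra K N] (P T : Ept a b N) (n m : ℕ) (hm : 1 ≤ m) (hT : m • T = 0) {h h' : ℝ}
    (H : HasHt q F P.xRep h) (H' : HasHt q F (n • P + T).xRep h') : h' = (n : ℝ) ^ 2 * h := by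
  obtain ⟨g, hg, hp⟩ := HQ.exists_fun (N := N) hD hq hF hL
  have e1 := tendsto_nhds_unique H (hg P)
  have e2 := tendsto_nhds_unique H' (hg (n • P + T))
  rw [e1, e2, HQ.par_tors hp _ _ m hm hT, HQ.par_nsmul hp]

end Pool.DynLehmer.LE
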