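import Pool.Agent.Lib.MP_2194ec_nt.LE.Lat

set_option autoImplicit false
set_option linter.unusedSectionVars false

/-!
# The Lehmer bound for elliptic curves: composition factors of the group of permutations of the
classes modulo torsion
-/

namespace Pool.DynLehmer.LE
open MvPolynomial NumberField Filter Topology Pool.DynLehmer Pool.DynLehmer.SB Pool.DynLehmer.SP
  Pool.DynLehmer.GS Pool.DynLehmer.LP Pool.DynLehmer.LW
open scoped Classical

/-- **The Lehmer bound for elliptic curves**, strong form of `LatStatement`: composition factors of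
the group of permutations of the classes of conjugates of `P` modulo torsion which are abelian or of
order at most `e ^ A`. -/
def LatmStatement : Prop :=
  ∀ (K : Type) [Field K] [NumberField K] (a b : K), 4 * a ^ 3 + 27 * b ^ 2 ≠ 0 → NoCM a b →
    ∀ (p s lam : ℕ) (v : FinitePlace K) (F : Fin 2 → MvPolynomial (Fin 2) K), HypR p s v F →
    2 ≤ lam → lam ^ 2 = p ^ s → IsLat a b lam F →
    ∀ A M : ℕ, ∃ c : ℝ, 0 < c ∧
    ∀ (N : Type) [Field N] [NumberField N] [Algebra K N] [IsGalois K N] (P : Ept a b N),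
      (∀ n : ℕ, 1 ≤ n → n • P ≠ 0) →
      (∃ (e : ℕ) (τ : Fin e → (N ≃ₐ[K] N)),
        (∀ i j, i ≠ j → ¬ Tq (pm (τ i : N →ₐ[K] N) P) (pm (τ j : N →ₐ[K] N) P)) ∧
        Nat.card {Q : Ept a b N // (∃ σ : N ≃ₐ[K] N, pm (σ : N →ₐ[K] N) P = Q) ∧ Tq P Q} ≤
          M * e ^ M ∧
        ∃ (l : ℕ) (L : ℕ → Subgroup (N ≃ₐ[K] N)),
          (∀ g ∈ L 0, ∀ h : N ≃ₐ[K] N, Tq (pm ((g * h : N ≃ₐ[K] N) : N →ₐ[K] N) P)
            (pm (h : N →ₐ[K] N) P)) ∧ L l = ⊤ ∧
          ∀ i < l, L i ≤ L (i + 1) ∧ (∀ x ∈ L (i + 1), ∀ y ∈ L i, x * y * x⁻¹ ∈ L i) ∧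
            ((∀ x ∈ L (i + 1), ∀ y ∈ L (i + 1), x * y * x⁻¹ * y⁻¹ ∈ L i) ∨
              (L i).relIndex (L (i + 1)) ≤ e ^ A)) →
      ∃ h : ℝ, HasHt (p ^ s) F P.xRep h ∧ c / (dg K P.xRep : ℝ) ≤ h

theorem lat_of_latm (h : LatmStatement) : LatStatement := by
  intro K _ _ a b hΔ hCM p s lam v F hR hlam hq hLat A M
  obtain ⟨c, hc, H⟩ := h K a b hΔ hCM p s lam v F hR hlam hq hLat A M
  refine ⟨c, hc, ?_⟩
  intro N _ _ _ _ P hP hser
  obtain ⟨e, τ, hτ, hm, l, L, hL0, hL1, hL⟩ := hser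
  refine H N P hP ⟨e, τ, hτ, hm, l, L, ?_, hL1, hL⟩
  intro g hg h
  rw [hL0, Subgroup.mem_bot] at hg
  rw [hg, one_mul]
  exact ⟨1, le_rfl, rfl⟩

open Lat in
/-- **The Lehmer bound for elliptic curves.** -/
theorem latm (hFin : FineStatement) (hRep : RepeStatement) (hCls : ClseStatement)
    (hGrp : GrpaStatement) : LatmStatement := by
  intro K _ _ a b hΔ hCM p s lam v F hR hlam hq hLat A M
  obtain ⟨t, R, C₀, ht, hG⟩ := hGrp A
  have hk2 : 2 ≤ 2 ^ t := by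
    calc 2 = 2 ^ 1 := rfl
      _ ≤ 2 ^ t := Nat.pow_le_pow_right (by norm_num) ht
  obtain ⟨c, hc, hmain⟩ := hFin K a b hΔ hCM p s lam v F hR hlam hq hLat (2 ^ t) (2 * (M + 1))
    (C₀ ^ (M + 1) * M + R * (M * R ^ M)) (by omega)
  refine ⟨c, hc, ?_⟩
  intro N _ _ _ _ P hP hser
  have hfd : FiniteDimensional K N := Module.Finite.of_restrictScalars_finite ℚ K N
  refine hmain N P hP fun hCD n => ?_
  obtain ⟨V, _, _, ρ, f, hf1, hf2⟩ := hRep K a b N
  letI act : MulAction (N ≃ₐ[K] N) V :=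
    { smul := fun g w => ρ g w
      one_smul := fun w => by
        change ρ 1 w = w
        rw [map_one]
        rfl
      mul_smul := fun g h w => by
        change ρ (g * h) w = ρ g (ρ h w)
        rw [map_mul]
        rfl }
  have hsm : ∀ (g : N ≃ₐ[K] N) (w : V), g • w = ρ g w := fun g w => rfl
  have hff : ∀ P Q : Ept a b N, f P = f Q ↔ Tq P Q := by
    intro P Q
    refine ⟨hf2 P Q, ?_⟩
    rintro ⟨r, hr, h⟩
    have h1 := congrArg f h
    rw [map_nsmul, map_nsmul] at h1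
    have hr0 : (r : ℚ) ≠ 0 := by exact_mod_cast (by omega : r ≠ 0)
    have h2 : (r : ℚ) • f P = (r : ℚ) • f Q := by
      rw [Nat.cast_smul_eq_nsmul, Nat.cast_smul_eq_nsmul]
      exact h1
    exact (smul_right_injective V hr0) h2
  let Ω : Type := MulAction.orbit (N ≃ₐ[K] N) (f P)
  have hΩfin : Finite Ω := Set.finite_range (fun g : N ≃ₐ[K] N => g • f P)
  let _ : Fintype Ω := Fintype.ofFinite Ω
  have hΩ : ∀ z : Ω, ∃ σ : N ≃ₐ[K] N, f (pm (σ : N →ₐ[K] N) P) = (z : V) := by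
    rintro ⟨z, σ, hσ⟩
    exact ⟨σ, by rw [hf1]; exact hσ⟩
  -- the numbers
  obtain ⟨he1, hm1, hD, -, hL⟩ := hCls K a b N P _ _ rfl rfl
  set e₀ : ℕ := Nat.card (Set.range fun (σ : N ≃ₐ[K] N) =>
    {Q : Ept a b N | Tq (pm (σ : N →ₐ[K] N) P) Q}) with he₀
  set m : ℕ := Nat.card {Q : Ept a b N // (∃ σ : N ≃ₐ[K] N, pm (σ : N →ₐ[K] N) P = Q) ∧ Tq P Q}
    with hm
  have he : e₀ = Fintype.card Ω := by
    rw [he₀, ← Nat.card_eq_fintype_card]
    refine card_range_congr _ (fun g : N ≃ₐ[K] N => g • f P) fun σ τ => ?_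
    rw [cls_eq, ← hff, hf1, hf1]
    exact Iff.rfl
  set x : Ω := ⟨f P, MulAction.mem_orbit_self (f P)⟩ with hx
  have htr : MulAction.IsPretransitive (N ≃ₐ[K] N) Ω := inferInstance
  obtain ⟨e, τ, hτ, hme, l, L, hL0, hLl, hLi⟩ := hser
  have hee : e ≤ e₀ := by
    rw [he]
    have hinj : Function.Injective (fun i : Fin e => τ i • x) := by
      intro i j hij
      by_contra hne
      refine hτ i j hne ((hff _ _).1 ?_)
      rw [hf1, hf1]
      exact congrArg Subtype.val hij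
    have h3 := Fintype.card_le_of_injective _ hinj
    rwa [Fintype.card_fin] at h3
  have hme' : m ≤ M * e₀ ^ M := hme.trans (Nat.mul_le_mul_left _ (Nat.pow_le_pow_left hee M))
  have hD' : dg K P.xRep ≤ e₀ * (M * e₀ ^ M) := hD.trans (Nat.mul_le_mul_left _ hme')
  have hRe : R < e₀ := by
    by_contra hcon
    have h1 : e₀ ≤ R := not_lt.1 hcon
    have h2 : e₀ * (M * e₀ ^ M) ≤ R * (M * R ^ M) :=
      Nat.mul_le_mul h1 (Nat.mul_le_mul_left _ (Nat.pow_le_pow_left h1 M))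
    omega
  have horb : MulAction.orbit (⊤ : Subgroup (N ≃ₐ[K] N)) x = Set.univ := by
    ext z
    simp only [Set.mem_univ, iff_true]
    obtain ⟨g, hg⟩ := MulAction.exists_smul_eq (N ≃ₐ[K] N) x z
    exact ⟨⟨g, Subgroup.mem_top g⟩, hg⟩
  obtain ⟨y, -, hlin, hcard⟩ := hG (N ≃ₐ[K] N) Ω V ρ (fun z => (z : V))
    (fun g z => rfl) Subtype.val_injective htr x ⊤ (fun _ _ _ _ => Subgroup.mem_top _)
    (by rw [horb, Nat.card_coe_set_eq, Set.ncard_univ, Nat.card_eq_fintype_card, ← he]; exact hRe)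
    ⟨l, L, by
      intro g hg h _
      apply Subtype.ext
      have h1 := (hff _ _).2 (hL0 g hg h)
      rw [hf1, hf1] at h1
      rw [← mul_smul]
      exact h1, hLl, fun i hi => ⟨(hLi i hi).1, (hLi i hi).2.1, (hLi i hi).2.2.imp id
      fun h => h.trans (Nat.pow_le_pow_left (hee.trans he.le) A)⟩⟩
  choose σ hσ using fun i => hΩ (y i)
  have hcls : Nat.card (Set.range fun (g : N ≃ₐ[K] N) (i : Fin (2 ^ t)) =>
      {Q : Ept a b N | Tq (pm (g : N →ₐ[K] N) (pm (σ i : N →ₐ[K] N) P)) Q}) =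
      Nat.card (MulAction.orbit (N ≃ₐ[K] N) y) := by
    refine card_range_congr _ (fun g : N ≃ₐ[K] N => g • y) fun g h => ?_
    rw [_root_.funext_iff, _root_.funext_iff]
    refine forall_congr' fun i => ?_
    beta_reduce
    rw [cls_eq, ← hff, hf1, hf1 h, hσ]
    constructor
    · intro h1
      exact Subtype.ext h1
    · intro h1
      exact congrArg Subtype.val h1
  obtain ⟨m', hm'1, -, horbP, horby⟩ := hL (lam ^ n) (Nat.one_le_pow _ _ (by omega))
  have hy := horby (2 ^ t) (fun i => pm (σ i : N →ₐ[K] N) P) (fun i => ⟨σ i, rfl⟩)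
  rw [hcls] at hy
  refine ⟨2 ^ t, fun i => pm (σ i : N →ₐ[K] N) P, hk2, le_rfl, fun i => ⟨σ i, rfl⟩, ?_, ?_⟩
  · intro γ hγ
    have h1 := congrArg f hγ
    rw [map_sum, _root_.map_zero] at h1
    have h2 : ∑ i, (γ i : ℚ) • (y i : V) = 0 := by
      rw [← h1]
      refine Finset.sum_congr rfl fun i _ => ?_
      rw [map_zsmul, hσ, Int.cast_smul_eq_zsmul]
    have h5 := Fintype.linearIndependent_iff.1 hlin (fun i => (γ i : ℚ)) h2
    funext i
    exact_mod_cast h5 i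
  · rw [horbP]
    set T : ℕ := Nat.card (MulAction.orbit (N ≃ₐ[K] N) y) with hT
    rw [← he] at hcard
    have hk1 : 1 ≤ 2 ^ t := by omega
    have hpow : e₀ ^ (2 ^ t * (M + 1)) * e₀ ^ (M + 1) ≤ e₀ ^ (2 ^ t * (2 * (M + 1))) := by
      rw [← pow_add]
      apply Nat.pow_le_pow_right he1
      nlinarith
    calc (orbp K fun i => lam ^ n • pm (σ i : N →ₐ[K] N) P) ^ (2 * (M + 1)) * dg K P.xRep
        ≤ (T * m' ^ (2 ^ t)) ^ (2 * (M + 1)) * (e₀ * (M * e₀ ^ M)) :=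
          Nat.mul_le_mul (Nat.pow_le_pow_left hy _) hD'
      _ = (T ^ 2) ^ (M + 1) * (M * e₀ ^ (M + 1)) * m' ^ (2 ^ t * (2 * (M + 1))) := by
          rw [mul_pow, pow_mul T 2 (M + 1), ← pow_mul m', pow_succ]
          ring
      _ ≤ (C₀ * e₀ ^ (2 ^ t)) ^ (M + 1) * (M * e₀ ^ (M + 1)) * m' ^ (2 ^ t * (2 * (M + 1))) := by
          gcongr
      _ = C₀ ^ (M + 1) * M * (e₀ ^ (2 ^ t * (M + 1)) * e₀ ^ (M + 1)) *
            m' ^ (2 ^ t * (2 * (M + 1))) := by
          rw [mul_pow, ← pow_mul]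
          ring
      _ ≤ (C₀ ^ (M + 1) * M + R * (M * R ^ M)) * e₀ ^ (2 ^ t * (2 * (M + 1))) *
            m' ^ (2 ^ t * (2 * (M + 1))) :=
          Nat.mul_le_mul_right _ (Nat.mul_le_mul (Nat.le_add_right _ _) hpow)
      _ = (C₀ ^ (M + 1) * M + R * (M * R ^ M)) * (e₀ * m') ^ (2 ^ t * (2 * (M + 1))) := by
          rw [mul_pow, mul_assoc]

end Pool.DynLehmer.LE
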