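import Pool.Agent.Lib.MP_2194ec_nt.LE.OpenA

set_option autoImplicit false

/-!
# Row OPEN, part 2: a multiple of `P` plus a torsion point with few conjugates in its class
-/

namespace Pool.DynLehmer.LE.Op

variable {A : Type} [AddCommGroup A] {G : Type} [Group G] [DistribMulAction G A]

/-- the differences of the conjugates -/
def dS (H : Subgroup G) (P : A) : Set A := Set.range fun τ : H => (τ : G) • P - P

theorem smul_dif (σ τ : G) (P : A) :
    (σ * τ) • P - P = (σ • P - P) + σ • (τ • P - P) := by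
  rw [mul_smul, smul_sub]
  abel

theorem mem_dS {H : Subgroup G} {P : A} {τ : G} (h : τ ∈ H) : τ • P - P ∈ dS H P := ⟨⟨τ, h⟩, rfl⟩

/-- the differences for the elements which are trivial on the `n`-torsion -/
def Mg (H : Subgroup G) (P : A) (n : ℕ) (hn : ∀ τ ∈ H, n • (τ • P - P) = 0) : AddSubgroup A where
  carrier := {x | ∃ σ ∈ H, (∀ Q : A, n • Q = 0 → σ • Q = Q) ∧ σ • P - P = x}
  zero_mem' := ⟨1, H.one_mem, fun Q _ => one_smul G Q, by rw [one_smul, sub_self]⟩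
  add_mem' := by
    rintro _ _ ⟨σ, hσ, h, rfl⟩ ⟨σ', hσ', h', rfl⟩
    exact ⟨σ * σ', H.mul_mem hσ hσ', fun Q hQ => by rw [mul_smul, h' Q hQ, h Q hQ],
      by rw [smul_dif, h _ (hn σ' hσ')]⟩
  neg_mem' := by
    rintro _ ⟨σ, hσ, h, rfl⟩
    have h1 : ∀ Q : A, n • Q = 0 → σ⁻¹ • Q = Q := fun Q hQ => inv_smul_eq_iff.2 (h Q hQ).symm
    refine ⟨σ⁻¹, H.inv_mem hσ, h1, ?_⟩
    have h2 := smul_dif σ⁻¹ σ P
    rw [inv_mul_cancel, one_smul, sub_self, h1 _ (hn σ hσ)] at h2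
    exact eq_neg_of_add_eq_zero_left h2.symm

section

variable {H : Subgroup G} {P : A} {n : ℕ} (hn : ∀ τ ∈ H, n • (τ • P - P) = 0)

theorem Mg_tors {x : A} (hx : x ∈ Mg H P n hn) : n • x = 0 := by
  obtain ⟨σ, hσ, -, rfl⟩ := hx
  exact hn σ hσ

theorem Mg_stab {τ : G} (hτ : τ ∈ H) {x : A} (hx : x ∈ Mg H P n hn) : τ • x ∈ Mg H P n hn := by
  obtain ⟨σ, hσ, h, rfl⟩ := hx
  refine ⟨τ * (σ * τ⁻¹), H.mul_mem hτ (H.mul_mem hσ (H.inv_mem hτ)), fun Q hQ => ?_, ?_⟩
  · rw [mul_smul, mul_smul, h _ (smul_Tn τ⁻¹ hQ), smul_inv_smul]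
  · rw [smul_dif τ (σ * τ⁻¹) P, smul_dif σ τ⁻¹ P, h _ (hn τ⁻¹ (H.inv_mem hτ)), smul_add,
      smul_sub τ (τ⁻¹ • P) P, smul_inv_smul]
    abel

theorem Mg_add {x s : A} (hx : x ∈ Mg H P n hn) (hs : s ∈ dS H P) : x + s ∈ dS H P := by
  obtain ⟨σ, hσ, h, rfl⟩ := hx
  obtain ⟨⟨τ, hτ⟩, rfl⟩ := hs
  refine ⟨⟨σ * τ, H.mul_mem hσ hτ⟩, ?_⟩
  show (σ * τ) • P - P = _
  rw [smul_dif, h _ (hn τ hτ)]

/-- the multipliers -/
def Jg : AddSubgroup ℤ where
  carrier := {z | ∃ W ∈ AddSubgroup.closure (dS H P), ∀ τ ∈ H,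
    z • (τ • P - P) - (τ • W - W) ∈ Mg H P n hn}
  zero_mem' := ⟨0, zero_mem _, fun τ _ => by
    rw [zero_smul, smul_zero, sub_zero, sub_zero]
    exact zero_mem _⟩
  add_mem' := by
    rintro z z' ⟨W, hW, h⟩ ⟨W', hW', h'⟩
    refine ⟨W + W', add_mem hW hW', fun τ hτ => ?_⟩
    have h1 := add_mem (h τ hτ) (h' τ hτ)
    have h2 : (z + z') • (τ • P - P) - (τ • (W + W') - (W + W')) =
        z • (τ • P - P) - (τ • W - W) + (z' • (τ • P - P) - (τ • W' - W')) := by
      rw [add_smul, smul_add τ W W']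
      abel
    rw [h2]
    exact h1
  neg_mem' := by
    rintro z ⟨W, hW, h⟩
    refine ⟨-W, neg_mem hW, fun τ hτ => ?_⟩
    have h1 := neg_mem (h τ hτ)
    have h2 : (-z) • (τ • P - P) - (τ • (-W) - (-W)) = -(z • (τ • P - P) - (τ • W - W)) := by
      rw [neg_smul, smul_neg τ W]
      abel
    rw [h2]
    exact h1

theorem n_mem : (n : ℤ) ∈ Jg hn := ⟨0, zero_mem _, fun τ hτ => by
  rw [natCast_zsmul, hn τ hτ, smul_zero, sub_zero, sub_zero]
  exact zero_mem _⟩

/-- a scalar in the group gives a multiplier -/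
theorem scal_mem {τ : G} (hτ : τ ∈ H) {c : ℕ} (hc : ∀ Q : A, n • Q = 0 → τ • Q = c • Q) :
    (c : ℤ) - 1 ∈ Jg hn := by
  refine ⟨τ • P - P, AddSubgroup.subset_closure (mem_dS hτ), fun τ' hτ' => ?_⟩
  set κ := (τ' * τ)⁻¹ * (τ * τ') with hκ
  have hκH : κ ∈ H := H.mul_mem (H.inv_mem (H.mul_mem hτ' hτ)) (H.mul_mem hτ hτ')
  have hκQ : ∀ Q : A, n • Q = 0 → κ • Q = Q := by
    intro Q hQ
    rw [hκ, mul_smul, inv_smul_eq_iff, mul_smul, mul_smul, hc _ (smul_Tn τ' hQ), hc Q hQ,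
      smul_comm]
  have hm : κ • P - P ∈ Mg H P n hn := ⟨κ, hκH, hκQ, rfl⟩
  have h1 : τ * τ' = (τ' * τ) * κ := by
    rw [hκ, mul_inv_cancel_left]
  have h2 := smul_dif (τ' * τ) κ P
  rw [← h1, smul_dif τ τ' P, smul_dif τ' τ P, hc _ (hn τ' hτ')] at h2
  have h3 : ((c : ℤ) - 1) • (τ' • P - P) - (τ' • (τ • P - P) - (τ • P - P)) =
      (τ' * τ) • (κ • P - P) := by
    rw [sub_smul, one_smul, natCast_zsmul]
    have h4 : (τ' * τ) • (κ • P - P) = (τ • P - P) + c • (τ' • P - P) -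
        ((τ' • P - P) + τ' • (τ • P - P)) := by
      rw [h2]
      abel
    rw [h4]
    abel
  rw [h3]
  exact Mg_stab hn (H.mul_mem hτ' hτ) hm

end

/-! ### The scalars -/

theorem nsmul_congr {n : ℕ} {x y : ℕ} (h : (x : ZMod n) = (y : ZMod n)) {Q : A}
    (hQ : n • Q = 0) : x • Q = y • Q := by
  have key : ∀ z : ℕ, z • Q = (z % n) • Q := by
    intro z
    conv_lhs => rw [← Nat.mod_add_div z n]
    rw [add_smul, mul_smul, smul_comm, hQ, smul_zero, add_zero]
  rw [ZMod.natCast_eq_natCast_iff'] at h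
  rw [key x, key y, h]

/-- the multiplication by a unit -/
def sc (A : Type) [AddCommGroup A] (n : ℕ) [NeZero n] :
    (ZMod n)ˣ →* (Tn A n ≃ₗ[ℤ] Tn A n) where
  toFun c := AddEquiv.toIntLinearEquiv
    { toFun := fun Q => (c : ZMod n).val • Q
      invFun := fun Q => ((c⁻¹ : (ZMod n)ˣ) : ZMod n).val • Q
      left_inv := fun Q => Subtype.ext <| by
        show ((c⁻¹ : (ZMod n)ˣ) : ZMod n).val • (c : ZMod n).val • (Q : A) = Q
        rw [smul_smul]
        conv_rhs => rw [← one_smul ℕ (Q : A)]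
        refine nsmul_congr (n := n) ?_ Q.2
        push_cast
        rw [ZMod.natCast_val, ZMod.natCast_val, ZMod.cast_id, ZMod.cast_id, ← Units.val_mul,
          inv_mul_cancel, Units.val_one]
      right_inv := fun Q => Subtype.ext <| by
        show (c : ZMod n).val • ((c⁻¹ : (ZMod n)ˣ) : ZMod n).val • (Q : A) = Q
        rw [smul_smul]
        conv_rhs => rw [← one_smul ℕ (Q : A)]
        refine nsmul_congr (n := n) ?_ Q.2
        push_cast
        rw [ZMod.natCast_val, ZMod.natCast_val, ZMod.cast_id, ZMod.cast_id, ← Units.val_mul,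
          mul_inv_cancel, Units.val_one]
      map_add' := fun Q R => smul_add _ Q R }
  map_one' := by
    ext Q
    show ((1 : (ZMod n)ˣ) : ZMod n).val • (Q : A) = (Q : A)
    conv_rhs => rw [← one_smul ℕ (Q : A)]
    refine nsmul_congr (n := n) ?_ Q.2
    rw [ZMod.natCast_val, ZMod.cast_id, Units.val_one, Nat.cast_one]
  map_mul' := fun c c' => by
    ext Q
    show ((c * c' : (ZMod n)ˣ) : ZMod n).val • (Q : A) =
      (c : ZMod n).val • (c' : ZMod n).val • (Q : A)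
    rw [smul_smul]
    refine nsmul_congr (n := n) ?_ Q.2
    push_cast
    rw [ZMod.natCast_val, ZMod.natCast_val, ZMod.natCast_val, ZMod.cast_id, ZMod.cast_id,
      ZMod.cast_id]

theorem tot_le {H : Subgroup G} {n : ℕ} [NeZero n] {j : ℕ}
    (hidx : (H.map (act G A n)).index ≠ 0) (hle : (H.map (act G A n)).index ≤ j) {u : ℕ}
    (hu : u ∣ n) (h : ∀ τ ∈ H, ∀ c : ℕ, (∀ Q : A, n • Q = 0 → τ • Q = c • Q) →
      (u : ℤ) ∣ (c : ℤ) - 1) : Nat.totient u ≤ j := by
  have hu0 : 0 < u := Nat.pos_of_dvd_of_pos hu (Nat.pos_of_ne_zero (NeZero.ne n))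
  have : NeZero u := ⟨by omega⟩
  set L := (H.map (act G A n)).comap (sc A n) with hL
  have h1 : L.index = (H.map (act G A n)).relIndex (sc A n).range := Subgroup.index_comap _ _
  have h2 : L.index ≤ (H.map (act G A n)).index := by
    rw [h1, ← Subgroup.relIndex_top_right (H.map (act G A n))]
    exact Subgroup.relIndex_le_of_le_right le_top (by
      rw [Subgroup.relIndex_top_right]
      exact hidx)
  have h3 : L.index ≠ 0 := by
    have : Finite (ZMod n)ˣ := inferInstance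
    exact Subgroup.index_ne_zero_of_finite
  have h4 : L ≤ (ZMod.unitsMap hu).ker := by
    intro c hc
    obtain ⟨τ, hτ, hτc⟩ := hc
    have h5 := h τ hτ (c : ZMod n).val (fun Q hQ => by
      have h6 := congrArg (fun f : Tn A n ≃ₗ[ℤ] Tn A n => ((f ⟨Q, hQ⟩ : Tn A n) : A)) hτc
      exact h6)
    rw [MonoidHom.mem_ker]
    refine Units.ext ?_
    have h7 : (((ZMod.unitsMap hu c : (ZMod u)ˣ)) : ZMod u) = (((c : ZMod n).val : ℕ) : ZMod u) := by
      rw [ZMod.unitsMap_val, ZMod.natCast_val]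
    rw [h7, Units.val_one]
    obtain ⟨k, hk⟩ := h5
    have h8 := congrArg (Int.cast : ℤ → ZMod u) hk
    push_cast at h8
    rw [ZMod.natCast_self, zero_mul, sub_eq_zero] at h8
    exact h8
  have h5 : (ZMod.unitsMap hu).ker.index = Nat.totient u := by
    rw [Subgroup.index_ker, MonoidHom.range_eq_top.2 (ZMod.unitsMap_surjective hu),
      Nat.card_congr Subgroup.topEquiv.toEquiv, Nat.card_eq_fintype_card,
      ZMod.card_units_eq_totient]
  have h6 := Nat.le_of_dvd (Nat.pos_of_ne_zero h3) (Subgroup.index_dvd_of_le h4)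
  rw [h5] at h6
  omega

/-! ### The number of the torsion points -/

theorem card_Tn {r : ℕ} [NeZero r] (φ : Tn A r ≃+ ZMod r × ZMod r) :
    Nat.card (Tn A r) = r ^ 2 := by
  rw [Nat.card_congr φ.toEquiv, Nat.card_prod, Nat.card_zmod, sq]

theorem finite_Tn {r : ℕ} [NeZero r] (φ : Tn A r ≃+ ZMod r × ZMod r) : Finite (Tn A r) :=
  Finite.of_equiv _ φ.symm.toEquiv

/-- **The reduction.** -/
theorem main (hiso : ∀ r : ℕ, 1 ≤ r → Nonempty (Tn A r ≃+ ZMod r × ZMod r)) {H : Subgroup G}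
    {j : ℕ} (hidx : ∀ r : ℕ, 1 ≤ r → (H.map (act G A r)).index ≠ 0 ∧
      (H.map (act G A r)).index ≤ j)
    (P : A) {n : ℕ} (hn0 : 1 ≤ n) (hn : ∀ τ ∈ H, n • (τ • P - P) = 0) :
    ∃ (k : ℕ) (W : A), 1 ≤ k ∧ W ∈ AddSubgroup.closure (dS H P) ∧
      Nat.card (dS H (k • P + W)) ≤ 4 * j ^ 6 ∧
      k ^ 2 * Nat.card (dS H (k • P + W)) ≤ Nat.card (dS H P) := by
  classical
  have hnz : NeZero n := ⟨by omega⟩
  obtain ⟨φ⟩ := hiso n hn0
  have hfinT := finite_Tn φ
  have hj : 1 ≤ j := by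
    have h1 := hidx 1 le_rfl
    omega
  set M := Mg H P n hn with hM
  have hMT : ∀ x ∈ M, n • x = 0 := fun x hx => Mg_tors hn hx
  -- the largest `b`
  let p : ℕ → Prop := fun b => 1 ≤ b ∧ ∀ Q : A, b • Q = 0 → Q ∈ M
  have hp1 : p 1 := ⟨le_rfl, fun Q hQ => by
    rw [one_smul] at hQ
    rw [hQ]
    exact zero_mem M⟩
  have hpn : ∀ b, p b → b ≤ n := by
    rintro b ⟨hb1, hb⟩
    have : NeZero b := ⟨by omega⟩
    obtain ⟨ψ⟩ := hiso b hb1
    have h1 := hMT _ (hb _ (ψ.symm (1, 0)).2)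
    have h2 : n • ψ.symm (1, 0) = 0 := Subtype.ext h1
    have h3 := congrArg ψ h2
    rw [map_nsmul, ψ.apply_symm_apply, map_zero] at h3
    have h4 := congrArg Prod.fst h3
    rw [Prod.smul_fst, nsmul_eq_mul, mul_one] at h4
    have h5 : ((n : ℕ) : ZMod b) = 0 := h4
    rw [ZMod.natCast_eq_zero_iff] at h5
    exact Nat.le_of_dvd (by omega) h5
  set b := Nat.findGreatest p n with hb
  have hpb : p b := Nat.findGreatest_spec (hpn 1 hp1) hp1
  have hmax : ∀ b' : ℕ, 1 ≤ b' → (∀ Q : A, b' • Q = 0 → Q ∈ M) → b' ≤ b := fun b' h1 h2 =>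
    Nat.le_findGreatest (hpn b' ⟨h1, h2⟩) ⟨h1, h2⟩
  obtain ⟨hb1, hbM⟩ := hpb
  have : NeZero b := ⟨by omega⟩
  -- the group `b M`
  let M' : AddSubgroup A := M.map (nsmulAddMonoidHom b)
  have hM' : ∀ z, z ∈ M' ↔ ∃ m ∈ M, b • m = z := fun z => AddSubgroup.mem_map
  have hM'n : ∀ z ∈ M', n • z = 0 := by
    intro z hz
    obtain ⟨m, hm, rfl⟩ := (hM' z).1 hz
    rw [smul_comm, hMT m hm, smul_zero]
  have hfinM : Finite M' := Finite.of_injective (fun z : M' => (⟨z, hM'n z z.2⟩ : Tn A n))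
    fun z z' h => Subtype.ext (congrArg (fun t : Tn A n => (t : A)) h)
  have hcardM : Nat.card M' ≤ j ^ 2 := by
    obtain ⟨g, hg⟩ := AddMonoid.exists_addOrderOf_eq_exponent
      (AddMonoid.ExponentExists.of_finite (G := M'))
    set r := AddMonoid.exponent M' with hr
    have hr0 : 0 < r := Nat.pos_of_ne_zero AddMonoid.exponent_ne_zero_of_finite
    have hrj : r ≤ j := by
      obtain ⟨m, hm, hmg⟩ := (hM' _).1 g.2
      have h1 := ord_le hiso hidx M (fun τ hτ x hx => Mg_stab hn hτ hx) hb1 hbM hmax hm hn0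
        (hMT m hm)
      rw [hmg] at h1
      rw [← hg, ← AddSubgroup.addOrderOf_coe]
      exact h1
    have : NeZero r := ⟨by omega⟩
    obtain ⟨ψ⟩ := hiso r hr0
    have hfinr := finite_Tn ψ
    have h2 : Nat.card M' ≤ Nat.card (Tn A r) :=
      Nat.card_le_card_of_injective (fun z : M' => (⟨z, by
        have h3 : r • z = 0 := AddMonoid.exponent_nsmul_eq_zero z
        have h4 := congrArg (fun t : M' => (t : A)) h3
        exact h4⟩ : Tn A r))
        fun z z' h => Subtype.ext (congrArg (fun t : Tn A r => (t : A)) h)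
    rw [card_Tn ψ] at h2
    exact h2.trans (Nat.pow_le_pow_left hrj 2)
  -- the multiplier `u`
  obtain ⟨u₀, hu₀⟩ := Int.subgroup_cyclic (Jg hn)
  set u := u₀.natAbs with hu
  have hJ : ∀ z, z ∈ Jg hn ↔ (u : ℤ) ∣ z := by
    intro z
    rw [hu₀, AddSubgroup.mem_closure_singleton, hu, Int.natAbs_dvd]
    constructor
    · rintro ⟨k, rfl⟩
      exact ⟨k, by rw [smul_eq_mul, mul_comm]⟩
    · rintro ⟨k, rfl⟩
      exact ⟨k, by rw [smul_eq_mul, mul_comm]⟩
  have hun : u ∣ n := Int.natCast_dvd_natCast.1 ((hJ _).1 (n_mem hn))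
  have hu1 : 1 ≤ u := Nat.pos_of_dvd_of_pos hun (by omega)
  have htot : Nat.totient u ≤ j := tot_le (hidx n hn0).1 (hidx n hn0).2 hun
    fun τ hτ c hc => (hJ _).1 (scal_mem hn hτ hc)
  have hu2 : u ≤ 2 * j ^ 2 := (le_totient u).2.trans
    (Nat.mul_le_mul_left _ (Nat.pow_le_pow_left htot 2))
  obtain ⟨W, hW, hWJ⟩ := (hJ (u : ℤ)).2 dvd_rfl
  -- finiteness of the sets of differences
  have hfinS : Finite (dS H P) := Finite.of_injective
    (fun s : dS H P => (⟨s, by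
      obtain ⟨⟨τ, hτ⟩, h⟩ := s.2
      rw [mem_Tn, ← h]
      exact hn τ hτ⟩ : Tn A n))
    fun z z' h => Subtype.ext (congrArg (fun t : Tn A n => (t : A)) h)
  have hbdif : ∀ τ : G, τ • (b • P) - b • P = b • (τ • P - P) := fun τ => by
    rw [smul_sub, smul_comm τ b P]
  -- `b ^ 2 * #(b S) ≤ #S`
  have hfib : b ^ 2 * Nat.card (dS H (b • P)) ≤ Nat.card (dS H P) := by
    obtain ⟨ψ⟩ := hiso b hb1
    have hfinb := finite_Tn ψ
    have hsec : ∀ y : dS H (b • P), ∃ s ∈ dS H P, b • s = (y : A) := by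
      rintro ⟨_, ⟨τ, hτ⟩, rfl⟩
      exact ⟨τ • P - P, mem_dS hτ, (hbdif τ).symm⟩
    choose s hs hsb using hsec
    have h1 : Nat.card (Tn A b × dS H (b • P)) ≤ Nat.card (dS H P) :=
      Nat.card_le_card_of_injective (fun z : Tn A b × dS H (b • P) =>
        (⟨(z.1 : A) + s z.2, Mg_add hn (hbM _ z.1.2) (hs z.2)⟩ : dS H P)) (by
        rintro ⟨t, y⟩ ⟨t', y'⟩ h
        have h2 : (t : A) + s y = (t' : A) + s y' := congrArg (fun q : dS H P => (q : A)) h
        have h3 : y = y' := by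
          have h4 := congrArg (fun q : A => b • q) h2
          simp only [smul_add] at h4
          rw [hsb, hsb, show b • (t : A) = 0 from t.2, show b • (t' : A) = 0 from t'.2,
            zero_add, zero_add] at h4
          exact Subtype.ext h4
        subst h3
        have h5 : t = t' := Subtype.ext (add_right_cancel h2)
        rw [h5])
    rw [Nat.card_prod, card_Tn ψ] at h1
    exact h1
  by_cases hcase : Nat.card (dS H (b • P)) ≤ u ^ 2 * j ^ 2
  · refine ⟨b, 0, hb1, zero_mem _, ?_, ?_⟩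
    · rw [add_zero]
      refine hcase.trans ?_
      calc u ^ 2 * j ^ 2 ≤ (2 * j ^ 2) ^ 2 * j ^ 2 :=
            Nat.mul_le_mul_right _ (Nat.pow_le_pow_left hu2 2)
        _ = 4 * j ^ 6 := by ring
    · rw [add_zero]
      exact hfib
  · have hdif : ∀ τ : G, τ • ((b * u) • P + -(b • W)) - ((b * u) • P + -(b • W)) =
        b • ((u : ℤ) • (τ • P - P) - (τ • W - W)) := by
      intro τ
      rw [natCast_zsmul, smul_add, smul_neg, mul_smul, smul_comm τ b (u • P),
        smul_comm τ u P, smul_comm τ b W, smul_sub b, smul_sub u, smul_sub b, smul_sub b]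
      abel
    have hcard : Nat.card (dS H ((b * u) • P + -(b • W))) ≤ j ^ 2 := by
      refine le_trans ?_ hcardM
      exact Nat.card_le_card_of_injective
        (fun z : dS H ((b * u) • P + -(b • W)) => (⟨z, by
          obtain ⟨⟨τ, hτ⟩, h⟩ := z.2
          rw [← h]
          exact (hM' _).2 ⟨_, hWJ τ hτ, (hdif τ).symm⟩⟩ : M'))
        fun z z' h => Subtype.ext (congrArg (fun t : M' => (t : A)) h)
    refine ⟨b * u, -(b • W), Nat.mul_pos hb1 hu1,
      neg_mem (AddSubgroup.nsmul_mem _ hW b), ?_, ?_⟩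
    · refine hcard.trans ?_
      calc j ^ 2 ≤ j ^ 6 := Nat.pow_le_pow_right hj (by norm_num)
        _ ≤ 4 * j ^ 6 := Nat.le_mul_of_pos_left _ (by norm_num)
    · push Not at hcase
      calc (b * u) ^ 2 * Nat.card (dS H ((b * u) • P + -(b • W)))
          ≤ (b * u) ^ 2 * j ^ 2 := Nat.mul_le_mul_left _ hcard
        _ = b ^ 2 * (u ^ 2 * j ^ 2) := by ring
        _ ≤ b ^ 2 * Nat.card (dS H (b • P)) := Nat.mul_le_mul_left _ hcase.le
        _ ≤ Nat.card (dS H P) := hfib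

end Pool.DynLehmer.LE.Op
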