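import Pool.Agent.Lib.MP_2194ec_nt.LE.Clse
import Pool.Agent.Lib.MP_2194ec_nt.LE.Htq
import Pool.Agent.Lib.MP_2194ec_nt.LE.Latm
import Pool.Agent.Lib.MP_2194ec_nt.LE.OpenB
import Pool.Agent.Lib.MP_2194ec_nt.GAL.R.Mor

set_option autoImplicit false
set_option linter.unusedSectionVars false

/-!
# Row OPEN: all points, if the image of the Galois group on the torsion is open
-/

namespace Pool.DynLehmer.LE
open MvPolynomial NumberField Filter Topology Pool.DynLehmer Pool.DynLehmer.SB Pool.DynLehmer.SP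
  Pool.DynLehmer.GS Pool.DynLehmer.LP Pool.DynLehmer.LW
open scoped Classical

/-- The image of the Galois group in the automorphism groups of the torsion of the curve is open:
the group of the points of order dividing `n` over an algebraic closure of `K` is isomorphic to
`(ℤ / n) ^ 2`, and the number of its automorphisms is at most `B` times the number of the
automorphisms which are induced by automorphisms of the algebraic closure over `K`, for all `n`. -/
def OpenIm {K : Type} [Field K] (a b : K) : Prop :=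
  ∃ B : ℕ, ∀ n : ℕ, 1 ≤ n →
    Nonempty (Op.Tn (Ept a b (AlgebraicClosure K)) n ≃+ ZMod n × ZMod n) ∧
    Nat.card (Op.Tn (Ept a b (AlgebraicClosure K)) n ≃+ Op.Tn (Ept a b (AlgebraicClosure K)) n) ≤
      B * Nat.card {f : Op.Tn (Ept a b (AlgebraicClosure K)) n ≃+
        Op.Tn (Ept a b (AlgebraicClosure K)) n //
          ∃ σ : AlgebraicClosure K ≃ₐ[K] AlgebraicClosure K,
            ∀ Q : Op.Tn (Ept a b (AlgebraicClosure K)) n,
              ((f Q : Op.Tn (Ept a b (AlgebraicClosure K)) n) : Ept a b (AlgebraicClosure K)) =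
                pm (σ : AlgebraicClosure K →ₐ[K] AlgebraicClosure K) Q}

/-- **The Lehmer bound for elliptic curves with open image of the Galois group**, for all points of
infinite order. -/
def OpenStatement : Prop :=
  ∀ (K : Type) [Field K] [NumberField K] (a b : K), 4 * a ^ 3 + 27 * b ^ 2 ≠ 0 → NoCM a b →
    OpenIm a b →
    ∀ (p s lam : ℕ) (v : FinitePlace K) (F : Fin 2 → MvPolynomial (Fin 2) K), HypR p s v F →
    2 ≤ lam → lam ^ 2 = p ^ s → IsLat a b lam F →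
    ∀ A : ℕ, ∃ c : ℝ, 0 < c ∧
    ∀ (N : Type) [Field N] [NumberField N] [Algebra K N] [IsGalois K N] (P : Ept a b N),
      (∀ n : ℕ, 1 ≤ n → n • P ≠ 0) →
      (∃ (e : ℕ) (τ : Fin e → (N ≃ₐ[K] N)),
        (∀ i j, i ≠ j → ¬ Tq (pm (τ i : N →ₐ[K] N) P) (pm (τ j : N →ₐ[K] N) P)) ∧
        ∃ (l : ℕ) (L : ℕ → Subgroup (N ≃ₐ[K] N)),
          (∀ g ∈ L 0, ∀ h : N ≃ₐ[K] N, Tq (pm ((g * h : N ≃ₐ[K] N) : N →ₐ[K] N) P)
            (pm (h : N →ₐ[K] N) P)) ∧ L l = ⊤ ∧
          ∀ i < l, L i ≤ L (i + 1) ∧ (∀ x ∈ L (i + 1), ∀ y ∈ L i, x * y * x⁻¹ ∈ L i) ∧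
            ((∀ x ∈ L (i + 1), ∀ y ∈ L (i + 1), x * y * x⁻¹ * y⁻¹ ∈ L i) ∨
              (L i).relIndex (L (i + 1)) ≤ e ^ A)) →
      ∃ h : ℝ, HasHt (p ^ s) F P.xRep h ∧ c / (dg K P.xRep : ℝ) ≤ h

namespace Op

/-- the action of the automorphisms on the points -/
@[reducible] noncomputable def actE {K : Type} [Field K] (a b : K) (N : Type) [Field N]
    [Algebra K N] : DistribMulAction (N ≃ₐ[K] N) (Ept a b N) where
  smul σ P := pm (σ : N →ₐ[K] N) P
  one_smul P := CE.pm_one P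
  mul_smul σ τ P := CE.pm_mul σ τ P
  smul_zero σ := map_zero (pm (σ : N →ₐ[K] N))
  smul_add σ P Q := map_add (pm (σ : N →ₐ[K] N)) P Q

/-- the index of the image of a subgroup -/
theorem idx_le {A : Type} [AddCommGroup A] {G : Type} [Group G] [DistribMulAction G A] {B n : ℕ}
    [NeZero n] (φ : Tn A n ≃+ ZMod n × ZMod n)
    (hcard : Nat.card (Tn A n ≃+ Tn A n) ≤ B * Nat.card {f : Tn A n ≃+ Tn A n //
      ∃ σ : G, ∀ Q : Tn A n, ((f Q : Tn A n) : A) = σ • (Q : A)})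
    (H : Subgroup G) (hH : H.index ≠ 0) :
    (H.map (act G A n)).index ≠ 0 ∧ (H.map (act G A n)).index ≤ B * H.index := by
  have hfin := finite_Tn φ
  have hfin2 : Finite (Tn A n ≃ₗ[ℤ] Tn A n) := Finite.of_injective
    (fun f : Tn A n ≃ₗ[ℤ] Tn A n => (f : Tn A n → Tn A n)) DFunLike.coe_injective
  let e : (Tn A n ≃ₗ[ℤ] Tn A n) ≃ (Tn A n ≃+ Tn A n) :=
    { toFun := fun f => f.toAddEquiv
      invFun := fun f => f.toIntLinearEquiv
      left_inv := fun f => by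
        ext Q
        rfl
      right_inv := fun f => by
        ext Q
        rfl }
  have h1 : Nat.card (Tn A n ≃ₗ[ℤ] Tn A n) = Nat.card (Tn A n ≃+ Tn A n) := Nat.card_congr e
  have h2 : Nat.card (act G A n).range = Nat.card {f : Tn A n ≃+ Tn A n //
      ∃ σ : G, ∀ Q : Tn A n, ((f Q : Tn A n) : A) = σ • (Q : A)} := by
    refine Nat.card_congr (e.subtypeEquiv fun f => ?_)
    constructor
    · rintro ⟨σ, rfl⟩
      exact ⟨σ, fun Q => rfl⟩
    · rintro ⟨σ, hσ⟩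
      refine ⟨σ, ?_⟩
      ext Q
      exact (hσ Q).symm
  rw [← h1, ← h2, ← Subgroup.card_mul_index (act G A n).range, mul_comm B] at hcard
  have h3 : (act G A n).range.index ≤ B := Nat.le_of_mul_le_mul_left hcard Nat.card_pos
  refine ⟨Subgroup.index_ne_zero_of_finite, ?_⟩
  rw [Subgroup.index_map, mul_comm]
  exact Nat.mul_le_mul h3 (Nat.le_of_dvd (Nat.pos_of_ne_zero hH)
    (Subgroup.index_dvd_of_le le_sup_left))

section

variable {K : Type} [Field K] {a b : K} {N : Type} [Field N] [Algebra K N]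

theorem card_cls (P : Ept a b N) :
    Nat.card (Set.range fun (σ : N ≃ₐ[K] N) => {Q : Ept a b N | Tq (pm (σ : N →ₐ[K] N) P) Q}) =
      (CE.Sc P : Subgroup (N ≃ₐ[K] N)).index := by
  refine CE.card_range _ _ ?_
  intro σ τ
  rw [CE.cl_eq, CE.tq_pm_iff, CE.mem_Sc]

/-- the classes of `k P + T` -/
theorem tq_mul_add {P T : Ept a b N} {k n : ℕ} (hk : 1 ≤ k) (hn : 1 ≤ n) (hT : n • T = 0)
    (σ τ : N →ₐ[K] N) :
    Tq (pm σ (k • P + T)) (pm τ (k • P + T)) ↔ Tq (pm σ P) (pm τ P) := by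
  have hT' : ∀ σ : N →ₐ[K] N, n • pm σ T = 0 := fun σ => by rw [← map_nsmul, hT, map_zero]
  constructor
  · rintro ⟨r, hr, h⟩
    refine ⟨n * (r * k), Nat.mul_pos hn (Nat.mul_pos hr hk), ?_⟩
    have h1 := congrArg (fun Q => n • Q) h
    beta_reduce at h1
    rw [map_add, map_add, map_nsmul, map_nsmul, smul_add, smul_add, smul_add, smul_add,
      smul_comm n r (pm _ T), smul_comm n r (pm _ T), hT', hT', smul_zero, add_zero,
      add_zero] at h1
    rw [mul_smul, mul_smul, mul_smul, mul_smul]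
    exact h1
  · rintro ⟨r, hr, h⟩
    refine ⟨r * n, Nat.mul_pos hr hn, ?_⟩
    rw [map_add, map_add, map_nsmul, map_nsmul, smul_add, smul_add, mul_smul, mul_smul, mul_smul,
      mul_smul, hT', hT', smul_comm n k, smul_comm r k, smul_comm r n, h, smul_comm n k,
      smul_comm r k, smul_comm r n]

end

/-- The reduction for a point over a finite Galois extension. -/
theorem exists_red {K : Type} [Field K] [CharZero K] {a b : K} {B : ℕ}
    (hB : ∀ n : ℕ, 1 ≤ n →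
      Nonempty (Tn (Ept a b (AlgebraicClosure K)) n ≃+ ZMod n × ZMod n) ∧
      Nat.card (Tn (Ept a b (AlgebraicClosure K)) n ≃+ Tn (Ept a b (AlgebraicClosure K)) n) ≤
        B * Nat.card {f : Tn (Ept a b (AlgebraicClosure K)) n ≃+
          Tn (Ept a b (AlgebraicClosure K)) n //
            ∃ σ : AlgebraicClosure K ≃ₐ[K] AlgebraicClosure K,
              ∀ Q : Tn (Ept a b (AlgebraicClosure K)) n,
                ((f Q : Tn (Ept a b (AlgebraicClosure K)) n) : Ept a b (AlgebraicClosure K)) =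
                  pm (σ : AlgebraicClosure K →ₐ[K] AlgebraicClosure K) Q})
    {N : Type} [Field N] [Algebra K N] [FiniteDimensional K N] [IsGalois K N] (P : Ept a b N) :
    ∃ (k n : ℕ) (T : Ept a b N), 1 ≤ k ∧ 1 ≤ n ∧ n • T = 0 ∧
      Nat.card {Q : Ept a b N // (∃ σ : N ≃ₐ[K] N, pm (σ : N →ₐ[K] N) (k • P + T) = Q) ∧
        Tq (k • P + T) Q} ≤ 4 * (B * (CE.Sc P : Subgroup (N ≃ₐ[K] N)).index) ^ 6 ∧
      k ^ 2 * Nat.card {Q : Ept a b N // (∃ σ : N ≃ₐ[K] N, pm (σ : N →ₐ[K] N) (k • P + T) = Q) ∧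
        Tq (k • P + T) Q} ≤
        Nat.card {Q : Ept a b N // (∃ σ : N ≃ₐ[K] N, pm (σ : N →ₐ[K] N) P = Q) ∧ Tq P Q} := by
  letI := actE a b (AlgebraicClosure K)
  let ι : N →ₐ[K] AlgebraicClosure K := IsAlgClosed.lift
  letI : Algebra N (AlgebraicClosure K) := ι.toRingHom.toAlgebra
  haveI : IsScalarTower K N (AlgebraicClosure K) :=
    IsScalarTower.of_algebraMap_eq fun x => (ι.commutes x).symm
  have hfin : Finite (N ≃ₐ[K] N) := inferInstance
  let r : (AlgebraicClosure K ≃ₐ[K] AlgebraicClosure K) →* (N ≃ₐ[K] N) :=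
    AlgEquiv.restrictNormalHom N
  have hr : Function.Surjective r :=
    AlgEquiv.restrictNormalHom_surjective (F := K) (K₁ := N) (AlgebraicClosure K)
  have hcomm : ∀ (σ : AlgebraicClosure K ≃ₐ[K] AlgebraicClosure K) (R : Ept a b N),
      σ • pm ι R = pm ι (pm (r σ : N →ₐ[K] N) R) := by
    intro σ R
    show pm (σ : AlgebraicClosure K →ₐ[K] AlgebraicClosure K) (pm ι R) = _
    have h1 : ((σ : AlgebraicClosure K →ₐ[K] AlgebraicClosure K)).comp ι =
        ι.comp (r σ : N →ₐ[K] N) := by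
      refine AlgHom.ext fun x => ?_
      exact (σ.restrictNormal_commutes N x).symm
    have h2 : ∀ (f : N →ₐ[K] AlgebraicClosure K) (g : AlgebraicClosure K →ₐ[K] AlgebraicClosure K)
        (R : Ept a b N), pm g (pm f R) = pm (g.comp f) R := fun f g R => by
      cases R <;> rfl
    have h3 : ∀ (g : N →ₐ[K] N) (R : Ept a b N), pm ι (pm g R) = pm (ι.comp g) R := fun g R => by
      cases R <;> rfl
    rw [h2, h3, h1]
  have hinj : Function.Injective (pm (a := a) (b := b) ι) :=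
    WeierstrassCurve.Affine.Point.map_injective ι
  set S : Subgroup (N ≃ₐ[K] N) := CE.Sc P with hS
  set H : Subgroup (AlgebraicClosure K ≃ₐ[K] AlgebraicClosure K) := S.comap r with hH
  have hHi : H.index = S.index := Subgroup.index_comap_of_surjective S hr
  have hSi : S.index ≠ 0 := Subgroup.index_ne_zero_of_finite
  -- the exponent
  obtain ⟨n, hn0, hn⟩ : ∃ n : ℕ, 1 ≤ n ∧ ∀ ρ ∈ S, n • (pm (ρ : N →ₐ[K] N) P - P) = 0 := by
    have h1 : ∀ ρ : N ≃ₐ[K] N, ∃ m : ℕ, 1 ≤ m ∧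
        (ρ ∈ S → m • (pm (ρ : N →ₐ[K] N) P - P) = 0) := by
      intro ρ
      by_cases hρ : ρ ∈ S
      · obtain ⟨m, hm, h⟩ := hρ
        exact ⟨m, hm, fun _ => by rw [smul_sub, h, sub_self]⟩
      · exact ⟨1, le_rfl, fun h => absurd h hρ⟩
    choose m hm hm' using h1
    have : Fintype (N ≃ₐ[K] N) := Fintype.ofFinite _
    refine ⟨∏ ρ, m ρ, Nat.one_le_iff_ne_zero.2
      (Finset.prod_ne_zero_iff.2 fun ρ _ => by have := hm ρ; omega), fun ρ hρ => ?_⟩
    obtain ⟨m', hm2⟩ := Finset.dvd_prod_of_mem m (Finset.mem_univ ρ)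
    rw [hm2, mul_comm, mul_smul, hm' ρ hρ, smul_zero]
  have hn' : ∀ τ ∈ H, n • (τ • pm ι P - pm ι P) = 0 := by
    intro τ hτ
    rw [hcomm, ← map_sub, ← map_nsmul, hn _ hτ, map_zero]
  have hidx : ∀ t : ℕ, 1 ≤ t →
      (H.map (act (AlgebraicClosure K ≃ₐ[K] AlgebraicClosure K)
        (Ept a b (AlgebraicClosure K)) t)).index ≠ 0 ∧
      (H.map (act (AlgebraicClosure K ≃ₐ[K] AlgebraicClosure K)
        (Ept a b (AlgebraicClosure K)) t)).index ≤ B * S.index := by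
    intro t ht
    have : NeZero t := ⟨by omega⟩
    obtain ⟨⟨φ⟩, h2⟩ := hB t ht
    have h3 := idx_le φ (G := AlgebraicClosure K ≃ₐ[K] AlgebraicClosure K) h2 H
      (by rw [hHi]; exact hSi)
    rw [hHi] at h3
    exact h3
  obtain ⟨k, W, hk, hW, h1, h2⟩ := main (fun t ht => (hB t ht).1) hidx (pm ι P) hn0 hn'
  -- `W` comes from `N`
  have hWr : W ∈ (pm (a := a) (b := b) ι).range := by
    refine (AddSubgroup.closure_le _).2 ?_ hW
    rintro _ ⟨⟨τ, hτ⟩, rfl⟩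
    refine ⟨pm (r τ : N →ₐ[K] N) P - P, ?_⟩
    show pm ι _ = τ • pm ι P - pm ι P
    rw [hcomm, map_sub]
  have hWn : n • W = 0 := by
    have h3 : W ∈ Tn (Ept a b (AlgebraicClosure K)) n := by
      refine (AddSubgroup.closure_le _).2 ?_ hW
      rintro _ ⟨⟨τ, hτ⟩, rfl⟩
      exact hn' τ hτ
    exact h3
  obtain ⟨T, rfl⟩ := hWr
  have hT : n • T = 0 := hinj (by rw [map_nsmul, map_zero]; exact hWn)
  -- the number of conjugates in a class
  have hcls : ∀ R : Ept a b N, (CE.Sc R : Subgroup (N ≃ₐ[K] N)) = S →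
      Nat.card (dS H (pm ι R)) =
        Nat.card {Q : Ept a b N // (∃ σ : N ≃ₐ[K] N, pm (σ : N →ₐ[K] N) R = Q) ∧ Tq R Q} := by
    intro R hR
    symm
    refine Nat.card_congr (Equiv.ofBijective
      (fun Q : {Q : Ept a b N // (∃ σ : N ≃ₐ[K] N, pm (σ : N →ₐ[K] N) R = Q) ∧ Tq R Q} =>
        (⟨pm ι Q.1 - pm ι R, ?_⟩ : dS H (pm ι R))) ⟨?_, ?_⟩)
    · obtain ⟨⟨σ, hσ⟩, hq⟩ := Q.2
      obtain ⟨τ, hτ⟩ := hr σ
      refine ⟨⟨τ, ?_⟩, ?_⟩
      · show r τ ∈ S
        rw [hτ, ← hR, CE.mem_Sc, hσ]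
        exact hq
      · show τ • pm ι R - pm ι R = _
        rw [hcomm, hτ, hσ]
    · intro Q Q' h
      have h3 : pm ι Q.1 - pm ι R = pm ι Q'.1 - pm ι R := congrArg Subtype.val h
      exact Subtype.ext (hinj (sub_left_injective h3))
    · rintro ⟨_, ⟨⟨τ, hτ⟩, rfl⟩⟩
      refine ⟨⟨pm (r τ : N →ₐ[K] N) R, ⟨r τ, rfl⟩, ?_⟩, ?_⟩
      · have h3 : r τ ∈ S := hτ
        rw [← hR, CE.mem_Sc] at h3
        exact h3
      · refine Subtype.ext ?_
        show pm ι (pm (r τ : N →ₐ[K] N) R) - pm ι R = τ • pm ι R - pm ι R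
        rw [hcomm]
  have hSc : (CE.Sc (k • P + T) : Subgroup (N ≃ₐ[K] N)) = S := by
    ext σ
    rw [CE.mem_Sc, hS, CE.mem_Sc]
    have h3 := tq_mul_add (P := P) hk hn0 hT ((1 : N ≃ₐ[K] N) : N →ₐ[K] N) (σ : N →ₐ[K] N)
    rw [CE.pm_one, CE.pm_one] at h3
    exact h3
  refine ⟨k, n, T, hk, hn0, hT, ?_, ?_⟩
  · rw [← hcls _ hSc, map_add, map_nsmul]
    exact h1
  · rw [← hcls _ hSc, ← hcls P rfl, map_add, map_nsmul]
    exact h2

/-- The reduction, all properties: the point `R = k P + T`. -/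
theorem red_all (hCls : ClseStatement) {K : Type} [Field K] [NumberField K] {a b : K}
    (hD : 4 * a ^ 3 + 27 * b ^ 2 ≠ 0) (hOp : OpenIm a b) : ∃ B : ℕ,
    ∀ (q lam : ℕ) (F : Fin 2 → MvPolynomial (Fin 2) K), 2 ≤ q → Mor q F → IsLat a b lam F →
    ∀ (N : Type) [Field N] [NumberField N] [Algebra K N] [IsGalois K N] (P : Ept a b N),
      (∀ n : ℕ, 1 ≤ n → n • P ≠ 0) →
      ∃ (e : ℕ) (τ : Fin e → (N ≃ₐ[K] N)) (R : Ept a b N), 1 ≤ e ∧
        (∀ n : ℕ, 1 ≤ n → n • R ≠ 0) ∧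
        (∀ i j, i ≠ j → ¬ Tq (pm (τ i : N →ₐ[K] N) R) (pm (τ j : N →ₐ[K] N) R)) ∧
        (∀ (e' : ℕ) (τ' : Fin e' → (N ≃ₐ[K] N)),
          (∀ i j, i ≠ j → ¬ Tq (pm (τ' i : N →ₐ[K] N) P) (pm (τ' j : N →ₐ[K] N) P)) → e' ≤ e) ∧
        Nat.card {Q : Ept a b N // (∃ σ : N ≃ₐ[K] N, pm (σ : N →ₐ[K] N) R = Q) ∧ Tq R Q} ≤
          B * e ^ 6 ∧
        (∀ σ τ : N →ₐ[K] N, Tq (pm σ R) (pm τ R) ↔ Tq (pm σ P) (pm τ P)) ∧
        ∀ c h' : ℝ, 0 < c → HasHt q F R.xRep h' → c / (dg K R.xRep : ℝ) ≤ h' →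
          ∃ h : ℝ, HasHt q F P.xRep h ∧ c / 2 / (dg K P.xRep : ℝ) ≤ h := by
  obtain ⟨B, hB⟩ := hOp
  refine ⟨4 * B ^ 6, ?_⟩
  intro q lam F hq2 hM hL N _ _ _ _ P hP
  have hfd : FiniteDimensional K N := Module.Finite.of_restrictScalars_finite ℚ K N
  have hfin : Finite (N ≃ₐ[K] N) := inferInstance
  obtain ⟨k, n, T, hk, hn, hT, h1, h2⟩ := exists_red hB P
  set S : Subgroup (N ≃ₐ[K] N) := CE.Sc P with hS
  have hS0 : 1 ≤ S.index := Nat.pos_of_ne_zero Subgroup.index_ne_zero_of_finite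
  -- representatives of the classes
  have hfinq : Finite ((N ≃ₐ[K] N) ⧸ S) := inferInstance
  let ε : ((N ≃ₐ[K] N) ⧸ S) ≃ Fin S.index := Finite.equivFin _
  let τ : Fin S.index → (N ≃ₐ[K] N) := fun i => (ε.symm i).out
  have hτP : ∀ i j, i ≠ j → ¬ Tq (pm (τ i : N →ₐ[K] N) P) (pm (τ j : N →ₐ[K] N) P) := by
    intro i j hij h
    rw [CE.tq_pm_iff, ← CE.mem_Sc, ← QuotientGroup.eq] at h
    apply hij
    have h3 : ε.symm i = ε.symm j := by
      rw [← QuotientGroup.out_eq' (ε.symm i), ← QuotientGroup.out_eq' (ε.symm j)]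
      exact h
    exact ε.symm.injective h3
  -- the point `P' = k P + T`
  have hP' : ∀ m : ℕ, 1 ≤ m → m • (k • P + T) ≠ 0 := by
    intro m hm h0
    refine hP (n * (m * k)) (Nat.mul_pos hn (Nat.mul_pos hm hk)) ?_
    have h3 : n • m • (k • P + T) = 0 := by rw [h0, smul_zero]
    rw [smul_add, smul_add, smul_comm n m T, hT, smul_zero, add_zero] at h3
    rw [mul_smul, mul_smul]
    exact h3
  have hSc : (CE.Sc (k • P + T) : Subgroup (N ≃ₐ[K] N)) = S := by
    ext σ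
    rw [CE.mem_Sc, hS, CE.mem_Sc]
    have h3 := tq_mul_add (P := P) hk hn hT ((1 : N ≃ₐ[K] N) : N →ₐ[K] N) (σ : N →ₐ[K] N)
    rw [CE.pm_one, CE.pm_one] at h3
    exact h3
  refine ⟨S.index, τ, k • P + T, hS0, hP', fun i j hij => by
    rw [tq_mul_add hk hn hT]
    exact hτP i j hij, ?_, ?_, fun σ τ => tq_mul_add hk hn hT σ τ, ?_⟩
  · intro e τ₀ hτ₀
    have h3 : Function.Injective fun i : Fin e => ((τ₀ i : N ≃ₐ[K] N) : (N ≃ₐ[K] N) ⧸ S) := by
      intro i j hij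
      by_contra hne
      apply hτ₀ i j hne
      rw [CE.tq_pm_iff, ← CE.mem_Sc, ← QuotientGroup.eq]
      exact hij
    have h4 := Nat.card_le_card_of_injective _ h3
    rw [Nat.card_eq_fintype_card, Fintype.card_fin] at h4
    exact h4
  · refine h1.trans (le_of_eq ?_)
    ring
  · intro c h' hc hh' hle
    obtain ⟨-, -, hd1, -, -⟩ := hCls K a b N (k • P + T) _ _ rfl rfl
    obtain ⟨-, -, -, hd2, -⟩ := hCls K a b N P _ _ rfl rfl
    rw [card_cls, hSc] at hd1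
    rw [card_cls, ← hS] at hd2
    obtain ⟨h, hh⟩ := HQ.exists_ht hq2 hM P
    refine ⟨h, hh, ?_⟩
    have hhh : h' = (k : ℝ) ^ 2 * h := hasHt_mul_add hD hq2 hM hL P T k n hn hT hh hh'
    have hdpos : 1 ≤ dg K (k • P + T).xRep := by
      have : FiniteDimensional K (IntermediateField.adjoin K
        {(k • P + T).xRep 0 / (k • P + T).xRep 1}) := inferInstance
      exact Module.finrank_pos
    have hd0 : (0 : ℝ) < dg K (k • P + T).xRep := by exact_mod_cast hdpos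
    have hdP : (0 : ℝ) < dg K P.xRep := by
      have : 1 ≤ dg K P.xRep := by
        have : FiniteDimensional K (IntermediateField.adjoin K {P.xRep 0 / P.xRep 1}) :=
          inferInstance
        exact Module.finrank_pos
      exact_mod_cast this
    have hd3 : k ^ 2 * dg K (k • P + T).xRep ≤ 2 * dg K P.xRep := by
      calc k ^ 2 * dg K (k • P + T).xRep ≤ k ^ 2 * (S.index * _) := Nat.mul_le_mul_left _ hd1
        _ = S.index * (k ^ 2 * _) := by ring
        _ ≤ S.index * _ := Nat.mul_le_mul_left _ h2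
        _ ≤ 2 * dg K P.xRep := hd2
    have hd4 : (k : ℝ) ^ 2 * dg K (k • P + T).xRep ≤ 2 * dg K P.xRep := by exact_mod_cast hd3
    rw [hhh, div_le_iff₀ hd0] at hle
    rw [div_div, div_le_iff₀ (by positivity)]
    have h0 : 0 < h := by
      by_contra h3
      replace h3 := not_lt.1 h3
      have : (k : ℝ) ^ 2 * h * dg K (k • P + T).xRep ≤ 0 := by
        apply mul_nonpos_of_nonpos_of_nonneg _ hd0.le
        exact mul_nonpos_of_nonneg_of_nonpos (by positivity) h3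
      linarith
    calc c ≤ (k : ℝ) ^ 2 * h * dg K (k • P + T).xRep := hle
      _ = h * ((k : ℝ) ^ 2 * dg K (k • P + T).xRep) := by ring
      _ ≤ h * (2 * dg K P.xRep) := mul_le_mul_of_nonneg_left hd4 h0.le

end Op

open Op in
/-- **Row OPEN.** -/
theorem opens (hCls : ClseStatement) (hLat : LatmStatement) : OpenStatement := by
  intro K _ _ a b hD hCM hOp p s lam v F hR hlam hq hL A
  obtain ⟨B, hB⟩ := red_all hCls hD hOp
  obtain ⟨c, hc, H⟩ := hLat K a b hD hCM p s lam v F hR hlam hq hL A (B + 6)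
  have hq2 : 2 ≤ p ^ s := by
    rw [← hq]
    nlinarith
  refine ⟨c / 2, by positivity, ?_⟩
  intro N _ _ _ _ P hP hser
  obtain ⟨e, τ, R, he1, hR0, hτ, hmax, hm, hT, hfin⟩ :=
    hB (p ^ s) lam F hq2 (Pool.DynLehmer.GS.mor K p s v F hR) hL N P hP
  obtain ⟨e₀, τ₀, hτ₀, l, L, hL0, hLl, hLi⟩ := hser
  have he : e₀ ≤ e := hmax e₀ τ₀ hτ₀
  obtain ⟨h', hh', hle⟩ := H N R hR0 ⟨e, τ, hτ, by
      refine hm.trans ?_
      exact Nat.mul_le_mul (by omega) (Nat.pow_le_pow_right he1 (by omega)),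
      l, L, fun g hg h => (hT _ _).2 (hL0 g hg h), hLl, fun i hi => by
        obtain ⟨h3, h4, h5⟩ := hLi i hi
        exact ⟨h3, h4, h5.imp id fun h6 => h6.trans (Nat.pow_le_pow_left he A)⟩⟩
  exact hfin c h' hc hh' hle

end Pool.DynLehmer.LE
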