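import Pool.Agent.Lib.MP_2194ec_nt.LE.LatpuFld
import Pool.Agent.Lib.MP_2194ec_nt.LE.Open
import Pool.Agent.Lib.MP_2194ec_nt.LE.Htq
import Pool.Agent.Lib.MP_2194ec_nt.GAL.R.Mor

set_option autoImplicit false

/-!
# The Lehmer bound for all elliptic curves outside primitive almost simple groups: multiples and
translates

The bound for `P` from the bound for `n P + T`, `T` a torsion point.
-/

namespace Pool.DynLehmer.LE
open MvPolynomial NumberField Filter Topology Pool.DynLehmer Pool.DynLehmer.SB Pool.DynLehmer.SP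
  Pool.DynLehmer.GS Pool.DynLehmer.LP Pool.DynLehmer.LW
open scoped Classical

/-- The exceptional points: there are fields `K ≤ E < F ≤ K_P` with no field strictly between `E`
and `F`, with `[K_P : F] ≤ 81` and `[E : K] ^ A < e = [K_P : K]`, such that the Galois group of the
Galois closure of `F` over `E` is almost simple; and among any `3 ≤ m ≤ A` linearly independent
conjugates `s i P` of `P` there are `k ≥ m / 2` which generate modulo torsion a field of degree more
than `e ^ (k - 1 / A)` over `K`. -/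
def ExceptionalE (K : Type) [Field K] {a b : K} {N : Type} [Field N] [Algebra K N] (P : Ept a b N)
    (A : ℕ) : Prop :=
  (∃ E F : IntermediateField K N, E < F ∧ F ≤ classFieldE K P ∧
    (∀ M : IntermediateField K N, E ≤ M → M ≤ F → M = E ∨ M = F) ∧
    IntermediateField.relfinrank F (classFieldE K P) ≤ 81 ∧
    Module.finrank K E ^ A < Module.finrank K (classFieldE K P) ∧
    AlmostSimple E F A (Module.finrank K (classFieldE K P))) ∧
  ∀ (m : ℕ) (s : Fin m → (N ≃ₐ[K] N)), 3 ≤ m → m ≤ A →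
    (∀ γ : Fin m → ℤ, ∑ i, γ i • pm (s i : N →ₐ[K] N) P = 0 → γ = 0) →
    ∃ (k : ℕ) (ι : Fin k → Fin m), Function.Injective ι ∧ m ≤ 2 * k ∧
      Module.finrank K (classFieldE K P) ^ (k * A - 1) <
        Module.finrank K (⨆ i, (classFieldE K P).map (s (ι i) : N →ₐ[K] N) :
          IntermediateField K N) ^ A

/-- `P` has a multiple `n P + T` (`T` torsion) of degree at most `M * e ^ M` with
`n ^ 2 * [K(x(n P + T)) : K] ≤ M * [K(x(P)) : K]`. -/
def SmallM (K : Type) [Field K] {a b : K} {N : Type} [Field N] [Algebra K N] (P : Ept a b N)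
    (M : ℕ) : Prop :=
  ∃ (n : ℕ) (T : Ept a b N), 1 ≤ n ∧ (∃ m : ℕ, 1 ≤ m ∧ m • T = 0) ∧
    dg K (n • P + T).xRep ≤ M * Module.finrank K (classFieldE K P) ^ M ∧
    n ^ 2 * dg K (n • P + T).xRep ≤ M * dg K P.xRep

/-- **The Lehmer bound for all elliptic curves outside primitive almost simple groups**, for all
points which have a multiple of a small degree up to torsion. -/
def LatteStatement : Prop :=
  ∀ (K : Type) [Field K] [NumberField K] (a b : K), 4 * a ^ 3 + 27 * b ^ 2 ≠ 0 →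
    ∀ (p s lam : ℕ) (v : FinitePlace K) (F : Fin 2 → MvPolynomial (Fin 2) K), HypR p s v F →
    2 ≤ lam → lam ^ 2 = p ^ s → IsLat a b lam F →
    ∀ A M : ℕ, 1 ≤ A → ∃ c : ℝ, 0 < c ∧
    ∀ (N : Type) [Field N] [NumberField N] [Algebra K N] [IsGalois K N] (P : Ept a b N),
      (∀ n : ℕ, 1 ≤ n → n • P ≠ 0) → SmallM K P M →
      ∃ h : ℝ, HasHt (p ^ s) F P.xRep h ∧ (c / (dg K P.xRep : ℝ) ≤ h ∨ ExceptionalE K P A)

theorem dg_pos {K : Type} [Field K] {a b : K} {N : Type} [Field N] [Algebra K N]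
    [FiniteDimensional K N] (Q : Ept a b N) : 1 ≤ dg K Q.xRep := by
  have : FiniteDimensional K (IntermediateField.adjoin K {Q.xRep 0 / Q.xRep 1}) := inferInstance
  exact Module.finrank_pos

theorem sc_eq {K : Type} [Field K] {a b : K} {N : Type} [Field N] [Algebra K N]
    {P : Ept a b N} {S : Subgroup (N ≃ₐ[K] N)}
    (hS : ∀ g : N ≃ₐ[K] N, g ∈ S ↔ Tq (pm (g : N →ₐ[K] N) P) P) : CE.Sc P = S := by
  ext g
  rw [CE.mem_Sc, hS]
  constructor
  · rintro ⟨r, hr, h⟩
    exact ⟨r, hr, h.symm⟩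
  · rintro ⟨r, hr, h⟩
    exact ⟨r, hr, h.symm⟩

theorem sc_mul_add {K : Type} [Field K] {a b : K} {N : Type} [Field N] [Algebra K N]
    {P T : Ept a b N} {k n : ℕ} (hk : 1 ≤ k) (hn : 1 ≤ n) (hT : n • T = 0) :
    (CE.Sc (k • P + T) : Subgroup (N ≃ₐ[K] N)) = CE.Sc P := by
  ext σ
  rw [CE.mem_Sc, CE.mem_Sc]
  have h3 := Op.tq_mul_add (P := P) hk hn hT ((1 : N ≃ₐ[K] N) : N →ₐ[K] N) (σ : N →ₐ[K] N)
  rw [CE.pm_one, CE.pm_one] at h3
  exact h3

theorem finrank_class {K : Type} [Field K] {a b : K} {N : Type} [Field N] [Algebra K N]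
    [FiniteDimensional K N] [IsGalois K N] (P : Ept a b N) :
    Module.finrank K (classFieldE K P) = (CE.Sc P : Subgroup (N ≃ₐ[K] N)).index := by
  have hS : ∀ g : N ≃ₐ[K] N, g ∈ (CE.Sc P : Subgroup (N ≃ₐ[K] N)) ↔
      Tq (pm (g : N →ₐ[K] N) P) P := by
    intro g
    rw [CE.mem_Sc]
    constructor
    · rintro ⟨r, hr, h⟩
      exact ⟨r, hr, h.symm⟩
    · rintro ⟨r, hr, h⟩
      exact ⟨r, hr, h.symm⟩
  rw [classFieldE_eq hS, PasFld.finrank_fixed]

theorem latte (hCls : ClseStatement) (hLat : LatpuStatement) : LatteStatement := by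
  intro K _ _ a b hD p s lam v F hR hlam hq hL A M hA
  obtain ⟨c, hc, H⟩ := hLat K a b hD p s lam v F hR hlam hq hL A (2 * M) hA
  have hq2 : 2 ≤ p ^ s := by
    rw [← hq]
    nlinarith
  have hM : Mor (p ^ s) F := Pool.DynLehmer.GS.mor K p s v F hR
  refine ⟨c / (M + 1), by positivity, ?_⟩
  intro N _ _ _ _ P hP
  have hfd : FiniteDimensional K N := Module.Finite.of_restrictScalars_finite ℚ K N
  rintro ⟨n, T, hn, ⟨m, hm, hmT⟩, hd1, hd2⟩
  rw [finrank_class] at hd1
  obtain ⟨h, hh⟩ := HQ.exists_ht hq2 hM P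
  refine ⟨h, hh, ?_⟩
  -- `P' = n P + T`
  have hP' : ∀ k : ℕ, 1 ≤ k → k • (n • P + T) ≠ 0 := by
    intro k hk h0
    refine hP (m * (k * n)) (Nat.mul_pos hm (Nat.mul_pos hk hn)) ?_
    have h1 : m • k • (n • P + T) = 0 := by rw [h0, smul_zero]
    rw [smul_add, smul_add, smul_comm m k T, hmT, smul_zero, add_zero] at h1
    rw [mul_smul, mul_smul]
    exact h1
  obtain ⟨S, hS, hb⟩ := H N (n • P + T) hP'
  have hSS : S = CE.Sc P := by
    rw [← sc_eq hS, sc_mul_add hn hm hmT]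
  rw [hSS] at hb
  obtain ⟨he1, hm1, hDe, hD2, -⟩ := hCls K a b N (n • P + T) _ _ rfl rfl
  have hSi : 1 ≤ (CE.Sc P : Subgroup (N ≃ₐ[K] N)).index :=
    Nat.one_le_iff_ne_zero.2 Subgroup.index_ne_zero_of_finite
  rcases hb (by
    refine le_trans ?_ (?_ : 2 * (M * (CE.Sc P : Subgroup (N ≃ₐ[K] N)).index ^ M) ≤
      2 * M * (CE.Sc P : Subgroup (N ≃ₐ[K] N)).index ^ (2 * M))
    · calc _ ≤ _ := Nat.le_mul_of_pos_left _ he1
        _ ≤ 2 * dg K (n • P + T).xRep := hD2
        _ ≤ 2 * (M * (CE.Sc P : Subgroup (N ≃ₐ[K] N)).index ^ M) := Nat.mul_le_mul_left _ hd1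
    · rw [← mul_assoc]
      exact Nat.mul_le_mul_left _ (Nat.pow_le_pow_right hSi (by omega))) with
    ⟨h', hh', hle⟩ | ⟨hind, hpas⟩
  · left
    have hhh : h' = (n : ℝ) ^ 2 * h := hasHt_mul_add hD hq2 hM hL P T n m hm hmT hh hh'
    have hn0 : (0 : ℝ) < n := by exact_mod_cast hn
    have hd0 : (0 : ℝ) < dg K (n • P + T).xRep := by exact_mod_cast dg_pos _
    have hdP : (0 : ℝ) < dg K P.xRep := by exact_mod_cast dg_pos _
    have hd2' : (n : ℝ) ^ 2 * dg K (n • P + T).xRep ≤ (M + 1) * dg K P.xRep := by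
      have : (n : ℝ) ^ 2 * dg K (n • P + T).xRep ≤ M * dg K P.xRep := by exact_mod_cast hd2
      nlinarith
    rw [hhh, div_le_iff₀ hd0] at hle
    rw [div_div, div_le_iff₀ (by positivity)]
    have h0 : 0 < h := by
      by_contra h1
      replace h1 := not_lt.1 h1
      have : (n : ℝ) ^ 2 * h * dg K (n • P + T).xRep ≤ 0 := by
        apply mul_nonpos_of_nonpos_of_nonneg _ hd0.le
        exact mul_nonpos_of_nonneg_of_nonpos (by positivity) h1
      linarith
    calc c ≤ (n : ℝ) ^ 2 * h * dg K (n • P + T).xRep := hle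
      _ = h * ((n : ℝ) ^ 2 * dg K (n • P + T).xRep) := by ring
      _ ≤ h * ((M + 1) * dg K P.xRep) := mul_le_mul_of_nonneg_left hd2' h0.le
  · right
    have hKS : (classFieldE K P).fixingSubgroup = CE.Sc P := by
      have hS' : ∀ g : N ≃ₐ[K] N, g ∈ (CE.Sc P : Subgroup (N ≃ₐ[K] N)) ↔
          Tq (pm (g : N →ₐ[K] N) P) P := by
        intro g
        rw [CE.mem_Sc]
        constructor
        · rintro ⟨r, hr, h⟩
          exact ⟨r, hr, h.symm⟩
        · rintro ⟨r, hr, h⟩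
          exact ⟨r, hr, h.symm⟩
      rw [classFieldE_eq hS', IntermediateField.fixingSubgroup_fixedField]
    have hidx := finrank_class (K := K) P
    refine ⟨PasFld.pas_fields hpas hKS, ?_⟩
    intro k σ hk2 hkA hσ
    obtain ⟨k', ι, hι, hk', hlt⟩ := hind k σ hk2 hkA (by
      intro γ hγ
      have h1 : ∑ i, (((m : ℤ) * ((n : ℤ) * γ i)) • pm (σ i : N →ₐ[K] N) P) = 0 := by
        have h2 : ∑ i, m • (γ i • pm (σ i : N →ₐ[K] N) (n • P + T)) = 0 := by
          rw [← Finset.smul_sum, hγ, smul_zero]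
        rw [← h2]
        refine Finset.sum_congr rfl fun i _ => ?_
        have hpmT : m • pm (σ i : N →ₐ[K] N) T = 0 := by
          rw [← map_nsmul, hmT, map_zero]
        rw [map_add, map_nsmul, smul_add, smul_add, smul_comm m (γ i) (pm _ T), hpmT, smul_zero,
          add_zero, mul_smul, natCast_zsmul, mul_smul, natCast_zsmul, smul_comm n (γ i)]
      have h3 := hσ (fun i => (m : ℤ) * ((n : ℤ) * γ i)) h1
      funext i
      have h4 := congrFun h3 i
      have hm' : (m : ℤ) ≠ 0 := by exact_mod_cast (by omega : m ≠ 0)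
      have hn' : (n : ℤ) ≠ 0 := by exact_mod_cast (by omega : n ≠ 0)
      rcases mul_eq_zero.1 h4 with h5 | h5
      · exact absurd h5 hm'
      · rcases mul_eq_zero.1 h5 with h6 | h6
        · exact absurd h6 hn'
        · exact h6)
    refine ⟨k', ι, hι, hk', ?_⟩
    rw [PasFld.finrank_iSup, hKS, hidx]
    exact hlt

/-- If the image of the Galois group is open, then every point has a multiple of a small degree up
to torsion. -/
theorem small_open (hCls : ClseStatement) {K : Type} [Field K] [NumberField K] {a b : K}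
    (hOp : OpenIm a b) : ∃ M : ℕ,
    ∀ (N : Type) [Field N] [NumberField N] [Algebra K N] [IsGalois K N] (P : Ept a b N),
      SmallM K P M := by
  obtain ⟨B, hB⟩ := hOp
  refine ⟨4 * B ^ 6 + 7, ?_⟩
  intro N _ _ _ _ P
  have hfd : FiniteDimensional K N := Module.Finite.of_restrictScalars_finite ℚ K N
  have hfin : Finite (N ≃ₐ[K] N) := inferInstance
  obtain ⟨k, n, T, hk, hn, hT, h1, h2⟩ := Op.exists_red hB P
  refine ⟨k, T, hk, ⟨n, hn, hT⟩, ?_, ?_⟩
  · obtain ⟨-, -, hd1, -, -⟩ := hCls K a b N (k • P + T) _ _ rfl rfl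
    rw [Op.card_cls, sc_mul_add hk hn hT] at hd1
    rw [finrank_class]
    set e := (CE.Sc P : Subgroup (N ≃ₐ[K] N)).index with he
    have he1 : 1 ≤ e := Nat.pos_of_ne_zero Subgroup.index_ne_zero_of_finite
    calc _ ≤ e * _ := hd1
      _ ≤ e * (4 * (B * e) ^ 6) := Nat.mul_le_mul_left _ h1
      _ = 4 * B ^ 6 * e ^ 7 := by ring
      _ ≤ (4 * B ^ 6 + 7) * e ^ (4 * B ^ 6 + 7) :=
          Nat.mul_le_mul (by omega) (Nat.pow_le_pow_right he1 (by omega))
  · obtain ⟨-, -, hd1, -, -⟩ := hCls K a b N (k • P + T) _ _ rfl rfl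
    obtain ⟨-, -, -, hd2, -⟩ := hCls K a b N P _ _ rfl rfl
    rw [Op.card_cls, sc_mul_add hk hn hT] at hd1
    rw [Op.card_cls] at hd2
    set e := (CE.Sc P : Subgroup (N ≃ₐ[K] N)).index with he
    calc k ^ 2 * dg K (k • P + T).xRep ≤ k ^ 2 * (e * _) := Nat.mul_le_mul_left _ hd1
      _ = e * (k ^ 2 * _) := by ring
      _ ≤ e * _ := Nat.mul_le_mul_left _ h2
      _ ≤ 2 * dg K P.xRep := hd2
      _ ≤ (4 * B ^ 6 + 7) * dg K P.xRep := Nat.mul_le_mul_right _ (by omega)

/-- The same for curves with open image of the Galois group, all points of infinite order. -/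
def OpeneStatement : Prop :=
  ∀ (K : Type) [Field K] [NumberField K] (a b : K), 4 * a ^ 3 + 27 * b ^ 2 ≠ 0 → OpenIm a b →
    ∀ (p s lam : ℕ) (v : FinitePlace K) (F : Fin 2 → MvPolynomial (Fin 2) K), HypR p s v F →
    2 ≤ lam → lam ^ 2 = p ^ s → IsLat a b lam F →
    ∀ A : ℕ, 1 ≤ A → ∃ c : ℝ, 0 < c ∧
    ∀ (N : Type) [Field N] [NumberField N] [Algebra K N] [IsGalois K N] (P : Ept a b N),
      (∀ n : ℕ, 1 ≤ n → n • P ≠ 0) →
      ∃ h : ℝ, HasHt (p ^ s) F P.xRep h ∧ (c / (dg K P.xRep : ℝ) ≤ h ∨ ExceptionalE K P A)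

theorem opene (hCls : ClseStatement) (hLat : LatteStatement) : OpeneStatement := by
  intro K _ _ a b hD hOp p s lam v F hR hlam hq hL A hA
  obtain ⟨M, hM⟩ := small_open hCls hOp
  obtain ⟨c, hc, H⟩ := hLat K a b hD p s lam v F hR hlam hq hL A M hA
  exact ⟨c, hc, fun N _ _ _ _ P hP => H N P hP (hM N P)⟩

end Pool.DynLehmer.LE
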