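import Pool.Agent.Lib.MP_2194ec_nt.LE.AllU
import Pool.Agent.Lib.MP_2194ec_nt.LE.Latpu
import Pool.Agent.Lib.MP_2194ec_nt.LE.Latte
import Pool.Agent.Lib.MP_2194ec_nt.LW.AllPash

set_option autoImplicit false

/-!
# The primitive form of the bound for points of elliptic curves: multiples and translates, all rows
-/

namespace Pool.DynLehmer.LE
open Pool.DynLehmer Pool.DynLehmer.LW

theorem lattest : LatteStatement := latte clse (latpu (fineu gmst) freelust repe clse pash_all)

theorem openest : OpeneStatement := opene clse lattest

end Pool.DynLehmer.LE
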