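import Pool.Agent.Lib.MP_2194ec_nt.LE.Defs2
import Pool.Agent.Lib.MP_2194ec_nt.LW.GrpcB

set_option autoImplicit false

/-!
# From classes modulo torsion to points (row CLSE)
-/

namespace Pool.DynLehmer.LE
open Pool.DynLehmer Pool.DynLehmer.SB Pool.DynLehmer.SP
  Pool.DynLehmer.GS Pool.DynLehmer.LP Pool.DynLehmer.LW
open scoped Classical

namespace CE

/-- The number of values of a function which is constant exactly on the cosets of `S`. -/
theorem card_range {G α : Type} [Group G] (f : G → α) (S : Subgroup G)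
    (h : ∀ a b, f a = f b ↔ a⁻¹ * b ∈ S) : Nat.card (Set.range f) = S.index := by
  symm
  refine Nat.card_congr (Equiv.ofBijective (fun q : G ⧸ S => Quotient.liftOn' q
    (fun a => (⟨f a, a, rfl⟩ : Set.range f)) ?_) ⟨?_, ?_⟩)
  · intro a b hab
    rw [QuotientGroup.leftRel_apply] at hab
    exact Subtype.ext ((h a b).2 hab)
  · intro q q'
    induction q using Quotient.inductionOn' with
    | h a =>
      induction q' using Quotient.inductionOn' with
      | h b =>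
        intro hab
        have h1 : f a = f b := congrArg Subtype.val hab
        exact Quotient.sound' (QuotientGroup.leftRel_apply.2 ((h a b).1 h1))
  · rintro ⟨_, a, rfl⟩
    exact ⟨Quotient.mk'' a, rfl⟩

section

variable {K : Type} [Field K] {a b : K} {N : Type} [Field N] [Algebra K N]

theorem pm_one (P : Ept a b N) : pm ((1 : N ≃ₐ[K] N) : N →ₐ[K] N) P = P := by
  cases P <;> rfl

theorem pm_mul (σ τ : N ≃ₐ[K] N) (P : Ept a b N) :
    pm ((σ * τ : N ≃ₐ[K] N) : N →ₐ[K] N) P =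
      pm (σ : N →ₐ[K] N) (pm (τ : N →ₐ[K] N) P) := by
  cases P <;> rfl

theorem pm_eq_iff (σ τ : N ≃ₐ[K] N) (P Q : Ept a b N) :
    pm (σ : N →ₐ[K] N) P = pm (τ : N →ₐ[K] N) Q ↔
      P = pm ((σ⁻¹ * τ : N ≃ₐ[K] N) : N →ₐ[K] N) Q := by
  constructor
  · intro h
    rw [pm_mul, ← h, ← pm_mul, inv_mul_cancel, pm_one]
  · intro h
    rw [h, ← pm_mul, mul_inv_cancel_left]

theorem tq_refl (P : Ept a b N) : Tq P P := ⟨1, le_rfl, rfl⟩

theorem tq_symm {P Q : Ept a b N} : Tq P Q → Tq Q P := fun ⟨r, hr, h⟩ => ⟨r, hr, h.symm⟩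

theorem tq_trans {P Q R : Ept a b N} : Tq P Q → Tq Q R → Tq P R := by
  rintro ⟨r, hr, h⟩ ⟨s, hs, h'⟩
  refine ⟨s * r, Nat.mul_pos hs hr, ?_⟩
  rw [mul_comm, mul_nsmul, h, ← mul_nsmul, mul_comm, mul_nsmul, h', ← mul_nsmul]

theorem tq_pm (σ : N →ₐ[K] N) {P Q : Ept a b N} : Tq P Q → Tq (pm σ P) (pm σ Q) := by
  rintro ⟨r, hr, h⟩
  exact ⟨r, hr, by rw [← map_nsmul, h, map_nsmul]⟩

theorem tq_pm_iff (σ τ : N ≃ₐ[K] N) (P Q : Ept a b N) :
    Tq (pm (σ : N →ₐ[K] N) P) (pm (τ : N →ₐ[K] N) Q) ↔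
      Tq P (pm ((σ⁻¹ * τ : N ≃ₐ[K] N) : N →ₐ[K] N) Q) := by
  constructor
  · intro h
    have h1 := tq_pm ((σ⁻¹ : N ≃ₐ[K] N) : N →ₐ[K] N) h
    rwa [← pm_mul, ← pm_mul, inv_mul_cancel, pm_one] at h1
  · intro h
    have h1 := tq_pm (σ : N →ₐ[K] N) h
    rwa [← pm_mul, mul_inv_cancel_left] at h1

theorem cl_eq (P Q : Ept a b N) : {R | Tq P R} = {R | Tq Q R} ↔ Tq P Q := by
  constructor
  · intro h
    have h1 : Q ∈ {R | Tq Q R} := tq_refl Q
    rw [← h] at h1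
    exact h1
  · intro h
    ext R
    exact ⟨fun h1 => tq_trans (tq_symm h) h1, fun h1 => tq_trans h h1⟩

/-- The stabilizer of a point. -/
def St (P : Ept a b N) : Subgroup (N ≃ₐ[K] N) where
  carrier := {σ | pm (σ : N →ₐ[K] N) P = P}
  one_mem' := pm_one P
  mul_mem' := by
    intro σ τ hσ hτ
    change pm ((σ * τ : N ≃ₐ[K] N) : N →ₐ[K] N) P = P
    rw [pm_mul, show pm (τ : N →ₐ[K] N) P = P from hτ]
    exact hσ
  inv_mem' := by
    intro σ hσ
    have h1 : pm ((σ⁻¹ : N ≃ₐ[K] N) : N →ₐ[K] N) (pm (σ : N →ₐ[K] N) P) = P := by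
      rw [← pm_mul, inv_mul_cancel, pm_one]
    rwa [show pm (σ : N →ₐ[K] N) P = P from hσ] at h1

theorem mem_St {P : Ept a b N} {σ : N ≃ₐ[K] N} : σ ∈ St P ↔ pm (σ : N →ₐ[K] N) P = P := Iff.rfl

/-- The stabilizer of the class of a point modulo torsion. -/
def Sc (P : Ept a b N) : Subgroup (N ≃ₐ[K] N) where
  carrier := {σ | Tq P (pm (σ : N →ₐ[K] N) P)}
  one_mem' := by
    change Tq P (pm ((1 : N ≃ₐ[K] N) : N →ₐ[K] N) P)
    rw [pm_one]
    exact tq_refl P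
  mul_mem' := by
    intro σ τ hσ hτ
    change Tq P (pm ((σ * τ : N ≃ₐ[K] N) : N →ₐ[K] N) P)
    rw [pm_mul]
    exact tq_trans hσ (tq_pm _ hτ)
  inv_mem' := by
    intro σ hσ
    have h1 := tq_pm ((σ⁻¹ : N ≃ₐ[K] N) : N →ₐ[K] N) (show Tq P (pm (σ : N →ₐ[K] N) P) from hσ)
    rw [← pm_mul, inv_mul_cancel, pm_one] at h1
    exact tq_symm h1

theorem mem_Sc {P : Ept a b N} {σ : N ≃ₐ[K] N} :
    σ ∈ Sc P ↔ Tq P (pm (σ : N →ₐ[K] N) P) := Iff.rfl

theorem St_le_Sc {P : Ept a b N} {L : ℕ} (hL : 1 ≤ L) :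
    (St (L • P) : Subgroup (N ≃ₐ[K] N)) ≤ Sc P := by
  intro σ hσ
  rw [mem_St, map_nsmul] at hσ
  exact ⟨L, hL, hσ.symm⟩

theorem St_mul {P : Ept a b N} (L : ℕ) : (St P : Subgroup (N ≃ₐ[K] N)) ≤ St (L • P) := by
  intro σ hσ
  rw [mem_St] at hσ ⊢
  rw [map_nsmul, hσ]

theorem St_pm (σ : N ≃ₐ[K] N) (P : Ept a b N) :
    (St (pm (σ : N →ₐ[K] N) P) : Subgroup (N ≃ₐ[K] N)) =
      (St P).map (MulAut.conj σ).toMonoidHom := by
  ext τ
  rw [Subgroup.mem_map]
  constructor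
  · intro hτ
    refine ⟨σ⁻¹ * τ * σ, ?_, by simp [mul_assoc]⟩
    rw [mem_St, ← pm_mul] at hτ
    rw [mem_St, mul_assoc, pm_mul, hτ, ← pm_mul, inv_mul_cancel, pm_one]
  · rintro ⟨τ', hτ', rfl⟩
    rw [mem_St] at hτ' ⊢
    rw [← pm_mul]
    have h1 : (MulAut.conj σ).toMonoidHom τ' * σ = σ * τ' := by simp [mul_assoc]
    rw [h1, pm_mul, hτ']

theorem Sc_pm (σ : N ≃ₐ[K] N) (P : Ept a b N) :
    (Sc (pm (σ : N →ₐ[K] N) P) : Subgroup (N ≃ₐ[K] N)) =
      (Sc P).map (MulAut.conj σ).toMonoidHom := by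
  ext τ
  rw [Subgroup.mem_map]
  constructor
  · intro hτ
    refine ⟨σ⁻¹ * τ * σ, ?_, by simp [mul_assoc]⟩
    rw [mem_Sc, ← pm_mul, tq_pm_iff] at hτ
    rw [mem_Sc, mul_assoc]
    exact hτ
  · rintro ⟨τ', hτ', rfl⟩
    rw [mem_Sc] at hτ' ⊢
    rw [← pm_mul, tq_pm_iff]
    have h1 : σ⁻¹ * ((MulAut.conj σ).toMonoidHom τ' * σ) = τ' := by simp [mul_assoc]
    rw [h1]
    exact hτ'

theorem orbp_eq {k : ℕ} (y : Fin k → Ept a b N) :
    orbp K y = (⨅ i, (St (y i) : Subgroup (N ≃ₐ[K] N))).index := by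
  refine card_range _ _ ?_
  intro σ τ
  rw [funext_iff, Subgroup.mem_iInf]
  refine forall_congr' fun i => ?_
  rw [pm_eq_iff, mem_St]
  exact eq_comm

theorem cls_eq {k : ℕ} (y : Fin k → Ept a b N) :
    Nat.card (Set.range fun (σ : N ≃ₐ[K] N) (i : Fin k) =>
      {Q : Ept a b N | Tq (pm (σ : N →ₐ[K] N) (y i)) Q}) =
      (⨅ i, (Sc (y i) : Subgroup (N ≃ₐ[K] N))).index := by
  refine card_range _ _ ?_
  intro σ τ
  rw [funext_iff, Subgroup.mem_iInf]
  refine forall_congr' fun i => ?_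
  rw [cl_eq, tq_pm_iff, mem_Sc]

theorem xRep_pm (σ : N ≃ₐ[K] N) (P : Ept a b N) (i : Fin 2) :
    (pm (σ : N →ₐ[K] N) P).xRep i = σ (P.xRep i) := by
  rcases P with _ | ⟨x, y, h⟩
  · fin_cases i
    · exact (map_one σ).symm
    · exact (map_zero σ).symm
  · fin_cases i
    · rfl
    · exact (map_one σ).symm

theorem pm_of_fix (σ : N ≃ₐ[K] N) (P : Ept a b N)
    (h : σ (P.xRep 0 / P.xRep 1) = P.xRep 0 / P.xRep 1) :
    pm (σ : N →ₐ[K] N) P = P ∨ pm (σ : N →ₐ[K] N) P = -P := by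
  rcases P with _ | ⟨x, y, h'⟩
  · exact Or.inl rfl
  · refine WeierstrassCurve.Affine.Point.eq_or_eq_neg_of_xRep_eq_xRep ?_
    have h1 : σ x = x := by
      have h2 : (WeierstrassCurve.Affine.Point.some x y h' : Ept a b N).xRep 0 /
          (WeierstrassCurve.Affine.Point.some x y h' : Ept a b N).xRep 1 = x := div_one x
      rwa [h2] at h
    funext i
    rw [xRep_pm]
    fin_cases i
    · exact h1
    · exact map_one σ

end

end CE

open CE in
/-- Row CLSE. -/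
theorem clse : ClseStatement := by
  intro K _ a b N _ _ _ _ P e m he hm
  have hfin : Finite (N ≃ₐ[K] N) := inferInstance
  have hne : ∀ X Y : Subgroup (N ≃ₐ[K] N), X.relIndex Y ≠ 0 := fun X Y =>
    Subgroup.FiniteIndex.index_ne_zero
  have he' : e = (Sc P : Subgroup (N ≃ₐ[K] N)).index := by
    rw [he]
    refine card_range _ _ ?_
    intro σ τ
    rw [cl_eq, tq_pm_iff, mem_Sc]
  have hm' : m = (St P : Subgroup (N ≃ₐ[K] N)).relIndex (Sc P) := by
    rw [hm, Subgroup.relIndex, ← card_range (fun τ : (Sc P : Subgroup (N ≃ₐ[K] N)) =>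
      pm ((τ : N ≃ₐ[K] N) : N →ₐ[K] N) P) ((St P : Subgroup (N ≃ₐ[K] N)).subgroupOf (Sc P))]
    · refine Nat.card_congr (Equiv.setCongr ?_)
      ext Q
      constructor
      · rintro ⟨⟨σ, rfl⟩, h⟩
        exact ⟨⟨σ, h⟩, rfl⟩
      · rintro ⟨τ, rfl⟩
        exact ⟨⟨τ, rfl⟩, τ.2⟩
    · intro σ τ
      rw [pm_eq_iff, Subgroup.mem_subgroupOf, mem_St]
      exact eq_comm
  have hSS : (St P : Subgroup (N ≃ₐ[K] N)) ≤ Sc P := by
    have h1 := St_le_Sc (K := K) (P := P) (L := 1) le_rfl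
    rwa [one_nsmul] at h1
  have hem : e * m = (St P : Subgroup (N ≃ₐ[K] N)).index := by
    rw [he', hm', mul_comm, Subgroup.relIndex_mul_index hSS]
  set x : N := P.xRep 0 / P.xRep 1 with hx
  have hdg : dg K P.xRep = (IntermediateField.adjoin K {x}).fixingSubgroup.index := by
    rw [dg, IntermediateField.finrank_eq_fixingSubgroup_index]
  have hfix : ∀ σ : N ≃ₐ[K] N, σ ∈ (IntermediateField.adjoin K {x}).fixingSubgroup ↔
      σ x = x := by
    intro σ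
    rw [IntermediateField.mem_fixingSubgroup_iff]
    constructor
    · intro h
      exact h x (IntermediateField.mem_adjoin_simple_self K x)
    · intro h z hz
      have h1 := (IntermediateField.forall_mem_adjoin_smul_eq_self_iff (F := K) (S := {x}) σ).2 (by
        rintro _ rfl
        exact h)
      exact h1 z hz
  have hStx : (St P : Subgroup (N ≃ₐ[K] N)) ≤
      (IntermediateField.adjoin K {x}).fixingSubgroup := by
    intro σ hσ
    rw [hfix, hx, map_div₀, ← xRep_pm, ← xRep_pm, mem_St.1 hσ]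
  have hrel : (St P : Subgroup (N ≃ₐ[K] N)).relIndex
      (IntermediateField.adjoin K {x}).fixingSubgroup ≤ 2 := by
    have h1 : Nat.card Bool = 2 := by simp
    rw [← h1]
    refine Cf.ri_le _ _ (fun σ => decide (pm ((σ : N ≃ₐ[K] N) : N →ₐ[K] N) P = P)) ?_
    intro σ τ hστ
    have h2 := decide_eq_decide.1 hστ
    have h3 : pm ((σ : N ≃ₐ[K] N) : N →ₐ[K] N) P = pm ((τ : N ≃ₐ[K] N) : N →ₐ[K] N) P := by
      rcases pm_of_fix (σ : N ≃ₐ[K] N) P ((hfix _).1 σ.2) with h4 | h4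
      · rw [h4, h2.1 h4]
      · rcases pm_of_fix (τ : N ≃ₐ[K] N) P ((hfix _).1 τ.2) with h5 | h5
        · rw [h5, h2.2 h5]
        · rw [h4, h5]
    rw [pm_eq_iff] at h3
    exact h3.symm
  have hidx := Subgroup.relIndex_mul_index hStx
  refine ⟨?_, ?_, ?_, ?_, ?_⟩
  · rw [he']
    exact Nat.one_le_iff_ne_zero.2 Subgroup.FiniteIndex.index_ne_zero
  · rw [hm']
    exact Nat.one_le_iff_ne_zero.2 (hne _ _)
  · rw [hem, hdg, ← hidx]
    exact Nat.le_mul_of_pos_left _ (Nat.pos_of_ne_zero (hne _ _))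
  · rw [hem, hdg, ← hidx]
    exact Nat.mul_le_mul_right _ hrel
  · intro L hL
    refine ⟨(St (L • P) : Subgroup (N ≃ₐ[K] N)).relIndex (Sc P),
      Nat.one_le_iff_ne_zero.2 (hne _ _), ?_, ?_, ?_⟩
    · rw [hm']
      exact Subgroup.relIndex_le_of_le_left (St_mul L) (hne _ _)
    · rw [orbp_eq, ciInf_const, he', mul_comm, Subgroup.relIndex_mul_index (St_le_Sc hL)]
    · intro k y hy
      rw [orbp_eq, cls_eq]
      have h1 : (⨅ i, (St (L • y i) : Subgroup (N ≃ₐ[K] N))) ≤ ⨅ i, Sc (y i) :=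
        iInf_mono fun i => St_le_Sc hL
      rw [← Subgroup.relIndex_mul_index h1, mul_comm]
      refine Nat.mul_le_mul_left _ ((Subgroup.relIndex_iInf_le _).trans ?_)
      calc ∏ i, (St (L • y i) : Subgroup (N ≃ₐ[K] N)).relIndex (⨅ j, Sc (y j)) ≤
          ∏ _i : Fin k, (St (L • P) : Subgroup (N ≃ₐ[K] N)).relIndex (Sc P) := by
            refine Finset.prod_le_prod' fun i _ => ?_
            refine (Subgroup.relIndex_le_of_le_right (iInf_le _ i) (hne _ _)).trans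
              (le_of_eq ?_)
            obtain ⟨σ, hσ⟩ := hy i
            rw [← hσ, ← map_nsmul, St_pm, Sc_pm]
            exact Subgroup.relIndex_map_map_of_injective _ _ (MulAut.conj σ).injective
        _ = _ := by rw [Finset.prod_const, Finset.card_univ, Fintype.card_fin]

end Pool.DynLehmer.LE
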