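import Pool.Agent.Lib.MP_2194ec_nt.LE.Defs2

set_option autoImplicit false

/-!
# The Lehmer bound for the Lattes maps of all elliptic curves: statements of the rows

No hypothesis on the endomorphisms of the curve, no endomorphism is constructed.
-/

namespace Pool.DynLehmer.LE
open MvPolynomial NumberField Filter Topology Pool.DynLehmer Pool.DynLehmer.SB Pool.DynLehmer.SP
  Pool.DynLehmer.GS Pool.DynLehmer.LP Pool.DynLehmer.LW
open scoped Classical

/-- Row MULT: the multipliers of the endomorphisms are in a rational space of dimension two. -/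
def MultStatement : Prop :=
  ∀ (K : Type) [Field K] [CharZero K] (a b : K), 4 * a ^ 3 + 27 * b ^ 2 ≠ 0 →
    ∀ (C : Type) [Field C] [Algebra K C] [IsAlgClosed C], ∃ θ : C,
    ∀ (A B : Polynomial C) (g : C), B ≠ 0 →
    Polynomial.derivative A * B - A * Polynomial.derivative B ≠ 0 →
    (Polynomial.X ^ 3 + Polynomial.C (algebraMap K C a) * Polynomial.X +
        Polynomial.C (algebraMap K C b)) *
      (Polynomial.derivative A * B - A * Polynomial.derivative B) ^ 2 =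
      Polynomial.C (g ^ 2) * B * (A ^ 3 + Polynomial.C (algebraMap K C a) * A * B ^ 2 +
        Polynomial.C (algebraMap K C b) * B ^ 3) →
    ∃ r r' : ℚ, g = r + r' * θ

/-- Row K2U (from OMADD, MULT). -/
def K2uStatement : Prop :=
  ∀ (K : Type) [Field K] [CharZero K] (a b : K), 4 * a ^ 3 + 27 * b ^ 2 ≠ 0 →
    ∀ (C : Type) [Field C] [Algebra K C] [IsAlgClosed C], ∃ θ : C,
    ∀ (L : Type) [Field L] [Algebra C L] [Algebra K L]
      [IsScalarTower K C L] [IsAlgClosed L] (D : Derivation C L L)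
      (P₁ P : Ept a b L) (g : C), Transcendental C (xc P₁) →
      Algebra.IsAlgebraic (IntermediateField.adjoin C {xc P₁}) L → om D P₁ = 1 →
      om D P = algebraMap C L g → ∃ r r' : ℚ, g = r + r' * θ

/-- Row TRANSU (from OMADD, K2U, EXT): among eigenpoints of an endomorphism of the field which are
independent over `ℤ`, half of the first coordinates are algebraically independent. -/
def TransuStatement : Prop :=
  ∀ (K : Type) [Field K] [CharZero K] (a b : K), 4 * a ^ 3 + 27 * b ^ 2 ≠ 0 →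
    ∀ (C L : Type) [Field C] [Algebra K C] [Field L] [Algebra C L] [Algebra K L]
      [IsScalarTower K C L] [IsAlgClosed L] (φ : L →ₐ[C] L) (lam : ℕ), 2 ≤ lam →
      ∀ (m : ℕ) (P : Fin m → Ept a b L),
      (∀ i, pm (φ.restrictScalars K) (P i) = lam • P i ∨
        pm (φ.restrictScalars K) (P i) = -(lam • P i)) →
      (∀ γ : Fin m → ℤ, ∑ i, γ i • P i = 0 → γ = 0) →
      ∃ (k : ℕ) (ι : Fin k → Fin m), Function.Injective ι ∧ m ≤ 2 * k ∧
        AlgebraicIndependent C (fun i => xc (P (ι i)))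

/-- Row PC (pure algebra): the generic point of a periodic component of the closure of an orbit. -/
def PcStatement : Prop :=
  ∀ (K N : Type) [Field K] [Field N] [Algebra K N] (k : ℕ) (A B : Fin k → MvPolynomial (Fin k) K)
    (x : ℕ → Fin k → N), (∀ l i, aeval (x l) (B i) ≠ 0) →
    (∀ l i, x (l + 1) i = aeval (x l) (A i) / aeval (x l) (B i)) →
    ∃ (n M : ℕ) (E : Type) (_ : Field E) (_ : Algebra K E) (t : Fin k → E), 1 ≤ M ∧
      (∀ j i, aeval ((fun (s : Fin k → E) i => aeval s (A i) / aeval s (B i))^[j] t) (B i) ≠ 0) ∧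
      (∀ Q : MvPolynomial (Fin k) K, aeval t Q = 0 ↔
        aeval ((fun (s : Fin k → E) i => aeval s (A i) / aeval s (B i))^[M] t) Q = 0) ∧
      (∀ Q : MvPolynomial (Fin k) K, aeval t Q = 0 → aeval (x n) Q = 0) ∧
      (∀ Q : MvPolynomial (Fin k) K, (∀ l, aeval (x l) Q = 0) → aeval t Q = 0)

/-- Row FREELU (from TRANSU, SPEC): half of the members of a `ℤ`-independent family are free for
the Lattes map, together with all their multiples. -/
def FreeluStatement : Prop :=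
  ∀ (K : Type) [Field K] [CharZero K] (a b : K), 4 * a ^ 3 + 27 * b ^ 2 ≠ 0 →
    ∀ (q lam : ℕ) (F : Fin 2 → MvPolynomial (Fin 2) K), 2 ≤ lam → Mor q F → IsLat a b lam F →
    ∀ (N : Type) [Field N] [Algebra K N] (m : ℕ) (y : Fin m → Ept a b N),
      (∀ γ : Fin m → ℤ, ∑ i, γ i • y i = 0 → γ = 0) →
      ∃ (k : ℕ) (ι : Fin k → Fin m), Function.Injective ι ∧ m ≤ 2 * k ∧
        ∀ j : ℕ, FreeT q F (fun i => (lam ^ j • y (ι i)).xRep)

/-- Row FINEU (from GENM): as FINE, with a free family. -/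
def FineuStatement : Prop :=
  ∀ (K : Type) [Field K] [NumberField K] (a b : K), 4 * a ^ 3 + 27 * b ^ 2 ≠ 0 →
    ∀ (p s lam : ℕ) (v : FinitePlace K) (F : Fin 2 → MvPolynomial (Fin 2) K), HypR p s v F →
    2 ≤ lam → lam ^ 2 = p ^ s → IsLat a b lam F →
    ∀ k₀ A' C : ℕ, 1 ≤ A' → ∃ c : ℝ, 0 < c ∧
    ∀ (N : Type) [Field N] [NumberField N] [Algebra K N] [IsGalois K N] (P : Ept a b N),
      (∀ n : ℕ, 1 ≤ n → n • P ≠ 0) →
      (C < dg K P.xRep → ∀ n : ℕ, ∃ (k : ℕ) (y : Fin k → Ept a b N), 2 ≤ k ∧ k ≤ k₀ ∧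
        (∀ i, ∃ σ : N ≃ₐ[K] N, pm (σ : N →ₐ[K] N) P = y i) ∧
        (∀ j : ℕ, FreeT (p ^ s) F (fun i => (lam ^ j • y i).xRep)) ∧
        (orbp K (fun i => lam ^ n • y i)) ^ A' * dg K P.xRep ≤
          C * (orbp K (fun _ : Fin 1 => lam ^ n • P)) ^ (k * A')) →
      ∃ h : ℝ, HasHt (p ^ s) F P.xRep h ∧ c / (dg K P.xRep : ℝ) ≤ h

/-- Row GRPB (from GRAM, MODT), as in `LE/DefsJ.lean`: as GRPA, with the exponent `4`. -/
def GrpuStatement : Prop :=
  ∀ A : ℕ, ∃ s R C : ℕ, 2 ≤ s ∧ ∀ (G Ω V : Type) [Group G] [Finite G]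
    [Fintype Ω] [MulAction G Ω] [AddCommGroup V] [Module ℚ V] (ρ : Representation ℚ G V)
    (f : Ω → V), (∀ (g : G) (x : Ω), f (g • x) = ρ g (f x)) → Function.Injective f →
    MulAction.IsPretransitive G Ω → ∀ (x : Ω) (H : Subgroup G),
    (∀ g ∈ MulAction.stabilizer G x, ∀ h ∈ H, g * h * g⁻¹ ∈ H) →
    R < Nat.card (MulAction.orbit H x) →
    (∃ (l : ℕ) (L : ℕ → Subgroup G), (∀ g ∈ L 0, ∀ h ∈ H, g • h • x = h • x) ∧ L l = H ∧
      ∀ i < l, L i ≤ L (i + 1) ∧ (∀ x ∈ L (i + 1), ∀ y ∈ L i, x * y * x⁻¹ ∈ L i) ∧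
        ((∀ x ∈ L (i + 1), ∀ y ∈ L (i + 1), x * y * x⁻¹ * y⁻¹ ∈ L i) ∨
          (L i).relIndex (L (i + 1)) ≤ (Fintype.card Ω) ^ A)) →
    ∃ y : Fin (2 ^ s) → Ω, (∃ i, y i = x) ∧ LinearIndependent ℚ (fun i => f (y i)) ∧
      (Nat.card (MulAction.orbit G y)) ^ 4 ≤ C * (Fintype.card Ω) ^ (2 ^ s)

/-- **The Lehmer bound for elliptic curves**, row LATU (from FINEU, FREELU, REPE, CLSE, GRPB): all
elliptic curves, composition factors of the group of permutations of the classes of conjugates of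
`P` modulo torsion which are abelian or of order at most `e ^ A`. -/
def LatuStatement : Prop :=
  ∀ (K : Type) [Field K] [NumberField K] (a b : K), 4 * a ^ 3 + 27 * b ^ 2 ≠ 0 →
    ∀ (p s lam : ℕ) (v : FinitePlace K) (F : Fin 2 → MvPolynomial (Fin 2) K), HypR p s v F →
    2 ≤ lam → lam ^ 2 = p ^ s → IsLat a b lam F →
    ∀ A M : ℕ, ∃ c : ℝ, 0 < c ∧
    ∀ (N : Type) [Field N] [NumberField N] [Algebra K N] [IsGalois K N] (P : Ept a b N),
      (∀ n : ℕ, 1 ≤ n → n • P ≠ 0) →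
      (∃ (e : ℕ) (τ : Fin e → (N ≃ₐ[K] N)),
        (∀ i j, i ≠ j → ¬ Tq (pm (τ i : N →ₐ[K] N) P) (pm (τ j : N →ₐ[K] N) P)) ∧
        Nat.card {Q : Ept a b N // (∃ σ : N ≃ₐ[K] N, pm (σ : N →ₐ[K] N) P = Q) ∧ Tq P Q} ≤
          M * e ^ M ∧
        ∃ (l : ℕ) (L : ℕ → Subgroup (N ≃ₐ[K] N)),
          (∀ g ∈ L 0, ∀ h : N ≃ₐ[K] N, Tq (pm ((g * h : N ≃ₐ[K] N) : N →ₐ[K] N) P)
            (pm (h : N →ₐ[K] N) P)) ∧ L l = ⊤ ∧
          ∀ i < l, L i ≤ L (i + 1) ∧ (∀ x ∈ L (i + 1), ∀ y ∈ L i, x * y * x⁻¹ ∈ L i) ∧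
            ((∀ x ∈ L (i + 1), ∀ y ∈ L (i + 1), x * y * x⁻¹ * y⁻¹ ∈ L i) ∨
              (L i).relIndex (L (i + 1)) ≤ e ^ A)) →
      ∃ h : ℝ, HasHt (p ^ s) F P.xRep h ∧ c / (dg K P.xRep : ℝ) ≤ h

end Pool.DynLehmer.LE
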