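import Mathlib

set_option autoImplicit false

namespace Pool.DynLehmer.LE.FinE

/-- the numbers for the row FINE -/
theorem nume {k k₀ A C D d M : ℕ} {Q δ : ℝ} (hk : 2 ≤ k) (hk0 : k ≤ k₀) (hA : 1 ≤ A) (hC : 1 ≤ C)
    (hδ : δ = 1 / (8 * k₀ ^ 2 * A * (4 * C : ℝ) ^ (4 * k₀ * A)))
    (hd : 1 / δ < (d : ℝ)) (hdD : d ≤ D) (hthin : Q * (d : ℝ) ^ (1 - δ) ≤ D) (hM1 : 1 ≤ M)
    (hM : M ^ A * D ≤ C * (2 * d) ^ (k * A)) (hQ : 0 < Q) :
    Q * (M : ℝ) ^ (1 / (k : ℝ) + δ) ≤ D := by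
  have hk' : (2 : ℝ) ≤ k := by exact_mod_cast hk
  have hkk : (k : ℝ) ≤ k₀ := by exact_mod_cast hk0
  have hk0' : (2 : ℝ) ≤ k₀ := hk'.trans hkk
  have hA' : (1 : ℝ) ≤ A := by exact_mod_cast hA
  have hC' : (1 : ℝ) ≤ C := by exact_mod_cast hC
  have hCp : (1 : ℝ) ≤ (4 * C : ℝ) ^ (4 * k₀ * A) := one_le_pow₀ (by linarith)
  have hden : (0 : ℝ) < 8 * k₀ ^ 2 * A * (4 * C : ℝ) ^ (4 * k₀ * A) := by positivity
  have hδ0 : 0 < δ := by rw [hδ]; positivity
  have h1δ : 1 / δ = 8 * k₀ ^ 2 * A * (4 * C : ℝ) ^ (4 * k₀ * A) := by rw [hδ, one_div_one_div]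
  have hkA0 : (0 : ℝ) < k * A := by positivity
  have hk0A0 : (0 : ℝ) < k₀ * A := by positivity
  have hδk : δ ≤ 1 / (8 * k₀ ^ 2 * A) := by
    rw [hδ]
    apply one_div_le_one_div_of_le (by positivity)
    exact le_mul_of_one_le_right (by positivity) hCp
  have hδk2 : δ * (2 * k₀) ≤ 1 / (4 * (k₀ * A)) := by
    refine (mul_le_mul_of_nonneg_right hδk (by positivity)).trans (le_of_eq ?_)
    field_simp
    ring
  have hδk3 : δ + δ * k ≤ 1 / (4 * (k₀ * A)) := by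
    refine le_trans ?_ hδk2
    have h1 : δ + δ * k = δ * (1 + k) := by ring
    rw [h1]
    exact mul_le_mul_of_nonneg_left (by linarith) hδ0.le
  have hkA1 : (1 : ℝ) / (4 * (k₀ * A)) ≤ 1 / (4 * (k * A)) := by
    apply one_div_le_one_div_of_le (by positivity)
    have : (k : ℝ) * A ≤ k₀ * A := mul_le_mul_of_nonneg_right hkk (by linarith)
    linarith
  have hdC : (4 * C : ℝ) ^ (4 * k₀ * A) ≤ d := by
    rw [h1δ] at hd
    have h1 : (1 : ℝ) ≤ 8 * k₀ ^ 2 * A := by nlinarith [mul_pos hk0A0 hk0A0, sq_nonneg (k₀ : ℝ)]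
    have h2 : (4 * C : ℝ) ^ (4 * k₀ * A) ≤ 8 * k₀ ^ 2 * A * (4 * C : ℝ) ^ (4 * k₀ * A) :=
      le_mul_of_one_le_left (by positivity) h1
    linarith
  have hd1 : (1 : ℝ) ≤ d := hCp.trans hdC
  have hd0 : (0 : ℝ) < d := by linarith
  have hDd : (d : ℝ) ≤ D := by exact_mod_cast hdD
  have hD1 : (1 : ℝ) ≤ D := hd1.trans hDd
  have hD0 : (0 : ℝ) < D := by linarith
  have h4C : (4 * C : ℝ) ≤ (D : ℝ) ^ (1 / (4 * (k₀ * A)) : ℝ) := by
    have h1 := Real.rpow_le_rpow (by positivity) (hdC.trans hDd) (z := 1 / (4 * (k₀ * A)))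
      (by positivity)
    rwa [← Real.rpow_natCast, ← Real.rpow_mul (by positivity),
      show ((4 * k₀ * A : ℕ) : ℝ) * (1 / (4 * (k₀ * A))) = 1 by
      push_cast
      field_simp, Real.rpow_one] at h1
  have hM0 : (0 : ℝ) < M := by exact_mod_cast hM1
  set e : ℝ := 1 / (k : ℝ) + δ with he
  have hkinv : 1 / (k : ℝ) ≤ 1 / 2 := one_div_le_one_div_of_le (by norm_num) hk'
  have he0 : 0 < e := by rw [he]; positivity
  have hδ1 : δ ≤ 1 / 2 := by
    refine hδk.trans ?_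
    apply one_div_le_one_div_of_le (by norm_num)
    nlinarith [mul_pos hk0A0 hk0A0, sq_nonneg (k₀ : ℝ)]
  have he1 : e / A ≤ 1 := by
    rw [div_le_one (by linarith)]
    linarith
  have heA0 : 0 < e / A := by positivity
  have hkδ : δ * k ≤ 1 := by
    have h1 : (1 : ℝ) / (4 * (k₀ * A)) ≤ 1 := by
      rw [div_le_one (by positivity)]
      nlinarith
    linarith
  -- the bound of `M ^ e`
  have hMe : (M : ℝ) ^ e * (D : ℝ) ^ (e / A) ≤ 4 * C * (d : ℝ) ^ (1 + δ * k) := by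
    have h1 : ((M : ℝ) ^ A) * D ≤ C * (2 * d : ℝ) ^ (k * A) := by exact_mod_cast hM
    have h2 : (M : ℝ) ^ e = ((M : ℝ) ^ A) ^ (e / A) := by
      rw [← Real.rpow_natCast, ← Real.rpow_mul hM0.le]
      congr 1
      field_simp
    have h3 : ((2 * d : ℝ) ^ (k * A)) ^ (e / A) = (2 * d : ℝ) ^ (1 + δ * k) := by
      rw [← Real.rpow_natCast, ← Real.rpow_mul (by positivity)]
      congr 1
      push_cast
      rw [he]
      field_simp
      
    have h4 : (2 : ℝ) ^ (1 + δ * k) ≤ 4 := by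
      calc (2 : ℝ) ^ (1 + δ * k) ≤ (2 : ℝ) ^ (2 : ℝ) :=
            Real.rpow_le_rpow_of_exponent_le (by norm_num) (by linarith)
        _ = 4 := by norm_num
    have h5 : (C : ℝ) ^ (e / A) ≤ C := by
      calc (C : ℝ) ^ (e / A) ≤ (C : ℝ) ^ (1 : ℝ) := Real.rpow_le_rpow_of_exponent_le hC' he1
        _ = C := Real.rpow_one _
    calc (M : ℝ) ^ e * (D : ℝ) ^ (e / A) = ((M : ℝ) ^ A * D) ^ (e / A) := by
          rw [h2, Real.mul_rpow (by positivity) hD0.le]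
      _ ≤ (C * (2 * d : ℝ) ^ (k * A)) ^ (e / A) :=
          Real.rpow_le_rpow (by positivity) h1 heA0.le
      _ = (C : ℝ) ^ (e / A) * ((2 : ℝ) ^ (1 + δ * k) * (d : ℝ) ^ (1 + δ * k)) := by
          rw [Real.mul_rpow (by positivity) (by positivity), h3,
            Real.mul_rpow (by norm_num) hd0.le]
      _ ≤ C * (4 * (d : ℝ) ^ (1 + δ * k)) := by
          refine mul_le_mul h5 ?_ (by positivity) (by positivity)
          exact mul_le_mul_of_nonneg_right h4 (by positivity)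
      _ = _ := by ring
  have hexp : (D : ℝ) ^ (1 / (4 * (k₀ * A)) : ℝ) * (D : ℝ) ^ (δ + δ * k) ≤ (D : ℝ) ^ (e / A) := by
    rw [← Real.rpow_add hD0]
    apply Real.rpow_le_rpow_of_exponent_le hD1
    have h6 : (1 : ℝ) / (4 * (k * A)) = 1 / (k * A) / 4 := by field_simp
    have h7 : 0 < 1 / ((k : ℝ) * A) := by positivity
    have h8 : e / A = 1 / (k * A) + δ / A := by
      rw [he]
      field_simp
    have h9 : 0 ≤ δ / A := by positivity
    rw [h8]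
    linarith
  have hmain : Q * (M : ℝ) ^ e * (D : ℝ) ^ (e / A) ≤ D * (D : ℝ) ^ (e / A) := by
    calc Q * (M : ℝ) ^ e * (D : ℝ) ^ (e / A) = Q * ((M : ℝ) ^ e * (D : ℝ) ^ (e / A)) := by ring
      _ ≤ Q * (4 * C * (d : ℝ) ^ (1 + δ * k)) := mul_le_mul_of_nonneg_left hMe hQ.le
      _ = (Q * (d : ℝ) ^ (1 - δ)) * (4 * C * (d : ℝ) ^ (δ + δ * k)) := by
          have h1 : (d : ℝ) ^ (1 + δ * k) = (d : ℝ) ^ (1 - δ) * (d : ℝ) ^ (δ + δ * k) := by
            rw [← Real.rpow_add hd0]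
            congr 1
            ring
          rw [h1]
          ring
      _ ≤ D * ((D : ℝ) ^ (1 / (4 * (k₀ * A)) : ℝ) * (D : ℝ) ^ (δ + δ * k)) := by
          refine mul_le_mul hthin ?_ (by positivity) hD0.le
          refine mul_le_mul h4C ?_ (by positivity) (by positivity)
          exact Real.rpow_le_rpow hd0.le hDd (by positivity)
      _ ≤ D * (D : ℝ) ^ (e / A) := mul_le_mul_of_nonneg_left hexp hD0.le
  exact le_of_mul_le_mul_right hmain (Real.rpow_pos_of_pos hD0 _)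

end Pool.DynLehmer.LE.FinE
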