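import Pool.Agent.Lib.MP_2194ec_nt.LE.Clse
import Pool.Agent.Lib.MP_2194ec_nt.LE.Nume
import Pool.Agent.Lib.MP_2194ec_nt.LW.Finm

set_option autoImplicit false
set_option linter.unusedSectionVars false

/-!
# The Lehmer bound for the Lattes maps: the bound from independent conjugates
-/

namespace Pool.DynLehmer.LE
open MvPolynomial NumberField Filter Topology Pool.DynLehmer Pool.DynLehmer.SB Pool.DynLehmer.SP
  Pool.DynLehmer.GS Pool.DynLehmer.LP Pool.DynLehmer.LW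
open scoped Classical

namespace FinE

/-! ## Forms -/

theorem aeval_smul_form {K N : Type} [Field K] [Field N] [Algebra K N] {τ : Type} [Fintype τ]
    {n : ℕ} {f : MvPolynomial τ K} (hf : f.IsHomogeneous n) (c : N) (x : τ → N) :
    aeval (c • x) f = c ^ n * aeval x f := by
  rw [aeval_def, aeval_def, eval₂_eq', eval₂_eq', Finset.mul_sum]
  refine Finset.sum_congr rfl fun t ht => ?_
  have h1 : ∑ i, t i = n := by
    have := hf (mem_support_iff.1 ht)
    simpa [Finsupp.weight_apply, Finsupp.sum_fintype] using this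
  have h2 : ∏ i, (c • x) i ^ t i = c ^ n * ∏ i, x i ^ t i := by
    rw [← h1, ← Finset.prod_pow_eq_pow_sum, ← Finset.prod_mul_distrib]
    refine Finset.prod_congr rfl fun i _ => ?_
    rw [Pi.smul_apply, smul_eq_mul, mul_pow]
  rw [h2]
  ring

theorem segk_smul {N : Type} [Field N] {k : ℕ} (c : Fin k → N) (y : Fin k → Fin 2 → N) :
    segk (fun i => c i • y i) = (∏ i, c i) • segk y := by
  funext I
  simp only [segk, Pi.smul_apply, smul_eq_mul]
  rw [Finset.prod_mul_distrib]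

/-- freeness does not depend on the coordinates of the points -/
theorem freeT_smul {K : Type} [Field K] {q : ℕ} {F : Fin 2 → MvPolynomial (Fin 2) K} {N : Type}
    [Field N] [Algebra K N] {k : ℕ} {y z : Fin k → Fin 2 → N} (h : FreeT q F y)
    (hz : ∀ i, ∃ c : N, c ≠ 0 ∧ z i = c • y i) : FreeT q F z := by
  intro Fz h1 h2 I hI hhom m hm h3 h4 h5 h6
  refine h Fz h1 h2 I hI hhom m hm h3 h4 h5 fun f n hf hfI => ?_
  choose c hc hzc using hz
  have h7 := h6 f n hf hfI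
  have h8 : z = fun i => c i • y i := funext hzc
  rw [h8, segk_smul, aeval_smul_form hf] at h7
  rcases mul_eq_zero.1 h7 with h9 | h9
  · exact absurd h9 (pow_ne_zero _ (Finset.prod_ne_zero_iff.2 fun i _ => hc i))
  · exact h9

/-- the coordinates of the iterates are in the field of the point -/
theorem iter_mem {K N : Type} [Field K] [Field N] [Algebra K N]
    (F : Fin 2 → MvPolynomial (Fin 2) K) (L : IntermediateField K N)
    {P : Fin 2 → N} (hP : ∀ i, P i ∈ L) (n : ℕ) : ∀ i, (gAct F N)^[n] P i ∈ L := by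
  have h1 : P = fun i => L.val (⟨P i, hP i⟩ : L) := rfl
  intro i
  rw [h1, gAct_iter_map F L.val n]
  exact Subtype.mem _

/-! ## Points -/

section pt

variable {K : Type} [Field K] {a b : K}

theorem xRep_eq {L : Type} [Field L] [Algebra K L] (P : Ept a b L) (hP : P ≠ 0) :
    P.xRep = ![xc P, 1] := by
  match P, hP with
  | .zero, hP => exact absurd rfl hP
  | .some x y h, _ => rfl

theorem xc_pm {L M : Type} [Field L] [Algebra K L] [Field M] [Algebra K M] (φ : L →ₐ[K] M)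
    (P : Ept a b L) : xc (pm φ P) = φ (xc P) := by
  match P with
  | .zero => exact (map_zero φ).symm
  | .some x y h => rfl

theorem pm_ne {L M : Type} [Field L] [Algebra K L] [Field M] [Algebra K M] (φ : L →ₐ[K] M)
    (P : Ept a b L) (hP : P ≠ 0) : pm φ P ≠ 0 := by
  match P, hP with
  | .zero, hP => exact absurd rfl hP
  | .some x y h, _ => exact WeierstrassCurve.Affine.Point.some_ne_zero _

theorem pm_comp {L : Type} [Field L] [Algebra K L] (σ τ : L ≃ₐ[K] L) (P : Ept a b L) :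
    pm ((σ * τ : L ≃ₐ[K] L) : L →ₐ[K] L) P = pm (σ : L →ₐ[K] L) (pm (τ : L →ₐ[K] L) P) := by
  match P with
  | .zero => rfl
  | .some x y h => rfl

theorem xc_inj {L : Type} [Field L] [Algebra K L] {P Q : Ept a b L} (hP : P ≠ 0) (hQ : Q ≠ 0)
    (h : xc P = xc Q) : P = Q ∨ P = -Q := by
  apply WeierstrassCurve.Affine.Point.eq_or_eq_neg_of_xRep_eq_xRep
  rw [xRep_eq P hP, xRep_eq Q hQ, h]

theorem iter_lat {q lam : ℕ} {F : Fin 2 → MvPolynomial (Fin 2) K} (hF : Mor q F)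
    (hL : IsLat a b lam F) {N : Type} [Field N] [Algebra K N] (P : Ept a b N) (n : ℕ) :
    ∃ c : N, c ≠ 0 ∧ (gAct F N)^[n] P.xRep = c • (lam ^ n • P).xRep := by
  induction n with
  | zero => exact ⟨1, one_ne_zero, by simp⟩
  | succ n ih =>
    obtain ⟨c, hc, h⟩ := ih
    obtain ⟨c', hc', h'⟩ := hL N (lam ^ n • P)
    refine ⟨c ^ q * c', mul_ne_zero (pow_ne_zero _ hc) hc', ?_⟩
    rw [Function.iterate_succ_apply', h, gAct_smul F hF.hom, h', smul_smul, smul_smul, pow_succ',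
      mul_smul]

theorem nsmul_inj {L : Type} [Field L] [Algebra K L] {P : Ept a b L}
    (hP : ∀ n : ℕ, 1 ≤ n → n • P ≠ 0) {u w : ℕ} (h : u • P = w • P) : u = w := by
  rcases lt_trichotomy u w with h1 | h1 | h1
  · refine absurd ?_ (hP (w - u) (by omega))
    rw [sub_nsmul _ h1.le, ← h, add_neg_cancel]
  · exact h1
  · refine absurd ?_ (hP (u - w) (by omega))
    rw [sub_nsmul _ h1.le, h, add_neg_cancel]

theorem wand {q lam : ℕ} {F : Fin 2 → MvPolynomial (Fin 2) K} (hF : Mor q F)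
    (hL : IsLat a b lam F) (hlam : 2 ≤ lam) {N : Type} [Field N] [Algebra K N] (P : Ept a b N)
    (hP : ∀ n : ℕ, 1 ≤ n → n • P ≠ 0) : WandP F P.xRep := by
  rintro ⟨m, n, hmn, c, hc, h⟩
  obtain ⟨c₁, hc₁, h₁⟩ := iter_lat hF hL P n
  obtain ⟨c₂, hc₂, h₂⟩ := iter_lat hF hL P m
  have hpos : ∀ j : ℕ, 1 ≤ lam ^ j := fun j => Nat.one_le_pow _ _ (by omega)
  have hn0 : lam ^ n • P ≠ 0 := hP _ (hpos n)
  have hm0 : lam ^ m • P ≠ 0 := hP _ (hpos m)
  rw [h₁, h₂, xRep_eq _ hn0, xRep_eq _ hm0] at h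
  have h3 := congrFun h 1
  have h4 := congrFun h 0
  simp only [Pi.smul_apply, Matrix.cons_val_zero, Matrix.cons_val_one, smul_eq_mul, mul_one]
    at h3 h4
  rw [h3, mul_assoc] at h4
  have h5 : xc (lam ^ n • P) = xc (lam ^ m • P) :=
    mul_left_cancel₀ hc₂ (mul_left_cancel₀ hc h4)
  rcases xc_inj hn0 hm0 h5 with h6 | h6
  · exact hmn (Nat.pow_right_injective hlam (nsmul_inj hP h6)).symm
  · refine hP (lam ^ n + lam ^ m) (by have := hpos n; omega) ?_
    rw [add_nsmul, h6, neg_add_cancel]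

end pt

/-! ## Degrees -/

section deg

variable {K : Type} [Field K] {a b : K} {N : Type} [Field N] [Algebra K N]
  [FiniteDimensional K N] [IsGalois K N]

theorem ratio {w : Fin 2 → N} {Z : Ept a b N} (hZ : Z ≠ 0)
    (h : ∃ c : N, c ≠ 0 ∧ w = c • Z.xRep) : w 0 / w 1 = xc Z := by
  obtain ⟨c, hc, rfl⟩ := h
  rw [xRep_eq Z hZ]
  simp only [Pi.smul_apply, Matrix.cons_val_zero, Matrix.cons_val_one, smul_eq_mul, mul_one]
  rw [mul_comm, mul_div_assoc, div_self hc, mul_one]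

theorem dgk_le {k : ℕ} {w : Fin k → Fin 2 → N} {Z : Fin k → Ept a b N} (hZ : ∀ i, Z i ≠ 0)
    (h : ∀ i, ∃ c : N, c ≠ 0 ∧ w i = c • (Z i).xRep) : dgk K w ≤ orbp K Z := by
  rw [CE.orbp_eq]
  unfold dgk
  rw [IntermediateField.finrank_eq_fixingSubgroup_index]
  apply Subgroup.index_antitone
  intro σ hσ
  rw [Subgroup.mem_iInf] at hσ
  rw [FinM.mem_fix_adjoin]
  rintro x ⟨i, rfl⟩
  have h1 := CE.mem_St.1 (hσ i)
  beta_reduce
  rw [ratio (hZ i) (h i)]
  calc σ (xc (Z i)) = xc (pm (σ : N →ₐ[K] N) (Z i)) := (xc_pm (σ : N →ₐ[K] N) (Z i)).symm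
    _ = xc (Z i) := by rw [h1]

theorem orbp_le_dg {w : Fin 2 → N} {Z : Ept a b N} (hZ : Z ≠ 0)
    (h : ∃ c : N, c ≠ 0 ∧ w = c • Z.xRep) : orbp K (fun _ : Fin 1 => Z) ≤ 2 * dg K w := by
  obtain ⟨-, -, -, h1, h2⟩ := clse K a b N Z _ _ rfl rfl
  obtain ⟨m', -, hm', h3, -⟩ := h2 1 le_rfl
  rw [one_smul] at h3
  rw [h3]
  have h4 : dg K w = dg K Z.xRep := by
    unfold dg
    rw [ratio hZ h, ratio hZ ⟨1, one_ne_zero, (one_smul _ _).symm⟩]
  rw [h4]
  exact (Nat.mul_le_mul_left _ hm').trans h1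

theorem dg_iter_le (F : Fin 2 → MvPolynomial (Fin 2) K) (x : N) (n : ℕ) :
    dg K ((gAct F N)^[n] ![x, 1]) ≤ dg K ![x, 1] := by
  unfold dg
  rw [show (![x, 1] : Fin 2 → N) 0 / (![x, 1] : Fin 2 → N) 1 = x from div_one x]
  refine IntermediateField.finrank_le_of_le_right ?_
  rw [IntermediateField.adjoin_simple_le_iff]
  have hx : ∀ i, (![x, 1] : Fin 2 → N) i ∈ IntermediateField.adjoin K {x} := by
    intro i
    fin_cases i
    · exact IntermediateField.mem_adjoin_simple_self K x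
    · exact one_mem _
  exact div_mem (iter_mem F _ hx n 0) (iter_mem F _ hx n 1)

end deg

end FinE

open FinE in
/-- **The bound from independent conjugates.** -/
theorem fine (hGen : GenmStatement) (hFree : FreelStatement) (hMor : MorStatement) :
    FineStatement := by
  intro K _ _ a b hΔ hcm p s lam v F hF hlam _ hL k₀ A' C₀ hA'
  set C : ℕ := C₀ + 1 with hC
  have hC1 : 1 ≤ C := by omega
  have hC' : (1 : ℝ) ≤ C := by exact_mod_cast hC1
  have hA'' : (1 : ℝ) ≤ A' := by exact_mod_cast hA'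
  set k₁ : ℕ := max k₀ 2 with hk₁
  have hk12 : 2 ≤ k₁ := le_max_right _ _
  have hk12' : (2 : ℝ) ≤ k₁ := by exact_mod_cast hk12
  set δ : ℝ := 1 / (8 * k₁ ^ 2 * A' * (4 * C : ℝ) ^ (4 * k₁ * A')) with hδ
  have hδ0 : 0 < δ := by rw [hδ]; positivity
  have h1δ : 1 / δ = 8 * k₁ ^ 2 * A' * (4 * C : ℝ) ^ (4 * k₁ * A') := by rw [hδ, one_div_one_div]
  obtain ⟨c, hc, hmain⟩ := hGen K p s v F hF k₁ δ hδ0
  refine ⟨c, hc, ?_⟩
  intro N _ _ _ _ P hP hy
  have hfd : FiniteDimensional K N := Module.Finite.of_restrictScalars_finite ℚ K N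
  have hM : Mor (p ^ s) F := hMor K p s v F hF
  have hP0 : P ≠ 0 := by
    have := hP 1 le_rfl
    rwa [one_smul] at this
  have hxr : P.xRep = ![xc P, 1] := xRep_eq P hP0
  have hwand := wand hM hL hlam P hP
  have hpos : ∀ j : ℕ, 1 ≤ lam ^ j := fun j => Nat.one_le_pow _ _ (by omega)
  rw [hxr] at hy hwand ⊢
  refine hmain N (xc P) hwand fun n hn hthin => ?_
  have hdD : dg K ((gAct F N)^[n] ![xc P, 1]) ≤ dg K ![xc P, 1] := dg_iter_le F (xc P) n
  have hCD : C₀ < dg K ![xc P, 1] := by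
    have h1 : (C : ℝ) ≤ (4 * C : ℝ) ^ (4 * k₁ * A') := by
      calc (C : ℝ) ≤ 4 * C := by linarith
        _ ≤ (4 * C : ℝ) ^ (4 * k₁ * A') := le_self_pow₀ (by linarith) (by positivity)
    have h2 : (1 : ℝ) ≤ 8 * k₁ ^ 2 * A' := by nlinarith [sq_nonneg (k₁ : ℝ)]
    have h3 : (4 * C : ℝ) ^ (4 * k₁ * A') ≤ 8 * k₁ ^ 2 * A' * (4 * C : ℝ) ^ (4 * k₁ * A') :=
      le_mul_of_one_le_left (by positivity) h2
    have h4 : (C : ℝ) < dg K ((gAct F N)^[n] ![xc P, 1]) := by linarith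
    have h5 : C < dg K ((gAct F N)^[n] ![xc P, 1]) := by exact_mod_cast h4
    omega
  obtain ⟨k, y, hk2, hkk, hyσ, hlin, hcard⟩ := hy hCD n
  -- the conjugates have infinite order
  have hyn : ∀ i, ∀ j : ℕ, lam ^ j • y i ≠ 0 := by
    intro i j
    obtain ⟨σ, hσ⟩ := hyσ i
    rw [← hσ, ← map_nsmul]
    exact pm_ne _ _ (hP _ (hpos j))
  have hy0 : ∀ i, y i ≠ 0 := fun i => by
    have := hyn i 0
    rwa [pow_zero, one_smul] at this
  have hrep : ∀ (i : Fin k) (j : ℕ), ∃ c : N, c ≠ 0 ∧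
      (gAct F N)^[j] ![xc (y i), 1] = c • (lam ^ j • y i).xRep := by
    intro i j
    rw [← xRep_eq _ (hy0 i)]
    exact iter_lat hM hL (y i) j
  have hrepP : ∃ c : N, c ≠ 0 ∧ (gAct F N)^[n] ![xc P, 1] = c • (lam ^ n • P).xRep := by
    rw [← hxr]
    exact iter_lat hM hL P n
  refine ⟨k, fun i => xc (y i), hk2, hkk.trans (le_max_left _ _), fun i => ?_, fun _ => ?_,
    fun j _ => ?_⟩
  · obtain ⟨σ, hσ⟩ := hyσ i
    refine ⟨σ, ?_⟩
    change σ (xc P) = xc (y i)
    rw [← hσ, xc_pm]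
    rfl
  · have h1 : dgk K (fun i => (gAct F N)^[n] ![xc (y i), 1]) ≤ orbp K (fun i => lam ^ n • y i) :=
      dgk_le (fun i => hyn i n) fun i => hrep i n
    have h2 : orbp K (fun _ : Fin 1 => lam ^ n • P) ≤ 2 * dg K ((gAct F N)^[n] ![xc P, 1]) :=
      orbp_le_dg (hP _ (hpos n)) hrepP
    have hM1 : 1 ≤ dgk K (fun i => (gAct F N)^[n] ![xc (y i), 1]) := Module.finrank_pos
    refine nume hk2 (hkk.trans (le_max_left _ _)) hA' hC1 hδ hn hdD hthin hM1 ?_ ?_
    · calc dgk K (fun i => (gAct F N)^[n] ![xc (y i), 1]) ^ A' * dg K ![xc P, 1] ≤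
            orbp K (fun i => lam ^ n • y i) ^ A' * dg K ![xc P, 1] :=
            Nat.mul_le_mul_right _ (Nat.pow_le_pow_left h1 _)
        _ ≤ C₀ * orbp K (fun _ : Fin 1 => lam ^ n • P) ^ (k * A') := hcard
        _ ≤ C * (2 * dg K ((gAct F N)^[n] ![xc P, 1])) ^ (k * A') :=
            Nat.mul_le_mul (by omega) (Nat.pow_le_pow_left h2 _)
    · have h3 : (0 : ℝ) < ((p ^ s : ℕ) : ℝ) := by exact_mod_cast Nat.pow_pos hF.prime.pos
      exact pow_pos h3 n
  · refine freeT_smul (hFree K a b hΔ hcm (p ^ s) lam F hlam hM hL N k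
      (fun i => lam ^ (n + j) • y i) fun γ hγ => ?_) fun i => hrep i (n + j)
    have h1 := hlin (fun i => ((lam ^ (n + j) : ℕ) : ℤ) * γ i) (by
      rw [← hγ]
      refine Finset.sum_congr rfl fun i _ => ?_
      rw [mul_comm, mul_smul, natCast_zsmul])
    funext i
    have h2 := congrFun h1 i
    have h3 : ((lam ^ (n + j) : ℕ) : ℤ) ≠ 0 := by
      have := hpos (n + j)
      exact_mod_cast (by omega : lam ^ (n + j) ≠ 0)
    rcases mul_eq_zero.1 h2 with h4 | h4
    · exact absurd h4 h3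
    · exact h4

end Pool.DynLehmer.LE
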