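import Pool.Agent.Lib.MP_2194ec_nt.GAL.R.Mor
import Pool.Agent.Lib.MP_2194ec_nt.LE.DefsU
import Pool.Agent.Lib.MP_2194ec_nt.LE.Fine

set_option autoImplicit false
set_option linter.unusedSectionVars false

/-!
# The Lehmer bound for the Lattes maps: the bound from free conjugates
-/

namespace Pool.DynLehmer.LE
open MvPolynomial NumberField Filter Topology Pool.DynLehmer Pool.DynLehmer.SB Pool.DynLehmer.SP
  Pool.DynLehmer.GS Pool.DynLehmer.LP Pool.DynLehmer.LW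
open scoped Classical

open FinE in
/-- **The bound from free conjugates.** -/
theorem fineu (hGen : GenmStatement) : FineuStatement := by
  intro K _ _ a b _ p s lam v F hF hlam _ hL k₀ A' C₀ hA'
  set C : ℕ := C₀ + 1 with hC
  have hC1 : 1 ≤ C := by omega
  have hC' : (1 : ℝ) ≤ C := by exact_mod_cast hC1
  have hA'' : (1 : ℝ) ≤ A' := by exact_mod_cast hA'
  set k₁ : ℕ := max k₀ 2 with hk₁
  have hk12 : 2 ≤ k₁ := le_max_right _ _
  have hk12' : (2 : ℝ) ≤ k₁ := by exact_mod_cast hk12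
  set δ : ℝ := 1 / (8 * k₁ ^ 2 * A' * (4 * C : ℝ) ^ (4 * k₁ * A')) with hδ
  have hδ0 : 0 < δ := by rw [hδ]; positivity
  have h1δ : 1 / δ = 8 * k₁ ^ 2 * A' * (4 * C : ℝ) ^ (4 * k₁ * A') := by rw [hδ, one_div_one_div]
  obtain ⟨c, hc, hmain⟩ := hGen K p s v F hF k₁ δ hδ0
  refine ⟨c, hc, ?_⟩
  intro N _ _ _ _ P hP hy
  have hfd : FiniteDimensional K N := Module.Finite.of_restrictScalars_finite ℚ K N
  have hM : Mor (p ^ s) F := mor K p s v F hF
  have hP0 : P ≠ 0 := by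
    have := hP 1 le_rfl
    rwa [one_smul] at this
  have hxr : P.xRep = ![xc P, 1] := xRep_eq P hP0
  have hwand := wand hM hL hlam P hP
  have hpos : ∀ j : ℕ, 1 ≤ lam ^ j := fun j => Nat.one_le_pow _ _ (by omega)
  rw [hxr] at hy hwand ⊢
  refine hmain N (xc P) hwand fun n hn hthin => ?_
  have hdD : dg K ((gAct F N)^[n] ![xc P, 1]) ≤ dg K ![xc P, 1] := dg_iter_le F (xc P) n
  have hCD : C₀ < dg K ![xc P, 1] := by
    have h1 : (C : ℝ) ≤ (4 * C : ℝ) ^ (4 * k₁ * A') := by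
      calc (C : ℝ) ≤ 4 * C := by linarith
        _ ≤ (4 * C : ℝ) ^ (4 * k₁ * A') := le_self_pow₀ (by linarith) (by positivity)
    have h2 : (1 : ℝ) ≤ 8 * k₁ ^ 2 * A' := by nlinarith [sq_nonneg (k₁ : ℝ)]
    have h3 : (4 * C : ℝ) ^ (4 * k₁ * A') ≤ 8 * k₁ ^ 2 * A' * (4 * C : ℝ) ^ (4 * k₁ * A') :=
      le_mul_of_one_le_left (by positivity) h2
    have h4 : (C : ℝ) < dg K ((gAct F N)^[n] ![xc P, 1]) := by linarith
    have h5 : C < dg K ((gAct F N)^[n] ![xc P, 1]) := by exact_mod_cast h4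
    omega
  obtain ⟨k, y, hk2, hkk, hyσ, hfree, hcard⟩ := hy hCD n
  -- the conjugates have infinite order
  have hyn : ∀ i, ∀ j : ℕ, lam ^ j • y i ≠ 0 := by
    intro i j
    obtain ⟨σ, hσ⟩ := hyσ i
    rw [← hσ, ← map_nsmul]
    exact pm_ne _ _ (hP _ (hpos j))
  have hy0 : ∀ i, y i ≠ 0 := fun i => by
    have := hyn i 0
    rwa [pow_zero, one_smul] at this
  have hrep : ∀ (i : Fin k) (j : ℕ), ∃ c : N, c ≠ 0 ∧
      (gAct F N)^[j] ![xc (y i), 1] = c • (lam ^ j • y i).xRep := by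
    intro i j
    rw [← xRep_eq _ (hy0 i)]
    exact iter_lat hM hL (y i) j
  have hrepP : ∃ c : N, c ≠ 0 ∧ (gAct F N)^[n] ![xc P, 1] = c • (lam ^ n • P).xRep := by
    rw [← hxr]
    exact iter_lat hM hL P n
  refine ⟨k, fun i => xc (y i), hk2, hkk.trans (le_max_left _ _), fun i => ?_, fun _ => ?_,
    fun j _ => ?_⟩
  · obtain ⟨σ, hσ⟩ := hyσ i
    refine ⟨σ, ?_⟩
    change σ (xc P) = xc (y i)
    rw [← hσ, xc_pm]
    rfl
  · have h1 : dgk K (fun i => (gAct F N)^[n] ![xc (y i), 1]) ≤ orbp K (fun i => lam ^ n • y i) :=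
      dgk_le (fun i => hyn i n) fun i => hrep i n
    have h2 : orbp K (fun _ : Fin 1 => lam ^ n • P) ≤ 2 * dg K ((gAct F N)^[n] ![xc P, 1]) :=
      orbp_le_dg (hP _ (hpos n)) hrepP
    have hM1 : 1 ≤ dgk K (fun i => (gAct F N)^[n] ![xc (y i), 1]) := Module.finrank_pos
    refine nume hk2 (hkk.trans (le_max_left _ _)) hA' hC1 hδ hn hdD hthin hM1 ?_ ?_
    · calc dgk K (fun i => (gAct F N)^[n] ![xc (y i), 1]) ^ A' * dg K ![xc P, 1] ≤
            orbp K (fun i => lam ^ n • y i) ^ A' * dg K ![xc P, 1] :=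
            Nat.mul_le_mul_right _ (Nat.pow_le_pow_left h1 _)
        _ ≤ C₀ * orbp K (fun _ : Fin 1 => lam ^ n • P) ^ (k * A') := hcard
        _ ≤ C * (2 * dg K ((gAct F N)^[n] ![xc P, 1])) ^ (k * A') :=
            Nat.mul_le_mul (by omega) (Nat.pow_le_pow_left h2 _)
    · have h3 : (0 : ℝ) < ((p ^ s : ℕ) : ℝ) := by exact_mod_cast Nat.pow_pos hF.prime.pos
      exact pow_pos h3 n
  · exact freeT_smul (hfree (n + j)) fun i => hrep i (n + j)

end Pool.DynLehmer.LE
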