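import Pool.Agent.Lib.MP_2194ec_nt.LE.Freel
import Pool.Agent.Lib.MP_2194ec_nt.LE.DefsU

set_option autoImplicit false
set_option linter.unusedSectionVars false

/-!
# Row FREELU, part 2: relations at a common time contradict the independence
-/

namespace Pool.DynLehmer.LE
open MvPolynomial NumberField Filter Topology Pool.DynLehmer Pool.DynLehmer.SB Pool.DynLehmer.SP
  Pool.DynLehmer.GS Pool.DynLehmer.LP Pool.DynLehmer.LW Pool.DynLehmer.LW.Cl
open scoped Classical

namespace Fu

open Fl

/-- the relations at a common time with a common period contradict the independence -/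
theorem frB (hT : TransuStatement) (hS : SpecStatement) (hPc : PcStatement)
    (K : Type) [Field K] [CharZero K] (a b : K) (hab : 4 * a ^ 3 + 27 * b ^ 2 ≠ 0)
    (q lam : ℕ) (F : Fin 2 → MvPolynomial (Fin 2) K) (hlam : 2 ≤ lam) (hF : Mor q F)
    (hl : IsLat a b lam F) (N : Type) [Field N] [Algebra K N] (m : ℕ) (y : Fin m → Ept a b N)
    (hy : ∀ γ : Fin m → ℤ, ∑ i, γ i • y i = 0 → γ = 0) (j M : ℕ) (hM : 1 ≤ M)
    (hrel : ∀ (k : ℕ) (ι : Fin k → Fin m), Function.Injective ι → m ≤ 2 * k →
      ∃ Q : MvPolynomial (Fin k) K, Q ≠ 0 ∧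
        ∀ l : ℕ, aeval (fun i => xc (lam ^ (j + M * l) • y (ι i))) Q = 0) : False := by
  -- multiples of the points
  have hlm : ∀ n : ℕ, 1 ≤ n → ∀ i, n • y i ≠ 0 := by
    intro n hn i h0
    have h1 := hy (Pi.single i (n : ℤ)) (by
      rw [Finset.sum_eq_single i]
      · rw [Pi.single_eq_same, natCast_zsmul, h0]
      · intro j _ hj
        rw [Pi.single_eq_of_ne hj, zero_smul]
      · intro h
        exact absurd (Finset.mem_univ _) h)
    have h2 := congrFun h1 i
    rw [Pi.single_eq_same, Pi.zero_apply] at h2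
    omega
  have hpow : ∀ n, 1 ≤ lam ^ n := fun n => Nat.one_le_pow _ _ (by omega)
  let x : ℕ → Fin m → N := fun l i => xc (lam ^ (j + M * l) • y i)
  have hx0 : ∀ l i, lam ^ (j + M * l) • y i ≠ 0 := fun l i => hlm _ (hpow _) i
  -- the iterates in affine coordinates
  let A : ℕ → Fin m → Fin 2 → MvPolynomial (Fin m) K := fun r i j =>
    dh ((bind₁ (FX F m))^[r] (X (i, j)))
  have hA : ∀ (r : ℕ) (E : Type) [Field E] [Algebra K E] (s : Fin m → E) (i : Fin m) (j : Fin 2),
      aeval s (A r i j) = (gAct F E)^[r] ![s i, 1] j := by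
    intro r E _ _ s i j
    show aeval s (dh _) = _
    rw [aeval_dh, aeval_iter, aeval_X]
    rfl
  -- the orbit
  have horb : ∀ l i, ∃ c : N, c ≠ 0 ∧ (gAct F N)^[M] ![x l i, 1] = c • ![x (l + 1) i, 1] := by
    intro l i
    obtain ⟨c, hc, h1⟩ := iter_xRep hF hl M (lam ^ (j + M * l) • y i)
    refine ⟨c, hc, ?_⟩
    have h2 : lam ^ M • lam ^ (j + M * l) • y i = lam ^ (j + M * (l + 1)) • y i := by
      rw [smul_smul, ← pow_add]
      congr 2
      ring
    rw [h2, xRep_of_ne (hx0 l i), xRep_of_ne (hx0 (l + 1) i)] at h1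
    exact h1
  have hB : ∀ l i, aeval (x l) (A M i 1) ≠ 0 := by
    intro l i
    obtain ⟨c, hc, h1⟩ := horb l i
    rw [hA, h1]
    show c * 1 ≠ 0
    rwa [mul_one]
  have hx : ∀ l i, x (l + 1) i = aeval (x l) (A M i 0) / aeval (x l) (A M i 1) := by
    intro l i
    obtain ⟨c, hc, h1⟩ := horb l i
    rw [hA, hA, h1]
    show x (l + 1) i = c * x (l + 1) i / (c * 1)
    rw [mul_div_mul_left _ _ hc, div_one]
  obtain ⟨n, M', E, _, _, t, hM', hBt, hinv, hsp, hgen⟩ := hPc K N m (fun i => A M i 0)
    (fun i => A M i 1) x hB hx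
  -- the iterates of the generic point
  have hit : ∀ (r : ℕ) (i : Fin m), ∃ c : E, c ≠ 0 ∧ (gAct F E)^[M * r] ![t i, 1] =
      c • ![((fun (s : Fin m → E) i => aeval s (A M i 0) / aeval s (A M i 1))^[r] t) i, 1] := by
    intro r i
    induction r with
    | zero => exact ⟨1, one_ne_zero, by rw [one_smul]; rfl⟩
    | succ r ih =>
      obtain ⟨c, hc, h1⟩ := ih
      have hsm : ∀ (r : ℕ) (c : E) (z : Fin 2 → E), c ≠ 0 → ∃ c' : E, c' ≠ 0 ∧
          (gAct F E)^[r] (c • z) = c' • (gAct F E)^[r] z := by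
        intro r c z hc
        induction r with
        | zero => exact ⟨c, hc, rfl⟩
        | succ r ih =>
          obtain ⟨c', hc', h⟩ := ih
          refine ⟨c' ^ q, pow_ne_zero _ hc', ?_⟩
          rw [Function.iterate_succ_apply', Function.iterate_succ_apply', h, Fl.gAct_smul hF]
      set s := (fun (s : Fin m → E) i => aeval s (A M i 0) / aeval s (A M i 1))^[r] t with hs
      obtain ⟨c', hc', h2⟩ := hsm M c ![s i, 1] hc
      have h3 : aeval s (A M i 1) ≠ 0 := hBt r i
      refine ⟨c' * aeval s (A M i 1), mul_ne_zero hc' h3, ?_⟩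
      rw [Nat.mul_succ, Nat.add_comm, Function.iterate_add_apply, h1, h2,
        Function.iterate_succ_apply', ← hs]
      funext j'
      fin_cases j'
      · show c' * (gAct F E)^[M] ![s i, 1] 0 =
          c' * aeval s (A M i 1) * (aeval s (A M i 0) / aeval s (A M i 1))
        rw [← hA M E s i 0]
        field_simp
      · show c' * (gAct F E)^[M] ![s i, 1] 1 = c' * aeval s (A M i 1) * 1
        rw [← hA M E s i 1, mul_one]
  set M₁ := M * M' with hM₁
  have hA1 : ∀ i, aeval t (A M₁ i 1) ≠ 0 := by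
    intro i
    obtain ⟨c, hc, h1⟩ := hit M' i
    rw [hA, h1]
    show c * 1 ≠ 0
    rwa [mul_one]
  have ht' : ∀ i, ((fun (s : Fin m → E) i => aeval s (A M i 0) / aeval s (A M i 1))^[M'] t) i =
      aeval t (A M₁ i 0) / aeval t (A M₁ i 1) := by
    intro i
    obtain ⟨c, hc, h1⟩ := hit M' i
    rw [hA, hA, h1]
    set z := ((fun (s : Fin m → E) i => aeval s (A M i 0) / aeval s (A M i 1))^[M'] t) i
    show z = c * z / (c * 1)
    rw [mul_div_mul_left _ _ hc, div_one]
  obtain ⟨L, _, _, _, φ, τ, hτ, hφ⟩ := exists_endo t (fun i => A M₁ i 0) (fun i => A M₁ i 1)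
    (fun Q => by rw [hinv Q, ← funext ht'])
  -- the points
  choose P hP0 hPx using fun i => exists_point (a := a) (b := b) hab (τ i)
  have hxc : ∀ i, xc (P i) = τ i := by
    intro i
    have h1 := xRep_of_ne (hP0 i)
    rw [hPx i] at h1
    exact (congrFun h1 0).symm
  have hphi : ∀ i, pm (φ.restrictScalars K) (P i) = lam ^ M₁ • P i ∨
      pm (φ.restrictScalars K) (P i) = -(lam ^ M₁ • P i) := by
    intro i
    refine WeierstrassCurve.Affine.Point.eq_or_eq_neg_of_xRep_eq_xRep ?_
    obtain ⟨c, hc, h1⟩ := iter_xRep hF hl M₁ (P i)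
    rw [hPx i] at h1
    have h2 : ∀ j, aeval τ (A M₁ i j) = c * (lam ^ M₁ • P i).xRep j := fun j => by
      rw [hA M₁ L τ i j, h1]
      rfl
    have h3 : aeval τ (A M₁ i 1) ≠ 0 := fun h => hA1 i ((hτ _).1 h)
    have h4 : lam ^ M₁ • P i ≠ 0 := by
      intro h
      rw [h2, h] at h3
      exact h3 (by simp)
    have h5 := xRep_of_ne h4
    have h6 : φ (τ i) = xc (lam ^ M₁ • P i) := by
      rw [hφ, h2, h2, h5]
      show c * xc (lam ^ M₁ • P i) / (c * 1) = _
      rw [mul_div_mul_left _ _ hc, div_one]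
    have h7 : (pm (φ.restrictScalars K) (P i)).xRep = ![φ (τ i), 1] := by
      have h8 := hPx i
      have h9 := hP0 i
      generalize P i = R at h8 h9
      match R with
      | .zero => exact absurd rfl h9
      | .some x y hh =>
        have h10 : x = τ i := congrFun h8 0
        subst h10
        rfl
    rw [h7, h5, h6]
  -- the generic points are independent
  let N' := AlgebraicClosure N
  let ιN : N →ₐ[K] N' := IsScalarTower.toAlgHom K N N'
  have hinj : Function.Injective (pm (a := a) (b := b) ιN) :=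
    WeierstrassCurve.Affine.Point.map_injective ιN
  have hind : ∀ γ : Fin m → ℤ, ∑ i, γ i • P i = 0 → γ = 0 := by
    intro γ hγ0
    let p : Fin m → Ept a b N := fun i => lam ^ (j + M * n) • y i
    have hp0 : ∀ i, p i ≠ 0 := hx0 n
    have hxc' : ∀ i, xc (pm ιN (p i)) = ιN (xc (p i)) := by
      intro i
      have h9 := hp0 i
      generalize p i = R at h9
      match R with
      | .zero => exact absurd rfl h9
      | .some x y hh => rfl
    obtain ⟨ε, hε, hs⟩ := hS K a b hab L N' m P (fun i => pm ιN (p i)) hP0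
      (fun i h => hp0 i (hinj (h.trans (map_zero _).symm))) (by
        intro Q hQ
        have h2 : (fun i => xc (P i)) = τ := funext hxc
        rw [h2, hτ] at hQ
        have h3 : aeval (fun i => xc (p i)) Q = 0 := hsp Q hQ
        have h6 : (fun i => xc (pm ιN (p i))) = fun i => ιN (xc (p i)) := funext hxc'
        rw [h6]
        have h7 : aeval (fun i => ιN (xc (p i))) Q = ιN (aeval (fun i => xc (p i)) Q) :=
          (comp_aeval_apply ιN (f := fun i => xc (p i)) Q).symm
        rw [h7, h3, map_zero]) γ hγ0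
    have h1 : ∑ i, (ε i * γ i) • p i = 0 := by
      apply hinj
      rw [map_sum, map_zero, ← hs]
      exact Finset.sum_congr rfl fun i _ => map_zsmul _ _ _
    have h1' : ∑ i, (ε i * γ i * (lam ^ (j + M * n) : ℕ)) • y i = 0 := by
      rw [← h1]
      refine Finset.sum_congr rfl fun i _ => ?_
      rw [mul_smul, natCast_zsmul]
    have h2 := hy _ h1'
    funext i
    have h3 : ε i * γ i * (lam ^ (j + M * n) : ℕ) = 0 := congrFun h2 i
    have h5 := hpow (j + M * n)
    rcases mul_eq_zero.1 h3 with h | h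
    · rcases mul_eq_zero.1 h with h | h
      · rcases hε i with h4 | h4
        · rw [h4] at h
          exact absurd h one_ne_zero
        · rw [h4] at h
          exact absurd h (by norm_num)
      · exact h
    · omega
  have hlam2 : 2 ≤ lam ^ M₁ := by
    refine le_trans hlam (Nat.le_self_pow ?_ lam)
    have : 0 < M * M' := Nat.mul_pos (by omega) (by omega)
    omega
  obtain ⟨k, ι, hι, hk, hai⟩ := hT K a b hab K L φ (lam ^ M₁) hlam2 m P hphi hind
  obtain ⟨Q, hQ0, hQ⟩ := hrel k ι hι hk
  apply hQ0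
  refine (algebraicIndependent_iff.1 hai) Q ?_
  have h1 : aeval t (rename ι Q) = 0 := by
    refine hgen _ fun l => ?_
    rw [aeval_rename]
    exact hQ l
  rw [← hτ, aeval_rename] at h1
  have h2 : (fun i => xc (P (ι i))) = τ ∘ ι := funext fun i => hxc (ι i)
  rw [h2]
  exact h1

end Fu

end Pool.DynLehmer.LE
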