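import Pool.Agent.Lib.MP_2194ec_nt.LE.FrA
import Pool.Agent.Lib.MP_2194ec_nt.LE.Frb

set_option autoImplicit false

/-!
# Row FREELU: half of the members of an independent family are free for the Lattes map
-/

namespace Pool.DynLehmer.LE
open MvPolynomial Pool.DynLehmer Pool.DynLehmer.GS Pool.DynLehmer.LW

/-- **Row FREELU.** -/
theorem freelu (hT : TransuStatement) (hS : SpecStatement) (hPc : PcStatement) :
    FreeluStatement := by
  intro K _ _ a b hab q lam F hlam hF hl N _ _ m y hy
  by_contra hcon
  push Not at hcon
  obtain ⟨j, M, hM, hrel⟩ := frA K a b q lam F hlam hF hl N m y hy hcon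
  exact Fu.frB hT hS hPc K a b hab q lam F hlam hF hl N m y hy j M hM hrel

end Pool.DynLehmer.LE
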