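import Pool.Agent.Lib.MP_2194ec_nt.LE.Defs2

set_option autoImplicit false

/-!
# The Lehmer bound for the Lattes maps of elliptic curves with complex multiplication: statements
of the rows
-/

namespace Pool.DynLehmer.LE
open MvPolynomial NumberField Filter Topology Pool.DynLehmer Pool.DynLehmer.SB Pool.DynLehmer.SP
  Pool.DynLehmer.GS Pool.DynLehmer.LP Pool.DynLehmer.LW
open scoped Classical

/-- An endomorphism `J` of the curve `y ^ 2 = x ^ 3 + a x + b` over `K` with multiplier `θ`: a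
natural family of endomorphisms of the groups of points over the fields which contain `K`, given
in the first coordinate by a pair `G` of forms of degree `d` without common zeros, with
`J ^ 2 = t J - n`. -/
structure Endo {K : Type} [Field K] (a b θ : K) where
  /-- the endomorphism -/
  J : ∀ (M : Type) [Field M] [Algebra K M], Ept a b M →+ Ept a b M
  /-- the degree -/
  d : ℕ
  /-- the map of the first coordinates -/
  G : Fin 2 → MvPolynomial (Fin 2) K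
  /-- the trace -/
  t : ℤ
  /-- the norm -/
  n : ℤ
  nat : ∀ (M M' : Type) [Field M] [Algebra K M] [Field M'] [Algebra K M'] (φ : M →ₐ[K] M')
    (P : Ept a b M), pm φ (J M P) = J M' (pm φ P)
  om : ∀ (C L : Type) [Field C] [Algebra K C] [Field L] [Algebra C L] [Algebra K L]
    [IsScalarTower K C L] (D : Derivation C L L) (P : Ept a b L),
    om D (J L P) = algebraMap K L θ * om D P
  mor : Mor d G
  xJ : ∀ (M : Type) [Field M] [Algebra K M] (P : Ept a b M),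
    ∃ c : M, c ≠ 0 ∧ gAct G M P.xRep = c • (J M P).xRep
  sq : ∀ (M : Type) [Field M] [Algebra K M] (P : Ept a b M), J M (J M P) = t • J M P - n • P
  sqθ : θ ^ 2 = t * θ - n

/-- All endomorphisms of the curve have multipliers in `ℤ + ℤ θ`. -/
def AllEnd {K : Type} [Field K] (a b θ : K) : Prop :=
  ∀ (C : Type) [Field C] [Algebra K C] (A B : Polynomial C) (g : C), B ≠ 0 →
    Polynomial.derivative A * B - A * Polynomial.derivative B ≠ 0 →
    (Polynomial.X ^ 3 + Polynomial.C (algebraMap K C a) * Polynomial.X +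
        Polynomial.C (algebraMap K C b)) *
      (Polynomial.derivative A * B - A * Polynomial.derivative B) ^ 2 =
      Polynomial.C (g ^ 2) * B * (A ^ 3 + Polynomial.C (algebraMap K C a) * A * B ^ 2 +
        Polynomial.C (algebraMap K C b) * B ^ 3) →
    ∃ n m : ℤ, g = n + m * algebraMap K C θ

/-- The curve `y ^ 2 = x ^ 3 + a x + b` has complex multiplication by `ℤ + ℤ θ`. -/
structure CM {K : Type} [Field K] (a b θ : K) : Prop where
  disc : 4 * a ^ 3 + 27 * b ^ 2 ≠ 0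
  all : AllEnd a b θ
  irr : ∀ r : ℚ, θ ≠ r

/-- The points are independent over the endomorphisms. -/
def IndJ {K : Type} [Field K] {a b θ : K} (E : Endo a b θ) {N : Type} [Field N] [Algebra K N]
    {k : ℕ} (p : Fin k → Ept a b N) : Prop :=
  ∀ γ δ : Fin k → ℤ, ∑ i, (γ i • p i + δ i • E.J N (p i)) = 0 → γ = 0 ∧ δ = 0

/-- Row K2J (from OMADD). -/
def K2jStatement : Prop :=
  ∀ (K : Type) [Field K] [CharZero K] (a b θ : K), 4 * a ^ 3 + 27 * b ^ 2 ≠ 0 → AllEnd a b θ →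
    ∀ (C L : Type) [Field C] [Algebra K C] [Field L] [Algebra C L] [Algebra K L]
      [IsScalarTower K C L] [IsAlgClosed C] [IsAlgClosed L] (D : Derivation C L L)
      (P₁ P : Ept a b L) (g : C), Transcendental C (xc P₁) →
      Algebra.IsAlgebraic (IntermediateField.adjoin C {xc P₁}) L → om D P₁ = 1 →
      om D P = algebraMap C L g → ∃ r r' : ℚ, g = r + r' * algebraMap K C θ

/-- Row TRANSJ (from OMADD, K2J, EXT), as TRANS. -/
def TransjStatement : Prop :=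
  ∀ (K : Type) [Field K] [CharZero K] (a b θ : K), CM a b θ →
    ∀ (E : Endo a b θ) (C L : Type) [Field C] [Algebra K C] [Field L] [Algebra C L] [Algebra K L]
      [IsScalarTower K C L] [IsAlgClosed L] (φ : L →ₐ[C] L) (lam : ℕ), 2 ≤ lam →
      ∀ (k : ℕ) (P : Fin k → Ept a b L),
      (∀ i, pm (φ.restrictScalars K) (P i) = lam • P i ∨
        pm (φ.restrictScalars K) (P i) = -(lam • P i)) →
      ¬ AlgebraicIndependent C (fun i => xc (P i)) →
      ∃ γ δ : Fin k → ℤ, (γ ≠ 0 ∨ δ ≠ 0) ∧ ∑ i, (γ i • P i + δ i • E.J L (P i)) = 0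

/-- Row SPECJ (from ADDSUB), as SPEC: specialisation of a relation. -/
def SpecjStatement : Prop :=
  ∀ (K : Type) [Field K] [CharZero K] (a b θ : K), 4 * a ^ 3 + 27 * b ^ 2 ≠ 0 →
    ∀ (E : Endo a b θ) (L N : Type) [Field L] [Algebra K L] [Field N] [Algebra K N]
      [IsAlgClosed N] (k : ℕ) (P : Fin k → Ept a b L) (p : Fin k → Ept a b N),
      (∀ i, P i ≠ 0) → (∀ i, p i ≠ 0) →
      (∀ Q : MvPolynomial (Fin k) K, aeval (fun i => xc (P i)) Q = 0 →
        aeval (fun i => xc (p i)) Q = 0) →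
      ∀ γ δ : Fin k → ℤ, ∑ i, (γ i • P i + δ i • E.J L (P i)) = 0 →
      ∃ ε ε' : Fin k → ℤ, (∀ i, ε i = 1 ∨ ε i = -1) ∧ (∀ i, ε' i = 1 ∨ ε' i = -1) ∧
        ∑ i, ((ε i * γ i) • p i + (ε' i * δ i) • E.J N (p i)) = 0

/-- Row FREELJ (from TRANSJ, SPECJ): independent points are free for the Lattes map. -/
def FreeljStatement : Prop :=
  ∀ (K : Type) [Field K] [CharZero K] (a b θ : K), CM a b θ → ∀ (E : Endo a b θ)
    (q lam : ℕ) (F : Fin 2 → MvPolynomial (Fin 2) K), 2 ≤ lam → Mor q F → IsLat a b lam F →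
    ∀ (N : Type) [Field N] [Algebra K N] (k : ℕ) (p : Fin k → Ept a b N), IndJ E p →
      FreeT q F (fun i => (p i).xRep)

/-- Row FINEJ (from GENM, FREELJ), as FINE. -/
def FinejStatement : Prop :=
  ∀ (K : Type) [Field K] [NumberField K] (a b θ : K), CM a b θ → ∀ (E : Endo a b θ)
    (p s lam : ℕ) (v : FinitePlace K) (F : Fin 2 → MvPolynomial (Fin 2) K), HypR p s v F →
    2 ≤ lam → lam ^ 2 = p ^ s → IsLat a b lam F →
    ∀ k₀ A' C : ℕ, 1 ≤ A' → ∃ c : ℝ, 0 < c ∧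
    ∀ (N : Type) [Field N] [NumberField N] [Algebra K N] [IsGalois K N] (P : Ept a b N),
      (∀ n : ℕ, 1 ≤ n → n • P ≠ 0) →
      (C < dg K P.xRep → ∀ n : ℕ, ∃ (k : ℕ) (y : Fin k → Ept a b N), 2 ≤ k ∧ k ≤ k₀ ∧
        (∀ i, ∃ σ : N ≃ₐ[K] N, pm (σ : N →ₐ[K] N) P = y i) ∧ IndJ E y ∧
        (orbp K (fun i => lam ^ n • y i)) ^ A' * dg K P.xRep ≤
          C * (orbp K (fun _ : Fin 1 => lam ^ n • P)) ^ (k * A')) →
      ∃ h : ℝ, HasHt (p ^ s) F P.xRep h ∧ c / (dg K P.xRep : ℝ) ≤ h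

/-- Row SUBJ (pure algebra): half of the members of a `ℤ`-independent family are independent over
the endomorphisms. -/
def SubjStatement : Prop :=
  ∀ (K : Type) [Field K] [CharZero K] (a b θ : K), CM a b θ → ∀ (E : Endo a b θ)
    (N : Type) [Field N] [Algebra K N] (m : ℕ) (y : Fin m → Ept a b N),
    (∀ γ : Fin m → ℤ, ∑ i, γ i • y i = 0 → γ = 0) →
    ∃ (k : ℕ) (ι : Fin k → Fin m), Function.Injective ι ∧ m ≤ 2 * k ∧ IndJ E (y ∘ ι)

/-- Row GRPB (from GRAM, MODT): as GRPA, with the exponent `4`. -/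
def GrpbStatement : Prop :=
  ∀ A : ℕ, ∃ s R C : ℕ, 2 ≤ s ∧ ∀ (G Ω V : Type) [Group G] [Finite G]
    [Fintype Ω] [MulAction G Ω] [AddCommGroup V] [Module ℚ V] (ρ : Representation ℚ G V)
    (f : Ω → V), (∀ (g : G) (x : Ω), f (g • x) = ρ g (f x)) → Function.Injective f →
    MulAction.IsPretransitive G Ω → ∀ (x : Ω) (H : Subgroup G),
    (∀ g ∈ MulAction.stabilizer G x, ∀ h ∈ H, g * h * g⁻¹ ∈ H) →
    R < Nat.card (MulAction.orbit H x) →
    (∃ (l : ℕ) (L : ℕ → Subgroup G), (∀ g ∈ L 0, ∀ h ∈ H, g • h • x = h • x) ∧ L l = H ∧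
      ∀ i < l, L i ≤ L (i + 1) ∧ (∀ x ∈ L (i + 1), ∀ y ∈ L i, x * y * x⁻¹ ∈ L i) ∧
        ((∀ x ∈ L (i + 1), ∀ y ∈ L (i + 1), x * y * x⁻¹ * y⁻¹ ∈ L i) ∨
          (L i).relIndex (L (i + 1)) ≤ (Fintype.card Ω) ^ A)) →
    ∃ y : Fin (2 ^ s) → Ω, (∃ i, y i = x) ∧ LinearIndependent ℚ (fun i => f (y i)) ∧
      (Nat.card (MulAction.orbit G y)) ^ 4 ≤ C * (Fintype.card Ω) ^ (2 ^ s)

/-- **The Lehmer bound for elliptic curves with complex multiplication, solvable Galois closure**,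
row LATJ (from FINEJ, REPE, CLSE, GRPB, SUBJ), as LAT. -/
def LatjStatement : Prop :=
  ∀ (K : Type) [Field K] [NumberField K] (a b θ : K), CM a b θ → ∀ (_E : Endo a b θ)
    (p s lam : ℕ) (v : FinitePlace K) (F : Fin 2 → MvPolynomial (Fin 2) K), HypR p s v F →
    2 ≤ lam → lam ^ 2 = p ^ s → IsLat a b lam F →
    ∀ A M : ℕ, ∃ c : ℝ, 0 < c ∧
    ∀ (N : Type) [Field N] [NumberField N] [Algebra K N] [IsGalois K N] (P : Ept a b N),
      (∀ n : ℕ, 1 ≤ n → n • P ≠ 0) →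
      (∃ (e : ℕ) (τ : Fin e → (N ≃ₐ[K] N)),
        (∀ i j, i ≠ j → ¬ Tq (pm (τ i : N →ₐ[K] N) P) (pm (τ j : N →ₐ[K] N) P)) ∧
        Nat.card {Q : Ept a b N // (∃ σ : N ≃ₐ[K] N, pm (σ : N →ₐ[K] N) P = Q) ∧ Tq P Q} ≤
          M * e ^ M ∧
        ∃ (l : ℕ) (L : ℕ → Subgroup (N ≃ₐ[K] N)), L 0 = ⊥ ∧ L l = ⊤ ∧
          ∀ i < l, L i ≤ L (i + 1) ∧ (∀ x ∈ L (i + 1), ∀ y ∈ L i, x * y * x⁻¹ ∈ L i) ∧
            ((∀ x ∈ L (i + 1), ∀ y ∈ L (i + 1), x * y * x⁻¹ * y⁻¹ ∈ L i) ∨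
              (L i).relIndex (L (i + 1)) ≤ e ^ A)) →
      ∃ h : ℝ, HasHt (p ^ s) F P.xRep h ∧ c / (dg K P.xRep : ℝ) ≤ h

end Pool.DynLehmer.LE
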