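import Pool.Agent.Lib.MP_2194ec_nt.LW.GrpzA
import Pool.Agent.Lib.MP_2194ec_nt.LE.DefsJ

set_option autoImplicit false

/-!
# Tuples with independent vectors and a very small orbit (row GRPB)
-/

namespace Pool.DynLehmer.LE
open Pool.DynLehmer Pool.DynLehmer.LW
open scoped Classical

/-- Row GRPB. -/
theorem grpb (hGram : GramStatement) (hMod : ModtStatement) : GrpbStatement := by
  intro A
  -- `2 ^ s ≥ 4 (A + 1) s + 12`
  obtain ⟨s, hs1, hs⟩ : ∃ s, 2 ≤ s ∧ 4 * (A + 1) * s + 12 ≤ 2 ^ s := by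
    have key : ∀ n : ℕ, n ^ 2 ≤ 2 ^ (n + 1) := by
      intro n
      have h1 : ∀ n : ℕ, (n + 4) ^ 2 ≤ 2 ^ (n + 5) := by
        intro n
        induction n with
        | zero => norm_num
        | succ n ih =>
          have h2 : 2 ^ (n + 1 + 5) = 2 * 2 ^ (n + 5) := by
            rw [← pow_succ']
          rw [h2]
          have h3 : (n + 1 + 4) ^ 2 ≤ 2 * (n + 4) ^ 2 := by
            have h4 : 2 * (n + 4) ^ 2 = (n + 1 + 4) ^ 2 + (n ^ 2 + 6 * n + 7) := by ring
            rw [h4]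
            exact Nat.le_add_right _ _
          omega
      rcases Nat.lt_or_ge n 4 with h | h
      · interval_cases n <;> norm_num
      · obtain ⟨m, rfl⟩ := Nat.exists_eq_add_of_le h
        rw [add_comm 4 m]
        exact h1 m
    refine ⟨8 * A + 16, by omega, ?_⟩
    have h3 := key (8 * A + 15)
    have h4 : 8 * A + 15 + 1 = 8 * A + 16 := by ring
    rw [h4] at h3
    nlinarith
  obtain ⟨R, hR⟩ : ∃ R : ℕ, R = 3 ^ ((16 ^ s) ^ 2) := ⟨_, rfl⟩
  have hR1 : 1 ≤ R := by
    rw [hR]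
    exact Nat.one_le_pow _ _ (by norm_num)
  obtain ⟨Q, hQ1, hQR⟩ : ∃ Q : ℕ, 1 ≤ Q ∧ (R ^ R) ^ R ≤ Q :=
    ⟨(R ^ R) ^ R, Nat.one_le_pow _ _ (Nat.one_le_pow _ _ hR1), le_rfl⟩
  refine ⟨s, R, (Q ^ s) ^ 4 * (R ^ 2 ^ s) ^ 4, hs1, ?_⟩
  intro G Ω U _ _ _ _ _ _ ρ f hf hinj htr x H hnor hbig hfac
  rw [Cf.natCard_orbit] at hbig
  set D := Fintype.card Ω with hD
  set d := Cf.oc H x with hd
  have hDpos : 1 ≤ D := Fintype.card_pos_iff.2 ⟨x⟩
  have hstabG : (MulAction.stabilizer G x).index = D := by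
    rw [MulAction.index_stabilizer_of_transitive, Nat.card_eq_fintype_card]
  set V : Subgroup G := H ⊔ MulAction.stabilizer G x with hVdef
  have hHV : H ≤ V := le_sup_left
  have hSV : MulAction.stabilizer G x ≤ V := le_sup_right
  have hVn : ∀ g ∈ V, ∀ h ∈ H, g * h * g⁻¹ ∈ H := by
    have key : V ≤ Subgroup.normalizer (H : Set G) := by
      have key : ∀ U : Subgroup G, (∀ u ∈ U, ∀ a ∈ H, u * a * u⁻¹ ∈ H) →
          U ≤ Subgroup.normalizer (H : Set G) := by
        intro U hU u hu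
        rw [Subgroup.mem_normalizer_iff]
        intro a
        refine ⟨fun ha => hU u hu a ha, fun ha => ?_⟩
        have := hU u⁻¹ (U.inv_mem hu) _ ha
        simpa [mul_assoc] using this
      refine sup_le (key H ?_) (key _ hnor)
      intro u hu a ha
      exact H.mul_mem (H.mul_mem hu ha) (H.inv_mem hu)
    intro g hg h hh
    exact (Subgroup.mem_normalizer_iff.1 (key hg) h).1 hh
  have hVx : ∀ g ∈ V, g • x ∈ Cf.Ob H x := by
    have h1 : V ≤ Cf.st V H x hVn := by
      refine sup_le ?_ ?_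
      · intro h hh
        exact ⟨hHV hh, h, hh, rfl⟩
      · intro g hg
        refine ⟨hSV hg, ?_⟩
        rw [MulAction.mem_stabilizer_iff.1 hg]
        exact Cf.self_mem H x
    intro g hg
    exact (h1 hg).2
  set H' : Subgroup V := H.subgroupOf V with hH'
  have hH'n : H'.Normal := by
    constructor
    intro a ha g
    rw [hH', Subgroup.mem_subgroupOf] at ha ⊢
    exact hVn g g.2 a ha
  have hOb : Cf.Ob H' x = Cf.Ob H x := by
    ext z
    constructor
    · rintro ⟨u, hu, rfl⟩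
      exact ⟨u, Subgroup.mem_subgroupOf.1 hu, rfl⟩
    · rintro ⟨u, hu, rfl⟩
      exact ⟨⟨u, hHV hu⟩, Subgroup.mem_subgroupOf.2 hu, rfl⟩
  have hoc : Cf.oc H' x = d := by rw [Cf.oc, hOb, hd, Cf.oc]
  have hF' : FacH H' x (D ^ A) := by
    obtain ⟨l, L, h0, hl, hL⟩ := hfac
    have hmono : ∀ i ≤ l, L i ≤ H := by
      intro i hi
      rw [← hl]
      induction hi using Nat.decreasingInduction with
      | self => exact le_rfl
      | of_succ k hk ih => exact ((hL k hk).1).trans ih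
    refine ⟨l, fun i => (L i).subgroupOf V, ?_, ?_, ?_⟩
    · intro g hg h hh
      exact h0 g (Subgroup.mem_subgroupOf.1 hg) h (Subgroup.mem_subgroupOf.1 hh)
    · simp only [hl, hH']
    · intro i hi
      obtain ⟨h1, h2, h3⟩ := hL i hi
      refine ⟨?_, ?_, ?_⟩
      · intro a ha
        exact Subgroup.mem_subgroupOf.2 (h1 (Subgroup.mem_subgroupOf.1 ha))
      · intro a ha b hb
        exact Subgroup.mem_subgroupOf.2
          (h2 a (Subgroup.mem_subgroupOf.1 ha) b (Subgroup.mem_subgroupOf.1 hb))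
      · rcases h3 with h3 | h3
        · left
          intro a ha b hb
          exact Subgroup.mem_subgroupOf.2
            (h3 a (Subgroup.mem_subgroupOf.1 ha) b (Subgroup.mem_subgroupOf.1 hb))
        · right
          rwa [Subgroup.relIndex_subgroupOf ((hmono (i + 1) (by omega)).trans hHV)]
  obtain ⟨L, J, W, hLJ, hWL, hWJ, hWx, hJx, hLx, hWi, hidx⟩ :=
    Cf.struct2 (V := V) hH'n (x := x) (fun v => by rw [hOb]; exact hVx v v.2) hF' hR1
      (by rw [hoc]; exact hbig)
  obtain ⟨h, hind⟩ := Cf.cube_ind hGram hMod s (Cf.resH ρ V) f (fun g x => hf g x) hinj x J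
    (by rw [← hR]; exact hJx)
  have horb := Cf.cube_orb (L := L) (H := J) (W := W) (x := x) hLJ hWL hWJ
    (fun w hw => MulAction.mem_stabilizer_iff.1 (hWx hw)) (B := R) (by
      rintro z ⟨u, hu, rfl⟩
      rw [Cf.oc_smul hLJ hu]
      exact hLx) h
  obtain ⟨y, hy1, hy2, hy3⟩ := tuple_of_cube f x J h hind
  refine ⟨y, hy1, hy2, ?_⟩
  have hstabV : (MulAction.stabilizer V x).index = d := by
    rw [MulAction.index_stabilizer, ← hoc, Cf.oc]
    congr 1
    ext z
    rw [hOb]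
    constructor
    · rintro ⟨v, rfl⟩
      exact hVx v v.2
    · rintro ⟨u, hu, rfl⟩
      exact ⟨⟨u, hHV hu⟩, rfl⟩
  have hVD : V.index * d = D := by
    have h1 : (MulAction.stabilizer G x).relIndex V = d := hstabV
    rw [← h1, mul_comm, Subgroup.relIndex_mul_index hSV, hstabG]
  have hdD : d ≤ D := by
    rw [← hVD]
    exact Nat.le_mul_of_pos_left _ (Nat.pos_of_ne_zero Subgroup.FiniteIndex.index_ne_zero)
  have hWidx : W.index = W.relIndex (MulAction.stabilizer V x) * d := by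
    rw [← hstabV, Subgroup.relIndex_mul_index hWx]
  rw [hoc] at hidx hWi
  have hJL : L.relIndex J ≤ Q * D ^ (A + 1) := by
    have hp : 1 ≤ D ^ (A + 1) := Nat.one_le_pow _ _ hDpos
    rcases hidx with h1 | h1 | h1
    · calc L.relIndex J ≤ D := h1.trans hdD
        _ = D ^ 1 := (pow_one _).symm
        _ ≤ D ^ (A + 1) := Nat.pow_le_pow_right hDpos (by omega)
        _ ≤ Q * D ^ (A + 1) := Nat.le_mul_of_pos_left _ hQ1
    · calc L.relIndex J ≤ D ^ A := h1
        _ ≤ D ^ (A + 1) := Nat.pow_le_pow_right hDpos (by omega)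
        _ ≤ Q * D ^ (A + 1) := Nat.le_mul_of_pos_left _ hQ1
    · exact (h1.trans hQR).trans (Nat.le_mul_of_pos_right _ hp)
  have hmain : Nat.card (MulAction.orbit G y) ≤
      (Q ^ s * D ^ ((A + 1) * s + 3)) * R ^ 2 ^ s := by
    refine (Cf.orb_V y V).trans ?_
    rw [hy3]
    refine (Nat.mul_le_mul_left _ horb).trans ?_
    rw [hWidx, ← mul_assoc]
    refine Nat.mul_le_mul_right _ ?_
    calc V.index * ((L.relIndex J) ^ s * (W.relIndex (MulAction.stabilizer V x) * d)) =
        (V.index * d) * ((L.relIndex J) ^ s * W.relIndex (MulAction.stabilizer V x)) := by ring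
      _ = D * ((L.relIndex J) ^ s * W.relIndex (MulAction.stabilizer V x)) := by rw [hVD]
      _ ≤ D * ((Q * D ^ (A + 1)) ^ s * D ^ 2) := by
          refine Nat.mul_le_mul_left _ (Nat.mul_le_mul (Nat.pow_le_pow_left hJL s) ?_)
          exact hWi.trans (Nat.pow_le_pow_left hdD 2)
      _ = Q ^ s * D ^ ((A + 1) * s + 3) := by
          rw [mul_pow, ← pow_mul, pow_add]
          ring
  calc _ ≤ ((Q ^ s * D ^ ((A + 1) * s + 3)) * R ^ 2 ^ s) ^ 4 := Nat.pow_le_pow_left hmain 4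
    _ = (Q ^ s) ^ 4 * (R ^ 2 ^ s) ^ 4 * D ^ (4 * (A + 1) * s + 12) := by
        rw [mul_pow, mul_pow, ← pow_mul D]
        have h1 : ((A + 1) * s + 3) * 4 = 4 * (A + 1) * s + 12 := by ring
        rw [h1]
        ring
    _ ≤ (Q ^ s) ^ 4 * (R ^ 2 ^ s) ^ 4 * D ^ 2 ^ s :=
        Nat.mul_le_mul_left _ (Nat.pow_le_pow_right hDpos hs)

end Pool.DynLehmer.LE
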