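import Mathlib

set_option autoImplicit false

/-!
# The number of points modulo `p` of an elliptic curve over a finite field
-/

namespace Pool.DynLehmer.LE.Cnt
open scoped Classical

section sums

variable {F : Type} [Field F] [Fintype F]

theorem sum_pow_top : ∑ x : F, x ^ (Fintype.card F - 1) = -1 := by
  have h1 : 1 < Fintype.card F := Fintype.one_lt_card
  have h : ∀ x : F, x ^ (Fintype.card F - 1) = 1 - (if x = 0 then 1 else 0) := by
    intro x
    by_cases hx : x = 0
    · rw [if_pos hx, hx, zero_pow (by omega), sub_self]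
    · rw [if_neg hx, FiniteField.pow_card_sub_one_eq_one x hx, sub_zero]
  simp_rw [h]
  rw [Finset.sum_sub_distrib]
  simp

theorem sum_pow (i : ℕ) (h : i < 2 * (Fintype.card F - 1)) :
    ∑ x : F, x ^ i = if i = Fintype.card F - 1 then -1 else 0 := by
  have h1 : 1 < Fintype.card F := Fintype.one_lt_card
  by_cases h2 : i = Fintype.card F - 1
  · rw [if_pos h2, h2, sum_pow_top]
  rw [if_neg h2]
  by_cases h3 : i < Fintype.card F - 1
  · exact FiniteField.sum_pow_lt_card_sub_one F i h3
  · have h4 : ∀ x : F, x ^ i = x ^ (i - (Fintype.card F - 1)) := by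
      intro x
      by_cases hx : x = 0
      · rw [hx, zero_pow (by omega), zero_pow (by omega)]
      · conv_lhs => rw [show i = (i - (Fintype.card F - 1)) + (Fintype.card F - 1) by omega]
        rw [pow_add, FiniteField.pow_card_sub_one_eq_one x hx, mul_one]
    simp_rw [h4]
    exact FiniteField.sum_pow_lt_card_sub_one F _ (by omega)

theorem sum_eval (h : Polynomial F) (hd : h.natDegree < 2 * (Fintype.card F - 1)) :
    ∑ x : F, h.eval x = -h.coeff (Fintype.card F - 1) := by
  simp_rw [Polynomial.eval_eq_sum_range]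
  rw [Finset.sum_comm]
  have h1 : ∀ i ∈ Finset.range (h.natDegree + 1), ∑ x : F, h.coeff i * x ^ i =
      if i = Fintype.card F - 1 then -h.coeff (Fintype.card F - 1) else 0 := by
    intro i hi
    rw [← Finset.mul_sum, sum_pow i (by rw [Finset.mem_range] at hi; omega)]
    by_cases h2 : i = Fintype.card F - 1
    · rw [if_pos h2, if_pos h2, h2, mul_neg, mul_one]
    · rw [if_neg h2, if_neg h2, mul_zero]
  rw [Finset.sum_congr rfl h1, Finset.sum_ite_eq']
  by_cases h3 : Fintype.card F - 1 ∈ Finset.range (h.natDegree + 1)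
  · rw [if_pos h3]
  · rw [if_neg h3, Polynomial.coeff_eq_zero_of_natDegree_lt, neg_zero]
    rw [Finset.mem_range] at h3
    omega

theorem coeff_zero (p : ℕ) [hp : Fact p.Prime] [CharP F p] (h g : Polynomial F)
    (hg : g.natDegree < 2 * p - 1) (hA : g.coeff (p - 1) = 0) (m : ℕ) (hm : m % p = p - 1) :
    (h ^ p * g).coeff m = 0 := by
  have hp1 := hp.out.one_lt
  rw [Polynomial.coeff_mul]
  apply Finset.sum_eq_zero
  rintro ⟨u, w⟩ huw
  have huw' : u + w = m := Finset.HasAntidiagonal.mem_antidiagonal.mp huw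
  clear huw
  rename' huw' => huw
  simp only
  by_cases hu : p ∣ u
  · obtain ⟨u', rfl⟩ := hu
    have h1 : w % p = p - 1 := by
      rw [← hm, ← huw, Nat.add_mod, Nat.mul_mod_right, zero_add, Nat.mod_mod]
    by_cases h2 : w < 2 * p - 1
    · have h3 : w = p - 1 := by
        have h4 := Nat.div_add_mod w p
        rw [h1] at h4
        have h5 : w / p = 0 := by
          rw [Nat.div_eq_zero_iff]
          right
          by_contra h6
          have : 1 ≤ w / p := Nat.div_pos (by omega) (by omega)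
          have h8 : p * 1 ≤ p * (w / p) := Nat.mul_le_mul_left p this
          omega
        rw [h5] at h4
        omega
      rw [h3, hA, mul_zero]
    · rw [Polynomial.coeff_eq_zero_of_natDegree_lt (p := g) (by omega), mul_zero]
  · have h7 : (h ^ p).coeff u = 0 := by
      rw [← Polynomial.map_frobenius_expand p h, Polynomial.coeff_map,
        Polynomial.coeff_expand hp.out.pos, if_neg hu, map_zero]
    rw [h7, zero_mul]

end sums

section points

variable {F : Type} [Field F] [Fintype F] (W : WeierstrassCurve F) [W.IsElliptic]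
  (h1 : W.a₁ = 0) (h2 : W.a₂ = 0) (h3 : W.a₃ = 0)

/-- the cubic -/
noncomputable def cub {R : Type} [CommRing R] (a b : R) : Polynomial R :=
  Polynomial.X ^ 3 + Polynomial.C a * Polynomial.X + Polynomial.C b

theorem eval_cub {R : Type} [CommRing R] (a b x : R) : (cub a b).eval x = x ^ 3 + a * x + b := by
  simp [cub]

theorem natDegree_cub {R : Type} [CommRing R] (a b : R) : (cub a b).natDegree ≤ 3 := by
  rw [cub]
  compute_degree

include h1 h2 h3

theorem eqn (x y : F) : WeierstrassCurve.Affine.Equation W x y ↔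
    y ^ 2 = (cub W.a₄ W.a₆).eval x := by
  rw [WeierstrassCurve.Affine.equation_iff, h1, h2, h3, eval_cub]
  constructor
  · intro h; linear_combination h
  · intro h; linear_combination h

/-- the points -/
noncomputable def ptEquiv : WeierstrassCurve.Affine.Point W ≃
    Option {z : F × F // z.2 ^ 2 = (cub W.a₄ W.a₆).eval z.1} where
  toFun P := match P with
    | .zero => none
    | .some x y h => some ⟨(x, y), (eqn W h1 h2 h3 x y).mp h.1⟩
  invFun o := match o with
    | none => .zero
    | some z => .some z.1.1 z.1.2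
        (WeierstrassCurve.Affine.equation_iff_nonsingular.mp ((eqn W h1 h2 h3 _ _).mpr z.2))
  left_inv P := by cases P <;> rfl
  right_inv o := by cases o <;> rfl

theorem card_pt (hc : ringChar F ≠ 2) :
    ((Nat.card (WeierstrassCurve.Affine.Point W) : ℕ) : F) =
      1 + ∑ x : F, (cub W.a₄ W.a₆ ^ (Fintype.card F / 2)).eval x := by
  rw [Nat.card_congr (ptEquiv W h1 h2 h3), Nat.card_eq_fintype_card, Fintype.card_option]
  have e1 : Fintype.card {z : F × F // z.2 ^ 2 = (cub W.a₄ W.a₆).eval z.1} =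
      ∑ x : F, Fintype.card {y : F // y ^ 2 = (cub W.a₄ W.a₆).eval x} := by
    rw [← Fintype.card_sigma]
    exact Fintype.card_congr
      (Equiv.subtypeProdEquivSigmaSubtype fun x y => y ^ 2 = (cub W.a₄ W.a₆).eval x)
  rw [e1, Nat.cast_add, Nat.cast_one, add_comm, Nat.cast_sum]
  congr 1
  have e2 : ∀ x : F, ((Fintype.card {y : F // y ^ 2 = (cub W.a₄ W.a₆).eval x} : ℕ) : F) =
      (cub W.a₄ W.a₆ ^ (Fintype.card F / 2)).eval x + 1 := by
    intro x
    have h5 := quadraticChar_card_sqrts hc ((cub W.a₄ W.a₆).eval x)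
    have h6 : Fintype.card {y : F // y ^ 2 = (cub W.a₄ W.a₆).eval x} =
        ({y : F | y ^ 2 = (cub W.a₄ W.a₆).eval x}.toFinset).card := by
      rw [Set.toFinset_card]
      rfl
    rw [h6, Polynomial.eval_pow, ← quadraticChar_eq_pow_of_char_ne_two' hc]
    have h7 := congrArg (fun z : ℤ => (z : F)) h5
    simpa using h7
  simp_rw [e2]
  rw [Finset.sum_add_distrib]
  simp

theorem no_tors [DecidableEq F] (p : ℕ) [hp : Fact p.Prime] [hch : CharP F p] (hp2 : p ≠ 2)
    (hA : (cub W.a₄ W.a₆ ^ ((p - 1) / 2)).coeff (p - 1) = 0)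
    (P : WeierstrassCurve.Affine.Point W) (hP : p • P = 0) : P = 0 := by
  have hodd : p % 2 = 1 := Nat.odd_iff.mp (hp.out.odd_of_ne_two hp2)
  have hp1 := hp.out.one_lt
  have hc : ringChar F ≠ 2 := by
    rw [ringChar.eq F p]
    exact hp2
  obtain ⟨n, _, hn⟩ := FiniteField.card F p
  obtain ⟨m, hm⟩ : ∃ m : ℕ, (n : ℕ) = m + 1 := ⟨(n : ℕ) - 1, by have := n.pos; omega⟩
  have hq : Fintype.card F = p ^ (m + 1) := by rw [hn, hm]
  have hmo : p ^ m % 2 = 1 := Nat.odd_iff.mp ((hp.out.odd_of_ne_two hp2).pow)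
  have hexp : Fintype.card F / 2 = (p ^ m / 2) * p + (p - 1) / 2 := by
    have e1 : p ^ m = 2 * (p ^ m / 2) + 1 := by omega
    have e2 : p = 2 * ((p - 1) / 2) + 1 := by omega
    have e3 : p ^ (m + 1) = 2 * ((p ^ m / 2) * p + (p - 1) / 2) + 1 := by
      calc p ^ (m + 1) = p ^ m * p := pow_succ _ _
        _ = (2 * (p ^ m / 2) + 1) * p := by rw [← e1]
        _ = 2 * ((p ^ m / 2) * p) + p := by ring
        _ = 2 * ((p ^ m / 2) * p) + (2 * ((p - 1) / 2) + 1) := by rw [← e2]
        _ = _ := by ring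
    rw [hq, e3]
    omega
  have hd : ∀ j, (cub W.a₄ W.a₆ ^ j).natDegree ≤ 3 * j := by
    intro j
    calc (cub W.a₄ W.a₆ ^ j).natDegree ≤ j * (cub W.a₄ W.a₆).natDegree :=
          Polynomial.natDegree_pow_le
      _ ≤ j * 3 := Nat.mul_le_mul_left _ (natDegree_cub _ _)
      _ = _ := mul_comm _ _
  have hq1 : 1 < Fintype.card F := Fintype.one_lt_card
  have hqo : Fintype.card F % 2 = 1 := by
    rw [hq]
    exact Nat.odd_iff.mp ((hp.out.odd_of_ne_two hp2).pow)
  have hz : (cub W.a₄ W.a₆ ^ (Fintype.card F / 2)).coeff (Fintype.card F - 1) = 0 := by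
    rw [hexp, pow_add, pow_mul]
    apply coeff_zero p _ _ _ hA
    · rw [hq]
      have e4 : p ^ (m + 1) = p * (p ^ m) := by rw [pow_succ, mul_comm]
      have e5 : 1 ≤ p ^ m := Nat.one_le_pow _ _ hp.out.pos
      obtain ⟨s, hs⟩ : ∃ s, p ^ m = s + 1 := ⟨p ^ m - 1, by omega⟩
      have e6 : p ^ (m + 1) - 1 = p * s + (p - 1) := by
        rw [e4, hs, mul_add, mul_one]
        omega
      rw [e6, Nat.mul_add_mod, Nat.mod_eq_of_lt (by omega)]
    · have := hd ((p - 1) / 2)
      omega
  have hcard := card_pt W h1 h2 h3 hc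
  rw [sum_eval _ (by have := hd (Fintype.card F / 2); omega), hz, neg_zero, add_zero] at hcard
  have hnd : ¬ p ∣ Nat.card (WeierstrassCurve.Affine.Point W) := by
    intro h
    rw [(CharP.cast_eq_zero_iff F p _).mpr h] at hcard
    exact zero_ne_one hcard
  have hfin : Finite (WeierstrassCurve.Affine.Point W) :=
    Finite.of_equiv _ (ptEquiv W h1 h2 h3).symm
  have ho : addOrderOf P ∣ p := addOrderOf_dvd_of_nsmul_eq_zero hP
  have ho2 : addOrderOf P ∣ Nat.card (WeierstrassCurve.Affine.Point W) :=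
    addOrderOf_dvd_natCard P
  rcases (Nat.dvd_prime hp.out).mp ho with h | h
  · exact AddMonoid.addOrderOf_eq_one_iff.mp h
  · exact absurd (h ▸ ho2) hnd

end points

end Pool.DynLehmer.LE.Cnt
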