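import Pool.Agent.Lib.MP_2194ec_nt.LE.Super
import Pool.Agent.Lib.MP_2194ec_nt.LE.Cnt

set_option autoImplicit false

/-!
# Vanishing Hasse invariant gives purely inseparable reduction of the Lattes map
-/

namespace Pool.DynLehmer.LE
open NumberField Pool.DynLehmer Pool.DynLehmer.GS SupH
open scoped Classical

/-- The curve `y ^ 2 = x ^ 3 + a x + b` has good supersingular reduction at the place `v` over the
prime `p > 3`: `a` and `b` are integral, the discriminant is a unit, and the Hasse invariant, the
coefficient of `x ^ (p - 1)` in `(x ^ 3 + a x + b) ^ ((p - 1) / 2)`, reduces to `0`. -/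
structure HasseZ {K : Type} [Field K] [NumberField K] (p : ℕ) (v : FinitePlace K) (a b : K) :
    Prop where
  three : 3 < p
  above : v (p : K) < 1
  ia : v a ≤ 1
  ib : v b ≤ 1
  disc : v (4 * a ^ 3 + 27 * b ^ 2) = 1
  hasse : v (((Polynomial.X ^ 3 + Polynomial.C a * Polynomial.X + Polynomial.C b) ^
    ((p - 1) / 2)).coeff (p - 1)) < 1

/-- Row HASSE. -/
def HasseStatement : Prop :=
  ∀ (K : Type) [Field K] [NumberField K] (p : ℕ) (v : FinitePlace K) (a b : K), p.Prime →
    HasseZ p v a b → ∃ F : Fin 2 → MvPolynomial (Fin 2) K, HypR p 2 v F ∧ IsLat a b p F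

theorem cub_map {R S : Type} [CommRing R] [CommRing S] (f : R →+* S) (a b : R) (m j : ℕ) :
    ((Cnt.cub (f a) (f b)) ^ m).coeff j = f (((Cnt.cub a b) ^ m).coeff j) := by
  have h : (Cnt.cub (f a) (f b)) = (Cnt.cub a b).map f := by
    simp [Cnt.cub]
  rw [h, ← Polynomial.map_pow, Polynomial.coeff_map]

theorem tors_alg {κ k : Type} [Field κ] [Finite κ] [Field k] [Algebra κ k]
    [Algebra.IsAlgebraic κ k] (p : ℕ) [hp : Fact p.Prime] [hch : CharP κ p] (hp2 : p ≠ 2)
    (α β : κ) (hell : (Wr α β).IsElliptic)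
    (hA : ((Cnt.cub α β) ^ ((p - 1) / 2)).coeff (p - 1) = 0)
    (P : WeierstrassCurve.Affine.Point ((Wr α β).baseChange k)) (hP : p • P = 0) : P = 0 := by
  cases P with
  | zero => rfl
  | some x y h =>
    exfalso
    let L : IntermediateField κ k := IntermediateField.adjoin κ {x, y}
    have hfd : FiniteDimensional κ L := by
      apply IntermediateField.finiteDimensional_adjoin
      intro s _
      exact (Algebra.IsAlgebraic.isAlgebraic s).isIntegral
    have hfin : Finite L := Module.finite_of_finite κ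
    have hft : Fintype L := Fintype.ofFinite L
    have hchL : CharP L p := charP_of_injective_algebraMap (algebraMap κ L).injective p
    let f : L →ₐ[κ] k := L.val
    have hx : x ∈ L := IntermediateField.subset_adjoin κ {x, y} (by simp)
    have hy : y ∈ L := IntermediateField.subset_adjoin κ {x, y} (by simp)
    let x0 : L := ⟨x, hx⟩
    let y0 : L := ⟨y, hy⟩
    have h0 : WeierstrassCurve.Affine.Nonsingular ((Wr α β).baseChange L) x0 y0 :=
      ((Wr α β).toAffine.baseChange_nonsingular (f := f) f.injective x0 y0).mp h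
    let P0 : WeierstrassCurve.Affine.Point ((Wr α β).baseChange L) := .some x0 y0 h0
    have e1 : WeierstrassCurve.Affine.Point.map (W' := (Wr α β)) f P0 =
        (.some x y h : WeierstrassCurve.Affine.Point ((Wr α β).baseChange k)) := rfl
    have e2 : p • P0 = 0 := by
      apply WeierstrassCurve.Affine.Point.map_injective (W' := (Wr α β)) (f := f)
      rw [map_nsmul, e1, hP, map_zero]
    have hell2 : ((Wr α β).baseChange L).IsElliptic :=
      inferInstanceAs (((Wr α β).map (algebraMap κ L)).IsElliptic)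
    have e3 : P0 = 0 := by
      apply Cnt.no_tors ((Wr α β).baseChange L) (by simp [Wr, WeierstrassCurve.baseChange])
        (by simp [Wr, WeierstrassCurve.baseChange]) (by simp [Wr, WeierstrassCurve.baseChange])
        p hp2 _ P0 e2
      have e4 : ((Wr α β).baseChange L).a₄ = algebraMap κ L α := by
        simp [Wr, WeierstrassCurve.baseChange]
      have e6 : ((Wr α β).baseChange L).a₆ = algebraMap κ L β := by
        simp [Wr, WeierstrassCurve.baseChange]
      rw [e4, e6, cub_map, hA, map_zero]
    exact absurd e3 (by simp [P0])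

theorem hasse (hA : AddsubStatement) : HasseStatement := by
  intro K _ _ p v a b hp hS
  have hfp : Fact p.Prime := ⟨hp⟩
  obtain ⟨hr, hch⟩ := res_spec v p hp hS.above
  refine super_core hA hp hS.three hS.above hS.ia hS.ib hS.disc (ResC v) (res v) hr ?_
  set a' : OW v := ⟨a, hS.ia⟩ with ha'
  set b' : OW v := ⟨b, hS.ib⟩ with hb'
  let κ := IsLocalRing.ResidueField (OW v)
  let ρ : OW v →+* κ := IsLocalRing.residue (OW v)
  have hfinκ : Finite κ := by
    have h1 : MW v = IsLocalRing.maximalIdeal (OW v) := by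
      ext x
      rw [mem_MW, ← residue_zero, IsLocalRing.residue_eq_zero_iff]
    have h2 := finite_res v
    rw [h1] at h2
    exact h2
  have hchκ : CharP κ p := charP_of v p hp hS.above κ ρ (residue_zero v)
  have hA' : ((Cnt.cub (ρ a') (ρ b')) ^ ((p - 1) / 2)).coeff (p - 1) = 0 := by
    rw [cub_map]
    rw [residue_zero]
    have h3 := cub_map (OW v).subtype a' b' ((p - 1) / 2) (p - 1)
    have h4 : ((((Cnt.cub a' b') ^ ((p - 1) / 2)).coeff (p - 1) : OW v) : K) =
        ((Cnt.cub a b) ^ ((p - 1) / 2)).coeff (p - 1) := h3.symm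
    rw [h4]
    exact hS.hasse
  have hell : (Wr (ρ a') (ρ b')).IsElliptic := by
    refine ⟨?_⟩
    rw [Wr_disc, isUnit_iff_ne_zero, neg_ne_zero]
    have h2 := two v p hp hS.three hS.above
    have h5 : ρ (2 ^ 4 * (4 * a' ^ 3 + 27 * b' ^ 2)) ≠ 0 := by
      rw [Ne, residue_zero, not_lt]
      have c2 : ((2 : OW v) : K) = 2 := map_ofNat (OW v).subtype 2
      have c4 : ((4 : OW v) : K) = 4 := map_ofNat (OW v).subtype 4
      have c27 : ((27 : OW v) : K) = 27 := map_ofNat (OW v).subtype 27
      push_cast
      rw [c2, c4, c27, map_mul, map_pow, h2, one_pow, one_mul]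
      exact hS.disc.ge
    intro h6
    apply h5
    rw [← h6]
    have r2 : ρ 2 = 2 := map_ofNat ρ 2
    have r4 : ρ 4 = 4 := map_ofNat ρ 4
    have r27 : ρ 27 = 27 := map_ofNat ρ 27
    rw [map_mul, map_pow, map_add, map_mul, map_mul, map_pow, map_pow, r2, r4, r27]
  have key : ∀ W' : WeierstrassCurve (ResC v), W' = (Wr (ρ a') (ρ b')).baseChange (ResC v) →
      ∀ P : WeierstrassCurve.Affine.Point W', p • P = 0 → P = 0 := by
    rintro W' rfl
    exact tors_alg p (by have := hS.three; omega) (ρ a') (ρ b') hell hA'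
  apply key
  ext <;> simp [Wr, Ws, WeierstrassCurve.baseChange, res, ρ] <;> rfl

end Pool.DynLehmer.LE
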