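import Pool.Agent.Lib.MP_2194ec_nt.LE.Defs

set_option autoImplicit false
set_option linter.unusedSectionVars false

/-!
# Row K2: the multiplier of a correspondence of an elliptic curve without complex multiplication
-/

namespace Pool.DynLehmer.LE
open MvPolynomial NumberField Filter Topology Pool.DynLehmer Pool.DynLehmer.SB Pool.DynLehmer.SP
  Pool.DynLehmer.GS Pool.DynLehmer.LP Pool.DynLehmer.LW
open scoped Classical

namespace K2aux

section deriv

variable {C L : Type} [Field C] [CharZero C] [Field L] [Algebra C L]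

/-- a derivation which vanishes at `x` vanishes on `C(x)` -/
theorem van_adjoin (D : Derivation C L L) {x : L} (hx : D x = 0) {z : L}
    (hz : z ∈ IntermediateField.adjoin C {x}) : D z = 0 := by
  obtain ⟨r, s, rfl⟩ := (IntermediateField.mem_adjoin_simple_iff C z).1 hz
  rw [Derivation.leibniz_div, Derivation.map_aeval, Derivation.map_aeval, hx]
  simp

/-- a derivation which vanishes at `x` vanishes on the algebraic closure of `C(x)` -/
theorem van_alg (D : Derivation C L L) {x : L} (hx : D x = 0)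
    (hL : Algebra.IsAlgebraic (IntermediateField.adjoin C {x}) L) (z : L) : D z = 0 := by
  set F := IntermediateField.adjoin C {x} with hF
  have hv : ∀ w : F, D (w : L) = 0 := fun w => van_adjoin D hx w.2
  let D' : Derivation F L L := Derivation.mk'
    { toFun := D
      map_add' := D.map_add
      map_smul' := by
        intro w z
        rw [Algebra.smul_def, Derivation.leibniz]
        have h1 : D (algebraMap F L w) = 0 := hv w
        rw [h1, smul_zero, add_zero, RingHom.id_apply, Algebra.smul_def (w : F) (D z), smul_eq_mul] }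
    (by
      intro u w
      exact D.leibniz u w)
  have hint : IsIntegral F z := (hL.isAlgebraic z).isIntegral
  have hsep : (minpoly F z).Separable := (minpoly.irreducible hint).separable
  have h1 : D' (Polynomial.aeval z (minpoly F z)) =
      Polynomial.aeval z (Polynomial.derivative (minpoly F z)) • D' z := D'.map_aeval _ _
  rw [minpoly.aeval, map_zero, smul_eq_mul] at h1
  have h2 : Polynomial.aeval z (Polynomial.derivative (minpoly F z)) ≠ 0 :=
    hsep.aeval_derivative_ne_zero (minpoly.aeval F z)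
  rcases mul_eq_zero.1 h1.symm with h3 | h3
  · exact absurd h3 h2
  · exact h3

/-- the conjugate of a derivation -/
noncomputable def cjD (σ : L ≃ₐ[C] L) (D : Derivation C L L) : Derivation C L L :=
  Derivation.mk' (σ.toLinearMap ∘ₗ (D : L →ₗ[C] L) ∘ₗ σ.symm.toLinearMap) (by
    intro u w
    simp [Derivation.leibniz])

theorem cjD_apply (σ : L ≃ₐ[C] L) (D : Derivation C L L) (z : L) :
    cjD σ D (σ z) = σ (D z) := by
  change σ (D (σ.symm (σ z))) = σ (D z)
  rw [AlgEquiv.symm_apply_apply]

/-- an automorphism which maps `D x` to `ε D x` anticommutes or commutes with `D` -/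
theorem comm_D (σ : L ≃ₐ[C] L) (D : Derivation C L L) {x : L} (hσ : σ x = x)
    (hL : Algebra.IsAlgebraic (IntermediateField.adjoin C {x}) L) {ε : C}
    (h : σ (D x) = algebraMap C L ε * D x) (z : L) : σ (D z) = algebraMap C L ε * D (σ z) := by
  have h1 : (cjD σ D - ε • D) (σ z) = 0 := by
    apply van_alg (cjD σ D - ε • D) (x := x) _ hL
    rw [Derivation.sub_apply, Derivation.smul_apply]
    have h2 := cjD_apply σ D x
    rw [hσ] at h2
    rw [h2, h, Algebra.smul_def, sub_self]
  rw [Derivation.sub_apply, Derivation.smul_apply, cjD_apply, sub_eq_zero, Algebra.smul_def] at h1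
  exact h1

end deriv

section pts

variable {K : Type} [Field K] {a b : K} {L : Type} [Field L] [Algebra K L]

theorem xc_pm {M : Type} [Field M] [Algebra K M] (f : L →ₐ[K] M) (R : Ept a b L) :
    xc (pm f R) = f (xc R) := by
  rcases R with _ | ⟨X, Y, h⟩
  · change (0 : M) = f 0
    rw [map_zero]
  · rfl

theorem xc_neg (R : Ept a b L) : xc (-R) = xc R := by
  rcases R with _ | ⟨X, Y, h⟩
  · rfl
  · rfl

theorem pm_comp {M N : Type} [Field M] [Algebra K M] [Field N] [Algebra K N] (f : L →ₐ[K] M)
    (g : M →ₐ[K] N) (R : Ept a b L) : pm g (pm f R) = pm (g.comp f) R := by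
  rcases R with _ | ⟨X, Y, h⟩
  · rfl
  · rfl

/-- the equation of a point -/
theorem eqn {X Y : L} (h : ((Ws a b).baseChange L).toAffine.Nonsingular X Y) :
    Y ^ 2 = X ^ 3 + algebraMap K L a * X + algebraMap K L b := by
  have h1 := (WeierstrassCurve.Affine.equation_iff _ _).1 h.1
  simpa [Ws, WeierstrassCurve.baseChange] using h1

variable {C : Type} [Field C] [Algebra K C] [Algebra C L] [IsScalarTower K C L]
  {F : IntermediateField C L}

/-- an automorphism over `F` as a homomorphism over `K` -/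
noncomputable def kk (σ : L ≃ₐ[F] L) : L →ₐ[K] L :=
  ((σ : L →ₐ[F] L).restrictScalars C).restrictScalars K

theorem kk_apply (σ : L ≃ₐ[F] L) (z : L) : kk (K := K) σ z = σ z := rfl

/-- the action twisted by the sign of `y` -/
noncomputable def ac (y : L) (σ : L ≃ₐ[F] L) : Ept a b L →+ Ept a b L :=
  if σ y = y then pm (kk σ) else -(pm (kk σ))

theorem xc_ac (y : L) (σ : L ≃ₐ[F] L) (R : Ept a b L) : xc (ac y σ R) = σ (xc R) := by
  unfold ac
  split_ifs with h
  · rw [xc_pm, kk_apply]
  · rw [AddMonoidHom.neg_apply, xc_neg, xc_pm, kk_apply]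

theorem ac_mul {y : L} (hy : y ≠ -y) (hy2 : ∀ σ : L ≃ₐ[F] L, σ y = y ∨ σ y = -y)
    (σ τ : L ≃ₐ[F] L) (R : Ept a b L) : ac y (σ * τ) R = ac y σ (ac y τ R) := by
  have h0 : pm (kk (K := K) (σ * τ)) R = pm (kk σ) (pm (kk τ) R) := by
    rw [pm_comp]
    rfl
  unfold ac
  rcases hy2 σ with hσ | hσ <;> rcases hy2 τ with hτ | hτ
  · have h1 : (σ * τ) y = y := by rw [AlgEquiv.mul_apply, hτ, hσ]
    rw [if_pos h1, if_pos hσ, if_pos hτ, h0]
  · have h1 : ¬ (σ * τ) y = y := by
      rw [AlgEquiv.mul_apply, hτ, map_neg, hσ]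
      exact fun h => hy h.symm
    have h2 : ¬ τ y = y := by
      rw [hτ]
      exact fun h => hy h.symm
    rw [if_neg h1, if_pos hσ, if_neg h2, AddMonoidHom.neg_apply, AddMonoidHom.neg_apply, map_neg,
      h0]
  · have h1 : ¬ (σ * τ) y = y := by
      rw [AlgEquiv.mul_apply, hτ, hσ]
      exact fun h => hy h.symm
    have h2 : ¬ σ y = y := by
      rw [hσ]
      exact fun h => hy h.symm
    rw [if_neg h1, if_neg h2, if_pos hτ, AddMonoidHom.neg_apply, AddMonoidHom.neg_apply, h0]
  · have h1 : (σ * τ) y = y := by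
      rw [AlgEquiv.mul_apply, hτ, map_neg, hσ, neg_neg]
    have h2 : ¬ σ y = y := by
      rw [hσ]
      exact fun h => hy h.symm
    have h3 : ¬ τ y = y := by
      rw [hτ]
      exact fun h => hy h.symm
    rw [if_pos h1, if_neg h2, if_neg h3, AddMonoidHom.neg_apply, AddMonoidHom.neg_apply, map_neg,
      neg_neg, h0]

theorem fin_orb (hL : Algebra.IsAlgebraic F L) (z : L) :
    (Set.range fun σ : L ≃ₐ[F] L => σ z).Finite := by
  refine (Polynomial.rootSet_finite (minpoly F z) L).subset ?_
  rintro _ ⟨σ, rfl⟩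
  rw [Polynomial.mem_rootSet]
  refine ⟨minpoly.ne_zero (hL.isAlgebraic z).isIntegral, ?_⟩
  have h1 : Polynomial.aeval (σ z) (minpoly F z) = σ (Polynomial.aeval z (minpoly F z)) :=
    Polynomial.aeval_algHom_apply (σ : L →ₐ[F] L) z (minpoly F z)
  rw [h1, minpoly.aeval, map_zero]

theorem fin_ac (hL : Algebra.IsAlgebraic F L) (y : L) (R : Ept a b L) :
    (Set.range fun σ : L ≃ₐ[F] L => ac y σ R).Finite := by
  rcases R with _ | ⟨X, Y, h⟩
  · refine (Set.finite_singleton (0 : Ept a b L)).subset ?_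
    rintro _ ⟨σ, rfl⟩
    exact map_zero (ac y σ)
  · let T : (L ≃ₐ[F] L) → L × L × L := fun σ => (σ X, σ Y, σ y)
    have hT : (Set.range T).Finite := by
      refine ((fin_orb hL X).prod ((fin_orb hL Y).prod (fin_orb hL y))).subset ?_
      rintro _ ⟨σ, rfl⟩
      exact ⟨⟨σ, rfl⟩, ⟨σ, rfl⟩, ⟨σ, rfl⟩⟩
    refine (hT.image fun t => ac y (Function.invFun T t)
      (WeierstrassCurve.Affine.Point.some X Y h : Ept a b L)).subset ?_
    rintro _ ⟨σ, rfl⟩
    refine ⟨T σ, ⟨σ, rfl⟩, ?_⟩
    have h1 : T (Function.invFun T (T σ)) = T σ := Function.invFun_eq ⟨σ, rfl⟩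
    obtain ⟨τ, hτ⟩ : ∃ τ, τ = Function.invFun T (T σ) := ⟨_, rfl⟩
    rw [← hτ] at h1
    change ac y (Function.invFun T (T σ)) _ = ac y σ _
    rw [← hτ]
    have e1 : τ X = σ X := congrArg Prod.fst h1
    have e2 : τ Y = σ Y := congrArg (fun t => t.2.1) h1
    have e3 : τ y = σ y := congrArg (fun t => t.2.2) h1
    have e4 : pm (kk (K := K) τ) (WeierstrassCurve.Affine.Point.some X Y h : Ept a b L) =
        pm (kk σ) (WeierstrassCurve.Affine.Point.some X Y h : Ept a b L) := by
      unfold pm
      rw [WeierstrassCurve.Affine.Point.map_some, WeierstrassCurve.Affine.Point.map_some]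
      congr 1
    unfold ac
    rw [e3]
    split_ifs
    · exact e4
    · rw [AddMonoidHom.neg_apply, AddMonoidHom.neg_apply, e4]

end pts

end K2aux

open K2aux

/-- Row K2. -/
theorem k2 (hO : OmaddStatement) : K2Statement := by
  intro K _ _ a b hab hCM C L _ _ _ _ _ _ _ _ D P₁ P g htr halg h1 hg
  have hchC : CharZero C := charZero_of_injective_algebraMap (algebraMap K C).injective
  have hchL : CharZero L := charZero_of_injective_algebraMap (algebraMap C L).injective
  -- the first point
  rcases P₁ with _ | ⟨x, y, hxy⟩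
  · exact absurd (isAlgebraic_zero (R := C) (A := L)) htr
  change Transcendental C x at htr
  change Algebra.IsAlgebraic (IntermediateField.adjoin C {x}) L at halg
  change D x / (2 * y) = 1 at h1
  have h2y : 2 * y ≠ 0 := by
    intro h0
    rw [h0, div_zero] at h1
    exact zero_ne_one h1
  have hDx : D x = 2 * y := by
    rw [div_eq_one_iff_eq h2y] at h1
    exact h1
  have hy0 : y ≠ 0 := fun h0 => h2y (by rw [h0, mul_zero])
  have hyn : y ≠ -y := by
    intro h0
    apply h2y
    linear_combination h0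
  have hyy := eqn hxy
  -- the second point
  rcases P with _ | ⟨X, Y, hXY⟩
  · refine ⟨0, ?_⟩
    have h2 : (0 : L) = algebraMap C L g := hg
    have h3 : g = 0 := (map_eq_zero (algebraMap C L)).1 h2.symm
    rw [h3, Rat.cast_zero]
  by_cases hg0 : g = 0
  · exact ⟨0, by rw [hg0, Rat.cast_zero]⟩
  change D X / (2 * Y) = algebraMap C L g at hg
  set F := IntermediateField.adjoin C {x} with hF
  have hxF : x ∈ F := IntermediateField.mem_adjoin_simple_self C x
  have hσx : ∀ σ : L ≃ₐ[F] L, σ x = x := fun σ => σ.commutes ⟨x, hxF⟩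
  have hσC : ∀ (σ : L ≃ₐ[F] L) (c : C), σ (algebraMap C L c) = algebraMap C L c := fun σ c =>
    (σ.restrictScalars C).commutes c
  have hσK : ∀ (σ : L ≃ₐ[F] L) (c : K), σ (algebraMap K L c) = algebraMap K L c := by
    intro σ c
    rw [IsScalarTower.algebraMap_apply K C L]
    exact hσC σ _
  have hσy : ∀ σ : L ≃ₐ[F] L, σ y = y ∨ σ y = -y := by
    intro σ
    rw [← sq_eq_sq_iff_eq_or_eq_neg, ← map_pow, hyy, map_add, map_add, map_mul, map_pow, hσx,
      hσK, hσK]
  -- the conjugates
  set P : Ept a b L := WeierstrassCurve.Affine.Point.some X Y hXY with hP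
  have hom : ∀ σ : L ≃ₐ[F] L, om D (ac y σ P) = algebraMap C L g := by
    intro σ
    have hpm : om D (pm (kk (K := K) σ) P) = D (σ X) / (2 * σ Y) := rfl
    have hσg : σ (D X) / (2 * σ Y) = algebraMap C L g := by
      rw [← hσC σ g, ← hg, map_div₀, map_mul]
      have : σ (2 : L) = 2 := map_ofNat σ 2
      rw [this]
    rcases hσy σ with h2 | h2
    · have h3 := comm_D (σ.restrictScalars C) D (x := x) (hσx σ) halg (ε := 1) (by
        rw [hDx, map_one, one_mul]
        change σ (2 * y) = 2 * y
        rw [map_mul, h2]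
        have : σ (2 : L) = 2 := map_ofNat σ 2
        rw [this]) X
      have h4 : σ (D X) = D (σ X) := by
        rw [map_one, one_mul] at h3
        exact h3
      unfold ac
      rw [if_pos h2, hpm, ← h4]
      exact hσg
    · have h3 := comm_D (σ.restrictScalars C) D (x := x) (hσx σ) halg (ε := -1) (by
        rw [hDx, map_neg, map_one]
        change σ (2 * y) = -1 * (2 * y)
        rw [map_mul, h2]
        have : σ (2 : L) = 2 := map_ofNat σ 2
        rw [this]
        ring) X
      have h4 : σ (D X) = -D (σ X) := by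
        rw [map_neg, map_one, neg_one_mul] at h3
        exact h3
      have h5 : ¬ σ y = y := by
        rw [h2]
        exact fun h => hyn h.symm
      unfold ac
      rw [if_neg h5, AddMonoidHom.neg_apply]
      have h6 : om D (-(pm (kk (K := K) σ) P)) = -om D (pm (kk (K := K) σ) P) :=
        map_neg (AddMonoidHom.mk' (om D) (hO K a b hab C L D)) (pm (kk (K := K) σ) P)
      rw [h6, hpm, ← hσg, h4, neg_div]
  have hfin : (Set.range fun σ : L ≃ₐ[F] L => ac (a := a) (b := b) y σ P).Finite :=
    fin_ac halg y P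
  obtain ⟨S, hS⟩ : ∃ S : Finset (Ept a b L), S = hfin.toFinset := ⟨_, rfl⟩
  have hmem : ∀ R, R ∈ S ↔ ∃ σ : L ≃ₐ[F] L, ac y σ P = R := by
    intro R
    rw [hS, Set.Finite.mem_toFinset]
    rfl
  have hne : S.Nonempty := ⟨ac y 1 P, (hmem _).2 ⟨1, rfl⟩⟩
  have hcard : S.card ≠ 0 := (Finset.card_pos.2 hne).ne'
  obtain ⟨Q, hQ⟩ : ∃ Q : Ept a b L, Q = ∑ R ∈ S, R := ⟨_, rfl⟩
  have hQσ : ∀ τ : L ≃ₐ[F] L, ac y τ Q = Q := by
    intro τ
    rw [hQ, map_sum]
    refine Finset.sum_nbij' (fun R => ac y τ R) (fun R => ac y τ⁻¹ R) ?_ ?_ ?_ ?_ ?_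
    · intro R hR
      obtain ⟨σ, rfl⟩ := (hmem R).1 hR
      rw [← ac_mul hyn hσy]
      exact (hmem _).2 ⟨τ * σ, rfl⟩
    · intro R hR
      obtain ⟨σ, rfl⟩ := (hmem R).1 hR
      rw [← ac_mul hyn hσy]
      exact (hmem _).2 ⟨τ⁻¹ * σ, rfl⟩
    · intro R hR
      obtain ⟨σ, rfl⟩ := (hmem R).1 hR
      rw [← ac_mul hyn hσy, ← ac_mul hyn hσy, inv_mul_cancel, one_mul]
    · intro R hR
      obtain ⟨σ, rfl⟩ := (hmem R).1 hR
      rw [← ac_mul hyn hσy, ← ac_mul hyn hσy, mul_inv_cancel, one_mul]
    · intro R _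
      rfl
  have hQom : om D Q = algebraMap C L (S.card * g) := by
    have h2 : om D Q = ∑ R ∈ S, om D R := by
      rw [hQ]
      exact map_sum (AddMonoidHom.mk' (om D) (hO K a b hab C L D)) _ _
    rw [h2, Finset.sum_congr rfl (g := fun _ => algebraMap C L g), Finset.sum_const, nsmul_eq_mul,
      map_mul, map_natCast]
    intro R hR
    obtain ⟨σ, rfl⟩ := (hmem R).1 hR
    exact hom σ
  have hng : (S.card : C) * g ≠ 0 := mul_ne_zero (Nat.cast_ne_zero.2 hcard) hg0
  obtain ⟨c₀, hc₀⟩ : ∃ c₀ : C, c₀ = (S.card : C) * g := ⟨_, rfl⟩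
  rw [← hc₀] at hQom hng
  -- the sum is not zero
  rcases Q with _ | ⟨U, V, hUV⟩
  · have h2 : (0 : L) = algebraMap C L c₀ := hQom
    exact absurd ((map_eq_zero (algebraMap C L)).1 h2.symm) hng
  change D U / (2 * V) = algebraMap C L c₀ at hQom
  have hng' : algebraMap C L c₀ ≠ 0 := fun h => hng ((map_eq_zero (algebraMap C L)).1 h)
  have h2V : 2 * V ≠ 0 := by
    intro h0
    rw [h0, div_zero] at hQom
    exact hng' hQom.symm
  have hDU : D U = algebraMap C L c₀ * (2 * V) := by
    rw [div_eq_iff h2V] at hQom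
    exact hQom
  have hDU0 : D U ≠ 0 := by
    rw [hDU]
    exact mul_ne_zero hng' h2V
  have hVV := eqn hUV
  -- the first coordinate is rational
  have hUσ : ∀ σ : L ≃ₐ[F] L, σ U = U := by
    intro σ
    have h2 := congrArg xc (hQσ σ)
    rw [xc_ac] at h2
    exact h2
  have hgal : IsGalois F L := by
    have hacl : IsAlgClosure F L := ⟨inferInstance, halg⟩
    have hn : Normal F L := IsAlgClosure.normal F L
    exact IsGalois.mk
  have hUF : U ∈ F := by
    obtain ⟨w, hw⟩ := (InfiniteGalois.mem_range_algebraMap_iff_fixed U).2 hUσ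
    rw [← hw]
    exact w.2
  obtain ⟨r, s, hrs⟩ := (IntermediateField.mem_adjoin_simple_iff C U).1 hUF
  have hs0 : Polynomial.aeval x s ≠ 0 := by
    intro h0
    rw [h0, div_zero] at hrs
    rw [hrs, map_zero] at hDU0
    exact hDU0 rfl
  have hDrs : D U * (Polynomial.aeval x s) ^ 2 =
      (Polynomial.aeval x (Polynomial.derivative r) * Polynomial.aeval x s -
        Polynomial.aeval x r * Polynomial.aeval x (Polynomial.derivative s)) * (2 * y) := by
    rw [hrs, Derivation.leibniz_div, Derivation.map_aeval, Derivation.map_aeval, hDx]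
    simp only [smul_eq_mul]
    field_simp
  have hs : s ≠ 0 := by
    rintro rfl
    exact hs0 (map_zero _)
  have hid : (Polynomial.X ^ 3 + Polynomial.C (algebraMap K C a) * Polynomial.X +
        Polynomial.C (algebraMap K C b)) *
      (Polynomial.derivative r * s - r * Polynomial.derivative s) ^ 2 =
      Polynomial.C (c₀ ^ 2) * s * (r ^ 3 +
        Polynomial.C (algebraMap K C a) * r * s ^ 2 + Polynomial.C (algebraMap K C b) * s ^ 3) := by
    rw [← sub_eq_zero]
    refine (transcendental_iff.1 htr) _ ?_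
    simp only [map_sub, map_mul, map_add, map_pow, Polynomial.aeval_X, Polynomial.aeval_C]
    rw [← IsScalarTower.algebraMap_apply K C L, ← IsScalarTower.algebraMap_apply K C L]
    have e1 : (Polynomial.aeval x (Polynomial.derivative r) * Polynomial.aeval x s -
        Polynomial.aeval x r * Polynomial.aeval x (Polynomial.derivative s)) * y =
        algebraMap C L c₀ * V * (Polynomial.aeval x s) ^ 2 := by
      have h2 : (2 : L) ≠ 0 := two_ne_zero
      apply mul_left_cancel₀ h2
      rw [hDU] at hDrs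
      linear_combination -hDrs
    have e2 : V ^ 2 * (Polynomial.aeval x s) ^ 3 = (Polynomial.aeval x r) ^ 3 +
        algebraMap K L a * Polynomial.aeval x r * (Polynomial.aeval x s) ^ 2 +
        algebraMap K L b * (Polynomial.aeval x s) ^ 3 := by
      rw [hVV, hrs]
      field_simp
    linear_combination (-((Polynomial.aeval x (Polynomial.derivative r) * Polynomial.aeval x s -
        Polynomial.aeval x r * Polynomial.aeval x (Polynomial.derivative s)) ^ 2)) * hyy +
      ((Polynomial.aeval x (Polynomial.derivative r) * Polynomial.aeval x s -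
        Polynomial.aeval x r * Polynomial.aeval x (Polynomial.derivative s)) * y +
        algebraMap C L c₀ * V * (Polynomial.aeval x s) ^ 2) * e1 +
      (algebraMap C L c₀) ^ 2 * Polynomial.aeval x s * e2
  obtain ⟨n, hn⟩ := hCM C r s c₀ hs (by
    intro h0
    have h2 := congrArg (Polynomial.aeval x) h0
    rw [map_sub, map_mul, map_mul, map_zero] at h2
    rw [h2, zero_mul] at hDrs
    exact hDU0 ((mul_eq_zero.1 hDrs).resolve_right (pow_ne_zero _ hs0))) hid
  refine ⟨(n : ℚ) / (S.card : ℚ), ?_⟩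
  have h3 : (S.card : C) ≠ 0 := Nat.cast_ne_zero.2 hcard
  rw [Rat.cast_div, Rat.cast_intCast, Rat.cast_natCast, ← hn, hc₀, mul_div_cancel_left₀ _ h3]

end Pool.DynLehmer.LE
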