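import Pool.Agent.Lib.MP_2194ec_nt.LE.DefsU
import Pool.Agent.Lib.MP_2194ec_nt.LE.K2

set_option autoImplicit false
set_option linter.unusedSectionVars false

/-!
# Row K2U: the multiplier of a correspondence of an elliptic curve
-/

namespace Pool.DynLehmer.LE
open MvPolynomial NumberField Filter Topology Pool.DynLehmer Pool.DynLehmer.SB Pool.DynLehmer.SP
  Pool.DynLehmer.GS Pool.DynLehmer.LP Pool.DynLehmer.LW
open scoped Classical

open K2aux

/-- Row K2U. -/
theorem k2u (hO : OmaddStatement) (hM : MultStatement) : K2uStatement := by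
  intro K _ _ a b hab C _ _ _
  obtain ⟨θ, hCM⟩ := hM K a b hab C
  refine ⟨θ, ?_⟩
  intro L _ _ _ _ _ D P₁ P g htr halg h1 hg
  have hchC : CharZero C := charZero_of_injective_algebraMap (algebraMap K C).injective
  have hchL : CharZero L := charZero_of_injective_algebraMap (algebraMap C L).injective
  -- the first point
  rcases P₁ with _ | ⟨x, y, hxy⟩
  · exact absurd (isAlgebraic_zero (R := C) (A := L)) htr
  change Transcendental C x at htr
  change Algebra.IsAlgebraic (IntermediateField.adjoin C {x}) L at halg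
  change D x / (2 * y) = 1 at h1
  have h2y : 2 * y ≠ 0 := by
    intro h0
    rw [h0, div_zero] at h1
    exact zero_ne_one h1
  have hDx : D x = 2 * y := by
    rw [div_eq_one_iff_eq h2y] at h1
    exact h1
  have hy0 : y ≠ 0 := fun h0 => h2y (by rw [h0, mul_zero])
  have hyn : y ≠ -y := by
    intro h0
    apply h2y
    linear_combination h0
  have hyy := eqn hxy
  -- the second point
  rcases P with _ | ⟨X, Y, hXY⟩
  · refine ⟨0, 0, ?_⟩
    have h2 : (0 : L) = algebraMap C L g := hg
    have h3 : g = 0 := (map_eq_zero (algebraMap C L)).1 h2.symm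
    rw [h3, Rat.cast_zero, zero_mul, add_zero]
  by_cases hg0 : g = 0
  · exact ⟨0, 0, by rw [hg0, Rat.cast_zero, zero_mul, add_zero]⟩
  change D X / (2 * Y) = algebraMap C L g at hg
  set F := IntermediateField.adjoin C {x} with hF
  have hxF : x ∈ F := IntermediateField.mem_adjoin_simple_self C x
  have hσx : ∀ σ : L ≃ₐ[F] L, σ x = x := fun σ => σ.commutes ⟨x, hxF⟩
  have hσC : ∀ (σ : L ≃ₐ[F] L) (c : C), σ (algebraMap C L c) = algebraMap C L c := fun σ c =>
    (σ.restrictScalars C).commutes c
  have hσK : ∀ (σ : L ≃ₐ[F] L) (c : K), σ (algebraMap K L c) = algebraMap K L c := by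
    intro σ c
    rw [IsScalarTower.algebraMap_apply K C L]
    exact hσC σ _
  have hσy : ∀ σ : L ≃ₐ[F] L, σ y = y ∨ σ y = -y := by
    intro σ
    rw [← sq_eq_sq_iff_eq_or_eq_neg, ← map_pow, hyy, map_add, map_add, map_mul, map_pow, hσx,
      hσK, hσK]
  -- the conjugates
  set P : Ept a b L := WeierstrassCurve.Affine.Point.some X Y hXY with hP
  have hom : ∀ σ : L ≃ₐ[F] L, om D (ac y σ P) = algebraMap C L g := by
    intro σ
    have hpm : om D (pm (kk (K := K) σ) P) = D (σ X) / (2 * σ Y) := rfl
    have hσg : σ (D X) / (2 * σ Y) = algebraMap C L g := by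
      rw [← hσC σ g, ← hg, map_div₀, map_mul]
      have : σ (2 : L) = 2 := map_ofNat σ 2
      rw [this]
    rcases hσy σ with h2 | h2
    · have h3 := comm_D (σ.restrictScalars C) D (x := x) (hσx σ) halg (ε := 1) (by
        rw [hDx, map_one, one_mul]
        change σ (2 * y) = 2 * y
        rw [map_mul, h2]
        have : σ (2 : L) = 2 := map_ofNat σ 2
        rw [this]) X
      have h4 : σ (D X) = D (σ X) := by
        rw [map_one, one_mul] at h3
        exact h3
      unfold ac
      rw [if_pos h2, hpm, ← h4]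
      exact hσg
    · have h3 := comm_D (σ.restrictScalars C) D (x := x) (hσx σ) halg (ε := -1) (by
        rw [hDx, map_neg, map_one]
        change σ (2 * y) = -1 * (2 * y)
        rw [map_mul, h2]
        have : σ (2 : L) = 2 := map_ofNat σ 2
        rw [this]
        ring) X
      have h4 : σ (D X) = -D (σ X) := by
        rw [map_neg, map_one, neg_one_mul] at h3
        exact h3
      have h5 : ¬ σ y = y := by
        rw [h2]
        exact fun h => hyn h.symm
      unfold ac
      rw [if_neg h5, AddMonoidHom.neg_apply]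
      have h6 : om D (-(pm (kk (K := K) σ) P)) = -om D (pm (kk (K := K) σ) P) :=
        map_neg (AddMonoidHom.mk' (om D) (hO K a b hab C L D)) (pm (kk (K := K) σ) P)
      rw [h6, hpm, ← hσg, h4, neg_div]
  have hfin : (Set.range fun σ : L ≃ₐ[F] L => ac (a := a) (b := b) y σ P).Finite :=
    fin_ac halg y P
  obtain ⟨S, hS⟩ : ∃ S : Finset (Ept a b L), S = hfin.toFinset := ⟨_, rfl⟩
  have hmem : ∀ R, R ∈ S ↔ ∃ σ : L ≃ₐ[F] L, ac y σ P = R := by
    intro R
    rw [hS, Set.Finite.mem_toFinset]
    rfl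
  have hne : S.Nonempty := ⟨ac y 1 P, (hmem _).2 ⟨1, rfl⟩⟩
  have hcard : S.card ≠ 0 := (Finset.card_pos.2 hne).ne'
  obtain ⟨Q, hQ⟩ : ∃ Q : Ept a b L, Q = ∑ R ∈ S, R := ⟨_, rfl⟩
  have hQσ : ∀ τ : L ≃ₐ[F] L, ac y τ Q = Q := by
    intro τ
    rw [hQ, map_sum]
    refine Finset.sum_nbij' (fun R => ac y τ R) (fun R => ac y τ⁻¹ R) ?_ ?_ ?_ ?_ ?_
    · intro R hR
      obtain ⟨σ, rfl⟩ := (hmem R).1 hR
      rw [← ac_mul hyn hσy]
      exact (hmem _).2 ⟨τ * σ, rfl⟩
    · intro R hR
      obtain ⟨σ, rfl⟩ := (hmem R).1 hR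
      rw [← ac_mul hyn hσy]
      exact (hmem _).2 ⟨τ⁻¹ * σ, rfl⟩
    · intro R hR
      obtain ⟨σ, rfl⟩ := (hmem R).1 hR
      rw [← ac_mul hyn hσy, ← ac_mul hyn hσy, inv_mul_cancel, one_mul]
    · intro R hR
      obtain ⟨σ, rfl⟩ := (hmem R).1 hR
      rw [← ac_mul hyn hσy, ← ac_mul hyn hσy, mul_inv_cancel, one_mul]
    · intro R _
      rfl
  have hQom : om D Q = algebraMap C L (S.card * g) := by
    have h2 : om D Q = ∑ R ∈ S, om D R := by
      rw [hQ]
      exact map_sum (AddMonoidHom.mk' (om D) (hO K a b hab C L D)) _ _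
    rw [h2, Finset.sum_congr rfl (g := fun _ => algebraMap C L g), Finset.sum_const, nsmul_eq_mul,
      map_mul, map_natCast]
    intro R hR
    obtain ⟨σ, rfl⟩ := (hmem R).1 hR
    exact hom σ
  have hng : (S.card : C) * g ≠ 0 := mul_ne_zero (Nat.cast_ne_zero.2 hcard) hg0
  obtain ⟨c₀, hc₀⟩ : ∃ c₀ : C, c₀ = (S.card : C) * g := ⟨_, rfl⟩
  rw [← hc₀] at hQom hng
  -- the sum is not zero
  rcases Q with _ | ⟨U, V, hUV⟩
  · have h2 : (0 : L) = algebraMap C L c₀ := hQom
    exact absurd ((map_eq_zero (algebraMap C L)).1 h2.symm) hng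
  change D U / (2 * V) = algebraMap C L c₀ at hQom
  have hng' : algebraMap C L c₀ ≠ 0 := fun h => hng ((map_eq_zero (algebraMap C L)).1 h)
  have h2V : 2 * V ≠ 0 := by
    intro h0
    rw [h0, div_zero] at hQom
    exact hng' hQom.symm
  have hDU : D U = algebraMap C L c₀ * (2 * V) := by
    rw [div_eq_iff h2V] at hQom
    exact hQom
  have hDU0 : D U ≠ 0 := by
    rw [hDU]
    exact mul_ne_zero hng' h2V
  have hVV := eqn hUV
  -- the first coordinate is rational
  have hUσ : ∀ σ : L ≃ₐ[F] L, σ U = U := by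
    intro σ
    have h2 := congrArg xc (hQσ σ)
    rw [xc_ac] at h2
    exact h2
  have hgal : IsGalois F L := by
    have hacl : IsAlgClosure F L := ⟨inferInstance, halg⟩
    have hn : Normal F L := IsAlgClosure.normal F L
    exact IsGalois.mk
  have hUF : U ∈ F := by
    obtain ⟨w, hw⟩ := (InfiniteGalois.mem_range_algebraMap_iff_fixed U).2 hUσ
    rw [← hw]
    exact w.2
  obtain ⟨r, s, hrs⟩ := (IntermediateField.mem_adjoin_simple_iff C U).1 hUF
  have hs0 : Polynomial.aeval x s ≠ 0 := by
    intro h0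
    rw [h0, div_zero] at hrs
    rw [hrs, map_zero] at hDU0
    exact hDU0 rfl
  have hDrs : D U * (Polynomial.aeval x s) ^ 2 =
      (Polynomial.aeval x (Polynomial.derivative r) * Polynomial.aeval x s -
        Polynomial.aeval x r * Polynomial.aeval x (Polynomial.derivative s)) * (2 * y) := by
    rw [hrs, Derivation.leibniz_div, Derivation.map_aeval, Derivation.map_aeval, hDx]
    simp only [smul_eq_mul]
    field_simp
  have hs : s ≠ 0 := by
    rintro rfl
    exact hs0 (map_zero _)
  have hid : (Polynomial.X ^ 3 + Polynomial.C (algebraMap K C a) * Polynomial.X +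
        Polynomial.C (algebraMap K C b)) *
      (Polynomial.derivative r * s - r * Polynomial.derivative s) ^ 2 =
      Polynomial.C (c₀ ^ 2) * s * (r ^ 3 +
        Polynomial.C (algebraMap K C a) * r * s ^ 2 + Polynomial.C (algebraMap K C b) * s ^ 3) := by
    rw [← sub_eq_zero]
    refine (transcendental_iff.1 htr) _ ?_
    simp only [map_sub, map_mul, map_add, map_pow, Polynomial.aeval_X, Polynomial.aeval_C]
    rw [← IsScalarTower.algebraMap_apply K C L, ← IsScalarTower.algebraMap_apply K C L]
    have e1 : (Polynomial.aeval x (Polynomial.derivative r) * Polynomial.aeval x s -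
        Polynomial.aeval x r * Polynomial.aeval x (Polynomial.derivative s)) * y =
        algebraMap C L c₀ * V * (Polynomial.aeval x s) ^ 2 := by
      have h2 : (2 : L) ≠ 0 := two_ne_zero
      apply mul_left_cancel₀ h2
      rw [hDU] at hDrs
      linear_combination -hDrs
    have e2 : V ^ 2 * (Polynomial.aeval x s) ^ 3 = (Polynomial.aeval x r) ^ 3 +
        algebraMap K L a * Polynomial.aeval x r * (Polynomial.aeval x s) ^ 2 +
        algebraMap K L b * (Polynomial.aeval x s) ^ 3 := by
      rw [hVV, hrs]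
      field_simp
    linear_combination (-((Polynomial.aeval x (Polynomial.derivative r) * Polynomial.aeval x s -
        Polynomial.aeval x r * Polynomial.aeval x (Polynomial.derivative s)) ^ 2)) * hyy +
      ((Polynomial.aeval x (Polynomial.derivative r) * Polynomial.aeval x s -
        Polynomial.aeval x r * Polynomial.aeval x (Polynomial.derivative s)) * y +
        algebraMap C L c₀ * V * (Polynomial.aeval x s) ^ 2) * e1 +
      (algebraMap C L c₀) ^ 2 * Polynomial.aeval x s * e2
  obtain ⟨n, m, hn⟩ := hCM r s c₀ hs (by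
    intro h0
    have h2 := congrArg (Polynomial.aeval x) h0
    rw [map_sub, map_mul, map_mul, map_zero] at h2
    rw [h2, zero_mul] at hDrs
    exact hDU0 ((mul_eq_zero.1 hDrs).resolve_right (pow_ne_zero _ hs0))) hid
  refine ⟨n / (S.card : ℚ), m / (S.card : ℚ), ?_⟩
  have h3 : (S.card : C) ≠ 0 := Nat.cast_ne_zero.2 hcard
  rw [Rat.cast_div, Rat.cast_div, Rat.cast_natCast]
  apply mul_left_cancel₀ h3
  rw [← hc₀, hn]
  field_simp

end Pool.DynLehmer.LE
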