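import Pool.Agent.Lib.MP_2194ec_nt.LE.DefsU
import Pool.Agent.Lib.MP_2194ec_nt.LE.Htq
import Pool.Agent.Lib.MP_2194ec_nt.GAL.R.Mor

set_option autoImplicit false

/-!
# The Lehmer bound for elliptic curves: multiples and translates

The bound for `P` from the bound for `n P + T`, `T` a torsion point.
-/

namespace Pool.DynLehmer.LE
open MvPolynomial NumberField Filter Topology Pool.DynLehmer Pool.DynLehmer.SB Pool.DynLehmer.SP
  Pool.DynLehmer.GS Pool.DynLehmer.LP Pool.DynLehmer.LW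
open scoped Classical

/-- **The Lehmer bound for all elliptic curves**, composition factors of the group of permutations of
the classes modulo torsion which are abelian or of order at most `e ^ A`, for all points `P` which
have a multiple `n P + T` (`T` torsion) of degree at most `A * e ^ A` with
`n ^ 2 * [K(x(n P + T)) : K] ≤ A * [K(x(P)) : K]`. -/
def LattuStatement : Prop :=
  ∀ (K : Type) [Field K] [NumberField K] (a b : K), 4 * a ^ 3 + 27 * b ^ 2 ≠ 0 →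
    ∀ (p s lam : ℕ) (v : FinitePlace K) (F : Fin 2 → MvPolynomial (Fin 2) K), HypR p s v F →
    2 ≤ lam → lam ^ 2 = p ^ s → IsLat a b lam F →
    ∀ A : ℕ, ∃ c : ℝ, 0 < c ∧
    ∀ (N : Type) [Field N] [NumberField N] [Algebra K N] [IsGalois K N] (P : Ept a b N),
      (∀ n : ℕ, 1 ≤ n → n • P ≠ 0) →
      (∃ (e : ℕ) (τ : Fin e → (N ≃ₐ[K] N)),
        (∀ i j, i ≠ j → ¬ Tq (pm (τ i : N →ₐ[K] N) P) (pm (τ j : N →ₐ[K] N) P)) ∧
        (∃ (n : ℕ) (T : Ept a b N), 1 ≤ n ∧ (∃ m : ℕ, 1 ≤ m ∧ m • T = 0) ∧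
          dg K (n • P + T).xRep ≤ A * e ^ A ∧
          n ^ 2 * dg K (n • P + T).xRep ≤ A * dg K P.xRep) ∧
        ∃ (l : ℕ) (L : ℕ → Subgroup (N ≃ₐ[K] N)),
          (∀ g ∈ L 0, ∀ h : N ≃ₐ[K] N, Tq (pm ((g * h : N ≃ₐ[K] N) : N →ₐ[K] N) P)
            (pm (h : N →ₐ[K] N) P)) ∧ L l = ⊤ ∧
          ∀ i < l, L i ≤ L (i + 1) ∧ (∀ x ∈ L (i + 1), ∀ y ∈ L i, x * y * x⁻¹ ∈ L i) ∧
            ((∀ x ∈ L (i + 1), ∀ y ∈ L (i + 1), x * y * x⁻¹ * y⁻¹ ∈ L i) ∨
              (L i).relIndex (L (i + 1)) ≤ e ^ A)) →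
      ∃ h : ℝ, HasHt (p ^ s) F P.xRep h ∧ c / (dg K P.xRep : ℝ) ≤ h

theorem lattu (hCls : ClseStatement) (hLat : LatuStatement) : LattuStatement := by
  intro K _ _ a b hD p s lam v F hR hlam hq hL A
  obtain ⟨c, hc, H⟩ := hLat K a b hD p s lam v F hR hlam hq hL A (2 * A)
  have hq2 : 2 ≤ p ^ s := by
    rw [← hq]
    nlinarith
  have hM : Mor (p ^ s) F := Pool.DynLehmer.GS.mor K p s v F hR
  refine ⟨c / (A + 1), by positivity, ?_⟩
  intro N _ _ _ _ P hP hser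
  obtain ⟨e, τ, hτ, ⟨n, T, hn, ⟨m, hm, hmT⟩, hd1, hd2⟩, l, L, hL0, hLl, hLi⟩ := hser
  have hfd : FiniteDimensional K N := Module.Finite.of_restrictScalars_finite ℚ K N
  obtain ⟨h, hh⟩ := HQ.exists_ht hq2 hM P
  refine ⟨h, hh, ?_⟩
  -- `P' = n P + T`
  have hP' : ∀ k : ℕ, 1 ≤ k → k • (n • P + T) ≠ 0 := by
    intro k hk h0
    refine hP (m * (k * n)) (Nat.mul_pos hm (Nat.mul_pos hk hn)) ?_
    have h1 : m • k • (n • P + T) = 0 := by rw [h0, smul_zero]
    rw [smul_add, smul_add, smul_comm m k T, hmT, smul_zero, add_zero] at h1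
    rw [mul_smul, mul_smul]
    exact h1
  have hpmT : ∀ σ : N ≃ₐ[K] N, m • pm (σ : N →ₐ[K] N) T = 0 := by
    intro σ
    rw [← map_nsmul, hmT, map_zero]
  have hτ' : ∀ i j, i ≠ j → ¬ Tq (pm (τ i : N →ₐ[K] N) (n • P + T))
      (pm (τ j : N →ₐ[K] N) (n • P + T)) := by
    rintro i j hij ⟨r, hr, h0⟩
    refine hτ i j hij ⟨m * (r * n), Nat.mul_pos hm (Nat.mul_pos hr hn), ?_⟩
    have h1 := congrArg (fun Q => m • Q) h0
    beta_reduce at h1
    rw [map_add, map_add, map_nsmul, map_nsmul, smul_add, smul_add, smul_add, smul_add,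
      smul_comm m r (pm _ T), smul_comm m r (pm _ T), hpmT, hpmT, smul_zero, add_zero,
      add_zero] at h1
    rw [mul_smul, mul_smul, mul_smul, mul_smul]
    exact h1
  have hL0' : ∀ g ∈ L 0, ∀ k : N ≃ₐ[K] N,
      Tq (pm ((g * k : N ≃ₐ[K] N) : N →ₐ[K] N) (n • P + T))
        (pm (k : N →ₐ[K] N) (n • P + T)) := by
    intro g hg k
    obtain ⟨r, hr, h0⟩ := hL0 g hg k
    refine ⟨m * r, Nat.mul_pos hm hr, ?_⟩
    rw [map_add, map_add, map_nsmul, map_nsmul, smul_add, smul_add]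
    have e1 : ∀ ρ : N ≃ₐ[K] N, (m * r) • pm (ρ : N →ₐ[K] N) T = 0 := by
      intro ρ
      rw [mul_comm, mul_smul, hpmT, smul_zero]
    rw [e1, e1, add_zero, add_zero, mul_smul, mul_smul, smul_comm r n, smul_comm r n, h0]
  obtain ⟨he1, hm1, hDe, hD2, -⟩ := hCls K a b N (n • P + T) _ _ rfl rfl
  have hdpos : 1 ≤ dg K (n • P + T).xRep := by
    have : FiniteDimensional K (IntermediateField.adjoin K
      {(n • P + T).xRep 0 / (n • P + T).xRep 1}) := inferInstance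
    exact Module.finrank_pos
  have he : 1 ≤ e := by
    by_contra h0
    have h1 : e = 0 := by omega
    rw [h1] at hd1
    rcases Nat.eq_zero_or_pos A with h2 | h2
    · rw [h2] at hd1
      omega
    · rw [zero_pow h2.ne', mul_zero] at hd1
      omega
  obtain ⟨h', hh', hle⟩ := H N (n • P + T) hP' ⟨e, τ, hτ', by
    refine le_trans ?_ (?_ : 2 * (A * e ^ A) ≤ 2 * A * e ^ (2 * A))
    · calc _ ≤ _ := Nat.le_mul_of_pos_left _ he1
        _ ≤ 2 * dg K (n • P + T).xRep := hD2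
        _ ≤ 2 * (A * e ^ A) := Nat.mul_le_mul_left _ hd1
    · rw [← mul_assoc]
      exact Nat.mul_le_mul_left _ (Nat.pow_le_pow_right he (by omega)), l, L, hL0', hLl, hLi⟩
  have hhh : h' = (n : ℝ) ^ 2 * h := hasHt_mul_add hD hq2 hM hL P T n m hm hmT hh hh'
  have hn0 : (0 : ℝ) < n := by exact_mod_cast hn
  have hd0 : (0 : ℝ) < dg K (n • P + T).xRep := by exact_mod_cast hdpos
  have hdP : (0 : ℝ) < dg K P.xRep := by
    have : 1 ≤ dg K P.xRep := by
      have : FiniteDimensional K (IntermediateField.adjoin K {P.xRep 0 / P.xRep 1}) := inferInstance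
      exact Module.finrank_pos
    exact_mod_cast this
  have hd2' : (n : ℝ) ^ 2 * dg K (n • P + T).xRep ≤ (A + 1) * dg K P.xRep := by
    have : (n : ℝ) ^ 2 * dg K (n • P + T).xRep ≤ A * dg K P.xRep := by exact_mod_cast hd2
    nlinarith
  rw [hhh, div_le_iff₀ hd0] at hle
  rw [div_div, div_le_iff₀ (by positivity)]
  have h0 : 0 < h := by
    by_contra h1
    replace h1 := not_lt.1 h1
    have : (n : ℝ) ^ 2 * h * dg K (n • P + T).xRep ≤ 0 := by
      apply mul_nonpos_of_nonpos_of_nonneg _ hd0.le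
      exact mul_nonpos_of_nonneg_of_nonpos (by positivity) h1
    linarith
  calc c ≤ (n : ℝ) ^ 2 * h * dg K (n • P + T).xRep := hle
    _ = h * ((n : ℝ) ^ 2 * dg K (n • P + T).xRep) := by ring
    _ ≤ h * ((A + 1) * dg K P.xRep) := mul_le_mul_of_nonneg_left hd2' h0.le

end Pool.DynLehmer.LE
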