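import Pool.Agent.Lib.MP_2194ec_nt.LE.Defs2
import Pool.Agent.Lib.MP_2194ec_nt.LW.GrpzA

set_option autoImplicit false
set_option linter.unusedSectionVars false

/-!
# The Lehmer bound for elliptic curves, solvable Galois closure: assembly
-/

namespace Pool.DynLehmer.LE
open MvPolynomial NumberField Filter Topology Pool.DynLehmer Pool.DynLehmer.SB Pool.DynLehmer.SP
  Pool.DynLehmer.GS Pool.DynLehmer.LP Pool.DynLehmer.LW
open scoped Classical

namespace Lat

theorem card_range_congr {G α β : Type} (u : G → α) (w : G → β)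
    (h : ∀ σ τ, u σ = u τ ↔ w σ = w τ) : Nat.card (Set.range u) = Nat.card (Set.range w) := by
  have h1 : Setoid.ker u = Setoid.ker w := by
    ext σ τ
    exact h σ τ
  calc Nat.card (Set.range u) = Nat.card (Quotient (Setoid.ker u)) :=
        Nat.card_congr (Setoid.quotientKerEquivRange u).symm
    _ = Nat.card (Quotient (Setoid.ker w)) := by rw [h1]
    _ = Nat.card (Set.range w) := Nat.card_congr (Setoid.quotientKerEquivRange w)

section
variable {K : Type} [Field K] {a b : K} {N : Type} [Field N] [Algebra K N]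

theorem tq_refl (P : Ept a b N) : Tq P P := ⟨1, le_rfl, rfl⟩

theorem tq_symm {P Q : Ept a b N} (h : Tq P Q) : Tq Q P := by
  obtain ⟨r, hr, h⟩ := h
  exact ⟨r, hr, h.symm⟩

theorem tq_trans {P Q R : Ept a b N} (h : Tq P Q) (h' : Tq Q R) : Tq P R := by
  obtain ⟨r, hr, h⟩ := h
  obtain ⟨r', hr', h'⟩ := h'
  refine ⟨r * r', Nat.mul_pos hr hr', ?_⟩
  calc (r * r') • P = r' • r • P := by rw [mul_comm, mul_smul]
    _ = r' • r • Q := by rw [h]
    _ = r • r' • Q := by rw [← mul_smul, ← mul_smul, mul_comm]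
    _ = r • r' • R := by rw [h']
    _ = (r * r') • R := by rw [mul_smul]

theorem cls_eq {P Q : Ept a b N} : {R : Ept a b N | Tq P R} = {R : Ept a b N | Tq Q R} ↔ Tq P Q := by
  constructor
  · intro h
    have h1 : Q ∈ {R : Ept a b N | Tq Q R} := tq_refl Q
    rw [← h] at h1
    exact h1
  · intro h
    ext R
    exact ⟨fun h1 => tq_trans (tq_symm h) h1, fun h1 => tq_trans h h1⟩

theorem pm_mul (σ τ : N ≃ₐ[K] N) (P : Ept a b N) :
    pm ((σ * τ : N ≃ₐ[K] N) : N →ₐ[K] N) P = pm (σ : N →ₐ[K] N) (pm (τ : N →ₐ[K] N) P) := by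
  cases P <;> rfl

end

end Lat

open Lat in
/-- **The Lehmer bound for elliptic curves.** -/
theorem lat (hFin : FineStatement) (hRep : RepeStatement) (hCls : ClseStatement)
    (hGrp : GrpaStatement) : LatStatement := by
  intro K _ _ a b hΔ hCM p s lam v F hR hlam hq hLat A M
  obtain ⟨t, R, C₀, ht, hG⟩ := hGrp A
  have hk2 : 2 ≤ 2 ^ t := by
    calc 2 = 2 ^ 1 := rfl
      _ ≤ 2 ^ t := Nat.pow_le_pow_right (by norm_num) ht
  obtain ⟨c, hc, hmain⟩ := hFin K a b hΔ hCM p s lam v F hR hlam hq hLat (2 ^ t) (2 * (M + 1))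
    (C₀ ^ (M + 1) * M + R * (M * R ^ M)) (by omega)
  refine ⟨c, hc, ?_⟩
  intro N _ _ _ _ P hP hser
  have hfd : FiniteDimensional K N := Module.Finite.of_restrictScalars_finite ℚ K N
  refine hmain N P hP fun hCD n => ?_
  obtain ⟨V, _, _, ρ, f, hf1, hf2⟩ := hRep K a b N
  letI act : MulAction (N ≃ₐ[K] N) V :=
    { smul := fun g w => ρ g w
      one_smul := fun w => by
        change ρ 1 w = w
        rw [map_one]
        rfl
      mul_smul := fun g h w => by
        change ρ (g * h) w = ρ g (ρ h w)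
        rw [map_mul]
        rfl }
  have hsm : ∀ (g : N ≃ₐ[K] N) (w : V), g • w = ρ g w := fun g w => rfl
  have hff : ∀ P Q : Ept a b N, f P = f Q ↔ Tq P Q := by
    intro P Q
    refine ⟨hf2 P Q, ?_⟩
    rintro ⟨r, hr, h⟩
    have h1 := congrArg f h
    rw [map_nsmul, map_nsmul] at h1
    have hr0 : (r : ℚ) ≠ 0 := by exact_mod_cast (by omega : r ≠ 0)
    have h2 : (r : ℚ) • f P = (r : ℚ) • f Q := by
      rw [Nat.cast_smul_eq_nsmul, Nat.cast_smul_eq_nsmul]
      exact h1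
    exact (smul_right_injective V hr0) h2
  let Ω : Type := MulAction.orbit (N ≃ₐ[K] N) (f P)
  have hΩfin : Finite Ω := Set.finite_range (fun g : N ≃ₐ[K] N => g • f P)
  let _ : Fintype Ω := Fintype.ofFinite Ω
  have hΩ : ∀ z : Ω, ∃ σ : N ≃ₐ[K] N, f (pm (σ : N →ₐ[K] N) P) = (z : V) := by
    rintro ⟨z, σ, hσ⟩
    exact ⟨σ, by rw [hf1]; exact hσ⟩
  -- the numbers
  obtain ⟨he1, hm1, hD, -, hL⟩ := hCls K a b N P _ _ rfl rfl
  set e₀ : ℕ := Nat.card (Set.range fun (σ : N ≃ₐ[K] N) =>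
    {Q : Ept a b N | Tq (pm (σ : N →ₐ[K] N) P) Q}) with he₀
  set m : ℕ := Nat.card {Q : Ept a b N // (∃ σ : N ≃ₐ[K] N, pm (σ : N →ₐ[K] N) P = Q) ∧ Tq P Q}
    with hm
  have he : e₀ = Fintype.card Ω := by
    rw [he₀, ← Nat.card_eq_fintype_card]
    refine card_range_congr _ (fun g : N ≃ₐ[K] N => g • f P) fun σ τ => ?_
    rw [cls_eq, ← hff, hf1, hf1]
    exact Iff.rfl
  set x : Ω := ⟨f P, MulAction.mem_orbit_self (f P)⟩ with hx
  have htr : MulAction.IsPretransitive (N ≃ₐ[K] N) Ω := inferInstance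
  obtain ⟨e, τ, hτ, hme, l, L, hL0, hLl, hLi⟩ := hser
  have hee : e ≤ e₀ := by
    rw [he]
    have hinj : Function.Injective (fun i : Fin e => τ i • x) := by
      intro i j hij
      by_contra hne
      refine hτ i j hne ((hff _ _).1 ?_)
      rw [hf1, hf1]
      exact congrArg Subtype.val hij
    have h3 := Fintype.card_le_of_injective _ hinj
    rwa [Fintype.card_fin] at h3
  have hme' : m ≤ M * e₀ ^ M := hme.trans (Nat.mul_le_mul_left _ (Nat.pow_le_pow_left hee M))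
  have hD' : dg K P.xRep ≤ e₀ * (M * e₀ ^ M) := hD.trans (Nat.mul_le_mul_left _ hme')
  have hRe : R < e₀ := by
    by_contra hcon
    have h1 : e₀ ≤ R := not_lt.1 hcon
    have h2 : e₀ * (M * e₀ ^ M) ≤ R * (M * R ^ M) :=
      Nat.mul_le_mul h1 (Nat.mul_le_mul_left _ (Nat.pow_le_pow_left h1 M))
    omega
  have horb : MulAction.orbit (⊤ : Subgroup (N ≃ₐ[K] N)) x = Set.univ := by
    ext z
    simp only [Set.mem_univ, iff_true]
    obtain ⟨g, hg⟩ := MulAction.exists_smul_eq (N ≃ₐ[K] N) x z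
    exact ⟨⟨g, Subgroup.mem_top g⟩, hg⟩
  obtain ⟨y, -, hlin, hcard⟩ := hG (N ≃ₐ[K] N) Ω V ρ (fun z => (z : V))
    (fun g z => rfl) Subtype.val_injective htr x ⊤ (fun _ _ _ _ => Subgroup.mem_top _)
    (by rw [horb, Nat.card_coe_set_eq, Set.ncard_univ, Nat.card_eq_fintype_card, ← he]; exact hRe)
    ⟨l, L, by
      intro g hg h _
      rw [hL0, Subgroup.mem_bot] at hg
      rw [hg, one_smul], hLl, fun i hi => ⟨(hLi i hi).1, (hLi i hi).2.1, (hLi i hi).2.2.imp id
      fun h => h.trans (Nat.pow_le_pow_left (hee.trans he.le) A)⟩⟩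
  choose σ hσ using fun i => hΩ (y i)
  have hcls : Nat.card (Set.range fun (g : N ≃ₐ[K] N) (i : Fin (2 ^ t)) =>
      {Q : Ept a b N | Tq (pm (g : N →ₐ[K] N) (pm (σ i : N →ₐ[K] N) P)) Q}) =
      Nat.card (MulAction.orbit (N ≃ₐ[K] N) y) := by
    refine card_range_congr _ (fun g : N ≃ₐ[K] N => g • y) fun g h => ?_
    rw [_root_.funext_iff, _root_.funext_iff]
    refine forall_congr' fun i => ?_
    beta_reduce
    rw [cls_eq, ← hff, hf1, hf1 h, hσ]
    constructor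
    · intro h1
      exact Subtype.ext h1
    · intro h1
      exact congrArg Subtype.val h1
  obtain ⟨m', hm'1, -, horbP, horby⟩ := hL (lam ^ n) (Nat.one_le_pow _ _ (by omega))
  have hy := horby (2 ^ t) (fun i => pm (σ i : N →ₐ[K] N) P) (fun i => ⟨σ i, rfl⟩)
  rw [hcls] at hy
  refine ⟨2 ^ t, fun i => pm (σ i : N →ₐ[K] N) P, hk2, le_rfl, fun i => ⟨σ i, rfl⟩, ?_, ?_⟩
  · intro γ hγ
    have h1 := congrArg f hγ
    rw [map_sum, _root_.map_zero] at h1
    have h2 : ∑ i, (γ i : ℚ) • (y i : V) = 0 := by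
      rw [← h1]
      refine Finset.sum_congr rfl fun i _ => ?_
      rw [map_zsmul, hσ, Int.cast_smul_eq_zsmul]
    have h5 := Fintype.linearIndependent_iff.1 hlin (fun i => (γ i : ℚ)) h2
    funext i
    exact_mod_cast h5 i
  · rw [horbP]
    set T : ℕ := Nat.card (MulAction.orbit (N ≃ₐ[K] N) y) with hT
    rw [← he] at hcard
    have hk1 : 1 ≤ 2 ^ t := by omega
    have hpow : e₀ ^ (2 ^ t * (M + 1)) * e₀ ^ (M + 1) ≤ e₀ ^ (2 ^ t * (2 * (M + 1))) := by
      rw [← pow_add]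
      apply Nat.pow_le_pow_right he1
      nlinarith
    calc (orbp K fun i => lam ^ n • pm (σ i : N →ₐ[K] N) P) ^ (2 * (M + 1)) * dg K P.xRep
        ≤ (T * m' ^ (2 ^ t)) ^ (2 * (M + 1)) * (e₀ * (M * e₀ ^ M)) :=
          Nat.mul_le_mul (Nat.pow_le_pow_left hy _) hD'
      _ = (T ^ 2) ^ (M + 1) * (M * e₀ ^ (M + 1)) * m' ^ (2 ^ t * (2 * (M + 1))) := by
          rw [mul_pow, pow_mul T 2 (M + 1), ← pow_mul m', pow_succ]
          ring
      _ ≤ (C₀ * e₀ ^ (2 ^ t)) ^ (M + 1) * (M * e₀ ^ (M + 1)) * m' ^ (2 ^ t * (2 * (M + 1))) := by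
          gcongr
      _ = C₀ ^ (M + 1) * M * (e₀ ^ (2 ^ t * (M + 1)) * e₀ ^ (M + 1)) *
            m' ^ (2 ^ t * (2 * (M + 1))) := by
          rw [mul_pow, ← pow_mul]
          ring
      _ ≤ (C₀ ^ (M + 1) * M + R * (M * R ^ M)) * e₀ ^ (2 ^ t * (2 * (M + 1))) *
            m' ^ (2 ^ t * (2 * (M + 1))) :=
          Nat.mul_le_mul_right _ (Nat.mul_le_mul (Nat.le_add_right _ _) hpow)
      _ = (C₀ ^ (M + 1) * M + R * (M * R ^ M)) * (e₀ * m') ^ (2 ^ t * (2 * (M + 1))) := by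
          rw [mul_pow, mul_assoc]

end Pool.DynLehmer.LE
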