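import Pool.Agent.Lib.MP_2194ec_nt.GAL.R.Mor
import Pool.Agent.Lib.MP_2194ec_nt.LE.DefsU
import Pool.Agent.Lib.MP_2194ec_nt.LE.Lat

set_option autoImplicit false
set_option linter.unusedSectionVars false

/-!
# The Lehmer bound for all elliptic curves: assembly
-/

namespace Pool.DynLehmer.LE
open MvPolynomial NumberField Filter Topology Pool.DynLehmer Pool.DynLehmer.SB Pool.DynLehmer.SP
  Pool.DynLehmer.GS Pool.DynLehmer.LP Pool.DynLehmer.LW
open scoped Classical

open Lat in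
/-- **The Lehmer bound for elliptic curves**, composition factors of the group of permutations of
the classes of conjugates modulo torsion. -/
theorem latu (hFin : FineuStatement) (hFree : FreeluStatement) (hRep : RepeStatement)
    (hCls : ClseStatement) (hGrp : GrpuStatement) : LatuStatement := by
  intro K _ _ a b hΔ p s lam v F hR hlam hq hLat A M
  obtain ⟨t, R, C₀, ht, hG⟩ := hGrp A
  have hk4 : 4 ≤ 2 ^ t := by
    calc 4 = 2 ^ 2 := rfl
      _ ≤ 2 ^ t := Nat.pow_le_pow_right (by norm_num) ht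
  have hmor : Mor (p ^ s) F := mor K p s v F hR
  obtain ⟨c, hc, hmain⟩ := hFin K a b hΔ p s lam v F hR hlam hq hLat (2 ^ t) (4 * (M + 1))
    (C₀ ^ (M + 1) * M + R * (M * R ^ M)) (by omega)
  refine ⟨c, hc, ?_⟩
  intro N _ _ _ _ P hP hser
  have hfd : FiniteDimensional K N := Module.Finite.of_restrictScalars_finite ℚ K N
  refine hmain N P hP fun hCD n => ?_
  obtain ⟨V, _, _, ρ, f, hf1, hf2⟩ := hRep K a b N
  letI act : MulAction (N ≃ₐ[K] N) V :=
    { smul := fun g w => ρ g w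
      one_smul := fun w => by
        change ρ 1 w = w
        rw [map_one]
        rfl
      mul_smul := fun g h w => by
        change ρ (g * h) w = ρ g (ρ h w)
        rw [map_mul]
        rfl }
  have hsm : ∀ (g : N ≃ₐ[K] N) (w : V), g • w = ρ g w := fun g w => rfl
  have hff : ∀ P Q : Ept a b N, f P = f Q ↔ Tq P Q := by
    intro P Q
    refine ⟨hf2 P Q, ?_⟩
    rintro ⟨r, hr, h⟩
    have h1 := congrArg f h
    rw [map_nsmul, map_nsmul] at h1
    have hr0 : (r : ℚ) ≠ 0 := by exact_mod_cast (by omega : r ≠ 0)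
    have h2 : (r : ℚ) • f P = (r : ℚ) • f Q := by
      rw [Nat.cast_smul_eq_nsmul, Nat.cast_smul_eq_nsmul]
      exact h1
    exact (smul_right_injective V hr0) h2
  let Ω : Type := MulAction.orbit (N ≃ₐ[K] N) (f P)
  have hΩfin : Finite Ω := Set.finite_range (fun g : N ≃ₐ[K] N => g • f P)
  let _ : Fintype Ω := Fintype.ofFinite Ω
  have hΩ : ∀ z : Ω, ∃ σ : N ≃ₐ[K] N, f (pm (σ : N →ₐ[K] N) P) = (z : V) := by
    rintro ⟨z, σ, hσ⟩
    exact ⟨σ, by rw [hf1]; exact hσ⟩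
  -- the numbers
  obtain ⟨he1, hm1, hD, -, hL⟩ := hCls K a b N P _ _ rfl rfl
  set e₀ : ℕ := Nat.card (Set.range fun (σ : N ≃ₐ[K] N) =>
    {Q : Ept a b N | Tq (pm (σ : N →ₐ[K] N) P) Q}) with he₀
  set m : ℕ := Nat.card {Q : Ept a b N // (∃ σ : N ≃ₐ[K] N, pm (σ : N →ₐ[K] N) P = Q) ∧ Tq P Q}
    with hm
  have he : e₀ = Fintype.card Ω := by
    rw [he₀, ← Nat.card_eq_fintype_card]
    refine card_range_congr _ (fun g : N ≃ₐ[K] N => g • f P) fun σ τ => ?_
    rw [cls_eq, ← hff, hf1, hf1]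
    exact Iff.rfl
  set x : Ω := ⟨f P, MulAction.mem_orbit_self (f P)⟩ with hx
  have htr : MulAction.IsPretransitive (N ≃ₐ[K] N) Ω := inferInstance
  obtain ⟨e, τ, hτ, hme, l, L, hL0, hLl, hLi⟩ := hser
  have hee : e ≤ e₀ := by
    rw [he]
    have hinj : Function.Injective (fun i : Fin e => τ i • x) := by
      intro i j hij
      by_contra hne
      refine hτ i j hne ((hff _ _).1 ?_)
      rw [hf1, hf1]
      exact congrArg Subtype.val hij
    have h3 := Fintype.card_le_of_injective _ hinj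
    rwa [Fintype.card_fin] at h3
  have hme' : m ≤ M * e₀ ^ M := hme.trans (Nat.mul_le_mul_left _ (Nat.pow_le_pow_left hee M))
  have hD' : dg K P.xRep ≤ e₀ * (M * e₀ ^ M) := hD.trans (Nat.mul_le_mul_left _ hme')
  have hRe : R < e₀ := by
    by_contra hcon
    have h1 : e₀ ≤ R := not_lt.1 hcon
    have h2 : e₀ * (M * e₀ ^ M) ≤ R * (M * R ^ M) :=
      Nat.mul_le_mul h1 (Nat.mul_le_mul_left _ (Nat.pow_le_pow_left h1 M))
    omega
  have horb : MulAction.orbit (⊤ : Subgroup (N ≃ₐ[K] N)) x = Set.univ := by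
    ext z
    simp only [Set.mem_univ, iff_true]
    obtain ⟨g, hg⟩ := MulAction.exists_smul_eq (N ≃ₐ[K] N) x z
    exact ⟨⟨g, Subgroup.mem_top g⟩, hg⟩
  obtain ⟨y, -, hlin, hcard⟩ := hG (N ≃ₐ[K] N) Ω V ρ (fun z => (z : V))
    (fun g z => rfl) Subtype.val_injective htr x ⊤ (fun _ _ _ _ => Subgroup.mem_top _)
    (by rw [horb, Nat.card_coe_set_eq, Set.ncard_univ, Nat.card_eq_fintype_card, ← he]; exact hRe)
    ⟨l, L, by
      intro g hg h _
      apply Subtype.ext
      have h1 := (hff _ _).2 (hL0 g hg h)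
      rw [hf1, hf1] at h1
      rw [← mul_smul]
      exact h1, hLl, fun i hi => ⟨(hLi i hi).1, (hLi i hi).2.1, (hLi i hi).2.2.imp id
      fun h => h.trans (Nat.pow_le_pow_left (hee.trans he.le) A)⟩⟩
  choose σ hσ using fun i => hΩ (y i)
  -- the sub-tuple
  obtain ⟨k, ι, hι, hk, hind⟩ := hFree K a b hΔ (p ^ s) lam F hlam hmor hLat N (2 ^ t)
    (fun i => pm (σ i : N →ₐ[K] N) P) (by
      intro γ hγ
      have h1 := congrArg f hγ
      rw [map_sum, _root_.map_zero] at h1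
      have h2 : ∑ i, (γ i : ℚ) • (y i : V) = 0 := by
        rw [← h1]
        refine Finset.sum_congr rfl fun i _ => ?_
        rw [map_zsmul, hσ, Int.cast_smul_eq_zsmul]
      have h5 := Fintype.linearIndependent_iff.1 hlin (fun i => (γ i : ℚ)) h2
      funext i
      exact_mod_cast h5 i)
  have hk2 : 2 ≤ k := by omega
  have hkt : k ≤ 2 ^ t := by
    have := Fintype.card_le_of_injective _ hι
    rwa [Fintype.card_fin, Fintype.card_fin] at this
  have hcls : Nat.card (Set.range fun (g : N ≃ₐ[K] N) (i : Fin k) =>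
      {Q : Ept a b N | Tq (pm (g : N →ₐ[K] N) (pm (σ (ι i) : N →ₐ[K] N) P)) Q}) ≤
      Nat.card (MulAction.orbit (N ≃ₐ[K] N) y) := by
    have h1 : Nat.card (Set.range fun (g : N ≃ₐ[K] N) (i : Fin k) =>
        {Q : Ept a b N | Tq (pm (g : N →ₐ[K] N) (pm (σ (ι i) : N →ₐ[K] N) P)) Q}) =
        Nat.card (Set.range fun (g : N ≃ₐ[K] N) (i : Fin k) => g • y (ι i)) := by
      refine card_range_congr _ _ fun g h => ?_
      rw [_root_.funext_iff, _root_.funext_iff]
      refine forall_congr' fun i => ?_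
      beta_reduce
      rw [cls_eq, ← hff, hf1, hf1 h, hσ]
      constructor
      · intro h1
        exact Subtype.ext h1
      · intro h1
        exact congrArg Subtype.val h1
    rw [h1]
    have h2 : (Set.range fun (g : N ≃ₐ[K] N) (i : Fin k) => g • y (ι i)) =
        (fun (z : Fin (2 ^ t) → Ω) (i : Fin k) => z (ι i)) ''
          (Set.range fun g : N ≃ₐ[K] N => g • y) := by
      rw [← Set.range_comp]
      rfl
    rw [h2, Nat.card_coe_set_eq, Nat.card_coe_set_eq]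
    exact Set.ncard_image_le (Set.finite_range _)
  obtain ⟨m', hm'1, -, horbP, horby⟩ := hL (lam ^ n) (Nat.one_le_pow _ _ (by omega))
  have hy := (horby k (fun i => pm (σ (ι i) : N →ₐ[K] N) P) (fun i => ⟨σ (ι i), rfl⟩)).trans
    (Nat.mul_le_mul_right _ hcls)
  refine ⟨k, fun i => pm (σ (ι i) : N →ₐ[K] N) P, hk2, hkt, fun i => ⟨σ (ι i), rfl⟩, hind, ?_⟩
  rw [horbP]
  set T : ℕ := Nat.card (MulAction.orbit (N ≃ₐ[K] N) y) with hT
  rw [← he] at hcard
  have hcard' : T ^ 4 ≤ C₀ * e₀ ^ (2 * k) :=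
    hcard.trans (Nat.mul_le_mul_left _ (Nat.pow_le_pow_right he1 hk))
  have hpow : e₀ ^ (2 * k * (M + 1)) * e₀ ^ (M + 1) ≤ e₀ ^ (k * (4 * (M + 1))) := by
    rw [← pow_add]
    apply Nat.pow_le_pow_right he1
    nlinarith
  calc (orbp K fun i => lam ^ n • pm (σ (ι i) : N →ₐ[K] N) P) ^ (4 * (M + 1)) * dg K P.xRep
      ≤ (T * m' ^ k) ^ (4 * (M + 1)) * (e₀ * (M * e₀ ^ M)) :=
        Nat.mul_le_mul (Nat.pow_le_pow_left hy _) hD'
    _ = (T ^ 4) ^ (M + 1) * (M * e₀ ^ (M + 1)) * m' ^ (k * (4 * (M + 1))) := by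
        rw [mul_pow, pow_mul T 4 (M + 1), ← pow_mul m', pow_succ]
        ring
    _ ≤ (C₀ * e₀ ^ (2 * k)) ^ (M + 1) * (M * e₀ ^ (M + 1)) * m' ^ (k * (4 * (M + 1))) := by
        gcongr
    _ = C₀ ^ (M + 1) * M * (e₀ ^ (2 * k * (M + 1)) * e₀ ^ (M + 1)) *
          m' ^ (k * (4 * (M + 1))) := by
        rw [mul_pow, ← pow_mul]
        ring
    _ ≤ (C₀ ^ (M + 1) * M + R * (M * R ^ M)) * e₀ ^ (k * (4 * (M + 1))) *
          m' ^ (k * (4 * (M + 1))) :=
        Nat.mul_le_mul_right _ (Nat.mul_le_mul (Nat.le_add_right _ _) hpow)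
    _ = (C₀ ^ (M + 1) * M + R * (M * R ^ M)) * (e₀ * m') ^ (k * (4 * (M + 1))) := by
        rw [mul_pow, mul_assoc]

end Pool.DynLehmer.LE
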