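import Mathlib

set_option autoImplicit false

/-!
# Sets of quadratic integers closed under addition
-/

namespace Pool.DynLehmer.LE

/-- A set closed under addition all of whose members are quadratic over the rationals is in a
rational space of dimension two. -/
theorem quad_span {C : Type*} [Field C] [CharZero C] (M : Set C)
    (hadd : ∀ g ∈ M, ∀ h ∈ M, g + h ∈ M) (hq : ∀ g ∈ M, ∃ t n : ℚ, g ^ 2 = t * g - n) :
    ∃ θ : C, ∀ g ∈ M, ∃ r r' : ℚ, g = r + r' * θ := by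
  by_cases h0 : ∀ g ∈ M, ∃ r : ℚ, g = r
  · exact ⟨0, fun g hg => by
      obtain ⟨r, hr⟩ := h0 g hg
      exact ⟨r, 0, by rw [hr]; simp⟩⟩
  push Not at h0
  obtain ⟨h, hM, hh⟩ := h0
  refine ⟨h, fun g hg => ?_⟩
  obtain ⟨t₁, n₁, e₁⟩ := hq g hg
  obtain ⟨t₂, n₂, e₂⟩ := hq h hM
  obtain ⟨t₃, n₃, e₃⟩ := hq (g + h) (hadd g hg h hM)
  have h1 : (2 * h + (t₁ - t₃)) ≠ 0 := fun h2 => hh ((t₃ - t₁) / 2) (by
    push_cast
    linear_combination h2 / 2)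
  have h1' : (2 * (t₂ - h) + (t₁ - t₃)) ≠ 0 := fun h2 => hh (t₂ + (t₁ - t₃) / 2) (by
    push_cast
    linear_combination -h2 / 2)
  have hN : ((4 * n₂ + 2 * (t₁ - t₃) * t₂ + (t₁ - t₃) ^ 2 : ℚ) : C) =
      (2 * h + (t₁ - t₃)) * (2 * (t₂ - h) + (t₁ - t₃)) := by
    push_cast
    linear_combination 4 * e₂
  have hN0 : ((4 * n₂ + 2 * (t₁ - t₃) * t₂ + (t₁ - t₃) ^ 2 : ℚ) : C) ≠ 0 := by
    rw [hN]
    exact mul_ne_zero h1 h1'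
  have hg1 : g * (2 * h + (t₁ - t₃)) = (t₃ - t₂) * h + (n₁ + n₂ - n₃) := by
    linear_combination e₃ - e₁ - e₂
  refine ⟨(2 * (t₃ - t₂) * n₂ + (n₁ + n₂ - n₃) * (2 * t₂ + (t₁ - t₃))) /
    (4 * n₂ + 2 * (t₁ - t₃) * t₂ + (t₁ - t₃) ^ 2),
    ((t₃ - t₂) * (t₁ - t₃) - 2 * (n₁ + n₂ - n₃)) /
    (4 * n₂ + 2 * (t₁ - t₃) * t₂ + (t₁ - t₃) ^ 2), ?_⟩
  rw [Rat.cast_div, Rat.cast_div, div_mul_eq_mul_div, ← add_div, eq_div_iff hN0, hN]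
  push_cast
  linear_combination (2 * (t₂ - h) + (t₁ - t₃)) * hg1 - 2 * (t₃ - t₂) * e₂

end Pool.DynLehmer.LE
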