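import Pool.Agent.Lib.MP_2194ec_nt.LE.QuadB

set_option autoImplicit false
set_option linter.unusedSectionVars false

/-!
# Existence of a generic point
-/

namespace Pool.DynLehmer.LE.Qd
open Polynomial Pool.DynLehmer Pool.DynLehmer.LE
open scoped Classical

theorem exists_ctx {K : Type} [Field K] [CharZero K] (a b : K) (C : Type) [Field C]
    [Algebra K C] [IsAlgClosed C] :
    ∃ (L : Type) (_ : Field L) (_ : Algebra C L) (_ : Algebra K L) (_ : IsScalarTower K C L)
      (_ : IsAlgClosed L), Nonempty (Ctx a b C L) := by
  have hC : CharZero C := charZero_of_injective_algebraMap (algebraMap K C).injective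
  let E := FractionRing C[X]
  let L := AlgebraicClosure E
  have hst : IsScalarTower K C L := inferInstance
  let x : L := algebraMap E L (algebraMap C[X] E X)
  have hap : ∀ p : C[X], aeval x p = algebraMap E L (algebraMap C[X] E p) := by
    intro p
    have h1 : (aeval x : C[X] →ₐ[C] L) =
        (IsScalarTower.toAlgHom C E L).comp (IsScalarTower.toAlgHom C C[X] E) := by
      apply Polynomial.algHom_ext
      rw [aeval_X]
      rfl
    rw [h1]
    rfl
  have hx : Transcendental C x := by
    rw [transcendental_iff_injective]
    intro p q hpq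
    rw [hap, hap] at hpq
    exact IsFractionRing.injective C[X] E ((algebraMap E L).injective hpq)
  let F := IntermediateField.adjoin C {x}
  have hmem : ∀ z : E, algebraMap E L z ∈ F := by
    intro z
    obtain ⟨p, q, hq, rfl⟩ := IsFractionRing.div_surjective (A := C[X]) z
    rw [map_div₀, ← hap, ← hap]
    exact (IntermediateField.mem_adjoin_simple_iff C _).2 ⟨p, q, rfl⟩
  let j : E →+* F := (algebraMap E L).codRestrict F hmem
  have halg : Algebra.IsAlgebraic F L := by
    let _ : Algebra E F := j.toAlgebra
    have : IsScalarTower E F L := IsScalarTower.of_algebraMap_eq fun z => rfl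
    refine ⟨fun z => ?_⟩
    exact (Algebra.IsAlgebraic.isAlgebraic (R := E) z).extendScalars j.injective
  obtain ⟨y, hy⟩ := IsAlgClosed.exists_pow_nat_eq
    (x ^ 3 + algebraMap K L a * x + algebraMap K L b) (n := 2) (by norm_num)
  have hr : Set.range (fun _ : Unit => x) = {x} := Set.range_const
  obtain ⟨D, hD⟩ := ext_exists (C := C) (x := fun _ : Unit => x)
    (algebraicIndependent_unique_type_iff.2 hx) (by rw [hr]; exact halg) (fun _ => 2 * y)
  exact ⟨L, inferInstance, inferInstance, inferInstance, hst, inferInstance,
    ⟨⟨x, y, D, hx, halg, hy, hD ()⟩⟩⟩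

end Pool.DynLehmer.LE.Qd
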