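import Pool.Agent.Lib.MP_2194ec_nt.LE.QuadB

set_option autoImplicit false
set_option linter.unusedSectionVars false

/-!
# The points which belong to the solutions of the equation of the endomorphisms
-/

namespace Pool.DynLehmer.LE.Qd
open Polynomial Pool.DynLehmer Pool.DynLehmer.LE Pool.DynLehmer.LE.Spe Pool.DynLehmer.LE.K2aux
open scoped Classical

variable {K : Type} [Field K] [CharZero K] {a b : K} {C L : Type} [Field C] [Algebra K C]
  [IsAlgClosed C] [Field L] [Algebra C L] [Algebra K L] [IsScalarTower K C L] [IsAlgClosed L]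
  (X : Ctx a b C L)

theorem mu_of_mulG (hab : 4 * a ^ 3 + 27 * b ^ 2 ≠ 0) (A B : C[X]) (g : C) (hB : B ≠ 0)
    (hW : derivative A * B - A * derivative B ≠ 0)
    (h : (Polynomial.X ^ 3 + Polynomial.C (algebraMap K C a) * Polynomial.X +
        Polynomial.C (algebraMap K C b)) * (derivative A * B - A * derivative B) ^ 2 =
      Polynomial.C (g ^ 2) * B * (A ^ 3 + Polynomial.C (algebraMap K C a) * A * B ^ 2 +
        Polynomial.C (algebraMap K C b) * B ^ 3)) : ∃ d, Mu X g d := by
  have hC : CharZero C := charZero_of_injective_algebraMap (algebraMap K C).injective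
  have hchL : CharZero L := charZero_of_injective_algebraMap (algebraMap C L).injective
  have hy := y_ne X
  have hBx : aeval X.x B ≠ 0 := fun h0 => hB (inj X (by rw [h0, map_zero]))
  have hWx : aeval X.x (derivative A) * aeval X.x B - aeval X.x A * aeval X.x (derivative B) ≠
      0 := by
    rw [← map_mul, ← map_mul, ← map_sub]
    exact fun h0 => hW (inj X (by rw [h0, map_zero]))
  have he := congrArg (aeval X.x) h
  simp only [map_sub, map_mul, map_add, map_pow, aeval_X, aeval_C] at he
  rw [← IsScalarTower.algebraMap_apply K C L, ← IsScalarTower.algebraMap_apply K C L,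
    ← X.hyy] at he
  have hg : algebraMap C L g ≠ 0 := by
    intro h0
    rw [h0, zero_pow two_ne_zero, zero_mul, zero_mul] at he
    exact mul_ne_zero (pow_ne_zero 2 hy) (pow_ne_zero 2 hWx) he
  set β := aeval X.x B with hβ
  set α := aeval X.x A with hα
  set w := aeval X.x (derivative A) * β - α * aeval X.x (derivative B) with hw
  set γ := algebraMap C L g with hγ
  have hΔ : ((Ws a b).baseChange L).Δ ≠ 0 := by
    have e : ((Ws a b).baseChange L).Δ = algebraMap K L (-16 * (4 * a ^ 3 + 27 * b ^ 2)) := by
      simp [WeierstrassCurve.Δ, WeierstrassCurve.b₂, WeierstrassCurve.b₄,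
        WeierstrassCurve.b₆, WeierstrassCurve.b₈, Ws, WeierstrassCurve.baseChange, map_ofNat]
      ring
    rw [e, Ne, map_eq_zero_iff _ (algebraMap K L).injective]
    exact mul_ne_zero (by norm_num) hab
  have heq : WeierstrassCurve.Affine.Equation ((Ws a b).baseChange L) (α / β)
      (X.y * w / (γ * β ^ 2)) := by
    rw [WeierstrassCurve.Affine.equation_iff]
    have h1 : (X.y * w / (γ * β ^ 2)) ^ 2 =
        (α / β) ^ 3 + algebraMap K L a * (α / β) + algebraMap K L b := by
      field_simp
      linear_combination he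
    simpa [Ws, WeierstrassCurve.baseChange] using h1
  have hns := (WeierstrassCurve.Affine.equation_iff_nonsingular_of_Δ_ne_zero hΔ).1 heq
  have hmem : ∀ p : C[X], aeval X.x p ∈ IntermediateField.adjoin C {X.x} := by
    intro p
    have hx := IntermediateField.mem_adjoin_simple_self C X.x
    have h2 : aeval X.x p = ((aeval (⟨X.x, hx⟩ : IntermediateField.adjoin C {X.x}) p :
        IntermediateField.adjoin C {X.x}) : L) := by
      have h3 := aeval_algHom_apply (IntermediateField.adjoin C {X.x}).val
        (⟨X.x, hx⟩ : IntermediateField.adjoin C {X.x}) p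
      exact h3
    rw [h2]
    exact SetLike.coe_mem _
  have hU : α / β ∈ IntermediateField.adjoin C {X.x} :=
    IntermediateField.div_mem _ (hmem A) (hmem B)
  have hodd : Odd X (WeierstrassCurve.Affine.Point.some (α / β) (X.y * w / (γ * β ^ 2)) hns :
      Ept a b L) := by
    refine (odd_some X hns hC).2 ⟨hU, ?_⟩
    have h4 : X.y * w / (γ * β ^ 2) / X.y = w / (γ * β ^ 2) := by
      field_simp
    rw [h4]
    refine IntermediateField.div_mem _ ?_ ?_
    · exact IntermediateField.sub_mem _ (IntermediateField.mul_mem _ (hmem _) (hmem _))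
        (IntermediateField.mul_mem _ (hmem _) (hmem _))
    · exact IntermediateField.mul_mem _ (IntermediateField.algebraMap_mem _ g)
        (pow_mem (hmem B) 2)
  obtain ⟨d, hd⟩ := hasDeg_mem X (P := (WeierstrassCurve.Affine.Point.some (α / β)
    (X.y * w / (γ * β ^ 2)) hns : Ept a b L)) hU
  refine ⟨d, _, hodd, ?_, hd⟩
  change X.D (α / β) / (2 * (X.y * w / (γ * β ^ 2))) = γ
  rw [Derivation.leibniz_div, hα, hβ, Derivation.map_aeval, Derivation.map_aeval, X.hD]
  simp only [smul_eq_mul]
  rw [← hα, ← hβ]
  have h5 : (2 : L) ≠ 0 := two_ne_zero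
  have h6 : β * (aeval X.x (derivative A) * (2 * X.y)) -
      α * (aeval X.x (derivative B) * (2 * X.y)) = w * (2 * X.y) := by
    rw [hw]
    ring
  rw [h6]
  field_simp

end Pool.DynLehmer.LE.Qd
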