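import Pool.Agent.Lib.MP_2194ec_nt.LE.QuadF
import Pool.Agent.Lib.MP_2194ec_nt.LE.QuadD
import Pool.Agent.Lib.MP_2194ec_nt.LE.QuadE
import Pool.Agent.Lib.MP_2194ec_nt.LE.Qspan
import Pool.Agent.Lib.MP_2194ec_nt.LE.DefsU

set_option autoImplicit false

/-!
# Row MULT
-/

namespace Pool.DynLehmer.LE
open Polynomial Pool.DynLehmer.LE.Qd
open scoped Classical

/-- **Row MULT.** -/
theorem mult (hAS : AddsubStatement) (hO : OmaddStatement) : MultStatement := by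
  intro K _ _ a b hab C _ _ _
  obtain ⟨L, _, _, _, _, _, ⟨X⟩⟩ := exists_ctx a b C
  have hC := hchC X
  obtain ⟨θ, hθ⟩ := quad_span {g : C | ∃ d, Mu X g d}
    (by
      rintro g ⟨d, hg⟩ h ⟨e, hh⟩
      obtain ⟨d₃, d₄, h3, -, -⟩ := mu_par X hAS hO hab g h d e hg hh
      exact ⟨d₃, h3⟩)
    (by
      rintro g ⟨d, hg⟩
      obtain ⟨t, ht⟩ := mu_quad X hAS hO hab g d hg
      exact ⟨t, d, by rw [ht]; push_cast; rfl⟩)
  refine ⟨θ, fun A B g hB hW h => ?_⟩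
  exact hθ g (mu_of_mulG X hab A B g hB hW h)

end Pool.DynLehmer.LE
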