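import Pool.Agent.Lib.MP_2194ec_nt.LE.Defs

set_option autoImplicit false

/-!
# The invariant differential of an elliptic curve is additive

`omega d W P` is `d x / (2 y + a₁ x + a₃)`, written so that it is also right at the points of
order two in every characteristic.
-/

namespace Pool.DynLehmer.LE
open WeierstrassCurve

section identities
variable {L : Type*} [Field L] (a₁ a₂ a₃ a₄ a₆ x₁ x₂ y₁ y₂ ℓ x₃ y₃ : L)

theorem coefx
    (h₁ : y₁ ^ 2 + a₁ * x₁ * y₁ + a₃ * y₁ = x₁ ^ 3 + a₂ * x₁ ^ 2 + a₄ * x₁ + a₆)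
    (h₂ : y₂ ^ 2 + a₁ * x₂ * y₂ + a₃ * y₂ = x₂ ^ 3 + a₂ * x₂ ^ 2 + a₄ * x₂ + a₆)
    (hx : x₁ - x₂ ≠ 0) (hl : ℓ * (x₁ - x₂) = y₁ - y₂)
    (hx₃ : x₃ = ℓ ^ 2 + a₁ * ℓ - a₂ - x₁ - x₂)
    (hy₃ : y₃ = -(ℓ * (x₃ - x₁) + y₁) - a₁ * x₃ - a₃) (e : L)
    (he : e * (x₁ - x₂) = (3 * x₁ ^ 2 + 2 * a₂ * x₁ + a₄ - a₁ * y₁) -
      ℓ * (2 * y₁ + a₁ * x₁ + a₃)) :
    (2 * ℓ + a₁) * e - (2 * y₁ + a₁ * x₁ + a₃) = 2 * y₃ + a₁ * x₃ + a₃ := by
  subst hy₃ hx₃
  have : (3 * x₁ ^ 2 + 2 * a₂ * x₁ + a₄ - a₁ * y₁) - ℓ * (2 * y₁ + a₁ * x₁ + a₃) =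
      (x₁ - x₂) * (2 * x₁ + x₂ + a₂ - ℓ ^ 2 - a₁ * ℓ) :=
    mul_left_cancel₀ hx (by grind)
  have he' : e = 2 * x₁ + x₂ + a₂ - ℓ ^ 2 - a₁ * ℓ := by
    rw [this] at he
    exact mul_right_cancel₀ hx (by rw [he]; ring)
  subst he'
  ring

theorem coefy
    (h₁ : y₁ ^ 2 + a₁ * x₁ * y₁ + a₃ * y₁ = x₁ ^ 3 + a₂ * x₁ ^ 2 + a₄ * x₁ + a₆)
    (h₂ : y₂ ^ 2 + a₁ * x₂ * y₂ + a₃ * y₂ = x₂ ^ 3 + a₂ * x₂ ^ 2 + a₄ * x₂ + a₆)
    (hx : x₁ - x₂ ≠ 0) (hl : ℓ * (x₁ - x₂) = y₁ - y₂)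
    (hx₃ : x₃ = ℓ ^ 2 + a₁ * ℓ - a₂ - x₁ - x₂)
    (hy₃ : y₃ = -(ℓ * (x₃ - x₁) + y₁) - a₁ * x₃ - a₃) (e : L)
    (he : e * (x₁ - x₂) = (3 * x₁ ^ 2 + 2 * a₂ * x₁ + a₄ - a₁ * y₁) -
      ℓ * (2 * y₁ + a₁ * x₁ + a₃)) :
    -(x₃ - x₁) * e - ℓ * ((2 * y₃ + a₁ * x₃ + a₃) - (2 * y₁ + a₁ * x₁ + a₃)) -
      (3 * x₁ ^ 2 + 2 * a₂ * x₁ + a₄ - a₁ * y₁) - a₁ * (2 * y₃ + a₁ * x₃ + a₃) =
      3 * x₃ ^ 2 + 2 * a₂ * x₃ + a₄ - a₁ * y₃ := by
  subst hy₃ hx₃
  have : (3 * x₁ ^ 2 + 2 * a₂ * x₁ + a₄ - a₁ * y₁) - ℓ * (2 * y₁ + a₁ * x₁ + a₃) =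
      (x₁ - x₂) * (2 * x₁ + x₂ + a₂ - ℓ ^ 2 - a₁ * ℓ) :=
    mul_left_cancel₀ hx (by grind)
  have he' : e = 2 * x₁ + x₂ + a₂ - ℓ ^ 2 - a₁ * ℓ := by
    rw [this] at he
    exact mul_right_cancel₀ hx (by rw [he]; ring)
  subst he'
  grind

end identities

section omega
variable {C L M : Type*} [CommRing C] [Field L] [Algebra C L] [AddCommGroup M] [Module C M]
  [Module L M]

/-- the derivation kills the coefficients of the curve -/
structure ConstCoef (d : Derivation C L M) (W : WeierstrassCurve L) : Prop where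
  a₁ : d W.a₁ = 0
  a₂ : d W.a₂ = 0
  a₃ : d W.a₃ = 0
  a₄ : d W.a₄ = 0
  a₆ : d W.a₆ = 0

theorem constCoef_map (d : Derivation C L M) (W : WeierstrassCurve C) :
    ConstCoef d (W.map (algebraMap C L)) :=
  ⟨by simp, by simp, by simp, by simp, by simp⟩

/-- `2 y + a₁ x + a₃` -/
def psi (W : WeierstrassCurve L) (x y : L) : L := 2 * y + W.a₁ * x + W.a₃

/-- `3 x ^ 2 + 2 a₂ x + a₄ - a₁ y` -/
def phi (W : WeierstrassCurve L) (x y : L) : L := 3 * x ^ 2 + 2 * W.a₂ * x + W.a₄ - W.a₁ * y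

theorem psi_or_phi {W : WeierstrassCurve L} {x y : L} (h : W.toAffine.Nonsingular x y) :
    psi W x y ≠ 0 ∨ phi W x y ≠ 0 := by
  rcases (Affine.nonsingular_iff' x y).1 h with ⟨-, h | h⟩
  · right
    intro h0
    apply h
    simp only [phi] at h0
    linear_combination -h0
  · left
    exact h

theorem psi_smul {d : Derivation C L M} {W : WeierstrassCurve L} (hc : ConstCoef d W) {x y : L}
    (h : W.toAffine.Equation x y) : psi W x y • d y = phi W x y • d x := by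
  have h1 := congrArg d ((Affine.equation_iff x y).1 h)
  simp only [map_add, Derivation.leibniz, Derivation.leibniz_pow, hc.a₁, hc.a₂, hc.a₃, hc.a₄,
    hc.a₆, smul_zero, add_zero] at h1
  have h2 : psi W x y • d y - phi W x y • d x = 0 := by
    rw [← sub_eq_zero] at h1
    rw [← h1]
    simp only [psi, phi]
    module
  exact sub_eq_zero.1 h2

open Classical in
/-- the invariant differential `d x / (2 y + a₁ x + a₃)` at a point -/
noncomputable def omega (d : Derivation C L M) (W : WeierstrassCurve L) : W.toAffine.Point → M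
  | .zero => 0
  | .some x y _ => if psi W x y = 0 then (phi W x y)⁻¹ • d y else (psi W x y)⁻¹ • d x

variable {d : Derivation C L M} {W : WeierstrassCurve L}

theorem omega_zero : omega d W 0 = 0 := rfl

theorem omega_spec (hc : ConstCoef d W) {x y : L} (h : W.toAffine.Nonsingular x y) :
    d x = psi W x y • omega d W (.some x y h) ∧ d y = phi W x y • omega d W (.some x y h) := by
  have h1 := psi_smul hc h.1
  by_cases h0 : psi W x y = 0
  · have h2 : phi W x y ≠ 0 := (psi_or_phi h).resolve_left (not_not.2 h0)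
    have h3 : omega d W (.some x y h) = (phi W x y)⁻¹ • d y := by simp [omega, h0]
    rw [h0, zero_smul] at h1
    refine ⟨?_, ?_⟩
    · rw [h0, zero_smul]
      exact (smul_eq_zero.1 h1.symm).resolve_left h2
    · rw [h3, smul_smul, mul_inv_cancel₀ h2, one_smul]
  · have h3 : omega d W (.some x y h) = (psi W x y)⁻¹ • d x := by simp [omega, h0]
    rw [h3, smul_smul, mul_inv_cancel₀ h0, one_smul, smul_smul]
    refine ⟨rfl, ?_⟩
    rw [mul_comm, ← smul_smul, ← h1, smul_smul, inv_mul_cancel₀ h0, one_smul]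

theorem omega_unique (hc : ConstCoef d W) {x y : L} (h : W.toAffine.Nonsingular x y) {w : M}
    (hx : d x = psi W x y • w) (hy : d y = phi W x y • w) : omega d W (.some x y h) = w := by
  obtain ⟨h1, h2⟩ := omega_spec hc h
  rcases psi_or_phi h with h0 | h0
  · exact (smul_right_injective M h0) (by simp only; rw [← h1, hx])
  · exact (smul_right_injective M h0) (by simp only; rw [← h2, hy])

theorem omega_neg (hc : ConstCoef d W) (P : W.toAffine.Point) :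
    omega d W (-P) = -omega d W P := by
  rcases P with _ | ⟨x, y, h⟩
  · exact (neg_zero).symm
  · obtain ⟨h1, h2⟩ := omega_spec hc h
    rw [Affine.Point.neg_some]
    apply omega_unique hc
    · rw [h1]
      simp only [psi, Affine.negY, smul_neg]
      rw [← neg_smul]
      congr 1
      ring
    · have h3 : d (W.toAffine.negY x y) = -d y - W.a₁ • d x := by
        simp only [Affine.negY, map_sub, map_neg, Derivation.leibniz, hc.a₁, hc.a₃, smul_zero,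
          add_zero, sub_zero]
      rw [h3, h2, h1, smul_neg, ← neg_smul, smul_smul, ← neg_smul, ← sub_smul]
      congr 1
      simp only [psi, phi, Affine.negY]
      ring

theorem omega_add_x (hc : ConstCoef d W) {x₁ y₁ x₂ y₂ : L} (h₁ : W.toAffine.Nonsingular x₁ y₁)
    (h₂ : W.toAffine.Nonsingular x₂ y₂) (hx : x₁ ≠ x₂) (x₃ y₃ ℓ : L)
    (h₃ : W.toAffine.Nonsingular x₃ y₃) (hl : ℓ * (x₁ - x₂) = y₁ - y₂)
    (hx₃ : x₃ = ℓ ^ 2 + W.a₁ * ℓ - W.a₂ - x₁ - x₂)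
    (hy₃ : y₃ = -(ℓ * (x₃ - x₁) + y₁) - W.a₁ * x₃ - W.a₃) :
    omega d W (.some x₃ y₃ h₃) = omega d W (.some x₁ y₁ h₁) + omega d W (.some x₂ y₂ h₂) := by
  have hx' : x₁ - x₂ ≠ 0 := sub_ne_zero.2 hx
  have hx'' : x₂ - x₁ ≠ 0 := sub_ne_zero.2 hx.symm
  obtain ⟨d1, d1'⟩ := omega_spec hc h₁
  obtain ⟨d2, d2'⟩ := omega_spec hc h₂
  set w₁ := omega d W (.some x₁ y₁ h₁)
  set w₂ := omega d W (.some x₂ y₂ h₂)
  set e₁ : L := (phi W x₁ y₁ - ℓ * psi W x₁ y₁) / (x₁ - x₂) with he₁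
  set e₂ : L := (phi W x₂ y₂ - ℓ * psi W x₂ y₂) / (x₂ - x₁) with he₂
  have e1 : e₁ * (x₁ - x₂) = phi W x₁ y₁ - ℓ * psi W x₁ y₁ := div_mul_cancel₀ _ hx'
  have e2 : e₂ * (x₂ - x₁) = phi W x₂ y₂ - ℓ * psi W x₂ y₂ := div_mul_cancel₀ _ hx''
  have hl2 : ℓ * (x₂ - x₁) = y₂ - y₁ := by linear_combination -hl
  have dl : d ℓ = e₁ • w₁ + e₂ • w₂ := by
    have h := congrArg d hl
    simp only [Derivation.leibniz, map_sub] at h
    have h' : (x₁ - x₂) • d ℓ = (x₁ - x₂) • (e₁ • w₁ + e₂ • w₂) := by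
      have : (x₁ - x₂) • d ℓ = (d y₁ - d y₂) - ℓ • (d x₁ - d x₂) := by
        rw [← h]; abel
      rw [this, d1, d1', d2, d2']
      have e2' : e₂ * (x₁ - x₂) = -(phi W x₂ y₂ - ℓ * psi W x₂ y₂) := by
        linear_combination -e2
      rw [smul_add, smul_smul, smul_smul, mul_comm _ e₁, mul_comm _ e₂, e1, e2']
      module
    exact smul_right_injective M hx' h'
  have q₁ := (Affine.equation_iff x₁ y₁).1 h₁.1
  have q₂ := (Affine.equation_iff x₂ y₂).1 h₂.1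
  have hx₃' : x₃ = ℓ ^ 2 + W.a₁ * ℓ - W.a₂ - x₂ - x₁ := by rw [hx₃]; ring
  have hy₃' : y₃ = -(ℓ * (x₃ - x₂) + y₂) - W.a₁ * x₃ - W.a₃ := by
    rw [hy₃]; linear_combination hl
  have cx1 := coefx W.a₁ W.a₂ W.a₃ W.a₄ W.a₆ x₁ x₂ y₁ y₂ ℓ x₃ y₃ q₁ q₂ hx' hl hx₃ hy₃ e₁ e1
  have cx2 := coefx W.a₁ W.a₂ W.a₃ W.a₄ W.a₆ x₂ x₁ y₂ y₁ ℓ x₃ y₃ q₂ q₁ hx'' hl2 hx₃' hy₃' e₂ e2
  have cy1 := coefy W.a₁ W.a₂ W.a₃ W.a₄ W.a₆ x₁ x₂ y₁ y₂ ℓ x₃ y₃ q₁ q₂ hx' hl hx₃ hy₃ e₁ e1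
  have cy2 := coefy W.a₁ W.a₂ W.a₃ W.a₄ W.a₆ x₂ x₁ y₂ y₁ ℓ x₃ y₃ q₂ q₁ hx'' hl2 hx₃' hy₃' e₂ e2
  have dx3 : d x₃ = psi W x₃ y₃ • (w₁ + w₂) := by
    have : d x₃ = (2 * ℓ + W.a₁) • d ℓ - d x₁ - d x₂ := by
      rw [hx₃]
      simp only [map_sub, map_add, Derivation.leibniz, Derivation.leibniz_pow, hc.a₁, hc.a₂,
        smul_zero, add_zero, sub_zero]
      module
    rw [this, dl, d1, d2]
    have k1 : (2 * ℓ + W.a₁) * e₁ - psi W x₁ y₁ = psi W x₃ y₃ := cx1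
    have k2 : (2 * ℓ + W.a₁) * e₂ - psi W x₂ y₂ = psi W x₃ y₃ := cx2
    calc _ = ((2 * ℓ + W.a₁) * e₁ - psi W x₁ y₁) • w₁ + ((2 * ℓ + W.a₁) * e₂ - psi W x₂ y₂) • w₂ := by
          module
      _ = _ := by rw [k1, k2, smul_add]
  have dy3 : d y₃ = phi W x₃ y₃ • (w₁ + w₂) := by
    have : d y₃ = -(x₃ - x₁) • d ℓ - ℓ • (d x₃ - d x₁) - d y₁ - W.a₁ • d x₃ := by
      rw [hy₃]
      simp only [map_sub, map_neg, map_add, Derivation.leibniz, hc.a₁, hc.a₃,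
        smul_zero, add_zero, sub_zero]
      module
    rw [this, dl, d1, dx3, d1']
    have k1 : -(x₃ - x₁) * e₁ - ℓ * (psi W x₃ y₃ - psi W x₁ y₁) - phi W x₁ y₁ -
        W.a₁ * psi W x₃ y₃ = phi W x₃ y₃ := cy1
    have k2 : -(x₃ - x₁) * e₂ - ℓ * psi W x₃ y₃ - W.a₁ * psi W x₃ y₃ = phi W x₃ y₃ := by
      have : -(x₃ - x₂) * e₂ - ℓ * (psi W x₃ y₃ - psi W x₂ y₂) - phi W x₂ y₂ -
        W.a₁ * psi W x₃ y₃ = phi W x₃ y₃ := cy2
      linear_combination this - e2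
    calc _ = (-(x₃ - x₁) * e₁ - ℓ * (psi W x₃ y₃ - psi W x₁ y₁) - phi W x₁ y₁ -
        W.a₁ * psi W x₃ y₃) • w₁ + (-(x₃ - x₁) * e₂ - ℓ * psi W x₃ y₃ -
          W.a₁ * psi W x₃ y₃) • w₂ := by
          module
      _ = _ := by rw [k1, k2, smul_add]
  exact omega_unique hc h₃ dx3 dy3

theorem omega_dbl (hc : ConstCoef d W) {x₁ y₁ : L} (h₁ : W.toAffine.Nonsingular x₁ y₁)
    (h0 : psi W x₁ y₁ ≠ 0) (x₃ y₃ ℓ : L)
    (h₃ : W.toAffine.Nonsingular x₃ y₃) (hl : ℓ * psi W x₁ y₁ = phi W x₁ y₁)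
    (hx₃ : x₃ = ℓ ^ 2 + W.a₁ * ℓ - W.a₂ - x₁ - x₁)
    (hy₃ : y₃ = -(ℓ * (x₃ - x₁) + y₁) - W.a₁ * x₃ - W.a₃) :
    omega d W (.some x₃ y₃ h₃) = omega d W (.some x₁ y₁ h₁) + omega d W (.some x₁ y₁ h₁) := by
  obtain ⟨d1, d1'⟩ := omega_spec hc h₁
  set w₁ := omega d W (.some x₁ y₁ h₁)
  have dl : d ℓ = (-2 * (x₃ - x₁)) • w₁ := by
    have h := congrArg d hl
    have hψ : d (psi W x₁ y₁) = (2 * phi W x₁ y₁ + W.a₁ * psi W x₁ y₁) • w₁ := by
      have : d (psi W x₁ y₁) = 2 • d y₁ + W.a₁ • d x₁ := by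
        have h2 : psi W x₁ y₁ = (y₁ + y₁) + W.a₁ * x₁ + W.a₃ := by
          simp only [psi]; ring
        rw [h2]
        simp only [map_add, Derivation.leibniz, hc.a₁, hc.a₃, smul_zero, add_zero]
        module
      rw [this, d1, d1']
      module
    have hφ : d (phi W x₁ y₁) = ((6 * x₁ + 2 * W.a₂) * psi W x₁ y₁ - W.a₁ * phi W x₁ y₁) • w₁ := by
      have : d (phi W x₁ y₁) = (6 * x₁ + 2 * W.a₂) • d x₁ - W.a₁ • d y₁ := by
        have h2 : phi W x₁ y₁ = (x₁ ^ 2 + x₁ ^ 2 + x₁ ^ 2) + (W.a₂ * x₁ + W.a₂ * x₁) + W.a₄ -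
            W.a₁ * y₁ := by
          simp only [phi]; ring
        rw [h2]
        simp only [map_add, map_sub, Derivation.leibniz, Derivation.leibniz_pow, hc.a₁, hc.a₂,
          hc.a₄, smul_zero, add_zero]
        module
      rw [this, d1, d1']
      module
    rw [Derivation.leibniz, hψ, hφ] at h
    have h' : psi W x₁ y₁ • d ℓ = psi W x₁ y₁ • ((-2 * (x₃ - x₁)) • w₁) := by
      have h3 : psi W x₁ y₁ • d ℓ = ((6 * x₁ + 2 * W.a₂) * psi W x₁ y₁ - W.a₁ * phi W x₁ y₁) • w₁ -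
          ℓ • (2 * phi W x₁ y₁ + W.a₁ * psi W x₁ y₁) • w₁ := by
        rw [← h]; abel
      rw [h3, smul_smul, smul_smul, ← sub_smul]
      congr 1
      rw [← hl, hx₃]
      ring
    exact smul_right_injective M h0 h'
  have q₁ := (Affine.equation_iff x₁ y₁).1 h₁.1
  have kx : (2 * ℓ + W.a₁) * (-2 * (x₃ - x₁)) - 2 * psi W x₁ y₁ = 2 * psi W x₃ y₃ := by
    simp only [psi]
    rw [hy₃, hx₃]
    ring
  have ky : -(x₃ - x₁) * (-2 * (x₃ - x₁)) - ℓ * (2 * psi W x₃ y₃ - psi W x₁ y₁) -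
      phi W x₁ y₁ - W.a₁ * (2 * psi W x₃ y₃) = 2 * phi W x₃ y₃ := by
    rw [← hl]
    simp only [psi, phi] at hl ⊢
    rw [hy₃, hx₃]
    grind
  have dx3 : d x₃ = psi W x₃ y₃ • (w₁ + w₁) := by
    have : d x₃ = (2 * ℓ + W.a₁) • d ℓ - d x₁ - d x₁ := by
      rw [hx₃]
      simp only [map_sub, map_add, Derivation.leibniz, Derivation.leibniz_pow, hc.a₁, hc.a₂,
        smul_zero, add_zero, sub_zero]
      module
    rw [this, dl, d1]
    calc _ = ((2 * ℓ + W.a₁) * (-2 * (x₃ - x₁)) - 2 * psi W x₁ y₁) • w₁ := by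
          module
      _ = _ := by rw [kx]; module
  have dy3 : d y₃ = phi W x₃ y₃ • (w₁ + w₁) := by
    have : d y₃ = -(x₃ - x₁) • d ℓ - ℓ • (d x₃ - d x₁) - d y₁ - W.a₁ • d x₃ := by
      rw [hy₃]
      simp only [map_sub, map_neg, map_add, Derivation.leibniz, hc.a₁, hc.a₃,
        smul_zero, add_zero, sub_zero]
      module
    rw [this, dl, d1, dx3, d1']
    calc _ = (-(x₃ - x₁) * (-2 * (x₃ - x₁)) - ℓ * (2 * psi W x₃ y₃ - psi W x₁ y₁) -
      phi W x₁ y₁ - W.a₁ * (2 * psi W x₃ y₃)) • w₁ := by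
          module
      _ = _ := by rw [ky]; module
  exact omega_unique hc h₃ dx3 dy3

/-- **The invariant differential is additive.** -/
theorem omega_add [DecidableEq L] (hc : ConstCoef d W) (P Q : W.toAffine.Point) :
    omega d W (P + Q) = omega d W P + omega d W Q := by
  rcases P with _ | ⟨x₁, y₁, h₁⟩
  · show omega d W (0 + Q) = omega d W 0 + omega d W Q
    rw [zero_add, omega_zero, zero_add]
  rcases Q with _ | ⟨x₂, y₂, h₂⟩
  · show omega d W (_ + 0) = _ + omega d W 0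
    rw [add_zero, omega_zero, add_zero]
  by_cases hxy : x₁ = x₂ ∧ y₁ = W.toAffine.negY x₂ y₂
  · rw [Affine.Point.add_of_Y_eq hxy.1 hxy.2, omega_zero]
    have : Affine.Point.some x₁ y₁ h₁ = -Affine.Point.some x₂ y₂ h₂ := by
      rw [Affine.Point.neg_some, Affine.Point.some.injEq]
      exact hxy
    rw [this, omega_neg hc, neg_add_cancel]
  rw [Affine.Point.add_some hxy]
  by_cases hx : x₁ = x₂
  · have hy : y₁ ≠ W.toAffine.negY x₂ y₂ := fun h => hxy ⟨hx, h⟩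
    have hy' : y₁ = y₂ := Affine.Y_eq_of_Y_ne h₁.1 h₂.1 hx hy
    subst hx hy'
    have h0 : psi W x₁ y₁ ≠ 0 := by
      intro h
      apply hy
      simp only [psi] at h
      simp only [Affine.negY]
      linear_combination h
    refine omega_dbl hc h₁ h0 _ _ (W.toAffine.slope x₁ x₁ y₁ y₁) _ ?_ ?_ ?_
    · rw [Affine.slope_of_Y_ne rfl hy]
      have h0' : y₁ - W.toAffine.negY x₁ y₁ = psi W x₁ y₁ := by
        simp only [psi, Affine.negY]; ring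
      rw [h0', div_mul_cancel₀ _ h0]
      simp only [phi]
    · simp only [Affine.addX]
    · simp only [Affine.addY, Affine.negAddY, Affine.negY]
  · have hx' : x₁ - x₂ ≠ 0 := sub_ne_zero.2 hx
    refine omega_add_x hc h₁ h₂ hx _ _ (W.toAffine.slope x₁ x₂ y₁ y₂) _ ?_ ?_ ?_
    · rw [Affine.slope_of_X_ne hx, div_mul_cancel₀ _ hx']
    · simp only [Affine.addX]
    · simp only [Affine.addY, Affine.negAddY, Affine.negY]

end omega

theorem om_eq_omega {K : Type} [Field K] [CharZero K] {a b : K} {C L : Type} [Field C]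
    [Field L] [Algebra K L] [Algebra C L] (D : Derivation C L L) (P : Ept a b L) :
    om D P = omega D ((Ws a b).baseChange L) P := by
  have : CharZero L := charZero_of_injective_algebraMap (algebraMap K L).injective
  rcases P with _ | ⟨x, y, h⟩
  · rfl
  · have h1 : psi ((Ws a b).baseChange L) x y = 2 * y := by
      simp [psi, Ws, WeierstrassCurve.baseChange]
    by_cases hy : y = 0
    · subst hy
      have h2 : psi ((Ws a b).baseChange L) x 0 = 0 := by rw [h1, mul_zero]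
      simp [om, omega, h2]
    · have : (2 : L) * y ≠ 0 := mul_ne_zero two_ne_zero hy
      simp only [om, omega, h1, this, if_false, smul_eq_mul]
      rw [div_eq_mul_inv, mul_comm]

theorem constCoef_ws {K : Type} [Field K] {a b : K} {C L : Type} [Field C] [Algebra K C]
    [Field L] [Algebra K L] [Algebra C L] [IsScalarTower K C L] (D : Derivation C L L) :
    ConstCoef D ((Ws a b).baseChange L) := by
  have h : ∀ c : K, D (algebraMap K L c) = 0 := fun c => by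
    rw [IsScalarTower.algebraMap_apply K C L, Derivation.map_algebraMap]
  refine ⟨?_, ?_, ?_, ?_, ?_⟩ <;> simp [Ws, WeierstrassCurve.baseChange, h]

/-- **Row OMADD.** -/
theorem omadd : OmaddStatement := by
  intro K _ _ a b _ C L _ _ _ _ _ _ D P Q
  classical
  simp only [om_eq_omega]
  exact omega_add (constCoef_ws D) P Q

end Pool.DynLehmer.LE
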