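import Pool.Agent.Lib.MP_2194ec_nt.LE.Open
import Pool.Agent.Lib.MP_2194ec_nt.LE.DefsU

set_option autoImplicit false

/-!
# Row OPEN over row LATU
-/

namespace Pool.DynLehmer.LE
open MvPolynomial NumberField Filter Topology Pool.DynLehmer Pool.DynLehmer.SB Pool.DynLehmer.SP
  Pool.DynLehmer.GS Pool.DynLehmer.LP Pool.DynLehmer.LW
open scoped Classical

/-- **The Lehmer bound for elliptic curves with open image of the Galois group**, for all points of
infinite order for which the group of permutations of the classes of conjugates modulo torsion has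
composition factors which are abelian or of order at most `e ^ A`. -/
def OpenuStatement : Prop :=
  ∀ (K : Type) [Field K] [NumberField K] (a b : K), 4 * a ^ 3 + 27 * b ^ 2 ≠ 0 → OpenIm a b →
    ∀ (p s lam : ℕ) (v : FinitePlace K) (F : Fin 2 → MvPolynomial (Fin 2) K), HypR p s v F →
    2 ≤ lam → lam ^ 2 = p ^ s → IsLat a b lam F →
    ∀ A : ℕ, ∃ c : ℝ, 0 < c ∧
    ∀ (N : Type) [Field N] [NumberField N] [Algebra K N] [IsGalois K N] (P : Ept a b N),
      (∀ n : ℕ, 1 ≤ n → n • P ≠ 0) →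
      (∃ (e : ℕ) (τ : Fin e → (N ≃ₐ[K] N)),
        (∀ i j, i ≠ j → ¬ Tq (pm (τ i : N →ₐ[K] N) P) (pm (τ j : N →ₐ[K] N) P)) ∧
        ∃ (l : ℕ) (L : ℕ → Subgroup (N ≃ₐ[K] N)),
          (∀ g ∈ L 0, ∀ h : N ≃ₐ[K] N, Tq (pm ((g * h : N ≃ₐ[K] N) : N →ₐ[K] N) P)
            (pm (h : N →ₐ[K] N) P)) ∧ L l = ⊤ ∧
          ∀ i < l, L i ≤ L (i + 1) ∧ (∀ x ∈ L (i + 1), ∀ y ∈ L i, x * y * x⁻¹ ∈ L i) ∧
            ((∀ x ∈ L (i + 1), ∀ y ∈ L (i + 1), x * y * x⁻¹ * y⁻¹ ∈ L i) ∨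
              (L i).relIndex (L (i + 1)) ≤ e ^ A)) →
      ∃ h : ℝ, HasHt (p ^ s) F P.xRep h ∧ c / (dg K P.xRep : ℝ) ≤ h

open Op in
/-- **Row OPEN** without a hypothesis on the complex multiplication. -/
theorem openu (hCls : ClseStatement) (hLat : LatuStatement) : OpenuStatement := by
  intro K _ _ a b hD hOp p s lam v F hR hlam hq hL A
  obtain ⟨B, hB⟩ := red_all hCls hD hOp
  obtain ⟨c, hc, H⟩ := hLat K a b hD p s lam v F hR hlam hq hL A (B + 6)
  have hq2 : 2 ≤ p ^ s := by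
    rw [← hq]
    nlinarith
  refine ⟨c / 2, by positivity, ?_⟩
  intro N _ _ _ _ P hP hser
  obtain ⟨e, τ, R, he1, hR0, hτ, hmax, hm, hT, hfin⟩ :=
    hB (p ^ s) lam F hq2 (Pool.DynLehmer.GS.mor K p s v F hR) hL N P hP
  obtain ⟨e₀, τ₀, hτ₀, l, L, hL0, hLl, hLi⟩ := hser
  have he : e₀ ≤ e := hmax e₀ τ₀ hτ₀
  obtain ⟨h', hh', hle⟩ := H N R hR0 ⟨e, τ, hτ, by
      refine hm.trans ?_
      exact Nat.mul_le_mul (by omega) (Nat.pow_le_pow_right he1 (by omega)),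
      l, L, fun g hg h => (hT _ _).2 (hL0 g hg h), hLl, fun i hi => by
        obtain ⟨h3, h4, h5⟩ := hLi i hi
        exact ⟨h3, h4, h5.imp id fun h6 => h6.trans (Nat.pow_le_pow_left he A)⟩⟩
  exact hfin c h' hc hh' hle

end Pool.DynLehmer.LE
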