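import Mathlib.RingTheory.Ideal.MinimalPrime.Localization
import Mathlib.RingTheory.Ideal.MinimalPrime.Noetherian
import Mathlib.RingTheory.Polynomial.Basic
import Pool.Agent.Lib.MP_2194ec_nt.LE.DefsU

set_option autoImplicit false

/-!
# The generic point of a periodic component of the closure of an orbit
-/

namespace Pool.DynLehmer.LE
open MvPolynomial
open scoped Classical

namespace PcP

/-- one step of the rational map `(A i / B i)` -/
noncomputable def stp {K : Type} [Field K] {k : ℕ} (A B : Fin k → MvPolynomial (Fin k) K)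
    {E : Type} [Field E] [Algebra K E] (s : Fin k → E) : Fin k → E :=
  fun i => aeval s (A i) / aeval s (B i)

/-- the numerator of the composition of a polynomial with the rational map -/
theorem exists_nm {K : Type} [Field K] {k : ℕ} (A B : Fin k → MvPolynomial (Fin k) K)
    (Q : MvPolynomial (Fin k) K) : ∃ (Q' : MvPolynomial (Fin k) K) (n : ℕ),
      ∀ (E : Type) [Field E] [Algebra K E] (s : Fin k → E), (∀ i, aeval s (B i) ≠ 0) →
        aeval s Q' = (∏ i, aeval s (B i)) ^ n * aeval (stp A B s) Q := by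
  induction Q using MvPolynomial.induction_on with
  | C c =>
    refine ⟨C c, 0, fun E _ _ s _ => ?_⟩
    rw [aeval_C, aeval_C, pow_zero, one_mul]
  | add p q hp hq =>
    obtain ⟨p', n, hp⟩ := hp
    obtain ⟨q', m, hq⟩ := hq
    refine ⟨(∏ i, B i) ^ m * p' + (∏ i, B i) ^ n * q', n + m, fun E _ _ s hs => ?_⟩
    rw [map_add, map_mul, map_mul, map_pow, map_pow, map_prod, hp E s hs, hq E s hs, map_add]
    ring
  | mul_X p i hp =>
    obtain ⟨p', n, hp⟩ := hp
    refine ⟨p' * (A i * ∏ j ∈ Finset.univ.erase i, B j), n + 1, fun E _ _ s hs => ?_⟩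
    rw [map_mul, map_mul, map_prod, hp E s hs, map_mul, aeval_X,
      ← Finset.mul_prod_erase Finset.univ (fun j => aeval s (B j)) (Finset.mem_univ i)]
    have h1 : stp A B s i = aeval s (A i) / aeval s (B i) := rfl
    rw [h1]
    have h2 := hs i
    field_simp
    ring

/-- every prime ideal has a generic point -/
theorem gen_pt {K : Type} [Field K] {k : ℕ} (I : Ideal (MvPolynomial (Fin k) K)) (hI : I.IsPrime) :
    ∃ (E : Type) (_ : Field E) (_ : Algebra K E) (t : Fin k → E),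
      ∀ Q : MvPolynomial (Fin k) K, aeval t Q = 0 ↔ Q ∈ I := by
  refine ⟨FractionRing (MvPolynomial (Fin k) K ⧸ I), inferInstance, inferInstance,
    fun i => algebraMap (MvPolynomial (Fin k) K ⧸ I) _ (Ideal.Quotient.mk I (X i)), fun Q => ?_⟩
  have h : (aeval fun i => algebraMap (MvPolynomial (Fin k) K ⧸ I)
      (FractionRing (MvPolynomial (Fin k) K ⧸ I)) (Ideal.Quotient.mk I (X i))) =
      ((Algebra.ofId (MvPolynomial (Fin k) K ⧸ I)
        (FractionRing (MvPolynomial (Fin k) K ⧸ I))).restrictScalars K).comp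
        (Ideal.Quotient.mkₐ K I) := by
    refine MvPolynomial.algHom_ext fun i => ?_
    rw [aeval_X]
    rfl
  rw [h]
  change algebraMap (MvPolynomial (Fin k) K ⧸ I) (FractionRing (MvPolynomial (Fin k) K ⧸ I))
    (Ideal.Quotient.mk I Q) = 0 ↔ Q ∈ I
  rw [map_eq_zero_iff _ (IsFractionRing.injective _ _), Ideal.Quotient.eq_zero_iff_mem]

end PcP

open PcP in
/-- **The generic point of a periodic component of the closure of an orbit.** -/
theorem pc : PcStatement := by
  intro K N _ _ _ k A B x hB hx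
  choose nm nn hnm using exists_nm A B
  have hnm0 : ∀ (Q : MvPolynomial (Fin k) K) (E : Type) [Field E] [Algebra K E] (s : Fin k → E),
      (∀ i, aeval s (B i) ≠ 0) → (aeval s (nm Q) = 0 ↔ aeval (stp A B s) Q = 0) := by
    intro Q E _ _ s hs
    rw [hnm Q E s hs, mul_eq_zero, or_iff_right]
    exact pow_ne_zero _ (Finset.prod_ne_zero_iff.2 fun i _ => hs i)
  have hx' : ∀ l, x (l + 1) = stp A B (x l) := fun l => funext (hx l)
  -- the ideals of the tails
  let J : ℕ → Ideal (MvPolynomial (Fin k) K) := fun n =>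
    ⨅ (l : ℕ) (_ : n ≤ l), RingHom.ker (aeval (R := K) (x l))
  have hJ : ∀ n Q, Q ∈ J n ↔ ∀ l, n ≤ l → aeval (x l) Q = 0 := by
    intro n Q
    simp only [J, Ideal.mem_iInf, RingHom.mem_ker]
  have hmono : Monotone J := by
    intro n m hnm Q hQ
    rw [hJ] at hQ ⊢
    exact fun l hl => hQ l (hnm.trans hl)
  obtain ⟨n, hn⟩ := (monotone_stabilizes_iff_noetherian (R := MvPolynomial (Fin k) K)
    (M := MvPolynomial (Fin k) K)).2 inferInstance ⟨J, hmono⟩
  have hn1 : J n = J (n + 1) := hn (n + 1) (Nat.le_succ n)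
  have hJnm : ∀ Q, nm Q ∈ J n ↔ Q ∈ J n := by
    intro Q
    conv_rhs => rw [hn1]
    rw [hJ, hJ]
    constructor
    · intro h l hl
      obtain ⟨l, rfl⟩ : ∃ m, l = m + 1 := ⟨l - 1, by omega⟩
      rw [hx', ← hnm0 Q N (x l) (hB l)]
      exact h l (by omega)
    · intro h l hl
      rw [hnm0 Q N (x l) (hB l), ← hx']
      exact h (l + 1) (by omega)
  have hrad : (J n).radical = J n := by
    refine le_antisymm ?_ Ideal.le_radical
    rintro Q ⟨m, hm⟩
    rw [hJ] at hm ⊢
    intro l hl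
    have := hm l hl
    rw [map_pow] at this
    by_contra h
    exact pow_ne_zero m h this
  have hfin : (J n).minimalPrimes.Finite := Ideal.finite_minimalPrimes_of_isNoetherianRing _ _
  have : Finite (J n).minimalPrimes := hfin
  have : Fintype (J n).minimalPrimes := Fintype.ofFinite _
  have hsInf : ∀ Q, (∀ I : (J n).minimalPrimes, Q ∈ I.1) → Q ∈ J n := by
    intro Q hQ
    rw [← hrad, ← Ideal.sInf_minimalPrimes, Ideal.mem_sInf]
    intro I hI
    exact hQ ⟨I, hI⟩
  have hprime : ∀ I : (J n).minimalPrimes, I.1.IsPrime := fun I => I.2.1.1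
  have hle : ∀ I : (J n).minimalPrimes, J n ≤ I.1 := fun I => I.2.1.2
  have hBI : ∀ (I : (J n).minimalPrimes) (i : Fin k), B i ∉ I.1 := by
    intro I i hi
    obtain ⟨y, hy, hBy⟩ := Ideal.exists_mul_mem_of_mem_minimalPrimes I.2 hi
    refine hy ?_
    rw [hJ] at hBy ⊢
    intro l hl
    have := hBy l hl
    rw [map_mul] at this
    exact (mul_eq_zero.1 this).resolve_left (hB l i)
  -- the image of a component
  have hΦ : ∀ I : (J n).minimalPrimes, ∃ I' : Ideal (MvPolynomial (Fin k) K), I'.IsPrime ∧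
      ∀ Q, Q ∈ I' ↔ nm Q ∈ I.1 := by
    intro I
    obtain ⟨E, _, _, t, ht⟩ := gen_pt I.1 (hprime I)
    refine ⟨RingHom.ker (aeval (R := K) (stp A B t)), RingHom.ker_isPrime _, fun Q => ?_⟩
    rw [RingHom.mem_ker, ← hnm0 Q E t fun i h => hBI I i ((ht _).1 h)]
    exact ht _
  choose Φ hΦp hΦ using hΦ
  have hτ : ∀ I : (J n).minimalPrimes, ∃ I₁ : (J n).minimalPrimes, Φ I₁ = I.1 := by
    intro I
    have h1 : Finset.univ.inf Φ ≤ I.1 := by
      intro Q hQ
      refine hle I ((hJnm Q).1 (hsInf _ fun I₁ => ?_))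
      rw [← hΦ]
      exact Finset.inf_le (f := Φ) (Finset.mem_univ I₁) hQ
    obtain ⟨I₁, -, h2⟩ := (hprime I).inf_le'.1 h1
    refine ⟨I₁, le_antisymm h2 ?_⟩
    refine I.2.2 ⟨hΦp I₁, fun Q hQ => ?_⟩ h2
    rw [hΦ]
    exact hle I₁ ((hJnm Q).2 hQ)
  choose τ hτ using hτ
  have hτi : Function.Injective τ := by
    intro I I' h
    apply Subtype.ext
    rw [← hτ I, ← hτ I', h]
  let σ : Equiv.Perm (J n).minimalPrimes := Equiv.ofBijective τ hτi.bijective_of_finite
  have hσ : ∀ I : (J n).minimalPrimes, Φ I = (σ⁻¹ I : (J n).minimalPrimes).1 := by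
    intro I
    have h1 := hτ (σ⁻¹ I)
    rw [← h1]
    congr 1
    exact (σ.apply_symm_apply I).symm
  obtain ⟨I₀, hI₀⟩ : ∃ I : (J n).minimalPrimes, I.1 ≤ RingHom.ker (aeval (R := K) (x n)) := by
    have hk : (RingHom.ker (aeval (R := K) (x n))).IsPrime := RingHom.ker_isPrime _
    obtain ⟨p, hp, hp'⟩ := Ideal.exists_minimalPrimes_le (I := J n)
      (J := RingHom.ker (aeval (R := K) (x n)))
      (fun Q hQ => by rw [RingHom.mem_ker]; exact (hJ n Q).1 hQ n le_rfl)
    exact ⟨⟨p, hp⟩, hp'⟩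
  obtain ⟨E, iF, iA, t, ht⟩ := gen_pt I₀.1 (hprime I₀)
  have hit : ∀ j, ∀ Q : MvPolynomial (Fin k) K,
      aeval ((stp A B (E := E))^[j] t) Q = 0 ↔ Q ∈ ((σ⁻¹ ^ j) I₀ : (J n).minimalPrimes).1 := by
    intro j
    induction j with
    | zero => exact ht
    | succ j ih =>
      intro Q
      rw [Function.iterate_succ_apply', ← hnm0 Q E _ fun i h => hBI _ i ((ih _).1 h), ih, ← hΦ, hσ,
        pow_succ']
      rfl
  refine ⟨n, orderOf σ⁻¹, E, iF, iA, t, orderOf_pos _, fun j i => ?_, fun Q => ?_, fun Q hQ => ?_,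
    fun Q hQ => ?_⟩
  · exact fun h => hBI _ i ((hit j _).1 h)
  · have h1 := hit (orderOf σ⁻¹) Q
    rw [pow_orderOf_eq_one] at h1
    exact (ht Q).trans h1.symm
  · exact hI₀ ((ht Q).1 hQ)
  · exact (ht Q).2 (hle I₀ ((hJ n Q).2 fun l _ => hQ l))

end Pool.DynLehmer.LE
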