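import Pool.Agent.Lib.MP_2194ec_nt.LE.Defs2
import Mathlib.RingTheory.Localization.BaseChange
import Mathlib.LinearAlgebra.TensorProduct.Tower

set_option autoImplicit false

/-!
# Row REPE: the points modulo torsion as a rational representation of the Galois group
-/

namespace Pool.DynLehmer.LE
open MvPolynomial NumberField Filter Topology Pool.DynLehmer Pool.DynLehmer.SB Pool.DynLehmer.SP
  Pool.DynLehmer.GS Pool.DynLehmer.LP Pool.DynLehmer.LW
open scoped Classical TensorProduct

/-- Two elements of an abelian group with the same image in the tensor product with `ℚ` are equal up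
to torsion. -/
theorem repe_torsion {M : Type} [AddCommGroup M] (P Q : M)
    (h : (1 : ℚ) ⊗ₜ[ℤ] P = (1 : ℚ) ⊗ₜ[ℤ] Q) : ∃ r : ℕ, 1 ≤ r ∧ r • P = r • Q := by
  have hloc : IsLocalizedModule (nonZeroDivisors ℤ) (TensorProduct.mk ℤ ℚ M 1) :=
    (isLocalizedModule_iff_isBaseChange (nonZeroDivisors ℤ) ℚ _).mpr
      (TensorProduct.isBaseChange ℤ M ℚ)
  obtain ⟨c, hc⟩ := hloc.exists_of_eq (x₁ := P) (x₂ := Q) h
  have hc0 : (c : ℤ) ≠ 0 := nonZeroDivisors.ne_zero c.2
  refine ⟨(c : ℤ).natAbs, Int.natAbs_pos.mpr hc0, ?_⟩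
  have hc' : (c : ℤ) • P = (c : ℤ) • Q := hc
  rcases Int.natAbs_eq (c : ℤ) with h1 | h1
  · rw [h1, natCast_zsmul, natCast_zsmul] at hc'
    exact hc'
  · rw [h1, neg_smul, neg_smul, natCast_zsmul, natCast_zsmul] at hc'
    exact neg_injective hc'

/-- Row REPE. -/
theorem repe : RepeStatement := by
  intro K _ a b N _ _
  refine ⟨ℚ ⊗[ℤ] Ept a b N, inferInstance, inferInstance,
    { toFun := fun σ => LinearMap.baseChange ℚ
        (pm (a := a) (b := b) (σ : N →ₐ[K] N)).toIntLinearMap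
      map_one' := ?_
      map_mul' := ?_ }, (TensorProduct.mk ℤ ℚ (Ept a b N) 1).toAddMonoidHom, ?_, ?_⟩
  · have h : (pm (a := a) (b := b) ((1 : N ≃ₐ[K] N) : N →ₐ[K] N)).toIntLinearMap =
        LinearMap.id := by
      ext P
      cases P <;> rfl
    rw [h]
    exact LinearMap.baseChange_id
  · intro σ τ
    have h : (pm (a := a) (b := b) ((σ * τ : N ≃ₐ[K] N) : N →ₐ[K] N)).toIntLinearMap =
        (pm (a := a) (b := b) (σ : N →ₐ[K] N)).toIntLinearMap ∘ₗ
          (pm (a := a) (b := b) (τ : N →ₐ[K] N)).toIntLinearMap := by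
      ext P
      cases P <;> rfl
    rw [h, LinearMap.baseChange_comp]
    rfl
  · intro σ P
    rfl
  · intro P Q h
    exact repe_torsion P Q h

end Pool.DynLehmer.LE
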