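import Pool.Agent.Lib.MP_2194ec_nt.LE.Defs
import Mathlib.RingTheory.Valuation.LocalSubring
import Mathlib.FieldTheory.IsAlgClosed.AlgebraicClosure

set_option autoImplicit false

/-!
# Row SPEC: specialisation of a relation between points, through the first coordinates
-/

namespace Pool.DynLehmer.LE.Spe
open MvPolynomial Pool.DynLehmer.LE
open scoped Classical

/-- the symmetric square of a pair of vectors -/
def sy {R : Type} [CommRing R] (u v : Fin 2 → R) : Fin 3 → R :=
  ![u 0 * v 0, u 0 * v 1 + u 1 * v 0, u 1 * v 1]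

/-- the map of Mathlib for the curve `y ^ 2 = x ^ 3 + a x + b` -/
def zf {R : Type} [CommRing R] (a b : R) (w : Fin 3 → R) : Fin 3 → R :=
  ![w 0 ^ 2 - 2 * a * w 0 * w 2 - 4 * b * w 1 * w 2 + a ^ 2 * w 2 ^ 2,
    2 * w 1 * w 0 + 2 * a * w 1 * w 2 + 4 * b * w 2 ^ 2,
    w 1 ^ 2 - 4 * w 0 * w 2]

theorem zf_smul {R : Type} [CommRing R] (a b : R) (c : R) (w v : Fin 3 → R)
    (h : ∀ i, v i = c * w i) (i : Fin 3) : zf a b v i = c ^ 2 * zf a b w i := by
  fin_cases i <;> simp [zf, h] <;> ring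

theorem zf_map {R S : Type} [CommRing R] [CommRing S] (f : R →+* S) (a b : R) (w : Fin 3 → R)
    (i : Fin 3) : f (zf a b w i) = zf (f a) (f b) (fun j => f (w j)) i := by
  fin_cases i <;> simp [zf, map_ofNat]

theorem sy_smul {R : Type} [CommRing R] (c d : R) (u v u' v' : Fin 2 → R)
    (h : ∀ i, u' i = c * u i) (h' : ∀ i, v' i = d * v i) (i : Fin 3) :
    sy u' v' i = c * d * sy u v i := by
  fin_cases i <;> simp [sy, h, h'] <;> ring

theorem sy_map {R S : Type} [CommRing R] [CommRing S] (f : R →+* S) (u v : Fin 2 → R)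
    (i : Fin 3) : f (sy u v i) = sy (fun j => f (u j)) (fun j => f (v j)) i := by
  fin_cases i <;> simp [sy]

theorem eval_addSub {K : Type} [Field K] (a b : K) {L : Type} [Field L] [Algebra K L]
    (w : Fin 3 → L) (i : Fin 3) :
    eval w (((Ws a b).baseChange L).addSubMap i) = zf (algebraMap K L a) (algebraMap K L b) w i := by
  fin_cases i <;>
    simp [WeierstrassCurve.addSubMap, zf, WeierstrassCurve.b₂, WeierstrassCurve.b₄,
      WeierstrassCurve.b₆, WeierstrassCurve.b₈, Ws, WeierstrassCurve.baseChange]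

section
variable {K : Type} [Field K] {a b : K} {L Ω : Type} [Field L] [Algebra K L] [Field Ω]
  [Algebra K Ω] (O : ValuationSubring L) (ρ : O →+* Ω)

/-- uniqueness of the reduction of a point of a projective space -/
theorem uniq {n : ℕ} (u v : Fin n → O) (κ : L) (hκ : κ ≠ 0) (h : ∀ i, (v i : L) = κ * u i)
    (hu : ∃ i, ρ (u i) ≠ 0) (hv : ∃ i, ρ (v i) ≠ 0) :
    ∃ μ : Ω, μ ≠ 0 ∧ ∀ i, ρ (v i) = μ * ρ (u i) := by
  rcases O.mem_or_inv_mem κ with hk | hk
  · have e : ∀ i, v i = ⟨κ, hk⟩ * u i := fun i => Subtype.ext (h i)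
    refine ⟨ρ ⟨κ, hk⟩, ?_, fun i => by rw [e i, map_mul]⟩
    intro h0
    obtain ⟨i, hi⟩ := hv
    exact hi (by rw [e i, map_mul, h0, zero_mul])
  · have e : ∀ i, u i = ⟨κ⁻¹, hk⟩ * v i := fun i => Subtype.ext (by
      change (u i : L) = κ⁻¹ * v i
      rw [h i, ← mul_assoc, inv_mul_cancel₀ hκ, one_mul])
    have h0 : ρ ⟨κ⁻¹, hk⟩ ≠ 0 := by
      intro h0
      obtain ⟨i, hi⟩ := hu
      exact hi (by rw [e i, map_mul, h0, zero_mul])
    refine ⟨(ρ ⟨κ⁻¹, hk⟩)⁻¹, inv_ne_zero h0, fun i => ?_⟩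
    rw [e i, map_mul, ← mul_assoc, inv_mul_cancel₀ h0, one_mul]

/-- the first coordinate of `P` reduces to the first coordinate of `p` -/
def Ma (P : Ept a b L) (p : Ept a b Ω) : Prop :=
  ∃ (u : Fin 2 → O) (c : L) (d : Ω), c ≠ 0 ∧ d ≠ 0 ∧
    (∀ i, (u i : L) = c * WeierstrassCurve.Affine.Point.xRep P i) ∧
    ∀ i, ρ (u i) = d * WeierstrassCurve.Affine.Point.xRep p i

variable {O ρ}

theorem Ma.congr {P P' : Ept a b L} {p p' : Ept a b Ω} (h : Ma O ρ P p)
    (hP : WeierstrassCurve.Affine.Point.xRep P' = WeierstrassCurve.Affine.Point.xRep P)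
    (hp : WeierstrassCurve.Affine.Point.xRep p' = WeierstrassCurve.Affine.Point.xRep p) :
    Ma O ρ P' p' := by
  obtain ⟨u, c, d, hc, hd, h1, h2⟩ := h
  exact ⟨u, c, d, hc, hd, fun i => by rw [hP]; exact h1 i, fun i => by rw [hp]; exact h2 i⟩

theorem ma_zero : Ma O ρ (0 : Ept a b L) (0 : Ept a b Ω) := by
  refine ⟨![1, 0], 1, 1, one_ne_zero, one_ne_zero, fun i => ?_, fun i => ?_⟩
  · fin_cases i <;> simp
  · fin_cases i <;> simp

theorem xRep_prop {W : WeierstrassCurve.Affine Ω} (p q : W.Point) (μ : Ω) (hμ : μ ≠ 0)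
    (h : ∀ i, q.xRep i = μ * p.xRep i) : q.xRep = p.xRep := by
  have h0 := h 0
  have h1 := h 1
  rcases p with _ | ⟨x, y, hx⟩ <;> rcases q with _ | ⟨x', y', hx'⟩
  · rfl
  · simp [WeierstrassCurve.Affine.Point.xRep] at h1
  · simp [WeierstrassCurve.Affine.Point.xRep] at h1
    exact absurd h1.symm hμ
  · simp [WeierstrassCurve.Affine.Point.xRep] at h0 h1 ⊢
    rw [h0, ← h1, one_mul]

theorem Ma.unique {P : Ept a b L} {p p' : Ept a b Ω} (h : Ma O ρ P p) (h' : Ma O ρ P p') :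
    WeierstrassCurve.Affine.Point.xRep p' = WeierstrassCurve.Affine.Point.xRep p := by
  obtain ⟨u, c, d, hc, hd, h1, h2⟩ := h
  obtain ⟨v, c', d', hc', hd', h1', h2'⟩ := h'
  have ne : ∀ (q : Ept a b Ω), ∃ i, WeierstrassCurve.Affine.Point.xRep q i ≠ 0 := fun q => by
    by_contra hcon
    push Not at hcon
    exact WeierstrassCurve.Affine.Point.xRep_ne_zero q (funext hcon)
  obtain ⟨μ, hμ, e⟩ := uniq O ρ u v (c' / c) (div_ne_zero hc' hc)
    (fun i => by rw [h1, h1']; field_simp)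
    (by obtain ⟨i, hi⟩ := ne p; exact ⟨i, by rw [h2]; exact mul_ne_zero hd hi⟩)
    (by obtain ⟨i, hi⟩ := ne p'; exact ⟨i, by rw [h2']; exact mul_ne_zero hd' hi⟩)
  refine xRep_prop p p' (d'⁻¹ * μ * d) (mul_ne_zero (mul_ne_zero (inv_ne_zero hd') hμ) hd)
    (fun i => ?_)
  have := e i
  rw [h2, h2'] at this
  rw [mul_assoc, mul_assoc, ← this, ← mul_assoc, inv_mul_cancel₀ hd', one_mul]

theorem sym_prop {W : WeierstrassCurve.Affine Ω} (p q r s : W.Point) (μ : Ω) (hμ : μ ≠ 0)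
    (h : ∀ i, p.sym2x q i = μ * r.sym2x s i) :
    (p.xRep = r.xRep ∧ q.xRep = s.xRep) ∨ (p.xRep = s.xRep ∧ q.xRep = r.xRep) := by
  have h0 := h 0
  have h1 := h 1
  have h2 := h 2
  clear h
  rcases p with _ | ⟨x, y, hx⟩ <;> rcases q with _ | ⟨x', y', hx'⟩ <;>
    rcases r with _ | ⟨z, t, hz⟩ <;> rcases s with _ | ⟨z', t', hz'⟩ <;>
    simp [WeierstrassCurve.Affine.Point.sym2x, WeierstrassCurve.Affine.Point.xRep, hμ,
      eq_comm (a := (0 : Ω))] at h0 h1 h2 ⊢
  · rw [h0, ← h1, one_mul]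
  · rw [h0, ← h1, one_mul]
  · rw [h0, ← h1, one_mul]
  · rw [h0, ← h1, one_mul]
  · rw [← h2, one_mul] at h0 h1
    have h3 : (x - z) * (x - z') = 0 := by linear_combination x * h1 - h0
    rcases mul_eq_zero.1 h3 with h4 | h4
    · left
      have e : x = z := sub_eq_zero.1 h4
      exact ⟨e, by rw [e] at h1; exact add_left_cancel h1⟩
    · right
      have e : x = z' := sub_eq_zero.1 h4
      exact ⟨e, by rw [e, add_comm z z'] at h1; exact add_left_cancel h1⟩

/-- existence of the reduction -/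
theorem ma_exists [CharZero K] (hab : 4 * a ^ 3 + 27 * b ^ 2 ≠ 0) [IsAlgClosed Ω]
    (P : Ept a b L) : ∃ p : Ept a b Ω, Ma O ρ P p := by
  have hch : CharZero Ω := charZero_of_injective_algebraMap (algebraMap K Ω).injective
  have pt : ∀ x : Ω, ∃ p : Ept a b Ω, WeierstrassCurve.Affine.Point.xRep p = ![x, 1] := by
    intro x
    obtain ⟨y, hy⟩ := IsAlgClosed.exists_pow_nat_eq
      (x ^ 3 + algebraMap K Ω a * x + algebraMap K Ω b) (n := 2) (by norm_num)
    have hD : ((Ws a b).baseChange Ω).Δ ≠ 0 := by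
      have e : ((Ws a b).baseChange Ω).Δ = algebraMap K Ω (-16 * (4 * a ^ 3 + 27 * b ^ 2)) := by
        simp [WeierstrassCurve.Δ, WeierstrassCurve.b₂, WeierstrassCurve.b₄,
          WeierstrassCurve.b₆, WeierstrassCurve.b₈, Ws, WeierstrassCurve.baseChange, map_ofNat]
        ring
      rw [e, Ne, map_eq_zero_iff _ (algebraMap K Ω).injective]
      exact mul_ne_zero (by norm_num) hab
    have heq : WeierstrassCurve.Affine.Equation ((Ws a b).baseChange Ω) x y := by
      rw [WeierstrassCurve.Affine.equation_iff]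
      simp [Ws, WeierstrassCurve.baseChange]
      linear_combination hy
    exact ⟨.some x y ((WeierstrassCurve.Affine.equation_iff_nonsingular_of_Δ_ne_zero hD).1 heq),
      rfl⟩
  rcases P with _ | ⟨x, y, hx⟩
  · exact ⟨0, ma_zero⟩
  · rcases O.mem_or_inv_mem x with hk | hk
    · obtain ⟨p, hp⟩ := pt (ρ ⟨x, hk⟩)
      refine ⟨p, ![⟨x, hk⟩, 1], 1, 1, one_ne_zero, one_ne_zero, fun i => ?_, fun i => ?_⟩
      · fin_cases i <;> simp [WeierstrassCurve.Affine.Point.xRep]
      · rw [hp]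
        fin_cases i <;> simp
    · by_cases h0 : ρ ⟨x⁻¹, hk⟩ = 0
      · by_cases hx0 : x = 0
        · have hk' : x ∈ O := by rw [hx0]; exact O.zero_mem
          obtain ⟨p, hp⟩ := pt (ρ ⟨x, hk'⟩)
          refine ⟨p, ![⟨x, hk'⟩, 1], 1, 1, one_ne_zero, one_ne_zero, fun i => ?_, fun i => ?_⟩
          · fin_cases i <;> simp [WeierstrassCurve.Affine.Point.xRep]
          · rw [hp]
            fin_cases i <;> simp
        · refine ⟨0, ![1, ⟨x⁻¹, hk⟩], x⁻¹, 1, inv_ne_zero hx0, one_ne_zero, fun i => ?_,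
            fun i => ?_⟩
          · fin_cases i <;> simp [WeierstrassCurve.Affine.Point.xRep, hx0]
          · fin_cases i <;> simp [h0]
      · obtain ⟨p, hp⟩ := pt (ρ ⟨x⁻¹, hk⟩)⁻¹
        have hx0 : x ≠ 0 := by
          rintro rfl
          apply h0
          have : (⟨(0 : L)⁻¹, hk⟩ : O) = 0 := Subtype.ext inv_zero
          rw [this, map_zero]
        refine ⟨p, ![1, ⟨x⁻¹, hk⟩], x⁻¹, ρ ⟨x⁻¹, hk⟩, inv_ne_zero hx0, h0, fun i => ?_,
            fun i => ?_⟩
        · fin_cases i <;> simp [WeierstrassCurve.Affine.Point.xRep, hx0]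
        · rw [hp]
          fin_cases i <;> simp [h0]

theorem exists_ne_of_ne {n : ℕ} {R : Type} [Zero R] {v : Fin n → R} (h : v ≠ 0) :
    ∃ i, v i ≠ 0 := by
  by_contra hcon
  push Not at hcon
  exact h (funext hcon)

/-- the reduction of the sum and of the difference -/
theorem ma_add [CharZero K] (hAS : AddsubStatement) (hab : 4 * a ^ 3 + 27 * b ^ 2 ≠ 0)
    [IsAlgClosed Ω] (hK : ∀ c : K, ∃ h : algebraMap K L c ∈ O,
      ρ ⟨algebraMap K L c, h⟩ = algebraMap K Ω c)
    {P Q : Ept a b L} {p q : Ept a b Ω} (hP : Ma O ρ P p) (hQ : Ma O ρ Q q) :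
    (Ma O ρ (P + Q) (p + q) ∧ Ma O ρ (P - Q) (p - q)) ∨
      (Ma O ρ (P + Q) (p - q) ∧ Ma O ρ (P - Q) (p + q)) := by
  obtain ⟨r, hr⟩ := ma_exists (O := O) (ρ := ρ) hab (P + Q)
  obtain ⟨s, hs⟩ := ma_exists (O := O) (ρ := ρ) hab (P - Q)
  have key : (WeierstrassCurve.Affine.Point.xRep (p + q) = WeierstrassCurve.Affine.Point.xRep r ∧
        WeierstrassCurve.Affine.Point.xRep (p - q) = WeierstrassCurve.Affine.Point.xRep s) ∨
      (WeierstrassCurve.Affine.Point.xRep (p + q) = WeierstrassCurve.Affine.Point.xRep s ∧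
        WeierstrassCurve.Affine.Point.xRep (p - q) = WeierstrassCurve.Affine.Point.xRep r) := by
    obtain ⟨u, c, d, hc, hd, hu1, hu2⟩ := hP
    obtain ⟨u', c', d', hc', hd', hu1', hu2'⟩ := hQ
    obtain ⟨v, e, f, he, hf, hv1, hv2⟩ := hr
    obtain ⟨v', e', f', he', hf', hv1', hv2'⟩ := hs
    obtain ⟨c₁, hc₁, h1⟩ := hAS L ((Ws a b).baseChange L) P Q
    obtain ⟨c₂, hc₂, h2⟩ := hAS Ω ((Ws a b).baseChange Ω) p q
    obtain ⟨ha, ha'⟩ := hK a
    obtain ⟨hb, hb'⟩ := hK b
    -- the vectors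
    have w1 : ∀ i, ((sy u u' i : O) : L) = c * c' * WeierstrassCurve.Affine.Point.sym2x P Q i := by
      intro i
      have e1 : ((sy u u' i : O) : L) = sy (fun j => (u j : L)) (fun j => (u' j : L)) i :=
        sy_map O.subtype u u' i
      rw [e1]
      exact sy_smul c c' _ _ _ _ hu1 hu1' i
    have w2 : ∀ i, ρ (sy u u' i) = d * d' * WeierstrassCurve.Affine.Point.sym2x p q i := by
      intro i
      rw [sy_map ρ u u' i]
      exact sy_smul d d' _ _ _ _ hu2 hu2' i
    have y1 : ∀ i, ((sy v v' i : O) : L) =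
        e * e' * WeierstrassCurve.Affine.Point.sym2x (P + Q) (P - Q) i := by
      intro i
      have e1 : ((sy v v' i : O) : L) = sy (fun j => (v j : L)) (fun j => (v' j : L)) i :=
        sy_map O.subtype v v' i
      rw [e1]
      exact sy_smul e e' _ _ _ _ hv1 hv1' i
    have y2 : ∀ i, ρ (sy v v' i) = f * f' * WeierstrassCurve.Affine.Point.sym2x r s i := by
      intro i
      rw [sy_map ρ v v' i]
      exact sy_smul f f' _ _ _ _ hv2 hv2' i
    let z : Fin 3 → O := zf ⟨algebraMap K L a, ha⟩ ⟨algebraMap K L b, hb⟩ (sy u u')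
    have z1 : ∀ i, (z i : L) = (c * c') ^ 2 * c₁ *
        WeierstrassCurve.Affine.Point.sym2x (P + Q) (P - Q) i := by
      intro i
      have e1 : (z i : L) = zf (algebraMap K L a) (algebraMap K L b)
          (fun j => ((sy u u' j : O) : L)) i := zf_map O.subtype _ _ _ i
      rw [e1, zf_smul _ _ (c * c') _ _ w1 i, ← eval_addSub a b, mul_assoc]
      congr 1
      exact congrFun h1 i
    have z2 : ∀ i, ρ (z i) = (d * d') ^ 2 * c₂ *
        WeierstrassCurve.Affine.Point.sym2x (p + q) (p - q) i := by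
      intro i
      have e1 : ρ (z i) = zf (algebraMap K Ω a) (algebraMap K Ω b)
          (fun j => ρ (sy u u' j)) i := by
        rw [← ha', ← hb']
        exact zf_map ρ _ _ _ i
      rw [e1, zf_smul _ _ (d * d') _ _ w2 i, ← eval_addSub a b, mul_assoc]
      congr 1
      exact congrFun h2 i
    obtain ⟨μ, hμ, hz⟩ := uniq O ρ (sy v v') z ((c * c') ^ 2 * c₁ / (e * e'))
      (div_ne_zero (mul_ne_zero (pow_ne_zero _ (mul_ne_zero hc hc')) hc₁) (mul_ne_zero he he'))
      (fun i => by rw [z1, y1]; field_simp)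
      (by
        obtain ⟨i, hi⟩ := exists_ne_of_ne (WeierstrassCurve.Affine.Point.sym2x_ne_zero r s)
        exact ⟨i, by rw [y2]; exact mul_ne_zero (mul_ne_zero hf hf') hi⟩)
      (by
        obtain ⟨i, hi⟩ := exists_ne_of_ne
          (WeierstrassCurve.Affine.Point.sym2x_ne_zero (p + q) (p - q))
        exact ⟨i, by
          rw [z2]
          exact mul_ne_zero (mul_ne_zero (pow_ne_zero _ (mul_ne_zero hd hd')) hc₂) hi⟩)
    have hA : (d * d') ^ 2 * c₂ ≠ 0 := mul_ne_zero (pow_ne_zero _ (mul_ne_zero hd hd')) hc₂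
    refine sym_prop (p + q) (p - q) r s (((d * d') ^ 2 * c₂)⁻¹ * μ * (f * f'))
      (mul_ne_zero (mul_ne_zero (inv_ne_zero hA) hμ) (mul_ne_zero hf hf')) (fun i => ?_)
    have h3 := hz i
    rw [z2, y2] at h3
    rw [mul_assoc, mul_assoc, ← h3, ← mul_assoc, inv_mul_cancel₀ hA, one_mul]
  rcases key with ⟨k1, k2⟩ | ⟨k1, k2⟩
  · exact Or.inl ⟨hr.congr rfl k1, hs.congr rfl k2⟩
  · exact Or.inr ⟨hr.congr rfl k2, hs.congr rfl k1⟩

theorem ma_nsmul [CharZero K] (hAS : AddsubStatement) (hab : 4 * a ^ 3 + 27 * b ^ 2 ≠ 0)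
    [IsAlgClosed Ω] (hK : ∀ c : K, ∃ h : algebraMap K L c ∈ O,
      ρ ⟨algebraMap K L c, h⟩ = algebraMap K Ω c)
    {P : Ept a b L} {p : Ept a b Ω} (hP : Ma O ρ P p) (n : ℕ) :
    Ma O ρ (n • P) (n • p) ∧ Ma O ρ ((n + 1) • P) ((n + 1) • p) := by
  induction n with
  | zero =>
    refine ⟨?_, ?_⟩
    · rw [zero_smul, zero_smul]
      exact ma_zero
    · rw [zero_add, one_smul, one_smul]
      exact hP
  | succ n ih =>
    refine ⟨ih.2, ?_⟩
    have e1 : (n + 1) • P + P = (n + 1 + 1) • P := (succ_nsmul P (n + 1)).symm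
    have e2 : (n + 1) • P - P = n • P := by rw [succ_nsmul, add_sub_cancel_right]
    have e3 : (n + 1) • p + p = (n + 1 + 1) • p := (succ_nsmul p (n + 1)).symm
    have e4 : (n + 1) • p - p = n • p := by rw [succ_nsmul, add_sub_cancel_right]
    rcases ma_add hAS hab hK ih.2 hP with ⟨h1, -⟩ | ⟨h1, h2⟩
    · rw [e1, e3] at h1
      exact h1
    · rw [e1, e4] at h1
      rw [e2, e3] at h2
      exact h1.congr rfl (ih.1.unique h2)

theorem ma_neg {P : Ept a b L} {p : Ept a b Ω} (hP : Ma O ρ P p) : Ma O ρ (-P) (-p) :=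
  hP.congr (WeierstrassCurve.Affine.Point.xRep_neg P) (WeierstrassCurve.Affine.Point.xRep_neg p)

theorem ma_zsmul [CharZero K] (hAS : AddsubStatement) (hab : 4 * a ^ 3 + 27 * b ^ 2 ≠ 0)
    [IsAlgClosed Ω] (hK : ∀ c : K, ∃ h : algebraMap K L c ∈ O,
      ρ ⟨algebraMap K L c, h⟩ = algebraMap K Ω c)
    {P : Ept a b L} {p : Ept a b Ω} (hP : Ma O ρ P p) (n : ℤ) : Ma O ρ (n • P) (n • p) := by
  rcases Int.natAbs_eq n with h | h
  · rw [h, natCast_zsmul, natCast_zsmul]
    exact (ma_nsmul hAS hab hK hP _).1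
  · rw [h, neg_smul, neg_smul, natCast_zsmul, natCast_zsmul]
    exact ma_neg (ma_nsmul hAS hab hK hP _).1

theorem ma_sum [CharZero K] (hAS : AddsubStatement) (hab : 4 * a ^ 3 + 27 * b ^ 2 ≠ 0)
    [IsAlgClosed Ω] (hK : ∀ c : K, ∃ h : algebraMap K L c ∈ O,
      ρ ⟨algebraMap K L c, h⟩ = algebraMap K Ω c) {k : ℕ}
    (P : Fin k → Ept a b L) (p : Fin k → Ept a b Ω) (hP : ∀ i, Ma O ρ (P i) (p i))
    (γ : Fin k → ℤ) (s : Finset (Fin k)) :
    ∃ ε : Fin k → ℤ, (∀ i, ε i = 1 ∨ ε i = -1) ∧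
      Ma O ρ (∑ i ∈ s, γ i • P i) (∑ i ∈ s, (ε i * γ i) • p i) := by
  induction s using Finset.induction_on with
  | empty =>
    refine ⟨fun _ => 1, fun _ => Or.inl rfl, ?_⟩
    rw [Finset.sum_empty, Finset.sum_empty]
    exact ma_zero
  | insert j s hj ih =>
    obtain ⟨ε, hε, h⟩ := ih
    have hs : ∀ c : ℤ, ∑ i ∈ s, (Function.update ε j c i * γ i) • p i =
        ∑ i ∈ s, (ε i * γ i) • p i := fun c => Finset.sum_congr rfl fun i hi => by
      have e : i ≠ j := fun e => hj (e ▸ hi)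
      rw [Function.update_of_ne e]
    have hε' : ∀ c : ℤ, (c = 1 ∨ c = -1) → ∀ i, Function.update ε j c i = 1 ∨
        Function.update ε j c i = -1 := fun c hc i => by
      by_cases e : i = j
      · rw [e, Function.update_self]
        exact hc
      · rw [Function.update_of_ne e]
        exact hε i
    rcases ma_add hAS hab hK h (ma_zsmul hAS hab hK (hP j) (γ j)) with ⟨h1, -⟩ | ⟨h1, -⟩
    · refine ⟨Function.update ε j 1, hε' 1 (Or.inl rfl), ?_⟩
      rw [Finset.sum_insert hj, Finset.sum_insert hj, hs, Function.update_self, one_mul,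
        add_comm (γ j • P j), add_comm (γ j • p j)]
      exact h1
    · refine ⟨Function.update ε j (-1), hε' (-1) (Or.inr rfl), ?_⟩
      rw [Finset.sum_insert hj, Finset.sum_insert hj, hs, Function.update_self, neg_one_mul,
        neg_smul, add_comm (γ j • P j), add_comm (-(γ j • p j)), ← sub_eq_add_neg]
      exact h1

theorem ma_zero_left {p : Ept a b Ω} (h : Ma O ρ (0 : Ept a b L) p) : p = 0 := by
  have h1 := (ma_zero (O := O) (ρ := ρ) (a := a) (b := b)).unique h
  rcases WeierstrassCurve.Affine.Point.eq_or_eq_neg_of_xRep_eq_xRep h1 with h2 | h2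
  · exact h2
  · rw [h2, neg_zero]

end

/-- two extensions of a field in a common extension -/
theorem amalg {κ A B : Type} [Field κ] [Field A] [Field B] (f : κ →+* A) (g : κ →+* B) :
    ∃ (Ω : Type) (_ : Field Ω) (_ : IsAlgClosed Ω) (i : A →+* Ω) (j : B →+* Ω),
      i.comp f = j.comp g := by
  let _ := f.toAlgebra
  let _ := g.toAlgebra
  obtain ⟨M, hM⟩ := Ideal.exists_maximal (TensorProduct κ A B)
  let _ := Ideal.Quotient.field M
  let Ω := AlgebraicClosure (TensorProduct κ A B ⧸ M)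
  let r : TensorProduct κ A B →+* Ω :=
    (algebraMap (TensorProduct κ A B ⧸ M) Ω).comp (Ideal.Quotient.mk M)
  refine ⟨Ω, inferInstance, inferInstance,
    r.comp (Algebra.TensorProduct.includeLeftRingHom),
    r.comp (Algebra.TensorProduct.includeRight : B →ₐ[κ] TensorProduct κ A B).toRingHom, ?_⟩
  ext c
  have h1 : Algebra.TensorProduct.includeLeftRingHom (f c) =
      algebraMap κ (TensorProduct κ A B) c := rfl
  have h2 : (Algebra.TensorProduct.includeRight : B →ₐ[κ] TensorProduct κ A B) (g c) =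
      algebraMap κ (TensorProduct κ A B) c :=
    (Algebra.TensorProduct.includeRight : B →ₐ[κ] TensorProduct κ A B).commutes c
  exact congrArg r (h1.trans h2.symm)

/-- a place over a specialisation -/
theorem place {R L N : Type} [CommRing R] [Field L] [Field N] (f : R →+* L) (g : R →+* N)
    (h : ∀ r, f r = 0 → g r = 0) :
    ∃ (Ω : Type) (_ : Field Ω) (_ : IsAlgClosed Ω) (O : ValuationSubring L) (ρ : O →+* Ω)
      (j : N →+* Ω), ∀ r, ∃ hr : f r ∈ O, ρ ⟨f r, hr⟩ = j (g r) := by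
  let 𝔭 : Ideal R := RingHom.ker g
  have h𝔭 : 𝔭.IsPrime := RingHom.ker_isPrime g
  let S := Localization.AtPrime 𝔭
  have hfu : ∀ y : 𝔭.primeCompl, IsUnit (f y) := fun y =>
    isUnit_iff_ne_zero.2 fun e => y.2 (h _ e)
  have hgu : ∀ y : 𝔭.primeCompl, IsUnit (g y) := fun y =>
    isUnit_iff_ne_zero.2 fun e => y.2 e
  let f' : S →+* L := IsLocalization.lift hfu
  let g' : S →+* N := IsLocalization.lift hgu
  obtain ⟨O, hO, hloc⟩ := IsLocalRing.exists_factor_valuationRing f'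
  let f'' : S →+* O := f'.codRestrict O.toSubring hO
  have : IsLocalHom f'' := hloc
  have : IsLocalHom g' := by
    refine ⟨fun s hs => ?_⟩
    obtain ⟨r, t, rfl⟩ := IsLocalization.exists_mk'_eq 𝔭.primeCompl s
    have h1 : g r ≠ 0 := by
      intro h0
      have h2 : g' (IsLocalization.mk' S r t) * g t = g r := by
        have h3 := congrArg g' (IsLocalization.mk'_spec S r t)
        rw [map_mul] at h3
        rw [← IsLocalization.lift_eq (S := S) hgu (t : R), ← IsLocalization.lift_eq (S := S) hgu r]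
        exact h3
      rw [h0] at h2
      rcases mul_eq_zero.1 h2 with h3 | h3
      · exact hs.ne_zero h3
      · exact (hgu t).ne_zero h3
    exact (IsLocalization.AtPrime.isUnit_mk'_iff S 𝔭 r t).2 h1
  let κ := IsLocalRing.ResidueField S
  obtain ⟨Ω, hΩ, hΩ', i, j, hij⟩ := amalg (IsLocalRing.ResidueField.map f'' : κ →+* _)
    (IsLocalRing.ResidueField.lift g' : κ →+* N)
  refine ⟨Ω, hΩ, hΩ', O, i.comp (IsLocalRing.residue O), j, fun r => ?_⟩
  have hr : f' (algebraMap R S r) = f r := IsLocalization.lift_eq hfu r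
  have hO' : f r ∈ O := hr ▸ hO _
  refine ⟨hO', ?_⟩
  have e1 : (⟨f r, hO'⟩ : O) = f'' (algebraMap R S r) := Subtype.ext hr.symm
  rw [RingHom.comp_apply, e1]
  have e2 : IsLocalRing.residue O (f'' (algebraMap R S r)) =
    IsLocalRing.ResidueField.map f'' (IsLocalRing.residue S (algebraMap R S r)) := rfl
  rw [e2]
  have e3 := RingHom.congr_fun hij (IsLocalRing.residue S (algebraMap R S r))
  rw [RingHom.comp_apply, RingHom.comp_apply] at e3
  rw [e3]
  congr 1
  have e4 : IsLocalRing.ResidueField.lift g' (IsLocalRing.residue S (algebraMap R S r)) =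
    g' (algebraMap R S r) := rfl
  rw [e4]
  exact IsLocalization.lift_eq hgu r

end Pool.DynLehmer.LE.Spe

namespace Pool.DynLehmer.LE
open MvPolynomial Pool.DynLehmer.LE.Spe
open scoped Classical

theorem spec (hAS : AddsubStatement) : SpecStatement := by
  intro K _ _ a b hab L N _ _ _ _ _ k P p hP hp hQ γ hγ
  obtain ⟨Ω, hΩ, hΩ', O, ρ, j, hr⟩ := place
    (aeval (fun i => xc (P i)) : MvPolynomial (Fin k) K →ₐ[K] L).toRingHom
    (aeval (fun i => xc (p i)) : MvPolynomial (Fin k) K →ₐ[K] N).toRingHom hQ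
  let _ : Algebra K Ω := (j.comp (algebraMap K N)).toAlgebra
  let jA : N →ₐ[K] Ω := { j with commutes' := fun c => rfl }
  have hK : ∀ c : K, ∃ h : algebraMap K L c ∈ O,
      ρ ⟨algebraMap K L c, h⟩ = algebraMap K Ω c := fun c => by
    obtain ⟨h, e⟩ := hr (C c)
    have e1 : (aeval (fun i => xc (P i)) : MvPolynomial (Fin k) K →ₐ[K] L).toRingHom (C c) =
      algebraMap K L c := aeval_C _ c
    have e2 : (aeval (fun i => xc (p i)) : MvPolynomial (Fin k) K →ₐ[K] N).toRingHom (C c) =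
      algebraMap K N c := aeval_C _ c
    have h' : algebraMap K L c ∈ O := e1 ▸ h
    refine ⟨h', ?_⟩
    have e3 : (⟨algebraMap K L c, h'⟩ : O) = ⟨_, h⟩ := Subtype.ext e1.symm
    rw [e3, e, e2]
    rfl
  have hM : ∀ i, Ma O ρ (P i) (pm jA (p i)) := fun i => by
    obtain ⟨h, e⟩ := hr (X i)
    have e1 : (aeval (fun i => xc (P i)) : MvPolynomial (Fin k) K →ₐ[K] L).toRingHom (X i) =
      xc (P i) := aeval_X _ i
    have e2 : (aeval (fun i => xc (p i)) : MvPolynomial (Fin k) K →ₐ[K] N).toRingHom (X i) =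
      xc (p i) := aeval_X _ i
    have h' : xc (P i) ∈ O := e1 ▸ h
    have e3 : (⟨xc (P i), h'⟩ : O) = ⟨_, h⟩ := Subtype.ext e1.symm
    have e4 : ρ ⟨xc (P i), h'⟩ = j (xc (p i)) := by rw [e3, e, e2]
    have hPi := hP i
    have hpi := hp i
    generalize P i = A at h' e4 hPi
    generalize p i = B at e4 hpi
    rcases A with _ | ⟨x, y, hx⟩
    · exact absurd rfl hPi
    · rcases B with _ | ⟨x', y', hx'⟩
      · exact absurd rfl hpi
      · refine ⟨![⟨x, h'⟩, 1], 1, 1, one_ne_zero, one_ne_zero, fun i => ?_, fun i => ?_⟩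
        · fin_cases i <;> simp [WeierstrassCurve.Affine.Point.xRep]
        · have e5 : pm jA (WeierstrassCurve.Affine.Point.some x' y' hx') =
            WeierstrassCurve.Affine.Point.some (jA x') (jA y')
              (((Ws a b).toAffine.baseChange_nonsingular jA.injective ..).mpr hx') := rfl
          rw [e5]
          fin_cases i
          · simp [WeierstrassCurve.Affine.Point.xRep]
            exact e4
          · simp [WeierstrassCurve.Affine.Point.xRep]
  obtain ⟨ε, hε, h⟩ := ma_sum hAS hab hK P (fun i => pm jA (p i)) hM γ Finset.univ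
  rw [hγ] at h
  have h0 := ma_zero_left h
  refine ⟨ε, hε, ?_⟩
  apply WeierstrassCurve.Affine.Point.map_injective (W' := (Ws a b).toAffine) (f := jA)
  rw [map_sum, map_zero, ← h0]
  exact Finset.sum_congr rfl fun i _ => map_zsmul (pm jA) _ _

end Pool.DynLehmer.LE
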