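import Pool.Agent.Lib.MP_2194ec_nt.LW.AllGm
import Pool.Agent.Lib.MP_2194ec_nt.LW.GramRow
import Pool.Agent.Lib.MP_2194ec_nt.LW.Modt
import Pool.Agent.Lib.MP_2194ec_nt.LE.Omadd
import Pool.Agent.Lib.MP_2194ec_nt.LE.Addsub
import Pool.Agent.Lib.MP_2194ec_nt.LE.Spec
import Pool.Agent.Lib.MP_2194ec_nt.LE.Repe
import Pool.Agent.Lib.MP_2194ec_nt.LE.Clse
import Pool.Agent.Lib.MP_2194ec_nt.LE.Grpb
import Pool.Agent.Lib.MP_2194ec_nt.LE.Mult
import Pool.Agent.Lib.MP_2194ec_nt.LE.K2u
import Pool.Agent.Lib.MP_2194ec_nt.LE.Transu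
import Pool.Agent.Lib.MP_2194ec_nt.LE.Pc
import Pool.Agent.Lib.MP_2194ec_nt.LE.Freelu
import Pool.Agent.Lib.MP_2194ec_nt.LE.Fineu
import Pool.Agent.Lib.MP_2194ec_nt.LE.Latu
import Pool.Agent.Lib.MP_2194ec_nt.LE.Lattu
import Pool.Agent.Lib.MP_2194ec_nt.LE.Openu
import Pool.Agent.Lib.MP_2194ec_nt.LE.Hasse

set_option autoImplicit false

/-!
# The Lehmer bound for the Lattes maps of all elliptic curves: assembly
-/

namespace Pool.DynLehmer.LE
open Pool.DynLehmer Pool.DynLehmer.LP Pool.DynLehmer.GS Pool.DynLehmer.LW

/-- Half of the points of an independent family are free for the Lattes map. -/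
theorem freelust : FreeluStatement :=
  freelu (transu omadd (k2u omadd (mult addsub omadd))) (spec addsub) pc

/-- **The Lehmer bound for all elliptic curves.** -/
theorem latust : LatuStatement := latu (fineu gmst) freelust repe clse (grpb gram modt)

/-- **The Lehmer bound for all elliptic curves**, for points with a multiple of small degree. -/
theorem lattust : LattuStatement := lattu clse latust

/-- **The Lehmer bound for elliptic curves with open image.** -/
theorem openust : OpenuStatement := openu clse latust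

/-- A place is supersingular if the Hasse coefficient is small. -/
theorem hassest : HasseStatement := hasse addsub

end Pool.DynLehmer.LE
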