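import Pool.Agent.Lib.MP_2194ec_nt.LE.DefsB
import Pool.Agent.Lib.MP_2194ec_nt.LE.Clse
import Pool.Agent.Lib.MP_2194ec_nt.LW.Hypq
import Pool.Agent.Lib.MP_2194ec_nt.RelLevels

set_option autoImplicit false
set_option linter.unusedSectionVars false

/-!
# The Lehmer bound for elliptic curves: base change (row R4)
-/

namespace Pool.DynLehmer.LE
open MvPolynomial NumberField Filter Topology Pool.DynLehmer Pool.DynLehmer.SB Pool.DynLehmer.SP
  Pool.DynLehmer.GS Pool.DynLehmer.LP Pool.DynLehmer.LW
open scoped Classical

namespace Bs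

/-! ## Transport of points along an equality of curves -/

section transport

variable {M : Type} [Field M]

/-- the same point on an equal curve -/
noncomputable def ptE {W W' : WeierstrassCurve M} (h : W = W') :
    WeierstrassCurve.Affine.Point W ≃+ WeierstrassCurve.Affine.Point W' :=
  h ▸ AddEquiv.refl _

theorem ptE_xRep {W W' : WeierstrassCurve M} (h : W = W')
    (P : WeierstrassCurve.Affine.Point W) : (ptE h P).xRep = P.xRep := by
  subst h
  rfl

theorem ptE_some {W W' : WeierstrassCurve M} (h : W = W') (x y : M)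
    (hxy : WeierstrassCurve.Affine.Nonsingular W x y)
    (hxy' : WeierstrassCurve.Affine.Nonsingular W' x y) :
    ptE h (.some x y hxy) = .some x y hxy' := by
  subst h
  rfl

end transport

section curve

variable {K K' : Type} [Field K] [Field K'] [Algebra K K'] {a b : K}

theorem ws_eq (M : Type) [Field M] [Algebra K M] [Algebra K' M] [IsScalarTower K K' M] :
    (Ws a b).baseChange M = (Ws (algebraMap K K' a) (algebraMap K K' b)).baseChange M := by
  unfold WeierstrassCurve.baseChange
  ext
  · change algebraMap K M 0 = algebraMap K' M 0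
    rw [map_zero, map_zero]
  · change algebraMap K M 0 = algebraMap K' M 0
    rw [map_zero, map_zero]
  · change algebraMap K M 0 = algebraMap K' M 0
    rw [map_zero, map_zero]
  · change algebraMap K M a = algebraMap K' M (algebraMap K K' a)
    exact IsScalarTower.algebraMap_apply K K' M a
  · change algebraMap K M b = algebraMap K' M (algebraMap K K' b)
    exact IsScalarTower.algebraMap_apply K K' M b

/-- the points over `M` do not depend on the field of definition -/
noncomputable def tr (M : Type) [Field M] [Algebra K M] [Algebra K' M] [IsScalarTower K K' M] :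
    Ept a b M ≃+ Ept (algebraMap K K' a) (algebraMap K K' b) M :=
  ptE (ws_eq M)

theorem tr_xRep (M : Type) [Field M] [Algebra K M] [Algebra K' M] [IsScalarTower K K' M]
    (P : Ept a b M) : (tr (K' := K') M P).xRep = P.xRep := ptE_xRep _ P

theorem tr_pm {M M' : Type} [Field M] [Algebra K M] [Algebra K' M] [IsScalarTower K K' M]
    [Field M'] [Algebra K M'] [Algebra K' M'] [IsScalarTower K K' M'] (φ : M →ₐ[K'] M')
    (P : Ept a b M) :
    tr (K' := K') M' (pm (φ.restrictScalars K) P) = pm φ (tr (K' := K') M P) := by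
  cases P with
  | zero =>
    have h1 : (WeierstrassCurve.Affine.Point.zero : Ept a b M) = 0 := rfl
    rw [h1, map_zero, map_zero, map_zero, map_zero]
  | some x y h =>
    have h1 : (WeierstrassCurve.Affine.Nonsingular
        ((Ws (algebraMap K K' a) (algebraMap K K' b)).baseChange M) x y) := by
      rw [← ws_eq]
      exact h
    have h2 : tr (K' := K') M (.some x y h) = .some x y h1 := ptE_some _ _ _ _ _
    rw [h2]
    exact ptE_some _ _ _ _ _

end curve

/-! ## A common Galois extension -/

theorem exists_comp (K K' N : Type) [Field K] [NumberField K] [Field K'] [NumberField K']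
    [Algebra K K'] [Field N] [NumberField N] [Algebra K N] :
    ∃ (N' : Type) (_ : Field N') (_ : NumberField N') (_ : Algebra K N') (_ : Algebra N N')
      (_ : Algebra K' N'), IsScalarTower K N N' ∧ IsScalarTower K K' N' ∧ IsGalois K N' := by
  have hf1 : FiniteDimensional K N := Module.Finite.of_restrictScalars_finite ℚ K N
  have hf2 : FiniteDimensional K K' := Module.Finite.of_restrictScalars_finite ℚ K K'
  let Ω := AlgebraicClosure N
  let φ : K' →ₐ[K] Ω := IsAlgClosed.lift
  let ψ : N →ₐ[K] Ω := IsScalarTower.toAlgHom K N Ω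
  let E : IntermediateField K Ω := ψ.fieldRange ⊔ φ.fieldRange
  have h1 : FiniteDimensional K ψ.fieldRange :=
    LinearEquiv.finiteDimensional (AlgEquiv.ofInjectiveField ψ).toLinearEquiv
  have h2 : FiniteDimensional K φ.fieldRange :=
    LinearEquiv.finiteDimensional (AlgEquiv.ofInjectiveField φ).toLinearEquiv
  have hE : FiniteDimensional K E := IntermediateField.finiteDimensional_sup _ _
  let N' : IntermediateField K Ω := IntermediateField.normalClosure K E Ω
  have hN'f : FiniteDimensional K N' := normalClosure.is_finiteDimensional K E Ω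
  have hN'n : Normal K N' := normalClosure.normal K E Ω
  have hEN : E ≤ N' := IntermediateField.le_normalClosure E
  have hψ : ∀ x, ψ x ∈ N' := fun x => hEN ((le_sup_left : ψ.fieldRange ≤ E) ⟨x, rfl⟩)
  have hφ : ∀ x, φ x ∈ N' := fun x => hEN ((le_sup_right : φ.fieldRange ≤ E) ⟨x, rfl⟩)
  let ψ' : N →+* N' := (ψ : N →+* Ω).codRestrict N'.toSubring hψ
  let φ' : K' →+* N' := (φ : K' →+* Ω).codRestrict N'.toSubring hφ
  have hq : FiniteDimensional ℚ N' := FiniteDimensional.trans ℚ K N'
  have hnf : NumberField N' := NumberField.mk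
  refine ⟨N', inferInstance, hnf, inferInstance, ψ'.toAlgebra, φ'.toAlgebra, ?_, ?_, IsGalois.mk⟩
  · let _ : Algebra N N' := ψ'.toAlgebra
    refine IsScalarTower.of_algebraMap_eq fun x => ?_
    apply Subtype.ext
    exact (ψ.commutes x).symm
  · let _ : Algebra K' N' := φ'.toAlgebra
    refine IsScalarTower.of_algebraMap_eq fun x => ?_
    apply Subtype.ext
    exact (φ.commutes x).symm

section gal

variable {K K' N N' : Type} [Field K] [NumberField K] [Field K'] [NumberField K'] [Algebra K K']
  [Field N] [NumberField N] [Algebra K N] [Field N'] [NumberField N'] [Algebra K N']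
  [Algebra N N'] [Algebra K' N'] [IsScalarTower K N N'] [IsScalarTower K K' N'] [IsGalois K N]
  [IsGalois K N']

/-- the restriction of automorphisms -/
noncomputable def res : (N' ≃ₐ[K'] N') →* (N ≃ₐ[K] N) where
  toFun σ := (σ.restrictScalars K).restrictNormal N
  map_one' := by
    ext x
    apply (algebraMap N N').injective
    rw [AlgEquiv.restrictNormal_commutes]
    rfl
  map_mul' σ τ := by
    ext x
    apply (algebraMap N N').injective
    rw [AlgEquiv.restrictNormal_commutes]
    change σ (τ (algebraMap N N' x)) = _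
    rw [AlgEquiv.mul_apply, AlgEquiv.restrictNormal_commutes, AlgEquiv.restrictNormal_commutes]
    rfl

theorem res_apply (σ : N' ≃ₐ[K'] N') (x : N) :
    algebraMap N N' ((res (K := K) (N := N) σ) x) = σ (algebraMap N N' x) :=
  AlgEquiv.restrictNormal_commutes (σ.restrictScalars K) N x

/-- the image has index at most `[K' : K]` -/
theorem index_res : ((res (K := K) (K' := K') (N := N) (N' := N')).range).index ≤
    Module.finrank K K' := by
  have hf1 : FiniteDimensional K N := Module.Finite.of_restrictScalars_finite ℚ K N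
  have hf2 : FiniteDimensional K K' := Module.Finite.of_restrictScalars_finite ℚ K K'
  have hf3 : FiniteDimensional K' N' := Module.Finite.of_restrictScalars_finite ℚ K' N'
  have hg : IsGalois K' N' := IsGalois.tower_top_of_isGalois K K' N'
  set H := (res (K := K) (K' := K') (N := N) (N' := N')).range with hH
  have h1 : Module.finrank K (IntermediateField.fixedField H) = H.index := by
    rw [IntermediateField.finrank_eq_fixingSubgroup_index,
      IntermediateField.fixingSubgroup_fixedField]
  rw [← h1]
  have h2 : ∀ x : IntermediateField.fixedField H, ∃ y : K',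
      algebraMap K' N' y = algebraMap N N' (x : N) := by
    intro x
    rw [← Set.mem_range, IsGalois.mem_range_algebraMap_iff_fixed]
    intro σ
    rw [← res_apply (K := K)]
    congr 1
    exact x.2 ⟨res σ, ⟨σ, rfl⟩⟩
  choose g hg2 using h2
  have hinj : Function.Injective (algebraMap K' N') := (algebraMap K' N').injective
  let f : IntermediateField.fixedField H →ₗ[K] K' :=
    { toFun := g
      map_add' := by
        intro x y
        apply hinj
        rw [map_add, hg2, hg2, hg2, ← map_add]
        rfl
      map_smul' := by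
        intro c x
        apply hinj
        rw [hg2, RingHom.id_apply]
        change algebraMap N N' (c • (x : N)) = algebraMap K' N' (c • g x)
        rw [Algebra.smul_def, map_mul, Algebra.smul_def, map_mul, hg2,
          ← IsScalarTower.algebraMap_apply K K' N', ← IsScalarTower.algebraMap_apply K N N'] }
  refine LinearMap.finrank_le_finrank_of_injective (f := f) ?_
  intro x y hxy
  have h3 : g x = g y := hxy
  have h4 : algebraMap N N' (x : N) = algebraMap N N' (y : N) := by
    rw [← hg2, ← hg2, h3]
  exact Subtype.ext ((algebraMap N N').injective h4)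

variable {a b : K}

variable (K K' N N') in
/-- the points over `N` as points over `N'` of the curve over `K'` -/
noncomputable def up (a b : K) :
    Ept a b N →+ Ept (algebraMap K K' a) (algebraMap K K' b) N' :=
  ((tr (K := K) (K' := K') (a := a) (b := b) N').toAddMonoidHom).comp
    (pm (IsScalarTower.toAlgHom K N N'))

theorem pm_inj {M M' : Type} [Field M] [Algebra K M] [Field M'] [Algebra K M']
    (φ : M →ₐ[K] M') : Function.Injective (pm φ : Ept a b M → Ept a b M') :=
  WeierstrassCurve.Affine.Point.map_injective φ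

theorem up_inj : Function.Injective (up K K' N N' a b) := fun P Q h =>
  pm_inj _ ((tr (K := K) (K' := K') (a := a) (b := b) N').injective h)

theorem up_tq (P Q : Ept a b N) :
    Tq (up K K' N N' a b P) (up K K' N N' a b Q) ↔ Tq P Q := by
  constructor
  · rintro ⟨r, hr, h⟩
    refine ⟨r, hr, up_inj (K' := K') (N' := N') ?_⟩
    rw [map_nsmul, map_nsmul]
    exact h
  · rintro ⟨r, hr, h⟩
    exact ⟨r, hr, by rw [← map_nsmul, ← map_nsmul, h]⟩

theorem up_pm (σ : N' ≃ₐ[K'] N') (P : Ept a b N) :
    pm (σ : N' →ₐ[K'] N') (up K K' N N' a b P) =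
      up K K' N N' a b (pm ((res (K := K) (N := N) σ : N ≃ₐ[K] N) : N →ₐ[K] N) P) := by
  change pm (σ : N' →ₐ[K'] N') (tr (K := K) (K' := K') (a := a) (b := b) N'
    (pm (IsScalarTower.toAlgHom K N N') P)) = tr (K := K) (K' := K') (a := a) (b := b) N'
    (pm (IsScalarTower.toAlgHom K N N')
      (pm ((res (K := K) (N := N) σ : N ≃ₐ[K] N) : N →ₐ[K] N) P))
  rw [← tr_pm]
  congr 1
  cases P with
  | zero => rfl
  | some x y h =>
    have h1 : ∀ z : N, σ (algebraMap N N' z) = algebraMap N N' (res (K := K) (N := N) σ z) :=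
      fun z => (res_apply σ z).symm
    change WeierstrassCurve.Affine.Point.some _ _ _ = WeierstrassCurve.Affine.Point.some _ _ _
    rw [WeierstrassCurve.Affine.Point.some.injEq]
    exact ⟨h1 x, h1 y⟩

theorem up_xRep (P : Ept a b N) :
    (up K K' N N' a b P).xRep = fun i => algebraMap N N' (P.xRep i) := by
  change (tr (K := K) (K' := K') (a := a) (b := b) N'
    (pm (IsScalarTower.toAlgHom K N N') P)).xRep = _
  rw [tr_xRep]
  cases P with
  | zero =>
    funext i
    fin_cases i
    · exact (map_one (algebraMap N N')).symm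
    · exact (map_zero (algebraMap N N')).symm
  | some x y h =>
    funext i
    fin_cases i
    · rfl
    · exact (map_one (algebraMap N N')).symm

theorem hasHt_up {q : ℕ} {F : Fin 2 → MvPolynomial (Fin 2) K} {P : Ept a b N} {h : ℝ}
    (H : HasHt q (fun i => map (algebraMap K K') (F i)) (up K K' N N' a b P).xRep h) :
    HasHt q F P.xRep h := by
  unfold HasHt at H ⊢
  refine H.congr fun n => ?_
  congr 1
  rw [Hypq.gAct_map_eq, up_xRep]
  have h1 := gAct_iter_map F (IsScalarTower.toAlgHom K N N') n P.xRep
  change (gAct F N')^[n] (fun i => algebraMap N N' (P.xRep i)) = _ at h1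
  rw [h1]
  exact logHeight_hom (algebraMap N N') _

theorem dg_up (P : Ept a b N) : dg K' (up K K' N N' a b P).xRep ≤ dg K P.xRep := by
  have hf1 : FiniteDimensional K N := Module.Finite.of_restrictScalars_finite ℚ K N
  have hf3 : FiniteDimensional K' N' := Module.Finite.of_restrictScalars_finite ℚ K' N'
  unfold dg
  rw [up_xRep, ← map_div₀]
  set x : N := P.xRep 0 / P.xRep 1 with hx
  have hi : IsIntegral K x := Algebra.IsIntegral.isIntegral x
  have hi' : IsIntegral K' (algebraMap N N' x) := Algebra.IsIntegral.isIntegral _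
  rw [IntermediateField.adjoin.finrank hi, IntermediateField.adjoin.finrank hi']
  have h1 : minpoly K' (algebraMap N N' x) ∣ (minpoly K x).map (algebraMap K K') := by
    apply minpoly.dvd
    rw [Polynomial.aeval_map_algebraMap, Polynomial.aeval_algebraMap_apply, minpoly.aeval,
      map_zero]
  have h2 := Polynomial.natDegree_le_of_dvd h1
    (Polynomial.map_ne_zero (minpoly.ne_zero hi))
  rwa [Polynomial.natDegree_map] at h2

end gal

end Bs

open Bs in
/-- Row R4: base change. -/
theorem base : BaseStatement := by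
  intro K K' _ _ _ _ _ a b q F h A M
  have hf2 : FiniteDimensional K K' := Module.Finite.of_restrictScalars_finite ℚ K K'
  set d : ℕ := Module.finrank K K' with hd
  have hd1 : 1 ≤ d := Module.finrank_pos
  set M' : ℕ := M * d ^ M + M * d ^ A + M with hM'
  obtain ⟨c, hc, H⟩ := h A M'
  refine ⟨c, hc, ?_⟩
  intro N _ _ _ _ P hP hser
  obtain ⟨e, τ, hτ, hm, l, L, hL0, hLl, hL⟩ := hser
  obtain ⟨N', _, _, _, _, _, _, _, _⟩ := exists_comp K K' N
  have hg : IsGalois K' N' := IsGalois.tower_top_of_isGalois K K' N'
  have hf1 : FiniteDimensional K N := Module.Finite.of_restrictScalars_finite ℚ K N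
  have hf3 : FiniteDimensional K' N' := Module.Finite.of_restrictScalars_finite ℚ K' N'
  set r := res (K := K) (K' := K') (N := N) (N' := N') with hr
  set P' := up K K' N N' a b P with hP'
  have hP0 : ∀ n : ℕ, 1 ≤ n → n • P' ≠ 0 := by
    intro n hn h0
    apply hP n hn
    apply up_inj (K := K) (K' := K') (N := N) (N' := N')
    rw [map_nsmul, map_zero]
    exact h0
  -- the stabilizer of the class
  set S : Subgroup (N ≃ₐ[K] N) := CE.Sc P with hS
  have hS' : ∀ σ : N' ≃ₐ[K'] N', σ ∈ S.comap r ↔ Tq P' (pm (σ : N' →ₐ[K'] N') P') := by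
    intro σ
    rw [Subgroup.mem_comap, hS, CE.mem_Sc, hP', up_pm, up_tq]
  have hne : (S.comap r).index ≠ 0 := Subgroup.index_ne_zero_of_finite
  set e' : ℕ := (S.comap r).index with he'
  have he1 : 1 ≤ e' := Nat.one_le_iff_ne_zero.2 hne
  have hcardq : Nat.card ((N' ≃ₐ[K'] N') ⧸ S.comap r) = e' := rfl
  let eqv : Fin e' ≃ ((N' ≃ₐ[K'] N') ⧸ S.comap r) :=
    (Finite.equivFinOfCardEq hcardq).symm
  -- the number of classes
  have hee : e ≤ e' * d := by
    have h1 : e ≤ S.index := by
      have hinj : Function.Injective (fun i : Fin e => (QuotientGroup.mk (τ i) :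
          (N ≃ₐ[K] N) ⧸ S)) := by
        intro i j hij
        by_contra hne'
        have h2 := QuotientGroup.eq.1 hij
        rw [hS, CE.mem_Sc] at h2
        exact hτ i j hne' ((CE.tq_pm_iff _ _ _ _).2 h2)
      have h3 := Nat.card_le_card_of_injective _ hinj
      rwa [Nat.card_eq_fintype_card, Fintype.card_fin] at h3
    have h2 : S.index ≤ (S ⊓ r.range).index :=
      Nat.le_of_dvd (Nat.pos_of_ne_zero Subgroup.index_ne_zero_of_finite)
        (Subgroup.index_dvd_of_le inf_le_left)
    have h3 : (S ⊓ r.range).index = e' * r.range.index := by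
      rw [← Subgroup.relIndex_mul_index (inf_le_right : S ⊓ r.range ≤ r.range),
        Subgroup.inf_relIndex_right, he', Subgroup.index_comap]
    calc e ≤ S.index := h1
      _ ≤ _ := h2
      _ = e' * r.range.index := h3
      _ ≤ e' * d := Nat.mul_le_mul_left _ (index_res (K := K) (K' := K') (N := N) (N' := N'))
  have hMM : M ≤ M' := by
    rw [hM']
    omega
  have key := H N' P' hP0
  obtain ⟨hh, hh1, hh2⟩ := key (by
    refine ⟨e', fun i => (eqv i).out, ?_, ?_, l,
      fun i => (L i).comap r, ?_, ?_, fun i hi => ⟨?_, ?_, ?_⟩⟩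
    · intro i j hij h1
      apply hij
      rw [CE.tq_pm_iff, ← hS'] at h1
      apply eqv.injective
      rw [← QuotientGroup.out_eq' (eqv i), ← QuotientGroup.out_eq' (eqv j)]
      exact QuotientGroup.eq.2 h1
    · have h1 : Nat.card {Q : Ept (algebraMap K K' a) (algebraMap K K' b) N' //
          (∃ σ : N' ≃ₐ[K'] N', pm (σ : N' →ₐ[K'] N') P' = Q) ∧ Tq P' Q} ≤
          Nat.card {Q : Ept a b N //
            (∃ σ : N ≃ₐ[K] N, pm (σ : N →ₐ[K] N) P = Q) ∧ Tq P Q} := by
        have hfin : {Q : Ept a b N |
            (∃ σ : N ≃ₐ[K] N, pm (σ : N →ₐ[K] N) P = Q) ∧ Tq P Q}.Finite :=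
          (Set.finite_range fun σ : N ≃ₐ[K] N => pm (σ : N →ₐ[K] N) P).subset
            fun Q hQ => hQ.1
        have h2 : {Q : Ept (algebraMap K K' a) (algebraMap K K' b) N' |
            (∃ σ : N' ≃ₐ[K'] N', pm (σ : N' →ₐ[K'] N') P' = Q) ∧ Tq P' Q} ⊆
            (up K K' N N' a b) '' {Q : Ept a b N |
              (∃ σ : N ≃ₐ[K] N, pm (σ : N →ₐ[K] N) P = Q) ∧ Tq P Q} := by
          rintro Q ⟨⟨σ, rfl⟩, hQ⟩
          refine ⟨pm ((r σ : N ≃ₐ[K] N) : N →ₐ[K] N) P, ⟨⟨r σ, rfl⟩, ?_⟩, (up_pm σ P).symm⟩
          rw [hP', up_pm, up_tq] at hQ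
          exact hQ
        calc _ = Set.ncard {Q : Ept (algebraMap K K' a) (algebraMap K K' b) N' |
            (∃ σ : N' ≃ₐ[K'] N', pm (σ : N' →ₐ[K'] N') P' = Q) ∧ Tq P' Q} := rfl
          _ ≤ _ := Set.ncard_le_ncard h2 (hfin.image _)
          _ ≤ _ := Set.ncard_image_le hfin
          _ = _ := rfl
      refine h1.trans (hm.trans ?_)
      refine Nat.add_le_add ?_ hMM
      calc M * e ^ M ≤ M * (e' * d) ^ M := Nat.mul_le_mul_left _ (Nat.pow_le_pow_left hee _)
        _ = M * d ^ M * e' ^ M := by rw [mul_pow]; ring
        _ ≤ M' * e' ^ M' := Nat.mul_le_mul (by rw [hM']; omega) (Nat.pow_le_pow_right he1 hMM)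
    · intro g hg' h'
      rw [Subgroup.mem_comap] at hg'
      have h1 := hL0 (r g) hg' (r h')
      rw [← map_mul] at h1
      rw [hP', up_pm, up_pm, up_tq]
      exact h1
    · beta_reduce
      rw [hLl, Subgroup.comap_top]
    · exact Subgroup.comap_mono (hL i hi).1
    · intro x hx y hy
      rw [Subgroup.mem_comap] at hx hy ⊢
      rw [map_mul, map_mul, map_inv]
      exact (hL i hi).2.1 _ hx _ hy
    · rcases (hL i hi).2.2 with h1 | h1
      · left
        intro x hx y hy
        rw [Subgroup.mem_comap] at hx hy ⊢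
        rw [map_mul, map_mul, map_mul, map_inv, map_inv]
        exact h1 _ hx _ hy
      · right
        beta_reduce
        rw [Subgroup.relIndex_comap]
        have h2 : (L i).relIndex (((L (i + 1)).comap r).map r) ≤ (L i).relIndex (L (i + 1)) :=
          Subgroup.relIndex_le_of_le_right (Subgroup.map_comap_le r _)
            Subgroup.index_ne_zero_of_finite
        refine h2.trans (h1.trans ?_)
        refine Nat.add_le_add ?_ hMM
        calc M * e ^ A ≤ M * (e' * d) ^ A := Nat.mul_le_mul_left _ (Nat.pow_le_pow_left hee _)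
          _ = M * d ^ A * e' ^ A := by rw [mul_pow]; ring
          _ ≤ M' * e' ^ A := Nat.mul_le_mul_right _ (by rw [hM']; omega))
  refine ⟨hh, hasHt_up hh1, le_trans ?_ hh2⟩
  have h1 : (0 : ℝ) < dg K' P'.xRep := by exact_mod_cast (Module.finrank_pos : 0 < _)
  apply div_le_div_of_nonneg_left hc.le h1
  exact_mod_cast dg_up P

end Pool.DynLehmer.LE
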