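import Pool.Agent.Lib.MP_2194ec_nt.LW.DefsMul
import Mathlib.AlgebraicGeometry.EllipticCurve.Affine.AddSubMap

set_option autoImplicit false

/-!
# The Lehmer bound for the Lattes maps of elliptic curves: statements of the rows
-/

namespace Pool.DynLehmer.LE
open MvPolynomial NumberField Filter Topology Pool.DynLehmer Pool.DynLehmer.SB Pool.DynLehmer.SP
  Pool.DynLehmer.GS Pool.DynLehmer.LP Pool.DynLehmer.LW
open scoped Classical

/-- the curve `y ^ 2 = x ^ 3 + a x + b` -/
def Ws {K : Type} [Field K] (a b : K) : WeierstrassCurve K where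
  a₁ := 0
  a₂ := 0
  a₃ := 0
  a₄ := a
  a₆ := b

/-- the points of `y ^ 2 = x ^ 3 + a x + b` over `L` -/
abbrev Ept {K : Type} [Field K] (a b : K) (L : Type) [Field L] [Algebra K L] : Type :=
  WeierstrassCurve.Affine.Point ((Ws a b).baseChange L)

/-- the first coordinate (`0` at infinity) -/
def xc {K : Type} [Field K] {a b : K} {L : Type} [Field L] [Algebra K L] : Ept a b L → L
  | .zero => 0
  | .some x _ _ => x

/-- the action of a homomorphism of fields on the points -/
noncomputable def pm {K : Type} [Field K] {a b : K} {L M : Type} [Field L] [Algebra K L]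
    [Field M] [Algebra K M] (φ : L →ₐ[K] M) : Ept a b L →+ Ept a b M :=
  WeierstrassCurve.Affine.Point.map φ

/-- the value of `d x / (2 y)` on a derivation -/
noncomputable def om {K : Type} [Field K] {a b : K} {C L : Type} [Field C] [Field L]
    [Algebra K L] [Algebra C L] (D : Derivation C L L) : Ept a b L → L
  | .zero => 0
  | .some x y _ => D x / (2 * y)

/-- The curve has no complex multiplication: `g` is the multiplier of the endomorphism with the
first coordinate `A / B` (up to a translation). -/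
def NoCM {K : Type} [Field K] (a b : K) : Prop :=
  ∀ (C : Type) [Field C] [Algebra K C] (A B : Polynomial C) (g : C), B ≠ 0 →
    Polynomial.derivative A * B - A * Polynomial.derivative B ≠ 0 →
    (Polynomial.X ^ 3 + Polynomial.C (algebraMap K C a) * Polynomial.X +
        Polynomial.C (algebraMap K C b)) *
      (Polynomial.derivative A * B - A * Polynomial.derivative B) ^ 2 =
      Polynomial.C (g ^ 2) * B * (A ^ 3 + Polynomial.C (algebraMap K C a) * A * B ^ 2 +
        Polynomial.C (algebraMap K C b) * B ^ 3) →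
    ∃ n : ℤ, g = n

/-- `F` is the map of the first coordinates which belongs to the multiplication by `lam`. -/
def IsLat {K : Type} [Field K] (a b : K) (lam : ℕ) (F : Fin 2 → MvPolynomial (Fin 2) K) : Prop :=
  ∀ (M : Type) [Field M] [Algebra K M] (P : Ept a b M),
    ∃ c : M, c ≠ 0 ∧ gAct F M P.xRep = c • (lam • P).xRep

/-! ## Rows -/

/-- Row OMADD. -/
def OmaddStatement : Prop :=
  ∀ (K : Type) [Field K] [CharZero K] (a b : K), 4 * a ^ 3 + 27 * b ^ 2 ≠ 0 →
    ∀ (C L : Type) [Field C] [Algebra K C] [Field L] [Algebra C L] [Algebra K L]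
      [IsScalarTower K C L] (D : Derivation C L L) (P Q : Ept a b L),
      om D (P + Q) = om D P + om D Q

/-- Row K2 (from OMADD): the multiplier of a correspondence of `E` is rational. -/
def K2Statement : Prop :=
  ∀ (K : Type) [Field K] [CharZero K] (a b : K), 4 * a ^ 3 + 27 * b ^ 2 ≠ 0 → NoCM a b →
    ∀ (C L : Type) [Field C] [Algebra K C] [Field L] [Algebra C L] [Algebra K L]
      [IsScalarTower K C L] [IsAlgClosed C] [IsAlgClosed L] (D : Derivation C L L)
      (P₁ P : Ept a b L) (g : C), Transcendental C (xc P₁) →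
      Algebra.IsAlgebraic (IntermediateField.adjoin C {xc P₁}) L → om D P₁ = 1 →
      om D P = algebraMap C L g → ∃ r : ℚ, g = r

/-- Row TRANS (from OMADD, K2): dependent first coordinates of eigenpoints of an endomorphism of
the field. -/
def TransStatement : Prop :=
  ∀ (K : Type) [Field K] [CharZero K] (a b : K), 4 * a ^ 3 + 27 * b ^ 2 ≠ 0 → NoCM a b →
    ∀ (C L : Type) [Field C] [Algebra K C] [Field L] [Algebra C L] [Algebra K L]
      [IsScalarTower K C L] [IsAlgClosed L] (φ : L →ₐ[C] L) (lam : ℕ), 2 ≤ lam →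
      ∀ (k : ℕ) (P : Fin k → Ept a b L),
      (∀ i, pm (φ.restrictScalars K) (P i) = lam • P i ∨
        pm (φ.restrictScalars K) (P i) = -(lam • P i)) →
      ¬ AlgebraicIndependent C (fun i => xc (P i)) →
      ∃ γ : Fin k → ℤ, γ ≠ 0 ∧ ∑ i, γ i • P i = 0

/-- Row ADDSUB: the map of Mathlib on the pairs of first coordinates. -/
def AddsubStatement : Prop :=
  ∀ (L : Type) [Field L] (W : WeierstrassCurve L) (P Q : WeierstrassCurve.Affine.Point W),
    ∃ c : L, c ≠ 0 ∧ (fun i => eval (P.sym2x Q) (W.addSubMap i)) = c • (P + Q).sym2x (P - Q)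

/-- Row SPEC (from ADDSUB): specialisation of a relation. -/
def SpecStatement : Prop :=
  ∀ (K : Type) [Field K] [CharZero K] (a b : K), 4 * a ^ 3 + 27 * b ^ 2 ≠ 0 →
    ∀ (L N : Type) [Field L] [Algebra K L] [Field N] [Algebra K N] [IsAlgClosed N] (k : ℕ)
      (P : Fin k → Ept a b L) (p : Fin k → Ept a b N), (∀ i, P i ≠ 0) → (∀ i, p i ≠ 0) →
      (∀ Q : MvPolynomial (Fin k) K, aeval (fun i => xc (P i)) Q = 0 →
        aeval (fun i => xc (p i)) Q = 0) →
      ∀ γ : Fin k → ℤ, ∑ i, γ i • P i = 0 →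
      ∃ ε : Fin k → ℤ, (∀ i, ε i = 1 ∨ ε i = -1) ∧ ∑ i, (ε i * γ i) • p i = 0

/-- Row FREEL (from TRANS, SPEC): independent points are free for the Lattes map. -/
def FreelStatement : Prop :=
  ∀ (K : Type) [Field K] [CharZero K] (a b : K), 4 * a ^ 3 + 27 * b ^ 2 ≠ 0 → NoCM a b →
    ∀ (q lam : ℕ) (F : Fin 2 → MvPolynomial (Fin 2) K), 2 ≤ lam → Mor q F → IsLat a b lam F →
      ∀ (N : Type) [Field N] [Algebra K N] (k : ℕ) (p : Fin k → Ept a b N),
      (∀ γ : Fin k → ℤ, ∑ i, γ i • p i = 0 → γ = 0) → FreeT q F (fun i => (p i).xRep)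

end Pool.DynLehmer.LE
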