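import Pool.Agent.Lib.MP_2194ec_nt.LE.Defs

set_option autoImplicit false

/-!
# The Lehmer bound for the Lattes maps of elliptic curves: statements of the last rows
-/

namespace Pool.DynLehmer.LE
open MvPolynomial NumberField Filter Topology Pool.DynLehmer Pool.DynLehmer.SB Pool.DynLehmer.SP
  Pool.DynLehmer.GS Pool.DynLehmer.LP Pool.DynLehmer.LW
open scoped Classical

/-- the number of the conjugates over `K` of a tuple of points -/
noncomputable def orbp (K : Type) [Field K] {a b : K} {N : Type} [Field N] [Algebra K N] {k : ℕ}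
    (y : Fin k → Ept a b N) : ℕ :=
  Nat.card (Set.range fun (σ : N ≃ₐ[K] N) (i : Fin k) => pm (σ : N →ₐ[K] N) (y i))

/-- `P` and `Q` are equal up to torsion. -/
def Tq {K : Type} [Field K] {a b : K} {N : Type} [Field N] [Algebra K N] (P Q : Ept a b N) : Prop :=
  ∃ r : ℕ, 1 ≤ r ∧ r • P = r • Q

/-- Row FINE (from GENM, FREEL): the bound from `k` independent conjugates. -/
def FineStatement : Prop :=
  ∀ (K : Type) [Field K] [NumberField K] (a b : K), 4 * a ^ 3 + 27 * b ^ 2 ≠ 0 → NoCM a b →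
    ∀ (p s lam : ℕ) (v : FinitePlace K) (F : Fin 2 → MvPolynomial (Fin 2) K), HypR p s v F →
    2 ≤ lam → lam ^ 2 = p ^ s → IsLat a b lam F →
    ∀ k₀ A' C : ℕ, 1 ≤ A' → ∃ c : ℝ, 0 < c ∧
    ∀ (N : Type) [Field N] [NumberField N] [Algebra K N] [IsGalois K N] (P : Ept a b N),
      (∀ n : ℕ, 1 ≤ n → n • P ≠ 0) →
      (C < dg K P.xRep → ∀ n : ℕ, ∃ (k : ℕ) (y : Fin k → Ept a b N), 2 ≤ k ∧ k ≤ k₀ ∧
        (∀ i, ∃ σ : N ≃ₐ[K] N, pm (σ : N →ₐ[K] N) P = y i) ∧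
        (∀ γ : Fin k → ℤ, ∑ i, γ i • y i = 0 → γ = 0) ∧
        (orbp K (fun i => lam ^ n • y i)) ^ A' * dg K P.xRep ≤
          C * (orbp K (fun _ : Fin 1 => lam ^ n • P)) ^ (k * A')) →
      ∃ h : ℝ, HasHt (p ^ s) F P.xRep h ∧ c / (dg K P.xRep : ℝ) ≤ h

/-- Row REPE: the points modulo torsion as a rational representation of the Galois group. -/
def RepeStatement : Prop :=
  ∀ (K : Type) [Field K] (a b : K) (N : Type) [Field N] [Algebra K N],
    ∃ (V : Type) (_ : AddCommGroup V) (_ : Module ℚ V) (ρ : Representation ℚ (N ≃ₐ[K] N) V)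
      (f : Ept a b N →+ V),
      (∀ (σ : N ≃ₐ[K] N) (P : Ept a b N), f (pm (σ : N →ₐ[K] N) P) = ρ σ (f P)) ∧
      ∀ P Q : Ept a b N, f P = f Q → Tq P Q

/-- Row CLSE: from classes modulo torsion to points. `e` is the number of the classes of the
conjugates of `P`, `m` the number of the conjugates in the class of `P`. -/
def ClseStatement : Prop :=
  ∀ (K : Type) [Field K] (a b : K) (N : Type) [Field N] [Algebra K N] [FiniteDimensional K N]
    [IsGalois K N] (P : Ept a b N) (e m : ℕ),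
    e = Nat.card (Set.range fun (σ : N ≃ₐ[K] N) => {Q : Ept a b N | Tq (pm (σ : N →ₐ[K] N) P) Q}) →
    m = Nat.card {Q : Ept a b N // (∃ σ : N ≃ₐ[K] N, pm (σ : N →ₐ[K] N) P = Q) ∧ Tq P Q} →
    1 ≤ e ∧ 1 ≤ m ∧ dg K P.xRep ≤ e * m ∧ e * m ≤ 2 * dg K P.xRep ∧
    ∀ L : ℕ, 1 ≤ L → ∃ m' : ℕ, 1 ≤ m' ∧ m' ≤ m ∧
      orbp K (fun _ : Fin 1 => L • P) = e * m' ∧
      ∀ (k : ℕ) (y : Fin k → Ept a b N), (∀ i, ∃ σ : N ≃ₐ[K] N, pm (σ : N →ₐ[K] N) P = y i) →
        orbp K (fun i => L • y i) ≤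
          Nat.card (Set.range fun (σ : N ≃ₐ[K] N) (i : Fin k) =>
            {Q : Ept a b N | Tq (pm (σ : N →ₐ[K] N) (y i)) Q}) * m' ^ k

/-- **The Lehmer bound for elliptic curves, solvable Galois closure** (strong form: composition
factors which are abelian or of order at most `e ^ A`; `e` is at most the number of the classes of
conjugates of `P` modulo torsion, and at most `C * e ^ M` conjugates of `P` differ from `P` by a
torsion point). -/
def LatStatement : Prop :=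
  ∀ (K : Type) [Field K] [NumberField K] (a b : K), 4 * a ^ 3 + 27 * b ^ 2 ≠ 0 → NoCM a b →
    ∀ (p s lam : ℕ) (v : FinitePlace K) (F : Fin 2 → MvPolynomial (Fin 2) K), HypR p s v F →
    2 ≤ lam → lam ^ 2 = p ^ s → IsLat a b lam F →
    ∀ A M : ℕ, ∃ c : ℝ, 0 < c ∧
    ∀ (N : Type) [Field N] [NumberField N] [Algebra K N] [IsGalois K N] (P : Ept a b N),
      (∀ n : ℕ, 1 ≤ n → n • P ≠ 0) →
      (∃ (e : ℕ) (τ : Fin e → (N ≃ₐ[K] N)),
        (∀ i j, i ≠ j → ¬ Tq (pm (τ i : N →ₐ[K] N) P) (pm (τ j : N →ₐ[K] N) P)) ∧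
        Nat.card {Q : Ept a b N // (∃ σ : N ≃ₐ[K] N, pm (σ : N →ₐ[K] N) P = Q) ∧ Tq P Q} ≤
          M * e ^ M ∧
        ∃ (l : ℕ) (L : ℕ → Subgroup (N ≃ₐ[K] N)), L 0 = ⊥ ∧ L l = ⊤ ∧
          ∀ i < l, L i ≤ L (i + 1) ∧ (∀ x ∈ L (i + 1), ∀ y ∈ L i, x * y * x⁻¹ ∈ L i) ∧
            ((∀ x ∈ L (i + 1), ∀ y ∈ L (i + 1), x * y * x⁻¹ * y⁻¹ ∈ L i) ∨
              (L i).relIndex (L (i + 1)) ≤ e ^ A)) →
      ∃ h : ℝ, HasHt (p ^ s) F P.xRep h ∧ c / (dg K P.xRep : ℝ) ≤ h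

end Pool.DynLehmer.LE
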