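import Pool.Agent.Lib.MP_2194ec_nt.LE.DefsJ

set_option autoImplicit false

/-!
# The Lehmer bound for every elliptic curve: statements of the rows
-/

namespace Pool.DynLehmer.LE
open MvPolynomial NumberField Filter Topology Pool.DynLehmer Pool.DynLehmer.SB Pool.DynLehmer.SP
  Pool.DynLehmer.GS Pool.DynLehmer.LP Pool.DynLehmer.LW
open scoped Classical

/-- The Lehmer bound over `K` for the points `P` of the curve `y ^ 2 = x ^ 3 + a x + b`: the classes
of the conjugates of `P` modulo torsion are permuted by a group with composition factors which are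
abelian or of order at most `M * e ^ A + M`, and at most `M * e ^ M + M` conjugates of `P` differ
from `P` by a torsion point; `e` is at most the number of the classes. -/
def EBound (K : Type) [Field K] [NumberField K] (a b : K) (q : ℕ)
    (F : Fin 2 → MvPolynomial (Fin 2) K) : Prop :=
  ∀ A M : ℕ, ∃ c : ℝ, 0 < c ∧
    ∀ (N : Type) [Field N] [NumberField N] [Algebra K N] [IsGalois K N] (P : Ept a b N),
      (∀ n : ℕ, 1 ≤ n → n • P ≠ 0) →
      (∃ (e : ℕ) (τ : Fin e → (N ≃ₐ[K] N)),
        (∀ i j, i ≠ j → ¬ Tq (pm (τ i : N →ₐ[K] N) P) (pm (τ j : N →ₐ[K] N) P)) ∧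
        Nat.card {Q : Ept a b N // (∃ σ : N ≃ₐ[K] N, pm (σ : N →ₐ[K] N) P = Q) ∧ Tq P Q} ≤
          M * e ^ M + M ∧
        ∃ (l : ℕ) (L : ℕ → Subgroup (N ≃ₐ[K] N)),
          (∀ g ∈ L 0, ∀ h : N ≃ₐ[K] N, Tq (pm ((g * h : N ≃ₐ[K] N) : N →ₐ[K] N) P)
            (pm (h : N →ₐ[K] N) P)) ∧ L l = ⊤ ∧
          ∀ i < l, L i ≤ L (i + 1) ∧ (∀ x ∈ L (i + 1), ∀ y ∈ L i, x * y * x⁻¹ ∈ L i) ∧
            ((∀ x ∈ L (i + 1), ∀ y ∈ L (i + 1), x * y * x⁻¹ * y⁻¹ ∈ L i) ∨
              (L i).relIndex (L (i + 1)) ≤ M * e ^ A + M)) →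
      ∃ h : ℝ, HasHt q F P.xRep h ∧ c / (dg K P.xRep : ℝ) ≤ h

/-- The curve `y ^ 2 = x ^ 3 + a x + b` has complex multiplication over a finite extension
of `K`. -/
def CmOver {K : Type} [Field K] (a b : K) : Prop :=
  ∃ (K' : Type) (_ : Field K') (_ : NumberField K') (_ : Algebra K K') (θ : K'),
    CM (algebraMap K K' a) (algebraMap K K' b) θ ∧
      Nonempty (Endo (algebraMap K K' a) (algebraMap K K' b) θ)

/-- Rows R1, R2, R3: a curve without complex multiplication over any field has all multipliers in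
`ℤ`; otherwise it has complex multiplication over a number field. -/
def DichStatement : Prop :=
  ∀ (K : Type) [Field K] [NumberField K] (a b : K), 4 * a ^ 3 + 27 * b ^ 2 ≠ 0 →
    NoCM a b ∨ CmOver a b

/-- Row R4: base change. -/
def BaseStatement : Prop :=
  ∀ (K K' : Type) [Field K] [NumberField K] [Field K'] [NumberField K'] [Algebra K K'] (a b : K)
    (q : ℕ) (F : Fin 2 → MvPolynomial (Fin 2) K),
    EBound K' (algebraMap K K' a) (algebraMap K K' b) q
      (fun i => map (algebraMap K K') (F i)) → EBound K a b q F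

/-- **The Lehmer bound for every elliptic curve with a place of supersingular reduction.** -/
def EveryStatement : Prop :=
  ∀ (K : Type) [Field K] [NumberField K] (a b : K), 4 * a ^ 3 + 27 * b ^ 2 ≠ 0 →
    ∀ (p s lam : ℕ) (v : FinitePlace K) (F : Fin 2 → MvPolynomial (Fin 2) K), HypR p s v F →
    2 ≤ lam → lam ^ 2 = p ^ s → IsLat a b lam F → EBound K a b (p ^ s) F

end Pool.DynLehmer.LE
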