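import Pool.Agent.Lib.MP_2194ec_nt.LE.OpjB

set_option autoImplicit false

/-!
# Row OPENJ, part 3: the reduction
-/

namespace Pool.DynLehmer.LE.Oj
open Pool.DynLehmer.LE.Op

variable {A : Type} [AddCommGroup A] {G : Type} [Group G] [DistribMulAction G A]

/-- the norm of `u + w J` -/
def nm (t n₀ u w : ℤ) : ℤ := u ^ 2 + t * u * w + n₀ * w ^ 2

/-- a small multiplier which kills a stable subgroup -/
theorem exists_beta {J : A →+ A} {t n₀ : ℤ} {n : ℕ} (hn : 1 ≤ n) {Q₀ : A}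
    (hB : IsB J n Q₀) (M₁ : AddSubgroup A) (hM : ∀ x ∈ M₁, n • x = 0) (hJ : ∀ x ∈ M₁, J x ∈ M₁) :
    ∃ u w : ℤ, (u ≠ 0 ∨ w ≠ 0) ∧ (∀ x ∈ M₁, u • x + w • J x = 0) ∧
      nm t n₀ u w ≤ (1 + |t| + |n₀|) * Nat.card M₁ := by
  classical
  have : NeZero n := ⟨by omega⟩
  obtain ⟨c, hc⟩ := exists_coord hB
  have hfinT := finite_Tn hn hB
  have hfin : Finite M₁ := Finite.of_injective (fun z : M₁ => (⟨z, hM z z.2⟩ : Tn A n))
    fun z z' h => Subtype.ext (congrArg (fun t : Tn A n => (t : A)) h)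
  have : Fintype M₁ := Fintype.ofFinite _
  -- the functionals
  let ι : M₁ →+ Tn A n :=
    { toFun := fun z => ⟨z, hM z z.2⟩, map_zero' := rfl, map_add' := fun _ _ => rfl }
  let Λ : ℤ × ℤ → (M₁ →+ ZMod n) := fun z => c.comp (z.1 • ι + z.2 • (JT J n).comp ι)
  have hΛ : ∀ (z : ℤ × ℤ) (x : M₁), Λ z x = c (z.1 • ι x + z.2 • JT J n (ι x)) := fun z x => rfl
  have hΛk : ∀ z z' : ℤ × ℤ, Λ z = Λ z' → ∀ x ∈ M₁, (z.1 - z'.1) • x + (z.2 - z'.2) • J x = 0 := by
    intro z z' h x hx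
    have h1 : ∀ x : M₁, c ((z.1 - z'.1) • ι x + (z.2 - z'.2) • JT J n (ι x)) = 0 := by
      intro x
      have h2 := DFunLike.congr_fun h x
      rw [hΛ, hΛ, ← sub_eq_zero, ← map_sub] at h2
      rw [← h2]
      congr 1
      rw [sub_smul, sub_smul]
      abel
    have h2 : ((z.1 - z'.1) • ι ⟨x, hx⟩ + (z.2 - z'.2) • JT J n (ι ⟨x, hx⟩) : Tn A n) = 0 := by
      refine hc _ (h1 ⟨x, hx⟩) ?_
      rw [map_add, map_zsmul, map_zsmul]
      exact h1 ⟨J x, hJ x hx⟩
    exact congrArg (fun q : Tn A n => (q : A)) h2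
  -- the number of the functionals
  have hcard : Nat.card (M₁ →+ ZMod n) ≤ Nat.card M₁ := by
    have h1 : Fintype.card (AddChar M₁ ℂ) = Fintype.card M₁ := AddChar.card_eq
    rw [← Nat.card_eq_fintype_card, ← Nat.card_eq_fintype_card] at h1
    rw [← h1]
    exact Nat.card_le_card_of_injective _
      (AddChar.compAddMonoidHom_injective_right (ZMod.stdAddChar (N := n))
        ZMod.injective_stdAddChar)
  set i := Nat.card M₁ with hi
  have hi0 : 1 ≤ i := Nat.card_pos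
  set s := Nat.sqrt i with hs
  have hs1 : s * s ≤ i := Nat.sqrt_le i
  have hs2 : i < (s + 1) * (s + 1) := Nat.lt_succ_sqrt i
  have hfinF : Finite (M₁ →+ ZMod n) := Finite.of_injective
    (fun f : M₁ →+ ZMod n => (f : M₁ → ZMod n)) DFunLike.coe_injective
  have hpig : ¬ Function.Injective (fun z : Fin (s + 1) × Fin (s + 1) =>
      Λ ((z.1 : ℕ), (z.2 : ℕ))) := by
    intro h
    have h1 := Nat.card_le_card_of_injective _ h
    rw [Nat.card_prod, Nat.card_eq_fintype_card, Fintype.card_fin] at h1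
    omega
  rw [Function.Injective] at hpig
  push Not at hpig
  obtain ⟨z, z', hzz, hne⟩ := hpig
  refine ⟨(z.1 : ℕ) - (z'.1 : ℕ), (z.2 : ℕ) - (z'.2 : ℕ), ?_, hΛk _ _ hzz, ?_⟩
  · by_contra h
    push Not at h
    apply hne
    refine Prod.ext (Fin.ext ?_) (Fin.ext ?_)
    · have := h.1
      omega
    · have := h.2
      omega
  · set u : ℤ := ((z.1 : ℕ) : ℤ) - ((z'.1 : ℕ) : ℤ) with hu
    set w : ℤ := ((z.2 : ℕ) : ℤ) - ((z'.2 : ℕ) : ℤ) with hw
    have hu1 : |u| ≤ s := by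
      rw [abs_le]
      have h1 := z.1.2
      have h2 := z'.1.2
      omega
    have hw1 : |w| ≤ s := by
      rw [abs_le]
      have h1 := z.2.2
      have h2 := z'.2.2
      omega
    have hsi : (s : ℤ) * s ≤ i := by exact_mod_cast hs1
    have hs0 : (0 : ℤ) ≤ s := Int.natCast_nonneg _
    have h1 : u ^ 2 ≤ i := by
      rw [← sq_abs]
      nlinarith [abs_nonneg u]
    have h2 : w ^ 2 ≤ i := by
      rw [← sq_abs]
      nlinarith [abs_nonneg w]
    have h3 : |u * w| ≤ i := by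
      rw [abs_mul]
      exact (mul_le_mul hu1 hw1 (abs_nonneg w) hs0).trans hsi
    have h4 : t * u * w ≤ |t| * i := by
      calc t * u * w ≤ |t * (u * w)| := by
            rw [mul_assoc]
            exact le_abs_self _
        _ = |t| * |u * w| := abs_mul _ _
        _ ≤ |t| * i := mul_le_mul_of_nonneg_left h3 (abs_nonneg t)
    have h5 : n₀ * w ^ 2 ≤ |n₀| * i := by
      calc n₀ * w ^ 2 ≤ |n₀| * w ^ 2 := mul_le_mul_of_nonneg_right (le_abs_self _) (sq_nonneg _)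
        _ ≤ |n₀| * i := mul_le_mul_of_nonneg_left h2 (abs_nonneg n₀)
    rw [nm]
    linarith

/-- **The reduction.** -/
theorem mainJ {J : A →+ A} {t n₀ : ℤ} {H : Subgroup G} {j : ℕ} (h : Hyp J t n₀ H j)
    (ht : t ^ 2 < 4 * n₀) (P : A) {n : ℕ} (hn0 : 1 ≤ n) (hn : ∀ τ ∈ H, n • (τ • P - P) = 0) :
    ∃ (x y u w : ℤ) (W : A), (x ≠ 0 ∨ y ≠ 0) ∧ W ∈ AddSubgroup.closure (dS H P) ∧
      Nat.card (dS H (x • P + y • J P + (u • W + w • J W))) ≤ 144 * j ^ 8 ∧
      nm t n₀ x y * Nat.card (dS H (x • P + y • J P + (u • W + w • J W))) ≤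
        (1 + |t| + |n₀|) * Nat.card (dS H P) := by
  classical
  have hnz : NeZero n := ⟨by omega⟩
  obtain ⟨Q₀, hB⟩ := h.iso n hn0
  have hfinT := finite_Tn hn0 hB
  have hpos : ∀ x y : ℤ, 0 ≤ nm t n₀ x y := by
    intro x y
    rw [nm]
    nlinarith [sq_nonneg (2 * x + t * y), sq_nonneg y]
  have hj : 1 ≤ j := by
    have h1 := h.idx 1 le_rfl
    omega
  set M := Mg H P n hn with hM
  have hMT : ∀ x ∈ M, n • x = 0 := fun x hx => Mg_tors hn hx
  -- the number `d`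
  let I : AddSubgroup ℤ :=
    { carrier := {y | ∀ x ∈ M, y • J x ∈ M}
      zero_mem' := fun x _ => by
        rw [zero_smul]
        exact zero_mem M
      add_mem' := fun {y y'} hy hy' x hx => by
        rw [add_smul]
        exact add_mem (hy x hx) (hy' x hx)
      neg_mem' := fun {y} hy x hx => by
        rw [neg_smul]
        exact neg_mem (hy x hx) }
  obtain ⟨d₀, hd₀⟩ := Int.subgroup_cyclic I
  set d := d₀.natAbs with hd
  have hI : ∀ z, z ∈ I ↔ (d : ℤ) ∣ z := by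
    intro z
    rw [hd₀, AddSubgroup.mem_closure_singleton, hd, Int.natAbs_dvd]
    constructor
    · rintro ⟨k, rfl⟩
      exact ⟨k, by rw [smul_eq_mul, mul_comm]⟩
    · rintro ⟨k, rfl⟩
      exact ⟨k, by rw [smul_eq_mul, mul_comm]⟩
  have hdn : d ∣ n := by
    refine Int.natCast_dvd_natCast.1 ((hI _).1 fun x hx => ?_)
    rw [natCast_zsmul, JQ_tors (hMT x hx)]
    exact zero_mem M
  have hd1 : 1 ≤ d := Nat.pos_of_dvd_of_pos hdn (by omega)
  have hdJ : ∀ x ∈ M, (d : ℤ) • J x ∈ M := (hI _).2 dvd_rfl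
  have hdle : d ≤ 6 * j ^ 2 := by
    refine d_le h hd1 fun τ hτ => ?_
    obtain ⟨x, y, hxy⟩ := act_form h hn0 τ
    have hy : (d : ℤ) ∣ y := by
      refine (hI _).1 fun z hz => ?_
      have h1 : y • J z = τ • z - x • z := by
        rw [hxy z (hMT z hz), add_sub_cancel_left]
      rw [h1]
      exact sub_mem (Mg_stab hn hτ hz) (AddSubgroup.zsmul_mem _ hz x)
    refine ⟨x, fun Q hQ => ?_⟩
    have hQn : n • Q = 0 := by
      obtain ⟨k, hk⟩ := hdn
      rw [hk, mul_comm, mul_smul, hQ, smul_zero]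
    rw [hxy Q hQn, zsmul_eq_zero_of_dvd (JQ_tors hQ) hy, add_zero]
  -- the largest stable subgroup
  let M₁ : AddSubgroup A :=
    { carrier := {x | x ∈ M ∧ J x ∈ M}
      zero_mem' := ⟨zero_mem M, by rw [map_zero]; exact zero_mem M⟩
      add_mem' := fun {x y} hx hy => ⟨add_mem hx.1 hy.1, by rw [map_add]; exact add_mem hx.2 hy.2⟩
      neg_mem' := fun {x} hx => ⟨neg_mem hx.1, by rw [map_neg]; exact neg_mem hx.2⟩ }
  have hM₁M : ∀ x ∈ M₁, x ∈ M := fun x hx => hx.1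
  have hM₁J : ∀ x ∈ M₁, J x ∈ M₁ := fun x hx => ⟨hx.2, by
    rw [h.sq]
    exact sub_mem (AddSubgroup.zsmul_mem _ hx.2 _) (AddSubgroup.zsmul_mem _ hx.1 _)⟩
  have hdM : ∀ x ∈ M, d • x ∈ M₁ := fun x hx => ⟨AddSubgroup.nsmul_mem _ hx d, by
    rw [map_nsmul, ← natCast_zsmul]
    exact hdJ x hx⟩
  obtain ⟨u, w, huw, hβ, hβn⟩ := exists_beta (t := t) (n₀ := n₀) hn0 hB M₁
    (fun x hx => hMT x (hM₁M x hx)) hM₁J
  -- the map `β`
  let β : A →+ A := u • AddMonoidHom.id A + w • J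
  have hβa : ∀ x, β x = u • x + w • J x := fun x => rfl
  have hβ₁ : ∀ x ∈ M₁, β x = 0 := hβ
  -- the group `β M`
  let M' : AddSubgroup A := M.map β
  have hM' : ∀ z, z ∈ M' ↔ ∃ m ∈ M, β m = z := fun z => AddSubgroup.mem_map
  have hM'd : ∀ z ∈ M', d • z = 0 := by
    intro z hz
    obtain ⟨m, hm, rfl⟩ := (hM' z).1 hz
    rw [← map_nsmul, hβ₁ _ (hdM m hm)]
  obtain ⟨Q₁, hB₁⟩ := h.iso d hd1
  have hfind := finite_Tn hd1 hB₁
  have hfinM' : Finite M' := Finite.of_injective (fun z : M' => (⟨z, hM'd z z.2⟩ : Tn A d))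
    fun z z' h => Subtype.ext (congrArg (fun t : Tn A d => (t : A)) h)
  have hcardM : Nat.card M' ≤ d ^ 2 := by
    rw [← card_Tn hd1 hB₁]
    exact Nat.card_le_card_of_injective (fun z : M' => (⟨z, hM'd z z.2⟩ : Tn A d))
      fun z z' h => Subtype.ext (congrArg (fun t : Tn A d => (t : A)) h)
  -- the multiplier `v`
  obtain ⟨u₀, hu₀⟩ := Int.subgroup_cyclic (Jg hn)
  set v := u₀.natAbs with hv
  have hJ : ∀ z, z ∈ Jg hn ↔ (v : ℤ) ∣ z := by
    intro z
    rw [hu₀, AddSubgroup.mem_closure_singleton, hv, Int.natAbs_dvd]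
    constructor
    · rintro ⟨k, rfl⟩
      exact ⟨k, by rw [smul_eq_mul, mul_comm]⟩
    · rintro ⟨k, rfl⟩
      exact ⟨k, by rw [smul_eq_mul, mul_comm]⟩
  have hvn : v ∣ n := Int.natCast_dvd_natCast.1 ((hJ _).1 (n_mem hn))
  have hv1 : 1 ≤ v := Nat.pos_of_dvd_of_pos hvn (by omega)
  have htot : Nat.totient v ≤ j := tot_leJ h hn0 hvn
    fun τ hτ c hc => (hJ _).1 (scal_mem hn hτ hc)
  have hv2 : v ≤ 2 * j ^ 2 := (le_totient v).2.trans
    (Nat.mul_le_mul_left _ (Nat.pow_le_pow_left htot 2))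
  obtain ⟨W, hW, hWJ⟩ := (hJ (v : ℤ)).2 dvd_rfl
  -- finiteness
  have hfinS : Finite (dS H P) := Finite.of_injective
    (fun s : dS H P => (⟨s, by
      obtain ⟨⟨τ, hτ⟩, h⟩ := s.2
      rw [mem_Tn, ← h]
      exact hn τ hτ⟩ : Tn A n))
    fun z z' h => Subtype.ext (congrArg (fun t : Tn A n => (t : A)) h)
  have hβg : ∀ (τ : G) (R : A), τ • β R = β (τ • R) := by
    intro τ R
    have hz : ∀ (z : ℤ) (R : A), τ • (z • R) = z • (τ • R) := fun z R =>
      map_zsmul (DistribSMul.toAddMonoidHom A τ) z R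
    rw [hβa, hβa, smul_add, hz, hz, h.comm]
  have hbdif : ∀ τ : G, τ • β P - β P = β (τ • P - P) := fun τ => by
    rw [hβg, map_sub]
  -- `#M₁ * #(β S) ≤ #S`
  have hfib : Nat.card M₁ * Nat.card (dS H (β P)) ≤ Nat.card (dS H P) := by
    have hsec : ∀ y : dS H (β P), ∃ s ∈ dS H P, β s = (y : A) := by
      rintro ⟨_, ⟨τ, hτ⟩, rfl⟩
      exact ⟨τ • P - P, mem_dS hτ, (hbdif τ).symm⟩
    choose s hs hsb using hsec
    have h1 : Nat.card (M₁ × dS H (β P)) ≤ Nat.card (dS H P) :=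
      Nat.card_le_card_of_injective (fun z : M₁ × dS H (β P) =>
        (⟨(z.1 : A) + s z.2, Mg_add hn (hM₁M _ z.1.2) (hs z.2)⟩ : dS H P)) (by
        rintro ⟨x, y⟩ ⟨x', y'⟩ h
        have h2 : (x : A) + s y = (x' : A) + s y' := congrArg (fun q : dS H P => (q : A)) h
        have h3 : y = y' := by
          have h4 := congrArg (fun q : A => β q) h2
          simp only [map_add] at h4
          rw [hsb, hsb, hβ₁ _ x.2, hβ₁ _ x'.2, zero_add, zero_add] at h4
          exact Subtype.ext h4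
        subst h3
        have h5 : x = x' := Subtype.ext (add_right_cancel h2)
        rw [h5])
    rw [Nat.card_prod] at h1
    exact h1
  have hfib' : nm t n₀ u w * Nat.card (dS H (β P)) ≤
      (1 + |t| + |n₀|) * Nat.card (dS H P) := by
    have h1 : ((Nat.card M₁ * Nat.card (dS H (β P)) : ℕ) : ℤ) ≤ (Nat.card (dS H P) : ℤ) := by
      exact_mod_cast hfib
    push_cast at h1
    have h2 : (0 : ℤ) ≤ 1 + |t| + |n₀| := by positivity
    calc nm t n₀ u w * Nat.card (dS H (β P))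
        ≤ (1 + |t| + |n₀|) * Nat.card M₁ * Nat.card (dS H (β P)) :=
          mul_le_mul_of_nonneg_right hβn (Int.natCast_nonneg _)
      _ = (1 + |t| + |n₀|) * (Nat.card M₁ * Nat.card (dS H (β P))) := by ring
      _ ≤ _ := mul_le_mul_of_nonneg_left h1 h2
  by_cases hcase : Nat.card (dS H (β P)) ≤ v ^ 2 * d ^ 2
  · refine ⟨u, w, 0, 0, 0, huw, zero_mem _, ?_, ?_⟩
    · rw [zero_smul, zero_smul, add_zero, add_zero]
      refine hcase.trans ?_
      calc v ^ 2 * d ^ 2 ≤ (2 * j ^ 2) ^ 2 * (6 * j ^ 2) ^ 2 :=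
            Nat.mul_le_mul (Nat.pow_le_pow_left hv2 2) (Nat.pow_le_pow_left hdle 2)
        _ = 144 * j ^ 8 := by ring
    · rw [zero_smul, zero_smul, add_zero, add_zero]
      exact hfib'
  · have hP' : ((v : ℤ) * u) • P + ((v : ℤ) * w) • J P + ((-u) • W + (-w) • J W) =
        β ((v : ℤ) • P - W) := by
      rw [map_sub, map_zsmul, hβa, hβa]
      module
    have hdif : ∀ τ : G, τ • β ((v : ℤ) • P - W) - β ((v : ℤ) • P - W) =
        β ((v : ℤ) • (τ • P - P) - (τ • W - W)) := by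
      intro τ
      have hz : ∀ (z : ℤ) (R : A), τ • (z • R) = z • (τ • R) := fun z R =>
        map_zsmul (DistribSMul.toAddMonoidHom A τ) z R
      rw [hβg, ← map_sub, smul_sub τ, hz, smul_sub (v : ℤ)]
      congr 1
      abel
    have hcard : Nat.card (dS H (β ((v : ℤ) • P - W))) ≤ d ^ 2 := by
      refine le_trans ?_ hcardM
      exact Nat.card_le_card_of_injective
        (fun z : dS H (β ((v : ℤ) • P - W)) => (⟨z, by
          obtain ⟨⟨τ, hτ⟩, h⟩ := z.2
          rw [← h]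
          exact (hM' _).2 ⟨_, hWJ τ hτ, (hdif τ).symm⟩⟩ : M'))
        fun z z' h => Subtype.ext (congrArg (fun t : M' => (t : A)) h)
    refine ⟨(v : ℤ) * u, (v : ℤ) * w, -u, -w, W, ?_, hW, ?_, ?_⟩
    · have hv0 : (v : ℤ) ≠ 0 := by
        have : v ≠ 0 := by omega
        exact_mod_cast this
      exact huw.imp (mul_ne_zero hv0) (mul_ne_zero hv0)
    · rw [hP']
      refine hcard.trans ?_
      calc d ^ 2 ≤ (6 * j ^ 2) ^ 2 := Nat.pow_le_pow_left hdle 2
        _ = 36 * j ^ 4 := by ring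
        _ ≤ 144 * j ^ 8 := Nat.mul_le_mul (by norm_num) (Nat.pow_le_pow_right hj (by norm_num))
    · rw [hP']
      push Not at hcase
      have h1 : nm t n₀ (v * u) (v * w) = nm t n₀ u w * v ^ 2 := by
        rw [nm, nm]
        ring
      rw [h1]
      have h2 : ((v : ℤ) ^ 2 * Nat.card (dS H (β ((v : ℤ) • P - W))) : ℤ) ≤
          Nat.card (dS H (β P)) := by
        have h3 : v ^ 2 * Nat.card (dS H (β ((v : ℤ) • P - W))) ≤ Nat.card (dS H (β P)) :=
          (Nat.mul_le_mul_left _ hcard).trans hcase.le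
        exact_mod_cast h3
      calc nm t n₀ u w * v ^ 2 * Nat.card (dS H (β ((v : ℤ) • P - W)))
          = nm t n₀ u w * ((v : ℤ) ^ 2 * Nat.card (dS H (β ((v : ℤ) • P - W)))) := by ring
        _ ≤ nm t n₀ u w * Nat.card (dS H (β P)) := mul_le_mul_of_nonneg_left h2 (hpos u w)
        _ ≤ _ := hfib'

end Pool.DynLehmer.LE.Oj
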