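import Pool.Agent.Lib.MP_2194ec_nt.LE.Latte
import Pool.Agent.Lib.MP_2194ec_nt.LE.OpjC

set_option autoImplicit false
set_option linter.unusedSectionVars false

/-!
# The Lehmer bound for elliptic curves with complex multiplication outside primitive almost simple
groups: definitions
-/

namespace Pool.DynLehmer.LE
open MvPolynomial NumberField Filter Topology Pool.DynLehmer Pool.DynLehmer.SB Pool.DynLehmer.SP
  Pool.DynLehmer.GS Pool.DynLehmer.LP Pool.DynLehmer.LW
open scoped Classical

/-- An endomorphism `J` of the curve `y ^ 2 = x ^ 3 + a x + b` over `K`, with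
`J ^ 2 = t J - n`: a natural family of endomorphisms of the groups of points which multiplies the
heights of the points over each number field by `d`, up to a bounded error. -/
structure EndH {K : Type} [Field K] (a b : K) where
  /-- the endomorphism -/
  J : ∀ (M : Type) [Field M] [Algebra K M], Ept a b M →+ Ept a b M
  /-- the degree -/
  d : ℕ
  /-- the trace -/
  t : ℤ
  /-- the norm -/
  n : ℤ
  nat : ∀ (M M' : Type) [Field M] [Algebra K M] [Field M'] [Algebra K M'] (φ : M →ₐ[K] M')
    (P : Ept a b M), pm φ (J M P) = J M' (pm φ P)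
  sq : ∀ (M : Type) [Field M] [Algebra K M] (P : Ept a b M), J M (J M P) = t • J M P - n • P
  ht : ∀ (N : Type) [Field N] [NumberField N] [Algebra K N], ∃ C : ℝ, ∀ P : Ept a b N,
    |Height.logHeight (J N P).xRep - (d : ℝ) * Height.logHeight P.xRep| ≤ C

/-- The image of the Galois group on the torsion is open in the group of the automorphisms which
commute with the endomorphism `J`: for all `n ≥ 1` the group of the points of order dividing `n`
over an algebraic closure of `K` has a basis `Q₀`, `J Q₀` over `ℤ / n`, and the number of its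
automorphisms which commute with `J` is at most `B` times the number of the automorphisms which are
induced by automorphisms of the algebraic closure over `K`. -/
def OpenH {K : Type} [Field K] {a b : K} (E : EndH a b) : Prop :=
  ∃ B : ℕ, ∀ n : ℕ, 1 ≤ n →
    (∃ Q₀ : Ept a b (AlgebraicClosure K), Oj.IsB (E.J (AlgebraicClosure K)) n Q₀) ∧
    Nat.card {f : Op.Tn (Ept a b (AlgebraicClosure K)) n ≃+
        Op.Tn (Ept a b (AlgebraicClosure K)) n //
          ∀ Q, f (Oj.JT (E.J (AlgebraicClosure K)) n Q) =
            Oj.JT (E.J (AlgebraicClosure K)) n (f Q)} ≤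
      B * Nat.card {f : Op.Tn (Ept a b (AlgebraicClosure K)) n ≃+
        Op.Tn (Ept a b (AlgebraicClosure K)) n //
          ∃ σ : AlgebraicClosure K ≃ₐ[K] AlgebraicClosure K,
            ∀ Q : Op.Tn (Ept a b (AlgebraicClosure K)) n,
              ((f Q : Op.Tn (Ept a b (AlgebraicClosure K)) n) : Ept a b (AlgebraicClosure K)) =
                pm (σ : AlgebraicClosure K →ₐ[K] AlgebraicClosure K) Q}

/-- Some `x P + y J P + T`, `(x, y) ≠ 0`, `T` of finite order, has degree at most `M e ^ M` and the
norm of `x + y J` times this degree is at most `M` times the degree of `P`. -/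
def SmallH (K : Type) [Field K] {a b : K} (E : EndH a b) {N : Type} [Field N] [Algebra K N]
    (P : Ept a b N) (M : ℕ) : Prop :=
  ∃ (x y : ℤ) (m : ℕ) (T : Ept a b N), (x ≠ 0 ∨ y ≠ 0) ∧ 1 ≤ m ∧ m • T = 0 ∧
    dg K (x • P + y • E.J N P + T).xRep ≤ M * Module.finrank K (classFieldE K P) ^ M ∧
    Oj.nm E.t E.n x y * (dg K (x • P + y • E.J N P + T).xRep : ℤ) ≤ M * (dg K P.xRep : ℤ)

/-- Row A: if the image of the Galois group is open, then all points have a multiple of a small
degree. -/
def SmallHStatement : Prop :=
  ∀ (K : Type) [Field K] [NumberField K] (a b : K) (E : EndH a b), E.t ^ 2 < 4 * E.n → OpenH E →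
    ∃ M : ℕ, ∀ (N : Type) [Field N] [NumberField N] [Algebra K N] [IsGalois K N] (P : Ept a b N),
      SmallH K E P M

end Pool.DynLehmer.LE
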