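import Mathlib.RingTheory.Etale.Kaehler
import Mathlib.RingTheory.Etale.Field
import Mathlib.RingTheory.AlgebraicIndependent.TranscendenceBasis
import Mathlib.RingTheory.Derivation.Basic

set_option autoImplicit false

/-!
# Derivations of a field and transcendence bases: the statement
-/

namespace Pool.DynLehmer.LE
open scoped Classical

/-- Row EXT: the derivations of a field which is algebraic over `C (x i)`. -/
def ExtStatement : Prop :=
  ∀ (C L : Type) [Field C] [CharZero C] [Field L] [Algebra C L] (ι : Type) [Fintype ι]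
    (x : ι → L), IsTranscendenceBasis C x →
    (∀ c : ι → L, ∃ D : Derivation C L L, ∀ i, D (x i) = c i) ∧
    (∀ (M : Type) [Field M] (φ : L →+* M) (d : L → M), (∀ u v, d (u + v) = d u + d v) →
      (∀ u v, d (u * v) = φ u * d v + φ v * d u) → (∀ c, d (algebraMap C L c) = 0) →
      (∀ i, d (x i) = 0) → ∀ u, d u = 0) ∧
    (∀ (D : ι → Derivation C L L) (c : ι → L), (∀ j, c j ≠ 0) →
      (∀ i j, D j (x i) = if i = j then c j else 0) → ∀ u, (∀ j, D j u = 0) →
      IsAlgebraic C u)

end Pool.DynLehmer.LE
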