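import Pool.Agent.Lib.MP_2194ec_nt.LE.Freel

set_option autoImplicit false
set_option linter.unusedSectionVars false

/-!
# Surjectivity of a morphism of the projective line and dominance of its powers
-/

namespace Pool.DynLehmer.LE
open MvPolynomial NumberField Filter Topology Pool.DynLehmer Pool.DynLehmer.SB Pool.DynLehmer.SP
  Pool.DynLehmer.GS Pool.DynLehmer.LP Pool.DynLehmer.LW Pool.DynLehmer.LW.Cl
open scoped Classical

namespace Dm

variable {K : Type} [Field K]

/-- a binary form of positive degree has a nontrivial zero -/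
theorem form_zero {L : Type} [Field L] [IsAlgClosed L] {G : MvPolynomial (Fin 2) L} {q : ℕ}
    (hq : 1 ≤ q) (hG : G.IsHomogeneous q) : ∃ v : Fin 2 → L, v ≠ 0 ∧ aeval v G = 0 := by
  by_contra hcon
  push Not at hcon
  let g1 : Polynomial L := aeval (![Polynomial.X, 1] : Fin 2 → Polynomial L) G
  let g2 : Polynomial L := aeval (![1, Polynomial.X] : Fin 2 → Polynomial L) G
  have e1 : ∀ t : L, g1.eval t = aeval (![t, 1] : Fin 2 → L) G := by
    intro t
    have h : (Polynomial.aeval t : Polynomial L →ₐ[L] L).comp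
        (aeval (![Polynomial.X, 1] : Fin 2 → Polynomial L)) =
        aeval (![t, 1] : Fin 2 → L) := by
      refine algHom_ext fun i => ?_
      fin_cases i <;> simp
    rw [← h]
    simp [g1]
  have e2 : ∀ t : L, g2.eval t = aeval (![1, t] : Fin 2 → L) G := by
    intro t
    have h : (Polynomial.aeval t : Polynomial L →ₐ[L] L).comp
        (aeval (![1, Polynomial.X] : Fin 2 → Polynomial L)) =
        aeval (![1, t] : Fin 2 → L) := by
      refine algHom_ext fun i => ?_
      fin_cases i <;> simp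
    rw [← h]
    simp [g2]
  have n1 : ∀ t : L, (![t, 1] : Fin 2 → L) ≠ 0 := fun t h => one_ne_zero (congrFun h 1)
  have n2 : ∀ t : L, (![1, t] : Fin 2 → L) ≠ 0 := fun t h => one_ne_zero (congrFun h 0)
  have d1 : g1.degree = 0 := by
    by_contra hd
    obtain ⟨t, ht⟩ := IsAlgClosed.exists_root g1 hd
    exact hcon _ (n1 t) ((e1 t).symm.trans ht)
  have hc := Polynomial.eq_C_of_degree_eq_zero d1
  set c := g1.coeff 0 with hcdef
  have h3 : ∀ s : L, s ≠ 0 → g2.eval s = s ^ q * c := by
    intro s hs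
    have h4 : aeval (fun j => s * (![s⁻¹, 1] : Fin 2 → L) j) G =
        s ^ q * aeval (![s⁻¹, 1] : Fin 2 → L) G := aeval_hom hG s _
    have h5 : (fun j => s * (![s⁻¹, 1] : Fin 2 → L) j) = ![1, s] := by
      funext j
      fin_cases j
      · show s * s⁻¹ = 1
        exact mul_inv_cancel₀ hs
      · show s * 1 = s
        exact mul_one s
    rw [h5, ← e2, ← e1, hc, Polynomial.eval_C] at h4
    exact h4
  have h6 : Polynomial.X * (g2 - Polynomial.C c * Polynomial.X ^ q) = 0 := by
    haveI : Infinite L := IsAlgClosed.instInfinite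
    apply Polynomial.funext
    intro s
    rw [Polynomial.eval_mul, Polynomial.eval_X, Polynomial.eval_sub, Polynomial.eval_mul,
      Polynomial.eval_C, Polynomial.eval_pow, Polynomial.eval_X, Polynomial.eval_zero]
    by_cases hs : s = 0
    · rw [hs, zero_mul]
    · rw [h3 s hs]
      ring
  have h7 : g2 = Polynomial.C c * Polynomial.X ^ q :=
    sub_eq_zero.1 ((mul_eq_zero.1 h6).resolve_left Polynomial.X_ne_zero)
  have h8 : g2.eval 0 = 0 := by
    rw [h7, Polynomial.eval_mul, Polynomial.eval_pow, Polynomial.eval_X, zero_pow (by omega),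
      mul_zero]
  exact hcon _ (n2 0) ((e2 0).symm.trans h8)

/-- a morphism of positive degree is surjective on the affine cone -/
theorem gAct_surj {q : ℕ} {F : Fin 2 → MvPolynomial (Fin 2) K} (hF : Mor q F) (hq : 1 ≤ q)
    {L : Type} [Field L] [Algebra K L] [IsAlgClosed L] {ζ : Fin 2 → L} (hζ : ζ ≠ 0) :
    ∃ η : Fin 2 → L, gAct F L η = ζ := by
  let G : MvPolynomial (Fin 2) L :=
    C (ζ 1) * map (algebraMap K L) (F 0) - C (ζ 0) * map (algebraMap K L) (F 1)
  have hG : G.IsHomogeneous q := by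
    have h1 := ((isHomogeneous_C (Fin 2) (ζ 1)).mul ((hF.hom 0).map (algebraMap K L)))
    have h2 := ((isHomogeneous_C (Fin 2) (ζ 0)).mul ((hF.hom 1).map (algebraMap K L)))
    rw [zero_add] at h1 h2
    exact h1.sub h2
  obtain ⟨v, hv, h0⟩ := form_zero hq hG
  have h1 : aeval v G = ζ 1 * gAct F L v 0 - ζ 0 * gAct F L v 1 := by
    rw [map_sub, map_mul, map_mul, aeval_map_algebraMap, aeval_map_algebraMap, aeval_C, aeval_C]
    rfl
  rw [h1, sub_eq_zero] at h0
  have h2 : gAct F L v ≠ 0 := hF.ne L v hv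
  obtain ⟨c, hc, h3⟩ : ∃ c : L, c ≠ 0 ∧ gAct F L v = c • ζ := by
    by_cases hz : ζ 0 = 0
    · have hz1 : ζ 1 ≠ 0 := fun h => hζ (by funext j; fin_cases j; exacts [hz, h])
      rw [hz, zero_mul] at h0
      have h4 : gAct F L v 0 = 0 := (mul_eq_zero.1 h0).resolve_left hz1
      refine ⟨gAct F L v 1 / ζ 1, ?_, ?_⟩
      · refine div_ne_zero (fun h => h2 ?_) hz1
        funext j; fin_cases j; exacts [h4, h]
      · funext j
        fin_cases j
        · show gAct F L v 0 = gAct F L v 1 / ζ 1 * ζ 0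
          rw [h4, hz, mul_zero]
        · show gAct F L v 1 = gAct F L v 1 / ζ 1 * ζ 1
          rw [div_mul_cancel₀ _ hz1]
    · refine ⟨gAct F L v 0 / ζ 0, ?_, ?_⟩
      · refine div_ne_zero (fun h => h2 ?_) hz
        rw [h, mul_zero] at h0
        funext j; fin_cases j; exacts [h, (mul_eq_zero.1 h0.symm).resolve_left hz]
      · funext j
        fin_cases j
        · show gAct F L v 0 = gAct F L v 0 / ζ 0 * ζ 0
          rw [div_mul_cancel₀ _ hz]
        · show gAct F L v 1 = gAct F L v 0 / ζ 0 * ζ 1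
          rw [div_mul_eq_mul_div, eq_div_iff hz, mul_comm _ (ζ 0), ← h0, mul_comm]
  obtain ⟨r, hr⟩ := IsAlgClosed.exists_pow_nat_eq c⁻¹ (n := q) (by omega)
  refine ⟨r • v, ?_⟩
  rw [Fl.gAct_smul hF, hr, h3, smul_smul, inv_mul_cancel₀ hc, one_smul]

/-- dominance of `F × ... × F` -/
theorem fx_ne {q : ℕ} {F : Fin 2 → MvPolynomial (Fin 2) K} (hF : Mor q F) {k : ℕ}
    (hq : ∀ _ : Fin k, 1 ≤ q) {Q : MvPolynomial (Fin k × Fin 2) K} (hQ : Q ≠ 0) :
    bind₁ (FX F k) Q ≠ 0 := by
  let N := FractionRing (MvPolynomial (Fin k × Fin 2) K)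
  let L := AlgebraicClosure N
  have hinj : Function.Injective (algebraMap (MvPolynomial (Fin k × Fin 2) K) N) :=
    IsFractionRing.injective _ _
  let ev : MvPolynomial (Fin k × Fin 2) K →ₐ[K] L := (IsScalarTower.toAlgHom K N L).comp
    (IsScalarTower.toAlgHom K (MvPolynomial (Fin k × Fin 2) K) N)
  have hev : Function.Injective ev := fun x y h => hinj ((algebraMap N L).injective h)
  let ζ : Fin k → Fin 2 → L := fun i j => ev (X (i, j))
  have h1 : (aeval (uc ζ) : MvPolynomial (Fin k × Fin 2) K →ₐ[K] L) = ev := by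
    refine algHom_ext fun a => ?_
    rw [aeval_X]
    rfl
  have hζ : ∀ i, ζ i ≠ 0 := fun i h => X_ne_zero (R := K) (i, (1 : Fin 2))
    (hev ((congrFun h 1).trans (map_zero ev).symm))
  have hη : ∀ i, ∃ η : Fin 2 → L, gAct F L η = ζ i := fun i => gAct_surj hF (hq i) (hζ i)
  choose η hη using hη
  intro h0
  have h2 := aeval_bind (F := F) (N := L) η Q
  rw [h0, map_zero] at h2
  have h3 : (fun i => gAct F L (η i)) = ζ := funext hη
  rw [h3, h1] at h2
  exact hQ (hev (h2.symm.trans (map_zero ev).symm))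

theorem fx_iter_ne {q : ℕ} {F : Fin 2 → MvPolynomial (Fin 2) K} (hF : Mor q F) {k : ℕ}
    (hq : ∀ _ : Fin k, 1 ≤ q) {Q : MvPolynomial (Fin k × Fin 2) K} (hQ : Q ≠ 0) (s : ℕ) :
    (bind₁ (FX F k))^[s] Q ≠ 0 := by
  induction s with
  | zero => exact hQ
  | succ s ih =>
    rw [Function.iterate_succ_apply']
    exact fx_ne hF hq ih

end Dm

end Pool.DynLehmer.LE
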