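import Pool.Agent.Lib.MP_2194ec_nt.LE.Defs

set_option autoImplicit false

/-!
# The Lehmer bound for elliptic curves: places over `2`

The duplication map in the coordinate of a Weierstrass equation which is integral at `2`.
-/

namespace Pool.DynLehmer.LE
open MvPolynomial NumberField Filter Topology Pool.DynLehmer Pool.DynLehmer.SB Pool.DynLehmer.SP
  Pool.DynLehmer.GS Pool.DynLehmer.LP Pool.DynLehmer.LW
open scoped Classical

/-- the translation `x - t` of the projective line -/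
def sh {N : Type} [Field N] (t : N) (y : Fin 2 → N) : Fin 2 → N := ![y 0 - t * y 1, y 1]

/-- `F` is the map of the coordinate `x - t` which belongs to the multiplication by `lam`. -/
def IsLatS {K : Type} [Field K] (a b t : K) (lam : ℕ) (F : Fin 2 → MvPolynomial (Fin 2) K) :
    Prop :=
  ∀ (M : Type) [Field M] [Algebra K M] (P : Ept a b M),
    ∃ c : M, c ≠ 0 ∧ gAct F M (sh (algebraMap K M t) P.xRep) =
      c • sh (algebraMap K M t) (lam • P).xRep

namespace Du

/-- a binary quartic form -/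
noncomputable def bin {K : Type} [Field K] (c : Fin 5 → K) : MvPolynomial (Fin 2) K :=
  ∑ j : Fin 5, monomial (Finsupp.single 0 (4 - (j : ℕ)) + Finsupp.single 1 (j : ℕ)) (c j)

theorem coeff_bin {K : Type} [Field K] (c : Fin 5 → K) (t : Fin 2 →₀ ℕ) :
    (∃ j : Fin 5, t = Finsupp.single 0 (4 - (j : ℕ)) + Finsupp.single 1 (j : ℕ) ∧
      coeff t (bin c) = c j) ∨ coeff t (bin c) = 0 := by
  by_cases h : ∃ j : Fin 5, t = Finsupp.single 0 (4 - (j : ℕ)) + Finsupp.single 1 (j : ℕ)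
  · obtain ⟨j, hj⟩ := h
    refine Or.inl ⟨j, hj, ?_⟩
    rw [bin, coeff_sum, Finset.sum_eq_single j]
    · rw [coeff_monomial, if_pos hj.symm]
    · intro i _ hi
      rw [coeff_monomial, if_neg]
      intro h2
      apply hi
      have h3 := DFunLike.congr_fun (h2.trans hj) 1
      simp at h3
      exact Fin.ext h3
    · intro h2
      exact absurd (Finset.mem_univ _) h2
  · refine Or.inr ?_
    rw [bin, coeff_sum]
    refine Finset.sum_eq_zero fun i _ => ?_
    rw [coeff_monomial, if_neg]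
    intro h2
    exact h ⟨i, h2.symm⟩

theorem coeff_bin_at {K : Type} [Field K] (c : Fin 5 → K) (j : Fin 5) :
    coeff (Finsupp.single 0 (4 - (j : ℕ)) + Finsupp.single 1 (j : ℕ)) (bin c) = c j := by
  rw [bin, coeff_sum, Finset.sum_eq_single j]
  · rw [coeff_monomial, if_pos rfl]
  · intro i _ hi
    rw [coeff_monomial, if_neg]
    intro h2
    apply hi
    have h3 := DFunLike.congr_fun h2 1
    simp at h3
    exact Fin.ext h3
  · intro h2
    exact absurd (Finset.mem_univ _) h2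

theorem coeff_bin0 {K : Type} [Field K] (c : Fin 5 → K) :
    coeff (Finsupp.single 0 4) (bin c) = c 0 := by
  have h := coeff_bin_at c 0
  simpa using h

theorem coeff_bin4 {K : Type} [Field K] (c : Fin 5 → K) :
    coeff (Finsupp.single 1 4) (bin c) = c 4 := by
  have h := coeff_bin_at c 4
  simpa using h

theorem hom_bin {K : Type} [Field K] (c : Fin 5 → K) : (bin c).IsHomogeneous 4 := by
  refine IsHomogeneous.sum _ _ _ fun j _ => ?_
  refine isHomogeneous_monomial _ ?_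
  have := j.isLt
  rw [map_add, Finsupp.degree_single, Finsupp.degree_single]
  omega

theorem aeval_bin {K : Type} [Field K] (c : Fin 5 → K) {M : Type} [Field M] [Algebra K M]
    (y : Fin 2 → M) : aeval y (bin c) = algebraMap K M (c 0) * y 0 ^ 4 +
      algebraMap K M (c 1) * (y 0 ^ 3 * y 1) + algebraMap K M (c 2) * (y 0 ^ 2 * y 1 ^ 2) +
      algebraMap K M (c 3) * (y 0 * y 1 ^ 3) + algebraMap K M (c 4) * y 1 ^ 4 := by
  rw [bin, map_sum]
  simp only [aeval_monomial, Fin.sum_univ_five]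
  simp [Finsupp.prod_fintype]

/-- the duplication map of a Weierstrass equation -/
noncomputable def dupF {K : Type} [Field K] (W : WeierstrassCurve K) :
    Fin 2 → MvPolynomial (Fin 2) K :=
  ![bin ![1, 0, -W.b₄, -(2 * W.b₆), -W.b₈], bin ![0, 4, W.b₂, 2 * W.b₄, W.b₆]]

theorem gAct_dup {K : Type} [Field K] (W : WeierstrassCurve K) (M : Type) [Field M] [Algebra K M]
    (y : Fin 2 → M) : gAct (dupF W) M y =
      ![y 0 ^ 4 - algebraMap K M W.b₄ * (y 0 ^ 2 * y 1 ^ 2) -
          algebraMap K M (2 * W.b₆) * (y 0 * y 1 ^ 3) - algebraMap K M W.b₈ * y 1 ^ 4,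
        algebraMap K M 4 * (y 0 ^ 3 * y 1) + algebraMap K M W.b₂ * (y 0 ^ 2 * y 1 ^ 2) +
          algebraMap K M (2 * W.b₄) * (y 0 * y 1 ^ 3) + algebraMap K M W.b₆ * y 1 ^ 4] := by
  funext j
  fin_cases j
  · show aeval y (bin _) = _
    rw [aeval_bin]
    simp
    ring
  · show aeval y (bin _) = _
    rw [aeval_bin]
    simp

/-- the coefficients of the short equation -/
noncomputable def sa {K : Type} [Field K] (W : WeierstrassCurve K) : K := -W.c₄ / 48

/-- the coefficients of the short equation -/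
noncomputable def sb {K : Type} [Field K] (W : WeierstrassCurve K) : K := -W.c₆ / 864

theorem eqn' {K : Type} [Field K] {a b : K} {L : Type} [Field L] [Algebra K L] {x y : L}
    (h : WeierstrassCurve.Affine.Nonsingular ((Ws a b).baseChange L) x y) :
    y ^ 2 = x ^ 3 + algebraMap K L a * x + algebraMap K L b ∧
      (3 * x ^ 2 + algebraMap K L a ≠ 0 ∨ 2 * y ≠ 0) := by
  rw [WeierstrassCurve.Affine.nonsingular_iff', WeierstrassCurve.Affine.equation_iff] at h
  have h1 : y ^ 2 + algebraMap K L 0 * x * y + algebraMap K L 0 * y =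
      x ^ 3 + algebraMap K L 0 * x ^ 2 + algebraMap K L a * x + algebraMap K L b := h.1
  have h2 : algebraMap K L 0 * y - (3 * x ^ 2 + 2 * algebraMap K L 0 * x + algebraMap K L a) ≠ 0 ∨
      2 * y + algebraMap K L 0 * x + algebraMap K L 0 ≠ 0 := h.2
  simp only [map_zero, zero_mul, add_zero, mul_zero, zero_sub, neg_ne_zero] at h1 h2
  exact ⟨h1, h2⟩

theorem dbl {K : Type} [Field K] {a b : K} {L : Type} [Field L] [Algebra K L] [CharZero L]
    {x y : L} (h : WeierstrassCurve.Affine.Nonsingular ((Ws a b).baseChange L) x y) :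
    (y = 0 → (2 : ℕ) • (WeierstrassCurve.Affine.Point.some x y h : Ept a b L) = 0) ∧
    (y ≠ 0 → ((2 : ℕ) • (WeierstrassCurve.Affine.Point.some x y h : Ept a b L)).xRep =
      ![((3 * x ^ 2 + algebraMap K L a) / (2 * y)) ^ 2 - 2 * x, 1]) := by
  have hneg : ((Ws a b).baseChange L).toAffine.negY x y = -y := by
    show -y - algebraMap K L 0 * x - algebraMap K L 0 = -y
    rw [map_zero]
    ring
  constructor
  · intro hy
    rw [two_smul]
    refine WeierstrassCurve.Affine.Point.add_self_of_Y_eq ?_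
    rw [hneg, hy, neg_zero]
  · intro hy
    have hy2 : y ≠ ((Ws a b).baseChange L).toAffine.negY x y := by
      rw [hneg]
      intro h1
      apply hy
      have h2 : 2 * y = 0 := by
        rw [two_mul]
        nth_rewrite 1 [h1]
        ring
      exact (mul_eq_zero.1 h2).resolve_left two_ne_zero
    rw [two_smul, WeierstrassCurve.Affine.Point.add_self_of_Y_ne hy2,
      WeierstrassCurve.Affine.Point.xRep_some, WeierstrassCurve.Affine.slope_of_Y_ne rfl hy2, hneg]
    have h3 : ∀ l : L, ((Ws a b).baseChange L).toAffine.addX x x l = l ^ 2 - 2 * x := by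
      intro l
      show l ^ 2 + algebraMap K L 0 * l - algebraMap K L 0 - x - x = _
      rw [map_zero]
      ring
    rw [h3]
    have h4 : (3 * x ^ 2 + 2 * ((Ws a b).baseChange L).a₂ * x + ((Ws a b).baseChange L).a₄ -
        ((Ws a b).baseChange L).a₁ * y) / (y - -y) = (3 * x ^ 2 + algebraMap K L a) / (2 * y) := by
      show (3 * x ^ 2 + 2 * algebraMap K L 0 * x + algebraMap K L a - algebraMap K L 0 * y) /
        (y - -y) = _
      rw [map_zero]
      congr 1 <;> ring
    rw [h4]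

/-- the duplication map of a Weierstrass equation in terms of the short equation -/
theorem isLat_dup {K : Type} [Field K] [CharZero K] (W : WeierstrassCurve K) :
    IsLatS (sa W) (sb W) (W.b₂ / 12) 2 (dupF W) := by
  intro M _ _ P
  have : CharZero M := charZero_of_injective_algebraMap (algebraMap K M).injective
  rw [gAct_dup]
  have h12 : algebraMap K M (W.b₂ / 12) = algebraMap K M W.b₂ / 12 := by
    rw [map_div₀, map_ofNat]
  have h8 : algebraMap K M W.b₈ = (algebraMap K M W.b₂ * algebraMap K M W.b₆ -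
      algebraMap K M W.b₄ ^ 2) / 4 := by
    have h1 := W.b_relation
    have h2 : W.b₈ = (W.b₂ * W.b₆ - W.b₄ ^ 2) / 4 := by
      rw [← h1]
      ring
    rw [h2, map_div₀, map_sub, map_mul, map_pow, map_ofNat]
  have ha : algebraMap K M (sa W) = -((algebraMap K M W.b₂) ^ 2 - 24 * algebraMap K M W.b₄) / 48 := by
    simp only [sa, WeierstrassCurve.c₄, map_div₀, map_neg, map_sub, map_mul, map_pow, map_ofNat]
  have hb : algebraMap K M (sb W) = -(-(algebraMap K M W.b₂) ^ 3 + 36 * algebraMap K M W.b₂ *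
      algebraMap K M W.b₄ - 216 * algebraMap K M W.b₆) / 864 := by
    simp only [sb, WeierstrassCurve.c₆, map_div₀, map_neg, map_sub, map_add, map_mul, map_pow,
      map_ofNat]
  rw [h12, h8]
  match P with
  | .zero =>
    refine ⟨1, one_ne_zero, ?_⟩
    have h0 : (2 : ℕ) • (WeierstrassCurve.Affine.Point.zero : Ept (sa W) (sb W) M) =
        WeierstrassCurve.Affine.Point.zero := smul_zero 2
    rw [h0]
    funext j
    fin_cases j <;> simp [sh, WeierstrassCurve.Affine.Point.xRep]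
  | .some x y hn =>
    obtain ⟨he, hs⟩ := eqn' hn
    obtain ⟨hd0, hd1⟩ := dbl hn
    rw [ha, hb] at he
    rw [ha] at hs hd1
    generalize algebraMap K M W.b₂ = B2 at *
    generalize hB4 : algebraMap K M W.b₄ = B4 at *
    generalize hB6 : algebraMap K M W.b₆ = B6 at *
    have e2 : algebraMap K M (2 * W.b₄) = 2 * B4 := by rw [map_mul, map_ofNat, hB4]
    have e3 : algebraMap K M (2 * W.b₆) = 2 * B6 := by rw [map_mul, map_ofNat, hB6]
    have e4 : algebraMap K M 4 = 4 := map_ofNat _ _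
    have hF1 : 4 * ((x - B2 / 12 * 1) ^ 3 * 1) + B2 * ((x - B2 / 12 * 1) ^ 2 * 1 ^ 2) +
        2 * B4 * ((x - B2 / 12 * 1) * 1 ^ 3) + B6 * 1 ^ 4 = 4 * y ^ 2 := by
      rw [he]
      ring
    have hF0 : (x - B2 / 12 * 1) ^ 4 - B4 * ((x - B2 / 12 * 1) ^ 2 * 1 ^ 2) -
        2 * B6 * ((x - B2 / 12 * 1) * 1 ^ 3) - (B2 * B6 - B4 ^ 2) / 4 * 1 ^ 4 =
        (3 * x ^ 2 + -(B2 ^ 2 - 24 * B4) / 48) ^ 2 - 8 * x * y ^ 2 - B2 / 12 * (4 * y ^ 2) := by
      rw [he]
      ring
    by_cases hy : y = 0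
    · refine ⟨(3 * x ^ 2 + -(B2 ^ 2 - 24 * B4) / 48) ^ 2, ?_, ?_⟩
      · apply pow_ne_zero
        rcases hs with hs | hs
        · exact hs
        · rw [hy, mul_zero] at hs
          exact absurd rfl hs
      · rw [hd0 hy, e2, e3, e4]
        funext j
        fin_cases j
        · show (x - B2 / 12 * 1) ^ 4 - B4 * ((x - B2 / 12 * 1) ^ 2 * 1 ^ 2) -
            2 * B6 * ((x - B2 / 12 * 1) * 1 ^ 3) - (B2 * B6 - B4 ^ 2) / 4 * 1 ^ 4 =
            (3 * x ^ 2 + -(B2 ^ 2 - 24 * B4) / 48) ^ 2 * (1 - B2 / 12 * 0)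
          rw [hF0, hy]
          ring
        · show 4 * ((x - B2 / 12 * 1) ^ 3 * 1) + B2 * ((x - B2 / 12 * 1) ^ 2 * 1 ^ 2) +
            2 * B4 * ((x - B2 / 12 * 1) * 1 ^ 3) + B6 * 1 ^ 4 =
            (3 * x ^ 2 + -(B2 ^ 2 - 24 * B4) / 48) ^ 2 * 0
          rw [hF1, hy]
          ring
    · refine ⟨4 * y ^ 2, mul_ne_zero (by norm_num : (4 : M) ≠ 0) (pow_ne_zero 2 hy), ?_⟩
      rw [hd1 hy, e2, e3, e4]
      funext j
      fin_cases j
      · show (x - B2 / 12 * 1) ^ 4 - B4 * ((x - B2 / 12 * 1) ^ 2 * 1 ^ 2) -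
            2 * B6 * ((x - B2 / 12 * 1) * 1 ^ 3) - (B2 * B6 - B4 ^ 2) / 4 * 1 ^ 4 =
            4 * y ^ 2 * (((3 * x ^ 2 + -(B2 ^ 2 - 24 * B4) / 48) / (2 * y)) ^ 2 - 2 * x -
              B2 / 12 * 1)
        rw [hF0, div_pow]
        have h5 : (2 * y) ^ 2 ≠ 0 := pow_ne_zero _ (mul_ne_zero two_ne_zero hy)
        have h6 : 4 * y ^ 2 * ((3 * x ^ 2 + -(B2 ^ 2 - 24 * B4) / 48) ^ 2 / (2 * y) ^ 2) =
            (3 * x ^ 2 + -(B2 ^ 2 - 24 * B4) / 48) ^ 2 := by
          rw [show 4 * y ^ 2 = (2 * y) ^ 2 by ring]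
          exact mul_div_cancel₀ _ h5
        rw [mul_sub, mul_sub, h6]
        ring
      · show 4 * ((x - B2 / 12 * 1) ^ 3 * 1) + B2 * ((x - B2 / 12 * 1) ^ 2 * 1 ^ 2) +
            2 * B4 * ((x - B2 / 12 * 1) * 1 ^ 3) + B6 * 1 ^ 4 = 4 * y ^ 2 * 1
        rw [hF1, mul_one]

/-- Good supersingular reduction at a place over `2`: the duplication map has purely inseparable
good reduction. -/
theorem hypR_dup {K : Type} [Field K] [NumberField K] (v : FinitePlace K) (W : WeierstrassCurve K)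
    (h2 : v (2 : K) < 1) (hb2 : v W.b₂ < 1) (hb4 : v W.b₄ < 1) (hb6 : v W.b₆ = 1)
    (hb8 : v W.b₈ ≤ 1) : HypR 2 2 v (dupF W) := by
  have hn : ∀ x : K, v (-x) = v x := fun x => by
    rw [FinitePlace.coe_apply, FinitePlace.coe_apply, AbsoluteValue.map_neg]
  have h0 : v (0 : K) = 0 := map_zero v
  have h1 : v (1 : K) = 1 := map_one v
  have h26 : v (2 * W.b₆) < 1 := by rw [map_mul, hb6, mul_one]; exact h2
  have h24 : v (2 * W.b₄) < 1 := by
    rw [map_mul]
    exact mul_lt_one_of_nonneg_of_lt_one_left (apply_nonneg v _) h2 hb4.le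
  have h4 : v (4 : K) < 1 := by
    have e : (4 : K) = 2 * 2 := by norm_num
    rw [e, map_mul]
    exact mul_lt_one_of_nonneg_of_lt_one_left (apply_nonneg v _) h2 h2.le
  have hlt : ∀ i : Fin 2, ∀ j : Fin 5, j ≠ 0 → j ≠ 4 → v ((![![1, 0, -W.b₄, -(2 * W.b₆), -W.b₈],
      ![0, 4, W.b₂, 2 * W.b₄, W.b₆]] : Fin 2 → Fin 5 → K) i j) < 1 := by
    intro i j hj hj4
    fin_cases i <;> fin_cases j
    · exact absurd rfl hj
    · show v (0 : K) < 1
      rw [h0]
      exact one_pos
    · show v (-W.b₄) < 1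
      rw [hn]
      exact hb4
    · show v (-(2 * W.b₆)) < 1
      rw [hn]
      exact h26
    · exact absurd rfl hj4
    · exact absurd rfl hj
    · exact h4
    · exact hb2
    · exact h24
    · exact absurd rfl hj4
  have hle : ∀ i : Fin 2, ∀ j : Fin 5, v ((![![1, 0, -W.b₄, -(2 * W.b₆), -W.b₈],
      ![0, 4, W.b₂, 2 * W.b₄, W.b₆]] : Fin 2 → Fin 5 → K) i j) ≤ 1 := by
    intro i j
    by_cases hj : j = 0
    · subst hj
      fin_cases i
      · exact h1.le
      · show v (0 : K) ≤ 1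
        rw [h0]
        exact zero_le_one
    · by_cases hj4 : j = 4
      · subst hj4
        fin_cases i
        · show v (-W.b₈) ≤ 1
          rw [hn]
          exact hb8
        · exact hb6.le
      · exact (hlt i j hj hj4).le
  have hF : ∀ i, dupF W i = bin ((![![1, 0, -W.b₄, -(2 * W.b₆), -W.b₈],
      ![0, 4, W.b₂, 2 * W.b₄, W.b₆]] : Fin 2 → Fin 5 → K) i) := by
    intro i
    fin_cases i <;> rfl
  refine ⟨Nat.prime_two, one_le_two, ?_, ?_, ?_, ?_, ?_⟩
  · rw [Nat.cast_ofNat]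
    exact h2
  · intro i
    rw [hF]
    exact hom_bin _
  · intro i t
    rw [hF]
    rcases coeff_bin (K := K) _ t with ⟨j, hj, h⟩ | h
    · rw [h]
      exact hle i j
    · rw [h, h0]
      exact zero_le_one
  · intro i t ht
    rw [hF]
    rcases coeff_bin (K := K) _ t with ⟨j, hj, h⟩ | h
    · rw [h]
      refine hlt i j ?_ ?_
      · rintro rfl
        exact ht 0 (by rw [hj]; simp)
      · rintro rfl
        exact ht 1 (by rw [hj]; simp)
    · rw [h, h0]
      exact one_pos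
  · rw [Matrix.det_fin_two]
    simp only [Matrix.of_apply, hF]
    have e4 : (2 : ℕ) ^ 2 = 4 := rfl
    rw [e4, coeff_bin0, coeff_bin4, coeff_bin0, coeff_bin4]
    show v (1 * W.b₆ - -W.b₈ * 0) = 1
    rw [mul_zero, sub_zero, one_mul]
    exact hb6

/-- Good supersingular reduction at a place over `2` in terms of the coefficients. -/
theorem hypR_dup' {K : Type} [Field K] [NumberField K] (v : FinitePlace K) (W : WeierstrassCurve K)
    (h2 : v (2 : K) < 1) (h1 : v W.a₁ < 1) (ha2 : v W.a₂ ≤ 1) (h3 : v W.a₃ = 1) (ha4 : v W.a₄ ≤ 1)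
    (ha6 : v W.a₆ ≤ 1) : HypR 2 2 v (dupF W) := by
  have hn : ∀ x : K, v (-x) = v x := fun x => by
    rw [FinitePlace.coe_apply, FinitePlace.coe_apply, AbsoluteValue.map_neg]
  have hadd1 : ∀ x y : K, v x < 1 → v y < 1 → v (x + y) < 1 := fun x y hx hy =>
    lt_of_le_of_lt (FinitePlace.add_le v x y) (max_lt hx hy)
  have hadd : ∀ x y : K, v x ≤ 1 → v y ≤ 1 → v (x + y) ≤ 1 := fun x y hx hy =>
    le_trans (FinitePlace.add_le v x y) (max_le hx hy)
  have hsub : ∀ x y : K, v x ≤ 1 → v y ≤ 1 → v (x - y) ≤ 1 := fun x y hx hy => by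
    rw [sub_eq_add_neg]
    exact hadd _ _ hx (by rw [hn]; exact hy)
  have hmul1 : ∀ x y : K, v x < 1 → v y ≤ 1 → v (x * y) < 1 := fun x y hx hy => by
    rw [map_mul]
    exact mul_lt_one_of_nonneg_of_lt_one_left (apply_nonneg v _) hx hy
  have hmul : ∀ x y : K, v x ≤ 1 → v y ≤ 1 → v (x * y) ≤ 1 := fun x y hx hy => by
    rw [map_mul]
    exact mul_le_one₀ hx (apply_nonneg v _) hy
  have h4 : v (4 : K) < 1 := by
    have e : (4 : K) = 2 * 2 := by norm_num
    rw [e]
    exact hmul1 _ _ h2 h2.le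
  apply hypR_dup v W h2
  · rw [WeierstrassCurve.b₂]
    refine hadd1 _ _ ?_ (hmul1 _ _ h4 ha2)
    rw [sq]
    exact hmul1 _ _ h1 h1.le
  · rw [WeierstrassCurve.b₄]
    exact hadd1 _ _ (hmul1 _ _ h2 ha4) (hmul1 _ _ h1 h3.le)
  · rw [WeierstrassCurve.b₆]
    have e1 : v (W.a₃ ^ 2) = 1 := by rw [map_pow, h3, one_pow]
    have e2 : v (4 * W.a₆) < 1 := hmul1 _ _ h4 ha6
    apply le_antisymm
    · exact hadd _ _ e1.le e2.le
    · by_contra hlt
      push Not at hlt
      have e3 : v (W.a₃ ^ 2 + 4 * W.a₆ + -(4 * W.a₆)) < 1 :=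
        hadd1 _ _ hlt (by rw [hn]; exact e2)
      rw [add_neg_cancel_right, e1] at e3
      exact lt_irrefl _ e3
  · rw [WeierstrassCurve.b₈]
    have s1 : v (W.a₁ ^ 2 * W.a₆) ≤ 1 := by
      rw [sq]
      exact hmul _ _ (hmul _ _ h1.le h1.le) ha6
    have s2 : v (4 * W.a₂ * W.a₆) ≤ 1 := hmul _ _ (hmul _ _ h4.le ha2) ha6
    have s3 : v (W.a₁ * W.a₃ * W.a₄) ≤ 1 := hmul _ _ (hmul _ _ h1.le h3.le) ha4
    have s4 : v (W.a₂ * W.a₃ ^ 2) ≤ 1 := by
      rw [sq]
      exact hmul _ _ ha2 (hmul _ _ h3.le h3.le)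
    have s5 : v (W.a₄ ^ 2) ≤ 1 := by
      rw [sq]
      exact hmul _ _ ha4 ha4
    exact hsub _ _ (hadd _ _ (hsub _ _ (hadd _ _ s1 s2) s3) s4) s5

end Du

end Pool.DynLehmer.LE
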