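import Pool.Agent.Lib.MP_2194ec_nt.LE.DefsB
import Pool.Agent.Lib.MP_2194ec_nt.LE.Lat

set_option autoImplicit false
set_option linter.unusedSectionVars false

/-!
# The Lehmer bound for elliptic curves, flexible form, with and without complex multiplication
-/

namespace Pool.DynLehmer.LE
open MvPolynomial NumberField Filter Topology Pool.DynLehmer Pool.DynLehmer.SB Pool.DynLehmer.SP
  Pool.DynLehmer.GS Pool.DynLehmer.LP Pool.DynLehmer.LW
open scoped Classical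

open Lat in
/-- The bound from the analytic part and a notion of independence. -/
theorem ebound_gen (hRep : RepeStatement) (hCls : ClseStatement) (hGrp : GrpbStatement)
    (K : Type) [Field K] [NumberField K] (a b : K) (q lam : ℕ) (F : Fin 2 → MvPolynomial (Fin 2) K)
    (hlam : 2 ≤ lam)
    (Ind : ∀ (N : Type) [Field N] [Algebra K N] (k : ℕ), (Fin k → Ept a b N) → Prop)
    (hSel : ∀ (N : Type) [Field N] [Algebra K N] (m : ℕ) (y : Fin m → Ept a b N),
      (∀ γ : Fin m → ℤ, ∑ i, γ i • y i = 0 → γ = 0) →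
      ∃ (k : ℕ) (ι : Fin k → Fin m), Function.Injective ι ∧ m ≤ 2 * k ∧ Ind N k (y ∘ ι))
    (hFin : ∀ k₀ A' C : ℕ, 1 ≤ A' → ∃ c : ℝ, 0 < c ∧
      ∀ (N : Type) [Field N] [NumberField N] [Algebra K N] [IsGalois K N] (P : Ept a b N),
        (∀ n : ℕ, 1 ≤ n → n • P ≠ 0) →
        (C < dg K P.xRep → ∀ n : ℕ, ∃ (k : ℕ) (y : Fin k → Ept a b N), 2 ≤ k ∧ k ≤ k₀ ∧
          (∀ i, ∃ σ : N ≃ₐ[K] N, pm (σ : N →ₐ[K] N) P = y i) ∧ Ind N k y ∧
          (orbp K (fun i => lam ^ n • y i)) ^ A' * dg K P.xRep ≤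
            C * (orbp K (fun _ : Fin 1 => lam ^ n • P)) ^ (k * A')) →
        ∃ h : ℝ, HasHt q F P.xRep h ∧ c / (dg K P.xRep : ℝ) ≤ h) :
    EBound K a b q F := by
  intro A M
  obtain ⟨t, R₀, C₀, ht, hG⟩ := hGrp (A + 1)
  set R : ℕ := max R₀ (2 * M) with hRdef
  have hk4 : 4 ≤ 2 ^ t := by
    calc 4 = 2 ^ 2 := rfl
      _ ≤ 2 ^ t := Nat.pow_le_pow_right (by norm_num) ht
  obtain ⟨c, hc, hmain⟩ := hFin (2 ^ t) (4 * (M + 1))
    (C₀ ^ (M + 1) * (2 * M) + R * (2 * M * R ^ M)) (by omega)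
  refine ⟨c, hc, ?_⟩
  intro N _ _ _ _ P hP hser
  have hfd : FiniteDimensional K N := Module.Finite.of_restrictScalars_finite ℚ K N
  refine hmain N P hP fun hCD n => ?_
  obtain ⟨V, _, _, ρ, f, hf1, hf2⟩ := hRep K a b N
  letI act : MulAction (N ≃ₐ[K] N) V :=
    { smul := fun g w => ρ g w
      one_smul := fun w => by
        change ρ 1 w = w
        rw [map_one]
        rfl
      mul_smul := fun g h w => by
        change ρ (g * h) w = ρ g (ρ h w)
        rw [map_mul]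
        rfl }
  have hsm : ∀ (g : N ≃ₐ[K] N) (w : V), g • w = ρ g w := fun g w => rfl
  have hff : ∀ P Q : Ept a b N, f P = f Q ↔ Tq P Q := by
    intro P Q
    refine ⟨hf2 P Q, ?_⟩
    rintro ⟨r, hr, h⟩
    have h1 := congrArg f h
    rw [map_nsmul, map_nsmul] at h1
    have hr0 : (r : ℚ) ≠ 0 := by exact_mod_cast (by omega : r ≠ 0)
    have h2 : (r : ℚ) • f P = (r : ℚ) • f Q := by
      rw [Nat.cast_smul_eq_nsmul, Nat.cast_smul_eq_nsmul]
      exact h1
    exact (smul_right_injective V hr0) h2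
  let Ω : Type := MulAction.orbit (N ≃ₐ[K] N) (f P)
  have hΩfin : Finite Ω := Set.finite_range (fun g : N ≃ₐ[K] N => g • f P)
  let _ : Fintype Ω := Fintype.ofFinite Ω
  have hΩ : ∀ z : Ω, ∃ σ : N ≃ₐ[K] N, f (pm (σ : N →ₐ[K] N) P) = (z : V) := by
    rintro ⟨z, σ, hσ⟩
    exact ⟨σ, by rw [hf1]; exact hσ⟩
  -- the numbers
  obtain ⟨he1, hm1, hD, -, hL⟩ := hCls K a b N P _ _ rfl rfl
  set e₀ : ℕ := Nat.card (Set.range fun (σ : N ≃ₐ[K] N) =>
    {Q : Ept a b N | Tq (pm (σ : N →ₐ[K] N) P) Q}) with he₀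
  set m : ℕ := Nat.card {Q : Ept a b N // (∃ σ : N ≃ₐ[K] N, pm (σ : N →ₐ[K] N) P = Q) ∧ Tq P Q}
    with hm
  have he : e₀ = Fintype.card Ω := by
    rw [he₀, ← Nat.card_eq_fintype_card]
    refine card_range_congr _ (fun g : N ≃ₐ[K] N => g • f P) fun σ τ => ?_
    rw [cls_eq, ← hff, hf1, hf1]
    exact Iff.rfl
  set x : Ω := ⟨f P, MulAction.mem_orbit_self (f P)⟩ with hx
  have htr : MulAction.IsPretransitive (N ≃ₐ[K] N) Ω := inferInstance
  obtain ⟨e, τ, hτ, hme, l, L, hL0, hLl, hLi⟩ := hser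
  have hee : e ≤ e₀ := by
    rw [he]
    have hinj : Function.Injective (fun i : Fin e => τ i • x) := by
      intro i j hij
      by_contra hne
      refine hτ i j hne ((hff _ _).1 ?_)
      rw [hf1, hf1]
      exact congrArg Subtype.val hij
    have h3 := Fintype.card_le_of_injective _ hinj
    rwa [Fintype.card_fin] at h3
  have hme' : m ≤ 2 * M * e₀ ^ M := by
    have h1 : M * e ^ M ≤ M * e₀ ^ M := Nat.mul_le_mul_left _ (Nat.pow_le_pow_left hee M)
    have h2 : M * 1 ≤ M * e₀ ^ M := Nat.mul_le_mul_left _ (Nat.one_le_pow _ _ he1)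
    calc m ≤ M * e ^ M + M := hme
      _ ≤ M * e₀ ^ M + M * e₀ ^ M := by omega
      _ = 2 * M * e₀ ^ M := by ring
  have hD' : dg K P.xRep ≤ e₀ * (2 * M * e₀ ^ M) := hD.trans (Nat.mul_le_mul_left _ hme')
  have hRe : R < e₀ := by
    by_contra hcon
    have h1 : e₀ ≤ R := not_lt.1 hcon
    have h2 : e₀ * (2 * M * e₀ ^ M) ≤ R * (2 * M * R ^ M) :=
      Nat.mul_le_mul h1 (Nat.mul_le_mul_left _ (Nat.pow_le_pow_left h1 M))
    omega
  have hR0 : R₀ < e₀ := lt_of_le_of_lt (le_max_left _ _) hRe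
  have h2M : 2 * M ≤ e₀ := (le_max_right _ _).trans hRe.le
  have hfac : M * e ^ A + M ≤ (Fintype.card Ω) ^ (A + 1) := by
    rw [← he]
    have h1 : M * e ^ A ≤ M * e₀ ^ A := Nat.mul_le_mul_left _ (Nat.pow_le_pow_left hee A)
    have h2 : M * 1 ≤ M * e₀ ^ A := Nat.mul_le_mul_left _ (Nat.one_le_pow _ _ he1)
    calc M * e ^ A + M ≤ 2 * M * e₀ ^ A := by rw [two_mul, add_mul]; omega
      _ ≤ e₀ * e₀ ^ A := Nat.mul_le_mul_right _ h2M
      _ = e₀ ^ (A + 1) := by ring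
  have horb : MulAction.orbit (⊤ : Subgroup (N ≃ₐ[K] N)) x = Set.univ := by
    ext z
    simp only [Set.mem_univ, iff_true]
    obtain ⟨g, hg⟩ := MulAction.exists_smul_eq (N ≃ₐ[K] N) x z
    exact ⟨⟨g, Subgroup.mem_top g⟩, hg⟩
  obtain ⟨y, -, hlin, hcard⟩ := hG (N ≃ₐ[K] N) Ω V ρ (fun z => (z : V))
    (fun g z => rfl) Subtype.val_injective htr x ⊤ (fun _ _ _ _ => Subgroup.mem_top _)
    (by rw [horb, Nat.card_coe_set_eq, Set.ncard_univ, Nat.card_eq_fintype_card, ← he]; exact hR0)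
    ⟨l, L, by
      intro g hg h _
      apply Subtype.ext
      have h1 := (hff _ _).2 (hL0 g hg h)
      rw [hf1, hf1] at h1
      rw [← mul_smul]
      exact h1, hLl, fun i hi => ⟨(hLi i hi).1, (hLi i hi).2.1, (hLi i hi).2.2.imp id
      fun h => h.trans hfac⟩⟩
  choose σ hσ using fun i => hΩ (y i)
  -- the sub-tuple
  obtain ⟨k, ι, hι, hk, hind⟩ := hSel N (2 ^ t)
    (fun i => pm (σ i : N →ₐ[K] N) P) (by
      intro γ hγ
      have h1 := congrArg f hγ
      rw [map_sum, _root_.map_zero] at h1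
      have h2 : ∑ i, (γ i : ℚ) • (y i : V) = 0 := by
        rw [← h1]
        refine Finset.sum_congr rfl fun i _ => ?_
        rw [map_zsmul, hσ, Int.cast_smul_eq_zsmul]
      have h5 := Fintype.linearIndependent_iff.1 hlin (fun i => (γ i : ℚ)) h2
      funext i
      exact_mod_cast h5 i)
  have hk2 : 2 ≤ k := by omega
  have hkt : k ≤ 2 ^ t := by
    have := Fintype.card_le_of_injective _ hι
    rwa [Fintype.card_fin, Fintype.card_fin] at this
  have hcls : Nat.card (Set.range fun (g : N ≃ₐ[K] N) (i : Fin k) =>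
      {Q : Ept a b N | Tq (pm (g : N →ₐ[K] N) (pm (σ (ι i) : N →ₐ[K] N) P)) Q}) ≤
      Nat.card (MulAction.orbit (N ≃ₐ[K] N) y) := by
    have h1 : Nat.card (Set.range fun (g : N ≃ₐ[K] N) (i : Fin k) =>
        {Q : Ept a b N | Tq (pm (g : N →ₐ[K] N) (pm (σ (ι i) : N →ₐ[K] N) P)) Q}) =
        Nat.card (Set.range fun (g : N ≃ₐ[K] N) (i : Fin k) => g • y (ι i)) := by
      refine card_range_congr _ _ fun g h => ?_
      rw [_root_.funext_iff, _root_.funext_iff]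
      refine forall_congr' fun i => ?_
      beta_reduce
      rw [cls_eq, ← hff, hf1, hf1 h, hσ]
      constructor
      · intro h1
        exact Subtype.ext h1
      · intro h1
        exact congrArg Subtype.val h1
    rw [h1]
    have h2 : (Set.range fun (g : N ≃ₐ[K] N) (i : Fin k) => g • y (ι i)) =
        (fun (z : Fin (2 ^ t) → Ω) (i : Fin k) => z (ι i)) ''
          (Set.range fun g : N ≃ₐ[K] N => g • y) := by
      rw [← Set.range_comp]
      rfl
    rw [h2, Nat.card_coe_set_eq, Nat.card_coe_set_eq]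
    exact Set.ncard_image_le (Set.finite_range _)
  obtain ⟨m', hm'1, -, horbP, horby⟩ := hL (lam ^ n) (Nat.one_le_pow _ _ (by omega))
  have hy := (horby k (fun i => pm (σ (ι i) : N →ₐ[K] N) P) (fun i => ⟨σ (ι i), rfl⟩)).trans
    (Nat.mul_le_mul_right _ hcls)
  refine ⟨k, fun i => pm (σ (ι i) : N →ₐ[K] N) P, hk2, hkt, fun i => ⟨σ (ι i), rfl⟩, hind, ?_⟩
  rw [horbP]
  set T : ℕ := Nat.card (MulAction.orbit (N ≃ₐ[K] N) y) with hT
  rw [← he] at hcard
  have hcard' : T ^ 4 ≤ C₀ * e₀ ^ (2 * k) :=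
    hcard.trans (Nat.mul_le_mul_left _ (Nat.pow_le_pow_right he1 hk))
  have hpow : e₀ ^ (2 * k * (M + 1)) * e₀ ^ (M + 1) ≤ e₀ ^ (k * (4 * (M + 1))) := by
    rw [← pow_add]
    apply Nat.pow_le_pow_right he1
    nlinarith
  calc (orbp K fun i => lam ^ n • pm (σ (ι i) : N →ₐ[K] N) P) ^ (4 * (M + 1)) * dg K P.xRep
      ≤ (T * m' ^ k) ^ (4 * (M + 1)) * (e₀ * (2 * M * e₀ ^ M)) :=
        Nat.mul_le_mul (Nat.pow_le_pow_left hy _) hD'
    _ = (T ^ 4) ^ (M + 1) * (2 * M * e₀ ^ (M + 1)) * m' ^ (k * (4 * (M + 1))) := by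
        rw [mul_pow, pow_mul T 4 (M + 1), ← pow_mul m', pow_succ]
        ring
    _ ≤ (C₀ * e₀ ^ (2 * k)) ^ (M + 1) * (2 * M * e₀ ^ (M + 1)) * m' ^ (k * (4 * (M + 1))) := by
        gcongr
    _ = C₀ ^ (M + 1) * (2 * M) * (e₀ ^ (2 * k * (M + 1)) * e₀ ^ (M + 1)) *
          m' ^ (k * (4 * (M + 1))) := by
        rw [mul_pow, ← pow_mul]
        ring
    _ ≤ (C₀ ^ (M + 1) * (2 * M) + R * (2 * M * R ^ M)) * e₀ ^ (k * (4 * (M + 1))) *
          m' ^ (k * (4 * (M + 1))) :=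
        Nat.mul_le_mul_right _ (Nat.mul_le_mul (Nat.le_add_right _ _) hpow)
    _ = (C₀ ^ (M + 1) * (2 * M) + R * (2 * M * R ^ M)) * (e₀ * m') ^ (k * (4 * (M + 1))) := by
        rw [mul_pow, mul_assoc]

/-- Curves without complex multiplication. -/
theorem ebound_nocm (hFin : FineStatement) (hRep : RepeStatement) (hCls : ClseStatement)
    (hGrp : GrpbStatement) (K : Type) [Field K] [NumberField K] (a b : K)
    (hΔ : 4 * a ^ 3 + 27 * b ^ 2 ≠ 0) (hCM : NoCM a b) (p s lam : ℕ) (v : FinitePlace K)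
    (F : Fin 2 → MvPolynomial (Fin 2) K) (hR : HypR p s v F) (hlam : 2 ≤ lam)
    (hq : lam ^ 2 = p ^ s) (hLat : IsLat a b lam F) : EBound K a b (p ^ s) F :=
  ebound_gen hRep hCls hGrp K a b (p ^ s) lam F hlam
    (fun N _ _ k y => ∀ γ : Fin k → ℤ, ∑ i, γ i • y i = 0 → γ = 0)
    (fun N _ _ m y hy => ⟨m, id, Function.injective_id, by omega, hy⟩)
    (fun k₀ A' C hA => hFin K a b hΔ hCM p s lam v F hR hlam hq hLat k₀ A' C hA)

/-- Curves with complex multiplication over `K`. -/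
theorem ebound_cm (hFin : FinejStatement) (hRep : RepeStatement) (hCls : ClseStatement)
    (hGrp : GrpbStatement) (hSub : SubjStatement) (K : Type) [Field K] [NumberField K] (a b θ : K)
    (hCM : CM a b θ) (E : Endo a b θ) (p s lam : ℕ) (v : FinitePlace K)
    (F : Fin 2 → MvPolynomial (Fin 2) K) (hR : HypR p s v F) (hlam : 2 ≤ lam)
    (hq : lam ^ 2 = p ^ s) (hLat : IsLat a b lam F) : EBound K a b (p ^ s) F :=
  ebound_gen hRep hCls hGrp K a b (p ^ s) lam F hlam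
    (fun N _ _ k y => IndJ E y)
    (fun N _ _ m y hy => hSub K a b θ hCM E N m y hy)
    (fun k₀ A' C hA => hFin K a b θ hCM E p s lam v F hR hlam hq hLat k₀ A' C hA)

end Pool.DynLehmer.LE
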