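import Pool.Agent.Lib.MP_2194ec_nt.LE.Dup

set_option autoImplicit false

/-!
# The Lehmer bound for elliptic curves: from a Weierstrass equation to the short one
-/

namespace Pool.DynLehmer.LE
open MvPolynomial NumberField Filter Topology Pool.DynLehmer Pool.DynLehmer.SB Pool.DynLehmer.SP
  Pool.DynLehmer.GS Pool.DynLehmer.LP Pool.DynLehmer.LW
open scoped Classical

/-- `W'` arises from `W` by `x = x' + r`, `y = y' + s x' + t`. -/
structure VcR {L : Type} [Field L] (W W' : WeierstrassCurve L) (r s t : L) : Prop where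
  e₁ : W'.a₁ = W.a₁ + 2 * s
  e₂ : W'.a₂ = W.a₂ - s * W.a₁ + 3 * r - s ^ 2
  e₃ : W'.a₃ = W.a₃ + r * W.a₁ + 2 * t
  e₄ : W'.a₄ = W.a₄ - s * W.a₃ + 2 * r * W.a₂ - (t + r * s) * W.a₁ + 3 * r ^ 2 - 2 * s * t
  e₆ : W'.a₆ = W.a₆ + r * W.a₄ + r ^ 2 * W.a₂ + r ^ 3 - t * W.a₃ - t ^ 2 - r * t * W.a₁

namespace VcR

section
variable {L : Type} [Field L] {W W' : WeierstrassCurve L} {r s t : L}

theorem symm (h : VcR W W' r s t) : VcR W' W (-r) (-s) (s * r - t) := by
  refine ⟨?_, ?_, ?_, ?_, ?_⟩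
  · rw [h.e₁]; ring
  · rw [h.e₁, h.e₂]; ring
  · rw [h.e₁, h.e₃]; ring
  · rw [h.e₁, h.e₂, h.e₃, h.e₄]; ring
  · rw [h.e₁, h.e₂, h.e₃, h.e₄, h.e₆]; ring

theorem map (h : VcR W W' r s t) {M : Type} [Field M] (φ : L →+* M) :
    VcR (W.map φ) (W'.map φ) (φ r) (φ s) (φ t) := by
  refine ⟨?_, ?_, ?_, ?_, ?_⟩
  · change φ W'.a₁ = φ W.a₁ + 2 * φ s
    rw [h.e₁]
    simp only [map_add, map_mul, map_ofNat]
  · change φ W'.a₂ = φ W.a₂ - φ s * φ W.a₁ + 3 * φ r - φ s ^ 2
    rw [h.e₂]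
    simp only [map_add, map_sub, map_mul, map_pow, map_ofNat]
  · change φ W'.a₃ = φ W.a₃ + φ r * φ W.a₁ + 2 * φ t
    rw [h.e₃]
    simp only [map_add, map_mul, map_ofNat]
  · change φ W'.a₄ = φ W.a₄ - φ s * φ W.a₃ + 2 * φ r * φ W.a₂ - (φ t + φ r * φ s) * φ W.a₁ +
      3 * φ r ^ 2 - 2 * φ s * φ t
    rw [h.e₄]
    simp only [map_add, map_sub, map_mul, map_pow, map_ofNat]
  · change φ W'.a₆ = φ W.a₆ + φ r * φ W.a₄ + φ r ^ 2 * φ W.a₂ + φ r ^ 3 - φ t * φ W.a₃ -
      φ t ^ 2 - φ r * φ t * φ W.a₁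
    rw [h.e₆]
    simp only [map_add, map_sub, map_mul, map_pow]

theorem non (h : VcR W W' r s t) {x y : L} (hn : WeierstrassCurve.Affine.Nonsingular W x y) :
    WeierstrassCurve.Affine.Nonsingular W' (x - r) (y - s * (x - r) - t) := by
  rw [WeierstrassCurve.Affine.nonsingular_iff', WeierstrassCurve.Affine.equation_iff] at hn ⊢
  obtain ⟨h1, h2⟩ := hn
  constructor
  · change (y - s * (x - r) - t) ^ 2 + W'.a₁ * (x - r) * (y - s * (x - r) - t) +
      W'.a₃ * (y - s * (x - r) - t) = (x - r) ^ 3 + W'.a₂ * (x - r) ^ 2 + W'.a₄ * (x - r) + W'.a₆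
    rw [h.e₁, h.e₂, h.e₃, h.e₄, h.e₆]
    change y ^ 2 + W.a₁ * x * y + W.a₃ * y = x ^ 3 + W.a₂ * x ^ 2 + W.a₄ * x + W.a₆ at h1
    linear_combination h1
  · change W.a₁ * y - (3 * x ^ 2 + 2 * W.a₂ * x + W.a₄) ≠ 0 ∨ 2 * y + W.a₁ * x + W.a₃ ≠ 0 at h2
    change W'.a₁ * (y - s * (x - r) - t) - (3 * (x - r) ^ 2 + 2 * W'.a₂ * (x - r) + W'.a₄) ≠ 0 ∨
      2 * (y - s * (x - r) - t) + W'.a₁ * (x - r) + W'.a₃ ≠ 0
    have e1 : 2 * (y - s * (x - r) - t) + W'.a₁ * (x - r) + W'.a₃ = 2 * y + W.a₁ * x + W.a₃ := by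
      rw [h.e₁, h.e₃]; ring
    have e2 : W'.a₁ * (y - s * (x - r) - t) - (3 * (x - r) ^ 2 + 2 * W'.a₂ * (x - r) + W'.a₄) =
        (W.a₁ * y - (3 * x ^ 2 + 2 * W.a₂ * x + W.a₄)) + s * (2 * y + W.a₁ * x + W.a₃) := by
      rw [h.e₁, h.e₂, h.e₄]; ring
    by_cases h3 : 2 * y + W.a₁ * x + W.a₃ = 0
    · left
      rw [e2, h3, mul_zero, add_zero]
      exact h2.resolve_right (not_not.2 h3)
    · right
      rw [e1]
      exact h3

/-- the map on the points -/
def f (h : VcR W W' r s t) : WeierstrassCurve.Affine.Point W → WeierstrassCurve.Affine.Point W'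
  | .zero => .zero
  | .some x y hn => .some (x - r) (y - s * (x - r) - t) (h.non hn)

theorem negY (h : VcR W W' r s t) (x y : L) :
    WeierstrassCurve.Affine.negY W' (x - r) (y - s * (x - r) - t) =
      WeierstrassCurve.Affine.negY W x y - s * (x - r) - t := by
  change -(y - s * (x - r) - t) - W'.a₁ * (x - r) - W'.a₃ =
    (-y - W.a₁ * x - W.a₃) - s * (x - r) - t
  rw [h.e₁, h.e₃]
  ring

theorem slope (h : VcR W W' r s t) {x₁ x₂ y₁ y₂ : L}
    (h₁ : WeierstrassCurve.Affine.Equation W x₁ y₁) (h₂ : WeierstrassCurve.Affine.Equation W x₂ y₂)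
    (hxy : ¬(x₁ = x₂ ∧ y₁ = WeierstrassCurve.Affine.negY W x₂ y₂)) :
    WeierstrassCurve.Affine.slope W' (x₁ - r) (x₂ - r) (y₁ - s * (x₁ - r) - t)
      (y₂ - s * (x₂ - r) - t) = WeierstrassCurve.Affine.slope W x₁ x₂ y₁ y₂ - s := by
  by_cases hx : x₁ = x₂
  · subst hx
    have hy : y₁ ≠ WeierstrassCurve.Affine.negY W x₁ y₂ := fun h1 => hxy ⟨rfl, h1⟩
    have hyy : y₁ = y₂ := WeierstrassCurve.Affine.Y_eq_of_Y_ne h₁ h₂ rfl hy
    subst hyy
    have hy' : y₁ - s * (x₁ - r) - t ≠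
        WeierstrassCurve.Affine.negY W' (x₁ - r) (y₁ - s * (x₁ - r) - t) := by
      rw [h.negY]
      intro h1
      apply hy
      linear_combination h1
    rw [WeierstrassCurve.Affine.slope_of_Y_ne rfl hy, WeierstrassCurve.Affine.slope_of_Y_ne rfl hy',
      h.negY]
    have h3 : y₁ - s * (x₁ - r) - t - (WeierstrassCurve.Affine.negY W x₁ y₁ - s * (x₁ - r) - t) =
        y₁ - WeierstrassCurve.Affine.negY W x₁ y₁ := by ring
    have h4 : y₁ - WeierstrassCurve.Affine.negY W x₁ y₁ ≠ 0 := sub_ne_zero.2 hy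
    rw [h3, div_eq_iff h4, sub_mul, div_mul_cancel₀ _ h4]
    change 3 * (x₁ - r) ^ 2 + 2 * W'.a₂ * (x₁ - r) + W'.a₄ - W'.a₁ * (y₁ - s * (x₁ - r) - t) =
      3 * x₁ ^ 2 + 2 * W.a₂ * x₁ + W.a₄ - W.a₁ * y₁ - s * (y₁ - (-y₁ - W.a₁ * x₁ - W.a₃))
    rw [h.e₁, h.e₂, h.e₄]
    ring
  · have hx' : x₁ - r ≠ x₂ - r := fun h1 => hx (sub_left_injective h1)
    rw [WeierstrassCurve.Affine.slope_of_X_ne hx, WeierstrassCurve.Affine.slope_of_X_ne hx']
    have h2 : x₁ - x₂ ≠ 0 := sub_ne_zero.2 hx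
    have h3 : x₁ - r - (x₂ - r) = x₁ - x₂ := by ring
    rw [h3]
    field_simp
    ring

theorem some_congr {W : WeierstrassCurve L} {x y x' y' : L}
    {h : WeierstrassCurve.Affine.Nonsingular W x y}
    {h' : WeierstrassCurve.Affine.Nonsingular W x' y'} (hx : x = x') (hy : y = y') :
    WeierstrassCurve.Affine.Point.some x y h = WeierstrassCurve.Affine.Point.some x' y' h' := by
  subst hx hy
  rfl

theorem f_add (h : VcR W W' r s t) (P Q : WeierstrassCurve.Affine.Point W) :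
    h.f (P + Q) = h.f P + h.f Q := by
  match P, Q with
  | .zero, Q =>
    change h.f (0 + Q) = 0 + h.f Q
    rw [zero_add, zero_add]
  | .some x₁ y₁ h₁, .zero =>
    change h.f (_ + 0) = _ + 0
    rw [add_zero, add_zero]
  | .some x₁ y₁ h₁, .some x₂ y₂ h₂ =>
    change h.f _ = WeierstrassCurve.Affine.Point.some (x₁ - r) (y₁ - s * (x₁ - r) - t) (h.non h₁) +
      WeierstrassCurve.Affine.Point.some (x₂ - r) (y₂ - s * (x₂ - r) - t) (h.non h₂)
    by_cases hxy : x₁ = x₂ ∧ y₁ = WeierstrassCurve.Affine.negY W x₂ y₂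
    · rw [WeierstrassCurve.Affine.Point.add_of_Y_eq hxy.1 hxy.2,
        WeierstrassCurve.Affine.Point.add_of_Y_eq (by rw [hxy.1]) (by
          rw [h.negY, hxy.1, hxy.2])]
      rfl
    · have hxy' : ¬(x₁ - r = x₂ - r ∧ y₁ - s * (x₁ - r) - t =
          WeierstrassCurve.Affine.negY W' (x₂ - r) (y₂ - s * (x₂ - r) - t)) := by
        rintro ⟨a1, a2⟩
        have a3 : x₁ = x₂ := sub_left_injective a1
        refine hxy ⟨a3, ?_⟩
        rw [h.negY, a3] at a2
        linear_combination a2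
      rw [WeierstrassCurve.Affine.Point.add_some hxy, WeierstrassCurve.Affine.Point.add_some hxy']
      have hs := h.slope h₁.1 h₂.1 hxy
      have hX : WeierstrassCurve.Affine.addX W x₁ x₂ (WeierstrassCurve.Affine.slope W x₁ x₂ y₁ y₂) - r =
          WeierstrassCurve.Affine.addX W' (x₁ - r) (x₂ - r)
            (WeierstrassCurve.Affine.slope W' (x₁ - r) (x₂ - r) (y₁ - s * (x₁ - r) - t)
              (y₂ - s * (x₂ - r) - t)) := by
        rw [hs]
        simp only [WeierstrassCurve.Affine.addX]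
        rw [h.e₁, h.e₂]
        ring
      refine some_congr hX ?_
      rw [hs]
      simp only [WeierstrassCurve.Affine.addY, WeierstrassCurve.Affine.negAddY,
        WeierstrassCurve.Affine.negY, WeierstrassCurve.Affine.addX]
      rw [h.e₁, h.e₂, h.e₃]
      ring

/-- the map on the points -/
def hom (h : VcR W W' r s t) : WeierstrassCurve.Affine.Point W →+ WeierstrassCurve.Affine.Point W' where
  toFun := h.f
  map_zero' := rfl
  map_add' := h.f_add

theorem symm_hom (h : VcR W W' r s t) (P : WeierstrassCurve.Affine.Point W) :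
    h.symm.hom (h.hom P) = P := by
  match P with
  | .zero => rfl
  | .some x y hn =>
    refine some_congr (x := x - r - -r) (by ring) ?_
    ring

theorem hom_symm (h : VcR W W' r s t) (P : WeierstrassCurve.Affine.Point W') :
    h.hom (h.symm.hom P) = P := by
  match P with
  | .zero => rfl
  | .some x y hn =>
    refine some_congr (x := x - -r - r) (by ring) ?_
    ring

end

end VcR

/-! ## The short equation -/

section
variable {K : Type} [Field K] [CharZero K] (W : WeierstrassCurve K)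

theorem vcR : VcR W (Ws (Du.sa W) (Du.sb W)) (-(W.b₂ / 12)) (-(W.a₁ / 2))
    (-((W.a₃ - W.b₂ / 12 * W.a₁) / 2)) := by
  refine ⟨?_, ?_, ?_, ?_, ?_⟩ <;>
  · simp only [Ws, Du.sa, Du.sb, WeierstrassCurve.c₄, WeierstrassCurve.c₆, WeierstrassCurve.b₂,
      WeierstrassCurve.b₄, WeierstrassCurve.b₆]
    ring

/-- the points of the curve over `M` -/
abbrev Wpt (M : Type) [Field M] [Algebra K M] : Type :=
  WeierstrassCurve.Affine.Point (W.baseChange M)

/-- to the short equation -/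
noncomputable def toS (M : Type) [Field M] [Algebra K M] :
    Wpt W M →+ Ept (Du.sa W) (Du.sb W) M :=
  ((vcR W).map (algebraMap K M)).hom

/-- from the short equation -/
noncomputable def ofS (M : Type) [Field M] [Algebra K M] :
    Ept (Du.sa W) (Du.sb W) M →+ Wpt W M :=
  ((vcR W).map (algebraMap K M)).symm.hom

variable (M : Type) [Field M] [Algebra K M]

theorem ofS_toS (P : Wpt W M) : ofS W M (toS W M P) = P := VcR.symm_hom _ P

theorem toS_ofS (P : Ept (Du.sa W) (Du.sb W) M) : toS W M (ofS W M P) = P := VcR.hom_symm _ P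

theorem toS_inj : Function.Injective (toS W M) := fun P Q h => by
  rw [← ofS_toS W M P, h, ofS_toS]

theorem sh_toS (P : Wpt W M) : sh (algebraMap K M (W.b₂ / 12)) (toS W M P).xRep = P.xRep := by
  match P with
  | .zero =>
    change ![(1 : M) - algebraMap K M (W.b₂ / 12) * 0, 0] = ![1, 0]
    rw [mul_zero, sub_zero]
  | .some x y hn =>
    change ![x - algebraMap K M (-(W.b₂ / 12)) - algebraMap K M (W.b₂ / 12) * 1, 1] = ![x, 1]
    rw [map_neg]
    congr 1
    ring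

theorem pm_toS {M' : Type} [Field M'] [Algebra K M'] (φ : M →ₐ[K] M') (P : Wpt W M) :
    pm φ (toS W M P) = toS W M' (WeierstrassCurve.Affine.Point.map φ P) := by
  match P with
  | .zero => rfl
  | .some x y hn =>
    refine VcR.some_congr ?_ ?_
    · change φ (x - algebraMap K M _) = φ x - algebraMap K M' _
      rw [map_sub, φ.commutes]
    · change φ (y - algebraMap K M _ * (x - algebraMap K M _) - algebraMap K M _) =
        φ y - algebraMap K M' _ * (φ x - algebraMap K M' _) - algebraMap K M' _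
      rw [map_sub, map_sub, map_mul, map_sub, φ.commutes, φ.commutes, φ.commutes]

end

end Pool.DynLehmer.LE
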