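import Pool.Agent.Lib.MP_2194ec_nt.LE.Super
import Pool.Agent.Lib.MP_2194ec_nt.LE.Vc

set_option autoImplicit false

/-!
# Good supersingular reduction, every residue characteristic
-/

namespace Pool.DynLehmer.LE
open MvPolynomial NumberField Filter Topology Pool.DynLehmer Pool.DynLehmer.SB Pool.DynLehmer.SP
  Pool.DynLehmer.GS Pool.DynLehmer.LP Pool.DynLehmer.LW
open scoped Classical

/-- The Weierstrass equation `W₀` with coefficients in the valuation ring `{x | v x ≤ 1}` of the
place `v` over the prime `p` has good supersingular reduction: the discriminant is a unit and over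
no finite field of characteristic `p` over the valuation ring the reduced curve has a point of order
`p`. -/
structure SupersG {K : Type} [Field K] [NumberField K] (p : ℕ) (v : FinitePlace K)
    (W₀ : WeierstrassCurve (OW v)) : Prop where
  above : v (p : K) < 1
  disc : IsUnit W₀.Δ
  tors : ∀ (k : Type) [Field k] [Finite k] (r : OW v →+* k), CharP k p →
    ∀ P : WeierstrassCurve.Affine.Point (W₀.map r), p • P = 0 → P = 0

theorem tors_inst {F : Type} [Field F] (W : WeierstrassCurve F) (p : ℕ)
    (h : ∀ P : WeierstrassCurve.Affine.Point W, p • P = 0 → P = 0) [d : DecidableEq F]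
    (P : WeierstrassCurve.Affine.Point W) (hP : p • P = 0) : P = 0 := by
  have hd : d = fun a b => Classical.propDecidable (a = b) := Subsingleton.elim _ _
  subst hd
  exact h P hP

/-- Points of order `p` are defined over finite fields. -/
theorem tors_desc {κ k : Type} [Field κ] [Finite κ] [Field k] [Algebra κ k]
    [Algebra.IsAlgebraic κ k] (W : WeierstrassCurve κ) (p : ℕ)
    (hT : ∀ L : IntermediateField κ k, Finite L →
      ∀ P : WeierstrassCurve.Affine.Point (W.baseChange L), p • P = 0 → P = 0)
    (P : WeierstrassCurve.Affine.Point (W.baseChange k)) (hP : p • P = 0) : P = 0 := by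
  cases P with
  | zero => rfl
  | some x y h =>
    exfalso
    let L : IntermediateField κ k := IntermediateField.adjoin κ {x, y}
    have hfd : FiniteDimensional κ L := by
      apply IntermediateField.finiteDimensional_adjoin
      intro s _
      exact (Algebra.IsAlgebraic.isAlgebraic s).isIntegral
    have hfin : Finite L := Module.finite_of_finite κ
    let f : L →ₐ[κ] k := L.val
    have hx : x ∈ L := IntermediateField.subset_adjoin κ {x, y} (by simp)
    have hy : y ∈ L := IntermediateField.subset_adjoin κ {x, y} (by simp)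
    let x0 : L := ⟨x, hx⟩
    let y0 : L := ⟨y, hy⟩
    have h0 : WeierstrassCurve.Affine.Nonsingular (W.baseChange L) x0 y0 :=
      (W.toAffine.baseChange_nonsingular (f := f) f.injective x0 y0).mp h
    let P0 : WeierstrassCurve.Affine.Point (W.baseChange L) := .some x0 y0 h0
    have e1 : WeierstrassCurve.Affine.Point.map (W' := W) f P0 =
        (.some x y h : WeierstrassCurve.Affine.Point (W.baseChange k)) := rfl
    have e2 : p • P0 = 0 := by
      apply WeierstrassCurve.Affine.Point.map_injective (W' := W) (f := f)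
      rw [map_nsmul, e1, hP, map_zero]
    have e3 : P0 = 0 := hT L hfin P0 e2
    exact absurd e3 (by simp [P0])

open SupH in
/-- the multiplication by `p` in the first coordinate of a Weierstrass equation with good
supersingular reduction -/
theorem superG (hA : AddsubStatement) (K : Type) [Field K] [NumberField K] (p : ℕ)
    (v : FinitePlace K) (W₀ : WeierstrassCurve (OW v)) (hp : p.Prime) (hS : SupersG p v W₀) :
    ∃ F : Fin 2 → MvPolynomial (Fin 2) K, HypR p 2 v F ∧
      ∀ (M : Type) [Field M] [Algebra K M] (P : Wpt (W₀.map (OW v).subtype) M),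
        ∃ c : M, c ≠ 0 ∧ gAct F M P.xRep = c • (p • P).xRep := by
  have hfp : Fact p.Prime := ⟨hp⟩
  have hdvr := dvr v
  have hell : W₀.IsElliptic := ⟨hS.disc⟩
  obtain ⟨F, hF⟩ := Mulf.exists_isMul hA (OW v) W₀ p
  -- the residue field
  let k : Type := AlgebraicClosure (IsLocalRing.ResidueField (OW v))
  let r : OW v →+* k :=
    (algebraMap (IsLocalRing.ResidueField (OW v)) k).comp (IsLocalRing.residue (OW v))
  have hr : ∀ x : OW v, r x = 0 ↔ v (x : K) < 1 := by
    intro x
    have h1 : r x = 0 ↔ IsLocalRing.residue (OW v) x = 0 := by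
      change algebraMap (IsLocalRing.ResidueField (OW v)) k (IsLocalRing.residue (OW v) x) = 0 ↔ _
      rw [map_eq_zero_iff _ (algebraMap (IsLocalRing.ResidueField (OW v)) k).injective]
    rw [h1, IsLocalRing.residue_eq_zero_iff, IsLocalRing.mem_maximalIdeal, mem_nonunits_iff,
      unit_iff]
    have : v (x : K) ≤ 1 := x.2
    exact ⟨fun h => lt_of_le_of_ne this h, fun h => h.ne⟩
  have hch : CharP k p := by
    have h0 : ((p : ℕ) : k) = 0 := by
      have : r (p : OW v) = 0 := by
        rw [hr]
        simpa using hS.above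
      simpa using this
    exact ringChar.of_eq (CharP.ringChar_of_prime_eq_zero hp h0)
  let κ : Type := IsLocalRing.ResidueField (OW v)
  let ρ : OW v →+* κ := IsLocalRing.residue (OW v)
  have hfinκ : Finite κ := by
    have h1 : MW v = IsLocalRing.maximalIdeal (OW v) := by
      ext x
      rw [mem_MW, ← residue_zero, IsLocalRing.residue_eq_zero_iff]
    have h2 := finite_res v
    rw [h1] at h2
    exact h2
  have hchκ : CharP κ p := charP_of v p hp hS.above κ ρ (residue_zero v)
  have hT : ∀ P : WeierstrassCurve.Affine.Point (W₀.map r), p • P = 0 → P = 0 := by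
    refine tors_desc (κ := κ) (k := k) (W₀.map ρ) p fun L hL P hP => ?_
    have hchL : CharP L p := charP_of_injective_algebraMap (algebraMap κ L).injective p
    exact tors_inst (W₀.map ((algebraMap κ L).comp ρ)) p (hS.tors L _ hchL) P hP
  obtain ⟨s1, s2⟩ := Mulf.sup_one r p hF hT
  obtain ⟨s3, s4⟩ := Mulf.sup_zero r p hF hT
  have hN : 0 < p ^ 2 := pow_pos hp.pos 2
  have e0 : Finsupp.single (0 : Fin 2) (p ^ 2) = Mulf.mm (p ^ 2) (p ^ 2) := by
    ext i; fin_cases i <;> simp [Mulf.mm]
  have e1 : Finsupp.single (1 : Fin 2) (p ^ 2) = Mulf.mm (p ^ 2) 0 := by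
    ext i; fin_cases i <;> simp [Mulf.mm]
  refine ⟨fun i => MvPolynomial.map (OW v).subtype (F i),
    ⟨hp, by norm_num, hS.above, ?_, ?_, ?_, ?_⟩, ?_⟩
  · intro i
    exact (hF.hom i).map _
  · intro i t
    rw [coeff_map]
    exact (coeff t (F i)).2
  · intro i t ht
    rw [coeff_map]
    change v ((coeff t (F i) : OW v) : K) < 1
    by_cases h0 : coeff t (F i) = 0
    · rw [h0]; simp
    · have hd := Mulf.deg_of_ne (hF.hom i) h0
      have hm := Mulf.eq_mm hd
      rw [← hr, hm]
      have n0 : t 0 ≠ 0 := by
        intro h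
        apply ht 1
        rw [e1, hm, h]
      have n1 : t 0 ≠ p ^ 2 := by
        intro h
        apply ht 0
        rw [e0, hm, h]
      fin_cases i
      · exact s4 (t 0) (by omega) (by omega)
      · exact s2 (t 0) (by omega) (by omega)
  · rw [Matrix.det_fin_two]
    simp only [Matrix.of_apply, coeff_map, e0, e1]
    set D : OW v := coeff (Mulf.mm (p ^ 2) (p ^ 2)) (F 0) * coeff (Mulf.mm (p ^ 2) 0) (F 1) -
      coeff (Mulf.mm (p ^ 2) 0) (F 0) * coeff (Mulf.mm (p ^ 2) (p ^ 2)) (F 1) with hD
    have hDr : r D ≠ 0 := by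
      rw [hD, map_sub, map_mul, map_mul, s2 (p ^ 2) hN le_rfl, mul_zero, sub_zero]
      exact mul_ne_zero s3 s1
    have hD1 : ¬ v (D : K) < 1 := fun h => hDr ((hr D).mpr h)
    have hD2 : v (D : K) ≤ 1 := D.2
    have hD3 : v (D : K) = 1 := le_antisymm hD2 (not_lt.mp hD1)
    rw [← hD3, hD]
    simp
  · intro M _ _ P
    obtain ⟨c, hc, h⟩ := hF.val M ((algebraMap K M).comp (OW v).subtype)
      ((W₀.map (OW v).subtype).baseChange M) (WeierstrassCurve.map_map W₀ _ _).symm P
    refine ⟨c, hc, ?_⟩
    rw [← h]
    funext i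
    simp only [gAct, Mulf.ev]
    rw [aeval_def, eval₂_map]

/-- the multiplication by `p` in the coordinate `x - b₂ / 12` of the short equation -/
theorem superG_lat {K : Type} [Field K] [NumberField K] (W : WeierstrassCurve K) (n : ℕ)
    (F : Fin 2 → MvPolynomial (Fin 2) K)
    (hF : ∀ (M : Type) [Field M] [Algebra K M] (P : Wpt W M),
      ∃ c : M, c ≠ 0 ∧ gAct F M P.xRep = c • (n • P).xRep) :
    IsLatS (Du.sa W) (Du.sb W) (W.b₂ / 12) n F := by
  intro M _ _ P
  obtain ⟨c, hc, h⟩ := hF M (ofS W M P)
  refine ⟨c, hc, ?_⟩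
  rw [← sh_toS W M (ofS W M P), ← sh_toS W M (n • ofS W M P), map_nsmul, toS_ofS] at h
  exact h

/-- the discriminant of the short equation -/
theorem disc_short {K : Type} [Field K] [CharZero K] (W : WeierstrassCurve K) :
    4 * Du.sa W ^ 3 + 27 * Du.sb W ^ 2 = -(W.Δ / 16) := by
  simp only [Du.sa, Du.sb, WeierstrassCurve.c₄, WeierstrassCurve.c₆, WeierstrassCurve.b₂,
    WeierstrassCurve.b₄, WeierstrassCurve.b₆, WeierstrassCurve.Δ, WeierstrassCurve.b₈]
  ring

end Pool.DynLehmer.LE
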