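import Pool.Agent.Lib.MP_2194ec_nt.LE.FineuSh
import Pool.Agent.Lib.MP_2194ec_nt.LE.Latb
import Pool.Agent.Lib.MP_2194ec_nt.LE.SuperG

set_option autoImplicit false
set_option linter.unusedSectionVars false

/-!
# The Lehmer bound for a curve with a Weierstrass equation of supersingular reduction
-/

namespace Pool.DynLehmer.LE
open MvPolynomial NumberField Filter Topology Pool.DynLehmer Pool.DynLehmer.SB Pool.DynLehmer.SP
  Pool.DynLehmer.GS Pool.DynLehmer.LP Pool.DynLehmer.LW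
open scoped Classical

/-- The bound in the coordinate `x - r`. -/
theorem ebS (hFin : FineuSStatement) (hFre : FreeluSStatement) (hRep : RepeStatement)
    (hCls : ClseStatement) (hGrp : GrpbStatement) (K : Type) [Field K] [NumberField K] (a b r : K)
    (hΔ : 4 * a ^ 3 + 27 * b ^ 2 ≠ 0) (p s lam : ℕ) (v : FinitePlace K)
    (F : Fin 2 → MvPolynomial (Fin 2) K) (hR : HypR p s v F) (hlam : 2 ≤ lam)
    (hq : lam ^ 2 = p ^ s) (hLat : IsLatS a b r lam F) : EBound K a b (p ^ s) (FrS.un r F) := by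
  have hq2 : 2 ≤ p ^ s := by
    rw [← hq]
    nlinarith
  have hM : Mor (p ^ s) F := Pool.DynLehmer.GS.mor K p s v F hR
  refine ebound_gen hRep hCls hGrp K a b (p ^ s) lam (FrS.un r F) hlam
    (fun N _ _ k y => ∀ j : ℕ, FreeT (p ^ s) F
      (fun i => sh (algebraMap K N r) (lam ^ j • y i).xRep))
    (fun N _ _ m y hy => hFre K a b r hΔ (p ^ s) lam F hlam hM hLat N m y hy) ?_
  intro k₀ A' C hA
  obtain ⟨c, hc, H⟩ := hFin K a b r hΔ p s lam v F hR hlam hq hLat k₀ A' C hA
  refine ⟨c, hc, ?_⟩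
  intro N _ _ _ _ P hP hy
  obtain ⟨h, hh, hle⟩ := H N P hP hy
  exact ⟨h, (FrS.hasHt_un hq2 r F _ h).2 hh, hle⟩

/-- A Weierstrass equation with supersingular reduction at a place over any prime. -/
theorem ebG (hFin : FineuSStatement) (hFre : FreeluSStatement) (hRep : RepeStatement)
    (hCls : ClseStatement) (hGrp : GrpbStatement) (hA : AddsubStatement) (K : Type) [Field K]
    [NumberField K] (p : ℕ) (v : FinitePlace K) (W₀ : WeierstrassCurve (OW v)) (hp : p.Prime)
    (hS : SupersG p v W₀) :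
    ∃ F : Fin 2 → MvPolynomial (Fin 2) K, Mor (p ^ 2) F ∧
      IsLat (Du.sa (W₀.map (OW v).subtype)) (Du.sb (W₀.map (OW v).subtype)) p F ∧
      EBound K (Du.sa (W₀.map (OW v).subtype)) (Du.sb (W₀.map (OW v).subtype)) (p ^ 2) F := by
  obtain ⟨F, hR, hF⟩ := superG hA K p v W₀ hp hS
  set W : WeierstrassCurve K := W₀.map (OW v).subtype with hW
  have hL := superG_lat W p F hF
  have hΔ : 4 * Du.sa W ^ 3 + 27 * Du.sb W ^ 2 ≠ 0 := by
    rw [disc_short, neg_ne_zero]
    refine div_ne_zero ?_ (by norm_num)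
    rw [hW, WeierstrassCurve.map_Δ]
    exact (hS.disc.map (OW v).subtype).ne_zero
  exact ⟨FrS.un (W.b₂ / 12) F, FrS.mor_un _ (Pool.DynLehmer.GS.mor K p 2 v F hR),
    FrS.isLat_un hL, ebS hFin hFre hRep hCls hGrp K _ _ _ hΔ p 2 p v F hR hp.two_le rfl hL⟩

end Pool.DynLehmer.LE
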