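import Mathlib.FieldTheory.Perfect
import Mathlib.FieldTheory.Separable
import Mathlib.Algebra.MvPolynomial.Derivation
import Pool.Agent.Lib.MP_2194ec_nt.LE.DefsE

set_option autoImplicit false

/-!
# Derivations of an algebraic extension of a rational function field (row EXT)

`L` is algebraic over `C (x_i : i)`, the `x_i` are algebraically independent over `C`. There is a
derivation of `L` over `C` with prescribed values at the `x_i`; maps `D` with
`D (a * b) = φ a * D b + φ b * D a` are determined by their values at the `x_i`; so `D ∘ φ` and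
`μ • φ ∘ D` agree if they agree at the `x_i`.
-/

namespace Pool.DynLehmer.LE
open MvPolynomial

theorem ext_exists {C L : Type*} [Field C] [CharZero C] [Field L] [Algebra C L] {ι : Type*}
    {x : ι → L} (hx : AlgebraicIndependent C x)
    (halg : Algebra.IsAlgebraic (IntermediateField.adjoin C (Set.range x)) L) (c : ι → L) :
    ∃ D : Derivation C L L, ∀ i, D (x i) = c i := by
  classical
  set K₀ := IntermediateField.adjoin C (Set.range x) with hK₀
  let x' : ι → K₀ := fun i => ⟨x i, IntermediateField.subset_adjoin _ _ ⟨i, rfl⟩⟩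
  let a1 : Algebra (MvPolynomial ι C) K₀ := (aeval x').toAlgebra
  let a2 : Algebra (MvPolynomial ι C) L := (aeval x).toAlgebra
  have m1 : ∀ s : MvPolynomial ι C, algebraMap (MvPolynomial ι C) K₀ s = aeval x' s := fun _ => rfl
  have m2 : ∀ s : MvPolynomial ι C, algebraMap (MvPolynomial ι C) L s = aeval x s := fun _ => rfl
  have m3 : ∀ s : MvPolynomial ι C, ((aeval x' s : K₀) : L) = aeval x s := by
    intro s
    have h := MvPolynomial.comp_aeval_apply x' K₀.val s
    rw [IntermediateField.coe_val] at h
    rw [h]
  have t1 : IsScalarTower (MvPolynomial ι C) K₀ L := IsScalarTower.of_algebraMap_eq fun s => by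
    rw [m2, m1]
    exact (m3 s).symm
  have t2 : IsScalarTower C (MvPolynomial ι C) L := IsScalarTower.of_algebraMap_eq fun s => by
    rw [m2, MvPolynomial.algebraMap_eq, aeval_C]
  have f1 : IsFractionRing (MvPolynomial ι C) K₀ := by
    refine IsLocalization.isLocalization_of_algEquiv (nonZeroDivisors (MvPolynomial ι C))
      (S := FractionRing (MvPolynomial ι C))
      { hx.aevalEquivField with
        commutes' := fun s => ?_ }
    apply Subtype.ext
    rw [m1, m3]
    exact hx.aevalEquivField_algebraMap_apply_coe s
  have f2 : Algebra.FormallyEtale (MvPolynomial ι C) K₀ :=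
    Algebra.FormallyEtale.of_isLocalization (nonZeroDivisors (MvPolynomial ι C))
  have hcz : CharZero K₀ := charZero_of_injective_algebraMap (algebraMap C K₀).injective
  have f3 : Algebra.IsSeparable K₀ L := inferInstance
  have f4 : Algebra.FormallyEtale K₀ L := Algebra.FormallyEtale.of_isSeparable K₀ L
  have f5 : Algebra.FormallyEtale (MvPolynomial ι C) L :=
    Algebra.FormallyEtale.comp (MvPolynomial ι C) K₀ L
  let g : Ω[MvPolynomial ι C⁄C] →ₗ[MvPolynomial ι C] L :=
    (mkDerivation C c).liftKaehlerDifferential
  let g' : TensorProduct (MvPolynomial ι C) L (Ω[MvPolynomial ι C⁄C]) →ₗ[L] L :=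
    g.liftBaseChange L
  let e := KaehlerDifferential.tensorKaehlerEquivOfFormallyEtale C (MvPolynomial ι C) L
  refine ⟨(g'.comp e.symm.toLinearMap).compDer (KaehlerDifferential.D C L), fun i => ?_⟩
  have h1 : x i = algebraMap (MvPolynomial ι C) L (X i) := by rw [m2, aeval_X]
  change g' (e.symm (KaehlerDifferential.D C L (x i))) = c i
  rw [h1, KaehlerDifferential.tensorKaehlerEquivOfFormallyEtale_symm_D_algebraMap,
    LinearMap.liftBaseChange_tmul, one_smul]
  change (mkDerivation C c).liftKaehlerDifferential _ = _
  rw [Derivation.liftKaehlerDifferential_comp_D, mkDerivation_X]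

/-- A map with the Leibniz rule over `φ` which vanishes at the `x_i` is zero. -/
theorem ext_zero {C L : Type*} [Field C] [CharZero C] [Field L] [Algebra C L] {ι : Type*}
    {x : ι → L} (halg : Algebra.IsAlgebraic (IntermediateField.adjoin C (Set.range x)) L)
    {M : Type*} [Field M] (φ : L →+* M) (D : L → M) (hadd : ∀ a b, D (a + b) = D a + D b)
    (hD : ∀ a b, D (a * b) = φ a * D b + φ b * D a) (hC : ∀ r : C, D (algebraMap C L r) = 0)
    (h0 : ∀ i, D (x i) = 0) (a : L) : D a = 0 := by
  have hone : D 1 = 0 := by
    have h := hC 1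
    rwa [map_one] at h
  have hzero : D 0 = 0 := by
    have h := hC 0
    rwa [map_zero] at h
  let Z : IntermediateField C L :=
    { carrier := {a | D a = 0}
      mul_mem' := by
        intro a b ha hb
        change D (a * b) = 0
        rw [hD, show D b = 0 from hb, show D a = 0 from ha, mul_zero, mul_zero, add_zero]
      one_mem' := hone
      add_mem' := by
        intro a b ha hb
        change D (a + b) = 0
        rw [hadd, show D b = 0 from hb, show D a = 0 from ha, add_zero]
      zero_mem' := hzero
      algebraMap_mem' := hC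
      inv_mem' := by
        intro a ha
        change D a⁻¹ = 0
        by_cases h : a = 0
        · rw [h, inv_zero, hzero]
        · have h1 := hD a a⁻¹
          rw [mul_inv_cancel₀ h, hone, show D a = 0 from ha, mul_zero, add_zero] at h1
          have h2 : φ a ≠ 0 := fun h3 => h ((map_eq_zero φ).1 h3)
          exact (mul_eq_zero.1 h1.symm).resolve_left h2 }
  have hZ : IntermediateField.adjoin C (Set.range x) ≤ Z := by
    rw [IntermediateField.adjoin_le_iff]
    rintro _ ⟨i, rfl⟩
    exact h0 i
  have hK : ∀ z : IntermediateField.adjoin C (Set.range x), D (z : L) = 0 := fun z => hZ z.2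
  have hpow : ∀ (a : L) (n : ℕ), D (a ^ n) = (n : M) * φ a ^ (n - 1) * D a := by
    intro a n
    induction n with
    | zero => simp [hone]
    | succ n ih =>
      rw [pow_succ, hD, ih, map_pow]
      rcases n with _ | n
      · simp
      · rw [Nat.add_sub_cancel, Nat.add_sub_cancel]
        push_cast
        ring
  have hpoly : ∀ (a : L) (f : Polynomial (IntermediateField.adjoin C (Set.range x))),
      D (Polynomial.aeval a f) = φ (Polynomial.aeval a (Polynomial.derivative f)) * D a := by
    intro a f
    induction f using Polynomial.induction_on' with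
    | add p q hp hq => rw [map_add, hadd, hp, hq, map_add, map_add, map_add, add_mul]
    | monomial n z =>
      rw [Polynomial.aeval_monomial, Polynomial.derivative_monomial, Polynomial.aeval_monomial, hD,
        hpow]
      have h1 : D (algebraMap (IntermediateField.adjoin C (Set.range x)) L z) = 0 := hK z
      rw [h1, mul_zero, add_zero, map_mul, map_mul, map_mul, map_pow, map_natCast, map_natCast]
      ring
  have hcz : CharZero (IntermediateField.adjoin C (Set.range x)) :=
    charZero_of_injective_algebraMap
      (algebraMap C (IntermediateField.adjoin C (Set.range x))).injective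
  have hint : IsIntegral (IntermediateField.adjoin C (Set.range x)) a :=
    (halg.isAlgebraic a).isIntegral
  have hsep : (minpoly (IntermediateField.adjoin C (Set.range x)) a).Separable :=
    (minpoly.irreducible hint).separable
  have h1 := hpoly a (minpoly (IntermediateField.adjoin C (Set.range x)) a)
  rw [minpoly.aeval, hzero] at h1
  have h2 : Polynomial.aeval a (Polynomial.derivative
      (minpoly (IntermediateField.adjoin C (Set.range x)) a)) ≠ 0 :=
    hsep.aeval_derivative_ne_zero (minpoly.aeval _ _)
  have h3 : φ (Polynomial.aeval a (Polynomial.derivative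
      (minpoly (IntermediateField.adjoin C (Set.range x)) a))) ≠ 0 :=
    fun h4 => h2 ((map_eq_zero φ).1 h4)
  exact (mul_eq_zero.1 h1.symm).resolve_left h3

theorem ext_unique {C L : Type*} [Field C] [CharZero C] [Field L] [Algebra C L] {ι : Type*}
    {x : ι → L} (halg : Algebra.IsAlgebraic (IntermediateField.adjoin C (Set.range x)) L)
    (φ : L →ₐ[C] L) (D₁ D₂ : L →ₗ[C] L) (h₁ : ∀ a b, D₁ (a * b) = φ a * D₁ b + φ b * D₁ a)
    (h₂ : ∀ a b, D₂ (a * b) = φ a * D₂ b + φ b * D₂ a) (h : ∀ i, D₁ (x i) = D₂ (x i)) :
    D₁ = D₂ := by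
  ext a
  rw [← sub_eq_zero]
  have hone : ∀ D : L →ₗ[C] L, (∀ a b, D (a * b) = φ a * D b + φ b * D a) → D 1 = 0 := by
    intro D hD
    have h := hD 1 1
    rw [mul_one, map_one φ, one_mul] at h
    simpa using h
  refine ext_zero halg (φ : L →+* L) (fun u => D₁ u - D₂ u) (fun a b => ?_) (fun a b => ?_)
    (fun r => ?_) (fun i => ?_) a
  · rw [map_add, map_add]
    ring
  · change D₁ (a * b) - D₂ (a * b) = φ a * (D₁ b - D₂ b) + φ b * (D₁ a - D₂ a)
    rw [h₁, h₂]
    ring
  · rw [Algebra.algebraMap_eq_smul_one, map_smul, map_smul, hone D₁ h₁, hone D₂ h₂, sub_self]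
  · rw [h, sub_self]

/-- `D ∘ φ = μ • φ ∘ D` if this is true at the `x_i`. -/
theorem ext_comm {C L : Type*} [Field C] [CharZero C] [Field L] [Algebra C L] {ι : Type*}
    {x : ι → L} (halg : Algebra.IsAlgebraic (IntermediateField.adjoin C (Set.range x)) L)
    (φ : L →ₐ[C] L) (D : Derivation C L L) (μ : L)
    (h : ∀ i, D (φ (x i)) = μ * φ (D (x i))) (a : L) : D (φ a) = μ * φ (D a) := by
  have hh := ext_unique halg φ (D.toLinearMap.comp φ.toLinearMap)
    ((LinearMap.mulLeft C μ).comp (φ.toLinearMap.comp D.toLinearMap)) (fun a b => ?_)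
    (fun a b => ?_) h
  · exact LinearMap.congr_fun hh a
  · change D (φ (a * b)) = φ a * D (φ b) + φ b * D (φ a)
    rw [map_mul, Derivation.leibniz, smul_eq_mul, smul_eq_mul]
  · change μ * φ (D (a * b)) = φ a * (μ * φ (D b)) + φ b * (μ * φ (D a))
    rw [Derivation.leibniz, smul_eq_mul, smul_eq_mul, map_add, map_mul, map_mul]
    ring

/-- If `φ (x i)` and the `x i` generate the same algebraic closure: a derivation which kills all
`x i` except `x j` satisfies `D ∘ φ = μ • φ ∘ D` if this is true at `x j` and `D (φ (x i)) = 0` for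
`i ≠ j`. -/
theorem ext_comm_single {C L : Type*} [Field C] [CharZero C] [Field L] [Algebra C L] {ι : Type*}
    {x : ι → L} (halg : Algebra.IsAlgebraic (IntermediateField.adjoin C (Set.range x)) L)
    (φ : L →ₐ[C] L) (D : Derivation C L L) (μ : L) (j : ι) (hz : ∀ i, i ≠ j → D (x i) = 0)
    (hz' : ∀ i, i ≠ j → D (φ (x i)) = 0) (hj : D (φ (x j)) = μ * φ (D (x j))) (a : L) :
    D (φ a) = μ * φ (D a) := by
  refine ext_comm halg φ D μ (fun i => ?_) a
  by_cases h : i = j
  · rw [h, hj]
  · rw [hz' i h, hz i h, map_zero, mul_zero]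

theorem ext : ExtStatement := by
  intro C L _ _ _ _ ι _ x hx
  have halg := hx.isAlgebraic_field
  refine ⟨fun c => ext_exists hx.1 halg c, ?_, ?_⟩
  · intro M _ φ d hadd hmul hC h0 u
    exact ext_zero halg φ d hadd hmul hC h0 u
  · intro D c hc hD u hu
    by_contra htr
    have htr' : Transcendental C u := htr
    have h1 : AlgebraicIndepOn C id ({u} : Set L) := by
      have h2 : AlgebraicIndependent C (fun _ : Unit => u) := by
        rw [algebraicIndependent_unique_type_iff]
        exact htr'
      have h3 := h2.coe_range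
      have h4 : Set.range (fun _ : Unit => u) = {u} := by
        ext v
        simp [eq_comm]
      rw [h4] at h3
      exact h3
    obtain ⟨t, ht, hb⟩ := exists_isTranscendenceBasis_superset h1
    obtain ⟨E, hE⟩ := ext_exists hb.1 hb.isAlgebraic_field (fun _ => (1 : L))
    have hEu : E u = 1 := hE ⟨u, ht rfl⟩
    have h5 : ∀ v, E v - ∑ j, E (x j) * (c j)⁻¹ * D j v = 0 := by
      refine ext_zero halg (RingHom.id L) (fun v => E v - ∑ j, E (x j) * (c j)⁻¹ * D j v)
        (fun a b => ?_) (fun a b => ?_) (fun r => ?_) (fun i => ?_)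
      · simp only [map_add, mul_add, Finset.sum_add_distrib]
        ring
      · simp only [Derivation.leibniz, smul_eq_mul, RingHom.id_apply, mul_sub, Finset.mul_sum]
        have h6 : ∑ j, E (x j) * (c j)⁻¹ * (a * D j b + b * D j a) =
            ∑ j, a * (E (x j) * (c j)⁻¹ * D j b) + ∑ j, b * (E (x j) * (c j)⁻¹ * D j a) := by
          rw [← Finset.sum_add_distrib]
          exact Finset.sum_congr rfl fun j _ => by ring
        rw [h6]
        ring
      · simp only [Derivation.map_algebraMap, mul_zero, Finset.sum_const_zero, sub_zero]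
      · have h7 : ∑ j, E (x j) * (c j)⁻¹ * D j (x i) = E (x i) := by
          rw [Finset.sum_eq_single i]
          · rw [hD, if_pos rfl, mul_assoc, inv_mul_cancel₀ (hc i), mul_one]
          · intro j _ hj
            rw [hD, if_neg (Ne.symm hj), mul_zero]
          · intro h
            exact absurd (Finset.mem_univ i) h
        change E (x i) - ∑ j, E (x j) * (c j)⁻¹ * D j (x i) = 0
        rw [h7, sub_self]
    have h8 := h5 u
    rw [hEu] at h8
    simp only [hu, mul_zero, Finset.sum_const_zero, sub_zero] at h8
    exact one_ne_zero h8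

end Pool.DynLehmer.LE
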