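import Pool.Agent.Lib.MP_2194ec_nt.LE.Defs2
import Pool.Agent.Lib.MP_2194ec_nt.LW.Finm
import Pool.Agent.Lib.MP_2194ec_nt.LW.ClB
import Pool.Agent.Lib.MP_2194ec_nt.GAL.R.Mor

set_option autoImplicit false
set_option linter.unusedSectionVars false

/-!
# The Lehmer bound for elliptic curves from independent conjugates
-/

namespace Pool.DynLehmer.LE
open MvPolynomial NumberField Filter Topology Pool.DynLehmer Pool.DynLehmer.SB Pool.DynLehmer.SP
  Pool.DynLehmer.GS Pool.DynLehmer.LP Pool.DynLehmer.LW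
open scoped Classical

namespace Fin28

/-! ## Numbers -/

theorem nume {k k₀ A C d D M : ℕ} {Q δ : ℝ} (hk : 2 ≤ k) (hkk : k ≤ k₀) (hA : 1 ≤ A) (hC : 1 ≤ C)
    (hδ : δ = 1 / (8 * k₀ ^ 2 * A * (4 * C : ℝ) ^ (4 * k₀ * A)))
    (hd : 1 / δ < (d : ℝ)) (hthin : Q * (d : ℝ) ^ (1 - δ) ≤ D) (hQ : 1 ≤ Q) (hM1 : 1 ≤ M)
    (hM : M ^ A * D ≤ C * (2 * d) ^ (k * A)) :
    Q * (M : ℝ) ^ (1 / (k : ℝ) + δ) ≤ D := by
  have hk' : (2 : ℝ) ≤ k := by exact_mod_cast hk
  have hkk' : (k : ℝ) ≤ k₀ := by exact_mod_cast hkk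
  have hA' : (1 : ℝ) ≤ A := by exact_mod_cast hA
  have hC' : (1 : ℝ) ≤ C := by exact_mod_cast hC
  have h4C : (1 : ℝ) ≤ 4 * C := by linarith
  have hk₀ : (2 : ℝ) ≤ k₀ := hk'.trans hkk'
  have hCp : (1 : ℝ) ≤ (4 * C : ℝ) ^ (4 * k₀ * A) := one_le_pow₀ h4C
  have hden : (0 : ℝ) < 8 * k₀ ^ 2 * A * (4 * C : ℝ) ^ (4 * k₀ * A) := by positivity
  have hδ0 : 0 < δ := by rw [hδ]; positivity
  have h1δ : 1 / δ = 8 * k₀ ^ 2 * A * (4 * C : ℝ) ^ (4 * k₀ * A) := by rw [hδ, one_div_one_div]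
  have hδk : δ ≤ 1 / (8 * k₀ ^ 2 * A) := by
    rw [hδ]
    apply one_div_le_one_div_of_le (by positivity)
    exact le_mul_of_one_le_right (by positivity) hCp
  have hδ1 : δ ≤ 1 / 2 := by
    refine hδk.trans ?_
    apply one_div_le_one_div_of_le (by norm_num)
    nlinarith [mul_pos (show (0 : ℝ) < k₀ by linarith) (show (0 : ℝ) < A by linarith),
      sq_nonneg (k₀ : ℝ)]
  -- `2 (k + 1) δ ≤ 1 / (2 k A)`
  have hδ2 : 2 * (k + 1) * δ ≤ 1 / (2 * (k * A)) := by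
    have h1 : 2 * ((k : ℝ) + 1) * δ ≤ 4 * k₀ * (1 / (8 * k₀ ^ 2 * A)) := by
      have h2 : 2 * ((k : ℝ) + 1) ≤ 4 * k₀ := by linarith
      exact mul_le_mul h2 hδk hδ0.le (by positivity)
    refine h1.trans ?_
    rw [show 4 * (k₀ : ℝ) * (1 / (8 * k₀ ^ 2 * A)) = 1 / (2 * (k₀ * A)) by
      field_simp
      ring]
    apply one_div_le_one_div_of_le (by positivity)
    have : (k : ℝ) * A ≤ k₀ * A := mul_le_mul_of_nonneg_right hkk' (by linarith)
    linarith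
  have hdC : (4 * C : ℝ) ^ (4 * k₀ * A) ≤ d := by
    rw [h1δ] at hd
    have h1 : (1 : ℝ) ≤ 8 * k₀ ^ 2 * A := by
      nlinarith [mul_pos (show (0 : ℝ) < k₀ by linarith) (show (0 : ℝ) < A by linarith),
        sq_nonneg (k₀ : ℝ)]
    have h2 : (4 * C : ℝ) ^ (4 * k₀ * A) ≤ 8 * k₀ ^ 2 * A * (4 * C : ℝ) ^ (4 * k₀ * A) :=
      le_mul_of_one_le_left (by positivity) h1
    linarith
  have hd1 : (1 : ℝ) ≤ d := hCp.trans hdC
  have hd0 : (0 : ℝ) < d := by linarith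
  -- `d ^ (1 / 2) ≤ D`, `d ≤ D ^ 2`
  have hdD : (d : ℝ) ^ (1 - δ) ≤ D := by
    have h1 : 0 < (d : ℝ) ^ (1 - δ) := Real.rpow_pos_of_pos hd0 _
    nlinarith
  have hdD2 : (d : ℝ) ^ (1 / 2 : ℝ) ≤ D :=
    (Real.rpow_le_rpow_of_exponent_le hd1 (by linarith)).trans hdD
  have hD1 : (1 : ℝ) ≤ D := (Real.one_le_rpow hd1 (by norm_num)).trans hdD2
  have hD0 : (0 : ℝ) < D := by linarith
  have hdsq : (d : ℝ) ≤ (D : ℝ) ^ (2 : ℝ) := by
    have h1 := Real.rpow_le_rpow (by positivity) hdD2 (z := 2) (by norm_num)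
    rwa [← Real.rpow_mul hd0.le, show (1 / 2 : ℝ) * 2 = 1 by norm_num, Real.rpow_one] at h1
  -- `(4 C) ^ (2 k A) ≤ D`
  have hCD : (4 * C : ℝ) ≤ (D : ℝ) ^ (1 / (2 * (k * A)) : ℝ) := by
    have h1 : (4 * C : ℝ) ^ ((2 * (k * A) : ℕ) : ℝ) ≤ D := by
      refine le_trans ?_ hdD2
      have h2 : ((4 * C : ℝ) ^ (4 * k₀ * A)) ^ (1 / 2 : ℝ) ≤ (d : ℝ) ^ (1 / 2 : ℝ) :=
        Real.rpow_le_rpow (by positivity) hdC (by norm_num)
      refine le_trans ?_ h2
      rw [← Real.rpow_natCast (4 * C : ℝ) (4 * k₀ * A), ← Real.rpow_mul (by positivity)]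
      apply Real.rpow_le_rpow_of_exponent_le h4C
      push_cast
      have : (k : ℝ) * A ≤ k₀ * A := mul_le_mul_of_nonneg_right hkk' (by linarith)
      linarith
    have h3 := Real.rpow_le_rpow (by positivity) h1 (z := 1 / (2 * (k * A))) (by positivity)
    rwa [← Real.rpow_mul (by positivity), show ((2 * (k * A) : ℕ) : ℝ) * (1 / (2 * (k * A))) = 1 by
      push_cast
      field_simp, Real.rpow_one] at h3
  have hM0 : (0 : ℝ) < M := by exact_mod_cast hM1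
  set e : ℝ := 1 / (k : ℝ) + δ with he
  have hkinv : 1 / (k : ℝ) ≤ 1 / 2 := one_div_le_one_div_of_le (by norm_num) hk'
  have he0 : 0 < e := by rw [he]; positivity
  have he1 : e / A ≤ 1 := by
    rw [div_le_one (by linarith)]
    linarith
  have heA0 : 0 < e / A := by positivity
  -- `M ^ A ≤ C (2 d) ^ (k A) / D`
  have h1 : (M : ℝ) ^ A ≤ C * (2 * d) ^ (k * A) * (D : ℝ)⁻¹ := by
    rw [← div_eq_mul_inv, le_div_iff₀ hD0]
    exact_mod_cast hM
  have h2 : (M : ℝ) ^ e = ((M : ℝ) ^ A) ^ (e / A) := by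
    rw [← Real.rpow_natCast, ← Real.rpow_mul hM0.le]
    congr 1
    field_simp
  have hke : (k : ℝ) * e = 1 + k * δ := by
    rw [he]
    field_simp
  have hkδ : (k : ℝ) * δ ≤ 1 / 2 := by
    have h5 : 1 / (2 * ((k : ℝ) * A)) ≤ 1 / 4 := by
      apply one_div_le_one_div_of_le (by norm_num)
      nlinarith
    nlinarith
  have hMe : (M : ℝ) ^ e ≤ 4 * C * ((d : ℝ) ^ (1 + k * δ) * (D : ℝ) ^ (-(e / A))) := by
    rw [h2]
    refine (Real.rpow_le_rpow (by positivity) h1 heA0.le).trans ?_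
    rw [Real.mul_rpow (by positivity) (by positivity), Real.mul_rpow (by positivity) (by positivity),
      Real.inv_rpow hD0.le, ← Real.rpow_neg hD0.le, ← Real.rpow_natCast (2 * (d : ℝ)) (k * A),
      ← Real.rpow_mul (by positivity)]
    have h6 : ((k * A : ℕ) : ℝ) * (e / A) = 1 + k * δ := by
      rw [← hke]
      push_cast
      field_simp
    rw [h6, Real.mul_rpow (by norm_num) hd0.le]
    have h7 : (C : ℝ) ^ (e / A) ≤ C := by
      calc (C : ℝ) ^ (e / A) ≤ (C : ℝ) ^ (1 : ℝ) := Real.rpow_le_rpow_of_exponent_le hC' he1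
        _ = C := Real.rpow_one _
    have h8 : (2 : ℝ) ^ (1 + k * δ) ≤ 4 := by
      calc (2 : ℝ) ^ (1 + k * δ) ≤ (2 : ℝ) ^ (2 : ℝ) :=
            Real.rpow_le_rpow_of_exponent_le (by norm_num) (by linarith)
        _ = 4 := by norm_num
    calc (C : ℝ) ^ (e / A) * ((2 : ℝ) ^ (1 + k * δ) * (d : ℝ) ^ (1 + k * δ)) *
          (D : ℝ) ^ (-(e / A))
        ≤ C * (4 * (d : ℝ) ^ (1 + k * δ)) * (D : ℝ) ^ (-(e / A)) := by gcongr
      _ = 4 * C * ((d : ℝ) ^ (1 + k * δ) * (D : ℝ) ^ (-(e / A))) := by ring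
  -- `Q ≤ D d ^ (- (1 - δ))`
  have hQd : Q ≤ D * (d : ℝ) ^ (-(1 - δ)) := by
    rw [Real.rpow_neg hd0.le, ← div_eq_mul_inv, le_div_iff₀ (Real.rpow_pos_of_pos hd0 _)]
    exact hthin
  have hfin : (4 * C : ℝ) * ((d : ℝ) ^ ((k + 1) * δ) * (D : ℝ) ^ (-(e / A))) ≤ 1 := by
    have h9 : (d : ℝ) ^ ((k + 1) * δ) ≤ (D : ℝ) ^ (2 * (k + 1) * δ) := by
      calc (d : ℝ) ^ ((k + 1) * δ) ≤ ((D : ℝ) ^ (2 : ℝ)) ^ ((k + 1) * δ) :=
            Real.rpow_le_rpow hd0.le hdsq (by positivity)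
        _ = (D : ℝ) ^ (2 * (k + 1) * δ) := by
            rw [← Real.rpow_mul hD0.le]
            congr 1
            ring
    calc (4 * C : ℝ) * ((d : ℝ) ^ ((k + 1) * δ) * (D : ℝ) ^ (-(e / A)))
        ≤ (D : ℝ) ^ (1 / (2 * (k * A)) : ℝ) * ((D : ℝ) ^ (2 * (k + 1) * δ) *
            (D : ℝ) ^ (-(e / A))) := by gcongr
      _ = (D : ℝ) ^ (1 / (2 * (k * A)) + (2 * (k + 1) * δ + -(e / A)) : ℝ) := by
          rw [Real.rpow_add hD0, Real.rpow_add hD0]
      _ ≤ (D : ℝ) ^ (0 : ℝ) := by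
          apply Real.rpow_le_rpow_of_exponent_le hD1
          have h10 : 1 / ((k : ℝ) * A) ≤ e / A := by
            rw [he, add_div]
            have h11 : 1 / (k : ℝ) / A = 1 / (k * A) := by
              rw [div_div]
            rw [h11]
            have : 0 ≤ δ / A := by positivity
            linarith
          have h12 : 1 / (2 * ((k : ℝ) * A)) = 1 / (k * A) / 2 := by
            rw [div_div]
            congr 1
            ring
          rw [h12] at hδ2 ⊢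
          linarith
      _ = 1 := Real.rpow_zero _
  calc Q * (M : ℝ) ^ e ≤ (D * (d : ℝ) ^ (-(1 - δ))) *
        (4 * C * ((d : ℝ) ^ (1 + k * δ) * (D : ℝ) ^ (-(e / A)))) :=
        mul_le_mul hQd hMe (by positivity) (by positivity)
    _ = D * ((4 * C : ℝ) * (((d : ℝ) ^ (-(1 - δ)) * (d : ℝ) ^ (1 + k * δ)) *
          (D : ℝ) ^ (-(e / A)))) := by ring
    _ = D * ((4 * C : ℝ) * ((d : ℝ) ^ ((k + 1) * δ) * (D : ℝ) ^ (-(e / A)))) := by
        rw [← Real.rpow_add hd0]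
        congr 4
        ring_nf
    _ ≤ D * 1 := mul_le_mul_of_nonneg_left hfin hD0.le
    _ = D := mul_one _

theorem numC {k₀ A C d D : ℕ} {Q δ : ℝ} (hk : 2 ≤ k₀) (hA : 1 ≤ A) (hC : 1 ≤ C)
    (hδ : δ = 1 / (8 * k₀ ^ 2 * A * (4 * C : ℝ) ^ (4 * k₀ * A)))
    (hd : 1 / δ < (d : ℝ)) (hthin : Q * (d : ℝ) ^ (1 - δ) ≤ D) (hQ : 1 ≤ Q) : C < D := by
  have hk₀ : (2 : ℝ) ≤ k₀ := by exact_mod_cast hk
  have hA' : (1 : ℝ) ≤ A := by exact_mod_cast hA
  have hC' : (1 : ℝ) ≤ C := by exact_mod_cast hC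
  have h4C : (1 : ℝ) ≤ 4 * C := by linarith
  have hCp : (1 : ℝ) ≤ (4 * C : ℝ) ^ (4 * k₀ * A) := one_le_pow₀ h4C
  have h1δ : 1 / δ = 8 * k₀ ^ 2 * A * (4 * C : ℝ) ^ (4 * k₀ * A) := by rw [hδ, one_div_one_div]
  have h8 : (1 : ℝ) ≤ 8 * k₀ ^ 2 * A := by
    nlinarith [mul_pos (show (0 : ℝ) < k₀ by linarith) (show (0 : ℝ) < A by linarith),
      sq_nonneg (k₀ : ℝ)]
  have hδk : δ ≤ 1 / (8 * k₀ ^ 2 * A) := by
    rw [hδ]
    apply one_div_le_one_div_of_le (by positivity)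
    exact le_mul_of_one_le_right (by positivity) hCp
  have hδ1 : δ ≤ 1 / 2 := by
    refine hδk.trans ?_
    apply one_div_le_one_div_of_le (by norm_num)
    nlinarith [mul_pos (show (0 : ℝ) < k₀ by linarith) (show (0 : ℝ) < A by linarith),
      sq_nonneg (k₀ : ℝ)]
  have hdC : (4 * C : ℝ) ^ (4 * k₀ * A) ≤ d := by
    rw [h1δ] at hd
    have h2 : (4 * C : ℝ) ^ (4 * k₀ * A) ≤ 8 * k₀ ^ 2 * A * (4 * C : ℝ) ^ (4 * k₀ * A) :=
      le_mul_of_one_le_left (by positivity) h8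
    linarith
  have hd1 : (1 : ℝ) ≤ d := hCp.trans hdC
  have hd0 : (0 : ℝ) < d := by linarith
  have hdD : (d : ℝ) ^ (1 - δ) ≤ D := by
    have h1 : 0 < (d : ℝ) ^ (1 - δ) := Real.rpow_pos_of_pos hd0 _
    nlinarith
  have hdD2 : (d : ℝ) ^ (1 / 2 : ℝ) ≤ D :=
    (Real.rpow_le_rpow_of_exponent_le hd1 (by linarith)).trans hdD
  have h2 : ((4 * C : ℝ) ^ (4 * k₀ * A)) ^ (1 / 2 : ℝ) ≤ (d : ℝ) ^ (1 / 2 : ℝ) :=
    Real.rpow_le_rpow (by positivity) hdC (by norm_num)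
  rw [← Real.rpow_natCast (4 * C : ℝ) (4 * k₀ * A), ← Real.rpow_mul (by positivity)] at h2
  have h3 : (4 * C : ℝ) ^ (1 : ℝ) ≤ (4 * C : ℝ) ^ (((4 * k₀ * A : ℕ) : ℝ) * (1 / 2)) := by
    apply Real.rpow_le_rpow_of_exponent_le h4C
    push_cast
    nlinarith
  rw [Real.rpow_one] at h3
  have h4 : (C : ℝ) < D := by linarith
  exact_mod_cast h4

/-! ## Points -/

section points

variable {K : Type} [Field K] {a b : K} {N : Type} [Field N] [Algebra K N]

theorem iter_x {q lam : ℕ} {F : Fin 2 → MvPolynomial (Fin 2) K}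
    (hF : ∀ i, (F i).IsHomogeneous q) (hL : IsLat a b lam F) (n : ℕ) (P : Ept a b N) :
    ∃ c : N, c ≠ 0 ∧ (gAct F N)^[n] P.xRep = c • (lam ^ n • P).xRep := by
  induction n with
  | zero => exact ⟨1, one_ne_zero, by rw [pow_zero, one_smul, one_smul]; rfl⟩
  | succ n ih =>
    obtain ⟨c, hc, h⟩ := ih
    obtain ⟨c', hc', h'⟩ := hL N (lam ^ n • P)
    refine ⟨c ^ q * c', mul_ne_zero (pow_ne_zero _ hc) hc', ?_⟩
    rw [Function.iterate_succ_apply', h, gAct_smul F hF, h', smul_smul, smul_smul, pow_succ']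

theorem dg_smul (c : N) (hc : c ≠ 0) (z : Fin 2 → N) : dg K (c • z) = dg K z := by
  unfold dg
  rw [Pi.smul_apply, Pi.smul_apply, smul_eq_mul, smul_eq_mul, mul_div_mul_left _ _ hc]

theorem dgk_smul {k : ℕ} (c : Fin k → N) (hc : ∀ i, c i ≠ 0) (z : Fin k → Fin 2 → N) :
    dgk K (fun i => c i • z i) = dgk K z := by
  unfold dgk
  have h : (fun i => (c i • z i) 0 / (c i • z i) 1) = fun i => z i 0 / z i 1 := by
    funext i
    rw [Pi.smul_apply, Pi.smul_apply, smul_eq_mul, smul_eq_mul, mul_div_mul_left _ _ (hc i)]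
  rw [h]

theorem free_smul {q : ℕ} {F : Fin 2 → MvPolynomial (Fin 2) K} {k : ℕ} (c : Fin k → N)
    (hc : ∀ i, c i ≠ 0) (z : Fin k → Fin 2 → N) (h : FreeT q F z) :
    FreeT q F (fun i => c i • z i) := by
  intro Fz h1 h2 I h3 h4 m h5 h6 h7 h8 h9
  refine h Fz h1 h2 I h3 h4 m h5 h6 h7 h8 fun f n hf hfI => ?_
  have h10 := h9 f n hf hfI
  have h11 : segk (fun i => c i • z i) = fun J => (∏ i, c i) * segk z J := by
    funext J
    unfold segk
    rw [← Finset.prod_mul_distrib]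
    rfl
  rw [h11, Cl.aeval_hom hf] at h10
  exact (mul_eq_zero.1 h10).resolve_left (pow_ne_zero _ (Finset.prod_ne_zero_iff.2 fun i _ => hc i))

/-- the affine coordinate -/
theorem xRep_of_ne {P : Ept a b N} (h : P ≠ 0) : P.xRep = ![xc P, 1] := by
  cases P with
  | zero => exact absurd rfl h
  | some x y h' => rfl

theorem xc_pm (σ : N ≃ₐ[K] N) (P : Ept a b N) : xc (pm (σ : N →ₐ[K] N) P) = σ (xc P) := by
  cases P with
  | zero => exact (_root_.map_zero σ).symm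
  | some x y h' => rfl

theorem pm_ne {σ : N ≃ₐ[K] N} {P : Ept a b N} (h : P ≠ 0) : pm (σ : N →ₐ[K] N) P ≠ 0 := by
  intro h1
  cases P with
  | zero => exact h rfl
  | some x y h' => exact WeierstrassCurve.Affine.Point.some_ne_zero _ h1

theorem quo (P : Ept a b N) : P.xRep 0 / P.xRep 1 = xc P := by
  cases P with
  | zero =>
    change (1 : N) / 0 = 0
    exact div_zero 1
  | some x y h' =>
    change x / 1 = x
    exact div_one x

theorem dg_eq [FiniteDimensional K N] [IsGalois K N] (Q : Ept a b N) :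
    dg K Q.xRep = Nat.card (Set.range fun σ : N ≃ₐ[K] N => σ (xc Q)) := by
  unfold dg
  rw [quo, FinM.finrank_orbit (Ω := N) {xc Q} (xc Q) (fun σ => ⟨fun h => h _ rfl, fun h x hx => by
      rw [Set.mem_singleton_iff.1 hx]
      exact h⟩)]
  rfl

theorem dgk_eq [FiniteDimensional K N] [IsGalois K N] {k : ℕ} (y : Fin k → Ept a b N) :
    dgk K (fun i => (y i).xRep) =
      Nat.card (Set.range fun (σ : N ≃ₐ[K] N) (i : Fin k) => σ (xc (y i))) := by
  unfold dgk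
  have h0 : (fun i => (y i).xRep 0 / (y i).xRep 1) = fun i => xc (y i) := funext fun i => quo _
  rw [h0, FinM.finrank_orbit (Ω := Fin k → N) _ (fun i => xc (y i)) (fun σ => by
    rw [Set.forall_mem_range, _root_.funext_iff]
    exact Iff.rfl)]
  rfl

theorem dgk_le [FiniteDimensional K N] [IsGalois K N] {k : ℕ} (y : Fin k → Ept a b N) :
    dgk K (fun i => (y i).xRep) ≤ orbp K y := by
  rw [dgk_eq]
  unfold orbp
  have h1 : (Set.range fun (σ : N ≃ₐ[K] N) (i : Fin k) => σ (xc (y i))) =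
      (fun (z : Fin k → Ept a b N) (i : Fin k) => xc (z i)) ''
        (Set.range fun (σ : N ≃ₐ[K] N) (i : Fin k) => pm (σ : N →ₐ[K] N) (y i)) := by
    rw [← Set.range_comp]
    congr 1
    funext σ i
    exact (xc_pm σ (y i)).symm
  rw [h1, Nat.card_coe_set_eq, Nat.card_coe_set_eq]
  exact Set.ncard_image_le (Set.finite_range _)

theorem orbp_one_pos [FiniteDimensional K N] {k : ℕ} (y : Fin k → Ept a b N) : 1 ≤ orbp K y := by
  unfold orbp
  have hne : Nonempty (Set.range fun (σ : N ≃ₐ[K] N) (i : Fin k) => pm (σ : N →ₐ[K] N) (y i)) :=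
    ⟨⟨_, 1, rfl⟩⟩
  have hfin : Finite (Set.range fun (σ : N ≃ₐ[K] N) (i : Fin k) => pm (σ : N →ₐ[K] N) (y i)) :=
    Set.finite_range _
  exact Nat.card_pos

theorem orbp_one_le [FiniteDimensional K N] [IsGalois K N] {Q : Ept a b N} (hQ : Q ≠ 0) :
    orbp K (fun _ : Fin 1 => Q) ≤ 2 * dg K Q.xRep := by
  rw [dg_eq]
  unfold orbp
  set u : (N ≃ₐ[K] N) → (Fin 1 → Ept a b N) := fun σ _ => pm (σ : N →ₐ[K] N) Q with hu
  set g : (Fin 1 → Ept a b N) → N := fun z => xc (z 0) with hg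
  have hfin : Finite (Set.range u) := Set.finite_range _
  let _ : Fintype (Set.range u) := Fintype.ofFinite _
  have h1 : (Set.range fun σ : N ≃ₐ[K] N => σ (xc Q)) = ((Set.range u).toFinset.image g : Set N) := by
    rw [Finset.coe_image, Set.coe_toFinset, ← Set.range_comp]
    congr 1
    funext σ
    exact (xc_pm σ Q).symm
  rw [h1, Nat.card_coe_set_eq, Nat.card_coe_set_eq, Set.ncard_coe_finset]
  have h2 := Finset.card_le_mul_card_image (f := g) (Set.range u).toFinset 2 (by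
    intro x hx
    by_contra hcon
    rw [not_le, Finset.two_lt_card] at hcon
    obtain ⟨z₁, hz₁, z₂, hz₂, z₃, hz₃, h12, h13, h23⟩ := hcon
    rw [Finset.mem_filter, Set.mem_toFinset] at hz₁ hz₂ hz₃
    obtain ⟨⟨σ₁, rfl⟩, e1⟩ := hz₁
    obtain ⟨⟨σ₂, rfl⟩, e2⟩ := hz₂
    obtain ⟨⟨σ₃, rfl⟩, e3⟩ := hz₃
    have key : ∀ σ τ : N ≃ₐ[K] N, g (u σ) = x → g (u τ) = x → u σ ≠ u τ →
        pm (σ : N →ₐ[K] N) Q = -pm (τ : N →ₐ[K] N) Q := by
      intro σ τ hσ hτ hne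
      have h3 : (pm (σ : N →ₐ[K] N) Q).xRep = (pm (τ : N →ₐ[K] N) Q).xRep := by
        rw [xRep_of_ne (pm_ne hQ), xRep_of_ne (pm_ne hQ)]
        have h4 : xc (pm (σ : N →ₐ[K] N) Q) = xc (pm (τ : N →ₐ[K] N) Q) := hσ.trans hτ.symm
        rw [h4]
      rcases WeierstrassCurve.Affine.Point.eq_or_eq_neg_of_xRep_eq_xRep h3 with h5 | h5
      · exact absurd (funext fun _ => h5) hne
      · exact h5
    have a1 := key σ₁ σ₂ e1 e2 h12
    have a2 := key σ₃ σ₂ e3 e2 (Ne.symm h23)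
    exact h13 (funext fun _ => a1.trans a2.symm))
  rw [← Set.ncard_coe_finset (Set.range u).toFinset, Set.coe_toFinset] at h2
  exact h2

end points

end Fin28

open Fin28 in
/-- **The Lehmer bound for elliptic curves from independent conjugates.** -/
theorem fine28 (hGen : GenmStatement) (hFre : FreelStatement) : FineStatement := by
  intro K _ _ a b hΔ hCM p s lam v F hR hlam hq hLat k₀ A' C₀ hA
  set C : ℕ := C₀ + 1 with hC
  have hC1 : 1 ≤ C := by omega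
  set k₁ : ℕ := max k₀ 2 with hk₁
  have hk₁2 : 2 ≤ k₁ := le_max_right _ _
  have hk₁' : (2 : ℝ) ≤ k₁ := by exact_mod_cast hk₁2
  have hA1 : (1 : ℝ) ≤ A' := by exact_mod_cast hA
  have hCr : (1 : ℝ) ≤ C := by exact_mod_cast hC1
  set δ : ℝ := 1 / (8 * k₁ ^ 2 * A' * (4 * C : ℝ) ^ (4 * k₁ * A')) with hδ
  have hδ0 : 0 < δ := by rw [hδ]; positivity
  obtain ⟨c, hc, hmain⟩ := hGen K p s v F hR k₁ δ hδ0
  refine ⟨c, hc, ?_⟩
  intro N _ _ _ _ P hP hy
  have hfd : FiniteDimensional K N := Module.Finite.of_restrictScalars_finite ℚ K N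
  have hF := hR.hom
  have hmor : Mor (p ^ s) F := mor K p s v F hR
  have hP0 : P ≠ 0 := by
    have := hP 1 le_rfl
    rwa [one_smul] at this
  have hlp : ∀ n : ℕ, 1 ≤ lam ^ n := fun n => Nat.one_le_pow _ _ (by omega)
  have hxP : P.xRep = ![xc P, 1] := xRep_of_ne hP0
  have hLP0 : ∀ n : ℕ, lam ^ n • P ≠ 0 := fun n => hP _ (hlp n)
  -- wandering
  have hwand : WandP F (![xc P, 1] : Fin 2 → N) := by
    rw [← hxP]
    rintro ⟨i, j, hij, u, hu, h1⟩
    obtain ⟨c₁, hc₁, e₁⟩ := iter_x hF hLat i P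
    obtain ⟨c₂, hc₂, e₂⟩ := iter_x hF hLat j P
    rw [e₁, e₂, xRep_of_ne (hLP0 i), xRep_of_ne (hLP0 j)] at h1
    have h2 := congrFun h1 1
    have h3 := congrFun h1 0
    simp only [Matrix.cons_val_zero, Matrix.cons_val_one, Pi.smul_apply, smul_eq_mul,
      mul_one] at h2 h3
    rw [h2, mul_assoc] at h3
    have h4 : xc (lam ^ j • P) = xc (lam ^ i • P) :=
      mul_left_cancel₀ hc₁ (mul_left_cancel₀ hu h3)
    have h5 : (lam ^ j • P).xRep = (lam ^ i • P).xRep := by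
      rw [xRep_of_ne (hLP0 i), xRep_of_ne (hLP0 j), h4]
    have hne : lam ^ i ≠ lam ^ j := fun h => hij (Nat.pow_right_injective (by omega) h)
    rcases WeierstrassCurve.Affine.Point.eq_or_eq_neg_of_xRep_eq_xRep h5 with h6 | h6
    · rcases Nat.lt_or_gt_of_ne hne with h | h
      · refine hP (lam ^ j - lam ^ i) (by omega) ?_
        rw [sub_nsmul _ h.le, h6, add_neg_cancel]
      · refine hP (lam ^ i - lam ^ j) (by omega) ?_
        rw [sub_nsmul _ h.le, h6, add_neg_cancel]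
    · refine hP (lam ^ j + lam ^ i) (by have := hlp j; omega) ?_
      rw [add_nsmul, h6, neg_add_cancel]
  have hdgn : ∀ n : ℕ, dg K ((gAct F N)^[n] ![xc P, 1]) = dg K (lam ^ n • P).xRep := by
    intro n
    obtain ⟨c₁, hc₁, e₁⟩ := iter_x hF hLat n P
    rw [← hxP, e₁, dg_smul c₁ hc₁]
  obtain ⟨h, hlim, hle⟩ := hmain N (xc P) hwand (by
    intro n hn hthin
    rw [hdgn] at hn hthin
    rw [hdgn, ← hxP]
    rw [← hxP] at hthin
    have hQ1 : (1 : ℝ) ≤ ((p ^ s : ℕ) : ℝ) ^ n := by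
      apply one_le_pow₀
      exact_mod_cast Nat.one_le_pow _ _ hR.prime.pos
    have hCD : C₀ < dg K P.xRep := by
      have := numC hk₁2 hA hC1 hδ hn hthin hQ1
      omega
    obtain ⟨k, y, hk2, hkk, hyσ, hind, hcard⟩ := hy hCD n
    have hy0 : ∀ i, y i ≠ 0 := by
      intro i
      obtain ⟨σ, hσ⟩ := hyσ i
      rw [← hσ]
      exact pm_ne hP0
    have hit : ∀ m : ℕ, ∃ c₁ : Fin k → N, (∀ i, c₁ i ≠ 0) ∧
        (fun i => (gAct F N)^[m] ![xc (y i), 1]) = fun i => c₁ i • (lam ^ m • y i).xRep := by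
      intro m
      choose c₁ hc₁ e₁ using fun i => iter_x hF hLat m (y i)
      refine ⟨c₁, hc₁, ?_⟩
      funext i
      rw [← xRep_of_ne (hy0 i), e₁]
    refine ⟨k, fun i => xc (y i), hk2, hkk.trans (le_max_left _ _), fun i => ?_, fun _ => ?_,
      fun m _ => ?_⟩
    · obtain ⟨σ, hσ⟩ := hyσ i
      refine ⟨σ, ?_⟩
      beta_reduce
      rw [← hσ, xc_pm]
    · obtain ⟨c₁, hc₁, e₁⟩ := hit n
      rw [e₁, dgk_smul c₁ hc₁]
      have hM1 : 1 ≤ dgk K (fun i => (lam ^ n • y i).xRep) := Module.finrank_pos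
      refine nume hk2 (hkk.trans (le_max_left _ _)) hA hC1 hδ hn hthin hQ1 hM1 ?_
      calc (dgk K fun i => (lam ^ n • y i).xRep) ^ A' * dg K P.xRep
          ≤ (orbp K fun i => lam ^ n • y i) ^ A' * dg K P.xRep :=
            Nat.mul_le_mul_right _ (Nat.pow_le_pow_left (dgk_le _) _)
        _ ≤ C₀ * (orbp K (fun _ : Fin 1 => lam ^ n • P)) ^ (k * A') := hcard
        _ ≤ C * (2 * dg K (lam ^ n • P).xRep) ^ (k * A') :=
            Nat.mul_le_mul (by omega) (Nat.pow_le_pow_left (orbp_one_le (hLP0 n)) _)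
    · obtain ⟨c₁, hc₁, e₁⟩ := hit (n + m)
      rw [e₁]
      refine free_smul c₁ hc₁ _ (hFre K a b hΔ hCM (p ^ s) lam F hlam hmor hLat N k
        (fun i => lam ^ (n + m) • y i) fun γ hγ => ?_)
      have h2 := hind (fun i => γ i * ((lam ^ (n + m) : ℕ) : ℤ)) (by
        rw [← hγ]
        refine Finset.sum_congr rfl fun i _ => ?_
        rw [mul_smul, natCast_zsmul])
      funext i
      have h3 := congrFun h2 i
      have h4 : ((lam ^ (n + m) : ℕ) : ℤ) ≠ 0 := by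
        have := hlp (n + m)
        exact_mod_cast (by omega : lam ^ (n + m) ≠ 0)
      exact (mul_eq_zero.1 h3).resolve_right h4)
  refine ⟨h, ?_, ?_⟩
  · rw [hxP]
    exact hlim
  · rw [hxP]
    exact hle

end Pool.DynLehmer.LE
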