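import Pool.Agent.Lib.MP_2194ec_nt.LE.FineuSh

set_option autoImplicit false
set_option linter.unusedSectionVars false

/-!
# The analytic part for one fixed curve
-/

namespace Pool.DynLehmer.LE
open MvPolynomial NumberField Filter Topology Pool.DynLehmer Pool.DynLehmer.SB Pool.DynLehmer.SP
  Pool.DynLehmer.GS Pool.DynLehmer.LP Pool.DynLehmer.LW
open scoped Classical

/-- The conclusion of row FINEU for one curve and one `F`. -/
def FineFor (K : Type) [Field K] [NumberField K] (a b : K) (q lam : ℕ)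
    (F : Fin 2 → MvPolynomial (Fin 2) K) : Prop :=
  ∀ k₀ A' C : ℕ, 1 ≤ A' → ∃ c : ℝ, 0 < c ∧
    ∀ (N : Type) [Field N] [NumberField N] [Algebra K N] [IsGalois K N] (P : Ept a b N),
      (∀ n : ℕ, 1 ≤ n → n • P ≠ 0) →
      (C < dg K P.xRep → ∀ n : ℕ, ∃ (k : ℕ) (y : Fin k → Ept a b N), 2 ≤ k ∧ k ≤ k₀ ∧
        (∀ i, ∃ σ : N ≃ₐ[K] N, pm (σ : N →ₐ[K] N) P = y i) ∧
        (∀ j : ℕ, FreeT q F (fun i => (lam ^ j • y i).xRep)) ∧
        (orbp K (fun i => lam ^ n • y i)) ^ A' * dg K P.xRep ≤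
          C * (orbp K (fun _ : Fin 1 => lam ^ n • P)) ^ (k * A')) →
      ∃ h : ℝ, HasHt q F P.xRep h ∧ c / (dg K P.xRep : ℝ) ≤ h

theorem fineFor (hFin : FineuStatement) (K : Type) [Field K] [NumberField K] (a b : K)
    (hΔ : 4 * a ^ 3 + 27 * b ^ 2 ≠ 0) (p s lam : ℕ) (v : FinitePlace K)
    (F : Fin 2 → MvPolynomial (Fin 2) K) (hR : HypR p s v F) (hlam : 2 ≤ lam)
    (hq : lam ^ 2 = p ^ s) (hLat : IsLat a b lam F) : FineFor K a b (p ^ s) lam F :=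
  fun k₀ A' C hA => hFin K a b hΔ p s lam v F hR hlam hq hLat k₀ A' C hA

/-- The conjugate forms of forms in the coordinate `x - r`. -/
theorem fineFor_un (hFin : FineuSStatement) (K : Type) [Field K] [NumberField K] (a b r : K)
    (hΔ : 4 * a ^ 3 + 27 * b ^ 2 ≠ 0) (p s lam : ℕ) (v : FinitePlace K)
    (F : Fin 2 → MvPolynomial (Fin 2) K) (hR : HypR p s v F) (hlam : 2 ≤ lam)
    (hq : lam ^ 2 = p ^ s) (hLat : IsLatS a b r lam F) :
    FineFor K a b (p ^ s) lam (FrS.un r F) := by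
  have hq2 : 2 ≤ p ^ s := by
    rw [← hq]
    nlinarith
  intro k₀ A' C hA
  obtain ⟨c, hc, H⟩ := hFin K a b r hΔ p s lam v F hR hlam hq hLat k₀ A' C hA
  refine ⟨c, hc, ?_⟩
  intro N _ _ _ _ P hP hy
  obtain ⟨h, hh, hle⟩ := H N P hP fun hC n => by
    obtain ⟨k, y, h1, h2, h3, h4, h5⟩ := hy hC n
    exact ⟨k, y, h1, h2, h3, fun j => FrS.free_sh r _ (h4 j), h5⟩
  exact ⟨h, (FrS.hasHt_un hq2 r F _ h).2 hh, hle⟩

end Pool.DynLehmer.LE
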