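import Pool.Agent.Lib.MP_2194ec_nt.LE.Dup

set_option autoImplicit false
set_option linter.unusedSectionVars false

/-!
# Freeness of a tuple does not depend on the coordinate of the line
-/

namespace Pool.DynLehmer.LE
open MvPolynomial NumberField Filter Topology Pool.DynLehmer Pool.DynLehmer.SB Pool.DynLehmer.SP
  Pool.DynLehmer.GS Pool.DynLehmer.LP Pool.DynLehmer.LW
open scoped Classical

namespace FrS

variable {K : Type} [Field K] {k : ℕ}

/-- the action of a matrix on the Segre coordinates -/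
noncomputable def SA (A : Fin 2 → Fin 2 → K) (J : Fin k → Fin 2) :
    MvPolynomial (Fin k → Fin 2) K := ∑ J' : Fin k → Fin 2, C (∏ i, A (J i) (J' i)) * X J'

theorem aeval_SA (A : Fin 2 → Fin 2 → K) {R : Type} [CommRing R] [Algebra K R]
    (w : Fin k → Fin 2 → R) (J : Fin k → Fin 2) :
    aeval (fun J' : Fin k → Fin 2 => ∏ i, w i (J' i)) (SA A J) =
      ∏ i, ∑ j, algebraMap K R (A (J i) j) * w i j := by
  rw [SA, map_sum, Finset.prod_univ_sum, Fintype.piFinset_univ]
  refine Finset.sum_congr rfl fun J' _ => ?_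
  rw [map_mul, aeval_C, aeval_X, map_prod, Finset.prod_mul_distrib]

theorem SA_hom (A : Fin 2 → Fin 2 → K) (J : Fin k → Fin 2) : (SA A J).IsHomogeneous 1 := by
  refine IsHomogeneous.sum _ _ _ fun J' _ => ?_
  have h := (isHomogeneous_C (Fin k → Fin 2) (∏ i, A (J i) (J' i))).mul (isHomogeneous_X K J')
  rwa [zero_add] at h

theorem SA_inv {A B : Fin 2 → Fin 2 → K} (h : ∀ i j, ∑ l, A i l * B l j = if i = j then 1 else 0)
    (J : Fin k → Fin 2) : aeval (SA B) (SA A J) = X J := by
  have h1 : ∀ J'' : Fin k → Fin 2, ∑ J' : Fin k → Fin 2, (∏ i, A (J i) (J' i)) *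
      ∏ i, B (J' i) (J'' i) = if J = J'' then 1 else 0 := by
    intro J''
    have h2 : ∏ i, ∑ l, A (J i) l * B l (J'' i) = ∑ J' : Fin k → Fin 2, (∏ i, A (J i) (J' i)) *
        ∏ i, B (J' i) (J'' i) := by
      rw [Finset.prod_univ_sum, Fintype.piFinset_univ]
      refine Finset.sum_congr rfl fun J' _ => ?_
      rw [Finset.prod_mul_distrib]
    rw [← h2]
    by_cases hJ : J = J''
    · rw [if_pos hJ]
      refine Finset.prod_eq_one fun i _ => ?_
      rw [h, if_pos (congrFun hJ i)]
    · rw [if_neg hJ]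
      obtain ⟨i, hi⟩ := Function.ne_iff.1 hJ
      exact Finset.prod_eq_zero (Finset.mem_univ i) (by rw [h, if_neg hi])
  rw [SA, map_sum]
  have h3 : ∀ J' : Fin k → Fin 2, aeval (SA B) (C (∏ i, A (J i) (J' i)) * X J') =
      ∑ J'' : Fin k → Fin 2, C ((∏ i, A (J i) (J' i)) * ∏ i, B (J' i) (J'' i)) * X J'' := by
    intro J'
    rw [map_mul, aeval_C, aeval_X, algebraMap_eq, SA, Finset.mul_sum]
    refine Finset.sum_congr rfl fun J'' _ => ?_
    rw [C_mul, mul_assoc]
  rw [Finset.sum_congr rfl fun J' _ => h3 J', Finset.sum_comm]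
  have h4 : ∀ J'' : Fin k → Fin 2, (∑ J' : Fin k → Fin 2, C ((∏ i, A (J i) (J' i)) *
      ∏ i, B (J' i) (J'' i)) * X J'' : MvPolynomial (Fin k → Fin 2) K) =
        if J = J'' then X J'' else 0 := by
    intro J''
    rw [← Finset.sum_mul, ← map_sum, h1]
    split_ifs
    · rw [map_one, one_mul]
    · rw [map_zero, zero_mul]
  rw [Finset.sum_congr rfl fun J'' _ => h4 J'', Finset.sum_ite_eq, if_pos (Finset.mem_univ _)]

/-- the action of a matrix on the pairs of variables -/
noncomputable def LA (A : Fin 2 → Fin 2 → K) (a : Fin k × Fin 2) : MvPolynomial (Fin k × Fin 2) K :=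
  ∑ j, C (A a.2 j) * X (a.1, j)

/-- the action of a matrix on a pair of variables -/
noncomputable def la (A : Fin 2 → Fin 2 → K) (a : Fin 2) : MvPolynomial (Fin 2) K :=
  ∑ j, C (A a j) * X j

theorem seg_SA (A : Fin 2 → Fin 2 → K) (f : MvPolynomial (Fin k → Fin 2) K) :
    bind₁ (segX K k) (aeval (SA A) f) = bind₁ (LA A) (bind₁ (segX K k) f) := by
  have h : (bind₁ (segX K k)).comp (aeval (SA A)) =
      (bind₁ (LA A)).comp (bind₁ (segX K k) : MvPolynomial (Fin k → Fin 2) K →ₐ[K] _) := by
    refine algHom_ext fun J => ?_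
    rw [AlgHom.comp_apply, AlgHom.comp_apply, aeval_X, bind₁_X_right]
    change aeval (fun J' : Fin k → Fin 2 => ∏ i, X (i, J' i)) (SA A J) = aeval (LA A) (∏ i, X (i, J i))
    rw [aeval_SA A (fun i j => (X (i, j) : MvPolynomial (Fin k × Fin 2) K)), map_prod]
    refine Finset.prod_congr rfl fun i _ => ?_
    rw [aeval_X]
    rfl
  exact DFunLike.congr_fun h f

/-- homogeneous components and linear substitutions -/
theorem comp_lin {σ τ : Type} (Y : σ → MvPolynomial τ K) (hY : ∀ i, (Y i).IsHomogeneous 1)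
    (p : MvPolynomial σ K) (n : ℕ) :
    homogeneousComponent n (aeval Y p) = aeval Y (homogeneousComponent n p) := by
  have hc : ∀ i, (aeval Y (homogeneousComponent i p)).IsHomogeneous i := by
    intro i
    have h := (homogeneousComponent_isHomogeneous i p).aeval Y hY
    rwa [one_mul] at h
  conv_lhs => rw [← sum_homogeneousComponent p]
  rw [map_sum, map_sum]
  by_cases hn : n ∈ Finset.range (p.totalDegree + 1)
  · rw [Finset.sum_eq_single n]
    · rw [homogeneousComponent_of_mem (hc n), if_pos rfl]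
    · intro i _ hi
      rw [homogeneousComponent_of_mem (hc i), if_neg (Ne.symm hi)]
    · exact fun h => absurd hn h
  · rw [Finset.sum_eq_zero]
    · rw [homogeneousComponent_eq_zero n p (by rw [Finset.mem_range] at hn; omega), map_zero]
    · intro i hi
      rw [homogeneousComponent_of_mem (hc i), if_neg]
      rintro rfl
      exact hn hi

/-- the conjugate of a pair of forms -/
noncomputable def cj (A B : Fin 2 → Fin 2 → K) (F : Fin 2 → MvPolynomial (Fin 2) K) (a : Fin 2) :
    MvPolynomial (Fin 2) K := ∑ j, C (B a j) * bind₁ (la A) (F j)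

/-- freeness and linear changes of the coordinates -/
theorem free_cj {q : ℕ} {F : Fin 2 → MvPolynomial (Fin 2) K} {A B : Fin 2 → Fin 2 → K}
    (hAB : ∀ i j, ∑ l, A i l * B l j = if i = j then 1 else 0)
    (hBA : ∀ i j, ∑ l, B i l * A l j = if i = j then 1 else 0) {N : Type} [Field N] [Algebra K N]
    (z : Fin k → Fin 2 → N) (h : FreeT q (cj A B F) z) :
    FreeT q F (fun i j => ∑ l, algebraMap K N (A j l) * z i l) := by
  intro Fz hz hFz I hI hH m hm hinv hseg hrel hvan
  have hST : ∀ f : MvPolynomial (Fin k → Fin 2) K, aeval (SA B) (aeval (SA A) f) = f := by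
    intro f
    have h1 : (aeval (SA B)).comp (aeval (SA A)) =
        AlgHom.id K (MvPolynomial (Fin k → Fin 2) K) := by
      refine algHom_ext fun J => ?_
      rw [AlgHom.comp_apply, aeval_X, AlgHom.id_apply, SA_inv hAB]
    exact DFunLike.congr_fun h1 f
  set Fz' : (Fin k → Fin 2) → MvPolynomial (Fin k → Fin 2) K := fun J =>
    aeval (SA A) (bind₁ Fz (SA B J)) with hFz'
  have hb : ∀ f, bind₁ Fz' f = aeval (SA A) (bind₁ Fz (aeval (SA B) f)) := by
    intro f
    have h1 : (bind₁ Fz' : MvPolynomial (Fin k → Fin 2) K →ₐ[K] _) =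
        ((aeval (SA A)).comp (bind₁ Fz)).comp (aeval (SA B)) := by
      refine algHom_ext fun J => ?_
      rw [AlgHom.comp_apply, AlgHom.comp_apply, aeval_X, bind₁_X_right]
    exact DFunLike.congr_fun h1 f
  have hbm : ∀ (m : ℕ) (f : MvPolynomial (Fin k → Fin 2) K),
      aeval (SA B) ((bind₁ Fz' : MvPolynomial (Fin k → Fin 2) K →ₐ[K]
        MvPolynomial (Fin k → Fin 2) K)^[m] f) =
      (bind₁ Fz : MvPolynomial (Fin k → Fin 2) K →ₐ[K]
        MvPolynomial (Fin k → Fin 2) K)^[m] (aeval (SA B) f) := by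
    intro m
    induction m with
    | zero => intro f; rfl
    | succ m ih =>
      intro f
      rw [Function.iterate_succ_apply, Function.iterate_succ_apply, ih, hb, hST]
  set I' : Ideal (MvPolynomial (Fin k → Fin 2) K) :=
    I.comap (aeval (SA B) : MvPolynomial (Fin k → Fin 2) K →ₐ[K] _) with hI'
  have hmem : ∀ f, f ∈ I' ↔ aeval (SA B) f ∈ I := fun f => Ideal.mem_comap
  refine h Fz' ?_ ?_ I' ?_ ?_ m hm ?_ ?_ ?_ ?_
  · intro J
    have h1 := ((SA_hom B J).aeval Fz hz).aeval (SA A) (SA_hom A)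
    rwa [mul_one, one_mul] at h1
  · intro J
    have h1 : ∀ f : MvPolynomial (Fin k → Fin 2) K, bind₁ (segX K k) (bind₁ Fz f) =
        bind₁ (FX F k) (bind₁ (segX K k) f) := by
      intro f
      have h2 : (bind₁ (segX K k)).comp (bind₁ Fz) =
          (bind₁ (FX F k)).comp (bind₁ (segX K k) : MvPolynomial (Fin k → Fin 2) K →ₐ[K] _) := by
        refine algHom_ext fun J' => ?_
        rw [AlgHom.comp_apply, AlgHom.comp_apply, bind₁_X_right, bind₁_X_right, hFz]
      exact DFunLike.congr_fun h2 f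
    have h3 : SA B J = aeval (SA B) (X J : MvPolynomial (Fin k → Fin 2) K) := (aeval_X _ _).symm
    rw [hFz']
    beta_reduce
    rw [seg_SA, h1, h3, seg_SA, bind₁_X_right]
    have h4 : ((bind₁ (LA A)).comp (bind₁ (FX F k))).comp (bind₁ (LA B)) =
        (bind₁ (FX (cj A B F) k) : MvPolynomial (Fin k × Fin 2) K →ₐ[K] _) := by
      refine algHom_ext fun a => ?_
      rw [AlgHom.comp_apply, AlgHom.comp_apply, bind₁_X_right, bind₁_X_right, LA, map_sum, map_sum,
        FX, cj, map_sum]
      refine Finset.sum_congr rfl fun j _ => ?_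
      rw [map_mul, map_mul, map_mul, bind₁_X_right, bind₁_C_right, bind₁_C_right, rename_C, FX,
        bind₁_rename, rename_bind₁]
      congr 2
      refine congrArg (fun g => (bind₁ g : MvPolynomial (Fin 2) K →ₐ[K] _)) ?_
      funext l
      simp only [Function.comp_apply, LA, la, map_sum, map_mul, rename_C, rename_X]
    exact DFunLike.congr_fun h4 _
  · exact Ideal.comap_isPrime _ _
  · intro f hf n
    rw [hmem] at hf ⊢
    rw [← comp_lin (SA B) (SA_hom B)]
    exact hH _ hf n
  · intro f
    rw [hmem, hmem, hbm]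
    exact hinv _
  · intro f hf
    rw [hmem]
    refine hseg _ ?_
    rw [seg_SA, hf, map_zero]
  · obtain ⟨f, hf, hf0⟩ := hrel
    refine ⟨aeval (SA A) f, ?_, ?_⟩
    · rw [hmem, hST]
      exact hf
    · intro h0
      apply hf0
      have h1 := seg_SA B (aeval (SA A) f)
      rw [hST, h0, map_zero] at h1
      exact h1
  · intro f n hf hfI
    rw [hmem] at hfI
    have h1 := hvan (aeval (SA B) f) n (by
      have h2 := hf.aeval (SA B) (SA_hom B)
      rwa [one_mul] at h2) hfI
    have h3 : (aeval (segk fun i j => ∑ l, algebraMap K N (A j l) * z i l)).comp (aeval (SA B)) =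
        (aeval (segk z) : MvPolynomial (Fin k → Fin 2) K →ₐ[K] N) := by
      refine algHom_ext fun J => ?_
      rw [AlgHom.comp_apply, aeval_X, aeval_X]
      have h4 := aeval_SA B (fun i j => ∑ l, algebraMap K N (A j l) * z i l) J
      refine h4.trans ?_
      unfold segk
      refine Finset.prod_congr rfl fun i _ => ?_
      have h5 : ∀ j, algebraMap K N (B (J i) j) * ∑ l, algebraMap K N (A j l) * z i l =
          ∑ l, algebraMap K N (B (J i) j * A j l) * z i l := by
        intro j
        rw [Finset.mul_sum]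
        refine Finset.sum_congr rfl fun l _ => ?_
        rw [map_mul, mul_assoc]
      rw [Finset.sum_congr rfl fun j _ => h5 j, Finset.sum_comm]
      have h6 : ∀ l, ∑ j, algebraMap K N (B (J i) j * A j l) * z i l =
          if J i = l then z i l else 0 := by
        intro l
        rw [← Finset.sum_mul, ← map_sum, hBA]
        split_ifs
        · rw [map_one, one_mul]
        · rw [map_zero, zero_mul]
      rw [Finset.sum_congr rfl fun l _ => h6 l, Finset.sum_ite_eq, if_pos (Finset.mem_univ _)]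
    have h7 := DFunLike.congr_fun h3 f
    rw [← h7]
    exact h1

theorem gAct_cj (A B : Fin 2 → Fin 2 → K) (F : Fin 2 → MvPolynomial (Fin 2) K) (M : Type)
    [Field M] [Algebra K M] (y : Fin 2 → M) (a : Fin 2) : gAct (cj A B F) M y a =
      ∑ j, algebraMap K M (B a j) * gAct F M (fun l => ∑ t, algebraMap K M (A l t) * y t) j := by
  unfold gAct cj
  rw [map_sum]
  refine Finset.sum_congr rfl fun j _ => ?_
  rw [map_mul, aeval_C, aeval_bind₁]
  congr 2
  refine congrArg (fun g => (aeval g : MvPolynomial (Fin 2) K →ₐ[K] M)) ?_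
  funext l
  simp only [la, map_sum, map_mul, aeval_C, aeval_X]

/-- the matrix of the translation -/
def mt (r : K) : Fin 2 → Fin 2 → K := ![![1, -r], ![0, 1]]

theorem mt_mul {r s : K} (h : r + s = 0) (i j : Fin 2) :
    ∑ l, mt r i l * mt s l j = if i = j then 1 else 0 := by
  have h' : -s + -r = 0 := by linear_combination -h
  rw [Fin.sum_univ_two]
  fin_cases i <;> fin_cases j <;> simp [mt, h']

theorem sh_mt (r : K) {M : Type} [Field M] [Algebra K M] (y : Fin 2 → M) :
    (fun l => ∑ t, algebraMap K M (mt r l t) * y t) = sh (algebraMap K M r) y := by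
  funext l
  rw [Fin.sum_univ_two]
  fin_cases l
  · simp [mt, sh]
    ring
  · simp [mt, sh]

/-- the forms of the coordinate `x` which belong to the forms `F` of the coordinate `x - r` -/
noncomputable def un (r : K) (F : Fin 2 → MvPolynomial (Fin 2) K) : Fin 2 → MvPolynomial (Fin 2) K :=
  cj (mt r) (mt (-r)) F

theorem gAct_un (r : K) (F : Fin 2 → MvPolynomial (Fin 2) K) (M : Type) [Field M] [Algebra K M]
    (y : Fin 2 → M) : gAct (un r F) M y =
      sh (algebraMap K M (-r)) (gAct F M (sh (algebraMap K M r) y)) := by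
  rw [← sh_mt, ← sh_mt]
  funext a
  exact gAct_cj _ _ _ _ _ _

theorem sh_sh {M : Type} [Field M] (r : M) (y : Fin 2 → M) : sh (-r) (sh r y) = y := by
  funext l
  fin_cases l
  · simp [sh]
  · simp [sh]

theorem sh_sh' {M : Type} [Field M] (r : M) (y : Fin 2 → M) : sh r (sh (-r) y) = y := by
  funext l
  fin_cases l
  · simp [sh]
  · simp [sh]

theorem sh_smul {M : Type} [Field M] (r c : M) (y : Fin 2 → M) : sh r (c • y) = c • sh r y := by
  funext l
  fin_cases l
  · simp [sh]
    ring
  · simp [sh]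

theorem sh_ne0 {M : Type} [Field M] (r : M) {y : Fin 2 → M} (h : y ≠ 0) : sh r y ≠ 0 := by
  intro h0
  apply h
  have h1 := sh_sh r y
  rw [h0] at h1
  rw [← h1]
  funext l
  fin_cases l <;> simp [sh]

theorem free_sh {q : ℕ} (r : K) {F : Fin 2 → MvPolynomial (Fin 2) K} {N : Type} [Field N]
    [Algebra K N] (z : Fin k → Fin 2 → N) (h : FreeT q (un r F) z) :
    FreeT q F (fun i => sh (algebraMap K N r) (z i)) := by
  have h1 := free_cj (mt_mul (add_neg_cancel r)) (mt_mul (neg_add_cancel r)) z h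
  have h2 : (fun i => sh (algebraMap K N r) (z i)) =
      fun (i : Fin k) (j : Fin 2) => ∑ l, algebraMap K N (mt r j l) * z i l := by
    funext i
    exact (sh_mt r (z i)).symm
  rw [h2]
  exact h1

theorem isLat_un {a b r : K} {lam : ℕ} {F : Fin 2 → MvPolynomial (Fin 2) K}
    (h : IsLatS a b r lam F) : IsLat a b lam (un r F) := by
  intro M _ _ P
  obtain ⟨c, hc, h1⟩ := h M P
  refine ⟨c, hc, ?_⟩
  rw [gAct_un, h1, sh_smul, map_neg, sh_sh]

theorem mor_un {q : ℕ} (r : K) {F : Fin 2 → MvPolynomial (Fin 2) K} (h : Mor q F) :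
    Mor q (un r F) := by
  refine ⟨fun i => ?_, fun N _ _ P hP => ?_⟩
  · refine IsHomogeneous.sum _ _ _ fun j _ => ?_
    have hl : ∀ l, (la (mt r) l).IsHomogeneous 1 := by
      intro l
      refine IsHomogeneous.sum _ _ _ fun t _ => ?_
      have h1 := (isHomogeneous_C (Fin 2) (mt r l t)).mul (isHomogeneous_X K t)
      rwa [zero_add] at h1
    have h1 := (h.hom j).aeval (la (mt r)) hl
    rw [one_mul] at h1
    have h2 := (isHomogeneous_C (Fin 2) (mt (-r) i j)).mul h1
    rw [zero_add] at h2
    exact h2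
  · rw [gAct_un]
    exact sh_ne0 _ (h.ne N _ (sh_ne0 _ hP))

theorem iter_un (r : K) (F : Fin 2 → MvPolynomial (Fin 2) K) (M : Type) [Field M] [Algebra K M]
    (n : ℕ) (y : Fin 2 → M) : (gAct (un r F) M)^[n] y =
      sh (algebraMap K M (-r)) ((gAct F M)^[n] (sh (algebraMap K M r) y)) := by
  induction n generalizing y with
  | zero =>
    rw [map_neg]
    exact (sh_sh _ y).symm
  | succ n ih =>
    rw [Function.iterate_succ_apply, Function.iterate_succ_apply, ih, gAct_un, map_neg, sh_sh']

/-- the height and the translation -/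
theorem ht_sh {N : Type} [Field N] [NumberField N] (s : N) :
    ∃ C : ℝ, ∀ y : Fin 2 → N, |Height.logHeight (sh s y) - Height.logHeight y| ≤ C := by
  have key : ∀ s : N, ∃ C : ℝ, ∀ y : Fin 2 → N,
      Height.logHeight (sh s y) ≤ C + Height.logHeight y := by
    intro s
    refine ⟨Height.totalWeight N * Real.log (Nat.card (Fin 2)) +
      Height.logHeight (fun p : Fin 2 × Fin 2 => mt s p.1 p.2), fun y => ?_⟩
    have h := Height.logHeight_linearMap_apply_le (fun p : Fin 2 × Fin 2 => mt s p.1 p.2) y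
    have h1 : (fun j => ∑ i, mt s j i * y i) = sh s y := sh_mt (K := N) s y
    rw [← h1]
    exact h
  obtain ⟨C, hC⟩ := key s
  obtain ⟨C', hC'⟩ := key (-s)
  refine ⟨max C C', fun y => ?_⟩
  rw [abs_le]
  have h1 := hC y
  have h2 := hC' (sh s y)
  rw [sh_sh] at h2
  constructor
  · linarith [le_max_right C C']
  · linarith [le_max_left C C']

/-- The canonical height of the conjugate map. -/
theorem hasHt_un {K : Type} [Field K] {q : ℕ} (hq : 2 ≤ q) (r : K)
    (F : Fin 2 → MvPolynomial (Fin 2) K) {N : Type} [Field N] [NumberField N] [Algebra K N]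
    (P : Fin 2 → N) (h : ℝ) :
    HasHt q (un r F) P h ↔ HasHt q F (sh (algebraMap K N r) P) h := by
  obtain ⟨C, hC⟩ := ht_sh (algebraMap K N (-r))
  have hN : (0 : ℝ) < (Module.finrank ℚ N : ℝ) := by exact_mod_cast Module.finrank_pos
  have hq1 : (1 : ℝ) < q := by exact_mod_cast hq
  have h0 : Tendsto (fun n : ℕ => (C / (Module.finrank ℚ N : ℝ)) * ((q : ℝ)⁻¹) ^ n) atTop
      (𝓝 0) := by
    have := (tendsto_pow_atTop_nhds_zero_of_lt_one (inv_nonneg.2 (by linarith : (0 : ℝ) ≤ q))
      (inv_lt_one_of_one_lt₀ hq1)).const_mul (C / (Module.finrank ℚ N : ℝ))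
    rwa [mul_zero] at this
  have hz : Tendsto (fun n : ℕ => Height.logHeight ((gAct (un r F) N)^[n] P) /
      (Module.finrank ℚ N : ℝ) / (q : ℝ) ^ n -
      Height.logHeight ((gAct F N)^[n] (sh (algebraMap K N r) P)) /
      (Module.finrank ℚ N : ℝ) / (q : ℝ) ^ n) atTop (𝓝 0) := by
    refine squeeze_zero_norm (fun n => ?_) h0
    have hqn : (0 : ℝ) < (q : ℝ) ^ n := by positivity
    have e := hC ((gAct F N)^[n] (sh (algebraMap K N r) P))
    rw [← iter_un] at e
    rw [← sub_div, ← sub_div, div_div, Real.norm_eq_abs, abs_div, abs_of_pos (mul_pos hN hqn)]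
    have e3 : (C / (Module.finrank ℚ N : ℝ)) * ((q : ℝ)⁻¹) ^ n =
        C / ((Module.finrank ℚ N : ℝ) * (q : ℝ) ^ n) := by
      rw [inv_pow]
      field_simp
    rw [e3]
    exact div_le_div_of_nonneg_right e (mul_pos hN hqn).le
  constructor
  · intro h1
    have h2 := Tendsto.sub h1 hz
    rw [sub_zero] at h2
    refine h2.congr fun n => ?_
    ring
  · intro h1
    have h2 := Tendsto.add h1 hz
    rw [add_zero] at h2
    refine h2.congr fun n => ?_
    ring

end FrS

end Pool.DynLehmer.LE
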