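import Pool.Agent.Lib.MP_2194ec_nt.LE.DefsU
import Pool.Agent.Lib.MP_2194ec_nt.LE.FineSh
import Pool.Agent.Lib.MP_2194ec_nt.LE.FrSh

set_option autoImplicit false
set_option linter.unusedSectionVars false

/-!
# The Lehmer bound for elliptic curves from free conjugates, in the coordinate `x - r`
-/

namespace Pool.DynLehmer.LE
open MvPolynomial NumberField Filter Topology Pool.DynLehmer Pool.DynLehmer.SB Pool.DynLehmer.SP
  Pool.DynLehmer.GS Pool.DynLehmer.LP Pool.DynLehmer.LW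
open scoped Classical

/-- Row FREELU in the coordinate `x - r`. -/
def FreeluSStatement : Prop :=
  ∀ (K : Type) [Field K] [CharZero K] (a b r : K), 4 * a ^ 3 + 27 * b ^ 2 ≠ 0 →
    ∀ (q lam : ℕ) (F : Fin 2 → MvPolynomial (Fin 2) K), 2 ≤ lam → Mor q F → IsLatS a b r lam F →
    ∀ (N : Type) [Field N] [Algebra K N] (m : ℕ) (y : Fin m → Ept a b N),
      (∀ γ : Fin m → ℤ, ∑ i, γ i • y i = 0 → γ = 0) →
      ∃ (k : ℕ) (ι : Fin k → Fin m), Function.Injective ι ∧ m ≤ 2 * k ∧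
        ∀ j : ℕ, FreeT q F (fun i => sh (algebraMap K N r) (lam ^ j • y (ι i)).xRep)

theorem freeluS (h : FreeluStatement) : FreeluSStatement := by
  intro K _ _ a b r hΔ q lam F hlam hM hF N _ _ m y hy
  obtain ⟨k, ι, h1, h2, h3⟩ := h K a b hΔ q lam (FrS.un r F) hlam (FrS.mor_un r hM)
    (FrS.isLat_un hF) N m y hy
  exact ⟨k, ι, h1, h2, fun j => FrS.free_sh r _ (h3 j)⟩

/-- Row FINEU in the coordinate `x - r`. -/
def FineuSStatement : Prop :=
  ∀ (K : Type) [Field K] [NumberField K] (a b r : K), 4 * a ^ 3 + 27 * b ^ 2 ≠ 0 →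
    ∀ (p s lam : ℕ) (v : FinitePlace K) (F : Fin 2 → MvPolynomial (Fin 2) K), HypR p s v F →
    2 ≤ lam → lam ^ 2 = p ^ s → IsLatS a b r lam F →
    ∀ k₀ A' C : ℕ, 1 ≤ A' → ∃ c : ℝ, 0 < c ∧
    ∀ (N : Type) [Field N] [NumberField N] [Algebra K N] [IsGalois K N] (P : Ept a b N),
      (∀ n : ℕ, 1 ≤ n → n • P ≠ 0) →
      (C < dg K P.xRep → ∀ n : ℕ, ∃ (k : ℕ) (y : Fin k → Ept a b N), 2 ≤ k ∧ k ≤ k₀ ∧
        (∀ i, ∃ σ : N ≃ₐ[K] N, pm (σ : N →ₐ[K] N) P = y i) ∧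
        (∀ j : ℕ, FreeT (p ^ s) F (fun i => sh (algebraMap K N r) (lam ^ j • y i).xRep)) ∧
        (orbp K (fun i => lam ^ n • y i)) ^ A' * dg K P.xRep ≤
          C * (orbp K (fun _ : Fin 1 => lam ^ n • P)) ^ (k * A')) →
      ∃ h : ℝ, HasHt (p ^ s) F (sh (algebraMap K N r) P.xRep) h ∧ c / (dg K P.xRep : ℝ) ≤ h

open Fin28 FinS in
/-- **The Lehmer bound for elliptic curves from free conjugates**, in the coordinate
`x - r`. -/
theorem fineuS (hGen : GenmStatement) : FineuSStatement := by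
  intro K _ _ a b r hΔ p s lam v F hR hlam hq hLat k₀ A' C₀ hA
  set C : ℕ := C₀ + 1 with hC
  have hC1 : 1 ≤ C := by omega
  set k₁ : ℕ := max k₀ 2 with hk₁
  have hk₁2 : 2 ≤ k₁ := le_max_right _ _
  have hk₁' : (2 : ℝ) ≤ k₁ := by exact_mod_cast hk₁2
  have hA1 : (1 : ℝ) ≤ A' := by exact_mod_cast hA
  have hCr : (1 : ℝ) ≤ C := by exact_mod_cast hC1
  set δ : ℝ := 1 / (8 * k₁ ^ 2 * A' * (4 * C : ℝ) ^ (4 * k₁ * A')) with hδ
  have hδ0 : 0 < δ := by rw [hδ]; positivity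
  obtain ⟨c, hc, hmain⟩ := hGen K p s v F hR k₁ δ hδ0
  refine ⟨c, hc, ?_⟩
  intro N _ _ _ _ P hP hy
  have hfd : FiniteDimensional K N := Module.Finite.of_restrictScalars_finite ℚ K N
  have hmor : Mor (p ^ s) F := mor K p s v F hR
  have hP0 : P ≠ 0 := by
    have := hP 1 le_rfl
    rwa [one_smul] at this
  have hlp : ∀ n : ℕ, 1 ≤ lam ^ n := fun n => Nat.one_le_pow _ _ (by omega)
  have hxP : sh (algebraMap K N r) P.xRep = ![xc P - algebraMap K N r, 1] := FlS.xRep_of_ne _ hP0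
  have hLP0 : ∀ n : ℕ, lam ^ n • P ≠ 0 := fun n => hP _ (hlp n)
  have hdP : dg K (sh (algebraMap K N r) P.xRep) = dg K P.xRep := dg_sh r hP0
  -- wandering
  have hwand : WandP F (![xc P - algebraMap K N r, 1] : Fin 2 → N) := by
    rw [← hxP]
    rintro ⟨i, j, hij, u, hu, h1⟩
    obtain ⟨c₁, hc₁, e₁⟩ := FlS.iter_xRep hmor hLat i P
    obtain ⟨c₂, hc₂, e₂⟩ := FlS.iter_xRep hmor hLat j P
    rw [e₁, e₂, FlS.xRep_of_ne _ (hLP0 i), FlS.xRep_of_ne _ (hLP0 j)] at h1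
    have h2 := congrFun h1 1
    have h3 := congrFun h1 0
    simp only [Matrix.cons_val_zero, Matrix.cons_val_one, Pi.smul_apply, smul_eq_mul,
      mul_one] at h2 h3
    rw [h2, mul_assoc] at h3
    have h4 : xc (lam ^ j • P) = xc (lam ^ i • P) :=
      sub_left_injective (mul_left_cancel₀ hc₁ (mul_left_cancel₀ hu h3))
    have h5 : (lam ^ j • P).xRep = (lam ^ i • P).xRep := by
      rw [Fin28.xRep_of_ne (hLP0 i), Fin28.xRep_of_ne (hLP0 j), h4]
    have hne : lam ^ i ≠ lam ^ j := fun h => hij (Nat.pow_right_injective (by omega) h)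
    rcases WeierstrassCurve.Affine.Point.eq_or_eq_neg_of_xRep_eq_xRep h5 with h6 | h6
    · rcases Nat.lt_or_gt_of_ne hne with h | h
      · refine hP (lam ^ j - lam ^ i) (by omega) ?_
        rw [sub_nsmul _ h.le, h6, add_neg_cancel]
      · refine hP (lam ^ i - lam ^ j) (by omega) ?_
        rw [sub_nsmul _ h.le, h6, add_neg_cancel]
    · refine hP (lam ^ j + lam ^ i) (by have := hlp j; omega) ?_
      rw [add_nsmul, h6, neg_add_cancel]
  have hdgn : ∀ n : ℕ, dg K ((gAct F N)^[n] ![xc P - algebraMap K N r, 1]) =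
      dg K (lam ^ n • P).xRep := by
    intro n
    obtain ⟨c₁, hc₁, e₁⟩ := FlS.iter_xRep hmor hLat n P
    rw [← hxP, e₁, dg_smul c₁ hc₁, dg_sh r (hLP0 n)]
  obtain ⟨h, hlim, hle⟩ := hmain N (xc P - algebraMap K N r) hwand (by
    intro n hn hthin
    rw [hdgn] at hn hthin
    rw [hdgn, ← hxP, hdP]
    rw [← hxP, hdP] at hthin
    have hQ1 : (1 : ℝ) ≤ ((p ^ s : ℕ) : ℝ) ^ n := by
      apply one_le_pow₀
      exact_mod_cast Nat.one_le_pow _ _ hR.prime.pos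
    have hCD : C₀ < dg K P.xRep := by
      have := numC hk₁2 hA hC1 hδ hn hthin hQ1
      omega
    obtain ⟨k, y, hk2, hkk, hyσ, hfree, hcard⟩ := hy hCD n
    have hly0 : ∀ (m : ℕ) (i : Fin k), lam ^ m • y i ≠ 0 := by
      intro m i
      obtain ⟨σ, hσ⟩ := hyσ i
      rw [← hσ, ← map_nsmul]
      exact pm_ne (hLP0 m)
    have hy0 : ∀ i, y i ≠ 0 := by
      intro i
      have := hly0 0 i
      rwa [pow_zero, one_smul] at this
    have hit : ∀ m : ℕ, ∃ c₁ : Fin k → N, (∀ i, c₁ i ≠ 0) ∧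
        (fun i => (gAct F N)^[m] ![xc (y i) - algebraMap K N r, 1]) =
          fun i => c₁ i • sh (algebraMap K N r) (lam ^ m • y i).xRep := by
      intro m
      choose c₁ hc₁ e₁ using fun i => FlS.iter_xRep hmor hLat m (y i)
      refine ⟨c₁, hc₁, ?_⟩
      funext i
      rw [← FlS.xRep_of_ne _ (hy0 i), e₁]
    refine ⟨k, fun i => xc (y i) - algebraMap K N r, hk2, hkk.trans (le_max_left _ _),
      fun i => ?_, fun _ => ?_, fun m _ => ?_⟩
    · obtain ⟨σ, hσ⟩ := hyσ i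
      refine ⟨σ, ?_⟩
      beta_reduce
      rw [← hσ, xc_pm, map_sub, σ.commutes]
    · obtain ⟨c₁, hc₁, e₁⟩ := hit n
      rw [e₁, dgk_smul c₁ hc₁, dgk_sh r (hly0 n)]
      have hM1 : 1 ≤ dgk K (fun i => (lam ^ n • y i).xRep) := Module.finrank_pos
      refine nume hk2 (hkk.trans (le_max_left _ _)) hA hC1 hδ hn hthin hQ1 hM1 ?_
      calc (dgk K fun i => (lam ^ n • y i).xRep) ^ A' * dg K P.xRep
          ≤ (orbp K fun i => lam ^ n • y i) ^ A' * dg K P.xRep :=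
            Nat.mul_le_mul_right _ (Nat.pow_le_pow_left (dgk_le _) _)
        _ ≤ C₀ * (orbp K (fun _ : Fin 1 => lam ^ n • P)) ^ (k * A') := hcard
        _ ≤ C * (2 * dg K (lam ^ n • P).xRep) ^ (k * A') :=
            Nat.mul_le_mul (by omega) (Nat.pow_le_pow_left (orbp_one_le (hLP0 n)) _)
    · obtain ⟨c₁, hc₁, e₁⟩ := hit (n + m)
      rw [e₁]
      exact free_smul c₁ hc₁ _ (hfree (n + m)))
  refine ⟨h, ?_, ?_⟩
  · rw [hxP]
    exact hlim
  · rw [← hxP, hdP] at hle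
    exact hle

end Pool.DynLehmer.LE
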