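import Pool.Agent.Lib.MP_2194ec_nt.LE.Dom

set_option autoImplicit false
set_option linter.unusedSectionVars false

/-!
# Row FREELU, part A: a common time and a common period of the relations
-/

namespace Pool.DynLehmer.LE
open MvPolynomial NumberField Filter Topology Pool.DynLehmer Pool.DynLehmer.SB Pool.DynLehmer.SP
  Pool.DynLehmer.GS Pool.DynLehmer.LP Pool.DynLehmer.LW Pool.DynLehmer.LW.Cl
open scoped Classical

namespace Dm
open Fl

variable {K : Type} [Field K] {a b : K}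

/-- the degree of a Lattes map is positive if there is a point which is not killed by `lam` -/
theorem deg_pos {q lam : ℕ} {F : Fin 2 → MvPolynomial (Fin 2) K} (hF : Mor q F)
    (hl : IsLat a b lam F) {N : Type} [Field N] [Algebra K N] {P : Ept a b N}
    (hP : lam • P ≠ 0) : 1 ≤ q := by
  by_contra hq
  have hq0 : q = 0 := by omega
  subst hq0
  have hc : ∀ j, ∃ c : K, F j = C c := fun j =>
    ⟨_, ((totalDegree_eq_zero_iff_eq_C).1 (Nat.le_zero.1 (hF.hom j).totalDegree_le))⟩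
  obtain ⟨c, hc⟩ := hc 1
  obtain ⟨c1, hc1, h1⟩ := hl N P
  obtain ⟨c2, -, h2⟩ := hl N 0
  have h3 : gAct F N P.xRep 1 = gAct F N (0 : Ept a b N).xRep 1 := by
    show aeval _ (F 1) = aeval _ (F 1)
    rw [hc, aeval_C, aeval_C]
  rw [h1, h2] at h3
  rw [xRep_of_ne hP, smul_zero] at h3
  have h4 : c1 * 1 = c2 * 0 := h3
  rw [mul_one, mul_zero] at h4
  exact hc1 h4

/-- the relation of a tuple which is not free -/
theorem exists_relQ {q lam : ℕ} {F : Fin 2 → MvPolynomial (Fin 2) K} (hF : Mor q F)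
    (hl : IsLat a b lam F) {N : Type} [Field N] [Algebra K N] {k : ℕ} {p : Fin k → Ept a b N}
    (h : ¬ FreeT q F (fun i => (p i).xRep)) :
    ∃ (m n : ℕ) (Q : MvPolynomial (Fin k × Fin 2) K), 1 ≤ m ∧ MH (fun _ => n) Q ∧ Q ≠ 0 ∧
      ∀ l, aeval (uc fun i => (lam ^ (m * l) • p i).xRep) Q = 0 := by
  unfold FreeT at h
  push Not at h
  obtain ⟨Fz, hz, hFz, I, hI, hH, m, hm, hinv, -, ⟨f, hf, hf0⟩, hvan⟩ := h
  obtain ⟨n, hn⟩ : ∃ n, bind₁ (segX K k) (homogeneousComponent n f) ≠ 0 := by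
    by_contra hcon
    push Not at hcon
    apply hf0
    rw [← sum_homogeneousComponent f, map_sum]
    exact Finset.sum_eq_zero fun n _ => hcon n
  refine ⟨m, n, bind₁ (segX K k) (homogeneousComponent n f), hm,
    mh_seg (homogeneousComponent_isHomogeneous n f), hn, fun l => ?_⟩
  have h1 : ∀ l : ℕ, (bind₁ Fz : MvPolynomial (Fin k → Fin 2) K →ₐ[K]
      MvPolynomial (Fin k → Fin 2) K)^[m * l] (homogeneousComponent n f) ∈ I := by
    intro l
    induction l with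
    | zero => exact hH f hf n
    | succ l ih =>
      rw [Nat.mul_succ, Nat.add_comm, Function.iterate_add_apply]
      exact (hinv _).1 ih
  have h2 := hvan _ _ (hom_iter hz (homogeneousComponent_isHomogeneous n f) (m * l)) (h1 l)
  rw [aeval_seg, seg_bind hFz, aeval_iter] at h2
  choose c hc hcx using fun i => iter_xRep hF hl (m * l) (p i)
  have h3 : (fun i => (gAct F N)^[m * l] ((p i).xRep)) =
      fun i => c i • (lam ^ (m * l) • p i).xRep := funext hcx
  rw [h3, aeval_scale (mh_seg (homogeneousComponent_isHomogeneous n f))] at h2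
  exact (mul_eq_zero.1 h2).resolve_left
    (Finset.prod_ne_zero_iff.2 fun i _ => pow_ne_zero _ (hc i))

end Dm

open Dm Fl in
/-- Row FREELU, part A. -/
theorem frA (K : Type) [Field K] (a b : K) (q lam : ℕ) (F : Fin 2 → MvPolynomial (Fin 2) K)
    (hlam : 2 ≤ lam) (hF : Mor q F) (hl : IsLat a b lam F) (N : Type) [Field N] [Algebra K N]
    (m : ℕ) (y : Fin m → Ept a b N) (hy : ∀ γ : Fin m → ℤ, ∑ i, γ i • y i = 0 → γ = 0)
    (hno : ∀ (k : ℕ) (ι : Fin k → Fin m), Function.Injective ι → m ≤ 2 * k →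
      ∃ j, ¬ FreeT q F (fun i => (lam ^ j • y (ι i)).xRep)) :
    ∃ j M : ℕ, 1 ≤ M ∧ ∀ (k : ℕ) (ι : Fin k → Fin m), Function.Injective ι → m ≤ 2 * k →
      ∃ Q : MvPolynomial (Fin k) K, Q ≠ 0 ∧
        ∀ l, aeval (fun i => xc (lam ^ (j + M * l) • y (ι i))) Q = 0 := by
  have hlm : ∀ n : ℕ, 1 ≤ n → ∀ i, n • y i ≠ 0 := by
    intro n hn i h0
    have h1 := hy (Pi.single i (n : ℤ)) (by
      rw [Finset.sum_eq_single i]
      · rw [Pi.single_eq_same, natCast_zsmul, h0]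
      · intro j _ hj
        rw [Pi.single_eq_of_ne hj, zero_smul]
      · intro h
        exact absurd (Finset.mem_univ _) h)
    have h2 := congrFun h1 i
    rw [Pi.single_eq_same, Pi.zero_apply] at h2
    omega
  have hpow : ∀ n, 1 ≤ lam ^ n := fun n => Nat.one_le_pow _ _ (by omega)
  have key : ∀ (k : ℕ) (ι : Fin k → Fin m), ∃ j₀ m₀ : ℕ, 1 ≤ m₀ ∧
      (Function.Injective ι → m ≤ 2 * k → ∃ (n : ℕ) (Q : MvPolynomial (Fin k × Fin 2) K),
        MH (fun _ => n) Q ∧ Q ≠ 0 ∧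
        ∀ l, aeval (uc fun i => (lam ^ (j₀ + m₀ * l) • y (ι i)).xRep) Q = 0) := by
    intro k ι
    by_cases hi : Function.Injective ι ∧ m ≤ 2 * k
    · obtain ⟨j, hj⟩ := hno k ι hi.1 hi.2
      obtain ⟨m₀, n, Q, h1, h2, h3, h4⟩ := exists_relQ hF hl hj
      refine ⟨j, m₀, h1, fun _ _ => ⟨n, Q, h2, h3, fun l => ?_⟩⟩
      rw [← h4 l]
      congr 3
      funext i
      rw [smul_smul, ← pow_add, Nat.add_comm]
    · exact ⟨0, 1, le_rfl, fun h1 h2 => absurd ⟨h1, h2⟩ hi⟩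
  choose j₀ m₀ hm₀ hkey using key
  let S := Σ k : Fin (m + 1), (Fin k → Fin m)
  refine ⟨∑ s : S, j₀ s.1 s.2, ∏ s : S, m₀ s.1 s.2,
    Nat.one_le_iff_ne_zero.2 (Finset.prod_ne_zero_iff.2 fun s _ => by
      have := hm₀ s.1 s.2
      omega), ?_⟩
  intro k ι hι hk
  have hkm : k < m + 1 := by
    have := Fintype.card_le_of_injective ι hι
    rw [Fintype.card_fin, Fintype.card_fin] at this
    omega
  obtain ⟨n, Q, hQ1, hQ2, hQ3⟩ := hkey k ι hι hk
  let s₀ : S := ⟨⟨k, hkm⟩, ι⟩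
  have hJ : j₀ k ι ≤ ∑ s : S, j₀ s.1 s.2 :=
    Finset.single_le_sum (f := fun s : S => j₀ s.1 s.2) (fun _ _ => Nat.zero_le _)
      (Finset.mem_univ s₀)
  have hM : m₀ k ι ∣ ∏ s : S, m₀ s.1 s.2 :=
    Finset.dvd_prod_of_mem (fun s : S => m₀ s.1 s.2) (Finset.mem_univ s₀)
  obtain ⟨r, hr⟩ := hM
  set J := ∑ s : S, j₀ s.1 s.2 with hJdef
  set M := ∏ s : S, m₀ s.1 s.2 with hMdef
  obtain ⟨d, hd⟩ := Nat.exists_eq_add_of_le hJ
  obtain ⟨u, hu⟩ := Nat.exists_eq_add_of_le (hm₀ k ι)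
  have hq : ∀ _ : Fin k, 1 ≤ q := fun i => deg_pos hF hl (hlm lam (by omega) (ι i))
  refine ⟨dh ((bind₁ (FX F k))^[u * d] Q), dh_ne (mh_iter hF.hom hQ1 _)
    (fx_iter_ne hF hq hQ2 _), fun l => ?_⟩
  rw [aeval_dh]
  have h1 : (fun i => (![xc (lam ^ (J + M * l) • y (ι i)), 1] : Fin 2 → N)) =
      fun i => (lam ^ (J + M * l) • y (ι i)).xRep := by
    funext i
    exact (xRep_of_ne (hlm _ (hpow _) (ι i))).symm
  rw [h1, aeval_iter]
  choose c hc hcx using fun i => iter_xRep hF hl (u * d) (lam ^ (J + M * l) • y (ι i))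
  rw [show (fun i => (gAct F N)^[u * d] ((lam ^ (J + M * l) • y (ι i)).xRep)) =
      fun i => c i • (lam ^ (u * d) • lam ^ (J + M * l) • y (ι i)).xRep from funext hcx,
    aeval_scale hQ1]
  have h2 : (fun i => (lam ^ (u * d) • lam ^ (J + M * l) • y (ι i)).xRep) =
      fun i => (lam ^ (j₀ k ι + m₀ k ι * (d + r * l)) • y (ι i)).xRep := by
    funext i
    rw [smul_smul, ← pow_add]
    congr 3
    rw [hr, hd, hu]
    ring
  rw [h2, hQ3, mul_zero]

end Pool.DynLehmer.LE
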