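import Pool.Agent.Lib.MP_2194ec_nt.LE.FreelA
import Pool.Agent.Lib.MP_2194ec_nt.LE.Defs

set_option autoImplicit false
set_option linter.unusedSectionVars false

/-!
# Row FREEL: independent points are free for the Lattes map
-/

namespace Pool.DynLehmer.LE
open MvPolynomial NumberField Filter Topology Pool.DynLehmer Pool.DynLehmer.SB Pool.DynLehmer.SP
  Pool.DynLehmer.GS Pool.DynLehmer.LP Pool.DynLehmer.LW Pool.DynLehmer.LW.Cl
open scoped Classical

namespace Fl

variable {K : Type} [Field K] {a b : K}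

theorem xRep_of_ne {L : Type} [Field L] [Algebra K L] {P : Ept a b L} (h : P ≠ 0) :
    P.xRep = ![xc P, 1] := by
  match P with
  | .zero => exact absurd rfl h
  | .some x y hh => rfl

theorem gAct_smul {F : Fin 2 → MvPolynomial (Fin 2) K} {q : ℕ} (hF : Mor q F) {M : Type} [Field M]
    [Algebra K M] (c : M) (y : Fin 2 → M) : gAct F M (c • y) = c ^ q • gAct F M y := by
  funext j
  exact aeval_hom (hF.hom j) c y

theorem iter_xRep {F : Fin 2 → MvPolynomial (Fin 2) K} {q lam : ℕ} (hF : Mor q F)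
    (hl : IsLat a b lam F) {M : Type} [Field M] [Algebra K M] (m : ℕ) (P : Ept a b M) :
    ∃ c : M, c ≠ 0 ∧ (gAct F M)^[m] P.xRep = c • (lam ^ m • P).xRep := by
  induction m with
  | zero => exact ⟨1, one_ne_zero, by rw [pow_zero, one_smul, one_smul]; rfl⟩
  | succ m ih =>
    obtain ⟨c, hc, h⟩ := ih
    obtain ⟨c', hc', h'⟩ := hl M (lam ^ m • P)
    refine ⟨c ^ q * c', mul_ne_zero (pow_ne_zero _ hc) hc', ?_⟩
    rw [Function.iterate_succ_apply', h, gAct_smul hF, h', smul_smul, smul_smul, ← pow_succ']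

/-- a point with a given first coordinate -/
theorem exists_point (hab : 4 * a ^ 3 + 27 * b ^ 2 ≠ 0) [CharZero K] {L : Type} [Field L]
    [Algebra K L] [IsAlgClosed L] (x : L) : ∃ P : Ept a b L, P ≠ 0 ∧ P.xRep = ![x, 1] := by
  obtain ⟨y, hy⟩ := IsAlgClosed.exists_pow_nat_eq
    (x ^ 3 + algebraMap K L a * x + algebraMap K L b) (n := 2) (by norm_num)
  have hΔ : ((Ws a b).baseChange L).Δ ≠ 0 := by
    have h1 : ((Ws a b).baseChange L).Δ =
        algebraMap K L (-16 * (4 * a ^ 3 + 27 * b ^ 2)) := by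
      show ((Ws a b).map (algebraMap K L)).Δ = _
      rw [WeierstrassCurve.map_Δ]
      congr 1
      simp only [WeierstrassCurve.Δ, WeierstrassCurve.b₂, WeierstrassCurve.b₄,
        WeierstrassCurve.b₆, WeierstrassCurve.b₈, Ws]
      ring
    rw [h1, Ne, map_eq_zero]
    exact mul_ne_zero (by norm_num) hab
  have heq : WeierstrassCurve.Affine.Equation ((Ws a b).baseChange L) x y := by
    rw [WeierstrassCurve.Affine.equation_iff]
    show y ^ 2 + algebraMap K L 0 * x * y + algebraMap K L 0 * y =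
      x ^ 3 + algebraMap K L 0 * x ^ 2 + algebraMap K L a * x + algebraMap K L b
    rw [hy, map_zero]
    ring
  refine ⟨.some x y ((WeierstrassCurve.Affine.equation_iff_nonsingular_of_Δ_ne_zero hΔ).1 heq),
    WeierstrassCurve.Affine.Point.some_ne_zero _, rfl⟩

end Fl

open Fl in
/-- **Row FREEL.** -/
theorem freel (hT : TransStatement) (hS : SpecStatement) : FreelStatement := by
  intro K _ _ a b hab hcm q lam F hlam hF hl N _ _ k p hp Fz hz hFz I hI hH m hm hinv hseg hrel
    hvan
  -- multiples of the points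
  have hlm : ∀ n : ℕ, 1 ≤ n → ∀ i, n • p i ≠ 0 := by
    intro n hn i h0
    have h1 := hp (Pi.single i (n : ℤ)) (by
      rw [Finset.sum_eq_single i]
      · rw [Pi.single_eq_same, natCast_zsmul, h0]
      · intro j _ hj
        rw [Pi.single_eq_of_ne hj, zero_smul]
      · intro h
        exact absurd (Finset.mem_univ _) h)
    have h2 := congrFun h1 i
    rw [Pi.single_eq_same, Pi.zero_apply] at h2
    omega
  have hp0 : ∀ i, p i ≠ 0 := fun i h => hlm 1 le_rfl i (by rw [one_smul, h])
  have hpow : ∀ n, 1 ≤ lam ^ n := fun n => Nat.one_le_pow _ _ (by omega)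
  obtain ⟨E, _, _, ξ, hξ0, hinv', hspec, e₀, Q₀, hQ₀, hQ₀', hQ₀0⟩ := Fl.exists_gp hF hz hFz hI hH
    hinv hseg hrel (fun i => (p i).xRep_ne_zero) hvan
  have hy : ∀ i, (p i).xRep = ![xc (p i), 1] := fun i => xRep_of_ne (hp0 i)
  -- the second coordinates
  have hξ1 : ∀ i, ξ i 1 ≠ 0 := by
    intro i h
    have h1 := hspec _ (X (i, 1)) (mh_X (i, 1)) (by rw [aeval_X]; exact h)
    rw [aeval_X] at h1
    have h2 : (p i).xRep 1 = 0 := h1
    rw [hy i] at h2
    exact one_ne_zero h2
  let t : Fin k → E := fun i => ξ i 0 / ξ i 1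
  let A : Fin k → Fin 2 → MvPolynomial (Fin k) K := fun i j =>
    dh ((bind₁ (FX F k))^[m] (X (i, j)))
  have hA : ∀ (M : Type) [Field M] [Algebra K M] (s : Fin k → M) (i : Fin k) (j : Fin 2),
      aeval s (A i j) = (gAct F M)^[m] ![s i, 1] j := by
    intro M _ _ s i j
    show aeval s (dh _) = _
    rw [aeval_dh, aeval_iter, aeval_X]
    rfl
  have hη : ∀ i j, (gAct F E)^[m] (ξ i) j =
      (∏ i', ξ i' 1 ^ (q ^ m • (Pi.single i 1 : Fin k → ℕ)) i') * aeval t (A i j) := by
    intro i j
    have h1 := aeval_affine (mh_iter hF.hom (mh_X (K := K) (i, j)) m) hξ1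
    rw [aeval_iter, aeval_X] at h1
    exact h1
  have hη1 : ∀ i, (gAct F E)^[m] (ξ i) 1 ≠ 0 := by
    intro i h
    have h1 := hspec _ ((bind₁ (FX F k))^[m] (X (i, 1))) (mh_iter hF.hom (mh_X (i, 1)) m) (by
      rw [aeval_iter, aeval_X]
      exact h)
    rw [aeval_iter, aeval_X] at h1
    have h2 : (gAct F N)^[m] ((p i).xRep) 1 = 0 := h1
    obtain ⟨c, hc, h3⟩ := iter_xRep hF hl m (p i)
    rw [h3, xRep_of_ne (hlm _ (hpow m) i)] at h2
    have h4 : c * 1 = 0 := h2
    exact hc (by rwa [mul_one] at h4)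
  have hA1 : ∀ i, aeval t (A i 1) ≠ 0 := fun i h => hη1 i (by rw [hη, h, mul_zero])
  have ht' : ∀ i, (gAct F E)^[m] (ξ i) 0 / (gAct F E)^[m] (ξ i) 1 =
      aeval t (A i 0) / aeval t (A i 1) := by
    intro i
    rw [hη, hη, mul_div_mul_left _ _ (prod_ne hξ1 _)]
  have hiff : ∀ Q : MvPolynomial (Fin k) K,
      aeval t Q = 0 ↔ aeval (fun i => aeval t (A i 0) / aeval t (A i 1)) Q = 0 := by
    intro Q
    have h1 := hinv' _ (Fl.hm Q) (mh_hm Q)
    rw [aeval_hm hξ1, aeval_iter, aeval_hm hη1] at h1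
    rw [h1]
    simp only [ht']
  obtain ⟨L, _, _, _, φ, τ, hτ, hφ⟩ := exists_endo t (fun i => A i 0) (fun i => A i 1) hiff
  -- the points
  choose P hP0 hPx using fun i => exists_point (a := a) (b := b) hab (τ i)
  have hxc : ∀ i, xc (P i) = τ i := by
    intro i
    have h1 := xRep_of_ne (hP0 i)
    rw [hPx i] at h1
    exact (congrFun h1 0).symm
  have hphi : ∀ i, pm (φ.restrictScalars K) (P i) = lam ^ m • P i ∨
      pm (φ.restrictScalars K) (P i) = -(lam ^ m • P i) := by
    intro i
    refine WeierstrassCurve.Affine.Point.eq_or_eq_neg_of_xRep_eq_xRep ?_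
    obtain ⟨c, hc, h1⟩ := iter_xRep hF hl m (P i)
    rw [hPx i] at h1
    have h2 : ∀ j, aeval τ (A i j) = c * (lam ^ m • P i).xRep j := fun j => by
      rw [hA L τ i j, h1]
      rfl
    have h3 : aeval τ (A i 1) ≠ 0 := fun h => hA1 i ((hτ _).1 h)
    have h4 : lam ^ m • P i ≠ 0 := by
      intro h
      rw [h2, h] at h3
      exact h3 (by simp)
    have h5 := xRep_of_ne h4
    have h6 : φ (τ i) = xc (lam ^ m • P i) := by
      rw [hφ, h2, h2, h5]
      show c * xc (lam ^ m • P i) / (c * 1) = _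
      rw [mul_div_mul_left _ _ hc, div_one]
    have h7 : (pm (φ.restrictScalars K) (P i)).xRep = ![φ (τ i), 1] := by
      have h8 := hPx i
      have h9 := hP0 i
      generalize P i = R at h8 h9
      match R with
      | .zero => exact absurd rfl h9
      | .some x y hh =>
        have h10 : x = τ i := congrFun h8 0
        subst h10
        rfl
    rw [h7, h5, h6]
  have hdep : ¬ AlgebraicIndependent K (fun i => xc (P i)) := by
    intro h
    have h1 : aeval (fun i => xc (P i)) (dh Q₀) = 0 := by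
      have h2 : (fun i => xc (P i)) = τ := funext hxc
      rw [h2, hτ]
      have h3 := aeval_affine hQ₀ hξ1
      rw [hQ₀0] at h3
      exact (mul_eq_zero.1 h3.symm).resolve_left (prod_ne hξ1 _)
    exact dh_ne hQ₀ hQ₀' ((algebraicIndependent_iff.1 h) _ h1)
  obtain ⟨γ, hγ, hγ0⟩ := hT K a b hab hcm K L φ (lam ^ m)
    (le_trans hlam (Nat.le_self_pow (by omega) lam)) k P hphi hdep
  -- the specialisation
  let N' := AlgebraicClosure N
  let ι : N →ₐ[K] N' := IsScalarTower.toAlgHom K N N'
  have hinj : Function.Injective (pm (a := a) (b := b) ι) :=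
    WeierstrassCurve.Affine.Point.map_injective ι
  have hxc' : ∀ i, xc (pm ι (p i)) = ι (xc (p i)) := by
    intro i
    have h9 := hp0 i
    generalize p i = R at h9
    match R with
    | .zero => exact absurd rfl h9
    | .some x y hh => rfl
  obtain ⟨ε, hε, hs⟩ := hS K a b hab L N' k P (fun i => pm ι (p i)) hP0
    (fun i h => hp0 i (hinj (h.trans (map_zero _).symm))) (by
      intro Q hQ
      have h2 : (fun i => xc (P i)) = τ := funext hxc
      rw [h2, hτ, ← aeval_hm hξ1] at hQ
      have h3 := hspec _ (Fl.hm Q) (mh_hm Q) hQ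
      have h4 : ∀ i, (p i).xRep 1 ≠ 0 := fun i => by
        rw [hy i]
        exact one_ne_zero
      rw [aeval_hm (ξ := fun i => (p i).xRep) h4] at h3
      have h5 : (fun i => (p i).xRep 0 / (p i).xRep 1) = fun i => xc (p i) := by
        funext i
        rw [hy i]
        exact div_one _
      rw [h5] at h3
      have h6 : (fun i => xc (pm ι (p i))) = fun i => ι (xc (p i)) := funext hxc'
      rw [h6]
      have h7 : aeval (fun i => ι (xc (p i))) Q = ι (aeval (fun i => xc (p i)) Q) :=
        (comp_aeval_apply ι (f := fun i => xc (p i)) Q).symm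
      rw [h7, h3, map_zero]) γ hγ0
  have h1 : ∑ i, (ε i * γ i) • p i = 0 := by
    apply hinj
    rw [map_sum, map_zero, ← hs]
    exact Finset.sum_congr rfl fun i _ => map_zsmul _ _ _
  have h2 := hp _ h1
  apply hγ
  funext i
  have h3 : ε i * γ i = 0 := congrFun h2 i
  rcases mul_eq_zero.1 h3 with h | h
  · rcases hε i with h4 | h4
    · rw [h4] at h
      exact absurd h one_ne_zero
    · rw [h4] at h
      exact absurd h (by norm_num)
  · exact h

end Pool.DynLehmer.LE
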