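import Pool.Agent.Lib.MP_2194ec_nt.LW.ClB

set_option autoImplicit false
set_option linter.unusedSectionVars false

/-!
# Row FREEL, part 1: the generic point in affine coordinates
-/

namespace Pool.DynLehmer.LE
open MvPolynomial Pool.DynLehmer Pool.DynLehmer.GS Pool.DynLehmer.LW Pool.DynLehmer.LW.Cl
open scoped Classical

namespace Fl

variable {K : Type} [Field K] {k : ℕ}

/-- the affine form of a multihomogeneous polynomial -/
noncomputable def dh : MvPolynomial (Fin k × Fin 2) K →ₐ[K] MvPolynomial (Fin k) K :=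
  aeval fun a => if a.2 = 0 then X a.1 else 1

theorem aeval_dh {N : Type} [Field N] [Algebra K N] (t : Fin k → N)
    (Q : MvPolynomial (Fin k × Fin 2) K) :
    aeval t (dh Q) = aeval (uc fun i => ![t i, 1]) Q := by
  have h : (aeval t).comp (dh (K := K) (k := k)) = aeval (uc fun i => ![t i, 1]) := by
    refine algHom_ext fun a => ?_
    obtain ⟨i, j⟩ := a
    rw [AlgHom.comp_apply, dh, aeval_X, aeval_X]
    fin_cases j
    · simp [uc]
    · simp [uc]
  rw [← h]
  rfl

/-- the scaling of the coordinates -/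
theorem aeval_scale {N : Type} [Field N] [Algebra K N] {e : Fin k → ℕ}
    {Q : MvPolynomial (Fin k × Fin 2) K} (hQ : MH e Q) (c : Fin k → N) (ξ : Fin k → Fin 2 → N) :
    aeval (uc fun i => c i • ξ i) Q = (∏ i, c i ^ e i) * aeval (uc ξ) Q := by
  conv_lhs => rw [Q.as_sum]
  conv_rhs => rw [Q.as_sum]
  rw [map_sum, map_sum, Finset.mul_sum]
  refine Finset.sum_congr rfl fun s hs => ?_
  rw [aeval_monomial, aeval_monomial, Finsupp.prod_fintype _ _ (fun i => pow_zero _),
    Finsupp.prod_fintype _ _ (fun i => pow_zero _), Fintype.prod_prod_type,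
    Fintype.prod_prod_type, mul_left_comm, ← Finset.prod_mul_distrib]
  congr 1
  refine Finset.prod_congr rfl fun i _ => ?_
  rw [Fin.prod_univ_two, Fin.prod_univ_two]
  have h1 : s (i, 0) + s (i, 1) = e i := hQ s hs i
  rw [← h1, pow_add]
  show (c i * ξ i 0) ^ s (i, 0) * (c i * ξ i 1) ^ s (i, 1) = _
  rw [mul_pow, mul_pow]
  show _ = c i ^ s (i, 0) * c i ^ s (i, 1) * (ξ i 0 ^ s (i, 0) * ξ i 1 ^ s (i, 1))
  ring

theorem aeval_affine {N : Type} [Field N] [Algebra K N] {e : Fin k → ℕ}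
    {Q : MvPolynomial (Fin k × Fin 2) K} (hQ : MH e Q) {ξ : Fin k → Fin 2 → N}
    (h1 : ∀ i, ξ i 1 ≠ 0) :
    aeval (uc ξ) Q = (∏ i, ξ i 1 ^ e i) * aeval (fun i => ξ i 0 / ξ i 1) (dh Q) := by
  rw [aeval_dh, ← aeval_scale hQ]
  congr 2
  funext a
  obtain ⟨i, j⟩ := a
  show ξ i j = ξ i 1 * (![ξ i 0 / ξ i 1, 1] : Fin 2 → N) j
  fin_cases j
  · show ξ i 0 = ξ i 1 * (ξ i 0 / ξ i 1)
    rw [mul_div_cancel₀ _ (h1 i)]
  · show ξ i 1 = ξ i 1 * 1
    rw [mul_one]

theorem prod_ne {N : Type} [Field N] {ξ : Fin k → Fin 2 → N} (h1 : ∀ i, ξ i 1 ≠ 0)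
    (e : Fin k → ℕ) : ∏ i, ξ i 1 ^ e i ≠ 0 :=
  Finset.prod_ne_zero_iff.2 fun i _ => pow_ne_zero _ (h1 i)

theorem dh_ne {e : Fin k → ℕ} {Q : MvPolynomial (Fin k × Fin 2) K} (hQ : MH e Q) (h : Q ≠ 0) :
    dh Q ≠ 0 := by
  intro h0
  let N := FractionRing (MvPolynomial (Fin k × Fin 2) K)
  let ξ : Fin k → Fin 2 → N := fun i j =>
    algebraMap (MvPolynomial (Fin k × Fin 2) K) N (X (i, j))
  have hinj : Function.Injective (algebraMap (MvPolynomial (Fin k × Fin 2) K) N) :=
    IsFractionRing.injective _ _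
  have h1 : ∀ i, ξ i 1 ≠ 0 := fun i h1 => X_ne_zero (R := K) (i, (1 : Fin 2))
    (hinj (h1.trans (map_zero _).symm))
  have h2 := aeval_affine hQ h1
  rw [h0, map_zero, mul_zero] at h2
  have h3 : (aeval (uc ξ) : MvPolynomial (Fin k × Fin 2) K →ₐ[K] N) =
      IsScalarTower.toAlgHom K (MvPolynomial (Fin k × Fin 2) K) N := by
    refine algHom_ext fun a => ?_
    rw [aeval_X]
    rfl
  rw [h3] at h2
  exact h (hinj (h2.trans (map_zero _).symm))

/-- the multihomogeneous form of a polynomial -/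
noncomputable def hm (Q : MvPolynomial (Fin k) K) : MvPolynomial (Fin k × Fin 2) K :=
  ∑ s ∈ Q.support, C (coeff s Q) * ∏ i, (X (i, 0) ^ s i * X (i, 1) ^ (degreeOf i Q - s i))

theorem mh_hm (Q : MvPolynomial (Fin k) K) : MH (fun i => degreeOf i Q) (hm Q) := by
  refine mh_sum _ _ fun s hs => ?_
  have h1 := mh_mul (mh_C (k := k) (coeff s Q)) (mh_prod Finset.univ
    (fun i => s i • (Pi.single i 1 : Fin k → ℕ) + (degreeOf i Q - s i) • Pi.single i 1)
    (fun i => (X (i, 0) ^ s i * X (i, 1) ^ (degreeOf i Q - s i) :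
      MvPolynomial (Fin k × Fin 2) K))
    fun i _ => mh_mul (mh_pow (mh_X (i, 0)) _) (mh_pow (mh_X (i, 1)) _))
  have h2 : (0 : Fin k → ℕ) + ∑ i, (s i • (Pi.single i 1 : Fin k → ℕ) +
      (degreeOf i Q - s i) • Pi.single i 1) = fun i => degreeOf i Q := by
    rw [zero_add]
    funext i
    rw [Finset.sum_apply, Finset.sum_eq_single i]
    · have h3 : s i ≤ degreeOf i Q := monomial_le_degreeOf i hs
      simp only [Pi.add_apply, Pi.smul_apply, Pi.single_eq_same, smul_eq_mul, mul_one]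
      omega
    · intro b _ hb
      simp [hb.symm]
    · intro h
      exact absurd (Finset.mem_univ _) h
  rw [← h2]
  exact h1

theorem dh_hm (Q : MvPolynomial (Fin k) K) : dh (hm Q) = Q := by
  rw [hm, map_sum]
  conv_rhs => rw [Q.as_sum]
  refine Finset.sum_congr rfl fun s _ => ?_
  rw [map_mul, map_prod, monomial_eq, Finsupp.prod_fintype _ _ (fun i => pow_zero _)]
  have h1 : dh (C (coeff s Q) : MvPolynomial (Fin k × Fin 2) K) = C (coeff s Q) := by
    rw [← algebraMap_eq, AlgHom.commutes, algebraMap_eq]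
  rw [h1]
  congr 1
  refine Finset.prod_congr rfl fun i _ => ?_
  rw [map_mul, map_pow, map_pow, dh, aeval_X, aeval_X]
  simp

theorem aeval_hm {N : Type} [Field N] [Algebra K N] {ξ : Fin k → Fin 2 → N}
    (h1 : ∀ i, ξ i 1 ≠ 0) (Q : MvPolynomial (Fin k) K) :
    aeval (uc ξ) (hm Q) = 0 ↔ aeval (fun i => ξ i 0 / ξ i 1) Q = 0 := by
  rw [aeval_affine (mh_hm Q) h1, dh_hm, mul_eq_zero]
  exact ⟨fun h => h.resolve_left (prod_ne h1 _), Or.inr⟩

/-- the generic point of an invariant subvariety, with the converse of `inv` -/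
theorem exists_gp {q : ℕ} {F : Fin 2 → MvPolynomial (Fin 2) K} (hF : Mor q F)
    {Fz : (Fin k → Fin 2) → MvPolynomial (Fin k → Fin 2) K} {q' : ℕ}
    (hz : ∀ I, (Fz I).IsHomogeneous q')
    (hFz : ∀ I, bind₁ (segX K k) (Fz I) = bind₁ (FX F k) (segX K k I))
    {I : Ideal (MvPolynomial (Fin k → Fin 2) K)} (hI : I.IsPrime) (hH : HomI I) {m : ℕ}
    (hinv : ∀ f, f ∈ I ↔ (bind₁ Fz : MvPolynomial (Fin k → Fin 2) K →ₐ[K]
      MvPolynomial (Fin k → Fin 2) K)^[m] f ∈ I)
    (hseg : ∀ f, bind₁ (segX K k) f = 0 → f ∈ I)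
    (hrel : ∃ f ∈ I, bind₁ (segX K k) f ≠ 0)
    {N : Type} [Field N] [Algebra K N] {y : Fin k → Fin 2 → N} (hy : ∀ i, y i ≠ 0)
    (hvan : ∀ (f : MvPolynomial (Fin k → Fin 2) K) (n : ℕ), f.IsHomogeneous n → f ∈ I →
      aeval (segk y) f = 0) :
    ∃ (E : Type) (_ : Field E) (_ : Algebra K E) (ξ : Fin k → Fin 2 → E),
      (∀ i, ξ i ≠ 0) ∧
      (∀ (e : Fin k → ℕ) (Q : MvPolynomial (Fin k × Fin 2) K), MH e Q →
        (aeval (uc ξ) Q = 0 ↔ aeval (uc ξ) ((bind₁ (FX F k))^[m] Q) = 0)) ∧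
      (∀ (e : Fin k → ℕ) (Q : MvPolynomial (Fin k × Fin 2) K), MH e Q →
        aeval (uc ξ) Q = 0 → aeval (uc y) Q = 0) ∧
      ∃ (e : Fin k → ℕ) (Q : MvPolynomial (Fin k × Fin 2) K), MH e Q ∧ Q ≠ 0 ∧
        aeval (uc ξ) Q = 0 := by
  have := hI
  let R := MvPolynomial (Fin k → Fin 2) K ⧸ I
  let E := FractionRing R
  let ev : MvPolynomial (Fin k → Fin 2) K →ₐ[K] E :=
    (IsScalarTower.toAlgHom K R E).comp (Ideal.Quotient.mkₐ K I)
  have hev : ∀ f, ev f = 0 ↔ f ∈ I := by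
    intro f
    have h1 : ev f = algebraMap R E (Ideal.Quotient.mk I f) := rfl
    rw [h1, ← Ideal.Quotient.eq_zero_iff_mem]
    constructor
    · intro h
      exact (IsFractionRing.injective R E) (h.trans (map_zero _).symm)
    · intro h
      rw [h, map_zero]
  let x : (Fin k → Fin 2) → E := fun J => ev (X J)
  have hx : ∀ f, aeval x f = ev f := fun f => by
    have h1 := aeval_unique ev
    exact (congrArg (fun φ : MvPolynomial (Fin k → Fin 2) K →ₐ[K] E => φ f) h1).symm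
  obtain ⟨I₀, hI₀⟩ := exists_coord hy
  have hx0 : x I₀ ≠ 0 := by
    intro h
    have h1 := hvan (X I₀) 1 (isHomogeneous_X K I₀) ((hev _).1 h)
    rw [aeval_X, segk, Finset.prod_eq_zero_iff] at h1
    obtain ⟨i, -, hi⟩ := h1
    exact hI₀ i hi
  let ξ : Fin k → Fin 2 → E := fun i j => x (Function.update I₀ i j) / x I₀
  have hξ1 : ∀ i, ξ i (I₀ i) = 1 := by
    intro i
    show x (Function.update I₀ i (I₀ i)) / x I₀ = 1
    rw [Function.update_eq_self, div_self hx0]
  have hξ0 : ∀ i, ξ i ≠ 0 := by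
    intro i h
    have h1 := hξ1 i
    rw [h] at h1
    exact zero_ne_one h1
  have hsegk : segk ξ = fun J => (x I₀)⁻¹ * x J := by
    funext J
    have h1 : aeval x (X I₀ * ∏ i, X (Function.update I₀ i (J i)) - X I₀ ^ k * X J :
        MvPolynomial (Fin k → Fin 2) K) = 0 := by
      rw [hx]
      exact (hev _).2 (hseg _ (seg_rel I₀ J))
    rw [map_sub, map_mul, map_mul, map_prod, map_pow, aeval_X, aeval_X, sub_eq_zero] at h1
    simp only [aeval_X] at h1
    have h2 : segk ξ J = (∏ i, x (Function.update I₀ i (J i))) / x I₀ ^ k := by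
      show ∏ i, x (Function.update I₀ i (J i)) / x I₀ = _
      rw [Finset.prod_div_distrib, Finset.prod_const, Finset.card_univ, Fintype.card_fin]
    rw [h2, div_eq_iff (pow_ne_zero _ hx0), inv_mul_eq_div, div_mul_eq_mul_div, eq_div_iff hx0,
      mul_comm _ (x I₀), h1, mul_comm]
  have hzero : ∀ (f : MvPolynomial (Fin k → Fin 2) K) (n : ℕ), f.IsHomogeneous n →
      (aeval (segk ξ) f = 0 ↔ f ∈ I) := by
    intro f n hf
    rw [hsegk, aeval_hom hf, hx, mul_eq_zero, hev]
    constructor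
    · rintro (h | h)
      · exact absurd h (pow_ne_zero _ (inv_ne_zero hx0))
      · exact h
    · exact Or.inr
  refine ⟨E, inferInstance, inferInstance, ξ, hξ0, ?_, ?_, ?_⟩
  · intro e Q hQ
    constructor
    · intro h0
      have hne : ∀ i, (gAct F E)^[m] (ξ i) ≠ 0 := fun i => iter_ne hF (hξ0 i) m
      obtain ⟨j, hj⟩ := exists_coord hne
      obtain ⟨f, hf, hfQ⟩ := exists_lift' hQ j
      have h1 : f ∈ I := by
        rw [← hzero f _ hf, aeval_seg, hfQ, map_mul, h0, zero_mul]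
      have h2 := (hzero _ _ (hom_iter hz hf m)).2 ((hinv f).1 h1)
      rw [aeval_seg, seg_bind hFz, hfQ, aeval_iter] at h2
      rw [aeval_iter]
      exact eval_of_lift hj _ h2
    · intro h0
      obtain ⟨j, hj⟩ := exists_coord hξ0
      obtain ⟨f, hf, hfQ⟩ := exists_lift' hQ j
      have h1 : f ∈ I := by
        rw [hinv, ← hzero _ _ (hom_iter hz hf m), aeval_seg, seg_bind hFz, hfQ, aeval_iter,
          map_mul, ← aeval_iter, h0, zero_mul]
      have h2 := (hzero _ _ hf).2 h1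
      rw [aeval_seg, hfQ] at h2
      exact eval_of_lift hj _ h2
  · intro e Q hQ h0
    obtain ⟨j, hj⟩ := exists_coord hy
    obtain ⟨f, hf, hfQ⟩ := exists_lift' hQ j
    have h1 : f ∈ I := by
      rw [← hzero f _ hf, aeval_seg, hfQ, map_mul, h0, zero_mul]
    have h2 := hvan f _ hf h1
    rw [aeval_seg, hfQ] at h2
    exact eval_of_lift hj _ h2
  · obtain ⟨f, hf, hf0⟩ := hrel
    obtain ⟨n, hn⟩ : ∃ n, bind₁ (segX K k) (homogeneousComponent n f) ≠ 0 := by
      by_contra hcon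
      push Not at hcon
      apply hf0
      rw [← sum_homogeneousComponent f, map_sum]
      exact Finset.sum_eq_zero fun n _ => hcon n
    refine ⟨fun _ => n, bind₁ (segX K k) (homogeneousComponent n f),
      mh_seg (homogeneousComponent_isHomogeneous n f), hn, ?_⟩
    rw [← aeval_seg]
    exact (hzero _ _ (homogeneousComponent_isHomogeneous n f)).2 (hH f hf n)

/-- An endomorphism of an algebraically closed field from a tuple and its image. -/
theorem exists_endo {E : Type} [Field E] [Algebra K E] (t : Fin k → E)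
    (A B : Fin k → MvPolynomial (Fin k) K)
    (h : ∀ Q : MvPolynomial (Fin k) K,
      aeval t Q = 0 ↔ aeval (fun i => aeval t (A i) / aeval t (B i)) Q = 0) :
    ∃ (L : Type) (_ : Field L) (_ : Algebra K L) (_ : IsAlgClosed L) (φ : L →ₐ[K] L)
      (τ : Fin k → L), (∀ Q : MvPolynomial (Fin k) K, aeval τ Q = 0 ↔ aeval t Q = 0) ∧
      ∀ i, φ (τ i) = aeval τ (A i) / aeval τ (B i) := by
  let P : Ideal (MvPolynomial (Fin k) K) := RingHom.ker (aeval t : MvPolynomial (Fin k) K →ₐ[K] E)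
  have hP : P.IsPrime := RingHom.ker_isPrime _
  let R := MvPolynomial (Fin k) K ⧸ P
  let E' := FractionRing R
  let L := AlgebraicClosure E'
  let mk : MvPolynomial (Fin k) K →ₐ[K] E' :=
    (IsScalarTower.toAlgHom K R E').comp (Ideal.Quotient.mkₐ K P)
  have hmk : ∀ Q, mk Q = 0 ↔ aeval t Q = 0 := by
    intro Q
    have h1 : mk Q = algebraMap R E' (Ideal.Quotient.mk P Q) := rfl
    have h2 : aeval t Q = 0 ↔ Q ∈ P := Iff.rfl
    rw [h1, h2, ← Ideal.Quotient.eq_zero_iff_mem]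
    constructor
    · intro h
      exact (IsFractionRing.injective R E') (h.trans (map_zero _).symm)
    · intro h
      rw [h, map_zero]
  let τ0 : Fin k → E' := fun i => mk (X i)
  have hτ0 : ∀ Q, aeval τ0 Q = mk Q := fun Q => by
    have h1 := aeval_unique mk
    exact (congrArg (fun φ : MvPolynomial (Fin k) K →ₐ[K] E' => φ Q) h1).symm
  -- the embedding in `E`
  let g : R →ₐ[K] E := Ideal.Quotient.liftₐ P (aeval t) fun a ha => ha
  have hg : Function.Injective g := by
    intro a b hab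
    obtain ⟨a, rfl⟩ := Ideal.Quotient.mk_surjective a
    obtain ⟨b, rfl⟩ := Ideal.Quotient.mk_surjective b
    have h1 : aeval t a = aeval t b := hab
    rw [Ideal.Quotient.eq]
    show aeval t (a - b) = 0
    rw [map_sub, h1, sub_self]
  let ι : E' →ₐ[K] E := IsFractionRing.liftAlgHom hg
  have hι : ∀ Q, ι (mk Q) = aeval t Q := fun Q => IsFractionRing.lift_algebraMap hg _
  let τ1 : Fin k → E' := fun i => aeval τ0 (A i) / aeval τ0 (B i)
  have hτ1 : ∀ Q : MvPolynomial (Fin k) K, ι (aeval τ1 Q) = aeval (fun i => aeval t (A i) / aeval t (B i)) Q := by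
    intro Q
    have h1 : (ι.comp (aeval τ1) : MvPolynomial (Fin k) K →ₐ[K] E) =
        aeval (fun i => aeval t (A i) / aeval t (B i)) := by
      refine algHom_ext fun i => ?_
      rw [AlgHom.comp_apply, aeval_X, aeval_X]
      show ι (aeval τ0 (A i) / aeval τ0 (B i)) = _
      rw [map_div₀, hτ0, hτ0, hι, hι]
    exact congrArg (fun φ : MvPolynomial (Fin k) K →ₐ[K] E => φ Q) h1
  have hz : ∀ Q : MvPolynomial (Fin k) K, aeval τ1 Q = 0 ↔ aeval t Q = 0 := by
    intro Q
    rw [h Q, ← hτ1]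
    exact ⟨fun h => by rw [h, map_zero], fun h => ι.injective (h.trans (map_zero ι).symm)⟩
  let g1 : R →ₐ[K] E' := Ideal.Quotient.liftₐ P (aeval τ1) fun a ha => (hz a).2 ha
  have hg1 : Function.Injective g1 := by
    intro a b hab
    obtain ⟨a, rfl⟩ := Ideal.Quotient.mk_surjective a
    obtain ⟨b, rfl⟩ := Ideal.Quotient.mk_surjective b
    have h1 : aeval τ1 a = aeval τ1 b := hab
    rw [Ideal.Quotient.eq]
    show aeval t (a - b) = 0
    rw [← hz, map_sub, h1, sub_self]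
  let φ0 : E' →ₐ[K] E' := IsFractionRing.liftAlgHom hg1
  have hφ0 : ∀ i, φ0 (τ0 i) = τ1 i := by
    intro i
    have h1 : φ0 (mk (X i)) = aeval τ1 (X i) := IsFractionRing.lift_algebraMap hg1 _
    rw [aeval_X] at h1
    exact h1
  obtain ⟨φ, hφ⟩ := IsAlgClosed.surjective_domRestrict_of_isAlgebraic (K := K) (L := E') (M := L)
    (E := L) ((IsScalarTower.toAlgHom K E' L).comp φ0)
  have hφ' : ∀ z : E', φ (algebraMap E' L z) = algebraMap E' L (φ0 z) := fun z => by
    have h1 := congrArg (fun f : E' →ₐ[K] L => f z) hφ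
    exact h1
  have hL : ∀ Q : MvPolynomial (Fin k) K,
      aeval (fun i => algebraMap E' L (τ0 i)) Q = algebraMap E' L (aeval τ0 Q) := fun Q =>
    aeval_algebraMap_apply L τ0 Q
  refine ⟨L, inferInstance, inferInstance, inferInstance, φ, fun i => algebraMap E' L (τ0 i),
    ?_, ?_⟩
  · intro Q
    rw [hL, hτ0, ← hmk]
    exact ⟨fun h => (algebraMap E' L).injective (h.trans (map_zero _).symm),
      fun h => by rw [h, map_zero]⟩
  · intro i
    rw [hφ', hφ0, hL, hL, ← map_div₀]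

end Fl

end Pool.DynLehmer.LE
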