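import Pool.Agent.Lib.MP_2194ec_nt.LE.Htq

set_option autoImplicit false

/-!
# The canonical height as the limit of `h (n P) / n ^ 2`
-/

namespace Pool.DynLehmer.LE.HN
open Filter Topology

variable {G : Type} [AddCommGroup G] {g : G → ℝ} {C : ℝ}

theorem step (hC : ∀ x y, |g (x + y) + g (x - y) - (2 * g x + 2 * g y)| ≤ C) (x : G) (n : ℕ) :
    |(g ((n + 2) • x) - ((n : ℝ) + 2) ^ 2 * g x) - 2 * (g ((n + 1) • x) - ((n : ℝ) + 1) ^ 2 * g x) +
      (g (n • x) - (n : ℝ) ^ 2 * g x)| ≤ C := by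
  have h1 := hC ((n + 1) • x) x
  have e1 : (n + 1) • x + x = (n + 2) • x := by
    rw [← succ_nsmul]
  have e2 : (n + 1) • x - x = n • x := by
    rw [add_smul, one_smul, add_sub_cancel_right]
  rw [e1, e2] at h1
  have e3 : (g ((n + 2) • x) - ((n : ℝ) + 2) ^ 2 * g x) -
      2 * (g ((n + 1) • x) - ((n : ℝ) + 1) ^ 2 * g x) + (g (n • x) - (n : ℝ) ^ 2 * g x) =
      g ((n + 2) • x) + g (n • x) - (2 * g ((n + 1) • x) + 2 * g x) := by ring
  rw [e3]
  exact h1

theorem dif (hC : ∀ x y, |g (x + y) + g (x - y) - (2 * g x + 2 * g y)| ≤ C) (x : G) (n : ℕ) :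
    |(g ((n + 1) • x) - ((n : ℝ) + 1) ^ 2 * g x) - (g (n • x) - (n : ℝ) ^ 2 * g x)| ≤
      C * (n + 1) := by
  have h0 : |g 0| ≤ C := by
    have h1 := hC 0 0
    rw [add_zero, sub_zero] at h1
    have e : g 0 + g 0 - (2 * g 0 + 2 * g 0) = -(2 * g 0) := by ring
    rw [e, abs_neg, abs_mul] at h1
    have h2 : |(2 : ℝ)| = 2 := abs_of_pos two_pos
    rw [h2] at h1
    have h3 := abs_nonneg (g 0)
    linarith
  induction n with
  | zero =>
    simp only [zero_add, one_smul, zero_smul, Nat.cast_zero]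
    have e : g x - 1 ^ 2 * g x - (g 0 - 0 ^ 2 * g x) = -g 0 := by ring
    rw [e, abs_neg, mul_one]
    exact h0
  | succ n ih =>
    have h1 := step hC x n
    push_cast
    have e : g ((n + 1 + 1) • x) - ((n : ℝ) + 1 + 1) ^ 2 * g x -
        (g ((n + 1) • x) - ((n : ℝ) + 1) ^ 2 * g x) =
        ((g ((n + 2) • x) - ((n : ℝ) + 2) ^ 2 * g x) -
          2 * (g ((n + 1) • x) - ((n : ℝ) + 1) ^ 2 * g x) + (g (n • x) - (n : ℝ) ^ 2 * g x)) +
        ((g ((n + 1) • x) - ((n : ℝ) + 1) ^ 2 * g x) - (g (n • x) - (n : ℝ) ^ 2 * g x)) := by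
      rw [show n + 1 + 1 = n + 2 from rfl]
      ring
    rw [e]
    refine (abs_add_le _ _).trans ?_
    linarith

theorem quad (hC : ∀ x y, |g (x + y) + g (x - y) - (2 * g x + 2 * g y)| ≤ C) (x : G) (n : ℕ) :
    |g (n • x) - (n : ℝ) ^ 2 * g x| ≤ C * (n + 1) ^ 2 := by
  have hC0 : 0 ≤ C := (abs_nonneg _).trans (hC 0 0)
  induction n with
  | zero =>
    have h1 := hC 0 0
    rw [add_zero, sub_zero] at h1
    have e : g 0 + g 0 - (2 * g 0 + 2 * g 0) = -(2 * g 0) := by ring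
    rw [e, abs_neg, abs_mul] at h1
    have h2 : |(2 : ℝ)| = 2 := abs_of_pos two_pos
    rw [h2] at h1
    have h3 := abs_nonneg (g 0)
    simp only [zero_smul, Nat.cast_zero]
    have e : g 0 - 0 ^ 2 * g x = g 0 := by ring
    rw [e]
    linarith
  | succ n ih =>
    have h1 := dif hC x n
    push_cast
    have e : g ((n + 1) • x) - ((n : ℝ) + 1) ^ 2 * g x =
        ((g ((n + 1) • x) - ((n : ℝ) + 1) ^ 2 * g x) - (g (n • x) - (n : ℝ) ^ 2 * g x)) +
        (g (n • x) - (n : ℝ) ^ 2 * g x) := by ring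
    rw [e]
    refine (abs_add_le _ _).trans ?_
    have hn : (0 : ℝ) ≤ n := Nat.cast_nonneg n
    nlinarith

theorem tendsto_sq (hC : ∀ x y, |g (x + y) + g (x - y) - (2 * g x + 2 * g y)| ≤ C) {lam : ℕ}
    (hlam : 2 ≤ lam) (f : G → ℝ)
    (hf : ∀ x, Tendsto (fun n : ℕ => g (lam ^ n • x) / ((lam : ℝ) ^ 2) ^ n) atTop (𝓝 (f x)))
    (P : G) : Tendsto (fun n : ℕ => g (n • P) / (n : ℝ) ^ 2) atTop (𝓝 (f P)) := by
  have hC0 : 0 ≤ C := (abs_nonneg _).trans (hC 0 0)
  have hl0 : (0 : ℝ) < lam := by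
    have : (2 : ℝ) ≤ lam := by exact_mod_cast hlam
    linarith
  have hl1 : (1 : ℝ) < (lam : ℝ) ^ 2 := by
    have : (2 : ℝ) ≤ lam := by exact_mod_cast hlam
    nlinarith
  -- the difference is bounded
  have hb : ∀ x, |f x - g x| ≤ 4 * C := by
    intro x
    refine le_of_tendsto (x := atTop) (((hf x).sub_const (g x)).abs)
      (Eventually.of_forall fun n => ?_)
    have h1 := quad hC x (lam ^ n)
    push_cast at h1
    have h2 : (0 : ℝ) < ((lam : ℝ) ^ 2) ^ n := by positivity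
    have h3 : ((lam : ℝ) ^ 2) ^ n = ((lam : ℝ) ^ n) ^ 2 := by rw [← pow_mul, ← pow_mul, mul_comm]
    have h4 : g (lam ^ n • x) / ((lam : ℝ) ^ 2) ^ n - g x =
        (g (lam ^ n • x) - ((lam : ℝ) ^ n) ^ 2 * g x) / ((lam : ℝ) ^ 2) ^ n := by
      rw [sub_div, h3, mul_div_cancel_left₀ _ (by positivity)]
    rw [h4, abs_div, abs_of_pos h2, div_le_iff₀ h2]
    refine h1.trans ?_
    have h5 : (1 : ℝ) ≤ (lam : ℝ) ^ n := one_le_pow₀ (by
      have : (2 : ℝ) ≤ lam := by exact_mod_cast hlam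
      linarith)
    rw [h3]
    have h6 : ((lam : ℝ) ^ n + 1) ^ 2 ≤ 4 * ((lam : ℝ) ^ n) ^ 2 := by nlinarith
    calc C * ((lam : ℝ) ^ n + 1) ^ 2 ≤ C * (4 * ((lam : ℝ) ^ n) ^ 2) :=
          mul_le_mul_of_nonneg_left h6 hC0
      _ = 4 * C * ((lam : ℝ) ^ n) ^ 2 := by ring
  -- the limit is quadratic
  have hq : ∀ n : ℕ, f (n • P) = (n : ℝ) ^ 2 * f P := by
    intro n
    have h1 : Tendsto (fun k : ℕ => g (lam ^ k • n • P) / ((lam : ℝ) ^ 2) ^ k -
        (n : ℝ) ^ 2 * (g (lam ^ k • P) / ((lam : ℝ) ^ 2) ^ k)) atTop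
        (𝓝 (f (n • P) - (n : ℝ) ^ 2 * f P)) := (hf (n • P)).sub ((hf P).const_mul _)
    have h2 : Tendsto (fun k : ℕ => (C * (n + 1) ^ 2) * ((((lam : ℝ) ^ 2) ^ k))⁻¹) atTop
        (𝓝 ((C * (n + 1) ^ 2) * 0)) :=
      (tendsto_inv_atTop_zero.comp (tendsto_pow_atTop_atTop_of_one_lt hl1)).const_mul _
    rw [mul_zero] at h2
    have h3 : Tendsto (fun k : ℕ => g (lam ^ k • n • P) / ((lam : ℝ) ^ 2) ^ k -
        (n : ℝ) ^ 2 * (g (lam ^ k • P) / ((lam : ℝ) ^ 2) ^ k)) atTop (𝓝 0) := by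
      refine squeeze_zero_norm (fun k => ?_) h2
      have h4 := quad hC (lam ^ k • P) n
      have h5 : (0 : ℝ) < ((lam : ℝ) ^ 2) ^ k := by positivity
      rw [smul_comm n (lam ^ k) P] at h4
      rw [← mul_div_assoc, ← sub_div, Real.norm_eq_abs, abs_div, abs_of_pos h5,
        div_eq_mul_inv]
      exact mul_le_mul_of_nonneg_right h4 (inv_nonneg.2 h5.le)
    have h6 := tendsto_nhds_unique h1 h3
    linarith
  have h1 : Tendsto (fun n : ℕ => f P + (g (n • P) - f (n • P)) / (n : ℝ) ^ 2) atTop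
      (𝓝 (f P + 0)) := by
    refine tendsto_const_nhds.add ?_
    have h2 : Tendsto (fun n : ℕ => (4 * C) * (((n : ℝ) ^ 2))⁻¹) atTop (𝓝 ((4 * C) * 0)) :=
      (tendsto_inv_atTop_zero.comp ((tendsto_pow_atTop two_ne_zero).comp
        tendsto_natCast_atTop_atTop)).const_mul _
    rw [mul_zero] at h2
    refine squeeze_zero_norm (fun n => ?_) h2
    have h3 := hb (n • P)
    rw [Real.norm_eq_abs, abs_div, abs_of_nonneg (by positivity : (0 : ℝ) ≤ (n : ℝ) ^ 2),
      div_eq_mul_inv, abs_sub_comm]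
    exact mul_le_mul_of_nonneg_right h3 (by positivity)
  rw [add_zero] at h1
  refine Tendsto.congr' ?_ h1
  filter_upwards [eventually_gt_atTop 0] with n hn
  have hn0 : (n : ℝ) ≠ 0 := by exact_mod_cast hn.ne'
  rw [hq, sub_div, mul_div_cancel_left₀ _ (pow_ne_zero 2 hn0)]
  ring

end Pool.DynLehmer.LE.HN

namespace Pool.DynLehmer.LE
open MvPolynomial NumberField Filter Topology Pool.DynLehmer Pool.DynLehmer.SB Pool.DynLehmer.SP
  Pool.DynLehmer.GS Pool.DynLehmer.LP Pool.DynLehmer.LW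
open scoped Classical

/-- The canonical height is the limit of `h (x (n P)) / n ^ 2`. -/
theorem tendsto_sq {K : Type} [Field K] [NumberField K] {a b : K}
    (hD : 4 * a ^ 3 + 27 * b ^ 2 ≠ 0) {q lam : ℕ} {F : Fin 2 → MvPolynomial (Fin 2) K}
    (hlam : 2 ≤ lam) (hq : lam ^ 2 = q) (hF : Mor q F) (hL : IsLat a b lam F) {N : Type} [Field N]
    [NumberField N] [Algebra K N] (P : Ept a b N) {h : ℝ} (H : HasHt q F P.xRep h) :
    Tendsto (fun n : ℕ => Height.logHeight (n • P).xRep / (Module.finrank ℚ N : ℝ) /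
      (n : ℝ) ^ 2) atTop (𝓝 h) := by
  have hq2 : 2 ≤ q := by
    rw [← hq]
    nlinarith
  obtain ⟨f, hf, -⟩ := HQ.exists_fun (N := N) hD hq2 hF hL
  have hE := HQ.ws_elliptic (N := N) hD
  obtain ⟨C, hC⟩ := HQ.quasi ((Ws a b).baseChange N)
  have hN : (0 : ℝ) < (Module.finrank ℚ N : ℝ) := by exact_mod_cast Module.finrank_pos
  have e : h = f P := tendsto_nhds_unique H (hf P)
  rw [e]
  refine HN.tendsto_sq (g := fun x : Ept a b N => Height.logHeight x.xRep /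
    (Module.finrank ℚ N : ℝ)) (C := C / (Module.finrank ℚ N : ℝ)) (fun x y => ?_) hlam f
    (fun x => ?_) P
  · have h1 := hC x y
    have e2 : Height.logHeight (x + y).xRep / (Module.finrank ℚ N : ℝ) +
        Height.logHeight (x - y).xRep / (Module.finrank ℚ N : ℝ) -
        (2 * (Height.logHeight x.xRep / (Module.finrank ℚ N : ℝ)) +
          2 * (Height.logHeight y.xRep / (Module.finrank ℚ N : ℝ))) =
        (Height.logHeight (x + y).xRep + Height.logHeight (x - y).xRep -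
          (2 * Height.logHeight x.xRep + 2 * Height.logHeight y.xRep)) /
          (Module.finrank ℚ N : ℝ) := by
      field_simp
    rw [e2, abs_div, abs_of_pos hN]
    exact div_le_div_of_nonneg_right h1 hN.le
  · have h1 := (HQ.hasHt_iff hF.hom hL x (f x)).1 (hf x)
    rw [← hq] at h1
    push_cast at h1
    exact h1

end Pool.DynLehmer.LE
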