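import Pool.Agent.Lib.MP_2194ec_nt.LE.Open
import Pool.Agent.Lib.MP_2194ec_nt.LE.DefsB

set_option autoImplicit false

/-!
# Row OPEN for an arbitrary bound over a fixed curve
-/

namespace Pool.DynLehmer.LE
open MvPolynomial NumberField Filter Topology Pool.DynLehmer Pool.DynLehmer.SB Pool.DynLehmer.SP
  Pool.DynLehmer.GS Pool.DynLehmer.LP Pool.DynLehmer.LW
open scoped Classical

/-- The Lehmer bound over `K` for all points `P` of infinite order for which the classes of the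
conjugates modulo torsion are permuted by a group with composition factors which are abelian or of
order at most `M * e ^ A + M`; `e` is at most the number of the classes. -/
def EBoundO (K : Type) [Field K] [NumberField K] (a b : K) (q : ℕ)
    (F : Fin 2 → MvPolynomial (Fin 2) K) : Prop :=
  ∀ A M : ℕ, ∃ c : ℝ, 0 < c ∧
    ∀ (N : Type) [Field N] [NumberField N] [Algebra K N] [IsGalois K N] (P : Ept a b N),
      (∀ n : ℕ, 1 ≤ n → n • P ≠ 0) →
      (∃ (e : ℕ) (τ : Fin e → (N ≃ₐ[K] N)),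
        (∀ i j, i ≠ j → ¬ Tq (pm (τ i : N →ₐ[K] N) P) (pm (τ j : N →ₐ[K] N) P)) ∧
        ∃ (l : ℕ) (L : ℕ → Subgroup (N ≃ₐ[K] N)),
          (∀ g ∈ L 0, ∀ h : N ≃ₐ[K] N, Tq (pm ((g * h : N ≃ₐ[K] N) : N →ₐ[K] N) P)
            (pm (h : N →ₐ[K] N) P)) ∧ L l = ⊤ ∧
          ∀ i < l, L i ≤ L (i + 1) ∧ (∀ x ∈ L (i + 1), ∀ y ∈ L i, x * y * x⁻¹ ∈ L i) ∧
            ((∀ x ∈ L (i + 1), ∀ y ∈ L (i + 1), x * y * x⁻¹ * y⁻¹ ∈ L i) ∨
              (L i).relIndex (L (i + 1)) ≤ M * e ^ A + M)) →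
      ∃ h : ℝ, HasHt q F P.xRep h ∧ c / (dg K P.xRep : ℝ) ≤ h

/-- All points, if the image of the Galois group on the torsion is open. -/
theorem eboundO (hCls : ClseStatement) {K : Type} [Field K] [NumberField K] {a b : K}
    (hD : 4 * a ^ 3 + 27 * b ^ 2 ≠ 0) (hOp : OpenIm a b) {q lam : ℕ}
    {F : Fin 2 → MvPolynomial (Fin 2) K} (hq : 2 ≤ q) (hM : Mor q F) (hL : IsLat a b lam F)
    (hE : EBound K a b q F) : EBoundO K a b q F := by
  intro A M
  obtain ⟨B, hB⟩ := Op.red_all hCls hD hOp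
  obtain ⟨c, hc, H⟩ := hE A (M + B + 6)
  refine ⟨c / 2, by positivity, ?_⟩
  intro N _ _ _ _ P hP hser
  obtain ⟨e, τ, R, he1, hR0, hτ, hmax, hm, hT, hfin⟩ := hB q lam F hq hM hL N P hP
  obtain ⟨e₀, τ₀, hτ₀, l, L, hL0, hLl, hLi⟩ := hser
  have he : e₀ ≤ e := hmax e₀ τ₀ hτ₀
  obtain ⟨h', hh', hle⟩ := H N R hR0 ⟨e, τ, hτ, by
      refine hm.trans ((?_ : B * e ^ 6 ≤ (M + B + 6) * e ^ (M + B + 6)).trans
        (Nat.le_add_right _ _))
      exact Nat.mul_le_mul (by omega) (Nat.pow_le_pow_right he1 (by omega)),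
      l, L, fun g hg h => (hT _ _).2 (hL0 g hg h), hLl, fun i hi => by
        obtain ⟨h3, h4, h5⟩ := hLi i hi
        refine ⟨h3, h4, h5.imp id fun h6 => h6.trans ?_⟩
        exact Nat.add_le_add (Nat.mul_le_mul (by omega) (Nat.pow_le_pow_left he A)) (by omega)⟩
  exact hfin c h' hc hh' hle

end Pool.DynLehmer.LE
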