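import Pool.Agent.Lib.MP_2194ec_nt.LE.Pgs
import Pool.Agent.Lib.MP_2194ec_nt.LE.OpenG
import Pool.Agent.Lib.MP_2194ec_nt.LE.Htn

set_option autoImplicit false
set_option linter.unusedSectionVars false

/-!
# The Lehmer bound for elliptic curves given by an arbitrary Weierstrass equation
-/

namespace Pool.DynLehmer.LE
open MvPolynomial NumberField Filter Topology Pool.DynLehmer Pool.DynLehmer.SB Pool.DynLehmer.SP
  Pool.DynLehmer.GS Pool.DynLehmer.LP Pool.DynLehmer.LW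
open scoped Classical

/-! ## Multiples and translates -/

/-- The Lehmer bound over `K` for the points `P` with a multiple of small degree. -/
def EBoundT (K : Type) [Field K] [NumberField K] (a b : K) (q : ℕ)
    (F : Fin 2 → MvPolynomial (Fin 2) K) : Prop :=
  ∀ A : ℕ, ∃ c : ℝ, 0 < c ∧
    ∀ (N : Type) [Field N] [NumberField N] [Algebra K N] [IsGalois K N] (P : Ept a b N),
      (∀ n : ℕ, 1 ≤ n → n • P ≠ 0) →
      (∃ (e : ℕ) (τ : Fin e → (N ≃ₐ[K] N)),
        (∀ i j, i ≠ j → ¬ Tq (pm (τ i : N →ₐ[K] N) P) (pm (τ j : N →ₐ[K] N) P)) ∧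
        (∃ (n : ℕ) (T : Ept a b N), 1 ≤ n ∧ (∃ m : ℕ, 1 ≤ m ∧ m • T = 0) ∧
          dg K (n • P + T).xRep ≤ A * e ^ A ∧
          n ^ 2 * dg K (n • P + T).xRep ≤ A * dg K P.xRep) ∧
        ∃ (l : ℕ) (L : ℕ → Subgroup (N ≃ₐ[K] N)),
          (∀ g ∈ L 0, ∀ h : N ≃ₐ[K] N, Tq (pm ((g * h : N ≃ₐ[K] N) : N →ₐ[K] N) P)
            (pm (h : N →ₐ[K] N) P)) ∧ L l = ⊤ ∧
          ∀ i < l, L i ≤ L (i + 1) ∧ (∀ x ∈ L (i + 1), ∀ y ∈ L i, x * y * x⁻¹ ∈ L i) ∧
            ((∀ x ∈ L (i + 1), ∀ y ∈ L (i + 1), x * y * x⁻¹ * y⁻¹ ∈ L i) ∨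
              (L i).relIndex (L (i + 1)) ≤ e ^ A)) →
      ∃ h : ℝ, HasHt q F P.xRep h ∧ c / (dg K P.xRep : ℝ) ≤ h

theorem eboundT (hCls : ClseStatement) {K : Type} [Field K] [NumberField K] {a b : K}
    (hD : 4 * a ^ 3 + 27 * b ^ 2 ≠ 0) {q lam : ℕ} {F : Fin 2 → MvPolynomial (Fin 2) K}
    (hq2 : 2 ≤ q) (hM : Mor q F) (hL : IsLat a b lam F) (hE : EBound K a b q F) :
    EBoundT K a b q F := by
  intro A
  obtain ⟨c, hc, H⟩ := hE A (2 * A + 1)
  refine ⟨c / (A + 1), by positivity, ?_⟩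
  intro N _ _ _ _ P hP hser
  obtain ⟨e, τ, hτ, ⟨n, T, hn, ⟨m, hm, hmT⟩, hd1, hd2⟩, l, L, hL0, hLl, hLi⟩ := hser
  have hfd : FiniteDimensional K N := Module.Finite.of_restrictScalars_finite ℚ K N
  obtain ⟨h, hh⟩ := HQ.exists_ht hq2 hM P
  refine ⟨h, hh, ?_⟩
  -- `P' = n P + T`
  have hP' : ∀ k : ℕ, 1 ≤ k → k • (n • P + T) ≠ 0 := by
    intro k hk h0
    refine hP (m * (k * n)) (Nat.mul_pos hm (Nat.mul_pos hk hn)) ?_
    have h1 : m • k • (n • P + T) = 0 := by rw [h0, smul_zero]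
    rw [smul_add, smul_add, smul_comm m k T, hmT, smul_zero, add_zero] at h1
    rw [mul_smul, mul_smul]
    exact h1
  have hpmT : ∀ σ : N ≃ₐ[K] N, m • pm (σ : N →ₐ[K] N) T = 0 := by
    intro σ
    rw [← map_nsmul, hmT, map_zero]
  have hτ' : ∀ i j, i ≠ j → ¬ Tq (pm (τ i : N →ₐ[K] N) (n • P + T))
      (pm (τ j : N →ₐ[K] N) (n • P + T)) := by
    rintro i j hij ⟨r, hr, h0⟩
    refine hτ i j hij ⟨m * (r * n), Nat.mul_pos hm (Nat.mul_pos hr hn), ?_⟩
    have h1 := congrArg (fun Q => m • Q) h0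
    beta_reduce at h1
    rw [map_add, map_add, map_nsmul, map_nsmul, smul_add, smul_add, smul_add, smul_add,
      smul_comm m r (pm _ T), smul_comm m r (pm _ T), hpmT, hpmT, smul_zero, add_zero,
      add_zero] at h1
    rw [mul_smul, mul_smul, mul_smul, mul_smul]
    exact h1
  have hL0' : ∀ g ∈ L 0, ∀ k : N ≃ₐ[K] N,
      Tq (pm ((g * k : N ≃ₐ[K] N) : N →ₐ[K] N) (n • P + T))
        (pm (k : N →ₐ[K] N) (n • P + T)) := by
    intro g hg k
    obtain ⟨r, hr, h0⟩ := hL0 g hg k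
    refine ⟨m * r, Nat.mul_pos hm hr, ?_⟩
    rw [map_add, map_add, map_nsmul, map_nsmul, smul_add, smul_add]
    have e1 : ∀ ρ : N ≃ₐ[K] N, (m * r) • pm (ρ : N →ₐ[K] N) T = 0 := by
      intro ρ
      rw [mul_comm, mul_smul, hpmT, smul_zero]
    rw [e1, e1, add_zero, add_zero, mul_smul, mul_smul, smul_comm r n, smul_comm r n, h0]
  obtain ⟨he1, hm1, hDe, hD2, -⟩ := hCls K a b N (n • P + T) _ _ rfl rfl
  have hdpos : 1 ≤ dg K (n • P + T).xRep := by
    have : FiniteDimensional K (IntermediateField.adjoin K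
      {(n • P + T).xRep 0 / (n • P + T).xRep 1}) := inferInstance
    exact Module.finrank_pos
  have he : 1 ≤ e := by
    by_contra h0
    have h1 : e = 0 := by omega
    rw [h1] at hd1
    rcases Nat.eq_zero_or_pos A with h2 | h2
    · rw [h2] at hd1
      omega
    · rw [zero_pow h2.ne', mul_zero] at hd1
      omega
  obtain ⟨h', hh', hle⟩ := H N (n • P + T) hP' ⟨e, τ, hτ', by
    refine le_trans ?_ (?_ : 2 * (A * e ^ A) ≤ (2 * A + 1) * e ^ (2 * A + 1) + (2 * A + 1))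
    · calc _ ≤ _ := Nat.le_mul_of_pos_left _ he1
        _ ≤ 2 * dg K (n • P + T).xRep := hD2
        _ ≤ 2 * (A * e ^ A) := Nat.mul_le_mul_left _ hd1
    · rw [← mul_assoc]
      exact (Nat.mul_le_mul (by omega) (Nat.pow_le_pow_right he (by omega))).trans
        (Nat.le_add_right _ _), l, L, hL0', hLl, fun i hi => by
      obtain ⟨h3, h4, h5⟩ := hLi i hi
      refine ⟨h3, h4, h5.imp id fun h6 => h6.trans ?_⟩
      nlinarith [Nat.zero_le (e ^ A)]⟩
  have hhh : h' = (n : ℝ) ^ 2 * h := hasHt_mul_add hD hq2 hM hL P T n m hm hmT hh hh'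
  have hn0 : (0 : ℝ) < n := by exact_mod_cast hn
  have hd0 : (0 : ℝ) < dg K (n • P + T).xRep := by exact_mod_cast hdpos
  have hdP : (0 : ℝ) < dg K P.xRep := by
    have : 1 ≤ dg K P.xRep := by
      have : FiniteDimensional K (IntermediateField.adjoin K {P.xRep 0 / P.xRep 1}) := inferInstance
      exact Module.finrank_pos
    exact_mod_cast this
  have hd2' : (n : ℝ) ^ 2 * dg K (n • P + T).xRep ≤ (A + 1) * dg K P.xRep := by
    have : (n : ℝ) ^ 2 * dg K (n • P + T).xRep ≤ A * dg K P.xRep := by exact_mod_cast hd2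
    nlinarith
  rw [hhh, div_le_iff₀ hd0] at hle
  rw [div_div, div_le_iff₀ (by positivity)]
  have h0 : 0 < h := by
    by_contra h1
    replace h1 := not_lt.1 h1
    have : (n : ℝ) ^ 2 * h * dg K (n • P + T).xRep ≤ 0 := by
      apply mul_nonpos_of_nonpos_of_nonneg _ hd0.le
      exact mul_nonpos_of_nonneg_of_nonpos (by positivity) h1
    linarith
  calc c ≤ (n : ℝ) ^ 2 * h * dg K (n • P + T).xRep := hle
    _ = h * ((n : ℝ) ^ 2 * dg K (n • P + T).xRep) := by ring
    _ ≤ h * ((A + 1) * dg K P.xRep) := mul_le_mul_of_nonneg_left hd2' h0.le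

/-! ## The map of the multiplication over a field -/

/-- the forms of the multiplication by `n` over a field of characteristic zero -/
theorem exists_lat (hA : AddsubStatement) {K : Type} [Field K] {a b : K}
    (hD : 4 * a ^ 3 + 27 * b ^ 2 ≠ 0) [CharZero K] (n : ℕ) :
    ∃ F : Fin 2 → MvPolynomial (Fin 2) K, Mor (n ^ 2) F ∧ IsLat a b n F := by
  have hell : (Ws a b).IsElliptic := by
    refine ⟨?_⟩
    have h1 : (Ws a b).Δ = -16 * (4 * a ^ 3 + 27 * b ^ 2) := by
      simp only [WeierstrassCurve.Δ, WeierstrassCurve.b₂, WeierstrassCurve.b₄,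
        WeierstrassCurve.b₆, WeierstrassCurve.b₈, Ws]
      ring
    rw [h1]
    exact IsUnit.mk0 _ (mul_ne_zero (by norm_num) hD)
  obtain ⟨F, hF⟩ := Mulf.exists_isMul hA K (Ws a b) n
  refine ⟨F, ⟨hF.hom, ?_⟩, ?_⟩
  · intro N _ _ P hP h0
    apply hP
    have h1 := hF.prime (RingHom.ker (aeval P : MvPolynomial (Fin 2) K →ₐ[K] N))
      (RingHom.ker_isPrime _) (fun i => by
        rw [RingHom.mem_ker]
        exact congrFun h0 i)
    funext i
    have h2 := h1 i
    rw [RingHom.mem_ker] at h2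
    rw [aeval_X] at h2
    exact h2
  · intro M _ _ P
    obtain ⟨c, hc, h⟩ := hF.val M (algebraMap K M) ((Ws a b).baseChange M) rfl P
    exact ⟨c, hc, h⟩

/-! ## Points of a Weierstrass equation -/

section W
variable {K : Type} [Field K] [CharZero K] (W : WeierstrassCurve K)

/-- the isomorphism with the points of the short equation -/
noncomputable def eS (M : Type) [Field M] [Algebra K M] :
    Wpt W M ≃+ Ept (Du.sa W) (Du.sb W) M where
  toFun := toS W M
  invFun := ofS W M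
  left_inv := ofS_toS W M
  right_inv := toS_ofS W M
  map_add' := map_add _

theorem eS_apply (M : Type) [Field M] [Algebra K M] (P : Wpt W M) : eS W M P = toS W M P := rfl

theorem dg_toS (M : Type) [Field M] [Algebra K M] (P : Wpt W M) :
    dg K (toS W M P).xRep = dg K P.xRep := by
  by_cases hP : P = 0
  · rw [hP, map_zero]
    rfl
  · have h1 : toS W M P ≠ 0 := fun h => hP (toS_inj W M (by rw [h, map_zero]))
    rw [← sh_toS W M P, FinS.dg_sh _ h1]

theorem tq_toS (M : Type) [Field M] [Algebra K M] (P Q : Wpt W M) :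
    Tq (toS W M P) (toS W M Q) ↔ ∃ r : ℕ, 1 ≤ r ∧ r • P = r • Q := by
  constructor
  · rintro ⟨r, hr, h⟩
    refine ⟨r, hr, toS_inj W M ?_⟩
    rw [map_nsmul, map_nsmul, h]
  · rintro ⟨r, hr, h⟩
    refine ⟨r, hr, ?_⟩
    rw [← map_nsmul, ← map_nsmul, h]

/-- The heights of the multiples. -/
theorem tendsto_toS {N : Type} [Field N] [NumberField N] [Algebra K N] (P : Wpt W N) {h : ℝ}
    (H : Tendsto (fun n : ℕ => Height.logHeight (n • toS W N P).xRep /
      (Module.finrank ℚ N : ℝ) / (n : ℝ) ^ 2) atTop (𝓝 h)) :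
    Tendsto (fun n : ℕ => Height.logHeight (n • P).xRep /
      (Module.finrank ℚ N : ℝ) / (n : ℝ) ^ 2) atTop (𝓝 h) := by
  obtain ⟨C, hC⟩ := FrS.ht_sh (algebraMap K N (W.b₂ / 12))
  have hN : (0 : ℝ) < (Module.finrank ℚ N : ℝ) := by exact_mod_cast Module.finrank_pos
  have h0 : Tendsto (fun n : ℕ => (C / (Module.finrank ℚ N : ℝ)) * ((n : ℝ) ^ 2)⁻¹) atTop
      (𝓝 0) := by
    have h1 : Tendsto (fun n : ℕ => ((n : ℝ) ^ 2)⁻¹) atTop (𝓝 0) := by
      refine tendsto_inv_atTop_zero.comp ?_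
      exact (tendsto_pow_atTop (two_ne_zero)).comp tendsto_natCast_atTop_atTop
    have := h1.const_mul (C / (Module.finrank ℚ N : ℝ))
    rwa [mul_zero] at this
  have hz : Tendsto (fun n : ℕ => Height.logHeight (n • P).xRep / (Module.finrank ℚ N : ℝ) /
      (n : ℝ) ^ 2 - Height.logHeight (n • toS W N P).xRep / (Module.finrank ℚ N : ℝ) /
      (n : ℝ) ^ 2) atTop (𝓝 0) := by
    refine squeeze_zero_norm (fun n => ?_) h0
    have e := hC (n • toS W N P).xRep
    rw [← map_nsmul, sh_toS, map_nsmul] at e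
    rw [← sub_div, ← sub_div, div_div, Real.norm_eq_abs, abs_div,
      abs_of_nonneg (by positivity : (0 : ℝ) ≤ (Module.finrank ℚ N : ℝ) * (n : ℝ) ^ 2)]
    have e3 : (C / (Module.finrank ℚ N : ℝ)) * ((n : ℝ) ^ 2)⁻¹ =
        C / ((Module.finrank ℚ N : ℝ) * (n : ℝ) ^ 2) := by
      rw [div_mul_eq_mul_div, ← div_eq_mul_inv, div_div, mul_comm]
    rw [e3]
    exact div_le_div_of_nonneg_right e (by positivity)
  have h2 := Tendsto.add H hz
  rw [add_zero] at h2
  refine h2.congr fun n => ?_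
  ring

/-- The torsion groups. -/
noncomputable def eT (M : Type) [Field M] [Algebra K M] (n : ℕ) :
    Op.Tn (Wpt W M) n ≃+ Op.Tn (Ept (Du.sa W) (Du.sb W) M) n where
  toFun Q := ⟨toS W M Q, by
    rw [Op.mem_Tn, ← map_nsmul, Op.mem_Tn.1 Q.2, map_zero]⟩
  invFun Q := ⟨ofS W M Q, by
    rw [Op.mem_Tn, ← map_nsmul, Op.mem_Tn.1 Q.2, map_zero]⟩
  left_inv Q := Subtype.ext (ofS_toS W M Q)
  right_inv Q := Subtype.ext (toS_ofS W M Q)
  map_add' Q R := Subtype.ext (map_add (toS W M) _ _)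

/-- The image of the Galois group is open: from the Weierstrass equation to the short one. -/
theorem openIm_W
    (h : ∃ B : ℕ, ∀ n : ℕ, 1 ≤ n →
      Nonempty (Op.Tn (Wpt W (AlgebraicClosure K)) n ≃+ ZMod n × ZMod n) ∧
      Nat.card (Op.Tn (Wpt W (AlgebraicClosure K)) n ≃+ Op.Tn (Wpt W (AlgebraicClosure K)) n) ≤
        B * Nat.card {f : Op.Tn (Wpt W (AlgebraicClosure K)) n ≃+
          Op.Tn (Wpt W (AlgebraicClosure K)) n //
            ∃ σ : AlgebraicClosure K ≃ₐ[K] AlgebraicClosure K,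
              ∀ Q : Op.Tn (Wpt W (AlgebraicClosure K)) n,
                ((f Q : Op.Tn (Wpt W (AlgebraicClosure K)) n) : Wpt W (AlgebraicClosure K)) =
                  WeierstrassCurve.Affine.Point.map
                    (σ : AlgebraicClosure K →ₐ[K] AlgebraicClosure K)
                    (Q : Wpt W (AlgebraicClosure K))}) : OpenIm (Du.sa W) (Du.sb W) := by
  obtain ⟨B, hB⟩ := h
  refine ⟨B, fun n hn => ?_⟩
  obtain ⟨⟨φ⟩, hcard⟩ := hB n hn
  set ε := eT W (AlgebraicClosure K) n with hε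
  let E : (Op.Tn (Wpt W (AlgebraicClosure K)) n ≃+ Op.Tn (Wpt W (AlgebraicClosure K)) n) ≃
      (Op.Tn (Ept (Du.sa W) (Du.sb W) (AlgebraicClosure K)) n ≃+
        Op.Tn (Ept (Du.sa W) (Du.sb W) (AlgebraicClosure K)) n) :=
    { toFun := fun f => (ε.symm.trans f).trans ε
      invFun := fun g => (ε.trans g).trans ε.symm
      left_inv := fun f => by
        ext Q
        simp
      right_inv := fun g => by
        ext Q
        simp }
  refine ⟨⟨ε.symm.trans φ⟩, ?_⟩
  rw [← Nat.card_congr E]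
  refine hcard.trans (Nat.mul_le_mul_left _ (le_of_eq ?_))
  refine Nat.card_congr (E.subtypeEquiv fun f => ?_)
  refine exists_congr fun σ => ?_
  constructor
  · intro h1 Q
    have h2 := h1 (ε.symm Q)
    have h3 : ((E f Q : Op.Tn (Ept (Du.sa W) (Du.sb W) (AlgebraicClosure K)) n) :
        Ept (Du.sa W) (Du.sb W) (AlgebraicClosure K)) =
        toS W (AlgebraicClosure K) (f (ε.symm Q) : Wpt W (AlgebraicClosure K)) := rfl
    rw [h3, h2, ← pm_toS]
    congr 1
    exact toS_ofS W (AlgebraicClosure K) Q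
  · intro h1 Q
    have h2 := h1 (ε Q)
    have h3 : ((E f (ε Q) : Op.Tn (Ept (Du.sa W) (Du.sb W) (AlgebraicClosure K)) n) :
        Ept (Du.sa W) (Du.sb W) (AlgebraicClosure K)) =
        toS W (AlgebraicClosure K) (f Q : Wpt W (AlgebraicClosure K)) := by
      change toS W (AlgebraicClosure K) (f (ε.symm (ε Q)) : Wpt W (AlgebraicClosure K)) = _
      rw [AddEquiv.symm_apply_apply]
    have h4 : ((ε Q : Op.Tn (Ept (Du.sa W) (Du.sb W) (AlgebraicClosure K)) n) :
        Ept (Du.sa W) (Du.sb W) (AlgebraicClosure K)) =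
        toS W (AlgebraicClosure K) (Q : Wpt W (AlgebraicClosure K)) := rfl
    rw [h3, h4, pm_toS] at h2
    exact toS_inj W _ h2

end W

end Pool.DynLehmer.LE
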