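import Pool.Agent.Lib.MP_2194ec_nt.LE.DefsC
import Pool.Agent.Lib.MP_2194ec_nt.LE.Gen
import Pool.Agent.Lib.MP_2194ec_nt.Morphism

set_option autoImplicit false
set_option linter.unusedSectionVars false

/-!
# Endomorphisms of a curve given by an arbitrary Weierstrass equation
-/

namespace Pool.DynLehmer.LE
open MvPolynomial NumberField Filter Topology Pool.DynLehmer Pool.DynLehmer.SB Pool.DynLehmer.SP
  Pool.DynLehmer.GS Pool.DynLehmer.LP Pool.DynLehmer.LW
open scoped Classical

/-- An endomorphism `J` over `K` of the curve `W`: a natural family of endomorphisms of the groups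
of points over the fields which contain `K`, given in the first coordinate by a pair `G` of forms of
degree `d`, with `J ^ 2 = t J - n`. -/
structure EndW {K : Type} [Field K] (W : WeierstrassCurve K) where
  /-- the endomorphism -/
  J : ∀ (M : Type) [Field M] [Algebra K M], Wpt W M →+ Wpt W M
  /-- the degree -/
  d : ℕ
  /-- the map of the first coordinates -/
  G : Fin 2 → MvPolynomial (Fin 2) K
  /-- the trace -/
  t : ℤ
  /-- the norm -/
  n : ℤ
  nat : ∀ (M M' : Type) [Field M] [Algebra K M] [Field M'] [Algebra K M'] (φ : M →ₐ[K] M')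
    (P : Wpt W M), WeierstrassCurve.Affine.Point.map φ (J M P) =
      J M' (WeierstrassCurve.Affine.Point.map φ P)
  hom : ∀ i, (G i).IsHomogeneous d
  onX : ∀ (M : Type) [Field M] [Algebra K M] (P : Wpt W M),
    ∃ c : M, c ≠ 0 ∧ (fun i => aeval P.xRep (G i)) = c • (J M P).xRep
  sq : ∀ (M : Type) [Field M] [Algebra K M] (P : Wpt W M), J M (J M P) = t • J M P - n • P

namespace EndW
variable {K : Type} [Field K] {W : WeierstrassCurve K}

/-- The forms have no common zeros. -/
theorem ne (E : EndW W) (hΔ : W.Δ ≠ 0) (z : Fin 2 → AlgebraicClosure K)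
    (h : ∀ i, aeval z (E.G i) = 0) : z = 0 := by
  by_contra hz
  have hell : (W.baseChange (AlgebraicClosure K)).IsElliptic := by
    refine ⟨?_⟩
    change IsUnit (W.map (algebraMap K (AlgebraicClosure K))).Δ
    rw [WeierstrassCurve.map_Δ]
    exact (IsUnit.mk0 _ hΔ).map _
  obtain ⟨P, s, hs, hzP⟩ := Mulf.exists_point (W.baseChange (AlgebraicClosure K)) z hz
  obtain ⟨c, hc, hP⟩ := E.onX (AlgebraicClosure K) P
  have h1 : ∀ i, aeval P.xRep (E.G i) = 0 := by
    intro i
    have h2 := h i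
    rw [hzP, Pool.DynLehmer.aeval_smul_hom (E.hom i)] at h2
    exact (mul_eq_zero.1 h2).resolve_left (pow_ne_zero _ hs)
  have h3 : c • (E.J (AlgebraicClosure K) P).xRep = 0 := by
    rw [← hP]
    funext i
    exact h1 i
  exact WeierstrassCurve.Affine.Point.xRep_ne_zero _ ((smul_eq_zero.1 h3).resolve_left hc)

variable [CharZero K]

theorem map_ofS {M M' : Type} [Field M] [Algebra K M] [Field M'] [Algebra K M'] (φ : M →ₐ[K] M')
    (P : Ept (Du.sa W) (Du.sb W) M) :
    WeierstrassCurve.Affine.Point.map φ (ofS W M P) = ofS W M' (pm φ P) := by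
  apply toS_inj W M'
  rw [← pm_toS, toS_ofS, toS_ofS]

end EndW

open EndW in
/-- The endomorphism of the short equation. -/
noncomputable def EndW.toH {K : Type} [Field K] [NumberField K] {W : WeierstrassCurve K}
    (E : EndW W) (hΔ : W.Δ ≠ 0) : EndH (Du.sa W) (Du.sb W) where
  J := fun M _ _ => (toS W M).comp ((E.J M).comp (ofS W M))
  d := E.d
  t := E.t
  n := E.n
  nat := by
    intro M M' _ _ _ _ φ P
    simp only [AddMonoidHom.comp_apply]
    rw [pm_toS, E.nat, map_ofS]
  sq := by
    intro M _ _ P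
    simp only [AddMonoidHom.comp_apply]
    rw [ofS_toS, E.sq, map_sub, map_zsmul, map_zsmul, toS_ofS]
  ht := by
    intro N _ _ _
    obtain ⟨C, hC⟩ := FrS.ht_sh (algebraMap K N (W.b₂ / 12))
    obtain ⟨C', hC', hH⟩ := height_morphism E.G E.d E.hom (E.ne hΔ)
    refine ⟨C + C' * Module.finrank ℚ N + E.d * C, fun P => ?_⟩
    simp only [AddMonoidHom.comp_apply]
    set Q : Wpt W N := ofS W N P with hQ
    obtain ⟨c, hc, e⟩ := E.onX N Q
    have h1 := hC (toS W N (E.J N Q)).xRep
    rw [sh_toS] at h1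
    have h2 := hH N Q.xRep
    rw [e, Height.logHeight_smul_eq_logHeight _ hc] at h2
    have h3 := hC P.xRep
    have h4 : sh (algebraMap K N (W.b₂ / 12)) P.xRep = Q.xRep := by
      rw [← sh_toS W N Q, hQ, toS_ofS]
    rw [h4] at h3
    have hd : (0 : ℝ) ≤ E.d := Nat.cast_nonneg _
    rw [abs_le] at h1 h2 h3 ⊢
    constructor <;> nlinarith [mul_le_mul_of_nonneg_left h3.1 hd, mul_le_mul_of_nonneg_left h3.2 hd]

/-- The image of the Galois group on the torsion is open in the group of the automorphisms which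
commute with the endomorphism `J`. -/
def OpenHW {K : Type} [Field K] {W : WeierstrassCurve K} (E : EndW W) : Prop :=
  ∃ B : ℕ, ∀ n : ℕ, 1 ≤ n →
    (∃ Q₀ : Wpt W (AlgebraicClosure K), Oj.IsB (E.J (AlgebraicClosure K)) n Q₀) ∧
    Nat.card {f : Op.Tn (Wpt W (AlgebraicClosure K)) n ≃+ Op.Tn (Wpt W (AlgebraicClosure K)) n //
          ∀ Q, f (Oj.JT (E.J (AlgebraicClosure K)) n Q) =
            Oj.JT (E.J (AlgebraicClosure K)) n (f Q)} ≤
      B * Nat.card {f : Op.Tn (Wpt W (AlgebraicClosure K)) n ≃+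
        Op.Tn (Wpt W (AlgebraicClosure K)) n //
          ∃ σ : AlgebraicClosure K ≃ₐ[K] AlgebraicClosure K,
            ∀ Q : Op.Tn (Wpt W (AlgebraicClosure K)) n,
              ((f Q : Op.Tn (Wpt W (AlgebraicClosure K)) n) : Wpt W (AlgebraicClosure K)) =
                WeierstrassCurve.Affine.Point.map
                  (σ : AlgebraicClosure K →ₐ[K] AlgebraicClosure K)
                  (Q : Wpt W (AlgebraicClosure K))}

theorem openH_W {K : Type} [Field K] [NumberField K] {W : WeierstrassCurve K} (E : EndW W)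
    (hΔ : W.Δ ≠ 0) (h : OpenHW E) : OpenH (E.toH hΔ) := by
  obtain ⟨B, hB⟩ := h
  refine ⟨B, fun n hn => ?_⟩
  obtain ⟨⟨Q₀, hQ₀⟩, hcard⟩ := hB n hn
  set ε := eT W (AlgebraicClosure K) n with hε
  let T : Type := Op.Tn (Wpt W (AlgebraicClosure K)) n
  let X : (Op.Tn (Wpt W (AlgebraicClosure K)) n ≃+ Op.Tn (Wpt W (AlgebraicClosure K)) n) ≃
      (Op.Tn (Ept (Du.sa W) (Du.sb W) (AlgebraicClosure K)) n ≃+
        Op.Tn (Ept (Du.sa W) (Du.sb W) (AlgebraicClosure K)) n) :=
    { toFun := fun f => (ε.symm.trans f).trans ε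
      invFun := fun g => (ε.trans g).trans ε.symm
      left_inv := fun f => by
        ext Q
        simp
      right_inv := fun g => by
        ext Q
        simp }
  have hJ : ∀ Q : Op.Tn (Wpt W (AlgebraicClosure K)) n,
      ε (Oj.JT (E.J (AlgebraicClosure K)) n Q) =
        Oj.JT ((E.toH hΔ).J (AlgebraicClosure K)) n (ε Q) := by
    intro Q
    refine Subtype.ext ?_
    change toS W (AlgebraicClosure K) (E.J (AlgebraicClosure K) Q) =
      toS W (AlgebraicClosure K) (E.J (AlgebraicClosure K)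
        (ofS W (AlgebraicClosure K) (toS W (AlgebraicClosure K) Q)))
    rw [ofS_toS]
  refine ⟨⟨toS W (AlgebraicClosure K) Q₀, ?_, ?_, ?_⟩, ?_⟩
  · rw [← map_nsmul, hQ₀.1, map_zero]
  · intro Q hQ
    obtain ⟨x, y, h1⟩ := hQ₀.2.1 (ofS W (AlgebraicClosure K) Q) (by
      rw [← map_nsmul, hQ, map_zero])
    refine ⟨x, y, ?_⟩
    change Q = x • toS W (AlgebraicClosure K) Q₀ + y • toS W (AlgebraicClosure K)
      (E.J (AlgebraicClosure K) (ofS W (AlgebraicClosure K) (toS W (AlgebraicClosure K) Q₀)))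
    rw [ofS_toS, ← map_zsmul, ← map_zsmul, ← map_add, ← h1, toS_ofS]
  · intro x y h1
    refine hQ₀.2.2 x y (toS_inj W (AlgebraicClosure K) ?_)
    change x • toS W (AlgebraicClosure K) Q₀ + y • toS W (AlgebraicClosure K)
      (E.J (AlgebraicClosure K) (ofS W (AlgebraicClosure K) (toS W (AlgebraicClosure K) Q₀))) = 0
      at h1
    rw [ofS_toS, ← map_zsmul, ← map_zsmul, ← map_add] at h1
    rw [h1, map_zero]
  · have hc1 : Nat.card {f : Op.Tn (Wpt W (AlgebraicClosure K)) n ≃+
        Op.Tn (Wpt W (AlgebraicClosure K)) n //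
          ∀ Q, f (Oj.JT (E.J (AlgebraicClosure K)) n Q) =
            Oj.JT (E.J (AlgebraicClosure K)) n (f Q)} =
        Nat.card {f : Op.Tn (Ept (Du.sa W) (Du.sb W) (AlgebraicClosure K)) n ≃+
        Op.Tn (Ept (Du.sa W) (Du.sb W) (AlgebraicClosure K)) n //
          ∀ Q, f (Oj.JT ((E.toH hΔ).J (AlgebraicClosure K)) n Q) =
            Oj.JT ((E.toH hΔ).J (AlgebraicClosure K)) n (f Q)} := by
      refine Nat.card_congr (X.subtypeEquiv fun f => ?_)
      have hX : ∀ Q, X f (ε Q) = ε (f Q) := by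
        intro Q
        change ε (f (ε.symm (ε Q))) = _
        rw [AddEquiv.symm_apply_apply]
      constructor
      · intro h1 Q
        obtain ⟨Q, rfl⟩ := ε.surjective Q
        rw [← hJ, hX, hX, h1, hJ]
      · intro h1 Q
        apply ε.injective
        rw [← hX, hJ, h1, hX, ← hJ]
    rw [← hc1]
    refine hcard.trans (Nat.mul_le_mul_left _ (le_of_eq ?_))
    refine Nat.card_congr (X.subtypeEquiv fun f => ?_)
    refine exists_congr fun σ => ?_
    constructor
    · intro h1 Q
      have h2 := h1 (ε.symm Q)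
      have h3 : ((X f Q : Op.Tn (Ept (Du.sa W) (Du.sb W) (AlgebraicClosure K)) n) :
          Ept (Du.sa W) (Du.sb W) (AlgebraicClosure K)) =
          toS W (AlgebraicClosure K) (f (ε.symm Q) : Wpt W (AlgebraicClosure K)) := rfl
      rw [h3, h2, ← pm_toS]
      congr 1
      exact toS_ofS W (AlgebraicClosure K) Q
    · intro h1 Q
      have h2 := h1 (ε Q)
      have h3 : ((X f (ε Q) : Op.Tn (Ept (Du.sa W) (Du.sb W) (AlgebraicClosure K)) n) :
          Ept (Du.sa W) (Du.sb W) (AlgebraicClosure K)) =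
          toS W (AlgebraicClosure K) (f Q : Wpt W (AlgebraicClosure K)) := by
        change toS W (AlgebraicClosure K) (f (ε.symm (ε Q)) : Wpt W (AlgebraicClosure K)) = _
        rw [AddEquiv.symm_apply_apply]
      have h4 : ((ε Q : Op.Tn (Ept (Du.sa W) (Du.sb W) (AlgebraicClosure K)) n) :
          Ept (Du.sa W) (Du.sb W) (AlgebraicClosure K)) =
          toS W (AlgebraicClosure K) (Q : Wpt W (AlgebraicClosure K)) := rfl
      rw [h3, h4, pm_toS] at h2
      exact toS_inj W _ h2

end Pool.DynLehmer.LE
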