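import Pool.Agent.Lib.MP_2194ec_nt.LE.Opc
import Pool.Agent.Lib.MP_2194ec_nt.LE.Latg

set_option autoImplicit false
set_option linter.unusedSectionVars false

/-!
# The Lehmer bound for elliptic curves with complex multiplication outside primitive almost simple
groups
-/

namespace Pool.DynLehmer.LE
open MvPolynomial NumberField Filter Topology Pool.DynLehmer Pool.DynLehmer.SB Pool.DynLehmer.SP
  Pool.DynLehmer.GS Pool.DynLehmer.LP Pool.DynLehmer.LW
open scoped Classical

open Op Oj Oh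

/-- The stabilizers of the classes of `x P + y J P + T` and of `P`. -/
theorem sc_linH {K : Type} [Field K] {a b : K} {N : Type} [Field N] [Algebra K N] (E : EndH a b)
    (ht : E.t ^ 2 < 4 * E.n) {P T : Ept a b N} {x y : ℤ} {n : ℕ} (hxy : x ≠ 0 ∨ y ≠ 0)
    (hn : 1 ≤ n) (hT : n • T = 0) :
    (CE.Sc (x • P + y • E.J N P + T) : Subgroup (N ≃ₐ[K] N)) = CE.Sc P := by
  ext σ
  rw [CE.mem_Sc, CE.mem_Sc]
  have h3 := Oh.tq_lin E ht (P := P) hxy hn hT ((1 : N ≃ₐ[K] N) : N →ₐ[K] N) (σ : N →ₐ[K] N)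
  rw [CE.pm_one, CE.pm_one] at h3
  exact h3

/-- **Row A.** -/
theorem small_openH (hCls : ClseStatement) : SmallHStatement := by
  intro K _ _ a b E ht hOp
  obtain ⟨B, hB⟩ := hOp
  obtain ⟨C, hC⟩ : ∃ C : ℕ, 1 + |E.t| + |E.n| = (C : ℤ) :=
    ⟨(1 + |E.t| + |E.n|).toNat, (Int.toNat_of_nonneg (by positivity)).symm⟩
  refine ⟨144 * B ^ 8 + 9 + 2 * C, ?_⟩
  intro N _ _ _ _ P
  have hfd : FiniteDimensional K N := Module.Finite.of_restrictScalars_finite ℚ K N
  have hfin : Finite (N ≃ₐ[K] N) := inferInstance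
  obtain ⟨x, y, n, T, hxy, hn, hT, h1, h2⟩ := Oh.exists_redJ E ht hB P
  have hSc := sc_linH E ht (P := P) hxy hn hT
  have hnm := nm_pos ht hxy
  obtain ⟨-, -, hd1, -, -⟩ := hCls K a b N (x • P + y • E.J N P + T) _ _ rfl rfl
  obtain ⟨-, -, -, hd2, -⟩ := hCls K a b N P _ _ rfl rfl
  rw [card_cls, hSc] at hd1
  rw [card_cls] at hd2
  refine ⟨x, y, n, T, hxy, hn, hT, ?_, ?_⟩
  · rw [finrank_class]
    set e := (CE.Sc P : Subgroup (N ≃ₐ[K] N)).index with he
    have he1 : 1 ≤ e := Nat.pos_of_ne_zero Subgroup.index_ne_zero_of_finite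
    calc _ ≤ e * _ := hd1
      _ ≤ e * (144 * (B * e) ^ 8) := Nat.mul_le_mul_left _ h1
      _ = 144 * B ^ 8 * e ^ 9 := by ring
      _ ≤ (144 * B ^ 8 + 9 + 2 * C) * e ^ (144 * B ^ 8 + 9 + 2 * C) :=
          Nat.mul_le_mul (by omega) (Nat.pow_le_pow_right he1 (by omega))
  · set R : Ept a b N := x • P + y • E.J N P + T with hR
    set S : Subgroup (N ≃ₐ[K] N) := CE.Sc P with hS
    have e1 : (dg K R.xRep : ℤ) ≤ S.index * (Nat.card {Q : Ept a b N //
        (∃ σ : N ≃ₐ[K] N, pm (σ : N →ₐ[K] N) R = Q) ∧ Tq R Q} : ℤ) := by exact_mod_cast hd1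
    have e2 : (S.index : ℤ) * (Nat.card {Q : Ept a b N //
        (∃ σ : N ≃ₐ[K] N, pm (σ : N →ₐ[K] N) P = Q) ∧ Tq P Q} : ℤ) ≤
          2 * (dg K P.xRep : ℤ) := by exact_mod_cast hd2
    rw [hC] at h2
    calc nm E.t E.n x y * (dg K R.xRep : ℤ) ≤ nm E.t E.n x y * (S.index * _) :=
          mul_le_mul_of_nonneg_left e1 hnm.le
      _ = S.index * (nm E.t E.n x y * _) := by ring
      _ ≤ S.index * (C * _) := mul_le_mul_of_nonneg_left h2 (Int.natCast_nonneg _)
      _ = C * (S.index * _) := by ring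
      _ ≤ C * (2 * (dg K P.xRep : ℤ)) := mul_le_mul_of_nonneg_left e2 (Int.natCast_nonneg _)
      _ = 2 * C * (dg K P.xRep : ℤ) := by ring
      _ ≤ ((144 * B ^ 8 + 9 + 2 * C : ℕ) : ℤ) * (dg K P.xRep : ℤ) := by
          refine mul_le_mul_of_nonneg_right ?_ (Int.natCast_nonneg _)
          push_cast
          have : (0 : ℤ) ≤ 144 * (B : ℤ) ^ 8 + 9 := by positivity
          linarith

/-- **Row B.** The Lehmer bound outside primitive almost simple groups for all points of infinite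
order of a curve with complex multiplication, if the image of the Galois group on the torsion is
open in the group of the automorphisms which commute with the complex multiplication. -/
theorem bound_openH (hCls : ClseStatement) {K : Type} [Field K] [NumberField K] {a b : K}
    (hD : 4 * a ^ 3 + 27 * b ^ 2 ≠ 0) {q lam : ℕ} {F : Fin 2 → MvPolynomial (Fin 2) K}
    (hq2 : 2 ≤ q) (hM : Mor q F) (hL : IsLat a b lam F) (hE : LatteFor K a b q F)
    (E : EndH a b) (ht : E.t ^ 2 < 4 * E.n) (hO : OpenH E) (A : ℕ) (hA : 1 ≤ A) :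
    ∃ c : ℝ, 0 < c ∧
    ∀ (N : Type) [Field N] [NumberField N] [Algebra K N] [IsGalois K N] (P : Ept a b N),
      (∀ n : ℕ, 1 ≤ n → n • P ≠ 0) →
      ∃ h : ℝ, HasHt q F P.xRep h ∧ (c / (dg K P.xRep : ℝ) ≤ h ∨ ExceptionalE K P A) := by
  obtain ⟨M, hSm⟩ := small_openH hCls K a b E ht hO
  obtain ⟨c, hc, H⟩ := hE A (M + 1) hA
  refine ⟨c / (M + 1), by positivity, ?_⟩
  intro N _ _ _ _ P hP
  have hfd : FiniteDimensional K N := Module.Finite.of_restrictScalars_finite ℚ K N
  have hfin : Finite (N ≃ₐ[K] N) := inferInstance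
  obtain ⟨x, y, m, T, hxy, hm, hT, h1, h2⟩ := hSm N P
  have hSc := sc_linH E ht (P := P) hxy hm hT
  have hnm := nm_pos ht hxy
  set R : Ept a b N := x • P + y • E.J N P + T with hR
  -- a multiple of the norm kills what `R` kills
  have hkill : ∀ (D : Ept a b N), x • D + y • E.J N D = 0 →
      (nm E.t E.n x y).toNat • D = 0 := by
    intro D hD0
    have h4 := Oh.conj_mul E x y D hD0
    have h5 : nm E.t E.n x y = ((nm E.t E.n x y).toNat : ℤ) := (Int.toNat_of_nonneg hnm.le).symm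
    rw [h5, natCast_zsmul] at h4
    exact h4
  have hnt : 1 ≤ (nm E.t E.n x y).toNat := by omega
  have hR0 : ∀ k : ℕ, 1 ≤ k → k • R ≠ 0 := by
    intro k hk h0
    have h3 : x • ((m * k) • P) + y • E.J N ((m * k) • P) = 0 := by
      have h4 : m • k • R = 0 := by rw [h0, smul_zero]
      rw [hR, smul_comm m k, smul_add m, hT, add_zero, smul_comm k m, ← mul_smul, smul_add,
        smul_comm _ x, smul_comm _ y, ← map_nsmul] at h4
      exact h4
    have h4 := hkill _ h3
    rw [← mul_smul] at h4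
    exact hP _ (Nat.mul_pos hnt (Nat.mul_pos hm hk)) h4
  -- the class field
  have hcf : Module.finrank K (classFieldE K R) = Module.finrank K (classFieldE K P) := by
    rw [finrank_class, finrank_class, hSc]
  have hcfE : classFieldE K R = classFieldE K P := by
    have h3 : ∀ Q : Ept a b N, classFieldE K Q =
        IntermediateField.fixedField (CE.Sc Q : Subgroup (N ≃ₐ[K] N)) := by
      intro Q
      refine classFieldE_eq ?_
      intro g
      rw [CE.mem_Sc]
      constructor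
      · rintro ⟨r, hr, h⟩
        exact ⟨r, hr, h.symm⟩
      · rintro ⟨r, hr, h⟩
        exact ⟨r, hr, h.symm⟩
    rw [h3, h3, hSc]
  have hfr : 1 ≤ Module.finrank K (classFieldE K P) := Module.finrank_pos
  obtain ⟨h', hh', hle⟩ := H N R hR0 ⟨1, 0, le_rfl, ⟨1, le_rfl, smul_zero 1⟩, by
      rw [one_smul, add_zero, hcf]
      exact h1.trans (Nat.mul_le_mul (Nat.le_succ M) (Nat.pow_le_pow_right hfr (Nat.le_succ M))), by
      rw [one_smul, add_zero, one_pow, one_mul]
      exact Nat.le_mul_of_pos_left _ (Nat.succ_pos M)⟩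
  obtain ⟨h, hh⟩ := HQ.exists_ht hq2 hM P
  refine ⟨h, hh, ?_⟩
  have hhh : h' = (nm E.t E.n x y : ℝ) * h :=
    Oh.hasHt_lin hD hq2 hM hL E ht P T x y m hm hT hh hh'
  rcases hle with hle | hex
  · left
    have hdR : (0 : ℝ) < dg K R.xRep := by exact_mod_cast dg_pos R
    have hdP : (0 : ℝ) < dg K P.xRep := by exact_mod_cast dg_pos P
    have hd4 : (nm E.t E.n x y : ℝ) * (dg K R.xRep : ℝ) ≤ (M + 1) * (dg K P.xRep : ℝ) := by
      have h3 : (nm E.t E.n x y : ℝ) * (dg K R.xRep : ℝ) ≤ M * (dg K P.xRep : ℝ) := by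
        exact_mod_cast h2
      nlinarith
    have hnmr : (0 : ℝ) < (nm E.t E.n x y : ℝ) := by exact_mod_cast hnm
    rw [hhh, div_le_iff₀ hdR] at hle
    rw [div_div, div_le_iff₀ (by positivity)]
    have h0 : 0 < h := by
      by_contra h3
      replace h3 := not_lt.1 h3
      have : (nm E.t E.n x y : ℝ) * h * dg K R.xRep ≤ 0 := by
        apply mul_nonpos_of_nonpos_of_nonneg _ hdR.le
        exact mul_nonpos_of_nonneg_of_nonpos hnmr.le h3
      linarith
    calc c ≤ (nm E.t E.n x y : ℝ) * h * dg K R.xRep := hle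
      _ = h * ((nm E.t E.n x y : ℝ) * dg K R.xRep) := by ring
      _ ≤ h * ((M + 1) * dg K P.xRep) := mul_le_mul_of_nonneg_left hd4 h0.le
  · right
    unfold ExceptionalE at hex ⊢
    rw [hcfE] at hex
    refine ⟨hex.1, fun r s h3 hr hind => hex.2 r s h3 hr ?_⟩
    intro γ hγ
    -- `Σ γ i s i R = 0` implies that a multiple of `Σ γ i s i P` vanishes
    set D : Ept a b N := ∑ i, γ i • pm (s i : N →ₐ[K] N) P with hDdef
    have h4 : m • (x • D + y • E.J N D) = 0 := by
      have h5 : m • ∑ i, γ i • pm (s i : N →ₐ[K] N) R = 0 := by rw [hγ, smul_zero]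
      rw [← h5, hDdef, map_sum, Finset.smul_sum, Finset.smul_sum, ← Finset.sum_add_distrib,
        Finset.smul_sum, Finset.smul_sum]
      refine Finset.sum_congr rfl fun i _ => ?_
      have hpmT : m • pm (s i : N →ₐ[K] N) T = 0 := by
        rw [← map_nsmul, hT, map_zero]
      rw [hR, map_add, map_add, map_zsmul, map_zsmul, map_zsmul, E.nat, smul_comm m (γ i) (_ + _),
        smul_add m (_ + _), hpmT, add_zero, smul_comm x (γ i), smul_comm y (γ i), ← smul_add,
        smul_comm m (γ i)]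
    have h5 : (nm E.t E.n x y).toNat • (m • D) = 0 := by
      refine hkill _ ?_
      rw [map_nsmul, smul_comm x m, smul_comm y m, ← smul_add, h4]
    have h6 : ∑ i, ((((nm E.t E.n x y).toNat * m : ℕ) : ℤ) * γ i) •
        pm (s i : N →ₐ[K] N) P = 0 := by
      rw [← mul_smul, hDdef, Finset.smul_sum] at h5
      rw [← h5]
      refine Finset.sum_congr rfl fun i _ => ?_
      rw [mul_smul, natCast_zsmul]
    have h7 := hind (fun i => (((nm E.t E.n x y).toNat * m : ℕ) : ℤ) * γ i) h6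
    funext i
    have h8 := congrFun h7 i
    rcases mul_eq_zero.1 h8 with h9 | h9
    · exact absurd h9 (by exact_mod_cast (Nat.mul_pos hnt hm).ne')
    · exact h9

end Pool.DynLehmer.LE
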