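import Pool.Agent.Lib.MP_2194ec_nt.LE.DefsP
import Pool.Agent.Lib.MP_2194ec_nt.LW.PasFld

set_option autoImplicit false

/-!
# The Lehmer bound for elliptic curves outside primitive almost simple groups in terms of fields
-/

namespace Pool.DynLehmer.LE
open MvPolynomial NumberField Filter Topology Pool.DynLehmer Pool.DynLehmer.SB Pool.DynLehmer.SP
  Pool.DynLehmer.GS Pool.DynLehmer.LP Pool.DynLehmer.LW
open scoped Classical

/-- `K_P`: the field fixed by all automorphisms `g` of `N` over `K` such that `g P - P` is a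
torsion point. Its degree over `K` is the number of the classes of the conjugates of `P` modulo
torsion. -/
noncomputable def classFieldE (K : Type) [Field K] {a b : K} {N : Type} [Field N] [Algebra K N]
    (P : Ept a b N) : IntermediateField K N :=
  IntermediateField.fixedField
    (Subgroup.closure {g : N ≃ₐ[K] N | Tq (pm (g : N →ₐ[K] N) P) P})

/-- The Galois group of the Galois closure of `F` over `E`, which is `Gal(N / E)` modulo the
normal core of `Gal(N / F)`, has a simple normal subgroup `T` with trivial centralizer and more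
than `e ^ A` elements; if `T` is isomorphic to the alternating group of degree `n`, then
`n ^ A > e ^ (A - 1)`. -/
def AlmostSimple {K N : Type} [Field K] [Field N] [Algebra K N] (E F : IntermediateField K N)
    (A e : ℕ) : Prop :=
  ∃ T : Subgroup (E.fixingSubgroup ⧸ (F.fixingSubgroup.subgroupOf E.fixingSubgroup).normalCore),
    T.Normal ∧ IsSimpleGroup T ∧ Subgroup.centralizer
      (T : Set (E.fixingSubgroup ⧸ (F.fixingSubgroup.subgroupOf E.fixingSubgroup).normalCore)) = ⊥ ∧
    e ^ A < Nat.card T ∧ ∀ n : ℕ, Nonempty (T ≃* alternatingGroup (Fin n)) → e ^ (A - 1) < n ^ A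

/-- The exceptional points: there are fields `K ≤ E < F ≤ K_P` with no field strictly between `E`
and `F`, `[K_P : F] ≤ 2` and `[E : K] ^ A < e = [K_P : K]`, such that the Galois group of the Galois
closure of `F` over `E` is almost simple, and any `k ≤ A` linearly independent conjugates `s i P`
of `P` generate modulo torsion a field of degree more than `e ^ (k - 1 / A)` over `K`. -/
def Exceptional (K : Type) [Field K] {a b : K} {N : Type} [Field N] [Algebra K N] (P : Ept a b N)
    (A : ℕ) : Prop :=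
  (∃ E F : IntermediateField K N, E < F ∧ F ≤ classFieldE K P ∧
    (∀ M : IntermediateField K N, E ≤ M → M ≤ F → M = E ∨ M = F) ∧
    IntermediateField.relfinrank F (classFieldE K P) ≤ 2 ∧
    Module.finrank K E ^ A < Module.finrank K (classFieldE K P) ∧
    AlmostSimple E F A (Module.finrank K (classFieldE K P))) ∧
  ∀ (k : ℕ) (s : Fin k → (N ≃ₐ[K] N)), 2 ≤ k → k ≤ A →
    (∀ γ : Fin k → ℤ, ∑ i, γ i • pm (s i : N →ₐ[K] N) P = 0 → γ = 0) →
    Module.finrank K (classFieldE K P) ^ (k * A - 1) <
      Module.finrank K (⨆ i, (classFieldE K P).map (s i : N →ₐ[K] N) : IntermediateField K N) ^ A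

/-- **The Lehmer bound for elliptic curves outside primitive almost simple groups**, in terms of
fields. -/
def LatfStatement : Prop :=
  ∀ (K : Type) [Field K] [NumberField K] (a b : K), 4 * a ^ 3 + 27 * b ^ 2 ≠ 0 → NoCM a b →
    ∀ (p s lam : ℕ) (v : FinitePlace K) (F : Fin 2 → MvPolynomial (Fin 2) K), HypR p s v F →
    2 ≤ lam → lam ^ 2 = p ^ s → IsLat a b lam F →
    ∀ A M : ℕ, 1 ≤ A → ∃ c : ℝ, 0 < c ∧
    ∀ (N : Type) [Field N] [NumberField N] [Algebra K N] [IsGalois K N] (P : Ept a b N),
      (∀ n : ℕ, 1 ≤ n → n • P ≠ 0) →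
      Nat.card {Q : Ept a b N // (∃ σ : N ≃ₐ[K] N, pm (σ : N →ₐ[K] N) P = Q) ∧ Tq P Q} ≤
        M * Module.finrank K (classFieldE K P) ^ M →
      (∃ h : ℝ, HasHt (p ^ s) F P.xRep h ∧ c / (dg K P.xRep : ℝ) ≤ h) ∨ Exceptional K P A

theorem classFieldE_eq {K : Type} [Field K] {a b : K} {N : Type} [Field N] [Algebra K N]
    {P : Ept a b N} {S : Subgroup (N ≃ₐ[K] N)}
    (hS : ∀ g : N ≃ₐ[K] N, g ∈ S ↔ Tq (pm (g : N →ₐ[K] N) P) P) :
    classFieldE K P = IntermediateField.fixedField S := by
  have h1 : {g : N ≃ₐ[K] N | Tq (pm (g : N →ₐ[K] N) P) P} = (S : Set (N ≃ₐ[K] N)) := by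
    ext g
    exact (hS g).symm
  unfold classFieldE
  rw [h1, Subgroup.closure_eq]

theorem latf (h : LatpStatement) : LatfStatement := by
  intro K _ _ a b hΔ hCM p s lam v F hR hlam hq hLat A M hA
  obtain ⟨c, hc, hmain⟩ := h K a b hΔ hCM p s lam v F hR hlam hq hLat A M hA
  refine ⟨c, hc, ?_⟩
  intro N _ _ _ _ P hP hm
  have hfd : FiniteDimensional K N := Module.Finite.of_restrictScalars_finite ℚ K N
  obtain ⟨S, hS, hb⟩ := hmain N P hP
  have hKS : (classFieldE K P).fixingSubgroup = S := by
    rw [classFieldE_eq hS, IntermediateField.fixingSubgroup_fixedField]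
  have hidx : Module.finrank K (classFieldE K P) = S.index := by
    rw [classFieldE_eq hS, PasFld.finrank_fixed]
  rw [hidx] at hm
  rcases hb hm with hb | ⟨hind, hpas⟩
  · exact Or.inl hb
  refine Or.inr ⟨PasFld.pas_fields hpas hKS, ?_⟩
  intro k σ hk2 hkA hσ
  rw [PasFld.finrank_iSup, hKS, hidx]
  exact hind k σ hk2 hkA hσ

end Pool.DynLehmer.LE
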