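import Pool.Agent.Lib.MP_2194ec_nt.LE.DefsPu
import Pool.Agent.Lib.MP_2194ec_nt.LE.LatpFld

set_option autoImplicit false

/-!
# The Lehmer bound for all elliptic curves outside primitive almost simple groups in terms of fields
-/

namespace Pool.DynLehmer.LE
open MvPolynomial NumberField Filter Topology Pool.DynLehmer Pool.DynLehmer.SB Pool.DynLehmer.SP
  Pool.DynLehmer.GS Pool.DynLehmer.LP Pool.DynLehmer.LW
open scoped Classical

/-- The exceptional points: there are fields `K ≤ E < F ≤ K_P` with no field strictly between `E`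
and `F`, with `[K_P : F] ≤ 81`, and `[K_P : F] ≤ 2` if the curve has no complex multiplication, and
with `[E : K] ^ A < e = [K_P : K]`, such that the Galois group of the Galois closure of `F` over `E`
is almost simple; and among any `3 ≤ m ≤ A` linearly independent conjugates `s i P` of `P` there are
`k ≥ m / 2` which generate modulo torsion a field of degree more than `e ^ (k - 1 / A)` over `K`; if
the curve has no complex multiplication, any `2 ≤ k ≤ A` linearly independent conjugates of `P`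
do. -/
def ExceptionalU (K : Type) [Field K] {a b : K} {N : Type} [Field N] [Algebra K N] (P : Ept a b N)
    (A : ℕ) : Prop :=
  (∃ E F : IntermediateField K N, E < F ∧ F ≤ classFieldE K P ∧
    (∀ M : IntermediateField K N, E ≤ M → M ≤ F → M = E ∨ M = F) ∧
    IntermediateField.relfinrank F (classFieldE K P) ≤ 81 ∧
    (NoCM a b → IntermediateField.relfinrank F (classFieldE K P) ≤ 2) ∧
    Module.finrank K E ^ A < Module.finrank K (classFieldE K P) ∧
    AlmostSimple E F A (Module.finrank K (classFieldE K P))) ∧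
  (∀ (m : ℕ) (s : Fin m → (N ≃ₐ[K] N)), 3 ≤ m → m ≤ A →
    (∀ γ : Fin m → ℤ, ∑ i, γ i • pm (s i : N →ₐ[K] N) P = 0 → γ = 0) →
    ∃ (k : ℕ) (ι : Fin k → Fin m), Function.Injective ι ∧ m ≤ 2 * k ∧
      Module.finrank K (classFieldE K P) ^ (k * A - 1) <
        Module.finrank K (⨆ i, (classFieldE K P).map (s (ι i) : N →ₐ[K] N) :
          IntermediateField K N) ^ A) ∧
  (NoCM a b → ∀ (k : ℕ) (s : Fin k → (N ≃ₐ[K] N)), 2 ≤ k → k ≤ A →
    (∀ γ : Fin k → ℤ, ∑ i, γ i • pm (s i : N →ₐ[K] N) P = 0 → γ = 0) →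
    Module.finrank K (classFieldE K P) ^ (k * A - 1) <
      Module.finrank K (⨆ i, (classFieldE K P).map (s i : N →ₐ[K] N) : IntermediateField K N) ^ A)

/-- **The Lehmer bound for elliptic curves outside primitive almost simple groups**, all elliptic
curves, in terms of fields. -/
def LatfuStatement : Prop :=
  ∀ (K : Type) [Field K] [NumberField K] (a b : K), 4 * a ^ 3 + 27 * b ^ 2 ≠ 0 →
    ∀ (p s lam : ℕ) (v : FinitePlace K) (F : Fin 2 → MvPolynomial (Fin 2) K), HypR p s v F →
    2 ≤ lam → lam ^ 2 = p ^ s → IsLat a b lam F →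
    ∀ A M : ℕ, 1 ≤ A → ∃ c : ℝ, 0 < c ∧
    ∀ (N : Type) [Field N] [NumberField N] [Algebra K N] [IsGalois K N] (P : Ept a b N),
      (∀ n : ℕ, 1 ≤ n → n • P ≠ 0) →
      Nat.card {Q : Ept a b N // (∃ σ : N ≃ₐ[K] N, pm (σ : N →ₐ[K] N) P = Q) ∧ Tq P Q} ≤
        M * Module.finrank K (classFieldE K P) ^ M →
      (∃ h : ℝ, HasHt (p ^ s) F P.xRep h ∧ c / (dg K P.xRep : ℝ) ≤ h) ∨ ExceptionalU K P A

theorem indE_indH {K : Type} [Field K] {a b : K} {N : Type} [Field N] [Algebra K N]
    {P : Ept a b N} {S : Subgroup (N ≃ₐ[K] N)} {A : ℕ} (h : IndE P S A) : IndH P S A := by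
  intro m σ hm hmA hσ
  exact ⟨m, id, Function.injective_id, by omega, h m σ (by omega) hmA hσ⟩

theorem latfu (h₁ : LatpStatement) (h₂ : LatpuStatement) : LatfuStatement := by
  intro K _ _ a b hΔ p s lam v F hR hlam hq hLat A M hA
  by_cases hCM : NoCM a b
  · obtain ⟨c, hc, hmain⟩ := h₁ K a b hΔ hCM p s lam v F hR hlam hq hLat A M hA
    refine ⟨c, hc, ?_⟩
    intro N _ _ _ _ P hP hm
    have hfd : FiniteDimensional K N := Module.Finite.of_restrictScalars_finite ℚ K N
    obtain ⟨S, hS, hb⟩ := hmain N P hP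
    have hKS : (classFieldE K P).fixingSubgroup = S := by
      rw [classFieldE_eq hS, IntermediateField.fixingSubgroup_fixedField]
    have hidx : Module.finrank K (classFieldE K P) = S.index := by
      rw [classFieldE_eq hS, PasFld.finrank_fixed]
    rw [hidx] at hm
    rcases hb hm with hb | ⟨hind, hpas⟩
    · exact Or.inl hb
    obtain ⟨E, F, h1, h2, h3, h4, h5, h6⟩ := PasFld.pas_fields hpas hKS
    refine Or.inr ⟨⟨E, F, h1, h2, h3, by omega, fun _ => h4, h5, h6⟩, ?_, ?_⟩
    · intro m σ hm3 hmA hσ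
      obtain ⟨k, ι, hι, hk, hlt⟩ := indE_indH hind m σ hm3 hmA hσ
      refine ⟨k, ι, hι, hk, ?_⟩
      rw [PasFld.finrank_iSup, hKS, hidx]
      exact hlt
    · intro _ k σ hk2 hkA hσ
      rw [PasFld.finrank_iSup, hKS, hidx]
      exact hind k σ hk2 hkA hσ
  · obtain ⟨c, hc, hmain⟩ := h₂ K a b hΔ p s lam v F hR hlam hq hLat A M hA
    refine ⟨c, hc, ?_⟩
    intro N _ _ _ _ P hP hm
    have hfd : FiniteDimensional K N := Module.Finite.of_restrictScalars_finite ℚ K N
    obtain ⟨S, hS, hb⟩ := hmain N P hP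
    have hKS : (classFieldE K P).fixingSubgroup = S := by
      rw [classFieldE_eq hS, IntermediateField.fixingSubgroup_fixedField]
    have hidx : Module.finrank K (classFieldE K P) = S.index := by
      rw [classFieldE_eq hS, PasFld.finrank_fixed]
    rw [hidx] at hm
    rcases hb hm with hb | ⟨hind, hpas⟩
    · exact Or.inl hb
    obtain ⟨E, F, h1, h2, h3, h4, h5, h6⟩ := PasFld.pas_fields hpas hKS
    refine Or.inr ⟨⟨E, F, h1, h2, h3, h4, fun h => absurd h hCM, h5, h6⟩, ?_,
      fun h => absurd h hCM⟩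
    intro m σ hm3 hmA hσ
    obtain ⟨k, ι, hι, hk, hlt⟩ := hind m σ hm3 hmA hσ
    refine ⟨k, ι, hι, hk, ?_⟩
    rw [PasFld.finrank_iSup, hKS, hidx]
    exact hlt

end Pool.DynLehmer.LE
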