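import Pool.Agent.Lib.MP_2194ec_nt.LE.Latg
import Pool.Agent.Lib.MP_2194ec_nt.LE.Gen

set_option autoImplicit false
set_option linter.unusedSectionVars false

/-!
# The Lehmer bound outside primitive almost simple groups: arbitrary Weierstrass equations
-/

namespace Pool.DynLehmer.LE
open MvPolynomial NumberField Filter Topology Pool.DynLehmer Pool.DynLehmer.SB Pool.DynLehmer.SP
  Pool.DynLehmer.GS Pool.DynLehmer.LP Pool.DynLehmer.LW
open scoped Classical

namespace Lw
open Pg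

section scale
variable {K : Type} [Field K] {a b a' b' w : K} (hs : ScR (Ws a b) (Ws a' b') w)

theorem class_scP {N : Type} [Field N] [Algebra K N] (P : Ept a b N) :
    classFieldE K (scP hs N P) = classFieldE K P := by
  have h : {g : N ≃ₐ[K] N | Tq (pm (g : N →ₐ[K] N) (scP hs N P)) (scP hs N P)} =
      {g : N ≃ₐ[K] N | Tq (pm (g : N →ₐ[K] N) P) P} := by
    ext g
    rw [Set.mem_ofPred_eq, Set.mem_ofPred_eq, pm_scP, tq_scP]
  unfold classFieldE
  rw [h]

theorem small_scP {N : Type} [Field N] [Algebra K N] {P : Ept a b N} {M : ℕ}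
    (h : SmallM K P M) : SmallM K (scP hs N P) M := by
  obtain ⟨n, T, hn, ⟨m, hm, hT⟩, h1, h2⟩ := h
  refine ⟨n, scP hs N T, hn, ⟨m, hm, by rw [← map_nsmul, hT, map_zero]⟩, ?_, ?_⟩
  · rw [← map_nsmul, ← map_add, dg_scP, class_scP]
    exact h1
  · rw [← map_nsmul, ← map_add, dg_scP, dg_scP]
    exact h2

theorem exc_scP {N : Type} [Field N] [Algebra K N] {P : Ept a b N} {A : ℕ}
    (h : ExceptionalE K (scP hs N P) A) : ExceptionalE K P A := by
  unfold ExceptionalE at h
  rw [class_scP] at h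
  refine ⟨h.1, fun m s h3 hm hind => h.2 m s h3 hm fun γ hγ => hind γ ?_⟩
  apply scP_inj hs N
  rw [map_sum, map_zero, ← hγ]
  refine Finset.sum_congr rfl fun i _ => ?_
  rw [map_zsmul, pm_scP]

end scale

/-- The canonical heights of a point and of its image under the scaling. -/
theorem hasHt_scP {K : Type} [Field K] [NumberField K] {a b a' b' w : K} (hs : ScR (Ws a b) (Ws a' b') w)
    {q lam : ℕ} {F F' : Fin 2 → MvPolynomial (Fin 2) K} (hq : 2 ≤ q)
    (hM : ∀ i, (F i).IsHomogeneous q) (hM' : ∀ i, (F' i).IsHomogeneous q)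
    (hL : IsLat a b lam F) (hL' : IsLat a' b' lam F') {N : Type} [Field N] [NumberField N]
    [Algebra K N] (P : Ept a b N) {ht : ℝ} (hht : HasHt q F' (scP hs N P).xRep ht) :
    HasHt q F P.xRep ht := by
  rw [HQ.hasHt_iff hM hL]
  rw [HQ.hasHt_iff hM' hL'] at hht
  obtain ⟨C, hC⟩ := ht_scP hs (N := N)
  have hN : (0 : ℝ) < (Module.finrank ℚ N : ℝ) := by exact_mod_cast Module.finrank_pos
  have hq1 : (1 : ℝ) < q := by exact_mod_cast hq
  have h0 : Tendsto (fun n : ℕ => (C / (Module.finrank ℚ N : ℝ)) * ((q : ℝ)⁻¹) ^ n) atTop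
      (𝓝 0) := by
    have := (tendsto_pow_atTop_nhds_zero_of_lt_one (inv_nonneg.2 (by linarith : (0 : ℝ) ≤ q))
      (inv_lt_one_of_one_lt₀ hq1)).const_mul (C / (Module.finrank ℚ N : ℝ))
    rwa [mul_zero] at this
  have hz : Tendsto (fun n : ℕ => Height.logHeight ((lam ^ n) • scP hs N P).xRep /
      (Module.finrank ℚ N : ℝ) / (q : ℝ) ^ n - Height.logHeight ((lam ^ n) • P).xRep /
      (Module.finrank ℚ N : ℝ) / (q : ℝ) ^ n) atTop (𝓝 0) := by
    refine squeeze_zero_norm (fun n => ?_) h0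
    have hqn : (0 : ℝ) < (q : ℝ) ^ n := by positivity
    have e := hC ((lam ^ n) • P)
    rw [map_nsmul] at e
    rw [← sub_div, ← sub_div, div_div, Real.norm_eq_abs, abs_div, abs_of_pos (mul_pos hN hqn)]
    have e3 : (C / (Module.finrank ℚ N : ℝ)) * ((q : ℝ)⁻¹) ^ n =
        C / ((Module.finrank ℚ N : ℝ) * (q : ℝ) ^ n) := by
      rw [inv_pow]
      field_simp
    rw [e3]
    exact div_le_div_of_nonneg_right e (mul_pos hN hqn).le
  have h2 := Tendsto.sub hht hz
  rw [sub_zero] at h2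
  refine h2.congr fun n => ?_
  ring

/-- Scaling of the curve. -/
theorem latte_scale {K : Type} [Field K] [NumberField K] {a b a' b' w : K}
    (hs : ScR (Ws a b) (Ws a' b') w) {q lam : ℕ} {F F' : Fin 2 → MvPolynomial (Fin 2) K}
    (hq : 2 ≤ q) (hM : ∀ i, (F i).IsHomogeneous q) (hM' : ∀ i, (F' i).IsHomogeneous q)
    (hL : IsLat a b lam F) (hL' : IsLat a' b' lam F') (h : LatteFor K a' b' q F') :
    LatteFor K a b q F := by
  intro A M hA
  obtain ⟨c, hc, H⟩ := h A M hA
  refine ⟨c, hc, ?_⟩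
  intro N _ _ _ _ P hP hsm
  obtain ⟨ht, hht, hle⟩ := H N (scP hs N P) (by
      intro n hn h0
      refine hP n hn (scP_inj hs N ?_)
      rw [map_nsmul, h0, map_zero]) (small_scP hs hsm)
  refine ⟨ht, hasHt_scP hs hq hM hM' hL hL' P hht, hle.imp (fun hle => ?_) (exc_scP hs)⟩
  rw [dg_scP] at hle
  exact hle

end Lw

/-- The curve has good supersingular reduction at some place: for a place `v` of `K` over a prime
`p` it has a Weierstrass equation `W₀` with coefficients in the valuation ring of `v` and with good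
supersingular reduction. -/
def GSS {K : Type} [Field K] [NumberField K] (W : WeierstrassCurve K) : Prop :=
  ∃ (p : ℕ) (v : FinitePlace K) (W₀ : WeierstrassCurve (OW v)) (C : WeierstrassCurve.VariableChange K),
    p.Prime ∧ SupersG p v W₀ ∧ C • W = W₀.map (OW v).subtype

open Pg Lw in
/-- **The Lehmer bound outside primitive almost simple groups, for an arbitrary Weierstrass equation
of a curve with good supersingular reduction at a place over any prime.** -/
theorem gss_bound (hFin : FineuSStatement) (hFree : FreeluStatement) (hRep : RepeStatement)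
    (hCls : ClseStatement) (hGrp : PashStatement) (hA : AddsubStatement)
    {K : Type} [Field K] [NumberField K] (W : WeierstrassCurve K) (hP : GSS W) :
    ∃ p : ℕ, 2 ≤ p ∧ ∀ F : Fin 2 → MvPolynomial (Fin 2) K, Mor (p ^ 2) F →
      IsLat (Du.sa W) (Du.sb W) p F → LatteFor K (Du.sa W) (Du.sb W) (p ^ 2) F := by
  obtain ⟨p, v, W₀, C, hp, hS, hC⟩ := hP
  refine ⟨p, hp.two_le, fun F hM hL => ?_⟩
  have hq2 : 2 ≤ p ^ 2 := by
    have := hp.two_le
    nlinarith
  obtain ⟨F₀, hR, hF⟩ := superG hA K p v W₀ hp hS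
  set W₁ : WeierstrassCurve K := W₀.map (OW v).subtype with hW
  have hL₀ := superG_lat W₁ p F₀ hF
  have hΔ : 4 * Du.sa W₁ ^ 3 + 27 * Du.sb W₁ ^ 2 ≠ 0 := by
    rw [disc_short, neg_ne_zero]
    refine div_ne_zero ?_ (by norm_num)
    rw [hW, WeierstrassCurve.map_Δ]
    exact (hS.disc.map (OW v).subtype).ne_zero
  have hM₁ : Mor (p ^ 2) (FrS.un (W₁.b₂ / 12) F₀) :=
    FrS.mor_un _ (Pool.DynLehmer.GS.mor K p 2 v F₀ hR)
  have hL₁ : IsLat (Du.sa W₁) (Du.sb W₁) p (FrS.un (W₁.b₂ / 12) F₀) := FrS.isLat_un hL₀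
  have hE := fineFor_un hFin K (Du.sa W₁) (Du.sb W₁) (W₁.b₂ / 12) hΔ p 2 p v F₀ hR hp.two_le rfl hL₀
  have hT := latteF hFree hRep hCls hGrp K _ _ hΔ (p ^ 2) p _ hq2 hM₁ hp.two_le hL₁ hE
  have hs : ScR (Ws (Du.sa W) (Du.sb W)) (Ws (Du.sa W₁) (Du.sb W₁)) ((C.u⁻¹ : Kˣ) : K) := by
    rw [← hC]
    refine scR (Units.ne_zero _) ?_ ?_
    · simp only [Du.sa, WeierstrassCurve.variableChange_c₄]
      ring
    · simp only [Du.sb, WeierstrassCurve.variableChange_c₆]
      ring
  exact latte_scale hs hq2 hM.hom hM₁.hom hL hL₁ hT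

/-! ## The points of the Weierstrass equation -/

section W
variable {K : Type} [Field K] [CharZero K] (W : WeierstrassCurve K)

/-- `K_P` for the points of `W`. -/
noncomputable def classFieldW {N : Type} [Field N] [Algebra K N] (P : Wpt W N) :
    IntermediateField K N :=
  IntermediateField.fixedField (Subgroup.closure {g : N ≃ₐ[K] N |
    ∃ r : ℕ, 1 ≤ r ∧ r • WeierstrassCurve.Affine.Point.map (g : N →ₐ[K] N) P = r • P})

theorem class_toS {N : Type} [Field N] [Algebra K N] (P : Wpt W N) :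
    classFieldE K (toS W N P) = classFieldW W P := by
  have h : {g : N ≃ₐ[K] N | Tq (pm (g : N →ₐ[K] N) (toS W N P)) (toS W N P)} =
      {g : N ≃ₐ[K] N | ∃ r : ℕ, 1 ≤ r ∧
        r • WeierstrassCurve.Affine.Point.map (g : N →ₐ[K] N) P = r • P} := by
    ext g
    rw [Set.mem_ofPred_eq, Set.mem_ofPred_eq, pm_toS, tq_toS]
  unfold classFieldE classFieldW
  rw [h]

theorem ind_toS {N : Type} [Field N] [Algebra K N] (P : Wpt W N) {m : ℕ}
    (s : Fin m → (N ≃ₐ[K] N))
    (h : ∀ γ : Fin m → ℤ,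
      ∑ i, γ i • WeierstrassCurve.Affine.Point.map (s i : N →ₐ[K] N) P = 0 → γ = 0) :
    ∀ γ : Fin m → ℤ, ∑ i, γ i • pm (s i : N →ₐ[K] N) (toS W N P) = 0 → γ = 0 := by
  intro γ hγ
  refine h γ (toS_inj W N ?_)
  rw [map_sum, map_zero, ← hγ]
  refine Finset.sum_congr rfl fun i _ => ?_
  rw [map_zsmul, pm_toS]

end W

end Pool.DynLehmer.LE
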