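import Mathlib

set_option autoImplicit false

/-!
# The forms of the multiplication by `n` on the first coordinates of an elliptic curve
-/

namespace Pool.DynLehmer.LE.Mulf
open MvPolynomial
open scoped Classical

/-- the map of Mathlib on the pairs of first coordinates -/
def AddSub : Prop :=
  ∀ (L : Type) [Field L] (W : WeierstrassCurve L) (P Q : WeierstrassCurve.Affine.Point W),
    ∃ c : L, c ≠ 0 ∧ (fun i => eval (P.sym2x Q) (W.addSubMap i)) = c • (P + Q).sym2x (P - Q)

/-- the symmetric product of two vectors -/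
def sy {S : Type} [CommRing S] (u w : Fin 2 → S) : Fin 3 → S :=
  ![u 0 * w 0, u 0 * w 1 + u 1 * w 0, u 1 * w 1]

theorem sym2x_eq {M : Type} [Field M] {W : WeierstrassCurve.Affine M} (P Q : W.Point) :
    P.sym2x Q = sy P.xRep Q.xRep := rfl

theorem sy_smul {S : Type} [CommRing S] (c d : S) (u w : Fin 2 → S) :
    sy (c • u) (d • w) = (c * d) • sy u w := by
  funext i
  fin_cases i <;> simp [sy] <;> ring

theorem sy_inj {M : Type} [Field M] (u u' w : Fin 2 → M) (hw : w ≠ 0) (h : sy u w = sy u' w) :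
    u = u' := by
  have h0 := congrFun h 0
  have h1 := congrFun h 1
  have h2 := congrFun h 2
  simp only [sy, Matrix.cons_val_zero, Matrix.cons_val_one, Matrix.cons_val_two, Matrix.cons_val,
    Matrix.head_cons, Matrix.tail_cons] at h0 h1 h2
  by_cases hw0 : w 0 = 0
  · have hw1 : w 1 ≠ 0 := by
      intro hw1
      exact hw (by funext i; fin_cases i <;> simpa)
    have e1 : u 1 = u' 1 := mul_right_cancel₀ hw1 h2
    have e0 : u 0 = u' 0 := by
      rw [hw0, mul_zero, mul_zero, add_zero, add_zero] at h1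
      exact mul_right_cancel₀ hw1 h1
    funext i; fin_cases i <;> simpa
  · have e0 : u 0 = u' 0 := mul_right_cancel₀ hw0 h0
    have e1 : u 1 = u' 1 := by
      rw [e0] at h1
      exact mul_right_cancel₀ hw0 (add_left_cancel h1)
    funext i; fin_cases i <;> simpa

/-- two linear factors of a binary quadratic form, one of them known -/
theorem split {S : Type} [CommRing S] [IsDomain S] [UniqueFactorizationMonoid S]
    (α β H0 H1 H2 : S) (hab : IsRelPrime α β)
    (h : H2 * α ^ 2 - H1 * α * β + H0 * β ^ 2 = 0) :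
    ∃ A B : S, H0 = A * α ∧ H1 = A * β + B * α ∧ H2 = B * β := by
  by_cases hβ : β = 0
  · subst hβ
    have hα : IsUnit α := by
      apply hab (dvd_refl α) (dvd_zero α)
    obtain ⟨t, rfl⟩ := hα
    have h2 : H2 = 0 := by
      have : H2 * (t : S) ^ 2 = 0 := by simpa using h
      exact (mul_eq_zero.mp this).resolve_right (pow_ne_zero _ t.ne_zero)
    refine ⟨H0 * (↑t⁻¹ : S), H1 * (↑t⁻¹ : S), by simp, by simp, by simp [h2]⟩
  by_cases hα : α = 0
  · subst hα
    have hβ' : IsUnit β := by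
      apply hab (dvd_zero β) (dvd_refl β)
    obtain ⟨t, rfl⟩ := hβ'
    have h0 : H0 = 0 := by
      have : H0 * (t : S) ^ 2 = 0 := by simpa using h
      exact (mul_eq_zero.mp this).resolve_right (pow_ne_zero _ t.ne_zero)
    refine ⟨H1 * (↑t⁻¹ : S), H2 * (↑t⁻¹ : S), by simp [h0], by simp, by simp⟩
  have d2 : β ∣ H2 * α ^ 2 := ⟨H1 * α - H0 * β, by linear_combination h⟩
  have d2' : β ∣ H2 := (IsRelPrime.pow_right (n := 2) hab.symm).dvd_of_dvd_mul_right d2
  have d0 : α ∣ H0 * β ^ 2 := ⟨H1 * β - H2 * α, by linear_combination h⟩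
  have d0' : α ∣ H0 := (IsRelPrime.pow_right (n := 2) hab).dvd_of_dvd_mul_right d0
  obtain ⟨B, hB⟩ := d2'
  obtain ⟨A, hA⟩ := d0'
  refine ⟨A, B, by rw [hA]; ring, ?_, by rw [hB]; ring⟩
  have h3 : α * β * (A * β + B * α - H1) = 0 := by
    rw [hA, hB] at h
    linear_combination h
  rcases mul_eq_zero.mp h3 with h4 | h4
  · exact absurd h4 (mul_ne_zero hα hβ)
  · linear_combination -h4

/-! ## Forms -/

theorem hom_mul {S : Type} [CommRing S] {d e : ℕ} {φ ψ : MvPolynomial (Fin 2) S}
    (hφ : φ.IsHomogeneous d) :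
    homogeneousComponent (d + e) (φ * ψ) = φ * homogeneousComponent e ψ := by
  conv_lhs => rw [← sum_homogeneousComponent ψ, Finset.mul_sum, map_sum]
  have h1 : ∀ i ∈ Finset.range (ψ.totalDegree + 1),
      homogeneousComponent (d + e) (φ * homogeneousComponent i ψ) =
        if e = i then φ * homogeneousComponent i ψ else 0 := by
    intro i _
    rw [homogeneousComponent_of_mem (hφ.mul (homogeneousComponent_isHomogeneous i ψ))]
    by_cases h : e = i
    · rw [if_pos h, if_pos (by rw [h])]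
    · rw [if_neg h, if_neg (by omega)]
  rw [Finset.sum_congr rfl h1, Finset.sum_ite_eq]
  by_cases h : e ∈ Finset.range (ψ.totalDegree + 1)
  · rw [if_pos h]
  · rw [if_neg h, homogeneousComponent_eq_zero, mul_zero]
    rw [Finset.mem_range] at h
    omega

theorem eval2_smul {σ S M : Type} [Fintype σ] [CommRing S] [Field M] (r : S →+* M) {d : ℕ}
    {φ : MvPolynomial σ S} (hφ : φ.IsHomogeneous d) (t : M) (u : σ → M) :
    eval₂ r (t • u) φ = t ^ d * eval₂ r u φ := by
  rw [eval₂_eq', eval₂_eq', Finset.mul_sum]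
  apply Finset.sum_congr rfl
  intro m hm
  have hd : m.degree = d := by
    by_contra h
    exact (mem_support_iff.mp hm) (hφ.coeff_eq_zero h)
  rw [Finsupp.degree_eq_sum] at hd
  simp only [Pi.smul_apply, smul_eq_mul, mul_pow]
  rw [Finset.prod_mul_distrib, Finset.prod_pow_eq_pow_sum, hd]
  ring

/-- the values of forms -/
noncomputable def ev {S M : Type} [CommRing S] [Field M] (r : S →+* M)
    (F : Fin 2 → MvPolynomial (Fin 2) S) (u : Fin 2 → M) : Fin 2 → M := fun i => eval₂ r u (F i)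

/-- `F` is the multiplication by `n` on the first coordinates of the points of `W`. -/
structure IsMul {R : Type} [CommRing R] (W : WeierstrassCurve R) (n : ℕ)
    (F : Fin 2 → MvPolynomial (Fin 2) R) : Prop where
  hom : ∀ i, (F i).IsHomogeneous (n ^ 2)
  prime : ∀ I : Ideal (MvPolynomial (Fin 2) R), I.IsPrime → (∀ i, F i ∈ I) → ∀ i, X i ∈ I
  val : ∀ (M : Type) [Field M] (r : R →+* M) (W' : WeierstrassCurve M), W.map r = W' →
    ∀ P : WeierstrassCurve.Affine.Point W', ∃ c : M, c ≠ 0 ∧ ev r F P.xRep = c • (n • P).xRep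

section step

variable {R : Type} [CommRing R] {W : WeierstrassCurve R}

theorem IsMul.zero : IsMul W 0 ![1, 0] where
  hom := by
    intro i
    fin_cases i
    · exact isHomogeneous_one _ _
    · exact isHomogeneous_zero _ _ _
  prime := by
    intro I hI h i
    exact absurd ((Ideal.eq_top_iff_one I).mpr (by simpa using h 0)) hI.ne_top
  val := by
    intro M _ r W' _ P
    refine ⟨1, one_ne_zero, ?_⟩
    funext i
    fin_cases i <;> simp [ev]

theorem IsMul.one : IsMul W 1 (fun i => X i) where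
  hom := by
    intro i
    simpa using isHomogeneous_X R i
  prime := by
    intro I _ h i
    exact h i
  val := by
    intro M _ r W' _ P
    refine ⟨1, one_ne_zero, ?_⟩
    funext i
    simp [ev]

theorem IsMul.val_smul {n : ℕ} {F : Fin 2 → MvPolynomial (Fin 2) R} (hF : IsMul W n F)
    {M : Type} [Field M] (r : R →+* M) (W' : WeierstrassCurve M) (h : W.map r = W')
    (P : WeierstrassCurve.Affine.Point W') (t : M) (ht : t ≠ 0) :
    ∃ c : M, c ≠ 0 ∧ ev r F (t • P.xRep) = c • (n • P).xRep := by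
  obtain ⟨c, hc, h1⟩ := hF.val M r W' h P
  refine ⟨t ^ (n ^ 2) * c, mul_ne_zero (pow_ne_zero _ ht) hc, ?_⟩
  funext i
  have h2 := congrFun h1 i
  simp only [ev, Pi.smul_apply, smul_eq_mul] at h2 ⊢
  rw [eval2_smul r (hF.hom i), h2, mul_assoc]

/-- the forms `H` of the step -/
noncomputable def HH (W : WeierstrassCurve R) (F : Fin 2 → MvPolynomial (Fin 2) R) :
    Fin 3 → MvPolynomial (Fin 2) R := fun j =>
  eval (sy F (fun i => X i)) ((W.map (C : R →+* MvPolynomial (Fin 2) R)).addSubMap j)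

theorem HH_eval {M : Type} [Field M] (r : R →+* M) (W' : WeierstrassCurve M) (h : W.map r = W')
    (F : Fin 2 → MvPolynomial (Fin 2) R) (u : Fin 2 → M) (j : Fin 3) :
    eval₂ r u (HH W F j) = eval (sy (ev r F u) u) (W'.addSubMap j) := by
  subst h
  fin_cases j <;>
    simp [HH, WeierstrassCurve.addSubMap, sy, ev, WeierstrassCurve.map_b₂,
      WeierstrassCurve.map_b₄, WeierstrassCurve.map_b₆, WeierstrassCurve.map_b₈]


theorem HH_hom {n : ℕ} {F : Fin 2 → MvPolynomial (Fin 2) R} (hF : ∀ i, (F i).IsHomogeneous n)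
    (j : Fin 3) : (HH W F j).IsHomogeneous ((n + 1) * 2) := by
  have h1 : HH W F j = eval₂ (C : R →+* MvPolynomial (Fin 2) R) (sy F (fun i => X i))
      (W.addSubMap j) := by
    have e2 : (C 2 : MvPolynomial (Fin 2) R) = 2 := map_ofNat C 2
    have e4 : (C 4 : MvPolynomial (Fin 2) R) = 4 := map_ofNat C 4
    fin_cases j <;>
      simp [HH, WeierstrassCurve.addSubMap, WeierstrassCurve.map_b₂,
        WeierstrassCurve.map_b₄, WeierstrassCurve.map_b₆, WeierstrassCurve.map_b₈, e2, e4]
  rw [h1]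
  apply (WeierstrassCurve.isHomogeneous_addSubMap W j).eval₂
  · intro r
    exact isHomogeneous_C _ r
  · intro i
    fin_cases i
    · exact (hF 0).mul (isHomogeneous_X R 0)
    · exact ((hF 0).mul (isHomogeneous_X R 1)).add ((hF 1).mul (isHomogeneous_X R 0))
    · exact (hF 1).mul (isHomogeneous_X R 1)

theorem HH_prime [W.IsElliptic] (F : Fin 2 → MvPolynomial (Fin 2) R)
    (hF : ∀ I : Ideal (MvPolynomial (Fin 2) R), I.IsPrime → (∀ i, F i ∈ I) → ∀ i, X i ∈ I)
    (I : Ideal (MvPolynomial (Fin 2) R)) (hI : I.IsPrime) (h : ∀ j, HH W F j ∈ I) :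
    ∀ i, X i ∈ I := by
  have h1 : ∀ i : Fin 3, sy F (fun i => X i) i ∈ I := by
    intro i
    apply hI.mem_of_pow_mem 4
    rw [← WeierstrassCurve.addSubMapCoeff_condition (W.map (C : R →+* MvPolynomial (Fin 2) R))
      (sy F (fun i => X i)) i]
    exact Ideal.sum_mem _ fun j _ => Ideal.mul_mem_left _ _ (h j)
  have s0 : F 0 * X 0 ∈ I := h1 0
  have s1 : F 0 * X 1 + F 1 * X 0 ∈ I := h1 1
  have s2 : F 1 * X 1 ∈ I := h1 2
  by_cases hx : (X 0 : MvPolynomial (Fin 2) R) ∈ I
  · have s3 : F 0 * X 1 ∈ I := (Ideal.add_mem_iff_left I (Ideal.mul_mem_left _ _ hx)).mp s1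
    by_cases hy : (X 1 : MvPolynomial (Fin 2) R) ∈ I
    · intro i
      fin_cases i
      · exact hx
      · exact hy
    · exact absurd (hF I hI (fun i => by
        fin_cases i
        · exact (hI.mem_or_mem s3).resolve_right hy
        · exact (hI.mem_or_mem s2).resolve_right hy) 1) hy
  · have f0 : F 0 ∈ I := (hI.mem_or_mem s0).resolve_right hx
    have s4 : F 1 * X 0 ∈ I :=
      (Ideal.add_mem_iff_right I (Ideal.mul_mem_right _ _ f0)).mp s1
    have f1 : F 1 ∈ I := (hI.mem_or_mem s4).resolve_right hx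
    exact absurd (hF I hI (fun i => by fin_cases i <;> assumption) 0) hx

theorem relPrime [IsDomain R] [UniqueFactorizationMonoid R] (F : Fin 2 → MvPolynomial (Fin 2) R)
    (hF : ∀ I : Ideal (MvPolynomial (Fin 2) R), I.IsPrime → (∀ i, F i ∈ I) → ∀ i, X i ∈ I) :
    IsRelPrime (F 0) (F 1) := by
  intro d h0 h1
  by_contra hu
  by_cases hd : d = 0
  · subst hd
    have e : ∀ i, F i ∈ (⊥ : Ideal (MvPolynomial (Fin 2) R)) := by
      intro i
      fin_cases i
      · exact zero_dvd_iff.mp h0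
      · exact zero_dvd_iff.mp h1
    have := hF ⊥ Ideal.isPrime_bot e 0
    exact X_ne_zero 0 this
  obtain ⟨g, hg, hgd⟩ := WfDvdMonoid.exists_irreducible_factor hu hd
  have hgp : Prime g := hg.prime
  have hI : (Ideal.span {g}).IsPrime := (Ideal.span_singleton_prime hgp.ne_zero).mpr hgp
  have h2 := hF _ hI (fun i => by
    rw [Ideal.mem_span_singleton]
    fin_cases i
    · exact hgd.trans h0
    · exact hgd.trans h1)
  have x0 : g ∣ X 0 := Ideal.mem_span_singleton.mp (h2 0)
  have x1 : g ∣ X 1 := Ideal.mem_span_singleton.mp (h2 1)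
  obtain ⟨a, ha⟩ := x0
  have hX : Irreducible (X 0 : MvPolynomial (Fin 2) R) := (X_prime (i := (0 : Fin 2))).irreducible
  rcases hX.isUnit_or_isUnit ha with h3 | h3
  · exact hg.not_isUnit h3
  · obtain ⟨t, rfl⟩ := h3
    have h4 : (X 0 : MvPolynomial (Fin 2) R) ∣ X 1 := by
      refine dvd_trans ⟨(↑t⁻¹ : MvPolynomial (Fin 2) R), ?_⟩ x1
      rw [ha, mul_assoc, Units.mul_inv, mul_one]
    obtain ⟨b, hb⟩ := h4
    have h5 := congrArg (eval (![0, 1] : Fin 2 → R)) hb
    simp at h5

theorem exists_point {M : Type} [Field M] [IsAlgClosed M] (W' : WeierstrassCurve M)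
    [W'.IsElliptic] (u : Fin 2 → M) (hu : u ≠ 0) :
    ∃ (P : WeierstrassCurve.Affine.Point W') (t : M), t ≠ 0 ∧ u = t • P.xRep := by
  by_cases h1 : u 1 = 0
  · have h0 : u 0 ≠ 0 := fun h0 => hu (by funext i; fin_cases i <;> simpa)
    refine ⟨0, u 0, h0, ?_⟩
    funext i
    fin_cases i <;> simp [h1]
  · set x := u 0 / u 1 with hx
    obtain ⟨y, hy⟩ : ∃ y : M, y ^ 2 + (W'.a₁ * x + W'.a₃) * y -
        (x ^ 3 + W'.a₂ * x ^ 2 + W'.a₄ * x + W'.a₆) = 0 := by
      have hd : (Polynomial.X ^ 2 + Polynomial.C (W'.a₁ * x + W'.a₃) * Polynomial.X +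
          Polynomial.C (-(x ^ 3 + W'.a₂ * x ^ 2 + W'.a₄ * x + W'.a₆)) :
          Polynomial M).degree ≠ 0 := by
        have : (Polynomial.X ^ 2 + Polynomial.C (W'.a₁ * x + W'.a₃) * Polynomial.X +
          Polynomial.C (-(x ^ 3 + W'.a₂ * x ^ 2 + W'.a₄ * x + W'.a₆)) :
          Polynomial M).degree = 2 := by compute_degree!
        rw [this]; decide
      obtain ⟨y, hy⟩ := IsAlgClosed.exists_root _ hd
      refine ⟨y, ?_⟩
      simp only [Polynomial.IsRoot.def, Polynomial.eval_add, Polynomial.eval_mul,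
        Polynomial.eval_pow, Polynomial.eval_X, Polynomial.eval_C] at hy
      linear_combination hy
    have he : WeierstrassCurve.Affine.Equation W' x y := by
      rw [WeierstrassCurve.Affine.equation_iff]
      linear_combination hy
    refine ⟨.some x y (WeierstrassCurve.Affine.equation_iff_nonsingular.mp he), u 1, h1, ?_⟩
    funext i
    fin_cases i
    · simp [hx, mul_div_cancel₀, h1]
    · simp


theorem val_HH {M : Type} [Field M] (hA : AddSub) (r : R →+* M) (W' : WeierstrassCurve M)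
    (h : W.map r = W') {m : ℕ} {F : Fin 2 → MvPolynomial (Fin 2) R} (hF : IsMul W (m + 1) F)
    (P : WeierstrassCurve.Affine.Point W') (t : M) (ht : t ≠ 0) :
    ∃ c : M, c ≠ 0 ∧ (fun j => eval₂ r (t • P.xRep) (HH W F j)) =
      c • sy ((m + 2) • P).xRep (m • P).xRep := by
  obtain ⟨c1, hc1, h1⟩ := hF.val_smul r W' h P t ht
  obtain ⟨c2, hc2, h2⟩ := hA M W' ((m + 1) • P) P
  refine ⟨(c1 * t) ^ 2 * c2, mul_ne_zero (pow_ne_zero _ (mul_ne_zero hc1 ht)) hc2, ?_⟩
  funext j
  have h3 := congrFun h2 j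
  simp only [Pi.smul_apply, smul_eq_mul] at h3 ⊢
  rw [HH_eval r W' h, h1, sy_smul, ← sym2x_eq]
  have h4 : eval ((c1 * t) • ((m + 1) • P).sym2x P) (W'.addSubMap j) =
      (c1 * t) ^ 2 * eval (((m + 1) • P).sym2x P) (W'.addSubMap j) :=
    eval2_smul (RingHom.id M) (WeierstrassCurve.isHomogeneous_addSubMap W' j) _ _
  rw [h4, h3, mul_assoc, sym2x_eq]
  have e1 : (m + 1) • P + P = (m + 2) • P := by rw [← succ_nsmul]
  have e2 : (m + 1) • P - P = m • P := by rw [succ_nsmul, add_sub_cancel_right]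
  rw [e1, e2]

theorem IsMul.step [IsDomain R] [UniqueFactorizationMonoid R] [W.IsElliptic] (hA : AddSub)
    {m : ℕ} {F G : Fin 2 → MvPolynomial (Fin 2) R} (hF : IsMul W (m + 1) F)
    (hG : IsMul W m G) : ∃ H, IsMul W (m + 2) H := by
  -- the quadratic form vanishes at `G`
  have hq : HH W F 2 * G 0 ^ 2 - HH W F 1 * G 0 * G 1 + HH W F 0 * G 1 ^ 2 = 0 := by
    set q := HH W F 2 * G 0 ^ 2 - HH W F 1 * G 0 * G 1 + HH W F 0 * G 1 ^ 2 with hqd
    let M : Type := AlgebraicClosure (FractionRing R)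
    let r : R →+* M := (algebraMap (FractionRing R) M).comp (algebraMap R (FractionRing R))
    have hr : Function.Injective r :=
      (algebraMap (FractionRing R) M).injective.comp (IsFractionRing.injective R (FractionRing R))
    have h1 : q * X 0 = 0 := by
      apply map_injective r hr
      apply MvPolynomial.funext
      intro u
      rw [map_zero, map_zero, eval_map]
      by_cases hu : u 0 = 0
      · rw [eval₂_mul, eval₂_X, hu, mul_zero]
      · have hu' : u ≠ 0 := fun h => hu (by rw [h]; rfl)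
        obtain ⟨P, t, ht, rfl⟩ := exists_point (W.map r) u hu'
        obtain ⟨c1, hc1, e1⟩ := val_HH hA r (W.map r) rfl hF P t ht
        obtain ⟨c2, hc2, e2⟩ := hG.val_smul r (W.map r) rfl P t ht
        have a0 := congrFun e1 0
        have a1 := congrFun e1 1
        have a2 := congrFun e1 2
        have b0 := congrFun e2 0
        have b1 := congrFun e2 1
        simp only [sy, ev, Pi.smul_apply, smul_eq_mul, Matrix.cons_val_zero, Matrix.cons_val_one,
          Matrix.cons_val_two, Matrix.head_cons, Matrix.tail_cons] at a0 a1 a2 b0 b1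
        have : eval₂ r (t • P.xRep) q = 0 := by
          simp only [hqd, eval₂_add, eval₂_sub, eval₂_mul, eval₂_pow, a0, a1, a2, b0, b1]
          ring
        rw [eval₂_mul, this, zero_mul]
    exact (mul_eq_zero.mp h1).resolve_right (X_ne_zero 0)
  obtain ⟨A, B, h0, h1, h2⟩ := split (G 0) (G 1) _ _ _ (relPrime G hG.prime) hq
  have hdeg : ((m + 1) ^ 2 + 1) * 2 = m ^ 2 + (m + 2) ^ 2 := by ring
  have hh : ∀ j, (HH W F j).IsHomogeneous (m ^ 2 + (m + 2) ^ 2) := by
    intro j
    rw [← hdeg]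
    exact HH_hom hF.hom j
  set H : Fin 2 → MvPolynomial (Fin 2) R :=
    ![homogeneousComponent ((m + 2) ^ 2) A, homogeneousComponent ((m + 2) ^ 2) B] with hH
  have k0 : HH W F 0 = H 0 * G 0 := by
    rw [← homogeneousComponent_eq_self (hh 0), h0, mul_comm A, hom_mul (hG.hom 0)]
    simp [hH, mul_comm]
  have k2 : HH W F 2 = H 1 * G 1 := by
    rw [← homogeneousComponent_eq_self (hh 2), h2, mul_comm B, hom_mul (hG.hom 1)]
    simp [hH, mul_comm]
  have k1 : HH W F 1 = H 0 * G 1 + H 1 * G 0 := by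
    rw [← homogeneousComponent_eq_self (hh 1), h1, map_add, mul_comm A, hom_mul (hG.hom 1),
      mul_comm B, hom_mul (hG.hom 0)]
    simp [hH, mul_comm]
  refine ⟨H, ?_, ?_, ?_⟩
  · intro i
    fin_cases i
    · exact homogeneousComponent_isHomogeneous _ _
    · exact homogeneousComponent_isHomogeneous _ _
  · intro I hI hi
    apply HH_prime (W := W) F hF.prime I hI
    intro j
    fin_cases j
    · change HH W F 0 ∈ I
      rw [k0]; exact Ideal.mul_mem_right _ _ (hi 0)
    · change HH W F 1 ∈ I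
      rw [k1]
      exact Ideal.add_mem _ (Ideal.mul_mem_right _ _ (hi 0)) (Ideal.mul_mem_right _ _ (hi 1))
    · change HH W F 2 ∈ I
      rw [k2]; exact Ideal.mul_mem_right _ _ (hi 1)
  · intro M _ r W' hW P
    obtain ⟨c1, hc1, e1⟩ := val_HH hA r W' hW hF P 1 one_ne_zero
    obtain ⟨c2, hc2, e2⟩ := hG.val M r W' hW P
    rw [one_smul] at e1
    have e3 : sy (ev r H P.xRep) (ev r G P.xRep) = c1 • sy ((m + 2) • P).xRep (m • P).xRep := by
      rw [← e1]
      funext j
      fin_cases j
      · simp [sy, ev, k0]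
      · simp [sy, ev, k1]
      · simp [sy, ev, k2]
    refine ⟨c1 / c2, div_ne_zero hc1 hc2, ?_⟩
    apply sy_inj _ _ (m • P).xRep (WeierstrassCurve.Affine.Point.xRep_ne_zero _)
    have e4 : sy (ev r H P.xRep) (c2 • (m • P).xRep) = c2 • sy (ev r H P.xRep) (m • P).xRep := by
      have := sy_smul (1 : M) c2 (ev r H P.xRep) (m • P).xRep
      rwa [one_smul, one_mul] at this
    have e5 : sy ((c1 / c2) • ((m + 2) • P).xRep) (m • P).xRep =
        (c1 / c2) • sy ((m + 2) • P).xRep (m • P).xRep := by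
      have := sy_smul (c1 / c2) (1 : M) ((m + 2) • P).xRep (m • P).xRep
      rwa [one_smul, mul_one] at this
    rw [e2, e4] at e3
    rw [e5, div_eq_inv_mul, mul_smul, ← e3, smul_smul, inv_mul_cancel₀ hc2, one_smul]

end step

/-- The forms of the multiplication by `n` exist over every factorial domain over which the
curve has a unit discriminant. -/
theorem exists_isMul (hA : AddSub) (R : Type) [CommRing R] [IsDomain R]
    [UniqueFactorizationMonoid R] (W : WeierstrassCurve R) [W.IsElliptic] (n : ℕ) :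
    ∃ F, IsMul W n F := by
  have h : ∀ n, (∃ F, IsMul W n F) ∧ ∃ F, IsMul W (n + 1) F := by
    intro n
    induction n with
    | zero => exact ⟨⟨_, IsMul.zero⟩, ⟨_, IsMul.one⟩⟩
    | succ n ih =>
      obtain ⟨⟨G, hG⟩, ⟨F, hF⟩⟩ := ih
      exact ⟨⟨F, hF⟩, hF.step hA hG⟩
  exact (h n).1

end Pool.DynLehmer.LE.Mulf
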