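import Pool.Agent.Lib.MP_2194ec_nt.LE.Latw
import Pool.Agent.Lib.MP_2194ec_nt.LE.Fine
import Pool.Agent.Lib.MP_2194ec_nt.LW.Near

set_option autoImplicit false

/-!
# A near Lehmer bound for all points of infinite order of an elliptic curve
-/

namespace Pool.DynLehmer.LE
open MvPolynomial NumberField Filter Topology Pool.DynLehmer Pool.DynLehmer.SB Pool.DynLehmer.SP
  Pool.DynLehmer.GS Pool.DynLehmer.LP Pool.DynLehmer.LW
open scoped Classical

namespace Nw
open Pg Lw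

theorem wand_sh {K : Type} [Field K] (r : K) {F : Fin 2 → MvPolynomial (Fin 2) K} {N : Type}
    [Field N] [Algebra K N] {y : Fin 2 → N} (h : WandP (FrS.un r F) y) :
    WandP F (sh (algebraMap K N r) y) := by
  rintro ⟨m, n, hmn, c, hc, h1⟩
  refine h ⟨m, n, hmn, c, hc, ?_⟩
  rw [FrS.iter_un, FrS.iter_un, h1, FrS.sh_smul]

/-- The near Lehmer bound for a short Weierstrass equation and forms in the coordinate `x - r` with
purely inseparable good reduction. -/
theorem near_sh {K : Type} [Field K] [NumberField K] {a b r : K} {p s lam : ℕ}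
    {v : FinitePlace K} {F : Fin 2 → MvPolynomial (Fin 2) K} (hR : HypR p s v F) (hlam : 2 ≤ lam)
    (hL : IsLatS a b r lam F) : ∃ c : ℝ, 0 < c ∧
    ∀ (N : Type) [Field N] [NumberField N] [Algebra K N] (P : Ept a b N),
      (∀ n : ℕ, 1 ≤ n → n • P ≠ 0) →
      ∃ h : ℝ, HasHt (p ^ s) (FrS.un r F) P.xRep h ∧
        c / (dg K P.xRep : ℝ) * Real.exp (-(√(Real.log (dg K P.xRep : ℝ)) / c)) ≤ h := by
  have hM : Mor (p ^ s) F := Pool.DynLehmer.GS.mor K p s v F hR
  have hq : 2 ≤ p ^ s := hR.prime.two_le.trans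
    (Nat.le_self_pow (by have := hR.pos; omega) p)
  obtain ⟨c, hc, H⟩ := Near.near_lehmer K p s v F hR
  refine ⟨c, hc, ?_⟩
  intro N _ _ _ P hP
  have hP0 : P ≠ 0 := by
    have := hP 1 le_rfl
    rwa [one_smul] at this
  have hw : WandP (FrS.un r F) P.xRep :=
    FinE.wand (FrS.mor_un r hM) (FrS.isLat_un hL) hlam P hP
  obtain ⟨h, hh, hle⟩ := H N (sh (algebraMap K N r) P.xRep)
    (FrS.sh_ne0 _ (WeierstrassCurve.Affine.Point.xRep_ne_zero P)) (wand_sh r hw)
  refine ⟨h, (FrS.hasHt_un hq r F _ h).2 hh, ?_⟩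
  rwa [FinS.dg_sh r hP0] at hle

/-- **The near Lehmer bound for all points of infinite order** of a curve with good supersingular
reduction at a place over any prime. -/
theorem near_gss (hA : AddsubStatement) {K : Type} [Field K] [NumberField K]
    (W : WeierstrassCurve K) (hP : GSS W) : ∃ c : ℝ, 0 < c ∧
    ∀ (N : Type) [Field N] [NumberField N] [Algebra K N] (P : Wpt W N),
      (∀ n : ℕ, 1 ≤ n → n • P ≠ 0) →
      ∃ h : ℝ, Tendsto (fun n : ℕ => Height.logHeight (n • P).xRep /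
        (Module.finrank ℚ N : ℝ) / (n : ℝ) ^ 2) atTop (𝓝 h) ∧
        c / (dg K P.xRep : ℝ) * Real.exp (-(√(Real.log (dg K P.xRep : ℝ)) / c)) ≤ h := by
  obtain ⟨p, v, W₀, C, hp, hS, hC⟩ := hP
  obtain ⟨F₀, hR, hF⟩ := superG hA K p v W₀ hp hS
  set W₁ : WeierstrassCurve K := W₀.map (OW v).subtype with hW
  have hL₀ := superG_lat W₁ p F₀ hF
  have hq2 : 2 ≤ p ^ 2 := by
    have := hp.two_le
    nlinarith
  have hs : ScR (Ws (Du.sa W) (Du.sb W)) (Ws (Du.sa W₁) (Du.sb W₁)) ((C.u⁻¹ : Kˣ) : K) := by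
    rw [← hC]
    refine scR (Units.ne_zero _) ?_ ?_
    · simp only [Du.sa, WeierstrassCurve.variableChange_c₄]
      ring
    · simp only [Du.sb, WeierstrassCurve.variableChange_c₆]
      ring
  have hΔ : W.Δ ≠ 0 := by
    intro h0
    have h1 : (C • W).Δ ≠ 0 := by
      rw [hC, hW, WeierstrassCurve.map_Δ]
      exact (hS.disc.map (OW v).subtype).ne_zero
    apply h1
    rw [WeierstrassCurve.variableChange_Δ, h0, mul_zero]
  have hD : 4 * Du.sa W ^ 3 + 27 * Du.sb W ^ 2 ≠ 0 := by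
    rw [disc_short, neg_ne_zero]
    exact div_ne_zero hΔ (by norm_num)
  obtain ⟨F, hM, hlat⟩ := exists_lat hA hD p
  have hM₀ : Mor (p ^ 2) F₀ := Pool.DynLehmer.GS.mor K p 2 v F₀ hR
  obtain ⟨c, hc, H⟩ := near_sh hR hp.two_le hL₀
  refine ⟨c, hc, ?_⟩
  intro N _ _ _ P hP
  obtain ⟨h, hh, hle⟩ := H N (scP hs N (toS W N P)) (by
    intro n hn h0
    refine hP n hn (toS_inj W N (scP_inj hs N ?_))
    rw [map_nsmul, map_nsmul, h0, map_zero, map_zero])
  refine ⟨h, ?_, ?_⟩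
  · have h1 : HasHt (p ^ 2) F (toS W N P).xRep h :=
      hasHt_scP hs hq2 hM.hom (FrS.mor_un _ hM₀).hom hlat (FrS.isLat_un hL₀) (toS W N P) hh
    exact tendsto_toS W P (tendsto_sq hD hp.two_le rfl hM hlat (toS W N P) h1)
  · rwa [dg_scP, dg_toS] at hle

end Nw

end Pool.DynLehmer.LE
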