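import Pool.Agent.Lib.MP_2194ec_nt.LE.Htq
import Pool.Agent.Lib.MP_2194ec_nt.LE.DefsJ
import Pool.Agent.Lib.MP_2194ec_nt.LE.OpjC

set_option autoImplicit false

/-!
# The canonical height and an endomorphism
-/

namespace Pool.DynLehmer.LE
open MvPolynomial NumberField Filter Topology Pool.DynLehmer Pool.DynLehmer.SB Pool.DynLehmer.SP
  Pool.DynLehmer.GS Pool.DynLehmer.LP Pool.DynLehmer.LW
open scoped Classical

namespace HJ

section par

variable {G : Type*} [AddCommGroup G] {g : G → ℝ}
  (hp : ∀ x y, g (x + y) + g (x - y) = 2 * g x + 2 * g y)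

include hp

theorem cube (x y z : G) : g (x + y + z) + g x + g y + g z = g (x + y) + g (x + z) + g (y + z) := by
  have h1 := hp (x + y) z
  have h2 := hp (x + z) y
  have h3 := hp x (y - z)
  have h4 := hp y z
  have e2 : x + z + y = x + y + z := by abel
  have e3 : x + (y - z) = x + y - z := by abel
  have e4 : x - (y - z) = x + z - y := by abel
  rw [e2] at h2
  rw [e3, e4] at h3
  linarith

theorem exists_bil : ∃ B : G → G →+ ℝ, (∀ x y, B x y = g (x + y) - g x - g y) ∧
    ∀ x, B x x = 2 * g x := by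
  refine ⟨fun x => AddMonoidHom.mk' (fun y => g (x + y) - g x - g y) ?_, fun x y => rfl, ?_⟩
  · intro y z
    have h := cube hp x y z
    have e : x + (y + z) = x + y + z := by abel
    rw [e]
    linarith
  · intro x
    show g (x + x) - g x - g x = 2 * g x
    have h := hp x x
    rw [sub_self, HQ.par_zero hp] at h
    linarith

/-- the values on the multiples `x P + y J P` -/
theorem lin {J : G →+ G} {t n : ℤ} (hJ : ∀ x, J (J x) = t • J x - n • x) (ht : t ^ 2 < 4 * n)
    {d : ℕ} (hd : ∀ x, g (J x) = d * g x) (P : G) (x y : ℤ) :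
    g (x • P + y • J P) = (Oj.nm t n x y : ℝ) * g P := by
  obtain ⟨B, hB, hB2⟩ := exists_bil hp
  have hsym : ∀ x y, B x y = B y x := by
    intro x y
    rw [hB, hB, add_comm x y]
    ring
  have hz : ∀ (k : ℤ) (x y : G), B x (k • y) = k * B x y := by
    intro k x y
    rw [map_zsmul, zsmul_eq_mul]
  have hz' : ∀ (k : ℤ) (x y : G), B (k • x) y = k * B x y := by
    intro k x y
    rw [hsym, hz, hsym]
  have hq : ∀ (k : ℤ) (x : G), g (k • x) = (k : ℝ) ^ 2 * g x := by
    intro k x
    have h1 := hB2 (k • x)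
    rw [hz, hz', hB2] at h1
    nlinarith
  have hsum : ∀ x y, g (x + y) = g x + g y + B x y := by
    intro x y
    rw [hB]
    ring
  have hn : (0 : ℝ) < n := by
    have h1 : 0 < n := by nlinarith [sq_nonneg t]
    exact_mod_cast h1
  have hd0 : (0 : ℝ) ≤ d := Nat.cast_nonneg d
  have ht' : (t : ℝ) ^ 2 < 4 * n := by exact_mod_cast ht
  -- `(d + n) B(P, J P) = 2 t d g(P)`
  have h1 : (d + n) * B P (J P) = 2 * t * d * g P := by
    have e1 : B (J P) (J (J P)) = d * B P (J P) := by
      rw [hB, hB, ← map_add, hd (P + J P), hd (J P), hd P]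
      ring
    rw [hJ, map_sub, hz, hz, hB2, hd, hsym (J P) P] at e1
    linarith
  have h2 : (d : ℝ) * (d * g P) = (t : ℝ) ^ 2 * (d * g P) + (n : ℝ) ^ 2 * g P -
      t * n * B P (J P) := by
    have e1 : g (J (J P)) = d * (d * g P) := by rw [hd, hd]
    have e2 : J (J P) = t • J P + (-n) • P := by rw [hJ, neg_smul, sub_eq_add_neg]
    rw [e2, hsum, hq, hq, hz', hz, hd, hsym (J P) P] at e1
    push_cast at e1
    linarith
  rw [hsum, hq, hq, hz', hz, hd, Oj.nm]
  push_cast
  by_cases hg : g P = 0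
  · rw [hg, mul_zero] at h1
    have h3 : B P (J P) = 0 := by
      rcases mul_eq_zero.1 h1 with h3 | h3
      · exfalso
        linarith
      · exact h3
    rw [hg, h3]
    ring
  · have h3 : ((d : ℝ) - n) * ((d + n) ^ 2 - t ^ 2 * d) = 0 := by
      have h4 : g P * (((d : ℝ) - n) * ((d + n) ^ 2 - t ^ 2 * d)) = 0 := by
        linear_combination (d + n) * h2 - t * n * h1
      exact (mul_eq_zero.1 h4).resolve_left hg
    have h4 : (d : ℝ) = n := by
      rcases mul_eq_zero.1 h3 with h4 | h4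
      · linarith
      · exfalso
        rcases hd0.lt_or_eq with h5 | h5
        · nlinarith [sq_nonneg ((d : ℝ) - n), mul_lt_mul_of_pos_right ht' h5]
        · rw [← h5] at h4
          have : (0 : ℝ) < n ^ 2 := by positivity
          linarith
    rw [h4] at h1 ⊢
    have h5 : B P (J P) = t * g P := by
      have h6 : (2 * (n : ℝ)) * (B P (J P) - t * g P) = 0 := by linarith
      rcases mul_eq_zero.1 h6 with h7 | h7
      · exfalso
        linarith
      · linarith
    rw [h5]
    ring

end par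

section can

variable {K : Type} [Field K] [NumberField K] {a b θ : K} {N : Type} [Field N] [NumberField N]
  [Algebra K N] {q lam : ℕ} {F : Fin 2 → MvPolynomial (Fin 2) K}

theorem ht_J (E : Endo a b θ) (hq : 2 ≤ q) (hF : Mor q F) (hL : IsLat a b lam F) (P : Ept a b N)
    {h h' : ℝ} (H : HasHt q F P.xRep h) (H' : HasHt q F (E.J N P).xRep h') : h' = E.d * h := by
  obtain ⟨C, hC, hH⟩ := height_morphism E.G E.d E.mor.hom (fun z hz => by
    by_contra h0
    exact E.mor.ne _ z h0 (funext fun i => hz i))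
  rw [HQ.hasHt_iff hF.hom hL] at H H'
  have hN : (0 : ℝ) < (Module.finrank ℚ N : ℝ) := by exact_mod_cast Module.finrank_pos
  have hq1 : (1 : ℝ) < q := by exact_mod_cast hq
  have ht := H'.sub (H.const_mul (E.d : ℝ))
  have h0 : Tendsto (fun n : ℕ => C * ((q : ℝ)⁻¹) ^ n) atTop (𝓝 0) := by
    have := (tendsto_pow_atTop_nhds_zero_of_lt_one (inv_nonneg.2 (by linarith : (0 : ℝ) ≤ q))
      (inv_lt_one_of_one_lt₀ hq1)).const_mul C
    rwa [mul_zero] at this
  have hz := squeeze_zero_norm (fun n => ?_) h0 (f := fun n : ℕ =>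
    Height.logHeight ((lam ^ n) • E.J N P).xRep / (Module.finrank ℚ N : ℝ) / (q : ℝ) ^ n -
      (E.d : ℝ) * (Height.logHeight ((lam ^ n) • P).xRep / (Module.finrank ℚ N : ℝ) /
        (q : ℝ) ^ n))
  · have := tendsto_nhds_unique ht hz
    linarith
  · have hqn : (0 : ℝ) < (q : ℝ) ^ n := by positivity
    obtain ⟨c, hc, e⟩ := E.xJ N ((lam ^ n) • P)
    have e1 := hH N ((lam ^ n) • P).xRep
    have e2 : Height.logHeight (fun i => aeval ((lam ^ n) • P).xRep (E.G i)) =
        Height.logHeight ((lam ^ n) • E.J N P).xRep := by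
      have e3 : (fun i => aeval ((lam ^ n) • P).xRep (E.G i)) =
          c • (E.J N ((lam ^ n) • P)).xRep := e
      rw [e3, Height.logHeight_smul_eq_logHeight _ hc, map_nsmul]
    rw [e2] at e1
    have e4 : Height.logHeight ((lam ^ n) • E.J N P).xRep / (Module.finrank ℚ N : ℝ) /
        (q : ℝ) ^ n - (E.d : ℝ) * (Height.logHeight ((lam ^ n) • P).xRep /
          (Module.finrank ℚ N : ℝ) / (q : ℝ) ^ n) =
        (Height.logHeight ((lam ^ n) • E.J N P).xRep -
          E.d * Height.logHeight ((lam ^ n) • P).xRep) /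
          ((Module.finrank ℚ N : ℝ) * (q : ℝ) ^ n) := by
      field_simp
    rw [e4, Real.norm_eq_abs, abs_div, abs_of_pos (mul_pos hN hqn), div_le_iff₀ (mul_pos hN hqn)]
    refine e1.trans (le_of_eq ?_)
    rw [inv_pow]
    field_simp

/-- The canonical height of `x P + y J P + T` for a torsion point `T`. -/
theorem hasHt_lin (hD : 4 * a ^ 3 + 27 * b ^ 2 ≠ 0) (hq : 2 ≤ q) (hF : Mor q F)
    (hL : IsLat a b lam F) (E : Endo a b θ) (ht : E.t ^ 2 < 4 * E.n) (P T : Ept a b N) (x y : ℤ)
    (m : ℕ) (hm : 1 ≤ m) (hT : m • T = 0) {h h' : ℝ} (H : HasHt q F P.xRep h)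
    (H' : HasHt q F (x • P + y • E.J N P + T).xRep h') :
    h' = (Oj.nm E.t E.n x y : ℝ) * h := by
  obtain ⟨g, hg, hp⟩ := HQ.exists_fun (N := N) hD hq hF hL
  have e1 := tendsto_nhds_unique H (hg P)
  have e2 := tendsto_nhds_unique H' (hg (x • P + y • E.J N P + T))
  rw [e1, e2, HQ.par_tors hp _ _ m hm hT]
  exact lin hp (E.sq N) ht (fun R => ht_J E hq hF hL R (hg R) (hg _)) P x y

end can

end HJ

end Pool.DynLehmer.LE
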