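import Pool.Agent.Lib.MP_2194ec_nt.LE.Open
import Pool.Agent.Lib.MP_2194ec_nt.LE.DefsU
import Pool.Agent.Lib.MP_2194ec_nt.LE.OpjD

set_option autoImplicit false
set_option linter.unusedSectionVars false

/-!
# Row OPENJ: all points of a curve with complex multiplication, if the image of the Galois group on
the torsion is open in the group of the automorphisms which commute with the endomorphisms
-/

namespace Pool.DynLehmer.LE
open MvPolynomial NumberField Filter Topology Pool.DynLehmer Pool.DynLehmer.SB Pool.DynLehmer.SP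
  Pool.DynLehmer.GS Pool.DynLehmer.LP Pool.DynLehmer.LW
open scoped Classical

/-- The image of the Galois group on the torsion is open in the group of the automorphisms which
commute with the endomorphism `J`: for all `n ≥ 1` the group of the points of order dividing `n`
over an algebraic closure of `K` has a basis `Q₀`, `J Q₀` over `ℤ / n`, and the number of its
automorphisms which commute with `J` is at most `B` times the number of the automorphisms which are
induced by automorphisms of the algebraic closure over `K`. -/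
def OpenJ {K : Type} [Field K] {a b θ : K} (E : Endo a b θ) : Prop :=
  ∃ B : ℕ, ∀ n : ℕ, 1 ≤ n →
    (∃ Q₀ : Ept a b (AlgebraicClosure K), Oj.IsB (E.J (AlgebraicClosure K)) n Q₀) ∧
    Nat.card {f : Op.Tn (Ept a b (AlgebraicClosure K)) n ≃+
        Op.Tn (Ept a b (AlgebraicClosure K)) n //
          ∀ Q, f (Oj.JT (E.J (AlgebraicClosure K)) n Q) =
            Oj.JT (E.J (AlgebraicClosure K)) n (f Q)} ≤
      B * Nat.card {f : Op.Tn (Ept a b (AlgebraicClosure K)) n ≃+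
        Op.Tn (Ept a b (AlgebraicClosure K)) n //
          ∃ σ : AlgebraicClosure K ≃ₐ[K] AlgebraicClosure K,
            ∀ Q : Op.Tn (Ept a b (AlgebraicClosure K)) n,
              ((f Q : Op.Tn (Ept a b (AlgebraicClosure K)) n) : Ept a b (AlgebraicClosure K)) =
                pm (σ : AlgebraicClosure K →ₐ[K] AlgebraicClosure K) Q}

namespace Oj
open Op

/-- the index of the image of a subgroup -/
theorem idx_leJ {A : Type} [AddCommGroup A] {G : Type} [Group G] [DistribMulAction G A] {B n : ℕ}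
    {J : A →+ A} (hJ : ∀ (g : G) (Q : A), g • J Q = J (g • Q)) (hfin : Finite (Tn A n))
    (hcard : Nat.card {f : Tn A n ≃+ Tn A n // ∀ Q, f (JT J n Q) = JT J n (f Q)} ≤
      B * Nat.card {f : Tn A n ≃+ Tn A n //
        ∃ σ : G, ∀ Q : Tn A n, ((f Q : Tn A n) : A) = σ • (Q : A)})
    (H : Subgroup G) (hH : H.index ≠ 0) :
    (H.map (act G A n)).relIndex (AJ J n) ≠ 0 ∧
      (H.map (act G A n)).relIndex (AJ J n) ≤ B * H.index := by
  have hfin2 : Finite (Tn A n ≃ₗ[ℤ] Tn A n) := Finite.of_injective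
    (fun f : Tn A n ≃ₗ[ℤ] Tn A n => (f : Tn A n → Tn A n)) DFunLike.coe_injective
  let e : (Tn A n ≃ₗ[ℤ] Tn A n) ≃ (Tn A n ≃+ Tn A n) :=
    { toFun := fun f => f.toAddEquiv
      invFun := fun f => f.toIntLinearEquiv
      left_inv := fun f => by
        ext Q
        rfl
      right_inv := fun f => by
        ext Q
        rfl }
  have h1 : Nat.card (AJ J n) =
      Nat.card {f : Tn A n ≃+ Tn A n // ∀ Q, f (JT J n Q) = JT J n (f Q)} :=
    Nat.card_congr (e.subtypeEquiv fun f => Iff.rfl)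
  have h2 : Nat.card (act G A n).range = Nat.card {f : Tn A n ≃+ Tn A n //
      ∃ σ : G, ∀ Q : Tn A n, ((f Q : Tn A n) : A) = σ • (Q : A)} := by
    refine Nat.card_congr (e.subtypeEquiv fun f => ?_)
    constructor
    · rintro ⟨σ, rfl⟩
      exact ⟨σ, fun Q => rfl⟩
    · rintro ⟨σ, hσ⟩
      refine ⟨σ, ?_⟩
      ext Q
      exact (hσ Q).symm
  have hle : (act G A n).range ≤ AJ J n := by
    rintro _ ⟨σ, rfl⟩ Q
    refine Subtype.ext ?_
    exact hJ σ Q
  rw [← h1, ← h2, ← Subgroup.card_mul_index ((act G A n).range.subgroupOf (AJ J n)),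
    Nat.card_congr (Subgroup.subgroupOfEquivOfLe hle).toEquiv, mul_comm B] at hcard
  have h3 : (act G A n).range.relIndex (AJ J n) ≤ B := Nat.le_of_mul_le_mul_left hcard Nat.card_pos
  have h4 : (H.map (act G A n)).relIndex (act G A n).range ≤ H.index := by
    rw [← Subgroup.index_comap]
    exact Nat.le_of_dvd (Nat.pos_of_ne_zero hH)
      (Subgroup.index_dvd_of_le (Subgroup.le_comap_map _ _))
  have h5 : H.map (act G A n) ≤ (act G A n).range := Subgroup.map_le_range _ _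
  refine ⟨Subgroup.index_ne_zero_of_finite, ?_⟩
  rw [← Subgroup.relIndex_mul_relIndex _ _ _ h5 hle, mul_comm]
  exact Nat.mul_le_mul h3 h4

section

variable {K : Type} [Field K] {a b θ : K} {N : Type} [Field N] [Algebra K N]

/-- the norm is positive -/
theorem nm_pos {t n x y : ℤ} (ht : t ^ 2 < 4 * n) (h : x ≠ 0 ∨ y ≠ 0) : 0 < nm t n x y := by
  have e : 4 * nm t n x y = (2 * x + t * y) ^ 2 + (4 * n - t ^ 2) * y ^ 2 := by
    rw [nm]
    ring
  have h1 : 0 < 4 * n - t ^ 2 := by linarith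
  by_cases hy : y = 0
  · have hx : x ≠ 0 := h.resolve_right fun h' => h' hy
    rw [hy] at e ⊢
    have : 0 < x ^ 2 := by positivity
    nlinarith
  · have h2 : 0 < y ^ 2 := by positivity
    nlinarith [sq_nonneg (2 * x + t * y), mul_pos h1 h2]

/-- the conjugate multiplier -/
theorem conj_mul (E : Endo a b θ) (x y : ℤ) (D : Ept a b N)
    (h : x • D + y • E.J N D = 0) : nm E.t E.n x y • D = 0 := by
  have e : nm E.t E.n x y • D = (x + E.t * y) • (x • D + y • E.J N D) -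
      y • E.J N (x • D + y • E.J N D) := by
    rw [map_add, map_zsmul, map_zsmul, E.sq, nm]
    generalize E.J N D = R
    module
  rw [e, h, map_zero, smul_zero, smul_zero, sub_zero]

/-- the classes of `x P + y J P + T` -/
theorem tq_lin (E : Endo a b θ) (ht : E.t ^ 2 < 4 * E.n) {P T : Ept a b N} {x y : ℤ} {n : ℕ}
    (hxy : x ≠ 0 ∨ y ≠ 0) (hn : 1 ≤ n) (hT : n • T = 0) (σ τ : N →ₐ[K] N) :
    Tq (pm σ (x • P + y • E.J N P + T)) (pm τ (x • P + y • E.J N P + T)) ↔
      Tq (pm σ P) (pm τ P) := by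
  have hT' : ∀ σ : N →ₐ[K] N, n • pm σ T = 0 := fun σ => by rw [← map_nsmul, hT, map_zero]
  have hσ : ∀ σ : N →ₐ[K] N, n • pm σ (x • P + y • E.J N P + T) =
      n • (x • pm σ P + y • E.J N (pm σ P)) := fun σ => by
    rw [map_add, map_add, map_zsmul, map_zsmul, E.nat, smul_add, hT', add_zero]
  constructor
  · rintro ⟨r, hr, h⟩
    have hpos := nm_pos ht hxy
    have h1 := congrArg (fun Q => n • Q) h
    beta_reduce at h1
    rw [smul_comm n r, smul_comm n r, hσ, hσ, ← sub_eq_zero] at h1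
    set D := r • n • (pm σ P - pm τ P) with hD
    have h2 : x • D + y • E.J N D = 0 := by
      rw [← h1, hD, map_nsmul, map_nsmul, map_sub]
      simp only [smul_sub, smul_add]
      rw [smul_comm x r, smul_comm x r, smul_comm x n, smul_comm x n, smul_comm y r,
        smul_comm y r, smul_comm y n, smul_comm y n]
      abel
    have h3 := conj_mul E x y D h2
    have h4 : nm E.t E.n x y = ((nm E.t E.n x y).toNat : ℤ) := (Int.toNat_of_nonneg hpos.le).symm
    rw [h4, natCast_zsmul, hD] at h3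
    have h5 : 1 ≤ (nm E.t E.n x y).toNat := by
      rw [Nat.one_le_iff_ne_zero]
      intro h0
      rw [h0] at h4
      push_cast at h4
      omega
    refine ⟨(nm E.t E.n x y).toNat * (r * n), Nat.mul_pos h5 (Nat.mul_pos hr hn), ?_⟩
    rw [← sub_eq_zero, ← smul_sub, mul_smul, mul_smul]
    exact h3
  · rintro ⟨r, hr, h⟩
    refine ⟨r * n, Nat.mul_pos hr hn, ?_⟩
    rw [mul_smul, mul_smul, hσ, hσ]
    have h1 : ∀ σ : N →ₐ[K] N, r • n • (x • pm σ P + y • E.J N (pm σ P)) =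
        n • (x • (r • pm σ P) + y • E.J N (r • pm σ P)) := fun σ => by
      rw [map_nsmul, smul_comm r n, smul_add, smul_comm r x, smul_comm r y]
    rw [h1, h1, h]

end

/-- The reduction for a point over a finite Galois extension. -/
theorem exists_redJ {K : Type} [Field K] [CharZero K] {a b θ : K} (E : Endo a b θ)
    (ht : E.t ^ 2 < 4 * E.n) {B : ℕ}
    (hB : ∀ n : ℕ, 1 ≤ n →
      (∃ Q₀ : Ept a b (AlgebraicClosure K), Oj.IsB (E.J (AlgebraicClosure K)) n Q₀) ∧
      Nat.card {f : Op.Tn (Ept a b (AlgebraicClosure K)) n ≃+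
          Op.Tn (Ept a b (AlgebraicClosure K)) n //
            ∀ Q, f (Oj.JT (E.J (AlgebraicClosure K)) n Q) =
              Oj.JT (E.J (AlgebraicClosure K)) n (f Q)} ≤
        B * Nat.card {f : Op.Tn (Ept a b (AlgebraicClosure K)) n ≃+
          Op.Tn (Ept a b (AlgebraicClosure K)) n //
            ∃ σ : AlgebraicClosure K ≃ₐ[K] AlgebraicClosure K,
              ∀ Q : Op.Tn (Ept a b (AlgebraicClosure K)) n,
                ((f Q : Op.Tn (Ept a b (AlgebraicClosure K)) n) : Ept a b (AlgebraicClosure K)) =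
                  pm (σ : AlgebraicClosure K →ₐ[K] AlgebraicClosure K) Q})
    {N : Type} [Field N] [Algebra K N] [FiniteDimensional K N] [IsGalois K N] (P : Ept a b N) :
    ∃ (x y : ℤ) (n : ℕ) (T : Ept a b N), (x ≠ 0 ∨ y ≠ 0) ∧ 1 ≤ n ∧ n • T = 0 ∧
      Nat.card {Q : Ept a b N // (∃ σ : N ≃ₐ[K] N,
        pm (σ : N →ₐ[K] N) (x • P + y • E.J N P + T) = Q) ∧ Tq (x • P + y • E.J N P + T) Q} ≤
          144 * (B * (CE.Sc P : Subgroup (N ≃ₐ[K] N)).index) ^ 8 ∧
      nm E.t E.n x y * Nat.card {Q : Ept a b N // (∃ σ : N ≃ₐ[K] N,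
        pm (σ : N →ₐ[K] N) (x • P + y • E.J N P + T) = Q) ∧ Tq (x • P + y • E.J N P + T) Q} ≤
        (1 + |E.t| + |E.n|) *
          Nat.card {Q : Ept a b N // (∃ σ : N ≃ₐ[K] N, pm (σ : N →ₐ[K] N) P = Q) ∧ Tq P Q} := by
  letI := actE a b (AlgebraicClosure K)
  let ι : N →ₐ[K] AlgebraicClosure K := IsAlgClosed.lift
  letI : Algebra N (AlgebraicClosure K) := ι.toRingHom.toAlgebra
  haveI : IsScalarTower K N (AlgebraicClosure K) :=
    IsScalarTower.of_algebraMap_eq fun x => (ι.commutes x).symm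
  have hfin : Finite (N ≃ₐ[K] N) := inferInstance
  let r : (AlgebraicClosure K ≃ₐ[K] AlgebraicClosure K) →* (N ≃ₐ[K] N) :=
    AlgEquiv.restrictNormalHom N
  have hr : Function.Surjective r :=
    AlgEquiv.restrictNormalHom_surjective (F := K) (K₁ := N) (AlgebraicClosure K)
  have hcomm : ∀ (σ : AlgebraicClosure K ≃ₐ[K] AlgebraicClosure K) (R : Ept a b N),
      σ • pm ι R = pm ι (pm (r σ : N →ₐ[K] N) R) := by
    intro σ R
    show pm (σ : AlgebraicClosure K →ₐ[K] AlgebraicClosure K) (pm ι R) = _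
    have h1 : ((σ : AlgebraicClosure K →ₐ[K] AlgebraicClosure K)).comp ι =
        ι.comp (r σ : N →ₐ[K] N) := by
      refine AlgHom.ext fun x => ?_
      exact (σ.restrictNormal_commutes N x).symm
    have h2 : ∀ (f : N →ₐ[K] AlgebraicClosure K) (g : AlgebraicClosure K →ₐ[K] AlgebraicClosure K)
        (R : Ept a b N), pm g (pm f R) = pm (g.comp f) R := fun f g R => by
      cases R <;> rfl
    have h3 : ∀ (g : N →ₐ[K] N) (R : Ept a b N), pm ι (pm g R) = pm (ι.comp g) R := fun g R => by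
      cases R <;> rfl
    rw [h2, h3, h1]
  have hinj : Function.Injective (pm (a := a) (b := b) ι) :=
    WeierstrassCurve.Affine.Point.map_injective ι
  set S : Subgroup (N ≃ₐ[K] N) := CE.Sc P with hS
  set H : Subgroup (AlgebraicClosure K ≃ₐ[K] AlgebraicClosure K) := S.comap r with hH
  have hHi : H.index = S.index := Subgroup.index_comap_of_surjective S hr
  have hSi : S.index ≠ 0 := Subgroup.index_ne_zero_of_finite
  -- the exponent
  obtain ⟨n, hn0, hn⟩ : ∃ n : ℕ, 1 ≤ n ∧ ∀ ρ ∈ S, n • (pm (ρ : N →ₐ[K] N) P - P) = 0 := by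
    have h1 : ∀ ρ : N ≃ₐ[K] N, ∃ m : ℕ, 1 ≤ m ∧
        (ρ ∈ S → m • (pm (ρ : N →ₐ[K] N) P - P) = 0) := by
      intro ρ
      by_cases hρ : ρ ∈ S
      · obtain ⟨m, hm, h⟩ := hρ
        exact ⟨m, hm, fun _ => by rw [smul_sub, h, sub_self]⟩
      · exact ⟨1, le_rfl, fun h => absurd h hρ⟩
    choose m hm hm' using h1
    have : Fintype (N ≃ₐ[K] N) := Fintype.ofFinite _
    refine ⟨∏ ρ, m ρ, Nat.one_le_iff_ne_zero.2
      (Finset.prod_ne_zero_iff.2 fun ρ _ => by have := hm ρ; omega), fun ρ hρ => ?_⟩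
    obtain ⟨m', hm2⟩ := Finset.dvd_prod_of_mem m (Finset.mem_univ ρ)
    rw [hm2, mul_comm, mul_smul, hm' ρ hρ, smul_zero]
  have hn' : ∀ τ ∈ H, n • (τ • pm ι P - pm ι P) = 0 := by
    intro τ hτ
    rw [hcomm, ← map_sub, ← map_nsmul, hn _ hτ, map_zero]
  have hJG : ∀ (g : AlgebraicClosure K ≃ₐ[K] AlgebraicClosure K)
      (Q : Ept a b (AlgebraicClosure K)), g • E.J (AlgebraicClosure K) Q =
        E.J (AlgebraicClosure K) (g • Q) := fun g Q => E.nat _ _ _ Q
  have hyp : Hyp (E.J (AlgebraicClosure K)) E.t E.n H (B * S.index) := by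
    refine ⟨hJG, E.sq _, fun t ht => (hB t ht).1, fun t ht => ?_⟩
    obtain ⟨⟨Q₀, hQ₀⟩, h2⟩ := hB t ht
    have h3 := idx_leJ hJG (Oj.finite_Tn ht hQ₀) h2 H (by rw [hHi]; exact hSi)
    rw [hHi] at h3
    exact h3
  obtain ⟨x, y, u, w, W, hxy, hW, h1, h2⟩ := mainJ hyp ht (pm ι P) hn0 hn'
  -- `W` comes from `N`
  have hWr : W ∈ (pm (a := a) (b := b) ι).range := by
    refine (AddSubgroup.closure_le _).2 ?_ hW
    rintro _ ⟨⟨τ, hτ⟩, rfl⟩
    refine ⟨pm (r τ : N →ₐ[K] N) P - P, ?_⟩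
    show pm ι _ = τ • pm ι P - pm ι P
    rw [hcomm, map_sub]
  have hWn : n • W = 0 := by
    have h3 : W ∈ Tn (Ept a b (AlgebraicClosure K)) n := by
      refine (AddSubgroup.closure_le _).2 ?_ hW
      rintro _ ⟨⟨τ, hτ⟩, rfl⟩
      exact hn' τ hτ
    exact h3
  obtain ⟨T₀, rfl⟩ := hWr
  have hT₀ : n • T₀ = 0 := hinj (by rw [map_nsmul, map_zero]; exact hWn)
  set T : Ept a b N := u • T₀ + w • E.J N T₀ with hTdef
  have hT : n • T = 0 := by
    rw [hTdef, smul_add, smul_comm n u, smul_comm n w, ← map_nsmul, hT₀, map_zero, smul_zero,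
      smul_zero, add_zero]
  have hR : x • pm ι P + y • E.J (AlgebraicClosure K) (pm ι P) +
      (u • pm ι T₀ + w • E.J (AlgebraicClosure K) (pm ι T₀)) =
        pm ι (x • P + y • E.J N P + T) := by
    rw [hTdef, map_add, map_add, map_add, map_zsmul, map_zsmul, map_zsmul, map_zsmul,
      E.nat, E.nat]
  rw [hR] at h1 h2
  -- the number of conjugates in a class
  have hcls : ∀ R : Ept a b N, (CE.Sc R : Subgroup (N ≃ₐ[K] N)) = S →
      Nat.card (dS H (pm ι R)) =
        Nat.card {Q : Ept a b N // (∃ σ : N ≃ₐ[K] N, pm (σ : N →ₐ[K] N) R = Q) ∧ Tq R Q} := by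
    intro R hR
    symm
    refine Nat.card_congr (Equiv.ofBijective
      (fun Q : {Q : Ept a b N // (∃ σ : N ≃ₐ[K] N, pm (σ : N →ₐ[K] N) R = Q) ∧ Tq R Q} =>
        (⟨pm ι Q.1 - pm ι R, ?_⟩ : dS H (pm ι R))) ⟨?_, ?_⟩)
    · obtain ⟨⟨σ, hσ⟩, hq⟩ := Q.2
      obtain ⟨τ, hτ⟩ := hr σ
      refine ⟨⟨τ, ?_⟩, ?_⟩
      · show r τ ∈ S
        rw [hτ, ← hR, CE.mem_Sc, hσ]
        exact hq
      · show τ • pm ι R - pm ι R = _
        rw [hcomm, hτ, hσ]
    · intro Q Q' h
      have h3 : pm ι Q.1 - pm ι R = pm ι Q'.1 - pm ι R := congrArg Subtype.val h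
      exact Subtype.ext (hinj (sub_left_injective h3))
    · rintro ⟨_, ⟨⟨τ, hτ⟩, rfl⟩⟩
      refine ⟨⟨pm (r τ : N →ₐ[K] N) R, ⟨r τ, rfl⟩, ?_⟩, ?_⟩
      · have h3 : r τ ∈ S := hτ
        rw [← hR, CE.mem_Sc] at h3
        exact h3
      · refine Subtype.ext ?_
        show pm ι (pm (r τ : N →ₐ[K] N) R) - pm ι R = τ • pm ι R - pm ι R
        rw [hcomm]
  have hSc : (CE.Sc (x • P + y • E.J N P + T) : Subgroup (N ≃ₐ[K] N)) = S := by
    ext σ
    rw [CE.mem_Sc, hS, CE.mem_Sc]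
    have h3 := tq_lin E ht (P := P) hxy hn0 hT ((1 : N ≃ₐ[K] N) : N →ₐ[K] N) (σ : N →ₐ[K] N)
    rw [CE.pm_one, CE.pm_one] at h3
    exact h3
  rw [hcls _ hSc] at h1 h2
  rw [hcls P rfl] at h2
  exact ⟨x, y, n, T, hxy, hn0, hT, h1, h2⟩

end Oj

/-- **The Lehmer bound for elliptic curves with complex multiplication with open image of the
Galois group**, for all points of infinite order for which the group of permutations of the classes
of conjugates modulo torsion has composition factors which are abelian or of order at most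
`e ^ A`. -/
def OpenjStatement : Prop :=
  ∀ (K : Type) [Field K] [NumberField K] (a b θ : K), 4 * a ^ 3 + 27 * b ^ 2 ≠ 0 →
    ∀ E : Endo a b θ, E.t ^ 2 < 4 * E.n → OpenJ E →
    ∀ (p s lam : ℕ) (v : FinitePlace K) (F : Fin 2 → MvPolynomial (Fin 2) K), HypR p s v F →
    2 ≤ lam → lam ^ 2 = p ^ s → IsLat a b lam F →
    ∀ A : ℕ, ∃ c : ℝ, 0 < c ∧
    ∀ (N : Type) [Field N] [NumberField N] [Algebra K N] [IsGalois K N] (P : Ept a b N),
      (∀ n : ℕ, 1 ≤ n → n • P ≠ 0) →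
      (∃ (e : ℕ) (τ : Fin e → (N ≃ₐ[K] N)),
        (∀ i j, i ≠ j → ¬ Tq (pm (τ i : N →ₐ[K] N) P) (pm (τ j : N →ₐ[K] N) P)) ∧
        ∃ (l : ℕ) (L : ℕ → Subgroup (N ≃ₐ[K] N)),
          (∀ g ∈ L 0, ∀ h : N ≃ₐ[K] N, Tq (pm ((g * h : N ≃ₐ[K] N) : N →ₐ[K] N) P)
            (pm (h : N →ₐ[K] N) P)) ∧ L l = ⊤ ∧
          ∀ i < l, L i ≤ L (i + 1) ∧ (∀ x ∈ L (i + 1), ∀ y ∈ L i, x * y * x⁻¹ ∈ L i) ∧
            ((∀ x ∈ L (i + 1), ∀ y ∈ L (i + 1), x * y * x⁻¹ * y⁻¹ ∈ L i) ∨
              (L i).relIndex (L (i + 1)) ≤ e ^ A)) →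
      ∃ h : ℝ, HasHt (p ^ s) F P.xRep h ∧ c / (dg K P.xRep : ℝ) ≤ h

open Op Oj in
/-- **Row OPENJ.** -/
theorem openj (hCls : ClseStatement) (hLat : LatuStatement) : OpenjStatement := by
  intro K _ _ a b θ hD E ht hOp p s lam v F hR hlam hq hL A
  obtain ⟨B, hB⟩ := hOp
  obtain ⟨c, hc, H⟩ := hLat K a b hD p s lam v F hR hlam hq hL A (144 * B ^ 8 + 8)
  have hq2 : 2 ≤ p ^ s := by
    rw [← hq]
    nlinarith
  have hM : Mor (p ^ s) F := Pool.DynLehmer.GS.mor K p s v F hR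
  set C : ℤ := 1 + |E.t| + |E.n| with hCdef
  have hC1 : 1 ≤ C := by
    have h1 := abs_nonneg E.t
    have h2 := abs_nonneg E.n
    omega
  have hC0 : (0 : ℝ) < C := by
    have : 0 < C := by omega
    exact_mod_cast this
  refine ⟨c / (2 * C), by positivity, ?_⟩
  intro N _ _ _ _ P hP hser
  have hfd : FiniteDimensional K N := Module.Finite.of_restrictScalars_finite ℚ K N
  have hfin : Finite (N ≃ₐ[K] N) := inferInstance
  obtain ⟨x, y, n, T, hxy, hn, hT, h1, h2⟩ := exists_redJ E ht hB P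
  set R : Ept a b N := x • P + y • E.J N P + T with hRdef
  set S : Subgroup (N ≃ₐ[K] N) := CE.Sc P with hS
  have hS0 : 1 ≤ S.index := Nat.pos_of_ne_zero Subgroup.index_ne_zero_of_finite
  have htq : ∀ σ τ : N →ₐ[K] N, Tq (pm σ R) (pm τ R) ↔ Tq (pm σ P) (pm τ P) :=
    fun σ τ => tq_lin E ht hxy hn hT σ τ
  have hnm := nm_pos ht hxy
  -- representatives of the classes
  have hfinq : Finite ((N ≃ₐ[K] N) ⧸ S) := inferInstance
  let ε : ((N ≃ₐ[K] N) ⧸ S) ≃ Fin S.index := Finite.equivFin _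
  let τ : Fin S.index → (N ≃ₐ[K] N) := fun i => (ε.symm i).out
  have hτP : ∀ i j, i ≠ j → ¬ Tq (pm (τ i : N →ₐ[K] N) P) (pm (τ j : N →ₐ[K] N) P) := by
    intro i j hij h
    rw [CE.tq_pm_iff, ← CE.mem_Sc, ← QuotientGroup.eq] at h
    apply hij
    have h3 : ε.symm i = ε.symm j := by
      rw [← QuotientGroup.out_eq' (ε.symm i), ← QuotientGroup.out_eq' (ε.symm j)]
      exact h
    exact ε.symm.injective h3
  obtain ⟨e, τ₀, hτ₀, l, L, hL0, hLl, hLi⟩ := hser
  have he : e ≤ S.index := by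
    have h3 : Function.Injective fun i : Fin e => ((τ₀ i : N ≃ₐ[K] N) : (N ≃ₐ[K] N) ⧸ S) := by
      intro i j hij
      by_contra hne
      apply hτ₀ i j hne
      rw [CE.tq_pm_iff, ← CE.mem_Sc, ← QuotientGroup.eq]
      exact hij
    have h4 := Nat.card_le_card_of_injective _ h3
    rw [Nat.card_eq_fintype_card, Fintype.card_fin] at h4
    exact h4
  have hR0 : ∀ m : ℕ, 1 ≤ m → m • R ≠ 0 := by
    intro m hm h0
    have h3 : x • ((n * m) • P) + y • E.J N ((n * m) • P) = 0 := by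
      have h4 : n • m • R = 0 := by rw [h0, smul_zero]
      rw [hRdef, smul_comm n m, smul_add n, hT, add_zero, smul_comm m n, ← mul_smul, smul_add,
        smul_comm _ x, smul_comm _ y, ← map_nsmul] at h4
      exact h4
    have h4 := conj_mul E x y _ h3
    have h5 : nm E.t E.n x y = ((nm E.t E.n x y).toNat : ℤ) := (Int.toNat_of_nonneg hnm.le).symm
    rw [h5, natCast_zsmul, ← mul_smul] at h4
    refine hP _ ?_ h4
    refine Nat.mul_pos ?_ (Nat.mul_pos hn hm)
    omega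
  have hSc : (CE.Sc R : Subgroup (N ≃ₐ[K] N)) = S := by
    ext σ
    rw [CE.mem_Sc, hS, CE.mem_Sc]
    have h3 := htq ((1 : N ≃ₐ[K] N) : N →ₐ[K] N) (σ : N →ₐ[K] N)
    rw [CE.pm_one, CE.pm_one] at h3
    exact h3
  obtain ⟨-, -, hd1, -, -⟩ := hCls K a b N R _ _ rfl rfl
  obtain ⟨-, -, -, hd2, -⟩ := hCls K a b N P _ _ rfl rfl
  rw [card_cls, hSc] at hd1
  rw [card_cls, ← hS] at hd2
  obtain ⟨h', hh', hle⟩ := H N R hR0 ⟨S.index, τ, fun i j hij => by
      rw [htq]
      exact hτP i j hij, by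
      refine h1.trans ?_
      calc 144 * (B * S.index) ^ 8 = 144 * B ^ 8 * S.index ^ 8 := by ring
        _ ≤ (144 * B ^ 8 + 8) * S.index ^ (144 * B ^ 8 + 8) :=
          Nat.mul_le_mul (by omega) (Nat.pow_le_pow_right hS0 (by omega)),
      l, L, fun g hg h => (htq _ _).2 (hL0 g hg h), hLl, fun i hi => by
        obtain ⟨h3, h4, h5⟩ := hLi i hi
        exact ⟨h3, h4, h5.imp id fun h6 => h6.trans (Nat.pow_le_pow_left he A)⟩⟩
  obtain ⟨h, hh⟩ := HQ.exists_ht hq2 hM P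
  refine ⟨h, hh, ?_⟩
  have hhh : h' = (nm E.t E.n x y : ℝ) * h :=
    HJ.hasHt_lin hD hq2 hM hL E ht P T x y n hn hT hh hh'
  have hdpos : ∀ Q : Ept a b N, (0 : ℝ) < dg K Q.xRep := by
    intro Q
    have : 1 ≤ dg K Q.xRep := by
      have : FiniteDimensional K (IntermediateField.adjoin K {Q.xRep 0 / Q.xRep 1}) :=
        inferInstance
      exact Module.finrank_pos
    exact_mod_cast this
  have hd3 : nm E.t E.n x y * (dg K R.xRep : ℤ) ≤ 2 * C * (dg K P.xRep : ℤ) := by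
    have e1 : (dg K R.xRep : ℤ) ≤ S.index * (Nat.card {Q : Ept a b N //
        (∃ σ : N ≃ₐ[K] N, pm (σ : N →ₐ[K] N) R = Q) ∧ Tq R Q} : ℤ) := by exact_mod_cast hd1
    have e2 : (S.index : ℤ) * (Nat.card {Q : Ept a b N //
        (∃ σ : N ≃ₐ[K] N, pm (σ : N →ₐ[K] N) P = Q) ∧ Tq P Q} : ℤ) ≤
          2 * (dg K P.xRep : ℤ) := by exact_mod_cast hd2
    calc nm E.t E.n x y * (dg K R.xRep : ℤ) ≤ nm E.t E.n x y * (S.index * _) :=
          mul_le_mul_of_nonneg_left e1 hnm.le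
      _ = S.index * (nm E.t E.n x y * _) := by ring
      _ ≤ S.index * (C * _) := mul_le_mul_of_nonneg_left h2 (Int.natCast_nonneg _)
      _ = C * (S.index * _) := by ring
      _ ≤ C * (2 * (dg K P.xRep : ℤ)) := mul_le_mul_of_nonneg_left e2 (by omega)
      _ = 2 * C * (dg K P.xRep : ℤ) := by ring
  have hd4 : (nm E.t E.n x y : ℝ) * (dg K R.xRep : ℝ) ≤ 2 * C * (dg K P.xRep : ℝ) := by
    exact_mod_cast hd3
  have hnmr : (0 : ℝ) < (nm E.t E.n x y : ℝ) := by exact_mod_cast hnm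
  rw [hhh, div_le_iff₀ (hdpos R)] at hle
  rw [div_div, div_le_iff₀ (mul_pos (mul_pos two_pos hC0) (hdpos P))]
  have h0 : 0 < h := by
    by_contra h3
    replace h3 := not_lt.1 h3
    have : (nm E.t E.n x y : ℝ) * h * dg K R.xRep ≤ 0 := by
      apply mul_nonpos_of_nonpos_of_nonneg _ (hdpos R).le
      exact mul_nonpos_of_nonneg_of_nonpos hnmr.le h3
    linarith
  calc c ≤ (nm E.t E.n x y : ℝ) * h * dg K R.xRep := hle
    _ = h * ((nm E.t E.n x y : ℝ) * dg K R.xRep) := by ring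
    _ ≤ h * (2 * C * dg K P.xRep) := mul_le_mul_of_nonneg_left hd4 h0.le

end Pool.DynLehmer.LE
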