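import Pool.Agent.Lib.MP_2194ec_nt.LE.DefsC
import Pool.Agent.Lib.MP_2194ec_nt.LE.Openj

set_option autoImplicit false
set_option linter.unusedSectionVars false

/-!
# The Lehmer bound for elliptic curves with complex multiplication: reduction of the torsion part
-/

namespace Pool.DynLehmer.LE
open MvPolynomial NumberField Filter Topology Pool.DynLehmer Pool.DynLehmer.SB Pool.DynLehmer.SP
  Pool.DynLehmer.GS Pool.DynLehmer.LP Pool.DynLehmer.LW
open scoped Classical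

namespace Oh
open HJ

section can

variable {K : Type} [Field K] [NumberField K] {a b : K} {N : Type} [Field N] [NumberField N]
  [Algebra K N] {q lam : ℕ} {F : Fin 2 → MvPolynomial (Fin 2) K}

theorem ht_J (E : EndH a b) (hq : 2 ≤ q) (hF : Mor q F) (hL : IsLat a b lam F) (P : Ept a b N)
    {h h' : ℝ} (H : HasHt q F P.xRep h) (H' : HasHt q F (E.J N P).xRep h') : h' = E.d * h := by
  obtain ⟨C, hH⟩ := E.ht N
  rw [HQ.hasHt_iff hF.hom hL] at H H'
  have hN : (0 : ℝ) < (Module.finrank ℚ N : ℝ) := by exact_mod_cast Module.finrank_pos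
  have hq1 : (1 : ℝ) < q := by exact_mod_cast hq
  have ht := H'.sub (H.const_mul (E.d : ℝ))
  have h0 : Tendsto (fun n : ℕ => (C / (Module.finrank ℚ N : ℝ)) * ((q : ℝ)⁻¹) ^ n) atTop
      (𝓝 0) := by
    have := (tendsto_pow_atTop_nhds_zero_of_lt_one (inv_nonneg.2 (by linarith : (0 : ℝ) ≤ q))
      (inv_lt_one_of_one_lt₀ hq1)).const_mul (C / (Module.finrank ℚ N : ℝ))
    rwa [mul_zero] at this
  have hz := squeeze_zero_norm (fun n => ?_) h0 (f := fun n : ℕ =>
    Height.logHeight ((lam ^ n) • E.J N P).xRep / (Module.finrank ℚ N : ℝ) / (q : ℝ) ^ n -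
      (E.d : ℝ) * (Height.logHeight ((lam ^ n) • P).xRep / (Module.finrank ℚ N : ℝ) /
        (q : ℝ) ^ n))
  · have := tendsto_nhds_unique ht hz
    linarith
  · have hqn : (0 : ℝ) < (q : ℝ) ^ n := by positivity
    have e1 := hH ((lam ^ n) • P)
    rw [map_nsmul] at e1
    have e4 : Height.logHeight ((lam ^ n) • E.J N P).xRep / (Module.finrank ℚ N : ℝ) /
        (q : ℝ) ^ n - (E.d : ℝ) * (Height.logHeight ((lam ^ n) • P).xRep /
          (Module.finrank ℚ N : ℝ) / (q : ℝ) ^ n) =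
        (Height.logHeight ((lam ^ n) • E.J N P).xRep -
          E.d * Height.logHeight ((lam ^ n) • P).xRep) /
          ((Module.finrank ℚ N : ℝ) * (q : ℝ) ^ n) := by
      field_simp
    rw [e4, Real.norm_eq_abs, abs_div, abs_of_pos (mul_pos hN hqn), div_le_iff₀ (mul_pos hN hqn)]
    refine e1.trans (le_of_eq ?_)
    rw [inv_pow]
    field_simp

/-- The canonical height of `x P + y J P + T` for a torsion point `T`. -/
theorem hasHt_lin (hD : 4 * a ^ 3 + 27 * b ^ 2 ≠ 0) (hq : 2 ≤ q) (hF : Mor q F)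
    (hL : IsLat a b lam F) (E : EndH a b) (ht : E.t ^ 2 < 4 * E.n) (P T : Ept a b N) (x y : ℤ)
    (m : ℕ) (hm : 1 ≤ m) (hT : m • T = 0) {h h' : ℝ} (H : HasHt q F P.xRep h)
    (H' : HasHt q F (x • P + y • E.J N P + T).xRep h') :
    h' = (Oj.nm E.t E.n x y : ℝ) * h := by
  obtain ⟨g, hg, hp⟩ := HQ.exists_fun (N := N) hD hq hF hL
  have e1 := tendsto_nhds_unique H (hg P)
  have e2 := tendsto_nhds_unique H' (hg (x • P + y • E.J N P + T))
  rw [e1, e2, HQ.par_tors hp _ _ m hm hT]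
  exact HJ.lin hp (E.sq N) ht (fun R => ht_J E hq hF hL R (hg R) (hg _)) P x y

end can


open Op Oj

section

variable {K : Type} [Field K] {a b : K} {N : Type} [Field N] [Algebra K N]

/-- the conjugate multiplier -/
theorem conj_mul (E : EndH a b) (x y : ℤ) (D : Ept a b N)
    (h : x • D + y • E.J N D = 0) : nm E.t E.n x y • D = 0 := by
  have e : nm E.t E.n x y • D = (x + E.t * y) • (x • D + y • E.J N D) -
      y • E.J N (x • D + y • E.J N D) := by
    rw [map_add, map_zsmul, map_zsmul, E.sq, nm]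
    generalize E.J N D = R
    module
  rw [e, h, map_zero, smul_zero, smul_zero, sub_zero]

/-- the classes of `x P + y J P + T` -/
theorem tq_lin (E : EndH a b) (ht : E.t ^ 2 < 4 * E.n) {P T : Ept a b N} {x y : ℤ} {n : ℕ}
    (hxy : x ≠ 0 ∨ y ≠ 0) (hn : 1 ≤ n) (hT : n • T = 0) (σ τ : N →ₐ[K] N) :
    Tq (pm σ (x • P + y • E.J N P + T)) (pm τ (x • P + y • E.J N P + T)) ↔
      Tq (pm σ P) (pm τ P) := by
  have hT' : ∀ σ : N →ₐ[K] N, n • pm σ T = 0 := fun σ => by rw [← map_nsmul, hT, map_zero]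
  have hσ : ∀ σ : N →ₐ[K] N, n • pm σ (x • P + y • E.J N P + T) =
      n • (x • pm σ P + y • E.J N (pm σ P)) := fun σ => by
    rw [map_add, map_add, map_zsmul, map_zsmul, E.nat, smul_add, hT', add_zero]
  constructor
  · rintro ⟨r, hr, h⟩
    have hpos := nm_pos ht hxy
    have h1 := congrArg (fun Q => n • Q) h
    beta_reduce at h1
    rw [smul_comm n r, smul_comm n r, hσ, hσ, ← sub_eq_zero] at h1
    set D := r • n • (pm σ P - pm τ P) with hD
    have h2 : x • D + y • E.J N D = 0 := by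
      rw [← h1, hD, map_nsmul, map_nsmul, map_sub]
      simp only [smul_sub, smul_add]
      rw [smul_comm x r, smul_comm x r, smul_comm x n, smul_comm x n, smul_comm y r,
        smul_comm y r, smul_comm y n, smul_comm y n]
      abel
    have h3 := conj_mul E x y D h2
    have h4 : nm E.t E.n x y = ((nm E.t E.n x y).toNat : ℤ) := (Int.toNat_of_nonneg hpos.le).symm
    rw [h4, natCast_zsmul, hD] at h3
    have h5 : 1 ≤ (nm E.t E.n x y).toNat := by
      rw [Nat.one_le_iff_ne_zero]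
      intro h0
      rw [h0] at h4
      push_cast at h4
      omega
    refine ⟨(nm E.t E.n x y).toNat * (r * n), Nat.mul_pos h5 (Nat.mul_pos hr hn), ?_⟩
    rw [← sub_eq_zero, ← smul_sub, mul_smul, mul_smul]
    exact h3
  · rintro ⟨r, hr, h⟩
    refine ⟨r * n, Nat.mul_pos hr hn, ?_⟩
    rw [mul_smul, mul_smul, hσ, hσ]
    have h1 : ∀ σ : N →ₐ[K] N, r • n • (x • pm σ P + y • E.J N (pm σ P)) =
        n • (x • (r • pm σ P) + y • E.J N (r • pm σ P)) := fun σ => by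
      rw [map_nsmul, smul_comm r n, smul_add, smul_comm r x, smul_comm r y]
    rw [h1, h1, h]

end

/-- The reduction for a point over a finite Galois extension. -/
theorem exists_redJ {K : Type} [Field K] [CharZero K] {a b : K} (E : EndH a b)
    (ht : E.t ^ 2 < 4 * E.n) {B : ℕ}
    (hB : ∀ n : ℕ, 1 ≤ n →
      (∃ Q₀ : Ept a b (AlgebraicClosure K), Oj.IsB (E.J (AlgebraicClosure K)) n Q₀) ∧
      Nat.card {f : Op.Tn (Ept a b (AlgebraicClosure K)) n ≃+
          Op.Tn (Ept a b (AlgebraicClosure K)) n //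
            ∀ Q, f (Oj.JT (E.J (AlgebraicClosure K)) n Q) =
              Oj.JT (E.J (AlgebraicClosure K)) n (f Q)} ≤
        B * Nat.card {f : Op.Tn (Ept a b (AlgebraicClosure K)) n ≃+
          Op.Tn (Ept a b (AlgebraicClosure K)) n //
            ∃ σ : AlgebraicClosure K ≃ₐ[K] AlgebraicClosure K,
              ∀ Q : Op.Tn (Ept a b (AlgebraicClosure K)) n,
                ((f Q : Op.Tn (Ept a b (AlgebraicClosure K)) n) : Ept a b (AlgebraicClosure K)) =
                  pm (σ : AlgebraicClosure K →ₐ[K] AlgebraicClosure K) Q})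
    {N : Type} [Field N] [Algebra K N] [FiniteDimensional K N] [IsGalois K N] (P : Ept a b N) :
    ∃ (x y : ℤ) (n : ℕ) (T : Ept a b N), (x ≠ 0 ∨ y ≠ 0) ∧ 1 ≤ n ∧ n • T = 0 ∧
      Nat.card {Q : Ept a b N // (∃ σ : N ≃ₐ[K] N,
        pm (σ : N →ₐ[K] N) (x • P + y • E.J N P + T) = Q) ∧ Tq (x • P + y • E.J N P + T) Q} ≤
          144 * (B * (CE.Sc P : Subgroup (N ≃ₐ[K] N)).index) ^ 8 ∧
      nm E.t E.n x y * Nat.card {Q : Ept a b N // (∃ σ : N ≃ₐ[K] N,
        pm (σ : N →ₐ[K] N) (x • P + y • E.J N P + T) = Q) ∧ Tq (x • P + y • E.J N P + T) Q} ≤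
        (1 + |E.t| + |E.n|) *
          Nat.card {Q : Ept a b N // (∃ σ : N ≃ₐ[K] N, pm (σ : N →ₐ[K] N) P = Q) ∧ Tq P Q} := by
  letI := actE a b (AlgebraicClosure K)
  let ι : N →ₐ[K] AlgebraicClosure K := IsAlgClosed.lift
  letI : Algebra N (AlgebraicClosure K) := ι.toRingHom.toAlgebra
  haveI : IsScalarTower K N (AlgebraicClosure K) :=
    IsScalarTower.of_algebraMap_eq fun x => (ι.commutes x).symm
  have hfin : Finite (N ≃ₐ[K] N) := inferInstance
  let r : (AlgebraicClosure K ≃ₐ[K] AlgebraicClosure K) →* (N ≃ₐ[K] N) :=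
    AlgEquiv.restrictNormalHom N
  have hr : Function.Surjective r :=
    AlgEquiv.restrictNormalHom_surjective (F := K) (K₁ := N) (AlgebraicClosure K)
  have hcomm : ∀ (σ : AlgebraicClosure K ≃ₐ[K] AlgebraicClosure K) (R : Ept a b N),
      σ • pm ι R = pm ι (pm (r σ : N →ₐ[K] N) R) := by
    intro σ R
    show pm (σ : AlgebraicClosure K →ₐ[K] AlgebraicClosure K) (pm ι R) = _
    have h1 : ((σ : AlgebraicClosure K →ₐ[K] AlgebraicClosure K)).comp ι =
        ι.comp (r σ : N →ₐ[K] N) := by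
      refine AlgHom.ext fun x => ?_
      exact (σ.restrictNormal_commutes N x).symm
    have h2 : ∀ (f : N →ₐ[K] AlgebraicClosure K) (g : AlgebraicClosure K →ₐ[K] AlgebraicClosure K)
        (R : Ept a b N), pm g (pm f R) = pm (g.comp f) R := fun f g R => by
      cases R <;> rfl
    have h3 : ∀ (g : N →ₐ[K] N) (R : Ept a b N), pm ι (pm g R) = pm (ι.comp g) R := fun g R => by
      cases R <;> rfl
    rw [h2, h3, h1]
  have hinj : Function.Injective (pm (a := a) (b := b) ι) :=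
    WeierstrassCurve.Affine.Point.map_injective ι
  set S : Subgroup (N ≃ₐ[K] N) := CE.Sc P with hS
  set H : Subgroup (AlgebraicClosure K ≃ₐ[K] AlgebraicClosure K) := S.comap r with hH
  have hHi : H.index = S.index := Subgroup.index_comap_of_surjective S hr
  have hSi : S.index ≠ 0 := Subgroup.index_ne_zero_of_finite
  -- the exponent
  obtain ⟨n, hn0, hn⟩ : ∃ n : ℕ, 1 ≤ n ∧ ∀ ρ ∈ S, n • (pm (ρ : N →ₐ[K] N) P - P) = 0 := by
    have h1 : ∀ ρ : N ≃ₐ[K] N, ∃ m : ℕ, 1 ≤ m ∧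
        (ρ ∈ S → m • (pm (ρ : N →ₐ[K] N) P - P) = 0) := by
      intro ρ
      by_cases hρ : ρ ∈ S
      · obtain ⟨m, hm, h⟩ := hρ
        exact ⟨m, hm, fun _ => by rw [smul_sub, h, sub_self]⟩
      · exact ⟨1, le_rfl, fun h => absurd h hρ⟩
    choose m hm hm' using h1
    have : Fintype (N ≃ₐ[K] N) := Fintype.ofFinite _
    refine ⟨∏ ρ, m ρ, Nat.one_le_iff_ne_zero.2
      (Finset.prod_ne_zero_iff.2 fun ρ _ => by have := hm ρ; omega), fun ρ hρ => ?_⟩
    obtain ⟨m', hm2⟩ := Finset.dvd_prod_of_mem m (Finset.mem_univ ρ)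
    rw [hm2, mul_comm, mul_smul, hm' ρ hρ, smul_zero]
  have hn' : ∀ τ ∈ H, n • (τ • pm ι P - pm ι P) = 0 := by
    intro τ hτ
    rw [hcomm, ← map_sub, ← map_nsmul, hn _ hτ, map_zero]
  have hJG : ∀ (g : AlgebraicClosure K ≃ₐ[K] AlgebraicClosure K)
      (Q : Ept a b (AlgebraicClosure K)), g • E.J (AlgebraicClosure K) Q =
        E.J (AlgebraicClosure K) (g • Q) := fun g Q => E.nat _ _ _ Q
  have hyp : Hyp (E.J (AlgebraicClosure K)) E.t E.n H (B * S.index) := by
    refine ⟨hJG, E.sq _, fun t ht => (hB t ht).1, fun t ht => ?_⟩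
    obtain ⟨⟨Q₀, hQ₀⟩, h2⟩ := hB t ht
    have h3 := idx_leJ hJG (Oj.finite_Tn ht hQ₀) h2 H (by rw [hHi]; exact hSi)
    rw [hHi] at h3
    exact h3
  obtain ⟨x, y, u, w, W, hxy, hW, h1, h2⟩ := mainJ hyp ht (pm ι P) hn0 hn'
  -- `W` comes from `N`
  have hWr : W ∈ (pm (a := a) (b := b) ι).range := by
    refine (AddSubgroup.closure_le _).2 ?_ hW
    rintro _ ⟨⟨τ, hτ⟩, rfl⟩
    refine ⟨pm (r τ : N →ₐ[K] N) P - P, ?_⟩
    show pm ι _ = τ • pm ι P - pm ι P
    rw [hcomm, map_sub]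
  have hWn : n • W = 0 := by
    have h3 : W ∈ Tn (Ept a b (AlgebraicClosure K)) n := by
      refine (AddSubgroup.closure_le _).2 ?_ hW
      rintro _ ⟨⟨τ, hτ⟩, rfl⟩
      exact hn' τ hτ
    exact h3
  obtain ⟨T₀, rfl⟩ := hWr
  have hT₀ : n • T₀ = 0 := hinj (by rw [map_nsmul, map_zero]; exact hWn)
  set T : Ept a b N := u • T₀ + w • E.J N T₀ with hTdef
  have hT : n • T = 0 := by
    rw [hTdef, smul_add, smul_comm n u, smul_comm n w, ← map_nsmul, hT₀, map_zero, smul_zero,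
      smul_zero, add_zero]
  have hR : x • pm ι P + y • E.J (AlgebraicClosure K) (pm ι P) +
      (u • pm ι T₀ + w • E.J (AlgebraicClosure K) (pm ι T₀)) =
        pm ι (x • P + y • E.J N P + T) := by
    rw [hTdef, map_add, map_add, map_add, map_zsmul, map_zsmul, map_zsmul, map_zsmul,
      E.nat, E.nat]
  rw [hR] at h1 h2
  -- the number of conjugates in a class
  have hcls : ∀ R : Ept a b N, (CE.Sc R : Subgroup (N ≃ₐ[K] N)) = S →
      Nat.card (dS H (pm ι R)) =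
        Nat.card {Q : Ept a b N // (∃ σ : N ≃ₐ[K] N, pm (σ : N →ₐ[K] N) R = Q) ∧ Tq R Q} := by
    intro R hR
    symm
    refine Nat.card_congr (Equiv.ofBijective
      (fun Q : {Q : Ept a b N // (∃ σ : N ≃ₐ[K] N, pm (σ : N →ₐ[K] N) R = Q) ∧ Tq R Q} =>
        (⟨pm ι Q.1 - pm ι R, ?_⟩ : dS H (pm ι R))) ⟨?_, ?_⟩)
    · obtain ⟨⟨σ, hσ⟩, hq⟩ := Q.2
      obtain ⟨τ, hτ⟩ := hr σ
      refine ⟨⟨τ, ?_⟩, ?_⟩
      · show r τ ∈ S
        rw [hτ, ← hR, CE.mem_Sc, hσ]
        exact hq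
      · show τ • pm ι R - pm ι R = _
        rw [hcomm, hτ, hσ]
    · intro Q Q' h
      have h3 : pm ι Q.1 - pm ι R = pm ι Q'.1 - pm ι R := congrArg Subtype.val h
      exact Subtype.ext (hinj (sub_left_injective h3))
    · rintro ⟨_, ⟨⟨τ, hτ⟩, rfl⟩⟩
      refine ⟨⟨pm (r τ : N →ₐ[K] N) R, ⟨r τ, rfl⟩, ?_⟩, ?_⟩
      · have h3 : r τ ∈ S := hτ
        rw [← hR, CE.mem_Sc] at h3
        exact h3
      · refine Subtype.ext ?_
        show pm ι (pm (r τ : N →ₐ[K] N) R) - pm ι R = τ • pm ι R - pm ι R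
        rw [hcomm]
  have hSc : (CE.Sc (x • P + y • E.J N P + T) : Subgroup (N ≃ₐ[K] N)) = S := by
    ext σ
    rw [CE.mem_Sc, hS, CE.mem_Sc]
    have h3 := tq_lin E ht (P := P) hxy hn0 hT ((1 : N ≃ₐ[K] N) : N →ₐ[K] N) (σ : N →ₐ[K] N)
    rw [CE.pm_one, CE.pm_one] at h3
    exact h3
  rw [hcls _ hSc] at h1 h2
  rw [hcls P rfl] at h2
  exact ⟨x, y, n, T, hxy, hn0, hT, h1, h2⟩


end Oh

end Pool.DynLehmer.LE
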