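import Mathlib

set_option autoImplicit false

/-!
# Row OPEN, part 1: stable subgroups of the torsion under a large group
-/

namespace Pool.DynLehmer.LE.Op

/-- the `n`-torsion -/
def Tn (A : Type) [AddCommGroup A] (n : ℕ) : AddSubgroup A where
  carrier := {Q | n • Q = 0}
  zero_mem' := smul_zero n
  add_mem' := by
    intro x y hx hy
    show n • (x + y) = 0
    rw [smul_add, show n • x = 0 from hx, show n • y = 0 from hy, add_zero]
  neg_mem' := by
    intro x hx
    show n • (-x) = 0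
    rw [smul_neg, show n • x = 0 from hx, neg_zero]

variable {A : Type} [AddCommGroup A] {G : Type} [Group G] [DistribMulAction G A]

theorem mem_Tn {n : ℕ} {Q : A} : Q ∈ Tn A n ↔ n • Q = 0 := Iff.rfl

theorem smul_Tn {n : ℕ} {Q : A} (σ : G) (h : n • Q = 0) : n • (σ • Q) = 0 := by
  rw [← smul_comm, h, smul_zero]

/-- the action on the `n`-torsion -/
def act (G : Type) [Group G] (A : Type) [AddCommGroup A] [DistribMulAction G A] (n : ℕ) :
    G →* (Tn A n ≃ₗ[ℤ] Tn A n) where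
  toFun σ := AddEquiv.toIntLinearEquiv
    { toFun := fun Q => ⟨σ • (Q : A), smul_Tn σ Q.2⟩
      invFun := fun Q => ⟨σ⁻¹ • (Q : A), smul_Tn σ⁻¹ Q.2⟩
      left_inv := fun Q => Subtype.ext (inv_smul_smul σ (Q : A))
      right_inv := fun Q => Subtype.ext (smul_inv_smul σ (Q : A))
      map_add' := fun Q R => Subtype.ext (smul_add σ (Q : A) (R : A)) }
  map_one' := by
    ext Q
    exact one_smul G (Q : A)
  map_mul' := fun σ τ => by
    ext Q
    exact mul_smul σ τ (Q : A)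

theorem act_apply (n : ℕ) (σ : G) (Q : Tn A n) : ((act G A n σ Q : Tn A n) : A) = σ • (Q : A) :=
  rfl

/-- a pair of order `r` is unimodular -/
theorem unimod {r : ℕ} [NeZero r] (z : ZMod r × ZMod r)
    (h : ∀ c : ℕ, 1 ≤ c → c < r → c • z ≠ 0) : ∃ x y : ZMod r, x * z.1 + y * z.2 = 1 := by
  have hr : 0 < r := Nat.pos_of_ne_zero (NeZero.ne r)
  set p := z.1.val with hp
  set q := z.2.val with hq
  have hp' : ((p : ℕ) : ZMod r) = z.1 := by rw [hp, ZMod.natCast_val, ZMod.cast_id]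
  have hq' : ((q : ℕ) : ZMod r) = z.2 := by rw [hq, ZMod.natCast_val, ZMod.cast_id]
  have hg : Nat.gcd (Nat.gcd p q) r = 1 := by
    by_contra hg
    set g := Nat.gcd (Nat.gcd p q) r with hgdef
    have hg0 : 0 < g := Nat.gcd_pos_of_pos_right _ hr
    obtain ⟨c, hc⟩ : g ∣ r := Nat.gcd_dvd_right _ _
    have hgp : g ∣ p := (Nat.gcd_dvd_left _ _).trans (Nat.gcd_dvd_left _ _)
    have hgq : g ∣ q := (Nat.gcd_dvd_left _ _).trans (Nat.gcd_dvd_right _ _)
    have hc0 : 1 ≤ c := by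
      rcases Nat.eq_zero_or_pos c with h0 | h0
      · rw [h0, mul_zero] at hc
        omega
      · exact h0
    have hcr : c < r := by
      have h2 : 2 ≤ g := by omega
      nlinarith
    have key : ∀ (w : ℕ), g ∣ w → (c : ZMod r) * (w : ZMod r) = 0 := by
      rintro w ⟨w', rfl⟩
      have h1 : ((c * (g * w') : ℕ) : ZMod r) = 0 := by
        rw [ZMod.natCast_eq_zero_iff, hc]
        exact ⟨w', by ring⟩
      push_cast at h1 ⊢
      exact h1
    refine h c hc0 hcr ?_
    ext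
    · rw [Prod.smul_fst, nsmul_eq_mul, ← hp']
      exact key p hgp
    · rw [Prod.smul_snd, nsmul_eq_mul, ← hq']
      exact key q hgq
  have h1 := Nat.gcd_eq_gcd_ab (Nat.gcd p q) r
  have h2 := Nat.gcd_eq_gcd_ab p q
  rw [hg, h2] at h1
  have h3 := congrArg (Int.cast : ℤ → ZMod r) h1
  push_cast at h3
  rw [hp', hq', ZMod.natCast_self, zero_mul, add_zero] at h3
  refine ⟨(Nat.gcdA p q : ZMod r) * (Nat.gcdA (Nat.gcd p q) r : ZMod r),
    (Nat.gcdB p q : ZMod r) * (Nat.gcdA (Nat.gcd p q) r : ZMod r), ?_⟩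
  rw [h3]
  ring

/-- a stable subgroup with an element of order `r` contains `d A[r]` for a small `d` -/
theorem exists_d {H : Subgroup G} {r : ℕ} [NeZero r] (φ : Tn A r ≃+ ZMod r × ZMod r)
    (hidx : (H.map (act G A r)).index ≠ 0) (M : AddSubgroup A)
    (hst : ∀ τ ∈ H, ∀ x ∈ M, τ • x ∈ M) {v : A} (hv : v ∈ M) (hr : addOrderOf v = r) :
    ∃ d : ℕ, 1 ≤ d ∧ d ≤ (H.map (act G A r)).index ∧ ∀ Q : A, r • Q = 0 → d • Q ∈ M := by
  have hr0 : 0 < r := Nat.pos_of_ne_zero (NeZero.ne r)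
  have hvr : r • v = 0 := by rw [← hr]; exact addOrderOf_nsmul_eq_zero v
  set V : Tn A r := ⟨v, hvr⟩ with hV
  obtain ⟨x, y, hxy⟩ := unimod (φ V) (fun c hc hcr h0 => by
    have h1 : c • V = 0 := φ.injective (by rw [map_nsmul, h0, map_zero])
    have h2 : c • v = 0 := congrArg Subtype.val h1
    have h3 := addOrderOf_le_of_nsmul_eq_zero (by omega) h2
    omega)
  let lam : ZMod r × ZMod r → ZMod r := fun w => x * w.1 + y * w.2
  let Nz : ZMod r × ZMod r →+ ZMod r × ZMod r :=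
    { toFun := fun w => (-(y * lam w), x * lam w)
      map_zero' := by
        ext
        · show -(y * (x * 0 + y * 0)) = 0
          ring
        · show x * (x * 0 + y * 0) = 0
          ring
      map_add' := fun w w' => by
        ext
        · show -(y * (x * (w.1 + w'.1) + y * (w.2 + w'.2))) =
            -(y * (x * w.1 + y * w.2)) + -(y * (x * w'.1 + y * w'.2))
          ring
        · show x * (x * (w.1 + w'.1) + y * (w.2 + w'.2)) =
            x * (x * w.1 + y * w.2) + x * (x * w'.1 + y * w'.2)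
          ring }
  have hNz : ∀ w, Nz w = (-(y * lam w), x * lam w) := fun _ => rfl
  have hNN : ∀ w, Nz (Nz w) = 0 := by
    intro w
    have h1 : lam (Nz w) = 0 := by
      show x * (-(y * lam w)) + y * (x * lam w) = 0
      ring
    rw [hNz (Nz w), h1, mul_zero, mul_zero, neg_zero]
    rfl
  let N : Tn A r →+ Tn A r := φ.symm.toAddMonoidHom.comp (Nz.comp φ.toAddMonoidHom)
  have hN : ∀ Q, φ (N Q) = Nz (φ Q) := fun Q => φ.apply_symm_apply _
  have hN2 : ∀ Q, N (N Q) = 0 := fun Q => φ.injective (by rw [hN, hN, hNN, map_zero])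
  let U : Tn A r ≃ₗ[ℤ] Tn A r := AddEquiv.toIntLinearEquiv
    { toFun := fun Q => Q + N Q
      invFun := fun Q => Q - N Q
      left_inv := fun Q => by
        show Q + N Q - N (Q + N Q) = Q
        rw [map_add, hN2]
        abel
      right_inv := fun Q => by
        show Q - N Q + N (Q - N Q) = Q
        rw [map_sub, hN2]
        abel
      map_add' := fun Q R => by
        show Q + R + N (Q + R) = Q + N Q + (R + N R)
        rw [map_add]
        abel }
  have hU : ∀ (d : ℕ) (Q : Tn A r), (U ^ d) Q = Q + d • N Q := by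
    intro d
    induction d with
    | zero =>
      intro Q
      rw [pow_zero, zero_smul, add_zero]
      rfl
    | succ d ih =>
      intro Q
      rw [pow_succ]
      show (U ^ d) (U Q) = _
      rw [ih]
      show Q + N Q + d • N (Q + N Q) = _
      rw [map_add, hN2, add_zero, add_smul, one_smul]
      abel
  obtain ⟨d, hd0, hdle, hd⟩ := Subgroup.exists_pow_mem_of_index_ne_zero hidx U
  refine ⟨d, hd0, hdle, fun Q hQ => ?_⟩
  obtain ⟨τ, hτ, hτU⟩ := hd
  -- `d • N V` is in `M`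
  have hdN : d • ((N V : Tn A r) : A) ∈ M := by
    have h1 : ((act G A r τ V : Tn A r) : A) = ((V + d • N V : Tn A r) : A) := by
      rw [hτU, hU]
    rw [act_apply] at h1
    have h2 : τ • v = v + d • ((N V : Tn A r) : A) := by
      rw [hV] at h1 ⊢
      push_cast at h1 ⊢
      exact h1
    have h3 : d • ((N V : Tn A r) : A) = τ • v - v := by
      rw [h2]
      abel
    rw [h3]
    exact M.sub_mem (hst τ hτ v hv) hv
  set w := φ ⟨Q, hQ⟩ with hw
  have hlam : lam (φ V) = 1 := hxy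
  have hNV : φ (N V) = (-y, x) := by
    rw [hN, hNz, hlam, mul_one, mul_one]
  have hQe : (⟨Q, hQ⟩ : Tn A r) = (lam w).val • V +
      (-((φ V).2) * w.1 + (φ V).1 * w.2).val • N V := by
    refine φ.injective ?_
    have hval : ∀ (c : ZMod r) (z : ZMod r × ZMod r), c.val • z = (c * z.1, c * z.2) := by
      intro c z
      ext
      · rw [Prod.smul_fst, nsmul_eq_mul, ZMod.natCast_val, ZMod.cast_id]
      · rw [Prod.smul_snd, nsmul_eq_mul, ZMod.natCast_val, ZMod.cast_id]
    rw [map_add, map_nsmul, map_nsmul, hNV, ← hw, hval, hval]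
    ext
    · show w.1 = (x * w.1 + y * w.2) * (φ V).1 +
        (-((φ V).2) * w.1 + (φ V).1 * w.2) * -y
      linear_combination (-w.1) * hxy
    · show w.2 = (x * w.1 + y * w.2) * (φ V).2 +
        (-((φ V).2) * w.1 + (φ V).1 * w.2) * x
      linear_combination (-w.2) * hxy
  have hQ2 : Q = (lam w).val • v +
      (-((φ V).2) * w.1 + (φ V).1 * w.2).val • ((N V : Tn A r) : A) := by
    have h1 := congrArg Subtype.val hQe
    rw [AddSubgroup.coe_add, AddSubgroup.coe_nsmul, AddSubgroup.coe_nsmul] at h1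
    exact h1
  rw [hQ2, smul_add, smul_smul, smul_smul, mul_comm d, mul_comm d, mul_smul, mul_smul]
  exact M.add_mem (M.nsmul_mem (M.nsmul_mem hv _) _) (M.nsmul_mem hdN _)

/-- `A[c] = g A[r]` if `c g = r` -/
theorem tors_div {r : ℕ} [NeZero r] (φ : Tn A r ≃+ ZMod r × ZMod r) {c g : ℕ} (hcg : c * g = r)
    {Q : A} (hQ : c • Q = 0) : ∃ Q' : A, r • Q' = 0 ∧ g • Q' = Q := by
  have hr0 : 0 < r := Nat.pos_of_ne_zero (NeZero.ne r)
  have hc0 : 0 < c := Nat.pos_of_ne_zero fun h => by rw [h, zero_mul] at hcg; omega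
  have hrQ : r • Q = 0 := by rw [← hcg, mul_comm, mul_smul, hQ, smul_zero]
  set w := φ ⟨Q, hrQ⟩ with hw
  have hcw : c • w = 0 := by
    rw [hw, ← map_nsmul]
    have h1 : c • (⟨Q, hrQ⟩ : Tn A r) = 0 := Subtype.ext hQ
    rw [h1, map_zero]
  have key : ∀ z : ZMod r, (c : ZMod r) * z = 0 → ∃ z' : ZMod r, z = (g : ZMod r) * z' := by
    intro z hz
    have h1 : ((c * z.val : ℕ) : ZMod r) = 0 := by
      push_cast
      rw [ZMod.natCast_val, ZMod.cast_id]
      exact hz
    rw [ZMod.natCast_eq_zero_iff] at h1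
    have h3 : c * g ∣ c * z.val := by
      rw [hcg]
      exact h1
    obtain ⟨z', hz'⟩ := Nat.dvd_of_mul_dvd_mul_left hc0 h3
    refine ⟨(z' : ZMod r), ?_⟩
    have h2 : ((z.val : ℕ) : ZMod r) = z := by rw [ZMod.natCast_val, ZMod.cast_id]
    rw [← h2, hz']
    push_cast
    rfl
  obtain ⟨z₁, hz₁⟩ := key w.1 (by
    have := congrArg Prod.fst hcw
    rwa [Prod.smul_fst, nsmul_eq_mul] at this)
  obtain ⟨z₂, hz₂⟩ := key w.2 (by
    have := congrArg Prod.snd hcw
    rwa [Prod.smul_snd, nsmul_eq_mul] at this)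
  refine ⟨(φ.symm (z₁, z₂) : Tn A r), (φ.symm (z₁, z₂)).2, ?_⟩
  have h1 : g • φ.symm (z₁, z₂) = (⟨Q, hrQ⟩ : Tn A r) := by
    refine φ.injective ?_
    rw [map_nsmul, φ.apply_symm_apply, ← hw]
    ext
    · rw [Prod.smul_fst, nsmul_eq_mul, hz₁]
    · rw [Prod.smul_snd, nsmul_eq_mul, hz₂]
  have h2 := congrArg Subtype.val h1
  rw [AddSubgroup.coe_nsmul] at h2
  exact h2

/-- the order of the elements of `b M` for the largest `b` with `A[b] ≤ M` -/
theorem ord_le {H : Subgroup G} (hiso : ∀ r : ℕ, 1 ≤ r → Nonempty (Tn A r ≃+ ZMod r × ZMod r))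
    {j : ℕ} (hidx : ∀ r : ℕ, 1 ≤ r → (H.map (act G A r)).index ≠ 0 ∧
      (H.map (act G A r)).index ≤ j)
    (M : AddSubgroup A) (hst : ∀ τ ∈ H, ∀ x ∈ M, τ • x ∈ M) {b : ℕ} (hb1 : 1 ≤ b)
    (hb : ∀ Q : A, b • Q = 0 → Q ∈ M)
    (hmax : ∀ b' : ℕ, 1 ≤ b' → (∀ Q : A, b' • Q = 0 → Q ∈ M) → b' ≤ b)
    {x : A} (hx : x ∈ M) {n : ℕ} (hn : 1 ≤ n) (hnx : n • x = 0) : addOrderOf (b • x) ≤ j := by
  set v := b • x with hv
  set r := addOrderOf v with hr
  have hr0 : 0 < r := by
    rw [hr, addOrderOf_pos_iff, isOfFinAddOrder_iff_nsmul_eq_zero]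
    refine ⟨n, hn, ?_⟩
    rw [hv, smul_comm, hnx, smul_zero]
  have : NeZero r := ⟨by omega⟩
  obtain ⟨φ⟩ := hiso r hr0
  let M' : AddSubgroup A := M.map (nsmulAddMonoidHom b)
  have hM' : ∀ z, z ∈ M' ↔ ∃ m ∈ M, b • m = z := fun z => AddSubgroup.mem_map
  have hst' : ∀ τ ∈ H, ∀ z ∈ M', τ • z ∈ M' := by
    intro τ hτ z hz
    obtain ⟨m, hm, rfl⟩ := (hM' z).1 hz
    exact (hM' _).2 ⟨τ • m, hst τ hτ m hm, smul_comm _ _ _⟩
  obtain ⟨d, hd1, hdle, hd⟩ := exists_d φ (hidx r hr0).1 M' hst' ((hM' v).2 ⟨x, hx, rfl⟩) rfl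
  -- `gcd d r`
  set g := Nat.gcd d r with hg
  have hg0 : 0 < g := Nat.gcd_pos_of_pos_left _ (by omega)
  obtain ⟨c, hc⟩ : g ∣ r := Nat.gcd_dvd_right _ _
  have hc0 : 1 ≤ c := by
    rcases Nat.eq_zero_or_pos c with h0 | h0
    · rw [h0, mul_zero] at hc
      omega
    · exact h0
  have hgM : ∀ Q : A, r • Q = 0 → g • Q ∈ M' := by
    intro Q hQ
    have h1 := Nat.gcd_eq_gcd_ab d r
    have h2 : (g : ℤ) • Q = Nat.gcdA d r • (d • Q) := by
      rw [hg, h1, add_smul, mul_comm (d : ℤ), mul_comm (r : ℤ), mul_smul, mul_smul,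
        natCast_zsmul, natCast_zsmul, hQ, smul_zero, add_zero]
    rw [natCast_zsmul] at h2
    rw [h2]
    exact M'.zsmul_mem (hd Q hQ) _
  have hcM : ∀ Q : A, c • Q = 0 → Q ∈ M' := by
    intro Q hQ
    obtain ⟨Q', hQ', rfl⟩ := tors_div φ (show c * g = r by rw [hc, mul_comm]) hQ
    exact hgM Q' hQ'
  have hbc := hmax (b * c) (Nat.mul_pos hb1 hc0) fun Q hQ => by
    have h1 : b • Q ∈ M' := hcM _ (by rw [smul_smul, mul_comm, hQ])
    obtain ⟨m, hm, hmQ⟩ := (hM' _).1 h1
    have h2 : Q - m ∈ M := hb _ (by rw [smul_sub, hmQ, sub_self])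
    have h3 : Q = Q - m + m := by abel
    rw [h3]
    exact M.add_mem h2 hm
  have hc1 : c = 1 := by
    have : b * c ≤ b * 1 := by rw [mul_one]; exact hbc
    have := Nat.le_of_mul_le_mul_left this hb1
    omega
  rw [hc1, mul_one] at hc
  have h1 : r ∣ d := by
    rw [hc]
    exact Nat.gcd_dvd_left _ _
  have h2 := Nat.le_of_dvd (by omega) h1
  have h3 := (hidx r hr0).2
  omega

/-- a lower bound for Euler's function -/
theorem le_totient : ∀ u : ℕ, (Odd u → u ≤ Nat.totient u ^ 2) ∧ u ≤ 2 * Nat.totient u ^ 2 := by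
  intro u
  induction u using Nat.recOnPosPrimePosCoprime with
  | zero => exact ⟨fun _ => Nat.zero_le _, Nat.zero_le _⟩
  | one => exact ⟨fun _ => by norm_num, by norm_num⟩
  | prime_pow p n hp hn =>
    obtain ⟨n, rfl⟩ : ∃ n', n = n' + 1 := ⟨n - 1, by omega⟩
    rw [Nat.totient_prime_pow_succ hp]
    have h1 : p ^ (n + 1) ≤ p ^ (2 * n + 1) :=
      Nat.pow_le_pow_right hp.pos (by omega)
    rcases hp.eq_two_or_odd' with rfl | ho
    · refine ⟨fun h => ?_, ?_⟩
      · exfalso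
        rw [Nat.odd_pow_iff (by omega)] at h
        exact absurd h (by decide)
      · have h2 : 2 * (2 ^ n * (2 - 1)) ^ 2 = 2 ^ (2 * n + 1) := by
          norm_num
          ring
        rw [h2]
        exact h1
    · have hp3 : 3 ≤ p := by
        have := hp.two_le
        obtain ⟨k, hk⟩ := ho
        omega
      have h2 : p ≤ (p - 1) ^ 2 := by
        obtain ⟨k, rfl⟩ : ∃ k, p = k + 3 := ⟨p - 3, by omega⟩
        rw [show k + 3 - 1 = k + 2 from rfl]
        nlinarith
      have h3 : p ^ (2 * n + 1) ≤ (p ^ n * (p - 1)) ^ 2 := by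
        calc p ^ (2 * n + 1) = p ^ (2 * n) * p := pow_succ _ _
          _ ≤ p ^ (2 * n) * (p - 1) ^ 2 := Nat.mul_le_mul_left _ h2
          _ = (p ^ n * (p - 1)) ^ 2 := by ring
      exact ⟨fun _ => h1.trans h3, (h1.trans h3).trans (Nat.le_mul_of_pos_left _ (by norm_num))⟩
  | coprime a b ha hb hab iha ihb =>
    rw [Nat.totient_mul hab]
    refine ⟨fun h => ?_, ?_⟩
    · rw [Nat.odd_mul] at h
      rw [mul_pow]
      exact Nat.mul_le_mul (iha.1 h.1) (ihb.1 h.2)
    · rcases Nat.even_or_odd a with hea | hoa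
      · rcases Nat.even_or_odd b with heb | hob
        · exfalso
          have h1 := Nat.dvd_gcd hea.two_dvd heb.two_dvd
          rw [hab.gcd_eq_one] at h1
          exact absurd h1 (by norm_num)
        · calc a * b ≤ (2 * Nat.totient a ^ 2) * Nat.totient b ^ 2 :=
                Nat.mul_le_mul iha.2 (ihb.1 hob)
            _ = 2 * (Nat.totient a * Nat.totient b) ^ 2 := by ring
      · calc a * b ≤ Nat.totient a ^ 2 * (2 * Nat.totient b ^ 2) :=
              Nat.mul_le_mul (iha.1 hoa) ihb.2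
          _ = 2 * (Nat.totient a * Nat.totient b) ^ 2 := by ring

end Pool.DynLehmer.LE.Op
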