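import Mathlib

set_option autoImplicit false

/-!
# Row OPENJ, part 1: the number of the units `1 + y J` modulo `d`
-/

namespace Pool.DynLehmer.LE.Oj

/-- the number of the `y` with `1 + t y + n y ^ 2` invertible modulo `d` -/
noncomputable def good (t n : ℤ) (d : ℕ) : ℕ :=
  Nat.card {y : ZMod d // IsUnit (1 + (t : ZMod d) * y + (n : ZMod d) * y ^ 2)}

theorem good_mul (t n : ℤ) {a b : ℕ} (h : a.Coprime b) :
    good t n (a * b) = good t n a * good t n b := by
  let e := ZMod.chineseRemainder h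
  rw [good, good, good, ← Nat.card_prod]
  have e1 : {y : ZMod (a * b) // IsUnit (1 + (t : ZMod (a * b)) * y + (n : ZMod (a * b)) * y ^ 2)} ≃
      {z : ZMod a × ZMod b // (IsUnit (1 + (t : ZMod a) * z.1 + (n : ZMod a) * z.1 ^ 2)) ∧
        IsUnit (1 + (t : ZMod b) * z.2 + (n : ZMod b) * z.2 ^ 2)} := by
    refine Equiv.subtypeEquiv e.toEquiv fun y => ?_
    have h1 : IsUnit (1 + (t : ZMod (a * b)) * y + (n : ZMod (a * b)) * y ^ 2) ↔
        IsUnit (e (1 + (t : ZMod (a * b)) * y + (n : ZMod (a * b)) * y ^ 2)) :=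
      (MulEquiv.isUnit_map e).symm
    rw [h1, map_add, map_add, map_mul, map_mul, map_pow, map_intCast, map_intCast, map_one,
      Prod.isUnit_iff]
    rfl
  rw [Nat.card_congr e1]
  exact Nat.card_congr (Equiv.subtypeProdEquivProd
    (p := fun y : ZMod a => IsUnit (1 + (t : ZMod a) * y + (n : ZMod a) * y ^ 2))
    (q := fun y : ZMod b => IsUnit (1 + (t : ZMod b) * y + (n : ZMod b) * y ^ 2)))

theorem isUnit_of_ne {p a : ℕ} (hp : p.Prime) (z : ℤ) (h : ((z : ℤ) : ZMod p) ≠ 0) :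
    IsUnit ((z : ℤ) : ZMod (p ^ a)) := by
  have h1 : IsCoprime z ((p : ℤ) ^ a) := by
    refine IsCoprime.pow_right ?_
    rw [isCoprime_comm, (Nat.prime_iff_prime_int.1 hp).coprime_iff_not_dvd]
    intro h2
    exact h ((ZMod.intCast_zmod_eq_zero_iff_dvd z p).2 h2)
  obtain ⟨u, v, huv⟩ := h1
  refine IsUnit.of_mul_eq_one ((u : ℤ) : ZMod (p ^ a)) ?_
  have h2 := congrArg (Int.cast : ℤ → ZMod (p ^ a)) huv
  push_cast at h2
  have h3 : ((p : ZMod (p ^ a))) ^ a = 0 := by
    have := ZMod.natCast_self (p ^ a)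
    push_cast at this
    exact this
  rw [h3, mul_zero, add_zero] at h2
  rw [mul_comm]
  exact h2

/-- lower bound at the powers of a prime -/
theorem good_pow (t n : ℤ) {p : ℕ} (hp : p.Prime) (a : ℕ) (s : Finset (ZMod p))
    (hs : ∀ y ∈ s, 1 + (t : ZMod p) * y + (n : ZMod p) * y ^ 2 ≠ 0) :
    s.card * p ^ a ≤ good t n (p ^ (a + 1)) := by
  have hp0 : 0 < p := hp.pos
  have : NeZero p := ⟨by omega⟩
  have : NeZero (p ^ (a + 1)) := ⟨pow_ne_zero _ (by omega)⟩
  have h1 : Nat.card (s × Fin (p ^ a)) ≤ good t n (p ^ (a + 1)) := by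
    refine Nat.card_le_card_of_injective (fun z : s × Fin (p ^ a) =>
      (⟨((z.1 : ZMod p).val + p * (z.2 : ℕ) : ℕ), ?_⟩ :
        {y : ZMod (p ^ (a + 1)) // IsUnit (1 + (t : ZMod (p ^ (a + 1))) * y +
          (n : ZMod (p ^ (a + 1))) * y ^ 2)})) ?_
    · have h2 := isUnit_of_ne (a := a + 1) hp
        (1 + t * (((z.1 : ZMod p).val + p * (z.2 : ℕ) : ℕ) : ℤ) +
          n * (((z.1 : ZMod p).val + p * (z.2 : ℕ) : ℕ) : ℤ) ^ 2) (by
          push_cast
          rw [ZMod.natCast_self, zero_mul, add_zero, ZMod.natCast_val, ZMod.cast_id]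
          exact hs _ z.1.2)
      push_cast at h2 ⊢
      exact h2
    · rintro ⟨⟨x, hx⟩, i⟩ ⟨⟨y, hy⟩, k⟩ h
      have h2 : ((x.val + p * (i : ℕ) : ℕ) : ZMod (p ^ (a + 1))) =
          ((y.val + p * (k : ℕ) : ℕ) : ZMod (p ^ (a + 1))) := congrArg Subtype.val h
      have hlt : ∀ (x : ZMod p) (i : Fin (p ^ a)), x.val + p * (i : ℕ) < p ^ (a + 1) := by
        intro x i
        have h3 := ZMod.val_lt x
        have h4 : (i : ℕ) + 1 ≤ p ^ a := i.2
        calc x.val + p * (i : ℕ) < p + p * (i : ℕ) := by omega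
          _ = p * ((i : ℕ) + 1) := by ring
          _ ≤ p * p ^ a := Nat.mul_le_mul_left _ h4
          _ = p ^ (a + 1) := by rw [pow_succ, mul_comm]
      rw [ZMod.natCast_eq_natCast_iff', Nat.mod_eq_of_lt (hlt x i), Nat.mod_eq_of_lt (hlt y k)]
        at h2
      have h3 : x.val = y.val := by
        have := congrArg (· % p) h2
        simp only [Nat.add_mul_mod_self_left] at this
        rwa [Nat.mod_eq_of_lt (ZMod.val_lt x), Nat.mod_eq_of_lt (ZMod.val_lt y)] at this
      have h4 : x = y := ZMod.val_injective p h3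
      subst h4
      have h5 : (i : ℕ) = k := by
        have : p * (i : ℕ) = p * (k : ℕ) := by omega
        exact Nat.eq_of_mul_eq_mul_left hp0 this
      have h6 : i = k := Fin.ext h5
      subst h6
      rfl
  rw [Nat.card_prod, Nat.card_eq_fintype_card, Nat.card_eq_fintype_card, Fintype.card_coe,
    Fintype.card_fin] at h1
  exact h1

/-- at most two residues are bad -/
theorem card_bad (t n : ℤ) {p : ℕ} (hp : p.Prime) :
    ∃ s : Finset (ZMod p), (∀ y ∈ s, 1 + (t : ZMod p) * y + (n : ZMod p) * y ^ 2 ≠ 0) ∧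
      p ≤ s.card + 2 := by
  have : Fact p.Prime := ⟨hp⟩
  have : NeZero p := ⟨hp.ne_zero⟩
  classical
  let f : Polynomial (ZMod p) := 1 + Polynomial.C (t : ZMod p) * Polynomial.X +
    Polynomial.C (n : ZMod p) * Polynomial.X ^ 2
  have hf : f ≠ 0 := by
    intro h
    have h1 := congrArg (fun g => Polynomial.coeff g 0) h
    simp [f] at h1
  have hdeg : f.natDegree ≤ 2 := by
    simp only [f]
    compute_degree
  refine ⟨Finset.univ \ f.roots.toFinset, ?_, ?_⟩
  · intro y hy h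
    rw [Finset.mem_sdiff] at hy
    apply hy.2
    rw [Multiset.mem_toFinset, Polynomial.mem_roots hf, Polynomial.IsRoot.def]
    simp only [f, Polynomial.eval_add, Polynomial.eval_one, Polynomial.eval_mul,
      Polynomial.eval_C, Polynomial.eval_X, Polynomial.eval_pow]
    exact h
  · have h1 : f.roots.toFinset.card ≤ 2 :=
      (Multiset.toFinset_card_le _).trans ((Polynomial.card_roots' f).trans hdeg)
    have h2 := Finset.le_card_sdiff f.roots.toFinset (Finset.univ : Finset (ZMod p))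
    rw [Finset.card_univ, ZMod.card] at h2
    omega

theorem le_good (t n : ℤ) : ∀ d : ℕ, d ≤ Nat.gcd 6 d * good t n d ^ 2 := by
  intro d
  induction d using Nat.recOnPosPrimePosCoprime with
  | zero => exact Nat.zero_le _
  | one =>
    have h1 : 1 ≤ good t n 1 := by
      have : Nonempty {y : ZMod 1 // IsUnit (1 + (t : ZMod 1) * y + (n : ZMod 1) * y ^ 2)} :=
        ⟨⟨0, by rw [mul_zero, zero_pow (by norm_num), mul_zero, add_zero, add_zero]; exact isUnit_one⟩⟩
      exact Nat.card_pos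
    rw [Nat.gcd_one_right, one_mul]
    nlinarith
  | prime_pow p a hp ha =>
    obtain ⟨a, rfl⟩ : ∃ a', a = a' + 1 := ⟨a - 1, by omega⟩
    have : NeZero p := ⟨hp.ne_zero⟩
    have h0 : p ^ a ≤ good t n (p ^ (a + 1)) := by
      have h1 := good_pow t n hp a {0} (by
        intro y hy
        rw [Finset.mem_singleton] at hy
        rw [hy, mul_zero, zero_pow (by norm_num), mul_zero, add_zero, add_zero]
        have : Fact p.Prime := ⟨hp⟩
        exact one_ne_zero)
      rw [Finset.card_singleton, one_mul] at h1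
      exact h1
    by_cases h5 : 5 ≤ p
    · obtain ⟨s, hs, hcard⟩ := card_bad t n hp
      have h1 := good_pow t n hp a s hs
      have h2 : p ≤ s.card ^ 2 := by nlinarith
      have h3 : 1 ≤ Nat.gcd 6 (p ^ (a + 1)) := Nat.gcd_pos_of_pos_left _ (by norm_num)
      calc p ^ (a + 1) ≤ p ^ (2 * a + 1) := Nat.pow_le_pow_right hp.pos (by omega)
        _ = p * (p ^ a) ^ 2 := by ring
        _ ≤ s.card ^ 2 * (p ^ a) ^ 2 := Nat.mul_le_mul_right _ h2
        _ = (s.card * p ^ a) ^ 2 := by ring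
        _ ≤ good t n (p ^ (a + 1)) ^ 2 := Nat.pow_le_pow_left h1 2
        _ ≤ _ := Nat.le_mul_of_pos_left _ h3
    · have h1 : p ∣ Nat.gcd 6 (p ^ (a + 1)) := by
        refine Nat.dvd_gcd ?_ (dvd_pow_self p (by omega))
        have h2 := hp.two_le
        interval_cases p
        · norm_num
        · norm_num
        · exact absurd hp (by norm_num)
      have h2 : p ≤ Nat.gcd 6 (p ^ (a + 1)) :=
        Nat.le_of_dvd (Nat.gcd_pos_of_pos_left _ (by norm_num)) h1
      calc p ^ (a + 1) ≤ p ^ (2 * a + 1) := Nat.pow_le_pow_right hp.pos (by omega)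
        _ = p * (p ^ a) ^ 2 := by ring
        _ ≤ Nat.gcd 6 (p ^ (a + 1)) * good t n (p ^ (a + 1)) ^ 2 :=
          Nat.mul_le_mul h2 (Nat.pow_le_pow_left h0 2)
  | coprime a b ha hb hab iha ihb =>
    rw [good_mul t n hab, Nat.Coprime.gcd_mul 6 hab]
    calc a * b ≤ (Nat.gcd 6 a * good t n a ^ 2) * (Nat.gcd 6 b * good t n b ^ 2) :=
          Nat.mul_le_mul iha ihb
      _ = _ := by ring

theorem le_good' (t n : ℤ) (d : ℕ) : d ≤ 6 * good t n d ^ 2 :=
  (le_good t n d).trans (Nat.mul_le_mul_right _ (Nat.le_of_dvd (by norm_num) (Nat.gcd_dvd_left 6 d)))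

end Pool.DynLehmer.LE.Oj
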