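import Pool.Agent.Lib.MP_2194ec_nt.LE.OpenB
import Pool.Agent.Lib.MP_2194ec_nt.LE.OpjA

set_option autoImplicit false

/-!
# Row OPENJ, part 2: large groups of automorphisms which commute with an endomorphism
-/

namespace Pool.DynLehmer.LE.Oj
open Pool.DynLehmer.LE.Op

variable {A : Type} [AddCommGroup A] {G : Type} [Group G] [DistribMulAction G A]

/-- the endomorphism on the torsion -/
def JT (J : A →+ A) (r : ℕ) : Tn A r →+ Tn A r where
  toFun Q := ⟨J Q, by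
    show r • J (Q : A) = 0
    rw [← map_nsmul, show r • (Q : A) = 0 from Q.2, map_zero]⟩
  map_zero' := Subtype.ext (map_zero J)
  map_add' Q R := Subtype.ext (map_add J (Q : A) R)

theorem JT_coe (J : A →+ A) (r : ℕ) (Q : Tn A r) : ((JT J r Q : Tn A r) : A) = J Q := rfl

/-- the automorphisms of the torsion which commute with `J` -/
def AJ (J : A →+ A) (r : ℕ) : Subgroup (Tn A r ≃ₗ[ℤ] Tn A r) where
  carrier := {f | ∀ Q, f (JT J r Q) = JT J r (f Q)}
  one_mem' := fun Q => rfl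
  mul_mem' := by
    intro f g hf hg Q
    show f (g (JT J r Q)) = JT J r (f (g Q))
    rw [hg Q, hf (g Q)]
  inv_mem' := by
    intro f hf Q
    show f.symm (JT J r Q) = JT J r (f.symm Q)
    apply f.injective
    rw [f.apply_symm_apply, hf, f.apply_symm_apply]

/-- `Q₀`, `J Q₀` is a basis of the `r`-torsion. -/
def IsB (J : A →+ A) (r : ℕ) (Q₀ : A) : Prop :=
  r • Q₀ = 0 ∧ (∀ Q : A, r • Q = 0 → ∃ x y : ℤ, Q = x • Q₀ + y • J Q₀) ∧
    ∀ x y : ℤ, x • Q₀ + y • J Q₀ = 0 → (r : ℤ) ∣ x ∧ (r : ℤ) ∣ y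

/-- the hypotheses -/
structure Hyp (J : A →+ A) (t n₀ : ℤ) (H : Subgroup G) (j : ℕ) : Prop where
  comm : ∀ (g : G) (Q : A), g • J Q = J (g • Q)
  sq : ∀ Q, J (J Q) = t • J Q - n₀ • Q
  iso : ∀ r : ℕ, 1 ≤ r → ∃ Q₀, IsB J r Q₀
  idx : ∀ r : ℕ, 1 ≤ r → (H.map (act G A r)).relIndex (AJ J r) ≠ 0 ∧
    (H.map (act G A r)).relIndex (AJ J r) ≤ j

section basis

variable {J : A →+ A} {r : ℕ} {Q₀ : A}

theorem zsmul_eq_zero_of_dvd {Q : A} (hQ : r • Q = 0) {x : ℤ} (h : (r : ℤ) ∣ x) : x • Q = 0 := by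
  obtain ⟨k, rfl⟩ := h
  rw [mul_comm, mul_smul, natCast_zsmul, hQ, smul_zero]

theorem JQ_tors {Q : A} (hQ : r • Q = 0) : r • J Q = 0 := by
  rw [← map_nsmul, hQ, map_zero]

theorem card_Tn (hr : 1 ≤ r) (hB : IsB J r Q₀) : Nat.card (Tn A r) = r ^ 2 := by
  have : NeZero r := ⟨by omega⟩
  obtain ⟨h0, h1, h2⟩ := hB
  have hJ0 : r • J Q₀ = 0 := JQ_tors h0
  have e : Function.Bijective (fun z : ZMod r × ZMod r =>
      (⟨z.1.val • Q₀ + z.2.val • J Q₀, by
        show r • _ = 0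
        rw [smul_add, smul_comm, h0, smul_zero, smul_comm, hJ0, smul_zero, add_zero]⟩ :
        Tn A r)) := by
    constructor
    · rintro ⟨x, y⟩ ⟨x', y'⟩ h
      have h3 : x.val • Q₀ + y.val • J Q₀ = x'.val • Q₀ + y'.val • J Q₀ :=
        congrArg Subtype.val h
      have h4 : ((x.val : ℤ) - x'.val) • Q₀ + ((y.val : ℤ) - y'.val) • J Q₀ = 0 := by
        rw [sub_smul, sub_smul, natCast_zsmul, natCast_zsmul, natCast_zsmul, natCast_zsmul]
        rw [← sub_eq_zero] at h3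
        rw [← h3]
        abel
      obtain ⟨h5, h6⟩ := h2 _ _ h4
      have key : ∀ u w : ZMod r, (r : ℤ) ∣ (u.val : ℤ) - w.val → u = w := by
        intro u w h
        have h7 := (ZMod.intCast_zmod_eq_zero_iff_dvd _ r).2 h
        push_cast at h7
        rw [ZMod.natCast_val, ZMod.cast_id, ZMod.natCast_val, ZMod.cast_id, sub_eq_zero] at h7
        exact h7
      rw [key _ _ h5, key _ _ h6]
    · rintro ⟨Q, hQ⟩
      obtain ⟨x, y, hxy⟩ := h1 Q hQ
      refine ⟨((x : ZMod r), (y : ZMod r)), Subtype.ext ?_⟩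
      show (x : ZMod r).val • Q₀ + (y : ZMod r).val • J Q₀ = Q
      have key : ∀ (z : ℤ) {R : A}, r • R = 0 → (z : ZMod r).val • R = z • R := by
        intro z R hR
        have h7 : (r : ℤ) ∣ ((z : ZMod r).val : ℤ) - z := by
          rw [← ZMod.intCast_zmod_eq_zero_iff_dvd]
          push_cast
          rw [ZMod.natCast_val, ZMod.cast_id, sub_self]
        have h8 := zsmul_eq_zero_of_dvd hR h7
        rw [sub_smul, natCast_zsmul, sub_eq_zero] at h8
        exact h8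
      rw [key x h0, key y hJ0, hxy]
  rw [← Nat.card_congr (Equiv.ofBijective _ e), Nat.card_prod, Nat.card_zmod, sq]

theorem finite_Tn (hr : 1 ≤ r) (hB : IsB J r Q₀) : Finite (Tn A r) := by
  have h := card_Tn hr hB
  exact Nat.finite_of_card_ne_zero (by rw [h]; positivity)

/-- the second coordinate -/
theorem exists_coord (hB : IsB J r Q₀) : ∃ c : Tn A r →+ ZMod r,
    ∀ Q : Tn A r, c Q = 0 → c (JT J r Q) = 0 → Q = 0 := by
  obtain ⟨h0, h1, h2⟩ := hB
  have hex : ∀ Q : Tn A r, ∃ y x : ℤ, (Q : A) = x • Q₀ + y • J Q₀ := fun Q => by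
    obtain ⟨x, y, h⟩ := h1 Q Q.2
    exact ⟨y, x, h⟩
  choose y x hxy using hex
  have huniq : ∀ (Q : Tn A r) (x' y' : ℤ), (Q : A) = x' • Q₀ + y' • J Q₀ →
      ((y Q : ℤ) : ZMod r) = ((y' : ℤ) : ZMod r) ∧ ((x Q : ℤ) : ZMod r) = ((x' : ℤ) : ZMod r) := by
    intro Q x' y' h
    have h3 : (x Q - x') • Q₀ + (y Q - y') • J Q₀ = 0 := by
      rw [hxy Q] at h
      rw [← sub_eq_zero] at h
      rw [← h, sub_smul, sub_smul]
      abel
    obtain ⟨h4, h5⟩ := h2 _ _ h3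
    rw [← ZMod.intCast_zmod_eq_zero_iff_dvd] at h4 h5
    push_cast at h4 h5
    exact ⟨sub_eq_zero.1 h5, sub_eq_zero.1 h4⟩
  refine ⟨{ toFun := fun Q => ((y Q : ℤ) : ZMod r), map_zero' := ?_, map_add' := ?_ }, ?_⟩
  · have := (huniq 0 0 0 (by rw [zero_smul, zero_smul, add_zero]; rfl)).1
    rw [this, Int.cast_zero]
  · intro Q R
    have := (huniq (Q + R) (x Q + x R) (y Q + y R) (by
      show (Q : A) + (R : A) = _
      rw [hxy Q, hxy R, add_smul, add_smul]
      abel)).1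
    rw [this, Int.cast_add]
  · intro Q hQ hJQ
    have e1 : ((y Q : ℤ) : ZMod r) = 0 := hQ
    have e2 : ((y (JT J r Q) : ℤ) : ZMod r) = 0 := hJQ
    have h3 : (r : ℤ) ∣ y Q := (ZMod.intCast_zmod_eq_zero_iff_dvd _ r).1 e1
    have h4 : (Q : A) = x Q • Q₀ := by
      conv_lhs => rw [hxy Q]
      rw [zsmul_eq_zero_of_dvd (JQ_tors h0) h3, add_zero]
    have h5 := (huniq (JT J r Q) 0 (x Q) (by
      rw [JT_coe, h4, map_zsmul, zero_smul, zero_add])).1
    rw [e2] at h5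
    have h6 : (r : ℤ) ∣ x Q := (ZMod.intCast_zmod_eq_zero_iff_dvd _ r).1 h5.symm
    refine Subtype.ext ?_
    rw [h4, zsmul_eq_zero_of_dvd h0 h6]
    rfl

end basis

section

variable {J : A →+ A} {t n₀ : ℤ} {H : Subgroup G} {j : ℕ}

/-- the form of the action -/
theorem act_form (h : Hyp J t n₀ H j) {r : ℕ} (hr : 1 ≤ r) (g : G) :
    ∃ x y : ℤ, ∀ Q : A, r • Q = 0 → g • Q = x • Q + y • J Q := by
  obtain ⟨Q₀, h0, h1, h2⟩ := h.iso r hr
  obtain ⟨x, y, hxy⟩ := h1 (g • Q₀) (smul_Tn g h0)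
  refine ⟨x, y, fun Q hQ => ?_⟩
  obtain ⟨u, w, rfl⟩ := h1 Q hQ
  have hz : ∀ (z : ℤ) (R : A), g • (z • R) = z • (g • R) := fun z R =>
    map_zsmul (DistribSMul.toAddMonoidHom A g) z R
  rw [smul_add, hz, hz, h.comm, hxy, map_add, map_add, map_zsmul, map_zsmul, map_zsmul, map_zsmul]
  simp only [smul_add]
  rw [smul_comm u x, smul_comm u y, smul_comm w x, smul_comm w y]
  abel

theorem tot_leJ (h : Hyp J t n₀ H j) {n : ℕ} (hn : 1 ≤ n) {u : ℕ}
    (hu : u ∣ n) (hd : ∀ τ ∈ H, ∀ c : ℕ, (∀ Q : A, n • Q = 0 → τ • Q = c • Q) →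
      (u : ℤ) ∣ (c : ℤ) - 1) : Nat.totient u ≤ j := by
  have : NeZero n := ⟨by omega⟩
  obtain ⟨hidx, hle⟩ := h.idx n hn
  have hu0 : 0 < u := Nat.pos_of_dvd_of_pos hu hn
  have : NeZero u := ⟨by omega⟩
  set L := (H.map (act G A n)).comap (sc A n) with hL
  have h1 : L.index = (H.map (act G A n)).relIndex (sc A n).range := Subgroup.index_comap _ _
  have hr : (sc A n).range ≤ AJ J n := by
    rintro _ ⟨c, rfl⟩ Q
    refine Subtype.ext ?_
    show (c : ZMod n).val • J (Q : A) = J ((c : ZMod n).val • (Q : A))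
    rw [map_nsmul]
  have h2 : L.index ≤ (H.map (act G A n)).relIndex (AJ J n) := by
    rw [h1]
    exact Subgroup.relIndex_le_of_le_right hr hidx
  have h3 : L.index ≠ 0 := by
    have : Finite (ZMod n)ˣ := inferInstance
    exact Subgroup.index_ne_zero_of_finite
  have h4 : L ≤ (ZMod.unitsMap hu).ker := by
    intro c hc
    obtain ⟨τ, hτ, hτc⟩ := hc
    have h5 := hd τ hτ (c : ZMod n).val (fun Q hQ => by
      have h6 := congrArg (fun f : Tn A n ≃ₗ[ℤ] Tn A n => ((f ⟨Q, hQ⟩ : Tn A n) : A)) hτc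
      exact h6)
    rw [MonoidHom.mem_ker]
    refine Units.ext ?_
    have h7 : (((ZMod.unitsMap hu c : (ZMod u)ˣ)) : ZMod u) = (((c : ZMod n).val : ℕ) : ZMod u) := by
      rw [ZMod.unitsMap_val, ZMod.natCast_val]
    rw [h7, Units.val_one]
    obtain ⟨k, hk⟩ := h5
    have h8 := congrArg (Int.cast : ℤ → ZMod u) hk
    push_cast at h8
    rw [ZMod.natCast_self, zero_mul, sub_eq_zero] at h8
    exact h8
  have h5 : (ZMod.unitsMap hu).ker.index = Nat.totient u := by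
    rw [Subgroup.index_ker, MonoidHom.range_eq_top.2 (ZMod.unitsMap_surjective hu),
      Nat.card_congr Subgroup.topEquiv.toEquiv, Nat.card_eq_fintype_card,
      ZMod.card_units_eq_totient]
  have h6 := Nat.le_of_dvd (Nat.pos_of_ne_zero h3) (Subgroup.index_dvd_of_le h4)
  rw [h5] at h6
  omega

/-- If the group acts on the `d`-torsion by scalars, then `d` is small. -/
theorem d_le (h : Hyp J t n₀ H j) {d : ℕ} (hd : 1 ≤ d)
    (hs : ∀ τ ∈ H, ∃ x : ℤ, ∀ Q : A, d • Q = 0 → τ • Q = x • Q) : d ≤ 6 * j ^ 2 := by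
  have : NeZero d := ⟨by omega⟩
  obtain ⟨Q₀, hB⟩ := h.iso d hd
  have hfin := finite_Tn hd hB
  have hfin2 : Finite (Tn A d ≃ₗ[ℤ] Tn A d) := Finite.of_injective
    (fun f : Tn A d ≃ₗ[ℤ] Tn A d => (f : Tn A d → Tn A d)) DFunLike.coe_injective
  obtain ⟨hidx, hle⟩ := h.idx d hd
  obtain ⟨h0, h1, h2⟩ := hB
  have hsc : H.map (act G A d) ≤ (sc A d).range := by
    rintro _ ⟨τ, hτ, rfl⟩
    obtain ⟨x, hx⟩ := hs τ hτ
    obtain ⟨x', hx'⟩ := hs τ⁻¹ (H.inv_mem hτ)
    have h3 : (x' * x - 1) • Q₀ + (0 : ℤ) • J Q₀ = 0 := by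
      rw [zero_smul, add_zero, sub_smul, one_smul, mul_smul, ← hx Q₀ h0,
        ← hx' _ (smul_Tn τ h0), inv_smul_smul, sub_self]
    have h4 := (h2 _ _ h3).1
    rw [← ZMod.intCast_zmod_eq_zero_iff_dvd] at h4
    push_cast at h4
    have h5 : (x : ZMod d) * x' = 1 := by
      rw [mul_comm]
      exact sub_eq_zero.1 h4
    refine ⟨⟨x, x', h5, by rw [mul_comm]; exact h5⟩, ?_⟩
    refine LinearEquiv.ext fun Q => Subtype.ext ?_
    show ((x : ZMod d)).val • (Q : A) = τ • (Q : A)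
    rw [hx Q Q.2]
    have h7 : (d : ℤ) ∣ ((x : ZMod d).val : ℤ) - x := by
      rw [← ZMod.intCast_zmod_eq_zero_iff_dvd]
      push_cast
      rw [ZMod.natCast_val, ZMod.cast_id, sub_self]
    have h8 := zsmul_eq_zero_of_dvd (show d • (Q : A) = 0 from Q.2) h7
    rw [sub_smul, natCast_zsmul, sub_eq_zero] at h8
    exact h8
  have hr1 : ((sc A d).range).relIndex (AJ J d) ≤ j :=
    (Subgroup.relIndex_le_of_le_left hsc hidx).trans hle
  -- the units `1 + y J`
  have hg : ∀ y : {y : ZMod d // IsUnit (1 + (t : ZMod d) * y + (n₀ : ZMod d) * y ^ 2)},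
      ∃ f : AJ J d, ∀ Q : Tn A d, (((f : Tn A d ≃ₗ[ℤ] Tn A d) Q : Tn A d) : A) =
        (Q : A) + (y : ZMod d).val • J Q := by
    rintro ⟨y, hy⟩
    let f₀ : Tn A d →+ Tn A d := AddMonoidHom.id _ + y.val • JT J d
    have hf₀ : ∀ Q : Tn A d, ((f₀ Q : Tn A d) : A) = (Q : A) + y.val • J Q := fun Q => rfl
    have hinj : Function.Injective f₀ := by
      rw [injective_iff_map_eq_zero]
      intro Q hQ
      have h3 : (Q : A) + y.val • J Q = 0 := by
        rw [← hf₀, hQ]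
        rfl
      have h4 : (1 + t * y.val + n₀ * y.val ^ 2 : ℤ) • (Q : A) = 0 := by
        have h5 : (1 + t * y.val + n₀ * y.val ^ 2 : ℤ) • (Q : A) =
            (1 + t * y.val : ℤ) • ((Q : A) + y.val • J Q) -
              (y.val : ℤ) • J ((Q : A) + y.val • J Q) := by
          rw [map_add, map_nsmul, h.sq, ← natCast_zsmul (J (Q : A)) y.val,
            ← natCast_zsmul (t • J (Q : A) - n₀ • (Q : A)) y.val]
          generalize J (Q : A) = R
          generalize (Q : A) = Q'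
          module
        rw [h5, h3, map_zero, smul_zero, smul_zero, sub_zero]
      obtain ⟨v, hv⟩ := hy.exists_left_inv
      have h5 : (d : ℤ) ∣ (v.val : ℤ) * (1 + t * y.val + n₀ * y.val ^ 2) - 1 := by
        rw [← ZMod.intCast_zmod_eq_zero_iff_dvd]
        push_cast
        rw [ZMod.natCast_val, ZMod.cast_id, ZMod.natCast_val, ZMod.cast_id, hv, sub_self]
      have h6 := zsmul_eq_zero_of_dvd (show d • (Q : A) = 0 from Q.2) h5
      rw [sub_smul, mul_smul, h4, smul_zero, one_smul, zero_sub, neg_eq_zero] at h6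
      exact Subtype.ext h6
    have hbij : Function.Bijective f₀ := Finite.injective_iff_bijective.1 hinj
    refine ⟨⟨(AddEquiv.ofBijective f₀ hbij).toIntLinearEquiv, fun Q => Subtype.ext ?_⟩,
      fun Q => rfl⟩
    show J (Q : A) + y.val • J (J (Q : A)) = J ((Q : A) + y.val • J (Q : A))
    rw [map_add, map_nsmul]
  choose f hf using hg
  have hgood : good t n₀ d ≤ ((sc A d).range).relIndex (AJ J d) := by
    have hfin3 : Finite (AJ J d ⧸ ((sc A d).range).subgroupOf (AJ J d)) := inferInstance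
    refine Nat.card_le_card_of_injective (fun y => ((f y : AJ J d) :
      AJ J d ⧸ ((sc A d).range).subgroupOf (AJ J d))) ?_
    intro y y' hyy
    rw [QuotientGroup.eq, Subgroup.mem_subgroupOf] at hyy
    obtain ⟨c, hc⟩ := hyy
    have h3 : ((f y' : Tn A d ≃ₗ[ℤ] Tn A d)) = (f y : Tn A d ≃ₗ[ℤ] Tn A d) * sc A d c := by
      rw [hc]
      push_cast
      rw [mul_inv_cancel_left]
    have h4 := congrArg (fun g : Tn A d ≃ₗ[ℤ] Tn A d => ((g ⟨Q₀, h0⟩ : Tn A d) : A)) h3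
    have h5 : Q₀ + (y' : ZMod d).val • J Q₀ =
        (c : ZMod d).val • Q₀ + (y : ZMod d).val • J ((c : ZMod d).val • Q₀) := by
      have e1 := hf y' ⟨Q₀, h0⟩
      have e2 := hf y (sc A d c ⟨Q₀, h0⟩)
      exact e1.symm.trans (h4.trans e2)
    have h6 : (1 - (c : ZMod d).val : ℤ) • Q₀ +
        ((y' : ZMod d).val - (y : ZMod d).val * (c : ZMod d).val : ℤ) • J Q₀ = 0 := by
      have h7 := sub_eq_zero.2 h5
      rw [map_nsmul] at h7
      rw [← h7, sub_smul, sub_smul, one_smul, mul_smul, natCast_zsmul, natCast_zsmul,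
        natCast_zsmul, natCast_zsmul]
      abel
    obtain ⟨h7, h8⟩ := h2 _ _ h6
    rw [← ZMod.intCast_zmod_eq_zero_iff_dvd] at h7 h8
    push_cast at h7 h8
    rw [ZMod.natCast_val, ZMod.cast_id] at h7 h8
    rw [ZMod.natCast_val, ZMod.cast_id, ZMod.natCast_val, ZMod.cast_id] at h8
    rw [← sub_eq_zero.1 h7, mul_one] at h8
    exact Subtype.ext (sub_eq_zero.1 h8).symm
  have h3 := le_good' t n₀ d
  have h4 : good t n₀ d ≤ j := hgood.trans hr1
  calc d ≤ 6 * good t n₀ d ^ 2 := h3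
    _ ≤ 6 * j ^ 2 := Nat.mul_le_mul_left _ (Nat.pow_le_pow_left h4 2)

end

end Pool.DynLehmer.LE.Oj
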