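import Pool.Agent.Lib.MP_2194ec_nt.LE.Vc

set_option autoImplicit false

/-!
# The Lehmer bound for elliptic curves: scaling of a Weierstrass equation
-/

namespace Pool.DynLehmer.LE
open MvPolynomial NumberField Filter Topology Pool.DynLehmer Pool.DynLehmer.SB Pool.DynLehmer.SP
  Pool.DynLehmer.GS Pool.DynLehmer.LP Pool.DynLehmer.LW
open scoped Classical

/-- `W'` arises from `W` by `x' = w ^ 2 x`, `y' = w ^ 3 y`. -/
structure ScR {L : Type} [Field L] (W W' : WeierstrassCurve L) (w : L) : Prop where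
  ne : w ≠ 0
  e₁ : W'.a₁ = w * W.a₁
  e₂ : W'.a₂ = w ^ 2 * W.a₂
  e₃ : W'.a₃ = w ^ 3 * W.a₃
  e₄ : W'.a₄ = w ^ 4 * W.a₄
  e₆ : W'.a₆ = w ^ 6 * W.a₆

namespace ScR

section
variable {L : Type} [Field L] {W W' : WeierstrassCurve L} {w : L}

theorem symm (h : ScR W W' w) : ScR W' W w⁻¹ := by
  have hw := h.ne
  refine ⟨inv_ne_zero h.ne, ?_, ?_, ?_, ?_, ?_⟩
  · rw [h.e₁]; field_simp
  · rw [h.e₂]; field_simp
  · rw [h.e₃]; field_simp
  · rw [h.e₄]; field_simp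
  · rw [h.e₆]; field_simp

theorem map (h : ScR W W' w) {M : Type} [Field M] (φ : L →+* M) :
    ScR (W.map φ) (W'.map φ) (φ w) := by
  refine ⟨(map_ne_zero φ).2 h.ne, ?_, ?_, ?_, ?_, ?_⟩
  · change φ W'.a₁ = φ w * φ W.a₁
    rw [h.e₁, map_mul]
  · change φ W'.a₂ = φ w ^ 2 * φ W.a₂
    rw [h.e₂, map_mul, map_pow]
  · change φ W'.a₃ = φ w ^ 3 * φ W.a₃
    rw [h.e₃, map_mul, map_pow]
  · change φ W'.a₄ = φ w ^ 4 * φ W.a₄
    rw [h.e₄, map_mul, map_pow]
  · change φ W'.a₆ = φ w ^ 6 * φ W.a₆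
    rw [h.e₆, map_mul, map_pow]

theorem non (h : ScR W W' w) {x y : L} (hn : WeierstrassCurve.Affine.Nonsingular W x y) :
    WeierstrassCurve.Affine.Nonsingular W' (w ^ 2 * x) (w ^ 3 * y) := by
  rw [WeierstrassCurve.Affine.nonsingular_iff', WeierstrassCurve.Affine.equation_iff] at hn ⊢
  obtain ⟨h1, h2⟩ := hn
  constructor
  · rw [h.e₁, h.e₂, h.e₃, h.e₄, h.e₆]
    change y ^ 2 + W.a₁ * x * y + W.a₃ * y = x ^ 3 + W.a₂ * x ^ 2 + W.a₄ * x + W.a₆ at h1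
    linear_combination w ^ 6 * h1
  · change W.a₁ * y - (3 * x ^ 2 + 2 * W.a₂ * x + W.a₄) ≠ 0 ∨ 2 * y + W.a₁ * x + W.a₃ ≠ 0 at h2
    change W'.a₁ * (w ^ 3 * y) - (3 * (w ^ 2 * x) ^ 2 + 2 * W'.a₂ * (w ^ 2 * x) + W'.a₄) ≠ 0 ∨
      2 * (w ^ 3 * y) + W'.a₁ * (w ^ 2 * x) + W'.a₃ ≠ 0
    have e1 : 2 * (w ^ 3 * y) + W'.a₁ * (w ^ 2 * x) + W'.a₃ =
        w ^ 3 * (2 * y + W.a₁ * x + W.a₃) := by
      rw [h.e₁, h.e₃]; ring
    have e2 : W'.a₁ * (w ^ 3 * y) - (3 * (w ^ 2 * x) ^ 2 + 2 * W'.a₂ * (w ^ 2 * x) + W'.a₄) =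
        w ^ 4 * (W.a₁ * y - (3 * x ^ 2 + 2 * W.a₂ * x + W.a₄)) := by
      rw [h.e₁, h.e₂, h.e₄]; ring
    rw [e1, e2]
    exact h2.imp (mul_ne_zero (pow_ne_zero _ h.ne)) (mul_ne_zero (pow_ne_zero _ h.ne))

/-- the map on the points -/
def f (h : ScR W W' w) : WeierstrassCurve.Affine.Point W → WeierstrassCurve.Affine.Point W'
  | .zero => .zero
  | .some x y hn => .some (w ^ 2 * x) (w ^ 3 * y) (h.non hn)

theorem negY (h : ScR W W' w) (x y : L) :
    WeierstrassCurve.Affine.negY W' (w ^ 2 * x) (w ^ 3 * y) =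
      w ^ 3 * WeierstrassCurve.Affine.negY W x y := by
  change -(w ^ 3 * y) - W'.a₁ * (w ^ 2 * x) - W'.a₃ = w ^ 3 * (-y - W.a₁ * x - W.a₃)
  rw [h.e₁, h.e₃]
  ring

theorem slope (h : ScR W W' w) {x₁ x₂ y₁ y₂ : L}
    (h₁ : WeierstrassCurve.Affine.Equation W x₁ y₁) (h₂ : WeierstrassCurve.Affine.Equation W x₂ y₂)
    (hxy : ¬(x₁ = x₂ ∧ y₁ = WeierstrassCurve.Affine.negY W x₂ y₂)) :
    WeierstrassCurve.Affine.slope W' (w ^ 2 * x₁) (w ^ 2 * x₂) (w ^ 3 * y₁) (w ^ 3 * y₂) =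
      w * WeierstrassCurve.Affine.slope W x₁ x₂ y₁ y₂ := by
  have hw := h.ne
  by_cases hx : x₁ = x₂
  · subst hx
    have hy : y₁ ≠ WeierstrassCurve.Affine.negY W x₁ y₂ := fun h1 => hxy ⟨rfl, h1⟩
    have hyy : y₁ = y₂ := WeierstrassCurve.Affine.Y_eq_of_Y_ne h₁ h₂ rfl hy
    subst hyy
    have hy' : w ^ 3 * y₁ ≠ WeierstrassCurve.Affine.negY W' (w ^ 2 * x₁) (w ^ 3 * y₁) := by
      rw [h.negY]
      intro h1
      exact hy (mul_left_cancel₀ (pow_ne_zero _ hw) h1)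
    rw [WeierstrassCurve.Affine.slope_of_Y_ne rfl hy, WeierstrassCurve.Affine.slope_of_Y_ne rfl hy',
      h.negY, ← mul_sub]
    have h4 : y₁ - WeierstrassCurve.Affine.negY W x₁ y₁ ≠ 0 := sub_ne_zero.2 hy
    rw [div_eq_iff (mul_ne_zero (pow_ne_zero _ hw) h4)]
    have h5 : ∀ s D : L, D ≠ 0 → w * (s / D) * (w ^ 3 * D) = w ^ 4 * s := by
      intro s D hD
      field_simp
    rw [h5 _ _ h4]
    change 3 * (w ^ 2 * x₁) ^ 2 + 2 * W'.a₂ * (w ^ 2 * x₁) + W'.a₄ - W'.a₁ * (w ^ 3 * y₁) =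
      w ^ 4 * (3 * x₁ ^ 2 + 2 * W.a₂ * x₁ + W.a₄ - W.a₁ * y₁)
    rw [h.e₁, h.e₂, h.e₄]
    ring
  · have hx' : w ^ 2 * x₁ ≠ w ^ 2 * x₂ := fun h1 => hx (mul_left_cancel₀ (pow_ne_zero _ hw) h1)
    rw [WeierstrassCurve.Affine.slope_of_X_ne hx, WeierstrassCurve.Affine.slope_of_X_ne hx',
      ← mul_sub, ← mul_sub]
    have h2 : x₁ - x₂ ≠ 0 := sub_ne_zero.2 hx
    field_simp

theorem f_add (h : ScR W W' w) (P Q : WeierstrassCurve.Affine.Point W) :
    h.f (P + Q) = h.f P + h.f Q := by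
  have hw := h.ne
  match P, Q with
  | .zero, Q =>
    change h.f (0 + Q) = 0 + h.f Q
    rw [zero_add, zero_add]
  | .some x₁ y₁ h₁, .zero =>
    change h.f (_ + 0) = _ + 0
    rw [add_zero, add_zero]
  | .some x₁ y₁ h₁, .some x₂ y₂ h₂ =>
    change h.f _ = WeierstrassCurve.Affine.Point.some (w ^ 2 * x₁) (w ^ 3 * y₁) (h.non h₁) +
      WeierstrassCurve.Affine.Point.some (w ^ 2 * x₂) (w ^ 3 * y₂) (h.non h₂)
    by_cases hxy : x₁ = x₂ ∧ y₁ = WeierstrassCurve.Affine.negY W x₂ y₂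
    · rw [WeierstrassCurve.Affine.Point.add_of_Y_eq hxy.1 hxy.2,
        WeierstrassCurve.Affine.Point.add_of_Y_eq (by rw [hxy.1]) (by
          rw [h.negY, hxy.2])]
      rfl
    · have hxy' : ¬(w ^ 2 * x₁ = w ^ 2 * x₂ ∧ w ^ 3 * y₁ =
          WeierstrassCurve.Affine.negY W' (w ^ 2 * x₂) (w ^ 3 * y₂)) := by
        rintro ⟨a1, a2⟩
        rw [h.negY] at a2
        exact hxy ⟨mul_left_cancel₀ (pow_ne_zero _ hw) a1, mul_left_cancel₀ (pow_ne_zero _ hw) a2⟩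
      rw [WeierstrassCurve.Affine.Point.add_some hxy, WeierstrassCurve.Affine.Point.add_some hxy']
      have hs := h.slope h₁.1 h₂.1 hxy
      refine VcR.some_congr ?_ ?_
      · rw [hs]
        simp only [WeierstrassCurve.Affine.addX]
        rw [h.e₁, h.e₂]
        ring
      · rw [hs]
        simp only [WeierstrassCurve.Affine.addY, WeierstrassCurve.Affine.negAddY,
          WeierstrassCurve.Affine.negY, WeierstrassCurve.Affine.addX]
        rw [h.e₁, h.e₂, h.e₃]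
        ring

/-- the map on the points -/
def hom (h : ScR W W' w) : WeierstrassCurve.Affine.Point W →+ WeierstrassCurve.Affine.Point W' where
  toFun := h.f
  map_zero' := rfl
  map_add' := h.f_add

theorem symm_hom (h : ScR W W' w) (P : WeierstrassCurve.Affine.Point W) :
    h.symm.hom (h.hom P) = P := by
  have hw := h.ne
  match P with
  | .zero => rfl
  | .some x y hn =>
    refine VcR.some_congr (x := w⁻¹ ^ 2 * (w ^ 2 * x)) (by field_simp) ?_
    field_simp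

theorem hom_symm (h : ScR W W' w) (P : WeierstrassCurve.Affine.Point W') :
    h.hom (h.symm.hom P) = P := by
  have hw := h.ne
  match P with
  | .zero => rfl
  | .some x y hn =>
    refine VcR.some_congr (x := w ^ 2 * (w⁻¹ ^ 2 * x)) (by field_simp) ?_
    field_simp

end

end ScR

/-! ## Short equations -/

section
variable {K : Type} [Field K] {a b a' b' w : K}

theorem scR (hw : w ≠ 0) (ha : a' = w ^ 4 * a) (hb : b' = w ^ 6 * b) :
    ScR (Ws a b) (Ws a' b') w := by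
  refine ⟨hw, ?_, ?_, ?_, ha, hb⟩
  · change (0 : K) = w * 0
    rw [mul_zero]
  · change (0 : K) = w ^ 2 * 0
    rw [mul_zero]
  · change (0 : K) = w ^ 3 * 0
    rw [mul_zero]

variable (hs : ScR (Ws a b) (Ws a' b') w) (M : Type) [Field M] [Algebra K M]

/-- the scaling -/
noncomputable def scP : Ept a b M →+ Ept a' b' M := (hs.map (algebraMap K M)).hom

/-- the inverse of the scaling -/
noncomputable def scQ : Ept a' b' M →+ Ept a b M := (hs.map (algebraMap K M)).symm.hom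

theorem scQ_scP (P : Ept a b M) : scQ hs M (scP hs M P) = P := ScR.symm_hom _ P

theorem scP_scQ (P : Ept a' b' M) : scP hs M (scQ hs M P) = P := ScR.hom_symm _ P

theorem xc_scP (P : Ept a b M) : xc (scP hs M P) = algebraMap K M (w ^ 2) * xc P := by
  match P with
  | .zero => exact (mul_zero _).symm
  | .some x y hn =>
    change algebraMap K M w ^ 2 * x = algebraMap K M (w ^ 2) * x
    rw [map_pow]

theorem pm_scP {M' : Type} [Field M'] [Algebra K M'] (φ : M →ₐ[K] M') (P : Ept a b M) :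
    pm φ (scP hs M P) = scP hs M' (pm φ P) := by
  match P with
  | .zero => rfl
  | .some x y hn =>
    refine VcR.some_congr ?_ ?_
    · change φ (algebraMap K M w ^ 2 * x) = algebraMap K M' w ^ 2 * φ x
      rw [map_mul, map_pow, φ.commutes]
    · change φ (algebraMap K M w ^ 3 * y) = algebraMap K M' w ^ 3 * φ y
      rw [map_mul, map_pow, φ.commutes]

end

end Pool.DynLehmer.LE
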