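import Pool.Agent.Lib.MP_2194ec_nt.LE.EbS
import Pool.Agent.Lib.MP_2194ec_nt.LE.Scl
import Pool.Agent.Lib.MP_2194ec_nt.LE.Base
import Pool.Agent.Lib.MP_2194ec_nt.LE.Htq

set_option autoImplicit false
set_option linter.unusedSectionVars false

/-!
# The Lehmer bound for curves with potentially good supersingular reduction at some place
-/

namespace Pool.DynLehmer.LE
open MvPolynomial NumberField Filter Topology Pool.DynLehmer Pool.DynLehmer.SB Pool.DynLehmer.SP
  Pool.DynLehmer.GS Pool.DynLehmer.LP Pool.DynLehmer.LW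
open scoped Classical

/-- The curve has potentially good supersingular reduction at some place: over a finite extension
`K'` of `K` and for a place `v` of `K'` over a prime `p` it has a Weierstrass equation `W₀` with
coefficients in the valuation ring of `v` and with good supersingular reduction. -/
def PGS {K : Type} [Field K] (W : WeierstrassCurve K) : Prop :=
  ∃ (K' : Type) (_ : Field K') (_ : NumberField K') (_ : Algebra K K') (p : ℕ)
    (v : FinitePlace K') (W₀ : WeierstrassCurve (OW v)) (C : WeierstrassCurve.VariableChange K'),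
    p.Prime ∧ SupersG p v W₀ ∧ C • W.map (algebraMap K K') = W₀.map (OW v).subtype

namespace Pg

theorem adj_mul {K M : Type} [Field K] [Field M] [Algebra K M] {c : K} (hc : c ≠ 0) (z : M) :
    IntermediateField.adjoin K {algebraMap K M c * z} = IntermediateField.adjoin K {z} := by
  apply le_antisymm
  · rw [IntermediateField.adjoin_le_iff, Set.singleton_subset_iff]
    exact mul_mem ((IntermediateField.adjoin K {z}).algebraMap_mem c)
      (IntermediateField.mem_adjoin_simple_self K z)
  · rw [IntermediateField.adjoin_le_iff, Set.singleton_subset_iff]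
    have h1 : algebraMap K M c⁻¹ * (algebraMap K M c * z) = z := by
      rw [← mul_assoc, ← map_mul, inv_mul_cancel₀ hc, map_one, one_mul]
    have h2 : algebraMap K M c⁻¹ * (algebraMap K M c * z) ∈
        IntermediateField.adjoin K {algebraMap K M c * z} :=
      mul_mem ((IntermediateField.adjoin K {algebraMap K M c * z}).algebraMap_mem c⁻¹)
        (IntermediateField.mem_adjoin_simple_self K _)
    rw [h1] at h2
    exact h2

section scale
variable {K : Type} [Field K] {a b a' b' w : K} (hs : ScR (Ws a b) (Ws a' b') w)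

theorem scP_inj (M : Type) [Field M] [Algebra K M] : Function.Injective (scP hs M) :=
  fun P Q h => by rw [← scQ_scP hs M P, h, scQ_scP]

theorem dg_scP {M : Type} [Field M] [Algebra K M] (P : Ept a b M) :
    dg K (scP hs M P).xRep = dg K P.xRep := by
  unfold dg
  rw [Fin28.quo, Fin28.quo, xc_scP, adj_mul (pow_ne_zero 2 hs.ne)]

theorem tq_scP {M : Type} [Field M] [Algebra K M] (P Q : Ept a b M) :
    Tq (scP hs M P) (scP hs M Q) ↔ Tq P Q := by
  constructor
  · rintro ⟨r, hr, h⟩
    refine ⟨r, hr, scP_inj hs M ?_⟩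
    rw [map_nsmul, map_nsmul, h]
  · rintro ⟨r, hr, h⟩
    refine ⟨r, hr, ?_⟩
    rw [← map_nsmul, ← map_nsmul, h]

/-- the heights of a point and of its image under the scaling -/
theorem ht_scP {N : Type} [Field N] [NumberField N] [Algebra K N] :
    ∃ C : ℝ, ∀ P : Ept a b N,
      |Height.logHeight (scP hs N P).xRep - Height.logHeight P.xRep| ≤ C := by
  have key : ∀ c : N, ∃ C : ℝ, ∀ y : Fin 2 → N,
      Height.logHeight ![c * y 0, y 1] ≤ C + Height.logHeight y := by
    intro c
    refine ⟨Height.totalWeight N * Real.log (Nat.card (Fin 2)) +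
      Height.logHeight (fun p : Fin 2 × Fin 2 => (![![c, 0], ![0, 1]] : Fin 2 → Fin 2 → N) p.1 p.2),
      fun y => ?_⟩
    have h := Height.logHeight_linearMap_apply_le
      (fun p : Fin 2 × Fin 2 => (![![c, 0], ![0, 1]] : Fin 2 → Fin 2 → N) p.1 p.2) y
    have h1 : (fun j => ∑ i, (![![c, 0], ![0, 1]] : Fin 2 → Fin 2 → N) j i * y i) =
        ![c * y 0, y 1] := by
      funext j
      rw [Fin.sum_univ_two]
      fin_cases j <;> simp
    rw [← h1]
    exact h
  have hw : algebraMap K N (w ^ 2) ≠ 0 := (map_ne_zero _).2 (pow_ne_zero _ hs.ne)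
  have hx : ∀ P : Ept a b N, Height.logHeight (scP hs N P).xRep =
      Height.logHeight ![algebraMap K N (w ^ 2) * P.xRep 0, P.xRep 1] := by
    intro P
    match P with
    | .zero =>
      change Height.logHeight (![1, 0] : Fin 2 → N) =
        Height.logHeight ![algebraMap K N (w ^ 2) * 1, 0]
      have h1 : (![algebraMap K N (w ^ 2) * 1, 0] : Fin 2 → N) =
          algebraMap K N (w ^ 2) • ![1, 0] := by
        funext j
        fin_cases j <;> simp
      rw [h1, Height.logHeight_smul_eq_logHeight _ hw]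
    | .some x y hn =>
      change Height.logHeight (![algebraMap K N w ^ 2 * x, 1] : Fin 2 → N) =
        Height.logHeight ![algebraMap K N (w ^ 2) * x, 1]
      rw [map_pow]
  obtain ⟨C, hC⟩ := key (algebraMap K N (w ^ 2))
  obtain ⟨C', hC'⟩ := key (algebraMap K N (w ^ 2))⁻¹
  refine ⟨max C C', fun P => ?_⟩
  rw [hx, abs_le]
  have h1 := hC P.xRep
  have h2 := hC' ![algebraMap K N (w ^ 2) * P.xRep 0, P.xRep 1]
  have h3 : (![(algebraMap K N (w ^ 2))⁻¹ *
      (![algebraMap K N (w ^ 2) * P.xRep 0, P.xRep 1] : Fin 2 → N) 0,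
      (![algebraMap K N (w ^ 2) * P.xRep 0, P.xRep 1] : Fin 2 → N) 1] : Fin 2 → N) = P.xRep := by
    funext j
    fin_cases j
    · change (algebraMap K N (w ^ 2))⁻¹ * (algebraMap K N (w ^ 2) * P.xRep 0) = P.xRep 0
      rw [inv_mul_cancel_left₀ hw]
    · rfl
  rw [h3] at h2
  constructor
  · linarith [le_max_right C C']
  · linarith [le_max_left C C']

end scale

/-- Scaling of the curve. -/
theorem eb_scale {K : Type} [Field K] [NumberField K] {a b a' b' w : K}
    (hs : ScR (Ws a b) (Ws a' b') w) {q lam : ℕ} {F F' : Fin 2 → MvPolynomial (Fin 2) K}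
    (hq : 2 ≤ q) (hM : ∀ i, (F i).IsHomogeneous q) (hM' : ∀ i, (F' i).IsHomogeneous q)
    (hL : IsLat a b lam F) (hL' : IsLat a' b' lam F') (h : EBound K a' b' q F') :
    EBound K a b q F := by
  intro A M
  obtain ⟨c, hc, H⟩ := h A M
  refine ⟨c, hc, ?_⟩
  intro N _ _ _ _ P hP hser
  obtain ⟨e, τ, hτ, hm, l, L, hL0, hLl, hLi⟩ := hser
  obtain ⟨ht, hht, hle⟩ := H N (scP hs N P) (by
      intro n hn h0
      refine hP n hn (scP_inj hs N ?_)
      rw [map_nsmul, h0, map_zero])
    ⟨e, τ, fun i j hij => by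
      rw [pm_scP, pm_scP, tq_scP]
      exact hτ i j hij, by
      refine le_trans (le_of_eq ?_) hm
      refine (Nat.card_congr (Equiv.subtypeEquiv (Equiv.ofBijective (scP hs N)
        ⟨scP_inj hs N, fun Q => ⟨scQ hs N Q, scP_scQ hs N Q⟩⟩) fun Q => ?_)).symm
      change _ ↔ (∃ σ : N ≃ₐ[K] N, pm (σ : N →ₐ[K] N) (scP hs N P) = scP hs N Q) ∧
        Tq (scP hs N P) (scP hs N Q)
      rw [tq_scP]
      refine and_congr (exists_congr fun σ => ?_) Iff.rfl
      rw [pm_scP]
      exact ⟨fun h => by rw [h], fun h => scP_inj hs N h⟩,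
      l, L, fun g hg k => by
        rw [pm_scP, pm_scP, tq_scP]
        exact hL0 g hg k, hLl, hLi⟩
  refine ⟨ht, ?_, ?_⟩
  · rw [HQ.hasHt_iff hM hL]
    rw [HQ.hasHt_iff hM' hL'] at hht
    obtain ⟨C, hC⟩ := ht_scP hs (N := N)
    have hN : (0 : ℝ) < (Module.finrank ℚ N : ℝ) := by exact_mod_cast Module.finrank_pos
    have hq1 : (1 : ℝ) < q := by exact_mod_cast hq
    have h0 : Tendsto (fun n : ℕ => (C / (Module.finrank ℚ N : ℝ)) * ((q : ℝ)⁻¹) ^ n) atTop
        (𝓝 0) := by
      have := (tendsto_pow_atTop_nhds_zero_of_lt_one (inv_nonneg.2 (by linarith : (0 : ℝ) ≤ q))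
        (inv_lt_one_of_one_lt₀ hq1)).const_mul (C / (Module.finrank ℚ N : ℝ))
      rwa [mul_zero] at this
    have hz : Tendsto (fun n : ℕ => Height.logHeight ((lam ^ n) • scP hs N P).xRep /
        (Module.finrank ℚ N : ℝ) / (q : ℝ) ^ n - Height.logHeight ((lam ^ n) • P).xRep /
        (Module.finrank ℚ N : ℝ) / (q : ℝ) ^ n) atTop (𝓝 0) := by
      refine squeeze_zero_norm (fun n => ?_) h0
      have hqn : (0 : ℝ) < (q : ℝ) ^ n := by positivity
      have e := hC ((lam ^ n) • P)
      rw [map_nsmul] at e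
      rw [← sub_div, ← sub_div, div_div, Real.norm_eq_abs, abs_div, abs_of_pos (mul_pos hN hqn)]
      have e3 : (C / (Module.finrank ℚ N : ℝ)) * ((q : ℝ)⁻¹) ^ n =
          C / ((Module.finrank ℚ N : ℝ) * (q : ℝ) ^ n) := by
        rw [inv_pow]
        field_simp
      rw [e3]
      exact div_le_div_of_nonneg_right e (mul_pos hN hqn).le
    have h2 := Tendsto.sub hht hz
    rw [sub_zero] at h2
    refine h2.congr fun n => ?_
    ring
  · rw [dg_scP] at hle
    exact hle

/-- the forms over an extension field -/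
theorem gAct_map {K K' : Type} [Field K] [Field K'] [Algebra K K']
    (F : Fin 2 → MvPolynomial (Fin 2) K) (M : Type) [Field M] [Algebra K M] [Algebra K' M]
    [IsScalarTower K K' M] (y : Fin 2 → M) :
    gAct (fun i => MvPolynomial.map (algebraMap K K') (F i)) M y = gAct F M y := by
  funext i
  unfold gAct
  rw [aeval_map_algebraMap]

theorem mor_map {K K' : Type} [Field K] [Field K'] [Algebra K K'] {q : ℕ}
    {F : Fin 2 → MvPolynomial (Fin 2) K} (h : Mor q F) :
    Mor q (fun i => MvPolynomial.map (algebraMap K K') (F i)) := by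
  refine ⟨fun i => (h.hom i).map _, fun N _ _ P hP => ?_⟩
  let _ : Algebra K N := ((algebraMap K' N).comp (algebraMap K K')).toAlgebra
  have : IsScalarTower K K' N := IsScalarTower.of_algebraMap_eq fun x => rfl
  rw [gAct_map]
  exact h.ne N P hP

theorem isLat_map {K K' : Type} [Field K] [Field K'] [Algebra K K'] {a b : K} {lam : ℕ}
    {F : Fin 2 → MvPolynomial (Fin 2) K} (h : IsLat a b lam F) :
    IsLat (algebraMap K K' a) (algebraMap K K' b) lam
      (fun i => MvPolynomial.map (algebraMap K K') (F i)) := by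
  intro M _ _ P
  let _ : Algebra K M := ((algebraMap K' M).comp (algebraMap K K')).toAlgebra
  have : IsScalarTower K K' M := IsScalarTower.of_algebraMap_eq fun x => rfl
  obtain ⟨c, hc, h1⟩ := h M ((Bs.tr (K' := K') M).symm P)
  refine ⟨c, hc, ?_⟩
  rw [gAct_map]
  have h2 : ∀ Q : Ept (algebraMap K K' a) (algebraMap K K' b) M,
      ((Bs.tr (K' := K') M).symm Q : Ept a b M).xRep = Q.xRep := by
    intro Q
    rw [← Bs.tr_xRep (K' := K') M ((Bs.tr (K' := K') M).symm Q), AddEquiv.apply_symm_apply]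
  rw [← map_nsmul, h2, h2] at h1
  exact h1

end Pg

open Pg in
/-- **The Lehmer bound for curves with potentially good supersingular reduction at some place.** -/
theorem pgs_bound (hFin : FineuSStatement) (hFre : FreeluSStatement) (hRep : RepeStatement)
    (hCls : ClseStatement) (hGrp : GrpbStatement) (hA : AddsubStatement) (hB : BaseStatement)
    {K : Type} [Field K] [NumberField K] (W : WeierstrassCurve K) (hP : PGS W) :
    ∃ p : ℕ, 2 ≤ p ∧ ∀ F : Fin 2 → MvPolynomial (Fin 2) K, Mor (p ^ 2) F →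
      IsLat (Du.sa W) (Du.sb W) p F → EBound K (Du.sa W) (Du.sb W) (p ^ 2) F := by
  obtain ⟨K', _, _, _, p, v, W₀, C, hp, hS, hC⟩ := hP
  refine ⟨p, hp.two_le, fun F hM hL => hB K K' _ _ _ _ ?_⟩
  obtain ⟨F₁, hM₁, hL₁, hE⟩ := ebG hFin hFre hRep hCls hGrp hA K' p v W₀ hp hS
  rw [← hC] at hL₁ hE
  have hq2 : 2 ≤ p ^ 2 := by
    have := hp.two_le
    nlinarith
  have hs : ScR (Ws (algebraMap K K' (Du.sa W)) (algebraMap K K' (Du.sb W)))
      (Ws (Du.sa (C • W.map (algebraMap K K'))) (Du.sb (C • W.map (algebraMap K K'))))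
      ((C.u⁻¹ : K'ˣ) : K') := by
    refine scR (Units.ne_zero _) ?_ ?_
    · simp only [Du.sa, WeierstrassCurve.variableChange_c₄, WeierstrassCurve.map_c₄, map_div₀,
        map_neg, map_ofNat]
      ring
    · simp only [Du.sb, WeierstrassCurve.variableChange_c₆, WeierstrassCurve.map_c₆, map_div₀,
        map_neg, map_ofNat]
      ring
  exact eb_scale hs hq2 (mor_map hM).hom hM₁.hom (isLat_map hL) hL₁ hE

end Pool.DynLehmer.LE
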