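import Pool.Agent.Lib.MP_2194ec_nt.LE.Spec

set_option autoImplicit false

/-!
# Vectors of polynomials without common zeros on the projective line, and their degrees
-/

namespace Pool.DynLehmer.LE.Qd
open Polynomial Pool.DynLehmer.LE Pool.DynLehmer.LE.Spe
open scoped Classical

/-- a quadratic form in two variables, homogenised to degree `d` -/
noncomputable def hz {R : Type} [CommRing R] (c : ℕ → R) (d : ℕ) (α β : R) : R :=
  ∑ k ∈ Finset.range (d + 1), c k * α ^ k * β ^ (d - k)

variable {C : Type} [Field C]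

/-- a vector of polynomials without common zeros on the projective line, of degree `d` -/
def HD {n : ℕ} (v : Fin n → C[X]) (d : ℕ) : Prop :=
  (∀ z : C, ∃ i, (v i).eval z ≠ 0) ∧ (∀ i, (v i).natDegree ≤ d) ∧ ∃ i, (v i).coeff d ≠ 0

theorem sy_ne {u v : Fin 2 → C} (hu : ∃ i, u i ≠ 0) (hv : ∃ i, v i ≠ 0) :
    ∃ i, sy u v i ≠ 0 := by
  by_contra hcon
  push Not at hcon
  have h0 : u 0 * v 0 = 0 := hcon 0
  have h1 : u 0 * v 1 + u 1 * v 0 = 0 := hcon 1
  have h2 : u 1 * v 1 = 0 := hcon 2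
  have hu' : u 0 ≠ 0 ∨ u 1 ≠ 0 := by
    obtain ⟨i, hi⟩ := hu
    fin_cases i
    · exact Or.inl hi
    · exact Or.inr hi
  have hv' : v 0 ≠ 0 ∨ v 1 ≠ 0 := by
    obtain ⟨i, hi⟩ := hv
    fin_cases i
    · exact Or.inl hi
    · exact Or.inr hi
  by_cases e0 : u 0 = 0
  · have e1 : u 1 ≠ 0 := hu'.resolve_left (fun h => h e0)
    rw [e0, zero_mul, zero_add] at h1
    have f0 := (mul_eq_zero.1 h1).resolve_left e1
    have f1 := (mul_eq_zero.1 h2).resolve_left e1
    rcases hv' with h | h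
    · exact h f0
    · exact h f1
  · have f0 := (mul_eq_zero.1 h0).resolve_left e0
    rw [f0, mul_zero, add_zero] at h1
    have f1 := (mul_eq_zero.1 h1).resolve_left e0
    rcases hv' with h | h
    · exact h f0
    · exact h f1

theorem zf_ne [CharZero C] {a b : C} (hab : 4 * a ^ 3 + 27 * b ^ 2 ≠ 0) {w : Fin 3 → C}
    (hw : ∃ i, w i ≠ 0) : ∃ i, zf a b w i ≠ 0 := by
  have hΔ : ((Ws a b).baseChange C).Δ ≠ 0 := by
    have e : ((Ws a b).baseChange C).Δ = -16 * (4 * a ^ 3 + 27 * b ^ 2) := by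
      simp [WeierstrassCurve.Δ, WeierstrassCurve.b₂, WeierstrassCurve.b₄,
        WeierstrassCurve.b₆, WeierstrassCurve.b₈, Ws, WeierstrassCurve.baseChange]
      ring
    rw [e]
    exact mul_ne_zero (by norm_num) hab
  have hE : ((Ws a b).baseChange C).IsElliptic := ⟨isUnit_iff_ne_zero.2 hΔ⟩
  have hw' : w ≠ 0 := by
    rintro rfl
    obtain ⟨i, hi⟩ := hw
    exact hi rfl
  obtain ⟨i, hi⟩ := exists_ne_of_ne (((Ws a b).baseChange C).addSubMap_ne_zero hw')
  exact ⟨i, by rw [eval_addSub] at hi; exact hi⟩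

theorem hd_sy {u v : Fin 2 → C[X]} {d e : ℕ} (hu : HD u d) (hv : HD v e) :
    HD (sy u v) (d + e) := by
  refine ⟨fun z => ?_, fun i => ?_, ?_⟩
  · obtain ⟨i, hi⟩ := sy_ne (hu.1 z) (hv.1 z)
    refine ⟨i, ?_⟩
    have := sy_map (evalRingHom z) u v i
    rw [coe_evalRingHom] at this
    rw [this]
    exact hi
  · fin_cases i
    · exact natDegree_mul_le_of_le (hu.2.1 0) (hv.2.1 0)
    · exact natDegree_add_le_of_degree_le (natDegree_mul_le_of_le (hu.2.1 0) (hv.2.1 1))
        (natDegree_mul_le_of_le (hu.2.1 1) (hv.2.1 0))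
    · exact natDegree_mul_le_of_le (hu.2.1 1) (hv.2.1 1)
  · obtain ⟨i, hi⟩ := sy_ne hu.2.2 hv.2.2
    refine ⟨i, ?_⟩
    have hc : ∀ j l, (u j * v l).coeff (d + e) = (u j).coeff d * (v l).coeff e := fun j l =>
      coeff_mul_add_eq_of_natDegree_le (hu.2.1 j) (hv.2.1 l)
    have : (sy u v i).coeff (d + e) = sy (fun j => (u j).coeff d) (fun j => (v j).coeff e) i := by
      fin_cases i <;> simp [sy, hc]
    rw [this]
    exact hi

theorem hd_zf [CharZero C] {a b : C} (hab : 4 * a ^ 3 + 27 * b ^ 2 ≠ 0) {w : Fin 3 → C[X]}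
    {d : ℕ} (hw : HD w d) : HD (zf (Polynomial.C a) (Polynomial.C b) w) (d + d) := by
  refine ⟨fun z => ?_, fun i => ?_, ?_⟩
  · obtain ⟨i, hi⟩ := zf_ne hab (hw.1 z)
    refine ⟨i, ?_⟩
    have := zf_map (evalRingHom z) (Polynomial.C a) (Polynomial.C b) w i
    rw [coe_evalRingHom, eval_C, eval_C] at this
    rw [this]
    exact hi
  · have hm : ∀ j l, (w j * w l).natDegree ≤ d + d := fun j l =>
      natDegree_mul_le_of_le (hw.2.1 j) (hw.2.1 l)
    have hc : ∀ (c : C) j l, (Polynomial.C c * (w j * w l)).natDegree ≤ d + d := fun c j l =>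
      (natDegree_C_mul_le _ _).trans (hm j l)
    fin_cases i
    · have e : zf (Polynomial.C a) (Polynomial.C b) w 0 = Polynomial.C 1 * (w 0 * w 0) -
        Polynomial.C (2 * a) * (w 0 * w 2) - Polynomial.C (4 * b) * (w 1 * w 2) +
        Polynomial.C (a ^ 2) * (w 2 * w 2) := by
        simp [zf, map_ofNat]
        ring
      change (zf (Polynomial.C a) (Polynomial.C b) w 0).natDegree ≤ d + d
      rw [e]
      exact natDegree_add_le_of_degree_le ((natDegree_sub_le_of_le
        (natDegree_sub_le_of_le (hc _ _ _) (hc _ _ _)) (hc _ _ _)).trans (by simp)) (hc _ _ _)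
    · have e : zf (Polynomial.C a) (Polynomial.C b) w 1 = Polynomial.C 2 * (w 1 * w 0) +
        Polynomial.C (2 * a) * (w 1 * w 2) + Polynomial.C (4 * b) * (w 2 * w 2) := by
        simp [zf, map_ofNat]
        ring
      change (zf (Polynomial.C a) (Polynomial.C b) w 1).natDegree ≤ d + d
      rw [e]
      exact natDegree_add_le_of_degree_le (natDegree_add_le_of_degree_le (hc _ _ _) (hc _ _ _))
        (hc _ _ _)
    · have e : zf (Polynomial.C a) (Polynomial.C b) w 2 = Polynomial.C 1 * (w 1 * w 1) -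
        Polynomial.C 4 * (w 0 * w 2) := by
        simp [zf, map_ofNat]
        ring
      change (zf (Polynomial.C a) (Polynomial.C b) w 2).natDegree ≤ d + d
      rw [e]
      exact (natDegree_sub_le_of_le (hc _ _ _) (hc _ _ _)).trans (by simp)
  · obtain ⟨i, hi⟩ := zf_ne hab hw.2.2
    refine ⟨i, ?_⟩
    have hc : ∀ j l, (w j * w l).coeff (d + d) = (w j).coeff d * (w l).coeff d := fun j l =>
      coeff_mul_add_eq_of_natDegree_le (hw.2.1 j) (hw.2.1 l)
    have : (zf (Polynomial.C a) (Polynomial.C b) w i).coeff (d + d) =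
        zf a b (fun j => (w j).coeff d) i := by
      fin_cases i
      · have e : zf (Polynomial.C a) (Polynomial.C b) w 0 = Polynomial.C 1 * (w 0 * w 0) -
          Polynomial.C (2 * a) * (w 0 * w 2) - Polynomial.C (4 * b) * (w 1 * w 2) +
          Polynomial.C (a ^ 2) * (w 2 * w 2) := by
          simp [zf, map_ofNat]
          ring
        change (zf (Polynomial.C a) (Polynomial.C b) w 0).coeff (d + d) = _
        rw [e]
        simp only [coeff_add, coeff_sub, coeff_C_mul, hc]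
        simp [zf]
        ring
      · have e : zf (Polynomial.C a) (Polynomial.C b) w 1 = Polynomial.C 2 * (w 1 * w 0) +
          Polynomial.C (2 * a) * (w 1 * w 2) + Polynomial.C (4 * b) * (w 2 * w 2) := by
          simp [zf, map_ofNat]
          ring
        change (zf (Polynomial.C a) (Polynomial.C b) w 1).coeff (d + d) = _
        rw [e]
        simp only [coeff_add, coeff_sub, coeff_C_mul, hc]
        simp [zf]
        ring
      · have e : zf (Polynomial.C a) (Polynomial.C b) w 2 = Polynomial.C 1 * (w 1 * w 1) -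
          Polynomial.C 4 * (w 0 * w 2) := by
          simp [zf, map_ofNat]
          ring
        change (zf (Polynomial.C a) (Polynomial.C b) w 2).coeff (d + d) = _
        rw [e]
        simp only [coeff_add, coeff_sub, coeff_C_mul, hc]
        simp [zf]
        ring
    rw [this]
    exact hi

/-- the vector of the composition -/
noncomputable def cmp (u : Fin 2 → C[X]) (d : ℕ) (v : Fin 2 → C[X]) : Fin 2 → C[X] := fun i =>
  hz (fun k => Polynomial.C ((u i).coeff k)) d (v 0) (v 1)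

theorem hz_eval (p : C[X]) {d : ℕ} (hp : p.natDegree ≤ d) (α β : C) (hβ : β ≠ 0) :
    hz (fun k => p.coeff k) d α β = β ^ d * p.eval (α / β) := by
  rw [hz, eval_eq_sum_range' (Nat.lt_succ_of_le hp), Finset.mul_sum]
  refine Finset.sum_congr rfl fun k hk => ?_
  have hk' : k ≤ d := Nat.lt_succ_iff.1 (Finset.mem_range.1 hk)
  obtain ⟨m, rfl⟩ := Nat.exists_eq_add_of_le hk'
  rw [Nat.add_sub_cancel_left, div_pow, pow_add]
  field_simp

theorem hz_zero (c : ℕ → C) (d : ℕ) (α : C) : hz c d α 0 = c d * α ^ d := by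
  rw [hz, Finset.sum_eq_single d]
  · rw [Nat.sub_self, pow_zero, mul_one]
  · intro k hk hkd
    have hk' : k < d := lt_of_le_of_ne (Nat.lt_succ_iff.1 (Finset.mem_range.1 hk)) hkd
    rw [zero_pow (by omega), mul_zero]
  · intro h
    exact absurd (Finset.mem_range.2 (Nat.lt_succ_self d)) h

theorem hz_ne {u : Fin 2 → C[X]} {d : ℕ} (hu : HD u d) {v : Fin 2 → C} (hv : ∃ i, v i ≠ 0) :
    ∃ i, hz (fun k => (u i).coeff k) d (v 0) (v 1) ≠ 0 := by
  by_cases hβ : v 1 = 0
  · have hα : v 0 ≠ 0 := by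
      obtain ⟨i, hi⟩ := hv
      fin_cases i
      · exact hi
      · exact absurd hβ hi
    obtain ⟨i, hi⟩ := hu.2.2
    exact ⟨i, by rw [hβ, hz_zero]; exact mul_ne_zero hi (pow_ne_zero _ hα)⟩
  · obtain ⟨i, hi⟩ := hu.1 (v 0 / v 1)
    exact ⟨i, by rw [hz_eval _ (hu.2.1 i) _ _ hβ]; exact mul_ne_zero (pow_ne_zero _ hβ) hi⟩

theorem hz_map {R S : Type} [CommRing R] [CommRing S] (f : R →+* S) (c : ℕ → R) (d : ℕ)
    (α β : R) : f (hz c d α β) = hz (fun k => f (c k)) d (f α) (f β) := by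
  simp [hz]

theorem hd_cmp {u v : Fin 2 → C[X]} {d e : ℕ} (hu : HD u d) (hv : HD v e) :
    HD (cmp u d v) (d * e) := by
  have hdeg : ∀ k ≤ d, ∀ c : C, (Polynomial.C c * v 0 ^ k * v 1 ^ (d - k)).natDegree ≤ d * e := by
    intro k hk c
    have h1 : (Polynomial.C c * v 0 ^ k).natDegree ≤ k * e :=
      (natDegree_C_mul_le _ _).trans (natDegree_pow_le_of_le k (hv.2.1 0))
    have h2 := natDegree_mul_le_of_le h1 (natDegree_pow_le_of_le (d - k) (hv.2.1 1))
    refine h2.trans (le_of_eq ?_)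
    rw [← add_mul, Nat.add_sub_cancel' hk]
  refine ⟨fun z => ?_, fun i => ?_, ?_⟩
  · obtain ⟨i, hi⟩ := hz_ne hu (hv.1 z)
    refine ⟨i, ?_⟩
    have := hz_map (evalRingHom z) (fun k => Polynomial.C ((u i).coeff k)) d (v 0) (v 1)
    simp only [coe_evalRingHom, eval_C] at this
    rw [cmp, this]
    exact hi
  · rw [cmp, hz]
    exact natDegree_sum_le_of_forall_le _ _ fun k hk =>
      hdeg k (Nat.lt_succ_iff.1 (Finset.mem_range.1 hk)) _
  · obtain ⟨i, hi⟩ := hz_ne hu hv.2.2
    refine ⟨i, ?_⟩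
    have : (cmp u d v i).coeff (d * e) = hz (fun k => (u i).coeff k) d ((v 0).coeff e)
        ((v 1).coeff e) := by
      rw [cmp, hz, finsetSum_coeff, hz]
      refine Finset.sum_congr rfl fun k hk => ?_
      have hk' : k ≤ d := Nat.lt_succ_iff.1 (Finset.mem_range.1 hk)
      have h0 : (v 0 ^ k).coeff (k * e) = (v 0).coeff e ^ k := by
        rw [coeff_pow_of_natDegree_le (hv.2.1 0)]
      have h1 : (v 1 ^ (d - k)).coeff ((d - k) * e) = (v 1).coeff e ^ (d - k) := by
        rw [coeff_pow_of_natDegree_le (hv.2.1 1)]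
      have h2 : (v 0 ^ k * v 1 ^ (d - k)).coeff (k * e + (d - k) * e) =
          (v 0).coeff e ^ k * (v 1).coeff e ^ (d - k) := by
        rw [coeff_mul_add_eq_of_natDegree_le (natDegree_pow_le_of_le k (hv.2.1 0))
          (natDegree_pow_le_of_le (d - k) (hv.2.1 1)), h0, h1]
      have h3 : k * e + (d - k) * e = d * e := by rw [← add_mul, Nat.add_sub_cancel' hk']
      rw [h3] at h2
      rw [mul_assoc, coeff_C_mul, h2, mul_assoc]
    rw [this]
    exact hi

theorem hd_unique [IsAlgClosed C] {n : ℕ} {u v : Fin n → C[X]} {d e : ℕ} (hu : HD u d)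
    (hv : HD v e) (F G : C[X]) (hF : F ≠ 0) (hG : G ≠ 0) (h : ∀ i, F * u i = G * v i) :
    d = e := by
  obtain ⟨f, g, hf, hg, hfg⟩ : ∃ f g : C, f ≠ 0 ∧ g ≠ 0 ∧
      ∀ i, Polynomial.C f * u i = Polynomial.C g * v i := by
    obtain ⟨D, F', G', hD, hco, h1, h2⟩ : ∃ D F' G' : C[X], D ≠ 0 ∧ IsCoprime F' G' ∧
        F = D * F' ∧ G = D * G' := by
      have hD : EuclideanDomain.gcd F G ≠ 0 := fun h0 =>
        hF (EuclideanDomain.gcd_eq_zero_iff.1 h0).1
      obtain ⟨F', hF'⟩ := EuclideanDomain.gcd_dvd_left F G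
      obtain ⟨G', hG'⟩ := EuclideanDomain.gcd_dvd_right F G
      have hb := EuclideanDomain.gcd_eq_gcd_ab F G
      refine ⟨EuclideanDomain.gcd F G, F', G', hD,
        ⟨EuclideanDomain.gcdA F G, EuclideanDomain.gcdB F G, ?_⟩, hF', hG'⟩
      apply mul_left_cancel₀ hD
      rw [mul_one]
      calc EuclideanDomain.gcd F G * (EuclideanDomain.gcdA F G * F' +
            EuclideanDomain.gcdB F G * G') =
          (EuclideanDomain.gcd F G * F') * EuclideanDomain.gcdA F G +
            (EuclideanDomain.gcd F G * G') * EuclideanDomain.gcdB F G := by ring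
        _ = F * EuclideanDomain.gcdA F G + G * EuclideanDomain.gcdB F G := by rw [← hF', ← hG']
        _ = EuclideanDomain.gcd F G := hb.symm
    have h3 : ∀ i, F' * u i = G' * v i := fun i => by
      apply mul_left_cancel₀ hD
      rw [← mul_assoc, ← h1, ← mul_assoc, ← h2]
      exact h i
    have noroot : ∀ (P Q : C[X]) (m : ℕ) (w w' : Fin n → C[X]), IsCoprime P Q → HD w m →
        (∀ i, P * w' i = Q * w i) → P ≠ 0 → P.degree = 0 := by
      intro P Q m w w' hPQ hw hPw hP
      by_contra hdeg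
      obtain ⟨z, hz⟩ := IsAlgClosed.exists_root P hdeg
      obtain ⟨i, hi⟩ := hw.1 z
      have h4 := congrArg (eval z) (hPw i)
      rw [eval_mul, eval_mul, hz.eq_zero, zero_mul] at h4
      have h5 : Q.eval z = 0 := (mul_eq_zero.1 h4.symm).resolve_right hi
      obtain ⟨p, q, hpq⟩ := hPQ
      have h6 := congrArg (eval z) hpq
      rw [eval_add, eval_mul, eval_mul, hz.eq_zero, h5, mul_zero, mul_zero, add_zero,
        eval_one] at h6
      exact zero_ne_one h6
    have hF' : F' ≠ 0 := fun h0 => hF (by rw [h1, h0, mul_zero])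
    have hG' : G' ≠ 0 := fun h0 => hG (by rw [h2, h0, mul_zero])
    have d1 := noroot F' G' e v u hco hv h3 hF'
    have d2 := noroot G' F' d u v hco.symm hu (fun i => (h3 i).symm) hG'
    have e1 := eq_C_of_degree_eq_zero d1
    have e2 := eq_C_of_degree_eq_zero d2
    refine ⟨F'.coeff 0, G'.coeff 0, fun h0 => hF' (by rw [e1, h0, C_0]),
      fun h0 => hG' (by rw [e2, h0, C_0]), fun i => ?_⟩
    rw [← e1, ← e2]
    exact h3 i
  have hle : ∀ (u v : Fin n → C[X]) (d e : ℕ) (f g : C), g ≠ 0 → HD u d → HD v e →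
      (∀ i, Polynomial.C f * u i = Polynomial.C g * v i) → e ≤ d := by
    intro u v d e f g hg hu hv h
    obtain ⟨i, hi⟩ := hv.2.2
    by_contra hlt
    have h1 := congrArg (fun p => coeff p e) (h i)
    simp only [coeff_C_mul] at h1
    rw [coeff_eq_zero_of_natDegree_lt (lt_of_le_of_lt (hu.2.1 i) (not_le.1 hlt)), mul_zero] at h1
    exact mul_ne_zero hg hi h1.symm
  exact le_antisymm (hle v u e d g f hf hv hu fun i => (hfg i).symm) (hle u v d e f g hg hu hv hfg)

end Pool.DynLehmer.LE.Qd
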