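import Pool.Agent.Lib.MP_2194ec_nt.LE.QuadA
import Pool.Agent.Lib.MP_2194ec_nt.LE.K2
import Pool.Agent.Lib.MP_2194ec_nt.LE.Ext

set_option autoImplicit false
set_option linter.unusedSectionVars false

/-!
# The points over the function field of the curve which belong to endomorphisms
-/

namespace Pool.DynLehmer.LE.Qd
open Polynomial Pool.DynLehmer Pool.DynLehmer.LE Pool.DynLehmer.LE.Spe Pool.DynLehmer.LE.K2aux
open scoped Classical

section psi
variable {C L : Type} [Field C] [Field L] [Algebra C L]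

theorem exists_psi [IsAlgClosed L] {x x' : L} (hx : Transcendental C x)
    (halg : Algebra.IsAlgebraic (IntermediateField.adjoin C {x}) L) (hx' : Transcendental C x') :
    ∃ ψ : L →ₐ[C] L, ψ x = x' := by
  have hxi : AlgebraicIndependent C (fun _ : Unit => x) :=
    algebraicIndependent_unique_type_iff.2 hx
  have hxi' : AlgebraicIndependent C (fun _ : Unit => x') :=
    algebraicIndependent_unique_type_iff.2 hx'
  have hr : Set.range (fun _ : Unit => x) = {x} := Set.range_const
  rw [← hr] at halg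
  let g : MvPolynomial Unit C →ₐ[C] L := MvPolynomial.aeval (fun _ => x')
  have hg : Function.Injective g := hxi'
  let e := hxi.aevalEquivField
  let f : IntermediateField.adjoin C (Set.range fun _ : Unit => x) →ₐ[C] L :=
    (IsFractionRing.liftAlgHom hg :
      FractionRing (MvPolynomial Unit C) →ₐ[C] L).comp e.symm.toAlgHom
  obtain ⟨ψ, hψ⟩ := IsAlgClosed.surjective_domRestrict_of_isAlgebraic
    (K := C) (L := IntermediateField.adjoin C (Set.range fun _ : Unit => x)) (E := L) (M := L) f
  refine ⟨ψ, ?_⟩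
  let x₀ : IntermediateField.adjoin C (Set.range fun _ : Unit => x) :=
    ⟨x, IntermediateField.subset_adjoin _ _ ⟨(), rfl⟩⟩
  have h1 : e (algebraMap (MvPolynomial Unit C) (FractionRing (MvPolynomial Unit C))
      (MvPolynomial.X ())) = x₀ := by
    apply Subtype.ext
    rw [hxi.aevalEquivField_algebraMap_apply_coe, MvPolynomial.aeval_X]
  have h2 : ψ x = f x₀ := by
    rw [← hψ]
    rfl
  rw [h2]
  change (IsFractionRing.liftAlgHom hg :
      FractionRing (MvPolynomial Unit C) →ₐ[C] L) (e.symm x₀) = x'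
  rw [← h1, AlgEquiv.symm_apply_apply]
  have h3 := IsFractionRing.lift_algebraMap (K := FractionRing (MvPolynomial Unit C)) hg
    (MvPolynomial.X ())
  refine h3.trans ?_
  exact MvPolynomial.aeval_X _ _

end psi

section ctx

/-- A generic point and the invariant derivation. -/
structure Ctx {K : Type} [Field K] (a b : K) (C L : Type) [Field C] [Algebra K C] [Field L]
    [Algebra C L] [Algebra K L] where
  x : L
  y : L
  D : Derivation C L L
  hx : Transcendental C x
  halg : Algebra.IsAlgebraic (IntermediateField.adjoin C {x}) L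
  hyy : y ^ 2 = x ^ 3 + algebraMap K L a * x + algebraMap K L b
  hD : D x = 2 * y

variable {K : Type} [Field K] [CharZero K] {a b : K} {C L : Type} [Field C] [Algebra K C]
  [IsAlgClosed C] [Field L] [Algebra C L] [Algebra K L] [IsScalarTower K C L] [IsAlgClosed L]
  (X : Ctx a b C L)

/-- the degree of the first coordinate -/
def HasDeg (P : Ept a b L) (d : ℕ) : Prop :=
  ∃ v : Fin 2 → C[X], HD v d ∧ ∃ c : L, c ≠ 0 ∧
    ∀ i, aeval X.x (v i) = c * WeierstrassCurve.Affine.Point.xRep P i

theorem inj : Function.Injective (aeval X.x : C[X] →ₐ[C] L) :=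
  transcendental_iff_injective.1 X.hx

theorem prop_deg {n : ℕ} {u v : Fin n → C[X]} {d e : ℕ} (hu : HD u d) (hv : HD v e)
    (s : Fin n → L) (κ κ' : L) (_hκ : κ ≠ 0) (hκ' : κ' ≠ 0) (h : ∀ i, aeval X.x (u i) = κ * s i)
    (h' : ∀ i, aeval X.x (v i) = κ' * s i) : d = e := by
  obtain ⟨i, hi⟩ := hu.2.2
  have hui : u i ≠ 0 := fun h0 => hi (by rw [h0, coeff_zero])
  have hsi : s i ≠ 0 := fun h0 => hui (inj X (by rw [h, h0, mul_zero, map_zero]))
  have hvi : v i ≠ 0 := fun h0 => mul_ne_zero hκ' hsi (by rw [← h', h0, map_zero])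
  refine hd_unique hu hv (v i) (u i) hvi hui fun j => inj X ?_
  rw [map_mul, map_mul, h, h, h', h']
  ring

theorem hasDeg_unique {P : Ept a b L} {d e : ℕ} (h : HasDeg X P d) (h' : HasDeg X P e) :
    d = e := by
  obtain ⟨u, hu, c, hc, h1⟩ := h
  obtain ⟨v, hv, c', hc', h2⟩ := h'
  exact prop_deg X hu hv _ c c' hc hc' h1 h2

theorem hasDeg_neg {P : Ept a b L} {d : ℕ} (h : HasDeg X P d) : HasDeg X (-P) d := by
  obtain ⟨u, hu, c, hc, h1⟩ := h
  exact ⟨u, hu, c, hc, fun i => by rw [WeierstrassCurve.Affine.Point.xRep_neg]; exact h1 i⟩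

theorem hasDeg_zero : HasDeg X (0 : Ept a b L) 0 := by
  refine ⟨![1, 0], ⟨fun z => ⟨0, by simp⟩, fun i => ?_, 0, by simp⟩, 1, one_ne_zero, fun i => ?_⟩
  · fin_cases i <;> simp
  · fin_cases i <;> simp

theorem hasDeg_par (hAS : AddsubStatement) (hab : 4 * a ^ 3 + 27 * b ^ 2 ≠ 0) {P Q : Ept a b L}
    {d₁ d₂ d₃ d₄ : ℕ} (h1 : HasDeg X P d₁) (h2 : HasDeg X Q d₂) (h3 : HasDeg X (P + Q) d₃)
    (h4 : HasDeg X (P - Q) d₄) : d₃ + d₄ = 2 * (d₁ + d₂) := by
  have hch : CharZero C := charZero_of_injective_algebraMap (algebraMap K C).injective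
  obtain ⟨v₁, hv₁, c₁, hc₁, e1⟩ := h1
  obtain ⟨v₂, hv₂, c₂, hc₂, e2⟩ := h2
  obtain ⟨v₃, hv₃, c₃, hc₃, e3⟩ := h3
  obtain ⟨v₄, hv₄, c₄, hc₄, e4⟩ := h4
  have hab' : 4 * (algebraMap K C a) ^ 3 + 27 * (algebraMap K C b) ^ 2 ≠ 0 := by
    intro h0
    apply hab
    apply (algebraMap K C).injective
    rw [map_zero, ← h0]
    simp [map_ofNat]
  obtain ⟨κ, hκ, h5⟩ := hAS L ((Ws a b).baseChange L) P Q
  have w1 : ∀ i, aeval X.x (sy v₁ v₂ i) =
      c₁ * c₂ * WeierstrassCurve.Affine.Point.sym2x P Q i := by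
    intro i
    have f1 := sy_map (aeval X.x : C[X] →ₐ[C] L).toRingHom v₁ v₂ i
    have f2 := sy_smul c₁ c₂ _ _ _ _ e1 e2 i
    exact f1.trans f2
  have w2 : ∀ i, aeval X.x (sy v₃ v₄ i) =
      c₃ * c₄ * WeierstrassCurve.Affine.Point.sym2x (P + Q) (P - Q) i := by
    intro i
    have f1 := sy_map (aeval X.x : C[X] →ₐ[C] L).toRingHom v₃ v₄ i
    have f2 := sy_smul c₃ c₄ _ _ _ _ e3 e4 i
    exact f1.trans f2
  have w3 : ∀ i, aeval X.x (zf (Polynomial.C (algebraMap K C a)) (Polynomial.C (algebraMap K C b))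
      (sy v₁ v₂) i) = (c₁ * c₂) ^ 2 * κ *
        WeierstrassCurve.Affine.Point.sym2x (P + Q) (P - Q) i := by
    intro i
    have f1 := zf_map (aeval X.x : C[X] →ₐ[C] L).toRingHom (Polynomial.C (algebraMap K C a))
      (Polynomial.C (algebraMap K C b)) (sy v₁ v₂) i
    have f2 : (aeval X.x : C[X] →ₐ[C] L).toRingHom (Polynomial.C (algebraMap K C a)) =
        algebraMap K L a := by
      rw [IsScalarTower.algebraMap_apply K C L]
      exact aeval_C _ _
    have f3 : (aeval X.x : C[X] →ₐ[C] L).toRingHom (Polynomial.C (algebraMap K C b)) =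
        algebraMap K L b := by
      rw [IsScalarTower.algebraMap_apply K C L]
      exact aeval_C _ _
    rw [f2, f3] at f1
    refine f1.trans ((zf_smul _ _ (c₁ * c₂) _ _ w1 i).trans ?_)
    rw [← eval_addSub a b, mul_assoc]
    congr 1
    exact congrFun h5 i
  have := prop_deg X (hd_zf hab' (hd_sy hv₁ hv₂)) (hd_sy hv₃ hv₄) _ _ _
    (mul_ne_zero (pow_ne_zero 2 (mul_ne_zero hc₁ hc₂)) hκ) (mul_ne_zero hc₃ hc₄) w3 w2
  omega

theorem hasDeg_mem {P : Ept a b L} (h : xc P ∈ IntermediateField.adjoin C {X.x}) :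
    ∃ d, HasDeg X P d := by
  rcases P with _ | ⟨U, V, hUV⟩
  · exact ⟨0, hasDeg_zero X⟩
  · change U ∈ IntermediateField.adjoin C {X.x} at h
    obtain ⟨r, s, hrs⟩ := (IntermediateField.mem_adjoin_simple_iff C U).1 h
    obtain ⟨r', s', hco, hs', hU⟩ : ∃ r' s' : C[X], IsCoprime r' s' ∧ s' ≠ 0 ∧
        aeval X.x r' = aeval X.x s' * U := by
      by_cases hs : s = 0
      · refine ⟨0, 1, isCoprime_zero_left.2 isUnit_one, one_ne_zero, ?_⟩
        rw [hrs, hs, map_zero, div_zero, mul_zero]
      · have hg : EuclideanDomain.gcd r s ≠ 0 := fun h0 => hs (EuclideanDomain.gcd_eq_zero_iff.1 h0).2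
        obtain ⟨r', hr'⟩ := EuclideanDomain.gcd_dvd_left r s
        obtain ⟨s', hs'⟩ := EuclideanDomain.gcd_dvd_right r s
        have hb := EuclideanDomain.gcd_eq_gcd_ab r s
        have hs'0 : s' ≠ 0 := fun h0 => hs (by rw [hs', h0, mul_zero])
        refine ⟨r', s', ⟨EuclideanDomain.gcdA r s, EuclideanDomain.gcdB r s, ?_⟩, hs'0, ?_⟩
        · apply mul_left_cancel₀ hg
          rw [mul_one]
          calc EuclideanDomain.gcd r s * (EuclideanDomain.gcdA r s * r' +
                EuclideanDomain.gcdB r s * s') =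
              (EuclideanDomain.gcd r s * r') * EuclideanDomain.gcdA r s +
                (EuclideanDomain.gcd r s * s') * EuclideanDomain.gcdB r s := by ring
            _ = r * EuclideanDomain.gcdA r s + s * EuclideanDomain.gcdB r s := by
              rw [← hr', ← hs']
            _ = EuclideanDomain.gcd r s := hb.symm
        · have hsx : aeval X.x s ≠ 0 := fun h0 => hs (inj X (by rw [h0, map_zero]))
          have hgx : aeval X.x (EuclideanDomain.gcd r s) ≠ 0 := fun h0 =>
            hg (inj X (by rw [h0, map_zero]))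
          apply mul_left_cancel₀ hgx
          rw [← mul_assoc, ← map_mul, ← map_mul, ← hr', ← hs', hrs]
          field_simp
    have hs'x : aeval X.x s' ≠ 0 := fun h0 => hs' (inj X (by rw [h0, map_zero]))
    refine ⟨max r'.natDegree s'.natDegree, ![r', s'], ⟨fun z => ?_, fun i => ?_, ?_⟩,
      aeval X.x s', hs'x, fun i => ?_⟩
    · by_contra hcon
      push Not at hcon
      have h0 : r'.eval z = 0 := hcon 0
      have h1 : s'.eval z = 0 := hcon 1
      obtain ⟨p, q, hpq⟩ := hco
      have h6 := congrArg (eval z) hpq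
      rw [eval_add, eval_mul, eval_mul, h0, h1, mul_zero, mul_zero, add_zero, eval_one] at h6
      exact zero_ne_one h6
    · fin_cases i
      · exact le_max_left _ _
      · exact le_max_right _ _
    · rcases le_or_gt r'.natDegree s'.natDegree with h7 | h7
      · refine ⟨1, ?_⟩
        rw [max_eq_right h7]
        exact leadingCoeff_ne_zero.2 hs'
      · refine ⟨0, ?_⟩
        rw [max_eq_left h7.le]
        refine leadingCoeff_ne_zero.2 ?_
        rintro rfl
        simp at h7
    · fin_cases i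
      · exact hU
      · simp [WeierstrassCurve.Affine.Point.xRep]

theorem hasDeg_comp {P Q : Ept a b L} {d e : ℕ} (hP : HasDeg X P d) (hQ : HasDeg X Q e)
    (hQ0 : Q ≠ 0) (ψ : L →ₐ[C] L) (hψ : ψ X.x = xc Q) :
    HasDeg X (pm (ψ.restrictScalars K) P) (d * e) := by
  obtain ⟨u, hu, c, hc, h1⟩ := hP
  obtain ⟨v, hv, c', hc', h2⟩ := hQ
  have v1 : aeval X.x (v 1) = c' := by
    rcases Q with _ | ⟨U, V, hUV⟩
    · exact absurd rfl hQ0
    · rw [h2 1]
      change c' * 1 = c'
      rw [mul_one]
  have v0 : aeval X.x (v 0) = c' * xc Q := by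
    rcases Q with _ | ⟨U, V, hUV⟩
    · exact absurd rfl hQ0
    · rw [h2 0]
      rfl
  refine ⟨cmp u d v, hd_cmp hu hv, c' ^ d * ψ c, mul_ne_zero (pow_ne_zero _ hc')
    (fun h0 => hc ((map_eq_zero ψ).1 h0)), fun i => ?_⟩
  have f1 : aeval X.x (cmp u d v i) =
      hz (fun k => algebraMap C L ((u i).coeff k)) d (aeval X.x (v 0)) (aeval X.x (v 1)) := by
    have := hz_map (aeval X.x : C[X] →ₐ[C] L).toRingHom
      (fun k => Polynomial.C ((u i).coeff k)) d (v 0) (v 1)
    refine this.trans ?_
    have f2 : (fun k => (aeval X.x : C[X] →ₐ[C] L).toRingHom (Polynomial.C ((u i).coeff k))) =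
        fun k => algebraMap C L ((u i).coeff k) := by
      funext k
      exact aeval_C _ _
    rw [f2]
    rfl
  have f3 : (fun k => algebraMap C L ((u i).coeff k)) =
      fun k => ((u i).map (algebraMap C L)).coeff k := by
    funext k
    rw [coeff_map]
  rw [f1, f3, hz_eval _ ((natDegree_map_le).trans (hu.2.1 i)) _ _ (by rw [v1]; exact hc'), v0, v1,
    mul_div_cancel_left₀ _ hc', eval_map_algebraMap, ← hψ, mul_assoc]
  congr 1
  have f4 : aeval (ψ X.x) (u i) = ψ (aeval X.x (u i)) := aeval_algHom_apply ψ X.x (u i)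
  rw [f4, h1, map_mul]
  congr 1
  rcases P with _ | ⟨U, V, hUV⟩
  · fin_cases i
    · exact map_one ψ
    · exact map_zero ψ
  · fin_cases i
    · rfl
    · exact map_one ψ

/-- the points which are anti-invariant -/
def Odd (P : Ept a b L) : Prop :=
  ∀ σ : L ≃ₐ[IntermediateField.adjoin C {X.x}] L, ac X.y σ P = P

theorem odd_add {P Q : Ept a b L} (hP : Odd X P) (hQ : Odd X Q) : Odd X (P + Q) := fun σ => by
  rw [map_add, hP σ, hQ σ]

theorem odd_sub {P Q : Ept a b L} (hP : Odd X P) (hQ : Odd X Q) : Odd X (P - Q) := fun σ => by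
  rw [map_sub, hP σ, hQ σ]

theorem odd_neg {P : Ept a b L} (hP : Odd X P) : Odd X (-P) := fun σ => by
  rw [map_neg, hP σ]

theorem odd_zero : Odd X (0 : Ept a b L) := fun _ => map_zero _

theorem gal (hL : CharZero C) : IsGalois (IntermediateField.adjoin C {X.x}) L := by
  have := X.halg
  have hacl : IsAlgClosure (IntermediateField.adjoin C {X.x}) L := ⟨inferInstance, X.halg⟩
  have hn : Normal (IntermediateField.adjoin C {X.x}) L := IsAlgClosure.normal _ L
  have hcz : CharZero (IntermediateField.adjoin C {X.x}) :=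
    charZero_of_injective_algebraMap (algebraMap C _).injective
  exact IsGalois.mk

theorem mem_of_fixed (hL : CharZero C) {z : L}
    (h : ∀ σ : L ≃ₐ[IntermediateField.adjoin C {X.x}] L, σ z = z) :
    z ∈ IntermediateField.adjoin C {X.x} := by
  have := gal X hL
  obtain ⟨w, hw⟩ := (InfiniteGalois.mem_range_algebraMap_iff_fixed z).2 h
  rw [← hw]
  exact w.2

theorem fix_of_mem {z : L} (h : z ∈ IntermediateField.adjoin C {X.x})
    (σ : L ≃ₐ[IntermediateField.adjoin C {X.x}] L) : σ z = z := σ.commutes ⟨z, h⟩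

theorem sig_y (σ : L ≃ₐ[IntermediateField.adjoin C {X.x}] L) : σ X.y = X.y ∨ σ X.y = -X.y := by
  have hσK : ∀ c : K, σ (algebraMap K L c) = algebraMap K L c := by
    intro c
    rw [IsScalarTower.algebraMap_apply K C L]
    exact (σ.restrictScalars C).commutes _
  have hσx : σ X.x = X.x := fix_of_mem X (IntermediateField.mem_adjoin_simple_self C X.x) σ
  rw [← sq_eq_sq_iff_eq_or_eq_neg, ← map_pow, X.hyy, map_add, map_add, map_mul, map_pow, hσx,
    hσK, hσK]

theorem y_ne : X.y ≠ 0 := by
  intro h0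
  have h1 := X.hyy
  rw [h0] at h1
  have h2 : aeval X.x (Polynomial.X ^ 3 + Polynomial.C (algebraMap K C a) * Polynomial.X +
      Polynomial.C (algebraMap K C b) : C[X]) = 0 := by
    simp only [map_add, map_mul, map_pow, aeval_X, aeval_C]
    rw [← IsScalarTower.algebraMap_apply K C L, ← IsScalarTower.algebraMap_apply K C L, ← h1]
    ring
  have h3 := inj X (h2.trans (map_zero _).symm)
  have h4 := congrArg (fun p => coeff p 3) h3
  simp at h4

/-- there is an automorphism which changes the sign of `y` -/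
theorem exists_flip (hC : CharZero C) :
    ∃ σ : L ≃ₐ[IntermediateField.adjoin C {X.x}] L, σ X.y = -X.y := by
  by_contra hcon
  push Not at hcon
  have h1 : ∀ σ : L ≃ₐ[IntermediateField.adjoin C {X.x}] L, σ X.y = X.y := fun σ =>
    (sig_y X σ).resolve_right (hcon σ)
  have h2 := mem_of_fixed X hC h1
  obtain ⟨r, s, hrs⟩ := (IntermediateField.mem_adjoin_simple_iff C X.y).1 h2
  have hs : aeval X.x s ≠ 0 := by
    intro h0
    rw [h0, div_zero] at hrs
    exact y_ne X hrs
  have hr : aeval X.x r ≠ 0 := by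
    intro h0
    rw [h0, zero_div] at hrs
    exact y_ne X hrs
  have h3 : r ^ 2 = s ^ 2 * (Polynomial.X ^ 3 + Polynomial.C (algebraMap K C a) * Polynomial.X +
      Polynomial.C (algebraMap K C b)) := by
    apply inj X
    have h4 : (aeval X.x) r = X.y * aeval X.x s := by
      rw [hrs]
      field_simp
    simp only [map_add, map_mul, map_pow, aeval_X, aeval_C]
    rw [← IsScalarTower.algebraMap_apply K C L, ← IsScalarTower.algebraMap_apply K C L, h4,
      mul_pow, X.hyy]
    ring
  have hs0 : s ≠ 0 := fun h0 => hs (by rw [h0, map_zero])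
  have hf : (Polynomial.X ^ 3 + Polynomial.C (algebraMap K C a) * Polynomial.X +
      Polynomial.C (algebraMap K C b) : C[X]).natDegree = 3 := by
    compute_degree!
  have hf0 : (Polynomial.X ^ 3 + Polynomial.C (algebraMap K C a) * Polynomial.X +
      Polynomial.C (algebraMap K C b) : C[X]) ≠ 0 := by
    intro h0
    rw [h0, natDegree_zero] at hf
    omega
  have h5 := congrArg natDegree h3
  rw [natDegree_pow, natDegree_mul (pow_ne_zero 2 hs0) hf0, natDegree_pow, hf] at h5
  omega

theorem some_iff {W : WeierstrassCurve.Affine L} {x y x' y' : L} (h : W.Nonsingular x y)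
    (h' : W.Nonsingular x' y') : WeierstrassCurve.Affine.Point.some x y h =
      WeierstrassCurve.Affine.Point.some x' y' h' ↔ x = x' ∧ y = y' := by
  rw [WeierstrassCurve.Affine.Point.some.injEq]

theorem odd_some {U V : L} (h : ((Ws a b).baseChange L).toAffine.Nonsingular U V)
    (hC : CharZero C) : Odd X (WeierstrassCurve.Affine.Point.some U V h : Ept a b L) ↔
      U ∈ IntermediateField.adjoin C {X.x} ∧ V / X.y ∈ IntermediateField.adjoin C {X.x} := by
  have hy := y_ne X
  have hchL : CharZero L := charZero_of_injective_algebraMap (algebraMap C L).injective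
  have hyn : X.y ≠ -X.y := fun h0 => hy (by
    have h1 : 2 * X.y = 0 := by linear_combination h0
    exact (mul_eq_zero.1 h1).resolve_left two_ne_zero)
  have key : ∀ σ : L ≃ₐ[IntermediateField.adjoin C {X.x}] L,
      ac X.y σ (WeierstrassCurve.Affine.Point.some U V h : Ept a b L) =
        (WeierstrassCurve.Affine.Point.some U V h : Ept a b L) ↔
      σ U = U ∧ σ (V / X.y) = V / X.y := by
    intro σ
    have e0 : ((Ws a b).baseChange L).toAffine.Nonsingular (σ U) (σ V) :=
      ((Ws a b).toAffine.baseChange_nonsingular (kk (K := K) σ).injective ..).mpr h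
    have e1 : pm (kk (K := K) σ) (WeierstrassCurve.Affine.Point.some U V h : Ept a b L) =
        (WeierstrassCurve.Affine.Point.some (σ U) (σ V) e0 : Ept a b L) := rfl
    rcases sig_y X σ with hσ | hσ
    · have e2 : ac X.y σ (WeierstrassCurve.Affine.Point.some U V h : Ept a b L) =
          (WeierstrassCurve.Affine.Point.some (σ U) (σ V) e0 : Ept a b L) := by
        unfold ac
        rw [if_pos hσ]
        exact e1
      rw [e2, map_div₀, hσ]
      refine (some_iff _ _).trans (and_congr_right fun _ => ?_)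
      rw [div_left_inj' hy]
    · have e4 : ((Ws a b).baseChange L).toAffine.Nonsingular (σ U) (-σ V) := by
        have e3 : WeierstrassCurve.Affine.negY ((Ws a b).baseChange L) (σ U) (σ V) = -σ V := by
          simp [WeierstrassCurve.Affine.negY, Ws, WeierstrassCurve.baseChange]
        rw [← e3]
        exact (WeierstrassCurve.Affine.nonsingular_neg _ _).2 e0
      have e2 : ac X.y σ (WeierstrassCurve.Affine.Point.some U V h : Ept a b L) =
          (WeierstrassCurve.Affine.Point.some (σ U) (-σ V) e4 : Ept a b L) := by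
        unfold ac
        rw [if_neg (fun h0 => hyn (h0.symm.trans hσ)), AddMonoidHom.neg_apply, e1]
        refine (some_iff _ _).2 ⟨rfl, ?_⟩
        simp [WeierstrassCurve.Affine.negY, Ws, WeierstrassCurve.baseChange]
      rw [e2, map_div₀, hσ]
      refine (some_iff _ _).trans (and_congr_right fun _ => ?_)
      rw [div_neg, ← neg_div, div_left_inj' hy]
  constructor
  · intro hP
    exact ⟨mem_of_fixed X hC fun σ => ((key σ).1 (hP σ)).1,
      mem_of_fixed X hC fun σ => ((key σ).1 (hP σ)).2⟩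
  · rintro ⟨h1, h2⟩ σ
    exact (key σ).2 ⟨fix_of_mem X h1 σ, fix_of_mem X h2 σ⟩

theorem odd_mem {P : Ept a b L} (hC : CharZero C) (h : Odd X P) :
    xc P ∈ IntermediateField.adjoin C {X.x} := by
  rcases P with _ | ⟨U, V, hUV⟩
  · exact IntermediateField.zero_mem _
  · exact ((odd_some X hUV hC).1 h).1

/-- the generic point -/
theorem exists_gen (hab : 4 * a ^ 3 + 27 * b ^ 2 ≠ 0) :
    ∃ h : ((Ws a b).baseChange L).toAffine.Nonsingular X.x X.y,
      Odd X (WeierstrassCurve.Affine.Point.some X.x X.y h : Ept a b L) ∧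
      om X.D (WeierstrassCurve.Affine.Point.some X.x X.y h : Ept a b L) = 1 ∧
      HasDeg X (WeierstrassCurve.Affine.Point.some X.x X.y h : Ept a b L) 1 := by
  have hC : CharZero C := charZero_of_injective_algebraMap (algebraMap K C).injective
  have hchL : CharZero L := charZero_of_injective_algebraMap (algebraMap C L).injective
  have hΔ : ((Ws a b).baseChange L).Δ ≠ 0 := by
    have e : ((Ws a b).baseChange L).Δ = algebraMap K L (-16 * (4 * a ^ 3 + 27 * b ^ 2)) := by
      simp [WeierstrassCurve.Δ, WeierstrassCurve.b₂, WeierstrassCurve.b₄,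
        WeierstrassCurve.b₆, WeierstrassCurve.b₈, Ws, WeierstrassCurve.baseChange, map_ofNat]
      ring
    rw [e, Ne, map_eq_zero_iff _ (algebraMap K L).injective]
    exact mul_ne_zero (by norm_num) hab
  have heq : WeierstrassCurve.Affine.Equation ((Ws a b).baseChange L) X.x X.y := by
    rw [WeierstrassCurve.Affine.equation_iff]
    simp [Ws, WeierstrassCurve.baseChange]
    linear_combination X.hyy
  have h := (WeierstrassCurve.Affine.equation_iff_nonsingular_of_Δ_ne_zero hΔ).1 heq
  have hy := y_ne X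
  refine ⟨h, (odd_some X h hC).2 ⟨IntermediateField.mem_adjoin_simple_self C X.x, ?_⟩, ?_, ?_⟩
  · rw [div_self hy]
    exact IntermediateField.one_mem _
  · change X.D X.x / (2 * X.y) = 1
    rw [X.hD, div_self (mul_ne_zero two_ne_zero hy)]
  · refine ⟨![Polynomial.X, 1], ⟨fun z => ⟨1, by simp⟩, fun i => ?_, 0, by simp⟩, 1, one_ne_zero,
      fun i => ?_⟩
    · fin_cases i <;> simp
    · fin_cases i <;> simp [WeierstrassCurve.Affine.Point.xRep]

/-- `g` is the multiplier of an anti-invariant point of degree `d` -/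
def Mu (g : C) (d : ℕ) : Prop :=
  ∃ P : Ept a b L, Odd X P ∧ om X.D P = algebraMap C L g ∧ HasDeg X P d

end ctx

end Pool.DynLehmer.LE.Qd
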