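import Mathlib.Algebra.Field.Basic
import Mathlib.Algebra.Group.Subgroup.Basic
import Mathlib.Tactic.Linarith
import Mathlib.Tactic.LinearCombination
import Mathlib.Algebra.CharZero.Defs
import Mathlib.Data.Int.Cast.Lemmas
import Mathlib.Tactic.FieldSimp
import Mathlib.Tactic.Ring
import Mathlib.Tactic.Abel
import Mathlib.Tactic.NormNum

set_option autoImplicit false
set_option linter.unusedSectionVars false

/-!
# Multiplicative functions with the parallelogram law
-/

namespace Pool.DynLehmer.LE.Qd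

section par
variable {H : Type} [AddCommGroup H] (q : H → ℤ)
  (hq : ∀ x y, q (x + y) + q (x - y) = 2 * q x + 2 * q y)

/-- the polar form -/
def pol (x y : H) : ℤ := q (x + y) - q x - q y

include hq

theorem q_zero : q 0 = 0 := by
  have := hq 0 0
  rw [add_zero, sub_zero] at this
  omega

theorem q_neg (x : H) : q (-x) = q x := by
  have h := hq 0 x
  rw [zero_add, zero_sub, q_zero q hq] at h
  omega

theorem q_three (x y z : H) :
    q (x + y + z) = q (x + y) + q (y + z) + q (x + z) - q x - q y - q z := by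
  have a := hq (x + y) z
  have b := hq (x - z) y
  have c := hq x (y + z)
  have d := hq x z
  have e1 : x - z + y = x + y - z := by abel
  have e2 : x - z - y = x - (y + z) := by abel
  have e3 : x + (y + z) = x + y + z := by abel
  rw [e1, e2] at b
  rw [e3] at c
  omega

theorem pol_add_left (x y z : H) : pol q (x + y) z = pol q x z + pol q y z := by
  have h := q_three q hq x y z
  unfold pol
  omega

theorem pol_comm (x y : H) : pol q x y = pol q y x := by
  unfold pol
  rw [add_comm]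
  ring

theorem pol_add_right (x y z : H) : pol q x (y + z) = pol q x y + pol q x z := by
  rw [pol_comm q hq, pol_add_left q hq, pol_comm q hq y, pol_comm q hq z]

/-- the polar form as a homomorphism in the first variable -/
def polHom (z : H) : H →+ ℤ := AddMonoidHom.mk' (fun x => pol q x z) fun x y =>
  pol_add_left q hq x y z

theorem pol_smul_left (n : ℤ) (x z : H) : pol q (n • x) z = n * pol q x z := by
  have h := map_zsmul (polHom q hq z) n x
  rw [smul_eq_mul] at h
  exact h

theorem pol_smul_right (n : ℤ) (x z : H) : pol q x (n • z) = n * pol q x z := by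
  rw [pol_comm q hq, pol_smul_left q hq, pol_comm q hq]

theorem pol_self (x : H) : pol q x x = 2 * q x := by
  have h := hq x x
  rw [sub_self, q_zero q hq] at h
  unfold pol
  omega

/-- the value at `x - t y + n e` -/
theorem q_lin (x y e : H) (t n : ℤ) : 2 * q (x + (-t) • y + n • e) =
    2 * q x + 2 * t ^ 2 * q y + 2 * n ^ 2 * q e - 2 * t * pol q x y + 2 * n * pol q x e -
      2 * t * n * pol q y e := by
  rw [← pol_self q hq]
  simp only [pol_add_left q hq, pol_add_right q hq, pol_smul_left q hq, pol_smul_right q hq,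
    pol_self q hq]
  rw [pol_comm q hq y x, pol_comm q hq e x, pol_comm q hq e y]
  ring

end par

/-- A multiplicative function with the parallelogram law and without zeros: each element is
quadratic over `ℤ`. -/
theorem quad_abs {C : Type} [Field C] (Mu : C → ℕ → Prop)
    (F0 : ∀ g d d', Mu g d → Mu g d' → d = d')
    (F1 : ∀ g h d₁ d₂, Mu g d₁ → Mu h d₂ → ∃ d₃ d₄, Mu (g + h) d₃ ∧ Mu (g - h) d₄ ∧
      d₃ + d₄ = 2 * (d₁ + d₂))
    (F2 : ∀ g h d e, Mu g d → Mu h e → Mu (g * h) (d * e)) (F3 : ∀ g, Mu g 0 → g = 0)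
    (F4 : Mu 1 1) (g : C) (n : ℕ) (hg : Mu g n) : ∃ t : ℤ, g ^ 2 = t * g - n := by
  classical
  have m0 : ∃ d, Mu 0 d := by
    obtain ⟨d₃, d₄, -, h, -⟩ := F1 1 1 1 1 F4 F4
    exact ⟨d₄, by rw [sub_self] at h; exact h⟩
  let H : AddSubgroup C :=
    { carrier := {x | ∃ d, Mu x d}
      add_mem' := by
        rintro x y ⟨d, hd⟩ ⟨e, he⟩
        obtain ⟨d₃, d₄, h, -, -⟩ := F1 x y d e hd he
        exact ⟨d₃, h⟩
      zero_mem' := m0
      neg_mem' := by
        rintro x ⟨d, hd⟩
        obtain ⟨e, he⟩ := m0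
        obtain ⟨d₃, d₄, -, h, -⟩ := F1 0 x e d he hd
        exact ⟨d₄, by rw [zero_sub] at h; exact h⟩ }
  have hH : ∀ x : H, ∃ d, Mu (x : C) d := fun x => x.2
  choose q₀ hq₀ using hH
  let q : H → ℤ := fun x => q₀ x
  have qv : ∀ (x : H) (d : ℕ), Mu (x : C) d → q x = d := fun x d hd => by
    change (q₀ x : ℤ) = d
    rw [F0 _ _ _ (hq₀ x) hd]
  have hq : ∀ x y, q (x + y) + q (x - y) = 2 * q x + 2 * q y := by
    intro x y
    obtain ⟨d₃, d₄, h3, h4, h5⟩ := F1 _ _ _ _ (hq₀ x) (hq₀ y)
    rw [qv (x + y) d₃ h3, qv (x - y) d₄ h4]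
    change (d₃ : ℤ) + d₄ = 2 * (q₀ x : ℤ) + 2 * (q₀ y : ℤ)
    have : ((d₃ + d₄ : ℕ) : ℤ) = ((2 * (q₀ x + q₀ y) : ℕ) : ℤ) := by rw [h5]
    push_cast at this
    linarith
  let y : H := ⟨g, n, hg⟩
  let e : H := ⟨1, 1, F4⟩
  let x : H := ⟨g * g, n * n, F2 g g n n hg hg⟩
  obtain ⟨d₃, d₄, h3, h4, h5⟩ := F1 g 1 n 1 hg F4
  have qy : q y = n := qv y n hg
  have qe : q e = 1 := qv e 1 F4
  have qx : q x = n * n := by
    rw [qv x (n * n) (F2 g g n n hg hg)]
    push_cast
    ring
  have qp : q (y + e) = d₃ := qv (y + e) d₃ h3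
  have qm : q (y - e) = d₄ := qv (y - e) d₄ h4
  obtain ⟨t, ht⟩ : ∃ t, t = pol q y e := ⟨_, rfl⟩
  have ht1 : q (y + e) = n + 1 + t := by
    rw [ht]
    unfold pol
    rw [qy, qe]
    ring
  have ht2 : q (y - e) = n + 1 - t := by
    have h := hq y e
    rw [qy, qe, ht1] at h
    linarith
  -- the products
  have pxy : pol q x y = n * t := by
    have h6 : q (x + y) = n * (n + 1 + t) := by
      have h7 := F2 g (g + 1) n d₃ hg h3
      have h8 : ((x + y : H) : C) = g * (g + 1) := by
        change g * g + g = _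
        ring
      rw [← h8] at h7
      rw [qv (x + y) _ h7]
      push_cast
      rw [← qp, ht1]
    unfold pol
    rw [h6, qx, qy]
    ring
  have pxe : pol q x e = t ^ 2 - 2 * n := by
    have h6 : q (x - e) = (n + 1 - t) * (n + 1 + t) := by
      have h7 := F2 (g - 1) (g + 1) d₄ d₃ h4 h3
      have h8 : ((x - e : H) : C) = (g - 1) * (g + 1) := by
        change g * g - 1 = _
        ring
      rw [← h8] at h7
      rw [qv (x - e) _ h7]
      push_cast
      rw [← qp, ← qm, ht1, ht2]
    have h := hq x e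
    rw [h6, qx, qe] at h
    unfold pol
    rw [qx, qe]
    linarith
  have hz := q_lin q hq x y e t n
  rw [qx, qy, qe, pxy, pxe, ← ht] at hz
  have hz0 : q (x + (-t) • y + (n : ℤ) • e) = 0 := by
    have h9 : 2 * q (x + (-t) • y + (n : ℤ) • e) = 0 := by
      rw [hz]
      ring
    omega
  have hz1 : Mu ((x + (-t) • y + (n : ℤ) • e : H) : C) 0 := by
    have h9 := hq₀ (x + (-t) • y + (n : ℤ) • e)
    have h10 : q₀ (x + (-t) • y + (n : ℤ) • e) = 0 := Int.natCast_eq_zero.1 hz0
    rwa [h10] at h9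
  have hz2 := F3 _ hz1
  refine ⟨t, ?_⟩
  have h11 : ((x + (-t) • y + (n : ℤ) • e : H) : C) = g * g + (-t) • g + (n : ℤ) • (1 : C) := rfl
  rw [h11, neg_smul, zsmul_eq_mul, zsmul_eq_mul, mul_one, Int.cast_natCast] at hz2
  linear_combination hz2

end Pool.DynLehmer.LE.Qd
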