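import Pool.Agent.Lib.MP_2194ec_nt.LE.QuadB
import Pool.Agent.Lib.MP_2194ec_nt.LE.QuadC

set_option autoImplicit false
set_option linter.unusedSectionVars false

/-!
# The multipliers of the endomorphisms of an elliptic curve are quadratic integers
-/

namespace Pool.DynLehmer.LE.Qd
open Polynomial Pool.DynLehmer Pool.DynLehmer.LE Pool.DynLehmer.LE.Spe Pool.DynLehmer.LE.K2aux
open scoped Classical

variable {K : Type} [Field K] [CharZero K] {a b : K} {C L : Type} [Field C] [Algebra K C]
  [IsAlgClosed C] [Field L] [Algebra C L] [Algebra K L] [IsScalarTower K C L] [IsAlgClosed L]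
  (X : Ctx a b C L)

theorem alg_mem {z : L} (hz : IsAlgebraic C z) : ∃ c : C, algebraMap C L c = z :=
  minpoly.mem_range_of_degree_eq_one C z
    (IsAlgClosed.degree_eq_one_of_irreducible C (minpoly.irreducible hz.isIntegral))

theorem coprime_rep {z : L} (h : z ∈ IntermediateField.adjoin C {X.x}) :
    ∃ r s : C[X], IsCoprime r s ∧ s ≠ 0 ∧ aeval X.x r = aeval X.x s * z := by
  obtain ⟨r, s, hrs⟩ := (IntermediateField.mem_adjoin_simple_iff C z).1 h
  by_cases hs : s = 0
  · refine ⟨0, 1, isCoprime_zero_left.2 isUnit_one, one_ne_zero, ?_⟩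
    rw [hrs, hs, map_zero, div_zero, mul_zero]
  · have hg : EuclideanDomain.gcd r s ≠ 0 := fun h0 => hs (EuclideanDomain.gcd_eq_zero_iff.1 h0).2
    obtain ⟨r', hr'⟩ := EuclideanDomain.gcd_dvd_left r s
    obtain ⟨s', hs'⟩ := EuclideanDomain.gcd_dvd_right r s
    have hb := EuclideanDomain.gcd_eq_gcd_ab r s
    have hs'0 : s' ≠ 0 := fun h0 => hs (by rw [hs', h0, mul_zero])
    refine ⟨r', s', ⟨EuclideanDomain.gcdA r s, EuclideanDomain.gcdB r s, ?_⟩, hs'0, ?_⟩
    · apply mul_left_cancel₀ hg
      rw [mul_one]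
      calc EuclideanDomain.gcd r s * (EuclideanDomain.gcdA r s * r' +
            EuclideanDomain.gcdB r s * s') =
          (EuclideanDomain.gcd r s * r') * EuclideanDomain.gcdA r s +
            (EuclideanDomain.gcd r s * s') * EuclideanDomain.gcdB r s := by ring
        _ = r * EuclideanDomain.gcdA r s + s * EuclideanDomain.gcdB r s := by
          rw [← hr', ← hs']
        _ = EuclideanDomain.gcd r s := hb.symm
    · have hsx : aeval X.x s ≠ 0 := fun h0 => hs (inj X (by rw [h0, map_zero]))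
      have hgx : aeval X.x (EuclideanDomain.gcd r s) ≠ 0 := fun h0 =>
        hg (inj X (by rw [h0, map_zero]))
      apply mul_left_cancel₀ hgx
      rw [← mul_assoc, ← map_mul, ← map_mul, ← hr', ← hs', hrs]
      field_simp

theorem hchC (_ : Ctx a b C L) : CharZero C :=
  charZero_of_injective_algebraMap (algebraMap K C).injective

theorem hchL (_ : Ctx a b C L) : CharZero L :=
  charZero_of_injective_algebraMap (algebraMap K L).injective

/-- the constants of the derivation in `C(x)` -/
theorem const_of_D {z : L} (h : z ∈ IntermediateField.adjoin C {X.x}) (hz : X.D z = 0) :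
    ∃ c : C, algebraMap C L c = z := by
  have hC := hchC X
  have hL := hchL X
  obtain ⟨r, s, hco, hs, hrs⟩ := coprime_rep X h
  have hy := y_ne X
  have h1 : aeval X.x (derivative r) = aeval X.x (derivative s) * z := by
    have h2 := congrArg X.D hrs
    rw [Derivation.leibniz, hz, smul_zero, zero_add, Derivation.map_aeval, Derivation.map_aeval,
      X.hD] at h2
    simp only [smul_eq_mul] at h2
    have h3 : (2 * X.y) ≠ 0 := mul_ne_zero two_ne_zero hy
    apply mul_right_cancel₀ h3
    linear_combination h2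
  have h2 : derivative r * s = derivative s * r := by
    apply inj X
    rw [map_mul, map_mul, h1, hrs]
    ring
  have h3 : s ∣ derivative s := by
    have h4 : s ∣ derivative s * r := ⟨derivative r, by rw [← h2, mul_comm]⟩
    exact hco.symm.dvd_of_dvd_mul_right h4
  have h4 : derivative s = 0 := by
    by_contra h0
    have h5 := natDegree_le_of_dvd h3 h0
    have h6 : s.natDegree ≠ 0 := by
      intro h7
      apply h0
      rw [eq_C_of_natDegree_eq_zero h7, derivative_C]
    exact absurd h5 (not_le.2 (natDegree_derivative_lt h6))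
  have h5 : derivative r = 0 := by
    rw [h4, zero_mul] at h2
    exact (mul_eq_zero.1 h2).resolve_right hs
  have h6 := eq_C_of_natDegree_eq_zero (derivative_eq_zero.1 h4)
  have h7 := eq_C_of_natDegree_eq_zero (derivative_eq_zero.1 h5)
  have h8 : s.coeff 0 ≠ 0 := fun h0 => hs (by rw [h6, h0, C_0])
  refine ⟨r.coeff 0 / s.coeff 0, ?_⟩
  rw [h6, h7, aeval_C, aeval_C] at hrs
  rw [map_div₀, hrs]
  have h9 : algebraMap C L (s.coeff 0) ≠ 0 := fun h0 => h8 ((map_eq_zero _).1 h0)
  field_simp

theorem om_add (hO : OmaddStatement) (hab : 4 * a ^ 3 + 27 * b ^ 2 ≠ 0) (P Q : Ept a b L) :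
    om X.D (P + Q) = om X.D P + om X.D Q := hO K a b hab C L X.D P Q

/-- the value of the invariant differential as a homomorphism -/
noncomputable def omH (hO : OmaddStatement) (hab : 4 * a ^ 3 + 27 * b ^ 2 ≠ 0) :
    Ept a b L →+ L :=
  AddMonoidHom.mk' (om X.D) (om_add X hO hab)

theorem om_sub (hO : OmaddStatement) (hab : 4 * a ^ 3 + 27 * b ^ 2 ≠ 0) (P Q : Ept a b L) :
    om X.D (P - Q) = om X.D P - om X.D Q := map_sub (omH X hO hab) P Q

theorem om_neg (hO : OmaddStatement) (hab : 4 * a ^ 3 + 27 * b ^ 2 ≠ 0) (P : Ept a b L) :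
    om X.D (-P) = -om X.D P := map_neg (omH X hO hab) P

/-- constant points have degree zero -/
theorem hasDeg_const {U V : L} (h : ((Ws a b).baseChange L).toAffine.Nonsingular U V) {c : C}
    (hc : algebraMap C L c = U) :
    HasDeg X (WeierstrassCurve.Affine.Point.some U V h : Ept a b L) 0 := by
  refine ⟨![Polynomial.C c, 1], ⟨fun z => ⟨1, by simp⟩, fun i => ?_, 1, by simp⟩, 1, one_ne_zero,
    fun i => ?_⟩
  · fin_cases i <;> simp
  · fin_cases i <;> simp [WeierstrassCurve.Affine.Point.xRep, hc]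

/-- points with the differential zero are fixed under `-1` -/
theorem tors {T : Ept a b L} (hT : Odd X T) (h0 : om X.D T = 0) : HasDeg X T 0 ∧ -T = T := by
  have hC := hchC X
  have hL := hchL X
  rcases T with _ | ⟨t, s, hts⟩
  · exact ⟨hasDeg_zero X, neg_zero⟩
  · change X.D t / (2 * s) = 0 at h0
    have hty := (odd_some X hts hC).1 hT
    have hss := eqn hts
    have ht : ∃ c : C, algebraMap C L c = t := by
      rcases div_eq_zero_iff.1 h0 with h1 | h1
      · exact const_of_D X hty.1 h1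
      · have hs0 : s = 0 := (mul_eq_zero.1 h1).resolve_left two_ne_zero
        apply alg_mem
        refine ⟨Polynomial.X ^ 3 + Polynomial.C (algebraMap K C a) * Polynomial.X +
          Polynomial.C (algebraMap K C b), fun h2 => ?_, ?_⟩
        · have h4 := congrArg (fun p => coeff p 3) h2
          simp at h4
        · simp only [map_add, map_mul, map_pow, aeval_X, aeval_C]
          rw [← IsScalarTower.algebraMap_apply K C L, ← IsScalarTower.algebraMap_apply K C L,
            ← hss, hs0]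
          ring
    obtain ⟨c, hc⟩ := ht
    have hs : ∃ e : C, algebraMap C L e = s := by
      apply alg_mem
      obtain ⟨w, hw⟩ : ∃ w, w = c ^ 3 + algebraMap K C a * c + algebraMap K C b := ⟨_, rfl⟩
      refine ⟨Polynomial.X ^ 2 - Polynomial.C w, fun h2 => ?_, ?_⟩
      · have h4 := congrArg (fun p => coeff p 2) h2
        simp at h4
      · rw [hw]
        simp only [map_sub, map_add, map_mul, map_pow, aeval_X, aeval_C]
        rw [← IsScalarTower.algebraMap_apply K C L, ← IsScalarTower.algebraMap_apply K C L, hc,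
          hss]
        ring
    obtain ⟨e, he⟩ := hs
    refine ⟨hasDeg_const X hts hc, ?_⟩
    obtain ⟨σ, hσ⟩ := exists_flip X hC
    have h1 := hT σ
    have hyn : ¬ σ X.y = X.y := by
      rw [hσ]
      intro h2
      apply y_ne X
      have h3 : 2 * X.y = 0 := by linear_combination -h2
      exact (mul_eq_zero.1 h3).resolve_left two_ne_zero
    unfold ac at h1
    rw [if_neg hyn, AddMonoidHom.neg_apply] at h1
    have h2 : pm (kk (K := K) σ) (WeierstrassCurve.Affine.Point.some t s hts : Ept a b L) =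
        WeierstrassCurve.Affine.Point.some t s hts := by
      have hσC : ∀ c : C, σ (algebraMap C L c) = algebraMap C L c := fun c =>
        (σ.restrictScalars C).commutes c
      refine (some_iff _ _).2 ⟨?_, ?_⟩
      · change σ t = t
        rw [← hc, hσC]
      · change σ s = s
        rw [← he, hσC]
    rw [h2] at h1
    exact h1

theorem mu_zero : Mu X (0 : C) 0 := ⟨0, odd_zero X, (map_zero _).symm, hasDeg_zero X⟩

/-- F0 -/
theorem mu_unique (hAS : AddsubStatement) (hO : OmaddStatement)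
    (hab : 4 * a ^ 3 + 27 * b ^ 2 ≠ 0) (g : C) (d d' : ℕ) (h : Mu X g d) (h' : Mu X g d') :
    d = d' := by
  obtain ⟨P, hP, hg, hd⟩ := h
  obtain ⟨P', hP', hg', hd'⟩ := h'
  obtain ⟨h1, h2⟩ := tors X (odd_sub X hP hP') (by rw [om_sub X hO hab, hg, hg', sub_self])
  have e1 : P' + (P - P') = P := by abel
  have e2 : P' - (P - P') = P := by
    rw [sub_eq_add_neg P' (P - P'), h2]
    abel
  have h3 := hasDeg_par X hAS hab hd' h1 (d₃ := d) (d₄ := d) (by rw [e1]; exact hd)
    (by rw [e2]; exact hd)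
  omega

/-- F1 -/
theorem mu_par (hAS : AddsubStatement) (hO : OmaddStatement)
    (hab : 4 * a ^ 3 + 27 * b ^ 2 ≠ 0) (g h : C) (d₁ d₂ : ℕ) (hg : Mu X g d₁) (hh : Mu X h d₂) :
    ∃ d₃ d₄, Mu X (g + h) d₃ ∧ Mu X (g - h) d₄ ∧ d₃ + d₄ = 2 * (d₁ + d₂) := by
  obtain ⟨P, hP, hg, hd⟩ := hg
  obtain ⟨Q, hQ, hg', hd'⟩ := hh
  obtain ⟨d₃, h3⟩ := hasDeg_mem X (odd_mem X (hchC X) (odd_add X hP hQ))
  obtain ⟨d₄, h4⟩ := hasDeg_mem X (odd_mem X (hchC X) (odd_sub X hP hQ))
  exact ⟨d₃, d₄, ⟨P + Q, odd_add X hP hQ, by rw [om_add X hO hab, hg, hg', map_add], h3⟩,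
    ⟨P - Q, odd_sub X hP hQ, by rw [om_sub X hO hab, hg, hg', map_sub], h4⟩,
    hasDeg_par X hAS hab hd hd' h3 h4⟩

/-- F3 -/
theorem mu_deg_zero (g : C) (h : Mu X g 0) : g = 0 := by
  obtain ⟨P, hP, hg, v, hv, c, hc, h1⟩ := h
  have hL := hchL X
  rcases P with _ | ⟨U, V, hUV⟩
  · have h2 : (0 : L) = algebraMap C L g := hg
    exact (map_eq_zero _).1 h2.symm
  · have e0 := eq_C_of_natDegree_le_zero (hv.2.1 0)
    have e1 := eq_C_of_natDegree_le_zero (hv.2.1 1)
    have f0 := h1 0
    have f1 := h1 1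
    rw [e0, aeval_C] at f0
    rw [e1, aeval_C] at f1
    have g0 : algebraMap C L ((v 0).coeff 0) = c * U := f0
    have g1 : algebraMap C L ((v 1).coeff 0) = c * 1 := f1
    have hU : U = algebraMap C L ((v 0).coeff 0 / (v 1).coeff 0) := by
      rw [map_div₀, g0, g1, mul_one]
      field_simp
    change X.D U / (2 * V) = algebraMap C L g at hg
    rw [hU, Derivation.map_algebraMap, zero_div] at hg
    exact (map_eq_zero _).1 hg.symm

theorem psi_mem {ψ : L →ₐ[C] L} (hψ : ψ X.x ∈ IntermediateField.adjoin C {X.x}) {z : L}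
    (hz : z ∈ IntermediateField.adjoin C {X.x}) : ψ z ∈ IntermediateField.adjoin C {X.x} := by
  have h1 : IntermediateField.adjoin C {X.x} ≤
      (IntermediateField.adjoin C {X.x}).comap ψ := by
    rw [IntermediateField.adjoin_le_iff]
    rintro _ rfl
    exact hψ
  exact h1 hz

/-- F2 -/
theorem mu_mul (hAS : AddsubStatement) (hO : OmaddStatement)
    (hab : 4 * a ^ 3 + 27 * b ^ 2 ≠ 0) (g h : C) (d e : ℕ) (hg : Mu X g d) (hh : Mu X h e) :
    Mu X (g * h) (d * e) := by
  have hC := hchC X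
  have hL := hchL X
  by_cases h0 : h = 0
  · rw [h0] at hh ⊢
    rw [mu_unique X hAS hO hab 0 e 0 hh (mu_zero X), mul_zero, mul_zero]
    exact mu_zero X
  obtain ⟨P, hP, hg, hd⟩ := hg
  obtain ⟨Q, hQ, hg', hd'⟩ := hh
  have hh0 : algebraMap C L h ≠ 0 := fun h1 => h0 ((map_eq_zero _).1 h1)
  rcases Q with _ | ⟨x', y', hxy⟩
  · exact absurd hg'.symm hh0
  have hQ0 : (WeierstrassCurve.Affine.Point.some x' y' hxy : Ept a b L) ≠ 0 :=
    WeierstrassCurve.Affine.Point.some_ne_zero _
  have hQo := (odd_some X hxy hC).1 hQ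
  change X.D x' / (2 * y') = algebraMap C L h at hg'
  have hy0 : (2 * y') ≠ 0 := by
    intro h1
    rw [h1, div_zero] at hg'
    exact hh0 hg'.symm
  have hy' : y' ≠ 0 := fun h1 => hy0 (by rw [h1, mul_zero])
  have hDx : X.D x' = algebraMap C L h * (2 * y') := by
    rw [div_eq_iff hy0] at hg'
    exact hg'
  have htr : Transcendental C x' := by
    intro h1
    obtain ⟨c, hc⟩ := alg_mem h1
    rw [← hc, Derivation.map_algebraMap] at hDx
    exact mul_ne_zero hh0 hy0 hDx.symm
  obtain ⟨ψ, hψ⟩ := exists_psi X.hx X.halg htr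
  have hψ1 : ψ X.x = xc (WeierstrassCurve.Affine.Point.some x' y' hxy : Ept a b L) := hψ
  have hyy' := eqn hxy
  have hψK : ∀ c : K, ψ (algebraMap K L c) = algebraMap K L c := by
    intro c
    rw [IsScalarTower.algebraMap_apply K C L]
    exact ψ.commutes _
  have hψy : ψ X.y = y' ∨ ψ X.y = -y' := by
    rw [← sq_eq_sq_iff_eq_or_eq_neg, ← map_pow, X.hyy, map_add, map_add, map_mul, map_pow, hψ,
      hψK, hψK, hyy']
  have hψy0 : ψ X.y ≠ 0 := fun h1 => y_ne X ((map_eq_zero _).1 h1)
  obtain ⟨μ, hμ, hμh⟩ : ∃ μ : L, X.D x' = μ * (2 * ψ X.y) ∧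
      (μ = algebraMap C L h ∨ μ = -algebraMap C L h) := by
    rcases hψy with h1 | h1
    · exact ⟨algebraMap C L h, by rw [hDx, h1], Or.inl rfl⟩
    · exact ⟨-algebraMap C L h, by rw [hDx, h1]; ring, Or.inr rfl⟩
  have hcomm : ∀ z : L, X.D (ψ z) = μ * ψ (X.D z) := by
    intro z
    have halg := X.halg
    have hr : Set.range (fun _ : Unit => X.x) = {X.x} := Set.range_const
    rw [← hr] at halg
    refine ext_comm (x := fun _ : Unit => X.x) halg ψ X.D μ (fun _ => ?_) z
    rw [hψ, hμ, X.hD, map_mul, map_ofNat]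
  -- the image of the first point
  have hom : om X.D (pm (ψ.restrictScalars K) P) = μ * algebraMap C L g := by
    rcases P with _ | ⟨U, V, hUV⟩
    · have h1 : (0 : L) = algebraMap C L g := hg
      rw [← h1, mul_zero]
      rfl
    · change X.D (ψ U) / (2 * ψ V) = _
      change X.D U / (2 * V) = algebraMap C L g at hg
      rw [hcomm, ← ψ.commutes g]
      have h2 : algebraMap C L g = X.D U / (2 * V) := hg.symm
      rw [h2, map_div₀, map_mul, map_ofNat, mul_div_assoc]
  have hodd : Odd X (pm (ψ.restrictScalars K) P) := by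
    rcases P with _ | ⟨U, V, hUV⟩
    · exact odd_zero X
    · have h1 := (odd_some X hUV hC).1 hP
      have hm : ψ X.x ∈ IntermediateField.adjoin C {X.x} := by
        rw [hψ]
        exact hQo.1
      have h2 : ((Ws a b).baseChange L).toAffine.Nonsingular (ψ U) (ψ V) :=
        ((Ws a b).toAffine.baseChange_nonsingular (ψ.restrictScalars K).injective ..).mpr hUV
      refine (odd_some X h2 hC).2 ⟨psi_mem X hm h1.1, ?_⟩
      have h3 : ψ V / X.y = ψ (V / X.y) * (ψ X.y / X.y) := by
        rw [map_div₀]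
        have := y_ne X
        field_simp
      rw [h3]
      refine mul_mem (psi_mem X hm h1.2) ?_
      rcases hψy with h4 | h4
      · rw [h4]
        exact hQo.2
      · rw [h4, neg_div]
        exact neg_mem hQo.2
  have hdeg := hasDeg_comp X hd hd' hQ0 ψ hψ1
  rcases hμh with h1 | h1
  · exact ⟨_, hodd, by rw [hom, h1, map_mul, mul_comm], hdeg⟩
  · exact ⟨_, odd_neg X hodd, by rw [om_neg X hO hab, hom, h1, map_mul]; ring, hasDeg_neg X hdeg⟩

/-- the multipliers are quadratic over the integers -/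
theorem mu_quad (hAS : AddsubStatement) (hO : OmaddStatement)
    (hab : 4 * a ^ 3 + 27 * b ^ 2 ≠ 0) (g : C) (n : ℕ) (hg : Mu X g n) :
    ∃ t : ℤ, g ^ 2 = t * g - n := by
  obtain ⟨h, h1, h2, h3⟩ := exists_gen X hab
  exact quad_abs (Mu X) (mu_unique X hAS hO hab) (mu_par X hAS hO hab) (mu_mul X hAS hO hab)
    (mu_deg_zero X) ⟨_, h1, by rw [h2, map_one], h3⟩ g n hg

end Pool.DynLehmer.LE.Qd
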