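import Pool.Agent.Lib.MP_2194ec_nt.LE.Mulf

set_option autoImplicit false

/-!
# The multiplication by `p` on a supersingular curve over an algebraically closed field
-/

namespace Pool.DynLehmer.LE.Mulf
open MvPolynomial
open scoped Classical

/-- the exponent `(j, N - j)` -/
noncomputable def mm (N j : ℕ) : Fin 2 →₀ ℕ := Finsupp.single 0 j + Finsupp.single 1 (N - j)

theorem mm_zero (N j : ℕ) : mm N j 0 = j := by simp [mm]

theorem mm_one (N j : ℕ) : mm N j 1 = N - j := by simp [mm]

theorem eq_mm {N : ℕ} {m : Fin 2 →₀ ℕ} (h : m 0 + m 1 = N) : m = mm N (m 0) := by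
  ext i
  fin_cases i
  · simp [mm]
  · simp [mm]; omega

theorem deg_of_ne {S : Type} [CommRing S] {φ : MvPolynomial (Fin 2) S} {N : ℕ}
    (hφ : φ.IsHomogeneous N) {m : Fin 2 →₀ ℕ} (h : coeff m φ ≠ 0) : m 0 + m 1 = N := by
  have hd : m.degree = N := by
    by_contra h'
    exact h (hφ.coeff_eq_zero h')
  rw [← hd, Finsupp.degree_eq_sum, Fin.sum_univ_two]

section

variable {k : Type} [Field k] {R : Type} [CommRing R] (r : R →+* k)

/-- the dehomogenisation -/
noncomputable def un (φ : MvPolynomial (Fin 2) R) : Polynomial k :=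
  eval₂ ((Polynomial.C).comp r) ![Polynomial.X, 1] φ

theorem eval_un (φ : MvPolynomial (Fin 2) R) (x : k) :
    (un r φ).eval x = eval₂ r ![x, 1] φ := by
  rw [un, ← Polynomial.coe_evalRingHom, ← coe_eval₂Hom, ← RingHom.comp_apply,
    comp_eval₂Hom, coe_eval₂Hom]
  congr 1
  · ext a; simp
  · funext i; fin_cases i <;> simp

theorem coeff_un {φ : MvPolynomial (Fin 2) R} {N : ℕ} (hφ : φ.IsHomogeneous N) (j : ℕ)
    (hj : j ≤ N) : (un r φ).coeff j = r (coeff (mm N j) φ) := by
  rw [un, eval₂_eq', Polynomial.finset_sum_coeff]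
  rw [Finset.sum_eq_single (mm N j)]
  · simp [Fin.prod_univ_two, mm_zero]
  · intro m hm hne
    have h1 := deg_of_ne hφ (mem_support_iff.mp hm)
    have h2 : m 0 ≠ j := by
      intro h
      exact hne (by rw [eq_mm h1, h])
    simp [Fin.prod_univ_two, Polynomial.coeff_X_pow, Ne.symm h2]
  · intro h
    simp [notMem_support_iff.mp h]

theorem coeff_un_gt {φ : MvPolynomial (Fin 2) R} {N : ℕ} (hφ : φ.IsHomogeneous N) (j : ℕ)
    (hj : N < j) : (un r φ).coeff j = 0 := by
  rw [un, eval₂_eq', Polynomial.finset_sum_coeff]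
  apply Finset.sum_eq_zero
  intro m hm
  have h1 := deg_of_ne hφ (mem_support_iff.mp hm)
  have h2 : j ≠ m 0 := by omega
  simp [Fin.prod_univ_two, Polynomial.coeff_X_pow, h2]

theorem eval_inf {φ : MvPolynomial (Fin 2) R} {N : ℕ} (hφ : φ.IsHomogeneous N) :
    eval₂ r (![1, 0] : Fin 2 → k) φ = r (coeff (mm N N) φ) := by
  rw [eval₂_eq', Finset.sum_eq_single (mm N N)]
  · simp [Fin.prod_univ_two, mm_one]
  · intro m hm hne
    have h1 := deg_of_ne hφ (mem_support_iff.mp hm)
    have h2 : m 1 ≠ 0 := by
      intro h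
      apply hne
      have : m 0 = N := by omega
      rw [eq_mm h1, this]
    simp [Fin.prod_univ_two, h2]
  · intro h
    simp [notMem_support_iff.mp h]

end

section sup

variable {k : Type} [Field k] [IsAlgClosed k] {R : Type} [CommRing R] (r : R →+* k)
  {W : WeierstrassCurve R} [W.IsElliptic] (p : ℕ) [hp : Fact p.Prime] [CharP k p]
  {F : Fin 2 → MvPolynomial (Fin 2) R} (hF : IsMul W p F)
  (hT : ∀ P : WeierstrassCurve.Affine.Point (W.map r), p • P = 0 → P = 0)

include hF hT

theorem sup_one : r (coeff (mm (p ^ 2) 0) (F 1)) ≠ 0 ∧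
    ∀ j, 0 < j → j ≤ p ^ 2 → r (coeff (mm (p ^ 2) j) (F 1)) = 0 := by
  have h1 : ∀ x : k, (un r (F 1)).eval x ≠ 0 := by
    intro x hx
    rw [eval_un] at hx
    obtain ⟨P, t, ht, hP⟩ := exists_point (W.map r) ![x, 1] (by
      intro h
      have := congrFun h 1
      simp at this)
    obtain ⟨c, hc, h2⟩ := hF.val_smul r (W.map r) rfl P t ht
    rw [← hP] at h2
    have h3 := congrFun h2 1
    simp only [ev, Pi.smul_apply, smul_eq_mul] at h3
    rw [hx] at h3
    have h4 : (p • P).xRep 1 = 0 := by
      rcases mul_eq_zero.mp h3.symm with h | h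
      · exact absurd h hc
      · exact h
    have h5 : p • P = 0 := by
      revert h4
      cases p • P with
      | zero => intro _; rfl
      | some x y h => intro h4; simp at h4
    have h6 := hT P h5
    rw [h6] at hP
    have := congrFun hP 1
    simp at this
  have h2 : (un r (F 1)).natDegree = 0 := by
    by_contra hd
    obtain ⟨x, hx⟩ := IsAlgClosed.exists_root (un r (F 1)) (by
      intro h
      exact hd (Polynomial.natDegree_eq_of_degree_eq_some h))
    exact h1 x hx
  constructor
  · rw [← coeff_un r (hF.hom 1) 0 (Nat.zero_le _)]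
    intro h
    apply h1 0
    rw [Polynomial.eq_C_of_natDegree_eq_zero h2, h]
    simp
  · intro j hj hj'
    rw [← coeff_un r (hF.hom 1) j hj']
    exact Polynomial.coeff_eq_zero_of_natDegree_lt (by omega)

theorem sup_zero : r (coeff (mm (p ^ 2) (p ^ 2)) (F 0)) ≠ 0 ∧
    ∀ j, 0 < j → j < p ^ 2 → r (coeff (mm (p ^ 2) j) (F 0)) = 0 := by
  have hlead : r (coeff (mm (p ^ 2) (p ^ 2)) (F 0)) ≠ 0 := by
    rw [← eval_inf r (hF.hom 0)]
    obtain ⟨c, hc, h⟩ := hF.val k r (W.map r) rfl 0
    have h0 := congrFun h 0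
    simp [ev] at h0
    rw [h0]
    exact hc
  refine ⟨hlead, ?_⟩
  set f := un r (F 0) with hf
  have hfl : f.coeff (p ^ 2) ≠ 0 := by
    rw [hf, coeff_un r (hF.hom 0) _ le_rfl]; exact hlead
  have hf0 : f ≠ 0 := fun h => hfl (by rw [h]; simp)
  have hnd : f.natDegree = p ^ 2 := by
    apply le_antisymm
    · rw [Polynomial.natDegree_le_iff_coeff_eq_zero]
      intro j hj
      exact coeff_un_gt r (hF.hom 0) j hj
    · exact Polynomial.le_natDegree_of_ne_zero hfl
  -- a root gives a point whose multiple has first coordinate zero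
  have hroot : ∀ x : k, f.eval x = 0 →
      ∃ P : WeierstrassCurve.Affine.Point (W.map r), P.xRep = ![x, 1] ∧
        (p • P).xRep = ![0, 1] := by
    intro x hx
    rw [hf, eval_un] at hx
    obtain ⟨P, t, ht, hP⟩ := exists_point (W.map r) ![x, 1] (by
      intro h
      have := congrFun h 1
      simp at this)
    obtain ⟨c, hc, h2⟩ := hF.val_smul r (W.map r) rfl P t ht
    rw [← hP] at h2
    have h3 := congrFun h2 0
    simp only [ev, Pi.smul_apply, smul_eq_mul] at h3
    rw [hx] at h3
    have h4 : (p • P).xRep 0 = 0 := by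
      rcases mul_eq_zero.mp h3.symm with h | h
      · exact absurd h hc
      · exact h
    refine ⟨P, ?_, ?_⟩
    · cases P with
      | zero =>
        have := congrFun hP 1
        simp [← WeierstrassCurve.Affine.Point.zero_def] at this
      | some x' y' h' =>
        have e1 := congrFun hP 1
        have e0 := congrFun hP 0
        simp at e0 e1
        rw [← e1] at e0
        simp [e0]
    · revert h4
      cases p • P with
      | zero => intro h4; simp [← WeierstrassCurve.Affine.Point.zero_def] at h4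
      | some x y h => intro h4; simp at h4; simp [h4]
  have huniq : ∀ x x' : k, f.eval x = 0 → f.eval x' = 0 → x = x' := by
    intro x x' hx hx'
    obtain ⟨P, hP, hP'⟩ := hroot x hx
    obtain ⟨Q, hQ, hQ'⟩ := hroot x' hx'
    have h1 : P = Q ∨ P = -Q := by
      rcases WeierstrassCurve.Affine.Point.eq_or_eq_neg_of_xRep_eq_xRep (hP'.trans hQ'.symm)
        with h | h
      · left
        have := hT (P - Q) (by rw [smul_sub, h, sub_self])
        exact sub_eq_zero.mp this
      · right
        have := hT (P + Q) (by rw [smul_add, h, neg_add_cancel])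
        exact add_eq_zero_iff_eq_neg.mp this
    have h2 : P.xRep = Q.xRep := by
      rcases h1 with h | h
      · rw [h]
      · rw [h, WeierstrassCurve.Affine.Point.xRep_neg]
    rw [hP, hQ] at h2
    have := congrFun h2 0
    simpa using this
  obtain ⟨z, hz⟩ := IsAlgClosed.exists_root f (by
    rw [Polynomial.degree_eq_natDegree hf0, hnd]
    have : 0 < p ^ 2 := pow_pos hp.out.pos 2
    exact_mod_cast this.ne')
  have hsp : f.Splits := IsAlgClosed.splits f
  have hcard : f.roots.card = p ^ 2 := by
    rw [← hnd]; exact hsp.natDegree_eq_card_roots.symm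
  have hrep : f.roots = Multiset.replicate (p ^ 2) z := by
    rw [Multiset.eq_replicate]
    refine ⟨hcard, fun y hy => ?_⟩
    exact huniq y z (Polynomial.isRoot_of_mem_roots hy) hz
  have hprod : f = Polynomial.C f.leadingCoeff * (Polynomial.X - Polynomial.C z) ^ (p ^ 2) := by
    conv_lhs => rw [hsp.eq_prod_roots]
    rw [hrep, Multiset.map_replicate, Multiset.prod_replicate]
  have hfrob : (Polynomial.X - Polynomial.C z : Polynomial k) ^ (p ^ 2) =
      Polynomial.X ^ (p ^ 2) - Polynomial.C (z ^ (p ^ 2)) := by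
    rw [sub_pow_char_pow, Polynomial.C_pow]
  intro j hj hj'
  rw [← coeff_un r (hF.hom 0) j hj'.le, ← hf, hprod, hfrob, Polynomial.coeff_C_mul,
    Polynomial.coeff_sub, Polynomial.coeff_X_pow, Polynomial.coeff_C, if_neg hj'.ne,
    if_neg hj.ne', sub_zero, mul_zero]

end sup

end Pool.DynLehmer.LE.Mulf
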