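import Pool.Agent.Lib.MP_2194ec_nt.LE.Defs
import Pool.Agent.Lib.MP_2194ec_nt.LE.Univ

set_option autoImplicit false

/-!
# Good supersingular reduction gives purely inseparable reduction of the Lattes map
-/

namespace Pool.DynLehmer.LE
open MvPolynomial NumberField Filter Topology Pool.DynLehmer Pool.DynLehmer.SB Pool.DynLehmer.SP
  Pool.DynLehmer.GS Pool.DynLehmer.LP Pool.DynLehmer.LW
open scoped Classical

/-- The curve `y ^ 2 = x ^ 3 + a x + b` has good supersingular reduction at the place `v` over the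
prime `p > 3`: over no field of characteristic `p` over the ring `{x | v x ≤ 1}` the reduced
curve has a point of order `p`. -/
structure Supers {K : Type} [Field K] [NumberField K] (p : ℕ) (v : FinitePlace K) (a b : K) :
    Prop where
  three : 3 < p
  above : v (p : K) < 1
  ia : v a ≤ 1
  ib : v b ≤ 1
  disc : v (4 * a ^ 3 + 27 * b ^ 2) = 1
  tors : ∀ (k : Type) [Field k] (r : OW v →+* k), CharP k p →
    ∀ P : WeierstrassCurve.Affine.Point (Ws (r ⟨a, ia⟩) (r ⟨b, ib⟩)), p • P = 0 → P = 0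

/-- Row SUPER. -/
def SuperStatement : Prop :=
  ∀ (K : Type) [Field K] [NumberField K] (p : ℕ) (v : FinitePlace K) (a b : K), p.Prime →
    Supers p v a b → ∃ F : Fin 2 → MvPolynomial (Fin 2) K, HypR p 2 v F ∧ IsLat a b p F

namespace SupH

variable {K : Type} [Field K] [NumberField K]

theorem OW_eq (v : FinitePlace K) : OW v = (v.maximalIdeal.valuation K).integer := by
  ext x
  rw [mem_OW, Valuation.mem_integer_iff]
  conv_lhs => rw [← FinitePlace.mk_maximalIdeal v]
  exact mk_le_one_iff _ x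

theorem dvr (v : FinitePlace K) : IsDiscreteValuationRing (OW v) := by
  rw [OW_eq]
  infer_instance

theorem unit_iff (v : FinitePlace K) (x : OW v) : IsUnit x ↔ v (x : K) = 1 := by
  constructor
  · rintro ⟨t, rfl⟩
    have h1 : v ((t : OW v) : K) * v (((t⁻¹ : (OW v)ˣ) : OW v) : K) = 1 := by
      rw [← map_mul, ← Subring.coe_mul, Units.mul_inv]
      simp
    have h2 : v ((t : OW v) : K) ≤ 1 := (t : OW v).2
    have h3 : v (((t⁻¹ : (OW v)ˣ) : OW v) : K) ≤ 1 := ((t⁻¹ : (OW v)ˣ) : OW v).2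
    apply le_antisymm h2
    calc (1 : ℝ) = v ((t : OW v) : K) * v (((t⁻¹ : (OW v)ˣ) : OW v) : K) := h1.symm
      _ ≤ v ((t : OW v) : K) * 1 := mul_le_mul_of_nonneg_left h3 (apply_nonneg v _)
      _ = _ := mul_one _
  · intro h
    have hx : (x : K) ≠ 0 := by
      intro h0
      rw [h0, map_zero] at h
      exact zero_ne_one h
    have hy : v (x : K)⁻¹ ≤ 1 := by rw [map_inv₀, h, inv_one]
    refine ⟨⟨x, ⟨(x : K)⁻¹, hy⟩, ?_, ?_⟩, rfl⟩
    · ext; simp [hx]
    · ext; simp [hx]

theorem two (v : FinitePlace K) (p : ℕ) (hp : p.Prime) (h3 : 3 < p) (hv : v (p : K) < 1) :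
    v (2 : K) = 1 := by
  have h2 : v (2 : K) ≤ 1 := by
    have h : ((2 : 𝓞 K) : K) = 2 := map_ofNat (algebraMap (𝓞 K) K) 2
    rw [← h]
    exact int_le_one v (2 : 𝓞 K)
  apply le_antisymm h2
  by_contra hlt
  rw [not_le] at hlt
  have hodd : p % 2 = 1 := Nat.odd_iff.mp (hp.odd_of_ne_two (by omega))
  have e : (1 : K) = (p : K) + 2 * (-((p / 2 : ℕ) : K)) := by
    have : p = 2 * (p / 2) + 1 := by omega
    conv_rhs => rw [this]
    push_cast
    have : (2 * (p / 2) + 1) / 2 = p / 2 := by omega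
    rw [this]
    ring
  have h4 : v (2 * (-((p / 2 : ℕ) : K))) < 1 := by
    rw [map_mul, map_neg_eq_map]
    have h5 : v ((p / 2 : ℕ) : K) ≤ 1 := by
      have := int_le_one v ((p / 2 : ℕ) : 𝓞 K)
      simpa using this
    calc v (2 : K) * v ((p / 2 : ℕ) : K) ≤ v (2 : K) * 1 :=
          mul_le_mul_of_nonneg_left h5 (apply_nonneg v _)
      _ < 1 := by rw [mul_one]; exact hlt
  have h6 : v (1 : K) < 1 := by
    rw [e]
    exact (FinitePlace.add_le v _ _).trans_lt (max_lt hv h4)
  rw [map_one] at h6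
  exact lt_irrefl _ h6

/-- the short Weierstrass curve over a ring -/
def Wr {R : Type} [CommRing R] (a b : R) : WeierstrassCurve R where
  a₁ := 0
  a₂ := 0
  a₃ := 0
  a₄ := a
  a₆ := b

theorem Wr_map {R : Type} [CommRing R] {k : Type} [Field k] (r : R →+* k) (a b : R) :
    (Wr a b).map r = Ws (r a) (r b) := by
  ext <;> simp [Wr, Ws]

theorem Wr_disc {R : Type} [CommRing R] (a b : R) :
    (Wr a b).Δ = -(2 ^ 4 * (4 * a ^ 3 + 27 * b ^ 2)) := by
  simp only [Wr, WeierstrassCurve.Δ, WeierstrassCurve.b₂, WeierstrassCurve.b₄,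
    WeierstrassCurve.b₆, WeierstrassCurve.b₈]
  ring

instance instDvr (v : FinitePlace K) : IsDiscreteValuationRing (OW v) := dvr v

/-- the algebraic closure of the residue field -/
abbrev ResC (v : FinitePlace K) : Type := AlgebraicClosure (IsLocalRing.ResidueField (OW v))

/-- the reduction -/
noncomputable def res (v : FinitePlace K) : OW v →+* ResC v :=
  (algebraMap (IsLocalRing.ResidueField (OW v)) (ResC v)).comp (IsLocalRing.residue (OW v))

theorem residue_zero (v : FinitePlace K) (x : OW v) :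
    IsLocalRing.residue (OW v) x = 0 ↔ v (x : K) < 1 := by
  rw [IsLocalRing.residue_eq_zero_iff, IsLocalRing.mem_maximalIdeal, mem_nonunits_iff,
    unit_iff]
  have : v (x : K) ≤ 1 := x.2
  exact ⟨fun h => lt_of_le_of_ne this h, fun h => h.ne⟩

theorem charP_of (v : FinitePlace K) (p : ℕ) (hp : p.Prime) (above : v (p : K) < 1)
    (k : Type) [Field k] (r : OW v →+* k) (hr : ∀ x : OW v, r x = 0 ↔ v (x : K) < 1) :
    CharP k p := by
  have h0 : ((p : ℕ) : k) = 0 := by
    have : r (p : OW v) = 0 := by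
      rw [hr]
      simpa using above
    simpa using this
  exact ringChar.of_eq (CharP.ringChar_of_prime_eq_zero hp h0)

theorem res_spec (v : FinitePlace K) (p : ℕ) (hp : p.Prime) (above : v (p : K) < 1) :
    (∀ x : OW v, res v x = 0 ↔ v (x : K) < 1) ∧ CharP (ResC v) p := by
  have hr : ∀ x : OW v, res v x = 0 ↔ v (x : K) < 1 := by
    intro x
    rw [← residue_zero]
    change algebraMap (IsLocalRing.ResidueField (OW v)) (ResC v)
      (IsLocalRing.residue (OW v) x) = 0 ↔ _
    rw [map_eq_zero_iff _ (algebraMap (IsLocalRing.ResidueField (OW v)) (ResC v)).injective]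
  exact ⟨hr, charP_of v p hp above _ _ hr⟩

end SupH

open SupH in
/-- the main part, for a given field over the residue field -/
theorem super_core (hA : AddsubStatement) {K : Type} [Field K] [NumberField K] {p : ℕ}
    {v : FinitePlace K} {a b : K} (hp : p.Prime) (three : 3 < p) (above : v (p : K) < 1)
    (ia : v a ≤ 1) (ib : v b ≤ 1) (disc : v (4 * a ^ 3 + 27 * b ^ 2) = 1)
    (k : Type) [Field k] [IsAlgClosed k] (r : OW v →+* k)
    (hr : ∀ x : OW v, r x = 0 ↔ v (x : K) < 1)
    (hT : ∀ P : WeierstrassCurve.Affine.Point (Ws (r ⟨a, ia⟩) (r ⟨b, ib⟩)), p • P = 0 → P = 0) :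
    ∃ F : Fin 2 → MvPolynomial (Fin 2) K, HypR p 2 v F ∧ IsLat a b p F := by
  have hfp : Fact p.Prime := ⟨hp⟩
  have hdvr := dvr v
  set a' : OW v := ⟨a, ia⟩ with ha'
  set b' : OW v := ⟨b, ib⟩ with hb'
  have h2 := two v p hp three above
  have hell : (Wr a' b').IsElliptic := by
    refine ⟨?_⟩
    rw [Wr_disc, unit_iff]
    have c2 : ((2 : OW v) : K) = 2 := map_ofNat (OW v).subtype 2
    have c4 : ((4 : OW v) : K) = 4 := map_ofNat (OW v).subtype 4
    have c27 : ((27 : OW v) : K) = 27 := map_ofNat (OW v).subtype 27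
    push_cast
    rw [c2, c4, c27, map_neg_eq_map, map_mul, map_pow, h2, one_pow, one_mul]
    exact disc
  obtain ⟨F, hF⟩ := Mulf.exists_isMul hA (OW v) (Wr a' b') p
  have hch : CharP k p := by
    have h0 : ((p : ℕ) : k) = 0 := by
      have : r (p : OW v) = 0 := by
        rw [hr]
        simpa using above
      simpa using this
    exact ringChar.of_eq (CharP.ringChar_of_prime_eq_zero hp h0)
  have hT' : ∀ P : WeierstrassCurve.Affine.Point ((Wr a' b').map r), p • P = 0 → P = 0 := by
    have key : ∀ W' : WeierstrassCurve k, W' = Ws (r a') (r b') →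
        ∀ P : WeierstrassCurve.Affine.Point W', p • P = 0 → P = 0 := by
      rintro W' rfl
      exact hT
    exact key _ (Wr_map r a' b')
  obtain ⟨s1, s2⟩ := Mulf.sup_one r p hF hT'
  obtain ⟨s3, s4⟩ := Mulf.sup_zero r p hF hT'
  have hN : 0 < p ^ 2 := pow_pos hp.pos 2
  have e0 : Finsupp.single (0 : Fin 2) (p ^ 2) = Mulf.mm (p ^ 2) (p ^ 2) := by
    ext i; fin_cases i <;> simp [Mulf.mm]
  have e1 : Finsupp.single (1 : Fin 2) (p ^ 2) = Mulf.mm (p ^ 2) 0 := by
    ext i; fin_cases i <;> simp [Mulf.mm]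
  refine ⟨fun i => map (OW v).subtype (F i), ⟨hp, by norm_num, above, ?_, ?_, ?_, ?_⟩, ?_⟩
  · intro i
    exact (hF.hom i).map _
  · intro i t
    rw [coeff_map]
    exact (coeff t (F i)).2
  · intro i t ht
    rw [coeff_map]
    change v ((coeff t (F i) : OW v) : K) < 1
    by_cases h0 : coeff t (F i) = 0
    · rw [h0]; simp
    · have hd := Mulf.deg_of_ne (hF.hom i) h0
      have hm := Mulf.eq_mm hd
      rw [← hr, hm]
      have n0 : t 0 ≠ 0 := by
        intro h
        apply ht 1
        rw [e1, hm, h]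
      have n1 : t 0 ≠ p ^ 2 := by
        intro h
        apply ht 0
        rw [e0, hm, h]
      fin_cases i
      · exact s4 (t 0) (by omega) (by omega)
      · exact s2 (t 0) (by omega) (by omega)
  · rw [Matrix.det_fin_two]
    simp only [Matrix.of_apply, coeff_map, e0, e1]
    set D : OW v := coeff (Mulf.mm (p ^ 2) (p ^ 2)) (F 0) * coeff (Mulf.mm (p ^ 2) 0) (F 1) -
      coeff (Mulf.mm (p ^ 2) 0) (F 0) * coeff (Mulf.mm (p ^ 2) (p ^ 2)) (F 1) with hD
    have hDr : r D ≠ 0 := by
      rw [hD, map_sub, map_mul, map_mul, s2 (p ^ 2) hN le_rfl, mul_zero, sub_zero]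
      exact mul_ne_zero s3 s1
    have hD1 : ¬ v (D : K) < 1 := fun h => hDr ((hr D).mpr h)
    have hD2 : v (D : K) ≤ 1 := D.2
    have hD3 : v (D : K) = 1 := le_antisymm hD2 (not_lt.mp hD1)
    rw [← hD3, hD]
    simp
  · intro M _ _ P
    obtain ⟨c, hc, h⟩ := hF.val M ((algebraMap K M).comp (OW v).subtype)
      ((Ws a b).baseChange M) (by
        rw [Wr_map]
        ext <;> simp [Ws, WeierstrassCurve.baseChange, ha', hb']) P
    refine ⟨c, hc, ?_⟩
    rw [← h]
    funext i
    simp only [gAct, Mulf.ev]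
    rw [aeval_def, eval₂_map]

open SupH in
theorem super (hA : AddsubStatement) : SuperStatement := by
  intro K _ _ p v a b hp hS
  have hdvr := dvr v
  obtain ⟨hr, hch⟩ := res_spec v p hp hS.above
  exact super_core hA hp hS.three hS.above hS.ia hS.ib hS.disc (ResC v) (res v) hr
    (hS.tors (ResC v) (res v) hch)

end Pool.DynLehmer.LE
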