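import Pool.Agent.Lib.MP_2194ec_nt.LE.Defs
import Pool.Agent.Lib.MP_2194ec_nt.LE.DefsE

set_option autoImplicit false
set_option linter.unusedSectionVars false

/-!
# Row TRANS, part 1: points, derivations and endomorphisms of the field
-/

namespace Pool.DynLehmer.LE
open scoped Classical

namespace Tr

variable {K : Type} [Field K] {a b : K} {L : Type} [Field L] [Algebra K L]

/-- the second coordinate -/
def yc : Ept a b L → L
  | .zero => 0
  | .some _ y _ => y

theorem eqn {x y : L} (h : WeierstrassCurve.Affine.Nonsingular ((Ws a b).baseChange L) x y) :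
    y ^ 2 = x ^ 3 + algebraMap K L a * x + algebraMap K L b := by
  have h1 := (WeierstrassCurve.Affine.equation_iff x y).1 h.1
  simpa [Ws, WeierstrassCurve.baseChange] using h1

theorem nonsing {x y : L} (h0 : (4 : K) * a ^ 3 + 27 * b ^ 2 ≠ 0) [CharZero L]
    (h : y ^ 2 = x ^ 3 + algebraMap K L a * x + algebraMap K L b) (hy : y = 0) :
    3 * x ^ 2 + algebraMap K L a ≠ 0 := by
  intro h1
  apply h0
  apply (algebraMap K L).injective
  subst hy
  set A := algebraMap K L a
  set B := algebraMap K L b
  have h2 : A = -3 * x ^ 2 := by linear_combination h1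
  have h3 : B = 2 * x ^ 3 := by
    have h4 : (0 : L) ^ 2 = x ^ 3 + A * x + B := h
    rw [h2] at h4
    linear_combination -h4
  rw [map_add, map_mul, map_mul, map_pow, map_pow, map_zero]
  have e4 : algebraMap K L 4 = 4 := map_ofNat _ 4
  have e27 : algebraMap K L 27 = 27 := map_ofNat _ 27
  rw [e4, e27]
  change 4 * A ^ 3 + 27 * B ^ 2 = 0
  rw [h2, h3]
  ring

theorem xc_eq {P Q : Ept a b L} (hP : P ≠ 0) (hQ : Q ≠ 0) (h : xc P = xc Q) :
    P = Q ∨ P = -Q := by
  match P, Q with
  | .zero, _ => exact absurd rfl hP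
  | .some _ _ _, .zero => exact absurd rfl hQ
  | .some x y hh, .some x' y' hh' => exact WeierstrassCurve.Affine.Point.X_eq_iff.1 h

theorem xc_neg (P : Ept a b L) : xc (-P) = xc P := by
  match P with
  | .zero => rfl
  | .some x y hh => rfl

theorem yc_neg (P : Ept a b L) : yc (-P) = -yc P := by
  match P with
  | .zero => exact neg_zero.symm
  | .some x y hh =>
    show WeierstrassCurve.Affine.negY ((Ws a b).baseChange L) x y = -y
    simp [WeierstrassCurve.Affine.negY, Ws, WeierstrassCurve.baseChange]

variable {C : Type} [Field C] [Algebra C L]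

theorem xc_pm {M : Type} [Field M] [Algebra K M] (φ : L →ₐ[K] M) (P : Ept a b L) :
    xc (pm φ P) = φ (xc P) := by
  match P with
  | .zero => exact (map_zero φ).symm
  | .some x y hh => rfl

theorem yc_pm {M : Type} [Field M] [Algebra K M] (φ : L →ₐ[K] M) (P : Ept a b L) :
    yc (pm φ P) = φ (yc P) := by
  match P with
  | .zero => exact (map_zero φ).symm
  | .some x y hh => rfl

theorem om_zero (D : Derivation C L L) : om D (0 : Ept a b L) = 0 := rfl

theorem om_eq (D : Derivation C L L) (P : Ept a b L) : om D P = D (xc P) / (2 * yc P) := by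
  match P with
  | .zero => exact (by simp [om, yc])
  | .some x y hh => rfl

/-- `om` as a homomorphism -/
noncomputable def omH (h : ∀ (D : Derivation C L L) (P Q : Ept a b L),
    om D (P + Q) = om D P + om D Q) (D : Derivation C L L) : Ept a b L →+ L where
  toFun := om D
  map_zero' := rfl
  map_add' := h D

theorem D_base [Algebra K C] [IsScalarTower K C L] (D : Derivation C L L) (c : K) :
    D (algebraMap K L c) = 0 := by
  rw [IsScalarTower.algebraMap_apply K C L, Derivation.map_algebraMap]

theorem D_xc [Algebra K C] [IsScalarTower K C L] [CharZero L]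
    (h0 : (4 : K) * a ^ 3 + 27 * b ^ 2 ≠ 0) (D : Derivation C L L) (P : Ept a b L) :
    D (xc P) = 2 * yc P * om D P := by
  match P with
  | .zero =>
    show D (0 : L) = 2 * 0 * 0
    rw [map_zero]
    ring
  | .some x y hh =>
    show D x = 2 * y * (D x / (2 * y))
    by_cases hy : y = 0
    · have h1 := eqn hh
      have h2 := nonsing h0 h1 hy
      have h3 := congrArg D h1
      rw [hy] at h3
      simp only [map_add, Derivation.leibniz, Derivation.leibniz_pow, D_base, map_zero,
        smul_eq_mul, nsmul_eq_mul, mul_zero, add_zero] at h3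
      have h4 : (3 * x ^ 2 + algebraMap K L a) * D x = 0 := by
        norm_num at h3
        linear_combination -h3
      rw [(mul_eq_zero.1 h4).resolve_left h2, hy]
      ring
    · field_simp

/-- An eigenpoint with an algebraic first coordinate is a torsion point. -/
theorem tors1 [Algebra K C] [IsScalarTower K C L] {lam : ℕ} (hl : 2 ≤ lam) (φ : L →ₐ[C] L)
    (R : Ept a b L) (hφ : pm (φ.restrictScalars K) R = lam • R ∨
      pm (φ.restrictScalars K) R = -(lam • R)) (hx : IsAlgebraic C (xc R)) :
    ∃ z : ℤ, z ≠ 0 ∧ z • R = 0 := by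
  set Φ : Ept a b L →+ Ept a b L := pm (φ.restrictScalars K) with hΦ
  have h1 : ∀ n : ℕ, (Φ^[n]) R = (lam ^ n) • R ∨ (Φ^[n]) R = -((lam ^ n) • R) := by
    intro n
    induction n with
    | zero => left; simp
    | succ n ih =>
      rw [Function.iterate_succ_apply']
      have h2 : ∀ m : ℕ, Φ (m • R) = m • Φ R := fun m => map_nsmul Φ m R
      have h3 : (lam ^ (n + 1)) • R = (lam ^ n) • (lam • R) := by
        rw [pow_succ, mul_smul]
      rcases ih with h | h <;> rcases hφ with h' | h'
      · left; rw [h, h2, h', h3]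
      · right; rw [h, h2, h', h3, smul_neg]
      · right; rw [h, map_neg, h2, h', h3]
      · left; rw [h, map_neg, h2, h', h3, smul_neg, neg_neg]
  have h2 : ∀ n : ℕ, xc ((lam ^ n) • R) = (φ^[n]) (xc R) := by
    intro n
    have h3 : xc ((Φ^[n]) R) = (φ^[n]) (xc R) := by
      induction n with
      | zero => rfl
      | succ n ih =>
        rw [Function.iterate_succ_apply', Function.iterate_succ_apply', hΦ, xc_pm, ← hΦ, ih]
        rfl
    rcases h1 n with h | h
    · rw [← h, h3]
    · rw [h, xc_neg] at h3
      exact h3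
  obtain ⟨p, hp0, hp⟩ := hx
  have h3 : ∀ n : ℕ, Polynomial.aeval ((φ^[n]) (xc R)) p = 0 := by
    intro n
    induction n with
    | zero => exact hp
    | succ n ih =>
      rw [Function.iterate_succ_apply', Polynomial.aeval_algHom_apply, ih, map_zero]
  have hmap : p.map (algebraMap C L) ≠ 0 :=
    (Polynomial.map_ne_zero_iff (algebraMap C L).injective).2 hp0
  have hfin : Set.Finite (Set.range fun n : ℕ => xc ((lam ^ n) • R)) := by
    refine Set.Finite.subset ((p.map (algebraMap C L)).roots.toFinset.finite_toSet) ?_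
    rintro _ ⟨n, rfl⟩
    rw [Finset.mem_coe, Multiset.mem_toFinset, Polynomial.mem_roots hmap, Polynomial.IsRoot.def,
      Polynomial.eval_map_algebraMap]
    show Polynomial.aeval (xc ((lam ^ n) • R)) p = 0
    rw [h2 n]
    exact h3 n
  obtain ⟨n, n', hnn, he⟩ : ∃ n n' : ℕ, n < n' ∧
      xc ((lam ^ n) • R) = xc ((lam ^ n') • R) := by
    by_contra hcon
    push Not at hcon
    have hinj : Function.Injective fun n : ℕ => xc ((lam ^ n) • R) := by
      intro n n' h
      rcases lt_trichotomy n n' with h4 | h4 | h4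
      · exact absurd h (hcon n n' h4)
      · exact h4
      · exact absurd h.symm (hcon n' n h4)
    exact Set.infinite_range_of_injective hinj hfin
  have hpos : ∀ n : ℕ, ((lam ^ n : ℕ) : ℤ) ≠ 0 := fun n => by
    have : 0 < lam ^ n := by positivity
    omega
  by_cases hz : (lam ^ n) • R = 0
  · exact ⟨_, hpos n, by rw [natCast_zsmul]; exact hz⟩
  by_cases hz' : (lam ^ n') • R = 0
  · exact ⟨_, hpos n', by rw [natCast_zsmul]; exact hz'⟩
  have hlt : lam ^ n < lam ^ n' := Nat.pow_lt_pow_right (by omega) hnn
  rcases xc_eq hz hz' he with h | h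
  · refine ⟨((lam ^ n : ℕ) : ℤ) - (lam ^ n' : ℕ), by omega, ?_⟩
    rw [sub_smul, natCast_zsmul, natCast_zsmul, h, sub_self]
  · refine ⟨((lam ^ n : ℕ) : ℤ) + (lam ^ n' : ℕ), by omega, ?_⟩
    rw [add_smul, natCast_zsmul, natCast_zsmul, h, neg_add_cancel]

end Tr

end Pool.DynLehmer.LE
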