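import Pool.Agent.Lib.MP_2194ec_nt.LE.TrA
import Pool.Agent.Lib.MP_2194ec_nt.LE.Ext

set_option autoImplicit false
set_option linter.unusedSectionVars false

/-!
# Row TRANS, part 2: the multipliers are rational
-/

namespace Pool.DynLehmer.LE
open scoped Classical

namespace Tr

open scoped IntermediateField.algebraAdjoinAdjoin

variable {K : Type} [Field K] {a b : K} {L : Type} [Field L] [Algebra K L]
variable {C : Type} [Field C] [Algebra C L]

/-- A derivation which is zero on a subfield is zero on the algebraic elements. -/
theorem kill_alg [CharZero C] (D : Derivation C L L) (F : IntermediateField C L)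
    (hF : ∀ z ∈ F, D z = 0) (z : L) (hz : IsAlgebraic F z) : D z = 0 := by
  have hF0 : CharZero F := charZero_of_injective_algebraMap (algebraMap C F).injective
  let DF : Derivation F L L :=
    { toFun := D
      map_add' := fun u v => map_add D u v
      map_smul' := by
        intro c u
        have h1 : c • u = (c : L) * u := rfl
        rw [h1, Derivation.leibniz, hF c c.2, smul_zero, add_zero]
        rfl
      map_one_eq_zero' := Derivation.map_one_eq_zero D
      leibniz' := fun u v => Derivation.leibniz D u v }
  have h1 := DF.map_aeval (minpoly F z) z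
  rw [minpoly.aeval, map_zero] at h1
  have hi : IsIntegral F z := hz.isIntegral
  have h2 : Polynomial.aeval z (Polynomial.derivative (minpoly F z)) ≠ 0 :=
    (minpoly.irreducible hi).separable.aeval_derivative_ne_zero (minpoly.aeval F z)
  have h3 : DF z = 0 := (smul_eq_zero.1 h1.symm).resolve_left h2
  exact h3

theorem kill_adjoin (D : Derivation C L L) (S : Set L) (hS : ∀ z ∈ S, D z = 0) :
    ∀ z ∈ IntermediateField.adjoin C S, D z = 0 := by
  intro z hz
  induction hz using IntermediateField.adjoin_induction with
  | mem x hx => exact hS x hx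
  | algebraMap x => exact D.map_algebraMap x
  | add x y _ _ hx hy => rw [map_add, hx, hy, add_zero]
  | inv x _ hx => rw [Derivation.leibniz_inv, hx, smul_zero]
  | mul x y _ _ hx hy => rw [Derivation.leibniz, hx, hy, smul_zero, smul_zero, add_zero]

theorem alg_of_y0 [Algebra K C] [IsScalarTower K C L] (P : Ept a b L) (h : yc P = 0) :
    IsAlgebraic C (xc P) := by
  match P with
  | .zero => exact isAlgebraic_zero
  | .some x y hh =>
    have h1 := eqn hh
    have h2 : y = 0 := h
    rw [h2] at h1
    refine ⟨Polynomial.X ^ 3 + (Polynomial.C (algebraMap K C a) * Polynomial.X +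
      Polynomial.C (algebraMap K C b)), ?_, ?_⟩
    · refine (Polynomial.monic_X_pow_add ?_).ne_zero
      refine lt_of_le_of_lt (Polynomial.degree_linear_le) ?_
      norm_num
    · show Polynomial.aeval x _ = 0
      simp only [map_add, map_mul, map_pow, Polynomial.aeval_X, Polynomial.aeval_C,
        ← IsScalarTower.algebraMap_apply]
      linear_combination -h1

/-- The multiplier of one point over another one is rational if it is algebraic. -/
theorem rat (hK2 : K2Statement) [CharZero K] (h0 : (4 : K) * a ^ 3 + 27 * b ^ 2 ≠ 0)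
    (hcm : NoCM a b) [Algebra K C] [IsScalarTower K C L] [IsAlgClosed L] {k : ℕ} {x : Fin k → L}
    (hb : IsTranscendenceBasis C x) (j : Fin k) (P₁ P : Ept a b L) (hP₁ : xc P₁ = x j)
    (D : Derivation C L L) (hD : ∀ i, i ≠ j → D (x i) = 0) (h1 : om D P₁ = 1)
    (hg : IsAlgebraic C (om D P)) : ∃ r : ℚ, om D P = r := by
  have hC0 : CharZero C := charZero_of_injective_algebraMap (algebraMap K C).injective
  have halg := hb.isAlgebraic_field
  set F : IntermediateField C L := IntermediateField.adjoin C (x '' {j}ᶜ) with hF
  let C₂ : IntermediateField C L := (algebraicClosure F L).restrictScalars C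
  have hmem : ∀ z, z ∈ C₂ ↔ IsAlgebraic F z := fun z => mem_algebraicClosure_iff
  have hcl : IsAlgClosed C₂ := by
    have h1 : IsAlgClosed (algebraicClosure F L) := IsAlgClosure.isAlgClosed F
    exact h1
  have hDF : ∀ z ∈ F, D z = 0 := by
    refine kill_adjoin D _ ?_
    rintro _ ⟨i, hi, rfl⟩
    exact hD i hi
  have hDC : ∀ z ∈ C₂, D z = 0 := fun z hz =>
    kill_alg D F hDF z ((hmem z).1 hz)
  let D₂ : Derivation C₂ L L :=
    { toFun := D
      map_add' := fun u v => map_add D u v
      map_smul' := by
        intro c u
        have h1 : c • u = (c : L) * u := rfl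
        rw [h1, Derivation.leibniz, hDC c c.2, smul_zero, add_zero]
        rfl
      map_one_eq_zero' := Derivation.map_one_eq_zero D
      leibniz' := fun u v => Derivation.leibniz D u v }
  have hgC : om D P ∈ C₂ := (hmem _).2 (hg.extendScalars
    (algebraMap C F).injective)
  have htr : Transcendental C₂ (x j) := by
    intro h
    have h' : IsAlgebraic (algebraicClosure F L) (x j) := h
    have h2 : IsAlgebraic F (x j) := h'.restrictScalars F
    have h3 := (IsFractionRing.isAlgebraic_iff (Algebra.adjoin C (x '' {j}ᶜ)) F L).2 h2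
    exact hb.1.transcendental_adjoin (s := {j}ᶜ) (i := j) (by simp) h3
  have hle : IntermediateField.adjoin C (Set.range x) ≤
      (IntermediateField.adjoin C₂ {x j}).restrictScalars C := by
    rw [IntermediateField.adjoin_le_iff]
    rintro _ ⟨i, rfl⟩
    by_cases hi : i = j
    · rw [hi]
      exact IntermediateField.subset_adjoin C₂ _ rfl
    · have h2 : x i ∈ F := IntermediateField.subset_adjoin C _ ⟨i, hi, rfl⟩
      have h3 : x i ∈ C₂ := (hmem _).2 (isAlgebraic_algebraMap (⟨x i, h2⟩ : F))
      exact (algebraMap C₂ (IntermediateField.adjoin C₂ {x j}) ⟨x i, h3⟩).2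
  have halg₂ : Algebra.IsAlgebraic (IntermediateField.adjoin C₂ {xc P₁}) L := by
    rw [hP₁]
    refine ⟨fun z => ?_⟩
    exact (halg.isAlgebraic z).ringHom_of_comp_eq
      (IntermediateField.inclusion hle : _ →ₐ[C] _) (RingHom.id L)
      (IntermediateField.inclusion hle).injective rfl
  let aK : Algebra K C₂ := ((algebraMap C C₂).comp (algebraMap K C)).toAlgebra
  have htow : IsScalarTower K C₂ L := IsScalarTower.of_algebraMap_eq fun c =>
    IsScalarTower.algebraMap_apply K C L c
  obtain ⟨r, hr⟩ := hK2 K a b h0 hcm C₂ L D₂ P₁ P ⟨om D P, hgC⟩ (by rw [hP₁]; exact htr) halg₂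
    h1 rfl
  refine ⟨r, ?_⟩
  have h2 := congrArg (algebraMap C₂ L) hr
  rw [map_ratCast] at h2
  exact h2

end Tr

end Pool.DynLehmer.LE
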