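import Pool.Agent.Lib.MP_2194ec_nt.LE.TrB

set_option autoImplicit false
set_option linter.unusedSectionVars false

/-!
# Row TRANS, part 3: the induction step
-/

namespace Pool.DynLehmer.LE
open scoped Classical

namespace Tr

/-- the statement of TRANS for `k` points -/
def St {K : Type} [Field K] (a b : K) (k : ℕ) : Prop :=
  ∀ (C L : Type) [Field C] [Algebra K C] [Field L] [Algebra C L] [Algebra K L]
    [IsScalarTower K C L] [IsAlgClosed L] (φ : L →ₐ[C] L) (lam : ℕ), 2 ≤ lam →
    ∀ P : Fin k → Ept a b L,
    (∀ i, pm (φ.restrictScalars K) (P i) = lam • P i ∨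
      pm (φ.restrictScalars K) (P i) = -(lam • P i)) →
    ¬ AlgebraicIndependent C (fun i => xc (P i)) →
    ∃ γ : Fin k → ℤ, γ ≠ 0 ∧ ∑ i, γ i • P i = 0

variable {K : Type} [Field K] {a b : K} {L : Type} [Field L] [Algebra K L]
variable {C : Type} [Field C] [Algebra C L]

/-- the endomorphism over the field generated by fixed elements -/
theorem fix_adjoin (φ : L →ₐ[C] L) {t : L} (ht : φ t = t) :
    ∀ z ∈ IntermediateField.adjoin C {t}, φ z = z := by
  intro z hz
  induction hz using IntermediateField.adjoin_induction with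
  | mem x hx => rw [Set.mem_singleton_iff] at hx; rw [hx, ht]
  | algebraMap x => exact φ.commutes x
  | add x y _ _ hx hy => rw [map_add, hx, hy]
  | inv x _ hx => rw [map_inv₀, hx]
  | mul x y _ _ hx hy => rw [map_mul, hx, hy]

theorem om_phi [Algebra K C] [IsScalarTower K C L] (D : Derivation C L L) (φ : L →ₐ[C] L) (μ : L)
    (h : ∀ z, D (φ z) = μ * φ (D z)) (P : Ept a b L) :
    om D (pm (φ.restrictScalars K) P) = μ * φ (om D P) := by
  rw [om_eq, om_eq, xc_pm, yc_pm]
  show D (φ (xc P)) / (2 * φ (yc P)) = μ * φ (D (xc P) / (2 * yc P))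
  rw [h, map_div₀, map_mul, map_ofNat, mul_div_assoc]

theorem om_zsmul (hadd : ∀ (D : Derivation C L L) (P Q : Ept a b L),
    om D (P + Q) = om D P + om D Q) (D : Derivation C L L) (n : ℤ) (P : Ept a b L) :
    om D (n • P) = n * om D P := by
  have h1 := map_zsmul (omH hadd D) n P
  rw [zsmul_eq_mul] at h1
  exact h1

theorem core (hom : OmaddStatement) (hK2 : K2Statement) [CharZero K]
    (h0 : (4 : K) * a ^ 3 + 27 * b ^ 2 ≠ 0) (hcm : NoCM a b) {k : ℕ} (IH : St a b k)
    [Algebra K C] [IsScalarTower K C L] [IsAlgClosed L] (φ : L →ₐ[C] L) {lam : ℕ} (hl : 2 ≤ lam)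
    (P : Fin (k + 1) → Ept a b L)
    (hφ : ∀ i, pm (φ.restrictScalars K) (P i) = lam • P i ∨
      pm (φ.restrictScalars K) (P i) = -(lam • P i))
    (hb : IsTranscendenceBasis C fun i : Fin k => xc (P i.succ)) :
    ∃ γ : Fin (k + 1) → ℤ, γ ≠ 0 ∧ ∑ i, γ i • P i = 0 := by
  have hC0 : CharZero C := charZero_of_injective_algebraMap (algebraMap K C).injective
  have hL0 : CharZero L := charZero_of_injective_algebraMap (algebraMap C L).injective
  have halg := hb.isAlgebraic_field
  have hadd : ∀ (D : Derivation C L L) (P Q : Ept a b L), om D (P + Q) = om D P + om D Q :=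
    fun D P Q => hom K a b h0 C L D P Q
  have hlam : (lam : L) ≠ 0 := by
    rw [Nat.cast_ne_zero]
    omega
  -- the signs
  obtain ⟨ε, hε, hφε⟩ : ∃ ε : Fin (k + 1) → ℤ, (∀ i, ε i = 1 ∨ ε i = -1) ∧
      ∀ i, pm (φ.restrictScalars K) (P i) = (ε i * lam) • P i := by
    have h1 : ∀ i, ∃ e : ℤ, (e = 1 ∨ e = -1) ∧
        pm (φ.restrictScalars K) (P i) = (e * lam) • P i := by
      intro i
      rcases hφ i with h | h
      · exact ⟨1, Or.inl rfl, by rw [one_mul, natCast_zsmul]; exact h⟩
      · exact ⟨-1, Or.inr rfl, by rw [neg_one_mul, neg_smul, natCast_zsmul]; exact h⟩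
    choose e he using h1
    exact ⟨e, fun i => (he i).1, fun i => (he i).2⟩
  have hεε : ∀ i, ((ε i : ℤ) : L) * ε i = 1 := by
    intro i
    rcases hε i with h | h <;> rw [h] <;> norm_num
  have hy : ∀ i : Fin k, yc (P i.succ) ≠ 0 := fun i h =>
    hb.1.transcendental i (alg_of_y0 _ h)
  have h2y : ∀ i : Fin k, 2 * yc (P i.succ) ≠ 0 := fun i => mul_ne_zero two_ne_zero (hy i)
  choose D hD using fun j : Fin k => ext_exists hb.1 halg
    (fun i : Fin k => if i = j then 2 * yc (P i.succ) else 0)
  have hom1 : ∀ i j : Fin k, om (D j) (P i.succ) = if i = j then 1 else 0 := by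
    intro i j
    rw [om_eq, hD]
    by_cases h : i = j
    · rw [if_pos h, if_pos h, div_self (h2y i)]
    · rw [if_neg h, if_neg h, zero_div]
  have hcomm : ∀ (j : Fin k) (z : L), D j (φ z) = ((ε j.succ * lam : ℤ) : L) * φ (D j z) := by
    intro j z
    refine ext_comm halg φ (D j) _ (fun i => ?_) z
    have h1 : φ (xc (P i.succ)) = xc (pm (φ.restrictScalars K) (P i.succ)) := by
      rw [xc_pm]; rfl
    have h2 : yc (pm (φ.restrictScalars K) (P i.succ)) = φ (yc (P i.succ)) := by
      rw [yc_pm]; rfl
    rw [h1, D_xc h0, h2, hφε, om_zsmul hadd, hom1, hD]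
    by_cases h : i = j
    · rw [if_pos h, if_pos h, h, map_mul, map_ofNat]
      ring
    · rw [if_neg h, if_neg h, map_zero]
      ring
  -- the multipliers of the first point
  have hg : ∀ j : Fin k, (ε 0 : L) * om (D j) (P 0) = ε j.succ * φ (om (D j) (P 0)) := by
    intro j
    have h1 := om_phi (K := K) (D j) φ _ (hcomm j) (P 0)
    rw [hφε, om_zsmul hadd] at h1
    push_cast at h1
    have h2 : (lam : L) * ((ε 0 : L) * om (D j) (P 0) - ε j.succ * φ (om (D j) (P 0))) = 0 := by
      linear_combination h1
    exact sub_eq_zero.1 ((mul_eq_zero.1 h2).resolve_left hlam)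
  have hg2 : ∀ j : Fin k, φ (om (D j) (P 0) ^ 2) = om (D j) (P 0) ^ 2 := by
    intro j
    rw [map_pow]
    have h1 := congrArg (fun z => z ^ 2) (hg j)
    simp only [mul_pow] at h1
    have h2 : (ε 0 : L) ^ 2 = 1 := by rw [pow_two, hεε]
    have h3 : (ε j.succ : L) ^ 2 = 1 := by rw [pow_two, hεε]
    rw [h2, h3, one_mul, one_mul] at h1
    exact h1.symm
  by_cases hc : ∃ j : Fin k, Transcendental C (om (D j) (P 0) ^ 2)
  · -- a transcendental fixed element
    obtain ⟨j, hj⟩ := hc
    set t := om (D j) (P 0) ^ 2 with ht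
    let C₁ : IntermediateField C L := IntermediateField.adjoin C {t}
    have hfix : ∀ z ∈ C₁, φ z = z := fix_adjoin φ (hg2 j)
    let φ₁ : L →ₐ[C₁] L :=
      { (φ : L →+* L) with
        commutes' := fun c => hfix c c.2 }
    let aK : Algebra K C₁ := ((algebraMap C C₁).comp (algebraMap K C)).toAlgebra
    have htow : IsScalarTower K C₁ L := IsScalarTower.of_algebraMap_eq fun c =>
      IsScalarTower.algebraMap_apply K C L c
    have hres : φ₁.restrictScalars K = φ.restrictScalars K := AlgHom.ext fun z => rfl
    obtain ⟨γ, hγ, hs⟩ := IH C₁ L φ₁ lam hl (fun i : Fin k => P i.succ)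
      (fun i => by rw [hres]; exact hφ i.succ) (by
        intro hi
        have h1 : AlgebraicIndependent C (fun _ : Unit => (⟨t,
            IntermediateField.subset_adjoin C _ rfl⟩ : C₁)) := by
          rw [algebraicIndependent_unique_type_iff]
          intro h2
          exact hj ((isAlgebraic_algebraMap_iff (algebraMap C₁ L).injective).2 h2)
        have h2 := AlgebraicIndependent.sumElim_comp h1 hi
        have h3 := h2.lift_cardinalMk_le_trdeg
        rw [← hb.cardinalMk_eq_trdeg] at h3
        simp only [Cardinal.mk_fintype, Cardinal.lift_id] at h3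
        have h4 : Fintype.card (Fin k ⊕ Unit) ≤ Fintype.card (Fin k) := by exact_mod_cast h3
        rw [Fintype.card_sum, Fintype.card_unit] at h4
        omega)
    refine ⟨Fin.cons 0 γ, fun h => hγ ?_, ?_⟩
    · funext i
      have := congrFun h i.succ
      rwa [Fin.cons_succ] at this
    · rw [Fin.sum_univ_succ]
      simp only [Fin.cons_zero, Fin.cons_succ, zero_smul, zero_add]
      exact hs
  · -- rational multipliers
    push Not at hc
    have hrat : ∀ j : Fin k, ∃ r : ℚ, om (D j) (P 0) = r := by
      intro j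
      have h1 : IsAlgebraic C (om (D j) (P 0) ^ 2) := by
        have h2 := hc j
        rwa [Transcendental, not_not] at h2
      exact rat hK2 h0 hcm hb j (P j.succ) (P 0) rfl (D j)
        (fun i hi => by rw [hD, if_neg hi]) (by rw [hom1, if_pos rfl])
        (h1.of_pow (by norm_num))
    choose r hr using hrat
    -- the common denominator
    set N : ℤ := ∏ j, ((r j).den : ℤ) with hN
    have hN0 : N ≠ 0 := by
      rw [hN, Finset.prod_ne_zero_iff]
      intro j _
      exact_mod_cast (r j).den_ne_zero
    have hint : ∀ j, ∃ m : ℤ, (N : ℚ) * r j = m := by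
      intro j
      have h1 : ((r j).den : ℤ) ∣ N := Finset.dvd_prod_of_mem _ (Finset.mem_univ j)
      obtain ⟨c, hc⟩ := h1
      refine ⟨c * (r j).num, ?_⟩
      rw [hc]
      push_cast
      have h2 : ((r j).den : ℚ) * r j = (r j).num := by
        rw [mul_comm]
        exact Rat.mul_den_eq_num (r j)
      linear_combination (c : ℚ) * h2
    choose m hm using hint
    have hmL : ∀ j, (N : L) * om (D j) (P 0) = m j := by
      intro j
      rw [hr j]
      have := congrArg (fun q : ℚ => (q : L)) (hm j)
      push_cast at this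
      exact this
    set R : Ept a b L := N • P 0 - ∑ j : Fin k, m j • P j.succ with hR
    have homR : ∀ j, om (D j) R = 0 := by
      intro j
      have h1 : om (D j) R = omH hadd (D j) R := rfl
      rw [h1, hR, map_sub, map_zsmul, map_sum]
      have h2 : ∀ i : Fin k, omH hadd (D j) (m i • P i.succ) = if i = j then (m j : L) else 0 := by
        intro i
        rw [map_zsmul, zsmul_eq_mul]
        show (m i : L) * om (D j) (P i.succ) = _
        rw [hom1]
        by_cases h : i = j
        · rw [if_pos h, if_pos h, mul_one, h]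
        · rw [if_neg h, if_neg h, mul_zero]
      rw [Finset.sum_congr rfl fun i _ => h2 i, Finset.sum_ite_eq' Finset.univ j,
        if_pos (Finset.mem_univ j), zsmul_eq_mul]
      show (N : L) * om (D j) (P 0) - _ = 0
      rw [hmL, sub_self]
    have hRalg : IsAlgebraic C (xc R) := by
      refine (ext C L (Fin k) _ hb).2.2 D (fun i => 2 * yc (P i.succ)) h2y ?_ (xc R) ?_
      · intro i j
        rw [hD]
        by_cases h : i = j
        · rw [if_pos h, if_pos h, h]
        · rw [if_neg h, if_neg h]
      · intro j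
        rw [D_xc h0, homR, mul_zero]
    have hεj : ∀ j : Fin k, m j * ε j.succ = m j * ε 0 := by
      intro j
      by_cases hz : r j = 0
      · have h1 : m j = 0 := by
          have h2 := hm j
          rw [hz, mul_zero] at h2
          exact_mod_cast h2.symm
        rw [h1, zero_mul, zero_mul]
      · have h1 := hg j
        rw [hr j, map_ratCast] at h1
        have h2 : ((r j : ℚ) : L) ≠ 0 := by exact_mod_cast hz
        have h3 : (ε 0 : L) = ε j.succ := mul_right_cancel₀ h2 h1
        have h4 : ε 0 = ε j.succ := by exact_mod_cast h3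
        rw [h4]
    have hφR : pm (φ.restrictScalars K) R = (ε 0 * lam) • R := by
      rw [hR, map_sub, map_zsmul, map_sum, hφε 0, smul_sub, smul_comm N, Finset.smul_sum]
      congr 1
      refine Finset.sum_congr rfl fun j _ => ?_
      rw [map_zsmul, hφε, smul_smul, smul_smul]
      congr 1
      have := hεj j
      linear_combination (lam : ℤ) * this
    have hφR' : pm (φ.restrictScalars K) R = lam • R ∨
        pm (φ.restrictScalars K) R = -(lam • R) := by
      rcases hε 0 with h | h
      · left
        rw [hφR, h, one_mul, natCast_zsmul]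
      · right
        rw [hφR, h, neg_one_mul, neg_smul, natCast_zsmul]
    obtain ⟨z, hz0, hz⟩ := tors1 hl φ R hφR' hRalg
    refine ⟨Fin.cons (z * N) fun j => -(z * m j), fun h => ?_, ?_⟩
    · have h1 := congrFun h 0
      rw [Fin.cons_zero] at h1
      exact mul_ne_zero hz0 hN0 h1
    · rw [Fin.sum_univ_succ]
      simp only [Fin.cons_zero, Fin.cons_succ]
      rw [hR, smul_sub, Finset.smul_sum, smul_smul] at hz
      simp only [smul_smul] at hz
      simp only [neg_smul, Finset.sum_neg_distrib]
      rw [← sub_eq_add_neg]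
      exact hz

end Tr

end Pool.DynLehmer.LE
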