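import Pool.Agent.Lib.MP_2194ec_nt.LE.TrC

set_option autoImplicit false
set_option linter.unusedSectionVars false

/-!
# Row TRANS: dependent first coordinates of eigenpoints of an endomorphism of the field
-/

namespace Pool.DynLehmer.LE
open scoped Classical

namespace Tr

open scoped IntermediateField.algebraAdjoinAdjoin

variable {K : Type} [Field K] {a b : K} {L : Type} [Field L] [Algebra K L]
variable {C : Type} [Field C] [Algebra C L]

theorem exists_pt {M : Type} [Field M] [Algebra K M] (ι : M →ₐ[K] L) (P : Ept a b L)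
    {x y : M} (hx : ι x = xc P) (hy : ι y = yc P) : ∃ P' : Ept a b M, pm ι P' = P := by
  match P with
  | .zero => exact ⟨0, map_zero _⟩
  | .some u w h =>
    have hx' : ι x = u := hx
    have hy' : ι y = w := hy
    subst hx' hy'
    exact ⟨.some x y ((WeierstrassCurve.Affine.baseChange_nonsingular (Ws a b)
      (f := ι) ι.injective x y).1 h), rfl⟩

theorem xc_smul_range {M : Type} [Field M] [Algebra K M] (ι : M →ₐ[K] L) (P' : Ept a b M)
    (n : ℕ) : ∃ z : M, ι z = xc (n • pm ι P') := by
  refine ⟨xc (n • P'), ?_⟩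
  rw [← xc_pm, map_nsmul]

theorem yc_alg {F : Type} [Field F] [Algebra F L] [Algebra K F] [IsScalarTower K F L]
    (P : Ept a b L) (h : IsAlgebraic F (xc P)) : IsAlgebraic F (yc P) := by
  match P with
  | .zero => exact isAlgebraic_zero
  | .some x y hh =>
    have h1 := eqn hh
    have h2 : IsAlgebraic F x := h
    have h3 : IsAlgebraic F (y ^ 2) := by
      rw [h1, IsScalarTower.algebraMap_apply K F L a, IsScalarTower.algebraMap_apply K F L b]
      exact ((h2.pow 3).add ((isAlgebraic_algebraMap _).mul h2)).add (isAlgebraic_algebraMap _)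
    exact h3.of_pow (by norm_num)

/-- the induction step over a subfield -/
theorem transfer (hom : OmaddStatement) (hK2 : K2Statement) [CharZero K]
    (h0 : (4 : K) * a ^ 3 + 27 * b ^ 2 ≠ 0) (hcm : NoCM a b) {k : ℕ} (IH : St a b k)
    [Algebra K C] [IsScalarTower K C L] (φ : L →ₐ[C] L) {lam : ℕ} (hl : 2 ≤ lam)
    (P : Fin (k + 1) → Ept a b L)
    (hφ : ∀ i, pm (φ.restrictScalars K) (P i) = lam • P i ∨
      pm (φ.restrictScalars K) (P i) = -(lam • P i))
    {M : Type} [Field M] [Algebra C M] [Algebra K M] [IsScalarTower K C M] [IsAlgClosed M]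
    (ι : M →ₐ[C] L) (φ' : M →ₐ[C] M) (hcomp : ∀ z, ι (φ' z) = φ (ι z))
    (P' : Fin (k + 1) → Ept a b M) (hP' : ∀ i, pm (ι.restrictScalars K) (P' i) = P i)
    (hb : IsTranscendenceBasis C fun i : Fin k => xc (P' i.succ)) :
    ∃ γ : Fin (k + 1) → ℤ, γ ≠ 0 ∧ ∑ i, γ i • P i = 0 := by
  have hinj : Function.Injective (pm (ι.restrictScalars K) : Ept a b M →+ Ept a b L) :=
    WeierstrassCurve.Affine.Point.map_injective _
  have hcomp' : ∀ Q : Ept a b M, pm (ι.restrictScalars K) (pm (φ'.restrictScalars K) Q) =
      pm (φ.restrictScalars K) (pm (ι.restrictScalars K) Q) := by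
    intro Q
    have h1 : (ι.restrictScalars K).comp (φ'.restrictScalars K) =
        (φ.restrictScalars K).comp (ι.restrictScalars K) := AlgHom.ext hcomp
    show WeierstrassCurve.Affine.Point.map _ (WeierstrassCurve.Affine.Point.map _ Q) =
      WeierstrassCurve.Affine.Point.map _ (WeierstrassCurve.Affine.Point.map _ Q)
    rw [WeierstrassCurve.Affine.Point.map_map, WeierstrassCurve.Affine.Point.map_map, h1]
  have hφ' : ∀ i, pm (φ'.restrictScalars K) (P' i) = lam • P' i ∨
      pm (φ'.restrictScalars K) (P' i) = -(lam • P' i) := by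
    intro i
    rcases hφ i with h | h
    · left
      apply hinj
      rw [hcomp', hP', h, map_nsmul, hP']
    · right
      apply hinj
      rw [hcomp', hP', h, map_neg, map_nsmul, hP']
  obtain ⟨γ, hγ, hs⟩ := core hom hK2 h0 hcm IH φ' hl P' hφ' hb
  refine ⟨γ, hγ, ?_⟩
  have h1 := congrArg (pm (ι.restrictScalars K)) hs
  rw [map_sum, map_zero] at h1
  rw [← h1]
  refine Finset.sum_congr rfl fun i _ => ?_
  rw [map_zsmul, hP']

/-- the step from `L` to the algebraic closure of `C (x)` in `L` -/
theorem step (hom : OmaddStatement) (hK2 : K2Statement) [CharZero K]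
    (h0 : (4 : K) * a ^ 3 + 27 * b ^ 2 ≠ 0) (hcm : NoCM a b) {k : ℕ} (IH : St a b k)
    [Algebra K C] [IsScalarTower K C L] [IsAlgClosed L] (φ : L →ₐ[C] L) {lam : ℕ} (hl : 2 ≤ lam)
    (P : Fin (k + 1) → Ept a b L)
    (hφ : ∀ i, pm (φ.restrictScalars K) (P i) = lam • P i ∨
      pm (φ.restrictScalars K) (P i) = -(lam • P i))
    (hx : AlgebraicIndependent C fun i : Fin k => xc (P i.succ))
    (hx0 : IsAlgebraic (IntermediateField.adjoin C (Set.range fun i : Fin k => xc (P i.succ)))
      (xc (P 0))) :
    ∃ γ : Fin (k + 1) → ℤ, γ ≠ 0 ∧ ∑ i, γ i • P i = 0 := by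
  set x : Fin k → L := fun i => xc (P i.succ) with hxd
  set F : IntermediateField C L := IntermediateField.adjoin C (Set.range x) with hF
  let L' : IntermediateField C L := (algebraicClosure F L).restrictScalars C
  have hmem : ∀ z, z ∈ L' ↔ IsAlgebraic F z := fun z => mem_algebraicClosure_iff
  have hcl : IsAlgClosed L' := by
    have h1 : IsAlgClosed (algebraicClosure F L) := IsAlgClosure.isAlgClosed F
    exact h1
  let aKF : Algebra K F := ((algebraMap C F).comp (algebraMap K C)).toAlgebra
  have tKF : IsScalarTower K F L := IsScalarTower.of_algebraMap_eq fun c =>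
    IsScalarTower.algebraMap_apply K C L c
  let aKL : Algebra K L' := ((algebraMap C L').comp (algebraMap K C)).toAlgebra
  have tKCL : IsScalarTower K C L' := IsScalarTower.of_algebraMap_eq fun c => rfl
  have tKL : IsScalarTower K L' L := IsScalarTower.of_algebraMap_eq fun c =>
    IsScalarTower.algebraMap_apply K C L c
  let ι : L' →ₐ[C] L := L'.val
  have hι : ∀ z : L', ι z = (z : L) := fun z => rfl
  have hxF : ∀ i, x i ∈ F := fun i => IntermediateField.subset_adjoin C _ ⟨i, rfl⟩
  have halgx : ∀ i, IsAlgebraic F (xc (P i)) := by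
    intro i
    refine Fin.cases hx0 (fun j => ?_) i
    exact isAlgebraic_algebraMap (⟨x j, hxF j⟩ : F)
  have hP' : ∀ i, ∃ P' : Ept a b L', pm (ι.restrictScalars K) P' = P i := fun i =>
    exists_pt (ι.restrictScalars K) (P i) (x := ⟨xc (P i), (hmem _).2 (halgx i)⟩)
      (y := ⟨yc (P i), (hmem _).2 (yc_alg (P i) (halgx i))⟩) rfl rfl
  choose P' hP' using hP'
  -- the restriction of `φ`
  have hφx : ∀ j, φ (x j) ∈ L' := by
    intro j
    have h1 : φ (x j) = xc (pm (φ.restrictScalars K) (P j.succ)) := by
      rw [xc_pm]; rfl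
    have h2 : xc (pm (φ.restrictScalars K) (P j.succ)) = xc (lam • P j.succ) := by
      rcases hφ j.succ with h | h
      · rw [h]
      · rw [h, xc_neg]
    obtain ⟨z, hz⟩ := xc_smul_range (ι.restrictScalars K) (P' j.succ) lam
    rw [hP'] at hz
    rw [h1, h2, ← hz]
    exact z.2
  have hφF : ∀ z ∈ F, φ z ∈ L' := by
    intro z hz
    induction hz using IntermediateField.adjoin_induction with
    | mem z hz =>
      obtain ⟨j, rfl⟩ := hz
      exact hφx j
    | algebraMap c =>
      rw [φ.commutes]
      exact L'.algebraMap_mem c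
    | add u w _ _ hu hw => rw [map_add]; exact L'.add_mem hu hw
    | inv u _ hu => rw [map_inv₀]; exact L'.inv_mem hu
    | mul u w _ _ hu hw => rw [map_mul]; exact L'.mul_mem hu hw
  have hφL : ∀ z ∈ L', φ z ∈ L' := by
    intro z hz
    have h1 : IsAlgebraic F z := (hmem z).1 hz
    let f : F →+* L' := ((φ : L →+* L).comp (algebraMap F L)).codRestrict L'.toSubring
      (fun z => hφF z z.2)
    have h2 : IsAlgebraic L' (φ z) :=
      h1.ringHom_of_comp_eq f (φ : L →+* L) f.injective rfl
    have h3 : IsAlgebraic (algebraicClosure F L) (φ z) := h2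
    exact (hmem _).2 (h3.restrictScalars F)
  let φ' : L' →ₐ[C] L' :=
    { toFun := fun z => ⟨φ z, hφL z z.2⟩
      map_one' := Subtype.ext (map_one φ)
      map_mul' := fun u w => Subtype.ext (map_mul φ _ _)
      map_zero' := Subtype.ext (map_zero φ)
      map_add' := fun u w => Subtype.ext (map_add φ _ _)
      commutes' := fun c => Subtype.ext (φ.commutes c) }
  have hxc : ∀ i, ((xc (P' i) : L') : L) = xc (P i) := by
    intro i
    rw [← hP' i, xc_pm]
    rfl
  have hind : AlgebraicIndependent C fun i : Fin k => xc (P' i.succ) := by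
    have h1 : AlgebraicIndependent C (ι ∘ fun i : Fin k => xc (P' i.succ)) := by
      have h2 : (ι ∘ fun i : Fin k => xc (P' i.succ)) = x := funext fun i => hxc i.succ
      rw [h2]
      exact hx
    exact h1.of_comp ι
  have hb : IsTranscendenceBasis C fun i : Fin k => xc (P' i.succ) := by
    rw [hind.isTranscendenceBasis_iff_isAlgebraic]
    refine ⟨fun z => ?_⟩
    by_contra hz
    have h1 := (hind.option_iff_transcendental z).2 hz
    have h2 := h1.map' (f := ι) ι.injective
    have h3 : (ι ∘ fun o : Option (Fin k) => o.elim z fun i : Fin k => xc (P' i.succ)) =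
        fun o : Option (Fin k) => o.elim (z : L) x := by
      funext o
      match o with
      | none => rfl
      | some i => exact hxc i.succ
    rw [h3] at h2
    have h4 := (hx.option_iff_transcendental (z : L)).1 h2
    exact h4 ((IsFractionRing.isAlgebraic_iff (Algebra.adjoin C (Set.range x)) F L).2
      ((hmem z).1 z.2))
  exact transfer hom hK2 h0 hcm IH φ hl P hφ ι φ' (fun z => rfl) P' hP' hb

theorem all (hom : OmaddStatement) (hK2 : K2Statement) [CharZero K]
    (h0 : (4 : K) * a ^ 3 + 27 * b ^ 2 ≠ 0) (hcm : NoCM a b) (k : ℕ) : St a b k := by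
  induction k with
  | zero =>
    intro C L _ _ _ _ _ _ _ φ lam _ P _ hdep
    exact absurd (algebraicIndependent_empty_type_iff.2 (algebraMap C L).injective) hdep
  | succ k IH =>
    intro C L _ _ _ _ _ _ _ φ lam hl P hφ hdep
    by_cases h : ∃ i : Fin (k + 1),
        ¬ AlgebraicIndependent C fun j : Fin k => xc (P (i.succAbove j))
    · obtain ⟨i, hi⟩ := h
      obtain ⟨γ, hγ, hs⟩ := IH C L φ lam hl (fun j => P (i.succAbove j))
        (fun j => hφ (i.succAbove j)) hi
      refine ⟨i.insertNth 0 γ, fun h => hγ ?_, ?_⟩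
      · funext j
        have := congrFun h (i.succAbove j)
        rwa [Fin.insertNth_apply_succAbove] at this
      · rw [Fin.sum_univ_succAbove _ i]
        simp only [Fin.insertNth_apply_same, Fin.insertNth_apply_succAbove, zero_smul, zero_add]
        exact hs
    · push Not at h
      have hx : AlgebraicIndependent C fun j : Fin k => xc (P j.succ) := by
        have h1 := h 0
        simpa using h1
      refine step hom hK2 h0 hcm IH φ hl P hφ hx ?_
      rw [← IsFractionRing.isAlgebraic_iff
        (Algebra.adjoin C (Set.range fun i : Fin k => xc (P i.succ))) _ L]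
      by_contra hz
      have h1 := (hx.option_iff_transcendental (xc (P 0))).2 hz
      apply hdep
      have h2 := (algebraicIndependent_equiv (finSuccEquiv k)).2 h1
      have h3 : ((fun o : Option (Fin k) => o.elim (xc (P 0)) fun i : Fin k => xc (P i.succ)) ∘
          finSuccEquiv k) = fun i => xc (P i) := by
        funext i
        refine Fin.cases ?_ (fun j => ?_) i
        · simp
        · simp
      rw [h3] at h2
      exact h2

end Tr

/-- **Row TRANS.** -/
theorem trans (hom : OmaddStatement) (hK2 : K2Statement) : TransStatement := by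
  intro K _ _ a b h0 hcm C L _ _ _ _ _ _ _ φ lam hl k P hφ hdep
  exact Tr.all hom hK2 h0 hcm k C L φ lam hl P hφ hdep

end Pool.DynLehmer.LE
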