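import Pool.Agent.Lib.MP_2194ec_nt.LE.Trans
import Pool.Agent.Lib.MP_2194ec_nt.LE.DefsU

set_option autoImplicit false
set_option linter.unusedSectionVars false

/-!
# Row TRANSU: half of the first coordinates of independent eigenpoints are independent
-/

namespace Pool.DynLehmer.LE
open scoped Classical

namespace TrU

open Tr
open scoped IntermediateField.algebraAdjoinAdjoin

variable {K : Type} [Field K] {a b : K} {L : Type} [Field L] [Algebra K L]
variable {C : Type} [Field C] [Algebra C L]

/-- The multipliers over one point which are algebraic are in `ℚ + ℚ θ`. -/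
theorem rat (hK2 : K2uStatement) [CharZero K] (h0 : (4 : K) * a ^ 3 + 27 * b ^ 2 ≠ 0)
    [Algebra K C] [IsScalarTower K C L] [IsAlgClosed L] {m : ℕ} {x : Fin m → L}
    (hb : IsTranscendenceBasis C x) (j : Fin m) (P₁ : Ept a b L) (hP₁ : xc P₁ = x j)
    (D : Derivation C L L) (hD : ∀ i, i ≠ j → D (x i) = 0) (h1 : om D P₁ = 1) :
    ∃ θ : L, ∀ P : Ept a b L, IsAlgebraic C (om D P) → ∃ r r' : ℚ, om D P = r + r' * θ := by
  have hC0 : CharZero C := charZero_of_injective_algebraMap (algebraMap K C).injective
  have halg := hb.isAlgebraic_field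
  set F : IntermediateField C L := IntermediateField.adjoin C (x '' {j}ᶜ) with hF
  let C₂ : IntermediateField C L := (algebraicClosure F L).restrictScalars C
  have hmem : ∀ z, z ∈ C₂ ↔ IsAlgebraic F z := fun z => mem_algebraicClosure_iff
  have hcl : IsAlgClosed C₂ := by
    have h1 : IsAlgClosed (algebraicClosure F L) := IsAlgClosure.isAlgClosed F
    exact h1
  have hDF : ∀ z ∈ F, D z = 0 := by
    refine kill_adjoin D _ ?_
    rintro _ ⟨i, hi, rfl⟩
    exact hD i hi
  have hDC : ∀ z ∈ C₂, D z = 0 := fun z hz =>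
    kill_alg D F hDF z ((hmem z).1 hz)
  let D₂ : Derivation C₂ L L :=
    { toFun := D
      map_add' := fun u v => map_add D u v
      map_smul' := by
        intro c u
        have h1 : c • u = (c : L) * u := rfl
        rw [h1, Derivation.leibniz, hDC c c.2, smul_zero, add_zero]
        rfl
      map_one_eq_zero' := Derivation.map_one_eq_zero D
      leibniz' := fun u v => Derivation.leibniz D u v }
  have htr : Transcendental C₂ (x j) := by
    intro h
    have h' : IsAlgebraic (algebraicClosure F L) (x j) := h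
    have h2 : IsAlgebraic F (x j) := h'.restrictScalars F
    have h3 := (IsFractionRing.isAlgebraic_iff (Algebra.adjoin C (x '' {j}ᶜ)) F L).2 h2
    exact hb.1.transcendental_adjoin (s := {j}ᶜ) (i := j) (by simp) h3
  have hle : IntermediateField.adjoin C (Set.range x) ≤
      (IntermediateField.adjoin C₂ {x j}).restrictScalars C := by
    rw [IntermediateField.adjoin_le_iff]
    rintro _ ⟨i, rfl⟩
    by_cases hi : i = j
    · rw [hi]
      exact IntermediateField.subset_adjoin C₂ _ rfl
    · have h2 : x i ∈ F := IntermediateField.subset_adjoin C _ ⟨i, hi, rfl⟩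
      have h3 : x i ∈ C₂ := (hmem _).2 (isAlgebraic_algebraMap (⟨x i, h2⟩ : F))
      exact (algebraMap C₂ (IntermediateField.adjoin C₂ {x j}) ⟨x i, h3⟩).2
  have halg₂ : Algebra.IsAlgebraic (IntermediateField.adjoin C₂ {xc P₁}) L := by
    rw [hP₁]
    refine ⟨fun z => ?_⟩
    exact (halg.isAlgebraic z).ringHom_of_comp_eq
      (IntermediateField.inclusion hle : _ →ₐ[C] _) (RingHom.id L)
      (IntermediateField.inclusion hle).injective rfl
  let aK : Algebra K C₂ := ((algebraMap C C₂).comp (algebraMap K C)).toAlgebra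
  have htow : IsScalarTower K C₂ L := IsScalarTower.of_algebraMap_eq fun c =>
    IsScalarTower.algebraMap_apply K C L c
  obtain ⟨θ, hθ⟩ := hK2 K a b h0 C₂
  refine ⟨θ, fun P hg => ?_⟩
  have hgC : om D P ∈ C₂ := (hmem _).2 (hg.extendScalars
    (algebraMap C F).injective)
  obtain ⟨r, r', hr⟩ := hθ L D₂ P₁ P ⟨om D P, hgC⟩ (by rw [hP₁]; exact htr) halg₂ h1 rfl
  refine ⟨r, r', ?_⟩
  have h2 := congrArg (algebraMap C₂ L) hr
  rw [map_add, map_mul, map_ratCast, map_ratCast] at h2
  exact h2

/-- Two systems of linear equations with rational coefficients. -/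
theorem kernel {m k : ℕ} (h : 2 * m < k) (r r' : Fin m → Fin k → ℚ) :
    ∃ c : Fin k → ℤ, c ≠ 0 ∧ (∀ j, ∑ i, (c i : ℚ) * r j i = 0) ∧
      (∀ j, ∑ i, (c i : ℚ) * r' j i = 0) := by
  let f : (Fin k → ℚ) →ₗ[ℚ] (Fin m ⊕ Fin m → ℚ) :=
    { toFun := fun v s => s.elim (fun j => ∑ i, v i * r j i) (fun j => ∑ i, v i * r' j i)
      map_add' := by
        intro u v
        funext s
        rcases s with j | j
        · show ∑ i, (u i + v i) * r j i = ∑ i, u i * r j i + ∑ i, v i * r j i
          rw [← Finset.sum_add_distrib]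
          exact Finset.sum_congr rfl fun i _ => add_mul _ _ _
        · show ∑ i, (u i + v i) * r' j i = ∑ i, u i * r' j i + ∑ i, v i * r' j i
          rw [← Finset.sum_add_distrib]
          exact Finset.sum_congr rfl fun i _ => add_mul _ _ _
      map_smul' := by
        intro c v
        funext s
        rcases s with j | j
        · show ∑ i, (c * v i) * r j i = c * ∑ i, v i * r j i
          rw [Finset.mul_sum]
          exact Finset.sum_congr rfl fun i _ => mul_assoc _ _ _
        · show ∑ i, (c * v i) * r' j i = c * ∑ i, v i * r' j i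
          rw [Finset.mul_sum]
          exact Finset.sum_congr rfl fun i _ => mul_assoc _ _ _ }
  have hker : LinearMap.ker f ≠ ⊥ := by
    apply LinearMap.ker_ne_bot_of_finrank_lt
    simp only [Module.finrank_fintype_fun_eq_card, Fintype.card_sum, Fintype.card_fin]
    omega
  obtain ⟨v, hv, hv0⟩ := Submodule.exists_mem_ne_zero_of_ne_bot hker
  set N : ℤ := ∏ i, ((v i).den : ℤ) with hN
  have hN0 : N ≠ 0 := by
    rw [hN, Finset.prod_ne_zero_iff]
    intro j _
    exact_mod_cast (v j).den_ne_zero
  have hint : ∀ i, ∃ c : ℤ, (c : ℚ) = N * v i := by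
    intro i
    have h1 : ((v i).den : ℤ) ∣ N := Finset.dvd_prod_of_mem _ (Finset.mem_univ i)
    obtain ⟨c, hc⟩ := h1
    refine ⟨c * (v i).num, ?_⟩
    rw [hc]
    push_cast
    have h2 : ((v i).den : ℚ) * v i = (v i).num := by
      rw [mul_comm]
      exact Rat.mul_den_eq_num (v i)
    linear_combination -(c : ℚ) * h2
  choose c hc using hint
  have h1 : ∀ j, ∑ i, v i * r j i = 0 := fun j => congrFun (LinearMap.mem_ker.1 hv) (Sum.inl j)
  have h2 : ∀ j, ∑ i, v i * r' j i = 0 := fun j => congrFun (LinearMap.mem_ker.1 hv) (Sum.inr j)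
  refine ⟨c, fun h => hv0 ?_, fun j => ?_, fun j => ?_⟩
  · funext i
    have h3 := hc i
    rw [h] at h3
    have h4 : (N : ℚ) * v i = 0 := by rw [← h3]; simp
    exact (mul_eq_zero.1 h4).resolve_left (by exact_mod_cast hN0)
  · have h3 : ∑ i, (c i : ℚ) * r j i = N * ∑ i, v i * r j i := by
      rw [Finset.mul_sum]
      exact Finset.sum_congr rfl fun i _ => by rw [hc, mul_assoc]
    rw [h3, h1, mul_zero]
  · have h3 : ∑ i, (c i : ℚ) * r' j i = N * ∑ i, v i * r' j i := by
      rw [Finset.mul_sum]
      exact Finset.sum_congr rfl fun i _ => by rw [hc, mul_assoc]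
    rw [h3, h2, mul_zero]

/-- The case that the fixed elements are algebraic over `C` and that half of the points give a
transcendence basis. -/
theorem core (hom : OmaddStatement) (hK2 : K2uStatement) [CharZero K]
    (h0 : (4 : K) * a ^ 3 + 27 * b ^ 2 ≠ 0) {k m : ℕ}
    [Algebra K C] [IsScalarTower K C L] [IsAlgClosed L] (φ : L →ₐ[C] L) {lam : ℕ} (hl : 2 ≤ lam)
    (P : Fin k → Ept a b L) (hφ : ∀ i, pm (φ.restrictScalars K) (P i) = lam • P i)
    (hfix : ∀ z, φ z = z → IsAlgebraic C z) (ι : Fin m → Fin k) (hm : 2 * m < k)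
    (hb : IsTranscendenceBasis C fun j : Fin m => xc (P (ι j))) :
    ∃ γ : Fin k → ℤ, γ ≠ 0 ∧ ∑ i, γ i • P i = 0 := by
  have hC0 : CharZero C := charZero_of_injective_algebraMap (algebraMap K C).injective
  have hL0 : CharZero L := charZero_of_injective_algebraMap (algebraMap C L).injective
  have halg := hb.isAlgebraic_field
  have hadd : ∀ (D : Derivation C L L) (P Q : Ept a b L), om D (P + Q) = om D P + om D Q :=
    fun D P Q => hom K a b h0 C L D P Q
  have hlam : (lam : L) ≠ 0 := by
    rw [Nat.cast_ne_zero]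
    omega
  have hy : ∀ i : Fin m, yc (P (ι i)) ≠ 0 := fun i h =>
    hb.1.transcendental i (alg_of_y0 _ h)
  have h2y : ∀ i : Fin m, 2 * yc (P (ι i)) ≠ 0 := fun i => mul_ne_zero two_ne_zero (hy i)
  choose D hD using fun j : Fin m => ext_exists hb.1 halg
    (fun i : Fin m => if i = j then 2 * yc (P (ι i)) else 0)
  have hom1 : ∀ i j : Fin m, om (D j) (P (ι i)) = if i = j then 1 else 0 := by
    intro i j
    rw [om_eq, hD]
    by_cases h : i = j
    · rw [if_pos h, if_pos h, div_self (h2y i)]
    · rw [if_neg h, if_neg h, zero_div]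
  have homl : ∀ (j : Fin m) (Q : Ept a b L), om (D j) (lam • Q) = lam * om (D j) Q := by
    intro j Q
    have h1 := map_nsmul (omH hadd (D j)) lam Q
    rw [nsmul_eq_mul] at h1
    exact h1
  have hcomm : ∀ (j : Fin m) (z : L), D j (φ z) = (lam : L) * φ (D j z) := by
    intro j z
    refine ext_comm halg φ (D j) _ (fun i => ?_) z
    have h1 : φ (xc (P (ι i))) = xc (pm (φ.restrictScalars K) (P (ι i))) := by
      rw [xc_pm]; rfl
    have h2 : yc (pm (φ.restrictScalars K) (P (ι i))) = φ (yc (P (ι i))) := by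
      rw [yc_pm]; rfl
    rw [h1, D_xc h0, h2, hφ, homl, hom1, hD]
    by_cases h : i = j
    · rw [if_pos h, if_pos h, map_mul, map_ofNat]
      ring
    · rw [if_neg h, if_neg h, map_zero]
      ring
  have hg : ∀ (j : Fin m) (i : Fin k), φ (om (D j) (P i)) = om (D j) (P i) := by
    intro j i
    have h1 := om_phi (K := K) (D j) φ _ (hcomm j) (P i)
    rw [hφ, homl] at h1
    exact (mul_left_cancel₀ hlam h1).symm
  have hrat : ∀ j : Fin m, ∃ θ : L, ∀ i : Fin k, ∃ r r' : ℚ, om (D j) (P i) = r + r' * θ := by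
    intro j
    obtain ⟨θ, hθ⟩ := rat hK2 h0 hb j (P (ι j)) rfl (D j)
      (fun i hi => by rw [hD, if_neg hi]) (by rw [hom1, if_pos rfl])
    exact ⟨θ, fun i => hθ (P i) (hfix _ (hg j i))⟩
  choose θ r r' hr using hrat
  obtain ⟨c, hc0, hc1, hc2⟩ := kernel hm r r'
  set R : Ept a b L := ∑ i, c i • P i with hR
  have homR : ∀ j, om (D j) R = 0 := by
    intro j
    have h1 : om (D j) R = ∑ i, (c i : L) * om (D j) (P i) := by
      have h2 : om (D j) R = omH hadd (D j) R := rfl
      rw [h2, hR, map_sum]
      refine Finset.sum_congr rfl fun i _ => ?_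
      rw [map_zsmul, zsmul_eq_mul]
      rfl
    have h3 : ∑ i, (c i : L) * om (D j) (P i) =
        ((∑ i, (c i : ℚ) * r j i : ℚ) : L) + ((∑ i, (c i : ℚ) * r' j i : ℚ) : L) * θ j := by
      push_cast
      rw [Finset.sum_mul, ← Finset.sum_add_distrib]
      refine Finset.sum_congr rfl fun i _ => ?_
      rw [hr]
      ring
    rw [h1, h3, hc1, hc2, Rat.cast_zero, zero_mul, add_zero]
  have hRalg : IsAlgebraic C (xc R) := by
    refine (ext C L (Fin m) _ hb).2.2 D (fun i => 2 * yc (P (ι i))) h2y ?_ (xc R) ?_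
    · intro i j
      rw [hD]
      by_cases h : i = j
      · rw [if_pos h, if_pos h, h]
      · rw [if_neg h, if_neg h]
    · intro j
      rw [D_xc h0, homR, mul_zero]
  have hφR : pm (φ.restrictScalars K) R = lam • R := by
    rw [hR, map_sum, Finset.smul_sum]
    refine Finset.sum_congr rfl fun i _ => ?_
    rw [map_zsmul, hφ, smul_comm]
  obtain ⟨z, hz0, hz⟩ := tors1 hl φ R (Or.inl hφR) hRalg
  refine ⟨fun i => z * c i, fun h => hc0 ?_, ?_⟩
  · funext i
    exact (mul_eq_zero.1 (congrFun h i)).resolve_left hz0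
  · rw [hR, Finset.smul_sum] at hz
    rw [← hz]
    exact Finset.sum_congr rfl fun i _ => mul_smul _ _ _

/-- the case of a subfield -/
theorem transfer (hom : OmaddStatement) (hK2 : K2uStatement) [CharZero K]
    (h0 : (4 : K) * a ^ 3 + 27 * b ^ 2 ≠ 0) {k m : ℕ}
    [Algebra K C] [IsScalarTower K C L] (φ : L →ₐ[C] L) {lam : ℕ} (hl : 2 ≤ lam)
    (P : Fin k → Ept a b L) (hφ : ∀ i, pm (φ.restrictScalars K) (P i) = lam • P i)
    (hfix : ∀ z, φ z = z → IsAlgebraic C z)
    {M : Type} [Field M] [Algebra C M] [Algebra K M] [IsScalarTower K C M] [IsAlgClosed M]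
    (ι : M →ₐ[C] L) (φ' : M →ₐ[C] M) (hcomp : ∀ z, ι (φ' z) = φ (ι z))
    (P' : Fin k → Ept a b M) (hP' : ∀ i, pm (ι.restrictScalars K) (P' i) = P i)
    (e : Fin m → Fin k) (hm : 2 * m < k)
    (hb : IsTranscendenceBasis C fun j : Fin m => xc (P' (e j))) :
    ∃ γ : Fin k → ℤ, γ ≠ 0 ∧ ∑ i, γ i • P i = 0 := by
  have hinj : Function.Injective (pm (ι.restrictScalars K) : Ept a b M →+ Ept a b L) :=
    WeierstrassCurve.Affine.Point.map_injective _
  have hcomp' : ∀ Q : Ept a b M, pm (ι.restrictScalars K) (pm (φ'.restrictScalars K) Q) =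
      pm (φ.restrictScalars K) (pm (ι.restrictScalars K) Q) := by
    intro Q
    have h1 : (ι.restrictScalars K).comp (φ'.restrictScalars K) =
        (φ.restrictScalars K).comp (ι.restrictScalars K) := AlgHom.ext hcomp
    show WeierstrassCurve.Affine.Point.map _ (WeierstrassCurve.Affine.Point.map _ Q) =
      WeierstrassCurve.Affine.Point.map _ (WeierstrassCurve.Affine.Point.map _ Q)
    rw [WeierstrassCurve.Affine.Point.map_map, WeierstrassCurve.Affine.Point.map_map, h1]
  have hφ' : ∀ i, pm (φ'.restrictScalars K) (P' i) = lam • P' i := by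
    intro i
    apply hinj
    rw [hcomp', hP', hφ, map_nsmul, hP']
  have hfix' : ∀ z, φ' z = z → IsAlgebraic C z := by
    intro z hz
    have h1 : φ (ι z) = ι z := by rw [← hcomp, hz]
    exact (isAlgebraic_algHom_iff ι ι.injective).1 (hfix _ h1)
  obtain ⟨γ, hγ, hs⟩ := core hom hK2 h0 φ' hl P' hφ' hfix' e hm hb
  refine ⟨γ, hγ, ?_⟩
  have h1 := congrArg (pm (ι.restrictScalars K)) hs
  rw [map_sum, map_zero] at h1
  rw [← h1]
  refine Finset.sum_congr rfl fun i _ => ?_
  rw [map_zsmul, hP']

/-- the step from `L` to the algebraic closure of `C (x)` in `L` -/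
theorem step (hom : OmaddStatement) (hK2 : K2uStatement) [CharZero K]
    (h0 : (4 : K) * a ^ 3 + 27 * b ^ 2 ≠ 0) {k m : ℕ}
    [Algebra K C] [IsScalarTower K C L] [IsAlgClosed L] (φ : L →ₐ[C] L) {lam : ℕ} (hl : 2 ≤ lam)
    (P : Fin k → Ept a b L) (hφ : ∀ i, pm (φ.restrictScalars K) (P i) = lam • P i)
    (hfix : ∀ z, φ z = z → IsAlgebraic C z) (e : Fin m → Fin k) (hm : 2 * m < k)
    (hx : AlgebraicIndependent C fun j : Fin m => xc (P (e j)))
    (halgx : ∀ i, IsAlgebraic
      (IntermediateField.adjoin C (Set.range fun j : Fin m => xc (P (e j)))) (xc (P i))) :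
    ∃ γ : Fin k → ℤ, γ ≠ 0 ∧ ∑ i, γ i • P i = 0 := by
  set x : Fin m → L := fun i => xc (P (e i)) with hxd
  set F : IntermediateField C L := IntermediateField.adjoin C (Set.range x) with hF
  let L' : IntermediateField C L := (algebraicClosure F L).restrictScalars C
  have hmem : ∀ z, z ∈ L' ↔ IsAlgebraic F z := fun z => mem_algebraicClosure_iff
  have hcl : IsAlgClosed L' := by
    have h1 : IsAlgClosed (algebraicClosure F L) := IsAlgClosure.isAlgClosed F
    exact h1
  let aKF : Algebra K F := ((algebraMap C F).comp (algebraMap K C)).toAlgebra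
  have tKF : IsScalarTower K F L := IsScalarTower.of_algebraMap_eq fun c =>
    IsScalarTower.algebraMap_apply K C L c
  let aKL : Algebra K L' := ((algebraMap C L').comp (algebraMap K C)).toAlgebra
  have tKCL : IsScalarTower K C L' := IsScalarTower.of_algebraMap_eq fun c => rfl
  have tKL : IsScalarTower K L' L := IsScalarTower.of_algebraMap_eq fun c =>
    IsScalarTower.algebraMap_apply K C L c
  let ι : L' →ₐ[C] L := L'.val
  have hι : ∀ z : L', ι z = (z : L) := fun z => rfl
  have hP' : ∀ i, ∃ P' : Ept a b L', pm (ι.restrictScalars K) P' = P i := fun i =>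
    exists_pt (ι.restrictScalars K) (P i) (x := ⟨xc (P i), (hmem _).2 (halgx i)⟩)
      (y := ⟨yc (P i), (hmem _).2 (yc_alg (P i) (halgx i))⟩) rfl rfl
  choose P' hP' using hP'
  -- the restriction of `φ`
  have hφx : ∀ j, φ (x j) ∈ L' := by
    intro j
    have h1 : φ (x j) = xc (pm (φ.restrictScalars K) (P (e j))) := by
      rw [xc_pm]; rfl
    obtain ⟨z, hz⟩ := xc_smul_range (ι.restrictScalars K) (P' (e j)) lam
    rw [hP'] at hz
    rw [h1, hφ, ← hz]
    exact z.2
  have hφF : ∀ z ∈ F, φ z ∈ L' := by
    intro z hz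
    induction hz using IntermediateField.adjoin_induction with
    | mem z hz =>
      obtain ⟨j, rfl⟩ := hz
      exact hφx j
    | algebraMap c =>
      rw [φ.commutes]
      exact L'.algebraMap_mem c
    | add u w _ _ hu hw => rw [map_add]; exact L'.add_mem hu hw
    | inv u _ hu => rw [map_inv₀]; exact L'.inv_mem hu
    | mul u w _ _ hu hw => rw [map_mul]; exact L'.mul_mem hu hw
  have hφL : ∀ z ∈ L', φ z ∈ L' := by
    intro z hz
    have h1 : IsAlgebraic F z := (hmem z).1 hz
    let f : F →+* L' := ((φ : L →+* L).comp (algebraMap F L)).codRestrict L'.toSubring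
      (fun z => hφF z z.2)
    have h2 : IsAlgebraic L' (φ z) :=
      h1.ringHom_of_comp_eq f (φ : L →+* L) f.injective rfl
    have h3 : IsAlgebraic (algebraicClosure F L) (φ z) := h2
    exact (hmem _).2 (h3.restrictScalars F)
  let φ' : L' →ₐ[C] L' :=
    { toFun := fun z => ⟨φ z, hφL z z.2⟩
      map_one' := Subtype.ext (map_one φ)
      map_mul' := fun u w => Subtype.ext (map_mul φ _ _)
      map_zero' := Subtype.ext (map_zero φ)
      map_add' := fun u w => Subtype.ext (map_add φ _ _)
      commutes' := fun c => Subtype.ext (φ.commutes c) }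
  have hxc : ∀ i, ((xc (P' i) : L') : L) = xc (P i) := by
    intro i
    rw [← hP' i, xc_pm]
    rfl
  have hind : AlgebraicIndependent C fun i : Fin m => xc (P' (e i)) := by
    have h1 : AlgebraicIndependent C (ι ∘ fun i : Fin m => xc (P' (e i))) := by
      have h2 : (ι ∘ fun i : Fin m => xc (P' (e i))) = x := funext fun i => hxc (e i)
      rw [h2]
      exact hx
    exact h1.of_comp ι
  have hb : IsTranscendenceBasis C fun i : Fin m => xc (P' (e i)) := by
    rw [hind.isTranscendenceBasis_iff_isAlgebraic]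
    refine ⟨fun z => ?_⟩
    by_contra hz
    have h1 := (hind.option_iff_transcendental z).2 hz
    have h2 := h1.map' (f := ι) ι.injective
    have h3 : (ι ∘ fun o : Option (Fin m) => o.elim z fun i : Fin m => xc (P' (e i))) =
        fun o : Option (Fin m) => o.elim (z : L) x := by
      funext o
      match o with
      | none => rfl
      | some i => exact hxc (e i)
    rw [h3] at h2
    have h4 := (hx.option_iff_transcendental (z : L)).1 h2
    exact h4 ((IsFractionRing.isAlgebraic_iff (Algebra.adjoin C (Set.range x)) F L).2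
      ((hmem z).1 z.2))
  exact transfer hom hK2 h0 φ hl P hφ hfix ι φ' (fun z => rfl) P' hP' e hm hb

/-- a maximal algebraically independent subfamily -/
theorem maximal {k : ℕ} (x : Fin k → L) : ∃ (m : ℕ) (e : Fin m → Fin k), Function.Injective e ∧
    (AlgebraicIndependent C fun j => x (e j)) ∧
    ∀ i, IsAlgebraic (IntermediateField.adjoin C (Set.range fun j => x (e j))) (x i) := by
  by_contra hcon
  have h1 : ∀ m : ℕ, ∃ e : Fin m → Fin k, AlgebraicIndependent C fun j => x (e j) := by
    intro m
    induction m with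
    | zero =>
      exact ⟨fun j => j.elim0,
        algebraicIndependent_empty_type_iff.2 (algebraMap C L).injective⟩
    | succ m ih =>
      obtain ⟨e, he⟩ := ih
      by_contra hno
      apply hcon
      have hinj : Function.Injective e := fun i j hij => he.injective (by
        show x (e i) = x (e j)
        rw [hij])
      refine ⟨m, e, hinj, he, fun i => ?_⟩
      rw [← IsFractionRing.isAlgebraic_iff
        (Algebra.adjoin C (Set.range fun j => x (e j))) _ L]
      by_contra hz
      have h1 := (he.option_iff_transcendental (x i)).2 hz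
      apply hno
      have h2 := (algebraicIndependent_equiv (finSuccEquiv m)).2 h1
      refine ⟨Fin.cons i e, ?_⟩
      have h3 : ((fun o : Option (Fin m) => o.elim (x i) fun j => x (e j)) ∘
          finSuccEquiv m) = fun j => x ((Fin.cons i e : Fin (m + 1) → Fin k) j) := by
        funext j
        refine Fin.cases ?_ (fun j => ?_) j
        · simp
        · simp
      rw [h3] at h2
      exact h2
  obtain ⟨e, he⟩ := h1 (k + 1)
  have hinj : Function.Injective e := fun i j hij => he.injective (by
    show x (e i) = x (e j)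
    rw [hij])
  have h2 := Fintype.card_le_of_injective e hinj
  simp only [Fintype.card_fin] at h2
  omega

end TrU

open Tr in
/-- **Row TRANSU.** -/
theorem transu (hom : OmaddStatement) (hK2 : K2uStatement) : TransuStatement := by
  intro K _ _ a b h0 C L _ _ _ _ _ _ _ φ lam hl k P hφ hindep
  by_contra hcon'
  have hdep : ∀ (m : ℕ) (ι : Fin m → Fin k), Function.Injective ι → k ≤ 2 * m →
      ¬ AlgebraicIndependent C (fun i => xc (P (ι i))) :=
    fun m ι hι hk h => hcon' ⟨m, ι, hι, hk, h⟩
  set φ₂ : L →ₐ[C] L := φ.comp φ with hφ₂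
  have hφP : ∀ i, pm (φ₂.restrictScalars K) (P i) = (lam * lam) • P i := by
    intro i
    have h1 : ∀ Q : Ept a b L, pm (φ₂.restrictScalars K) Q =
        pm (φ.restrictScalars K) (pm (φ.restrictScalars K) Q) := by
      intro Q
      have h2 : (φ.restrictScalars K).comp (φ.restrictScalars K) = φ₂.restrictScalars K :=
        AlgHom.ext fun z => rfl
      show _ = WeierstrassCurve.Affine.Point.map _ (WeierstrassCurve.Affine.Point.map _ Q)
      rw [WeierstrassCurve.Affine.Point.map_map, h2]
      rfl
    rw [h1]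
    rcases hφ i with h | h
    · rw [h, map_nsmul, h, mul_smul]
    · rw [h, map_neg, map_nsmul, h, smul_neg, neg_neg, mul_smul]
  let C₁ : IntermediateField C L :=
    { carrier := {z | φ₂ z = z}
      mul_mem' := fun {u w} hu hw => by
        show φ₂ (u * w) = u * w
        rw [map_mul, hu, hw]
      add_mem' := fun {u w} hu hw => by
        show φ₂ (u + w) = u + w
        rw [map_add, hu, hw]
      algebraMap_mem' := fun c => φ₂.commutes c
      inv_mem' := fun u hu => by
        show φ₂ u⁻¹ = u⁻¹
        rw [map_inv₀, hu] }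
  let φ₁ : L →ₐ[C₁] L :=
    { (φ₂ : L →+* L) with
      commutes' := fun c => c.2 }
  let aK : Algebra K C₁ := ((algebraMap C C₁).comp (algebraMap K C)).toAlgebra
  have htow : IsScalarTower K C₁ L := IsScalarTower.of_algebraMap_eq fun c =>
    IsScalarTower.algebraMap_apply K C L c
  have hres : φ₁.restrictScalars K = φ₂.restrictScalars K := AlgHom.ext fun z => rfl
  obtain ⟨m, e, hinj, hind, halg⟩ := TrU.maximal (C := C₁) fun i => xc (P i)
  have hm : 2 * m < k := by
    by_contra hcon
    push Not at hcon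
    exact hdep m e hinj hcon (hind.restrictScalars (algebraMap C C₁).injective)
  have hll : 2 ≤ lam * lam := by nlinarith
  obtain ⟨γ, hγ, hs⟩ := TrU.step hom hK2 h0 φ₁ hll P (fun i => by rw [hres]; exact hφP i)
    (fun z hz => isAlgebraic_algebraMap (⟨z, hz⟩ : C₁)) e hm hind halg
  exact hγ (hindep γ hs)

end Pool.DynLehmer.LE
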